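import Pool.Agent.MP_fe6ac3_nt.Frac

/-!
# Auxiliary definitions for the proof

* `Chart`: coordinates `s_l` on `ℂ^{Y ⊕ S}` which are affine-linear in the `S`-variables with
  coefficients in `ℂ[Y]`.
* `Model`: a module over the differential operators in `(y, s)` with coefficients in `ℂ(y)[s]`.
* `KRel`: the relations satisfied by the distinguished generator.
* The standard Vogan variety with dimension vector `(2, 4 + k, 4, 4, 2)`, in block matrices.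
-/

open MvPolynomial

namespace Adams

noncomputable section

/-! ## Localization -/

section Loc

variable {σ : Type}

/-- `ℂ[x, 1/q]` as a subset of the function field -/
def locAway (q : O σ) : Set (K σ) := {f | ∃ n : ℕ, ∃ g : O σ, ι (q ^ n) * f = ι g}

/-- the local ring `O_I` as a subset of the function field -/
def locRing (I : Ideal (O σ)) : Set (K σ) := {f | ∃ s, s ∉ I ∧ ∃ g : O σ, ι s * f = ι g}

end Loc

/-! ## Charts -/

/-- coordinates `(y, s)` on `ℂ^{Y ⊕ S}`, affine-linear over `ℂ[y]` in the variables `z` -/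
structure Chart (Y S : Type) [Fintype S] [DecidableEq S] where
  /-- the coordinate functions `s_l` -/
  s : S → O (Y ⊕ S)
  /-- the matrix of the linear part -/
  T : Matrix S S (O Y)
  /-- the constant term -/
  t : S → O Y
  hs : ∀ l, s l = ∑ m, rename Sum.inl (T l m) * X (Sum.inr m) + rename Sum.inl (t l)
  hT : T.det ≠ 0

section ChartDefs

variable {Y S : Type} [Fintype Y] [DecidableEq Y] [Fintype S] [DecidableEq S]

/-- the coefficientwise derivation `∂/∂y_j` of `ℂ(y)[s]` -/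
def dY (j : Y) : MvPolynomial S (K Y) →+ MvPolynomial S (K Y) where
  toFun := AddMonoidAlgebra.map ((pdD j).toLinearMap.toAddMonoidHom : K Y →+ K Y)
  map_zero' := AddMonoidAlgebra.map_zero _
  map_add' := AddMonoidAlgebra.map_add _

omit [Fintype Y] [DecidableEq Y] [Fintype S] [DecidableEq S] in
@[simp] theorem dY_monomial (j : Y) (m : S →₀ ℕ) (c : K Y) :
    dY j (monomial m c) = monomial m (pd j c) :=
  AddMonoidAlgebra.map_single _ _ _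

omit [Fintype Y] [DecidableEq Y] [Fintype S] [DecidableEq S] in
@[simp] theorem dY_C (j : Y) (c : K Y) : dY j (C c : MvPolynomial S (K Y)) = C (pd j c) :=
  dY_monomial j 0 c

omit [Fintype Y] [DecidableEq Y] [Fintype S] [DecidableEq S] in
@[simp] theorem dY_X (j : Y) (l : S) : dY j (X l : MvPolynomial S (K Y)) = 0 := by
  have := dY_monomial j (Finsupp.single l 1) (1 : K Y)
  rw [pd_one, monomial_zero] at this
  exact this

omit [Fintype Y] [DecidableEq Y] [Fintype S] [DecidableEq S] in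
theorem dY_mul (j : Y) (f g : MvPolynomial S (K Y)) :
    dY j (f * g) = f * dY j g + g * dY j f := by
  induction f using MvPolynomial.induction_on' with
  | add p q hp hq => rw [add_mul, map_add, hp, hq, map_add]; ring
  | monomial m c =>
    induction g using MvPolynomial.induction_on' with
    | add p q hp hq => rw [mul_add, map_add, hp, hq, map_add]; ring
    | monomial m' c' =>
      rw [monomial_mul, dY_monomial, dY_monomial, dY_monomial, monomial_mul, monomial_mul,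
        add_comm m' m, ← map_add, pd_mul]

/-- the inverse of the matrix `T`, over `ℂ(y)` -/
def Chart.Tinv (c : Chart Y S) : Matrix S S (K Y) := (c.T.map ι)⁻¹

/-- the embedding `ℂ[y, z] → ℂ(y)[s]` -/
def Chart.Ψ (c : Chart Y S) : O (Y ⊕ S) →+* MvPolynomial S (K Y) :=
  eval₂Hom ((C : K Y →+* MvPolynomial S (K Y)).comp ((ι : O Y →+* K Y).comp C))
    (Sum.elim (fun j => C (ι (X j)))
      (fun m => ∑ l, C (c.Tinv m l) * (X l - C (ι (c.t l)))))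

end ChartDefs

/-! ## Models -/

/-- A module `M` over the differential operators in the coordinates `(y, s)` with coefficients in
`ℂ(y)[s]`, with a submodule `N`. -/
structure Model (Y S M : Type) [AddCommGroup M] where
  /-- the submodule -/
  N : AddSubgroup M
  /-- the action of `ℂ(y)[s]` -/
  ρ : MvPolynomial S (K Y) →+* AddMonoid.End M
  /-- the action of `∂/∂s_l` -/
  δ : S → AddMonoid.End M
  /-- the action of `∂/∂y_j` -/
  δy : Y → AddMonoid.End M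
  ρN : ∀ f, ∀ m ∈ N, ρ f m ∈ N
  δN : ∀ l, ∀ m ∈ N, δ l m ∈ N
  δyN : ∀ j, ∀ m ∈ N, δy j m ∈ N
  δρ : ∀ l f m, δ l (ρ f m) = ρ (pderiv l f) m + ρ f (δ l m)
  δyρ : ∀ j f m, δy j (ρ f m) = ρ (dY j f) m + ρ f (δy j m)
  δδ : ∀ l l' m, δ l (δ l' m) = δ l' (δ l m)
  δyδ : ∀ j l m, δy j (δ l m) = δ l (δy j m)

section ModelDefs

variable {Y S M : Type} [Fintype Y] [DecidableEq Y] [Fintype S] [DecidableEq S] [AddCommGroup M]

/-- the action of `∂/∂x_i`, `i ∈ Y ⊕ S`, on a model -/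
def Model.D (m : Model Y S M) (c : Chart Y S) (i : Y ⊕ S) : AddMonoid.End M :=
  (Sum.elim (fun j => m.δy j) (fun _ => 0) i) +
    ∑ l, m.ρ (c.Ψ (pderiv i (c.s l))) * m.δ l

/-- the action of `∂_{w_1} ⋯ ∂_{w_m}` on a model -/
def Model.DWord (m : Model Y S M) (c : Chart Y S) (w : List (Y ⊕ S)) (x : M) : M :=
  w.foldr (fun i g => m.D c i g) x

/-- the action of a differential operator with polynomial coefficients in the original
coordinates on a model -/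
def Model.act (m : Model Y S M) (c : Chart Y S) (P : Op (Y ⊕ S)) (x : M) : M :=
  P.sum fun w p => m.ρ (c.Ψ p) (m.DWord c w x)

/-- the pairs `(P κ₁, P κ₂)` -/
inductive Model.Gen {M₁ M₂ : Type} [AddCommGroup M₁] [AddCommGroup M₂]
    (m₁ : Model Y S M₁) (m₂ : Model Y S M₂) (κ₁ : M₁) (κ₂ : M₂) : M₁ → M₂ → Prop
  | base : Model.Gen m₁ m₂ κ₁ κ₂ κ₁ κ₂
  | add {x₁ x₂ x₁' x₂'} : Model.Gen m₁ m₂ κ₁ κ₂ x₁ x₂ → Model.Gen m₁ m₂ κ₁ κ₂ x₁' x₂' →
      Model.Gen m₁ m₂ κ₁ κ₂ (x₁ + x₁') (x₂ + x₂')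
  | rho (f) {x₁ x₂} : Model.Gen m₁ m₂ κ₁ κ₂ x₁ x₂ →
      Model.Gen m₁ m₂ κ₁ κ₂ (m₁.ρ f x₁) (m₂.ρ f x₂)
  | del (l) {x₁ x₂} : Model.Gen m₁ m₂ κ₁ κ₂ x₁ x₂ →
      Model.Gen m₁ m₂ κ₁ κ₂ (m₁.δ l x₁) (m₂.δ l x₂)
  | dely (j) {x₁ x₂} : Model.Gen m₁ m₂ κ₁ κ₂ x₁ x₂ →
      Model.Gen m₁ m₂ κ₁ κ₂ (m₁.δy j x₁) (m₂.δy j x₂)

/-- `s_a ∂_{s_b} κ` -/
def Model.e (m : Model Y S M) (κ : M) (a b : S) : M := m.ρ (X a) (m.δ b κ)

end ModelDefs

/-! ## The standard varieties -/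

/-- index set of the `y`-coordinates: `2 × 2` blocks `a₁, a₂, p₁', p₂', q₁', q₂', r₁, r₂`, and the
blocks `a₃` (`k × 2`) and `p₁''` (`2 × k`) -/
abbrev YT (k : ℕ) : Type := (Fin 8 × Fin 2 × Fin 2) ⊕ ((Fin k × Fin 2) ⊕ (Fin 2 × Fin k))

/-- index set of the `z`-coordinates: `2 × 2` blocks `p₁, p₂, q₁, q₂` and the block `p₂''`
(`2 × k`); also index set of the `s`-coordinates `α, β, ε, δ, γ` -/
abbrev ST (k : ℕ) : Type := (Fin 4 × Fin 2 × Fin 2) ⊕ (Fin 2 × Fin k)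

section Std

variable {R : Type*} [CommRing R] {k : ℕ}

/-- the `2 × 2` blocks of `y` -/
def yB (y : YT k → R) (b : Fin 8) : Matrix (Fin 2) (Fin 2) R :=
  Matrix.of fun i j => y (Sum.inl (b, i, j))
/-- the block `a₃` -/
def yA3 (y : YT k → R) : Matrix (Fin k) (Fin 2) R :=
  Matrix.of fun e j => y (Sum.inr (Sum.inl (e, j)))
/-- the block `p₁''` -/
def yP3 (y : YT k → R) : Matrix (Fin 2) (Fin k) R :=
  Matrix.of fun i e => y (Sum.inr (Sum.inr (i, e)))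
/-- the `2 × 2` blocks of `z` -/
def zB (z : ST k → R) (b : Fin 4) : Matrix (Fin 2) (Fin 2) R :=
  Matrix.of fun i j => z (Sum.inl (b, i, j))
/-- the block `p₂''` -/
def zP3 (z : ST k → R) : Matrix (Fin 2) (Fin k) R :=
  Matrix.of fun i e => z (Sum.inr (i, e))

/-- the map `V₁ → V₂` -/
def x12 (y : YT k → R) : Matrix (Fin 2 ⊕ Fin 2 ⊕ Fin k) (Fin 2) R :=
  Matrix.fromRows (yB y 0) (Matrix.fromRows (yB y 1) (yA3 y))
/-- the map `V₂ → V₃` -/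
def x23 (y : YT k → R) (z : ST k → R) : Matrix (Fin 2 ⊕ Fin 2) (Fin 2 ⊕ Fin 2 ⊕ Fin k) R :=
  Matrix.fromRows
    (Matrix.fromCols (zB z 0) (Matrix.fromCols (yB y 2) (yP3 y)))
    (Matrix.fromCols (zB z 1) (Matrix.fromCols (yB y 3) (zP3 z)))
/-- the map `V₃ → V₄` -/
def x34 (y : YT k → R) (z : ST k → R) : Matrix (Fin 2 ⊕ Fin 2) (Fin 2 ⊕ Fin 2) R :=
  Matrix.fromBlocks (yB y 4) (yB y 5) (zB z 2) (zB z 3)
/-- the map `V₄ → V₅` -/
def x45 (y : YT k → R) : Matrix (Fin 2) (Fin 2 ⊕ Fin 2) R :=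
  Matrix.fromCols (yB y 6) (yB y 7)

/-- upper block of `P = x23 x12` -/
def P1 (y : YT k → R) (z : ST k → R) : Matrix (Fin 2) (Fin 2) R :=
  zB z 0 * yB y 0 + yB y 2 * yB y 1 + yP3 y * yA3 y
/-- lower block of `P = x23 x12` -/
def P2 (y : YT k → R) (z : ST k → R) : Matrix (Fin 2) (Fin 2) R :=
  zB z 1 * yB y 0 + yB y 3 * yB y 1 + zP3 z * yA3 y
/-- left block of `Y = x45 x34` -/
def Y1 (y : YT k → R) (z : ST k → R) : Matrix (Fin 2) (Fin 2) R :=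
  yB y 6 * yB y 4 + yB y 7 * zB z 2
/-- right block of `Y = x45 x34` -/
def Y2 (y : YT k → R) (z : ST k → R) : Matrix (Fin 2) (Fin 2) R :=
  yB y 6 * yB y 5 + yB y 7 * zB z 3
/-- `ρ = q' p'` -/
def rh (y : YT k → R) : Matrix (Fin 2) (Fin 2) R := yB y 4 * yB y 2 + yB y 5 * yB y 3

/-- `α = q' P` -/
def al (y : YT k → R) (z : ST k → R) : Matrix (Fin 2) (Fin 2) R :=
  yB y 4 * P1 y z + yB y 5 * P2 y z
/-- `β = det ρ P₂ - p₂' adj(ρ) q' P` -/
def be (y : YT k → R) (z : ST k → R) : Matrix (Fin 2) (Fin 2) R :=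
  (rh y).det • P2 y z - yB y 3 * (rh y).adjugate * al y z
/-- `ε = Y p' adj(ρ)` -/
def ep (y : YT k → R) (z : ST k → R) : Matrix (Fin 2) (Fin 2) R :=
  (Y1 y z * yB y 2 + Y2 y z * yB y 3) * (rh y).adjugate
/-- `δ = det(q₁') Y₂ - Y₁ adj(q₁') q₂'` -/
def de (y : YT k → R) (z : ST k → R) : Matrix (Fin 2) (Fin 2) R :=
  (yB y 4).det • Y2 y z - Y1 y z * (yB y 4).adjugate * yB y 5
/-- `γ = det ρ p₂'' - p₂' adj(ρ) q' p''` -/
def ga (y : YT k → R) (z : ST k → R) : Matrix (Fin 2) (Fin k) R :=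
  (rh y).det • zP3 z - yB y 3 * (rh y).adjugate * (yB y 4 * yP3 y + yB y 5 * zP3 z)

/-- the new coordinates `s = (α, β, ε, δ; γ)` -/
def sF (y : YT k → R) (z : ST k → R) : ST k → R :=
  Sum.elim (fun a => (![al y z, be y z, ep y z, de y z] a.1) a.2.1 a.2.2)
    (fun a => ga y z a.1 a.2)

/-- the eight quadrics -/
def quad (s : ST k → R) : Fin 8 → R :=
  let a : Matrix (Fin 2) (Fin 2) R := zB s 0
  let b : Matrix (Fin 2) (Fin 2) R := zB s 1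
  let e : Matrix (Fin 2) (Fin 2) R := zB s 2
  let d : Matrix (Fin 2) (Fin 2) R := zB s 3
  ![a 0 0 * a 1 1 - a 0 1 * a 1 0,
    a 0 0 * b 0 1 - a 0 1 * b 0 0,
    a 0 0 * b 1 1 - a 0 1 * b 1 0,
    e 0 1 * a 1 0 + e 0 0 * a 0 0,
    e 1 1 * a 1 0 + e 1 0 * a 0 0,
    d 0 1 * b 1 0 + d 0 0 * b 0 0,
    e 0 0 * d 1 0 - e 1 0 * d 0 0,
    d 1 0 * b 0 0 + d 1 1 * b 1 0]

/-- the quadrics for the block `γ` -/
def quadE (s : ST k → R) (e : Fin k) : R :=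
  s (Sum.inl (1, 0, 0)) * s (Sum.inr (1, e)) - s (Sum.inl (1, 1, 0)) * s (Sum.inr (0, e))

/-- all `8 + k` quadrics -/
def quadAll (s : ST k → R) (j : Fin (8 + k)) : R := Fin.addCases (quad s) (quadE s) j

end Std

/-- the coordinate functions `s_l` as polynomials -/
def sO (k : ℕ) : ST k → O (YT k ⊕ ST k) := sF (fun i => X (Sum.inl i)) (fun i => X (Sum.inr i))

/-- the system of equations -/
def qsys (k : ℕ) (j : Fin (8 + k)) : O (YT k ⊕ ST k) := quadAll (sO k) j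

/-- the index set of the free `s`-coordinates -/
abbrev UT (k : ℕ) : Type := Fin 8 ⊕ Fin k

/-- the free `s`-coordinates `α₀₀, α₀₁, α₁₀, β₀₀, β₁₀, ε₀₀, ε₁₀, δ₀₀` and `γ₀ₑ` -/
def uIdx (k : ℕ) : UT k → ST k :=
  Sum.elim ![Sum.inl (0, 0, 0), Sum.inl (0, 0, 1), Sum.inl (0, 1, 0), Sum.inl (1, 0, 0),
    Sum.inl (1, 1, 0), Sum.inl (2, 0, 0), Sum.inl (2, 1, 0), Sum.inl (3, 0, 0)]
    (fun e => Sum.inr (0, e))

/-- `Z` is (dense in) the closed subvariety cut out by the quadrics, generically -/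
structure GenVar (k : ℕ) (Z : Set (YT k ⊕ ST k → ℂ)) : Prop where
  prime : (vanishingIdeal ℂ Z).IsPrime
  quad_mem : ∀ j, qsys k j ∈ vanishingIdeal ℂ Z
  dom : ∀ F : O (YT k ⊕ UT k), F ≠ 0 →
    aeval (Sum.elim (fun i => X (Sum.inl i)) (fun u => sO k (uIdx k u)) :
      YT k ⊕ UT k → O (YT k ⊕ ST k)) F ∉ vanishingIdeal ℂ Z

/-! ## The relations of the distinguished generator -/

/-- The relations of the generator `κ` of a model over the `16` coordinates `α, β, ε, δ`. -/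
structure KRel {Y M : Type} [AddCommGroup M] (m : Model Y (ST 0) M) (κ : M) : Prop where
  notMem : κ ∉ m.N
  inj : ∀ l : ST 0, l ∈ ({Sum.inl (0, 0, 0), Sum.inl (0, 1, 0), Sum.inl (1, 1, 0),
    Sum.inl (2, 0, 0), Sum.inl (3, 0, 0)} : Set (ST 0)) → ∀ x, m.ρ (X l) x ∈ m.N → x ∈ m.N
  dy : ∀ j, m.δy j κ ∈ m.N
  q : ∀ j, m.ρ (quad (fun l => (X l : MvPolynomial (ST 0) (K Y))) j) κ ∈ m.N
  t1 : m.e κ (Sum.inl (0, 0, 0)) (Sum.inl (0, 0, 1)) + m.e κ (Sum.inl (0, 1, 0)) (Sum.inl (0, 1, 1))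
    + m.e κ (Sum.inl (1, 0, 0)) (Sum.inl (1, 0, 1)) + m.e κ (Sum.inl (1, 1, 0)) (Sum.inl (1, 1, 1))
      ∈ m.N
  t2 : m.e κ (Sum.inl (0, 1, 0)) (Sum.inl (0, 0, 0)) + m.e κ (Sum.inl (0, 1, 1)) (Sum.inl (0, 0, 1))
    - m.e κ (Sum.inl (2, 0, 0)) (Sum.inl (2, 0, 1)) - m.e κ (Sum.inl (2, 1, 0)) (Sum.inl (2, 1, 1))
      ∈ m.N
  t3 : m.e κ (Sum.inl (0, 1, 0)) (Sum.inl (0, 1, 0)) + m.e κ (Sum.inl (0, 1, 1)) (Sum.inl (0, 1, 1))
    - m.e κ (Sum.inl (2, 0, 1)) (Sum.inl (2, 0, 1)) - m.e κ (Sum.inl (2, 1, 1)) (Sum.inl (2, 1, 1))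
      ∈ m.N
  t4 : m.e κ (Sum.inl (1, 1, 0)) (Sum.inl (1, 0, 0)) + m.e κ (Sum.inl (1, 1, 1)) (Sum.inl (1, 0, 1))
    - m.e κ (Sum.inl (3, 0, 0)) (Sum.inl (3, 0, 1)) - m.e κ (Sum.inl (3, 1, 0)) (Sum.inl (3, 1, 1))
      ∈ m.N
  t5 : m.e κ (Sum.inl (1, 1, 0)) (Sum.inl (1, 1, 0)) + m.e κ (Sum.inl (1, 1, 1)) (Sum.inl (1, 1, 1))
    - m.e κ (Sum.inl (3, 0, 1)) (Sum.inl (3, 0, 1)) - m.e κ (Sum.inl (3, 1, 1)) (Sum.inl (3, 1, 1))
      ∈ m.N
  t6 : m.e κ (Sum.inl (2, 0, 0)) (Sum.inl (2, 1, 0)) + m.e κ (Sum.inl (2, 0, 1)) (Sum.inl (2, 1, 1))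
    + m.e κ (Sum.inl (3, 0, 0)) (Sum.inl (3, 1, 0)) + m.e κ (Sum.inl (3, 0, 1)) (Sum.inl (3, 1, 1))
      ∈ m.N
  t7 : m.e κ (Sum.inl (3, 0, 0)) (Sum.inl (3, 0, 0)) + m.e κ (Sum.inl (3, 0, 1)) (Sum.inl (3, 0, 1))
    + m.e κ (Sum.inl (3, 1, 0)) (Sum.inl (3, 1, 0)) + m.e κ (Sum.inl (3, 1, 1)) (Sum.inl (3, 1, 1))
    + (3 : ℤ) • κ ∈ m.N
  t8 : m.e κ (Sum.inl (2, 0, 0)) (Sum.inl (2, 0, 0)) + m.e κ (Sum.inl (2, 0, 1)) (Sum.inl (2, 0, 1))
    + m.e κ (Sum.inl (3, 0, 0)) (Sum.inl (3, 0, 0)) + m.e κ (Sum.inl (3, 0, 1)) (Sum.inl (3, 0, 1))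
    + (3 : ℤ) • κ ∈ m.N

end

end Adams
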