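import Pool.Agent.MP_fe6ac3_nt.StdChart

/-!
# The orbit of `m' = [1,4] + [2,5] + [1,2] + [2,3] + [3,4] + [4,5] + k [2]` in block form
-/

open MvPolynomial

namespace Adams

noncomputable section

/-- `V₁ → V₂` of the normal form; `J₁ = ([1,4], [1,2])`, `J₂ = ([1,4], [1,2], [2,5], [2,3]; [2]ᵏ)` -/
def N12 (k : ℕ) : Matrix (Fin 4 ⊕ Fin k) (Fin 2) ℂ :=
  Matrix.fromRows !![1, 0; 0, 1; 0, 0; 0, 0] 0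
/-- `V₂ → V₃` of the normal form; `J₃ = ([1,4], [2,5], [2,3], [3,4])` -/
def N23 (k : ℕ) : Matrix (Fin 4) (Fin 4 ⊕ Fin k) ℂ :=
  Matrix.fromCols !![1, 0, 0, 0; 0, 0, 1, 0; 0, 0, 0, 1; 0, 0, 0, 0] 0
/-- `V₃ → V₄` of the normal form; `J₄ = ([1,4], [2,5], [3,4], [4,5])` -/
def N34 : Matrix (Fin 4) (Fin 4) ℂ := !![1, 0, 0, 0; 0, 1, 0, 0; 0, 0, 0, 1; 0, 0, 0, 0]
/-- `V₄ → V₅` of the normal form; `J₅ = ([2,5], [4,5])` -/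
def N45 : Matrix (Fin 2) (Fin 4) ℂ := !![0, 1, 0, 0; 0, 0, 0, 1]

/-- `B` is invertible -/
def Inv {m n : Type} [Fintype m] [Fintype n] [DecidableEq m] [DecidableEq n]
    (B : Matrix m n ℂ) : Prop := ∃ B' : Matrix n m ℂ, B * B' = 1 ∧ B' * B = 1

/-- the orbit of `m'` -/
def OrbB (k : ℕ) : Set (YT k ⊕ ST k → ℂ) :=
  {x | ∃ (B1 : Matrix (Fin 2) (Fin 2) ℂ) (B2 : Matrix (Fin 2 ⊕ Fin 2 ⊕ Fin k) (Fin 4 ⊕ Fin k) ℂ)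
      (B3 B4 : Matrix (Fin 2 ⊕ Fin 2) (Fin 4) ℂ) (B5 : Matrix (Fin 2) (Fin 2) ℂ),
      Inv B1 ∧ Inv B2 ∧ Inv B3 ∧ Inv B4 ∧ Inv B5 ∧
      x12 (x ∘ Sum.inl) * B1 = B2 * N12 k ∧
      x23 (x ∘ Sum.inl) (x ∘ Sum.inr) * B2 = B3 * N23 k ∧
      x34 (x ∘ Sum.inl) (x ∘ Sum.inr) * B3 = B4 * N34 ∧
      x45 (x ∘ Sum.inl) * B4 = B5 * N45}

end

end Adams
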