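import Pool.Agent.MP_fe6ac3_nt.Line
import Pool.Agent.MP_fe6ac3_nt.OrbB

/-!
# [ADAMS-BRI] From parameters to block matrices

`VV k = V₁ ⊕ V₂ ⊕ V₃ ⊕ V₄ ⊕ V₅` is the index set of the space of a parameter with dimension vector
`(2, 4 + k, 4, 4, 2)`, `JJ k` the index set of the space of `m'`.

Blueprint.
* `exists_coordEquiv`: `Coord φ ≃ {p : VV k × VV k // pos p.1 = pos p.2 + 1} ≃ YT k ⊕ ST k`; the second
  one is an explicit matching of the entries of `x12, x23, x34, x45` with the variables, read off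
  from `bigMat`.
* `orbit_iff`: block-diagonal `B = diag(B1, …, B5)` (entries between different `pos` vanish).
* `conormal_blocks`: `mem_conormal_iff` and reading off the blocks of `bigMat x * (bigMat ξ)ᵀ =
  (bigMat ξ)ᵀ * bigMat x`.
-/

open MvPolynomial

namespace Adams

noncomputable section

/-- `V₁ ⊕ V₂ ⊕ V₃ ⊕ V₄ ⊕ V₅` -/
abbrev VV (k : ℕ) : Type :=
  Fin 2 ⊕ (Fin 2 ⊕ Fin 2 ⊕ Fin k) ⊕ (Fin 2 ⊕ Fin 2) ⊕ (Fin 2 ⊕ Fin 2) ⊕ Fin 2

/-- `J₁ ⊕ J₂ ⊕ J₃ ⊕ J₄ ⊕ J₅` -/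
abbrev JJ (k : ℕ) : Type := Fin 2 ⊕ (Fin 4 ⊕ Fin k) ⊕ Fin 4 ⊕ Fin 4 ⊕ Fin 2

/-- the position `0, …, 4` of an element of a five-fold sum -/
def pos5 {A B C D E : Type} : A ⊕ B ⊕ C ⊕ D ⊕ E → ℤ :=
  Sum.elim (fun _ => 0) (Sum.elim (fun _ => 1) (Sum.elim (fun _ => 2)
    (Sum.elim (fun _ => 3) (fun _ => 4))))

/-- the matrix with blocks `M21, M32, M43, M54` below the diagonal -/
def shiftMat {R : Type*} [Zero R] {A B C D E A' B' C' D' E' : Type} (M21 : Matrix B A' R)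
    (M32 : Matrix C B' R) (M43 : Matrix D C' R) (M54 : Matrix E D' R) :
    Matrix (A ⊕ B ⊕ C ⊕ D ⊕ E) (A' ⊕ B' ⊕ C' ⊕ D' ⊕ E') R
  | Sum.inr (Sum.inl i), Sum.inl j => M21 i j
  | Sum.inr (Sum.inr (Sum.inl i)), Sum.inr (Sum.inl j) => M32 i j
  | Sum.inr (Sum.inr (Sum.inr (Sum.inl i))), Sum.inr (Sum.inr (Sum.inl j)) => M43 i j
  | Sum.inr (Sum.inr (Sum.inr (Sum.inr i))), Sum.inr (Sum.inr (Sum.inr (Sum.inl j))) => M54 i j
  | _, _ => 0

/-- the endomorphism of the graded space attached to a point of the standard variety -/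
def bigMat {k : ℕ} (x : YT k ⊕ ST k → ℂ) : Matrix (VV k) (VV k) ℂ :=
  shiftMat (x12 (x ∘ Sum.inl)) (x23 (x ∘ Sum.inl) (x ∘ Sum.inr))
    (x34 (x ∘ Sum.inl) (x ∘ Sum.inr)) (x45 (x ∘ Sum.inl))

/-- the normal form of `m'` -/
def bigN (k : ℕ) : Matrix (JJ k) (JJ k) ℂ := shiftMat (N12 k) (N23 k) N34 N45

/-- the base point of the standard variety: the normal form of
`m = 2 ([1,2] + [2,4] + [3] + [4,5]) + k [2]` -/
def xBase (k : ℕ) : YT k ⊕ ST k → ℂ := Sum.elim (yBase k) 0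

/-! ### helper lemmas -/

section bri

/-- block diagonal matrix -/
def briDiag {R : Type*} [Zero R] {A B C D E A' B' C' D' E' : Type} (M1 : Matrix A A' R)
    (M2 : Matrix B B' R) (M3 : Matrix C C' R) (M4 : Matrix D D' R) (M5 : Matrix E E' R) :
    Matrix (A ⊕ B ⊕ C ⊕ D ⊕ E) (A' ⊕ B' ⊕ C' ⊕ D' ⊕ E') R
  | Sum.inl i, Sum.inl j => M1 i j
  | Sum.inr (Sum.inl i), Sum.inr (Sum.inl j) => M2 i j
  | Sum.inr (Sum.inr (Sum.inl i)), Sum.inr (Sum.inr (Sum.inl j)) => M3 i j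
  | Sum.inr (Sum.inr (Sum.inr (Sum.inl i))), Sum.inr (Sum.inr (Sum.inr (Sum.inl j))) => M4 i j
  | Sum.inr (Sum.inr (Sum.inr (Sum.inr i))), Sum.inr (Sum.inr (Sum.inr (Sum.inr j))) => M5 i j
  | _, _ => 0

variable {R : Type*} [CommRing R] {A B C D E A' B' C' D' E' A'' B'' C'' D'' E'' : Type}

theorem briDiag_graded (M1 : Matrix A A' R)
    (M2 : Matrix B B' R) (M3 : Matrix C C' R) (M4 : Matrix D D' R) (M5 : Matrix E E' R)
    (a : A ⊕ B ⊕ C ⊕ D ⊕ E) (b : A' ⊕ B' ⊕ C' ⊕ D' ⊕ E') (h : pos5 a ≠ pos5 b) :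
    briDiag M1 M2 M3 M4 M5 a b = 0 := by
  rcases a with a | a | a | a | a <;> rcases b with b | b | b | b | b <;>
    first | rfl | exact absurd rfl h

/-- a graded matrix is block diagonal -/
theorem briDiag_of_graded (M : Matrix (A ⊕ B ⊕ C ⊕ D ⊕ E) (A' ⊕ B' ⊕ C' ⊕ D' ⊕ E') R)
    (h : ∀ a b, pos5 a ≠ pos5 b → M a b = 0) :
    ∃ M1 M2 M3 M4 M5, M = briDiag M1 M2 M3 M4 M5 := by
  refine ⟨Matrix.of fun i j => M (Sum.inl i) (Sum.inl j),
    Matrix.of fun i j => M (Sum.inr (Sum.inl i)) (Sum.inr (Sum.inl j)),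
    Matrix.of fun i j => M (Sum.inr (Sum.inr (Sum.inl i))) (Sum.inr (Sum.inr (Sum.inl j))),
    Matrix.of fun i j => M (Sum.inr (Sum.inr (Sum.inr (Sum.inl i))))
      (Sum.inr (Sum.inr (Sum.inr (Sum.inl j)))),
    Matrix.of fun i j => M (Sum.inr (Sum.inr (Sum.inr (Sum.inr i))))
      (Sum.inr (Sum.inr (Sum.inr (Sum.inr j)))), ?_⟩
  ext a b
  rcases a with a | a | a | a | a <;> rcases b with b | b | b | b | b <;>
    first | rfl | exact h _ _ (by simp [pos5])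

section mul

variable [Fintype A'] [Fintype B'] [Fintype C'] [Fintype D'] [Fintype E']

theorem briDiag_mul (M1 : Matrix A A' R)
    (M2 : Matrix B B' R) (M3 : Matrix C C' R) (M4 : Matrix D D' R) (M5 : Matrix E E' R)
    (N1 : Matrix A' A'' R)
    (N2 : Matrix B' B'' R) (N3 : Matrix C' C'' R) (N4 : Matrix D' D'' R) (N5 : Matrix E' E'' R) :
    briDiag M1 M2 M3 M4 M5 * briDiag N1 N2 N3 N4 N5 =
      briDiag (M1 * N1) (M2 * N2) (M3 * N3) (M4 * N4) (M5 * N5) := by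
  ext a b
  rcases a with a | a | a | a | a <;> rcases b with b | b | b | b | b <;>
    simp [Matrix.mul_apply, Fintype.sum_sum_type, briDiag]

theorem briShift_mul_diag (M1 : Matrix B A' R)
    (M2 : Matrix C B' R) (M3 : Matrix D C' R) (M4 : Matrix E D' R)
    (N1 : Matrix A' A'' R)
    (N2 : Matrix B' B'' R) (N3 : Matrix C' C'' R) (N4 : Matrix D' D'' R) (N5 : Matrix E' E'' R) :
    (shiftMat M1 M2 M3 M4 : Matrix (A ⊕ B ⊕ C ⊕ D ⊕ E) (A' ⊕ B' ⊕ C' ⊕ D' ⊕ E') R) *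
      briDiag N1 N2 N3 N4 N5 =
      shiftMat (M1 * N1) (M2 * N2) (M3 * N3) (M4 * N4) := by
  ext a b
  rcases a with a | a | a | a | a <;> rcases b with b | b | b | b | b <;>
    simp [Matrix.mul_apply, Fintype.sum_sum_type, briDiag, shiftMat]

theorem briDiag_mul_shift (M1 : Matrix A A' R)
    (M2 : Matrix B B' R) (M3 : Matrix C C' R) (M4 : Matrix D D' R) (M5 : Matrix E E' R)
    (N1 : Matrix B' A'' R)
    (N2 : Matrix C' B'' R) (N3 : Matrix D' C'' R) (N4 : Matrix E' D'' R) :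
    briDiag M1 M2 M3 M4 M5 * (shiftMat N1 N2 N3 N4 :
      Matrix (A' ⊕ B' ⊕ C' ⊕ D' ⊕ E') (A'' ⊕ B'' ⊕ C'' ⊕ D'' ⊕ E'') R) =
      shiftMat (M2 * N1) (M3 * N2) (M4 * N3) (M5 * N4) := by
  ext a b
  rcases a with a | a | a | a | a <;> rcases b with b | b | b | b | b <;>
    simp [Matrix.mul_apply, Fintype.sum_sum_type, briDiag, shiftMat]

theorem briShift_mul_transpose (M1 : Matrix B A' R)
    (M2 : Matrix C B' R) (M3 : Matrix D C' R) (M4 : Matrix E D' R)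
    (N1 : Matrix B'' A' R)
    (N2 : Matrix C'' B' R) (N3 : Matrix D'' C' R) (N4 : Matrix E'' D' R) :
    (shiftMat M1 M2 M3 M4 : Matrix (A ⊕ B ⊕ C ⊕ D ⊕ E) (A' ⊕ B' ⊕ C' ⊕ D' ⊕ E') R) *
      (shiftMat N1 N2 N3 N4 :
        Matrix (A'' ⊕ B'' ⊕ C'' ⊕ D'' ⊕ E'') (A' ⊕ B' ⊕ C' ⊕ D' ⊕ E') R).transpose =
      briDiag 0 (M1 * N1.transpose) (M2 * N2.transpose) (M3 * N3.transpose)
        (M4 * N4.transpose) := by
  ext a b
  rcases a with a | a | a | a | a <;> rcases b with b | b | b | b | b <;>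
    simp [Matrix.mul_apply, Fintype.sum_sum_type, briDiag, shiftMat]

theorem briTranspose_mul_shift (M1 : Matrix B' A R)
    (M2 : Matrix C' B R) (M3 : Matrix D' C R) (M4 : Matrix E' D R)
    (N1 : Matrix B' A'' R)
    (N2 : Matrix C' B'' R) (N3 : Matrix D' C'' R) (N4 : Matrix E' D'' R) :
    (shiftMat M1 M2 M3 M4 :
      Matrix (A' ⊕ B' ⊕ C' ⊕ D' ⊕ E') (A ⊕ B ⊕ C ⊕ D ⊕ E) R).transpose *
      (shiftMat N1 N2 N3 N4 :
        Matrix (A' ⊕ B' ⊕ C' ⊕ D' ⊕ E') (A'' ⊕ B'' ⊕ C'' ⊕ D'' ⊕ E'') R) =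
      briDiag (M1.transpose * N1) (M2.transpose * N2) (M3.transpose * N3) (M4.transpose * N4)
        0 := by
  ext a b
  rcases a with a | a | a | a | a <;> rcases b with b | b | b | b | b <;>
    simp [Matrix.mul_apply, Fintype.sum_sum_type, briDiag, shiftMat]

end mul

theorem briDiag_one [DecidableEq A] [DecidableEq B] [DecidableEq C] [DecidableEq D]
    [DecidableEq E] :
    (briDiag 1 1 1 1 1 : Matrix (A ⊕ B ⊕ C ⊕ D ⊕ E) (A ⊕ B ⊕ C ⊕ D ⊕ E) R) = 1 := by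
  ext a b
  rcases a with a | a | a | a | a <;> rcases b with b | b | b | b | b <;>
    simp [briDiag, Matrix.one_apply]

theorem briDiag_inj {M1 M1' : Matrix A A' R}
    {M2 M2' : Matrix B B' R} {M3 M3' : Matrix C C' R} {M4 M4' : Matrix D D' R}
    {M5 M5' : Matrix E E' R} (h : briDiag M1 M2 M3 M4 M5 = briDiag M1' M2' M3' M4' M5') :
    M1 = M1' ∧ M2 = M2' ∧ M3 = M3' ∧ M4 = M4' ∧ M5 = M5' := by
  refine ⟨?_, ?_, ?_, ?_, ?_⟩ <;> ext i j
  · exact congrFun (congrFun h (Sum.inl i)) (Sum.inl j)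
  · exact congrFun (congrFun h (Sum.inr (Sum.inl i))) (Sum.inr (Sum.inl j))
  · exact congrFun (congrFun h (Sum.inr (Sum.inr (Sum.inl i)))) (Sum.inr (Sum.inr (Sum.inl j)))
  · exact congrFun (congrFun h (Sum.inr (Sum.inr (Sum.inr (Sum.inl i)))))
      (Sum.inr (Sum.inr (Sum.inr (Sum.inl j))))
  · exact congrFun (congrFun h (Sum.inr (Sum.inr (Sum.inr (Sum.inr i)))))
      (Sum.inr (Sum.inr (Sum.inr (Sum.inr j))))

theorem briShift_inj {M1 M1' : Matrix B A' R}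
    {M2 M2' : Matrix C B' R} {M3 M3' : Matrix D C' R} {M4 M4' : Matrix E D' R}
    (h : (shiftMat M1 M2 M3 M4 : Matrix (A ⊕ B ⊕ C ⊕ D ⊕ E) (A' ⊕ B' ⊕ C' ⊕ D' ⊕ E') R) =
      shiftMat M1' M2' M3' M4') :
    M1 = M1' ∧ M2 = M2' ∧ M3 = M3' ∧ M4 = M4' := by
  refine ⟨?_, ?_, ?_, ?_⟩ <;> ext i j
  · exact congrFun (congrFun h (Sum.inr (Sum.inl i))) (Sum.inl j)
  · exact congrFun (congrFun h (Sum.inr (Sum.inr (Sum.inl i)))) (Sum.inr (Sum.inl j))
  · exact congrFun (congrFun h (Sum.inr (Sum.inr (Sum.inr (Sum.inl i)))))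
      (Sum.inr (Sum.inr (Sum.inl j)))
  · exact congrFun (congrFun h (Sum.inr (Sum.inr (Sum.inr (Sum.inr i)))))
      (Sum.inr (Sum.inr (Sum.inr (Sum.inl j))))

/-- the variable in the entry `(a, b)` -/
def briDec {k : ℕ} : VV k → VV k → Option (YT k ⊕ ST k)
  | Sum.inr (Sum.inl (Sum.inl i)), Sum.inl j => some (Sum.inl (Sum.inl (0, i, j)))
  | Sum.inr (Sum.inl (Sum.inr (Sum.inl i))), Sum.inl j => some (Sum.inl (Sum.inl (1, i, j)))
  | Sum.inr (Sum.inl (Sum.inr (Sum.inr e))), Sum.inl j => some (Sum.inl (Sum.inr (Sum.inl (e, j))))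
  | Sum.inr (Sum.inr (Sum.inl (Sum.inl i))), Sum.inr (Sum.inl (Sum.inl j)) =>
    some (Sum.inr (Sum.inl (0, i, j)))
  | Sum.inr (Sum.inr (Sum.inl (Sum.inl i))), Sum.inr (Sum.inl (Sum.inr (Sum.inl j))) =>
    some (Sum.inl (Sum.inl (2, i, j)))
  | Sum.inr (Sum.inr (Sum.inl (Sum.inl i))), Sum.inr (Sum.inl (Sum.inr (Sum.inr e))) =>
    some (Sum.inl (Sum.inr (Sum.inr (i, e))))
  | Sum.inr (Sum.inr (Sum.inl (Sum.inr i))), Sum.inr (Sum.inl (Sum.inl j)) =>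
    some (Sum.inr (Sum.inl (1, i, j)))
  | Sum.inr (Sum.inr (Sum.inl (Sum.inr i))), Sum.inr (Sum.inl (Sum.inr (Sum.inl j))) =>
    some (Sum.inl (Sum.inl (3, i, j)))
  | Sum.inr (Sum.inr (Sum.inl (Sum.inr i))), Sum.inr (Sum.inl (Sum.inr (Sum.inr e))) =>
    some (Sum.inr (Sum.inr (i, e)))
  | Sum.inr (Sum.inr (Sum.inr (Sum.inl (Sum.inl i)))), Sum.inr (Sum.inr (Sum.inl (Sum.inl j))) =>
    some (Sum.inl (Sum.inl (4, i, j)))
  | Sum.inr (Sum.inr (Sum.inr (Sum.inl (Sum.inl i)))), Sum.inr (Sum.inr (Sum.inl (Sum.inr j))) =>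
    some (Sum.inl (Sum.inl (5, i, j)))
  | Sum.inr (Sum.inr (Sum.inr (Sum.inl (Sum.inr i)))), Sum.inr (Sum.inr (Sum.inl (Sum.inl j))) =>
    some (Sum.inr (Sum.inl (2, i, j)))
  | Sum.inr (Sum.inr (Sum.inr (Sum.inl (Sum.inr i)))), Sum.inr (Sum.inr (Sum.inl (Sum.inr j))) =>
    some (Sum.inr (Sum.inl (3, i, j)))
  | Sum.inr (Sum.inr (Sum.inr (Sum.inr i))), Sum.inr (Sum.inr (Sum.inr (Sum.inl (Sum.inl j)))) =>
    some (Sum.inl (Sum.inl (6, i, j)))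
  | Sum.inr (Sum.inr (Sum.inr (Sum.inr i))), Sum.inr (Sum.inr (Sum.inr (Sum.inl (Sum.inr j)))) =>
    some (Sum.inl (Sum.inl (7, i, j)))
  | _, _ => none

/-- the entry containing a variable -/
def briEnc {k : ℕ} : YT k ⊕ ST k → VV k × VV k
  | Sum.inl (Sum.inl (0, i, j)) => (Sum.inr (Sum.inl (Sum.inl i)), Sum.inl j)
  | Sum.inl (Sum.inl (1, i, j)) => (Sum.inr (Sum.inl (Sum.inr (Sum.inl i))), Sum.inl j)
  | Sum.inl (Sum.inl (2, i, j)) =>
    (Sum.inr (Sum.inr (Sum.inl (Sum.inl i))), Sum.inr (Sum.inl (Sum.inr (Sum.inl j))))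
  | Sum.inl (Sum.inl (3, i, j)) =>
    (Sum.inr (Sum.inr (Sum.inl (Sum.inr i))), Sum.inr (Sum.inl (Sum.inr (Sum.inl j))))
  | Sum.inl (Sum.inl (4, i, j)) =>
    (Sum.inr (Sum.inr (Sum.inr (Sum.inl (Sum.inl i)))), Sum.inr (Sum.inr (Sum.inl (Sum.inl j))))
  | Sum.inl (Sum.inl (5, i, j)) =>
    (Sum.inr (Sum.inr (Sum.inr (Sum.inl (Sum.inl i)))), Sum.inr (Sum.inr (Sum.inl (Sum.inr j))))
  | Sum.inl (Sum.inl (6, i, j)) =>
    (Sum.inr (Sum.inr (Sum.inr (Sum.inr i))), Sum.inr (Sum.inr (Sum.inr (Sum.inl (Sum.inl j)))))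
  | Sum.inl (Sum.inl (7, i, j)) =>
    (Sum.inr (Sum.inr (Sum.inr (Sum.inr i))), Sum.inr (Sum.inr (Sum.inr (Sum.inl (Sum.inr j)))))
  | Sum.inl (Sum.inr (Sum.inl (e, j))) => (Sum.inr (Sum.inl (Sum.inr (Sum.inr e))), Sum.inl j)
  | Sum.inl (Sum.inr (Sum.inr (i, e))) =>
    (Sum.inr (Sum.inr (Sum.inl (Sum.inl i))), Sum.inr (Sum.inl (Sum.inr (Sum.inr e))))
  | Sum.inr (Sum.inl (0, i, j)) =>
    (Sum.inr (Sum.inr (Sum.inl (Sum.inl i))), Sum.inr (Sum.inl (Sum.inl j)))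
  | Sum.inr (Sum.inl (1, i, j)) =>
    (Sum.inr (Sum.inr (Sum.inl (Sum.inr i))), Sum.inr (Sum.inl (Sum.inl j)))
  | Sum.inr (Sum.inl (2, i, j)) =>
    (Sum.inr (Sum.inr (Sum.inr (Sum.inl (Sum.inr i)))), Sum.inr (Sum.inr (Sum.inl (Sum.inl j))))
  | Sum.inr (Sum.inl (3, i, j)) =>
    (Sum.inr (Sum.inr (Sum.inr (Sum.inl (Sum.inr i)))), Sum.inr (Sum.inr (Sum.inl (Sum.inr j))))
  | Sum.inr (Sum.inr (i, e)) =>
    (Sum.inr (Sum.inr (Sum.inl (Sum.inr i))), Sum.inr (Sum.inl (Sum.inr (Sum.inr e))))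

theorem briDec_enc {k : ℕ} (v : YT k ⊕ ST k) : briDec (briEnc v).1 (briEnc v).2 = some v := by
  rcases v with (⟨b, i, j⟩ | ⟨e, j⟩ | ⟨i, e⟩) | (⟨b, i, j⟩ | ⟨i, e⟩)
  · fin_cases b <;> rfl
  · rfl
  · rfl
  · fin_cases b <;> rfl
  · rfl

theorem briEnc_dec {k : ℕ} (a b : VV k) (v : YT k ⊕ ST k) (h : briDec a b = some v) :
    briEnc v = (a, b) := by
  rcases a with a | (a | a | a) | (a | a) | (a | a) | a <;>
    rcases b with b | (b | b | b) | (b | b) | (b | b) | b <;>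
    first
    | (rw [← Option.some_injective _ h]; rfl)
    | exact absurd h (by simp [briDec])

theorem briDec_isSome {k : ℕ} (a b : VV k) :
    (briDec a b).isSome = true ↔ pos5 a = pos5 b + 1 := by
  rcases a with a | (a | a | a) | (a | a) | (a | a) | a <;>
    rcases b with b | (b | b | b) | (b | b) | (b | b) | b <;>
    simp [briDec, pos5]

theorem briMat_dec {k : ℕ} (x : YT k ⊕ ST k → ℂ) (a b : VV k) :
    bigMat x a b = (briDec a b).elim 0 x := by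
  rcases a with a | (a | a | a) | (a | a) | (a | a) | a <;>
    rcases b with b | (b | b | b) | (b | b) | (b | b) | b <;>
    rfl

end bri

theorem exists_coordEquiv (φ : Param) (k : ℕ) (d : ℤ) (e : Idx φ ≃ VV k)
    (he : ∀ a, deg a = d + 2 * pos5 (e a)) :
    ∃ c : Coord φ ≃ YT k ⊕ ST k, ∀ (x : YT k ⊕ ST k → ℂ) (i j : Idx φ),
      toMat (x ∘ c) i j = bigMat x (e i) (e j) := by
  have hpos : ∀ a b : Idx φ, deg a = deg b + 2 ↔ (briDec (e a) (e b)).isSome = true := by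
    intro a b
    rw [briDec_isSome, he a, he b]
    omega
  let c : Coord φ ≃ YT k ⊕ ST k :=
    { toFun := fun p => (briDec (e p.1.1) (e p.1.2)).get ((hpos _ _).1 p.2)
      invFun := fun v => ⟨(e.symm (briEnc v).1, e.symm (briEnc v).2), by
        rw [hpos]
        simp only [Equiv.apply_symm_apply]
        rw [briDec_enc]; rfl⟩
      left_inv := by
        rintro ⟨⟨a, b⟩, hp⟩
        have h1 := briEnc_dec (e a) (e b) _ (Option.some_get ((hpos _ _).1 hp)).symm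
        apply Subtype.ext
        simp only
        rw [h1]
        simp
      right_inv := by
        intro v
        simp only [Equiv.apply_symm_apply]
        exact Option.get_of_eq_some _ (briDec_enc v) }
  refine ⟨c, fun x i j => ?_⟩
  rw [briMat_dec]
  by_cases h : deg i = deg j + 2
  · have h1 : toMat (x ∘ c) i j = x (c ⟨(i, j), h⟩) := by
      simp [toMat, h]
    rw [h1]
    have h2 : briDec (e i) (e j) = some (c ⟨(i, j), h⟩) := (Option.some_get _).symm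
    rw [h2]
    rfl
  · have h1 : toMat (x ∘ c) i j = 0 := by
      simp [toMat, h]
    rw [h1]
    have h2 : briDec (e i) (e j) = none := by
      rw [hpos, Bool.not_eq_true, Option.isSome_eq_false_iff] at h
      exact Option.isNone_iff_eq_none.1 h
    rw [h2]
    rfl

section

variable {φ : Param} {k : ℕ} {d : ℤ} (e : Idx φ ≃ VV k) (he : ∀ a, deg a = d + 2 * pos5 (e a))
  (c : Coord φ ≃ YT k ⊕ ST k)
  (hc : ∀ (x : YT k ⊕ ST k → ℂ) (i j : Idx φ), toMat (x ∘ c) i j = bigMat x (e i) (e j))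

include hc

omit he in
theorem bri_toMat (x : YT k ⊕ ST k → ℂ) : toMat (x ∘ c) = (bigMat x).submatrix e e := by
  ext i j; exact hc x i j

include he

/-- general form of the orbit condition -/
theorem bri_orbit {A B C D E : Type} [Fintype A] [Fintype B] [Fintype C] [Fintype D] [Fintype E]
    [DecidableEq A] [DecidableEq B] [DecidableEq C] [DecidableEq D] [DecidableEq E]
    {π : Param} (e' : Idx π ≃ A ⊕ B ⊕ C ⊕ D ⊕ E) (he' : ∀ a, deg a = d + 2 * pos5 (e' a))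
    (N1 : Matrix B A ℂ) (N2 : Matrix C B ℂ) (N3 : Matrix D C ℂ) (N4 : Matrix E D ℂ)
    (hN : ∀ a b, Nil π a b = (shiftMat N1 N2 N3 N4 :
      Matrix (A ⊕ B ⊕ C ⊕ D ⊕ E) (A ⊕ B ⊕ C ⊕ D ⊕ E) ℂ) (e' a) (e' b)) (x : YT k ⊕ ST k → ℂ) :
    x ∘ c ∈ Orbit φ π ↔ ∃ (B1 : Matrix (Fin 2) A ℂ) (B2 : Matrix (Fin 2 ⊕ Fin 2 ⊕ Fin k) B ℂ)
      (B3 : Matrix (Fin 2 ⊕ Fin 2) C ℂ) (B4 : Matrix (Fin 2 ⊕ Fin 2) D ℂ)
      (B5 : Matrix (Fin 2) E ℂ),
      Inv B1 ∧ Inv B2 ∧ Inv B3 ∧ Inv B4 ∧ Inv B5 ∧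
      x12 (x ∘ Sum.inl) * B1 = B2 * N1 ∧
      x23 (x ∘ Sum.inl) (x ∘ Sum.inr) * B2 = B3 * N2 ∧
      x34 (x ∘ Sum.inl) (x ∘ Sum.inr) * B3 = B4 * N3 ∧
      x45 (x ∘ Sum.inl) * B4 = B5 * N4 := by
  have hNil : Nil π = (shiftMat N1 N2 N3 N4 :
      Matrix (A ⊕ B ⊕ C ⊕ D ⊕ E) (A ⊕ B ⊕ C ⊕ D ⊕ E) ℂ).submatrix e' e' := by
    ext a b; exact hN a b
  constructor
  · rintro ⟨M, M', hgr, h1, h2, h3⟩
    -- transport to blocks
    obtain ⟨B1, B2, B3, B4, B5, hB⟩ := briDiag_of_graded (M.submatrix e.symm e'.symm) (by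
      intro a b hab
      apply hgr
      rw [he, he']
      simp only [Equiv.apply_symm_apply]
      omega)
    have hM : M = (briDiag B1 B2 B3 B4 B5).submatrix e e' := by
      rw [← hB]; ext i j; simp
    -- the inverse is graded too
    have hgr' : ∀ a b, deg a ≠ deg b → M' a b = 0 := by
      intro a b hab
      by_contra hne
      -- the graded part of M' is also an inverse
      let M'' : Matrix (Idx π) (Idx φ) ℂ := Matrix.of fun a b => if deg a = deg b then M' a b else 0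
      have h4 : M'' * M = 1 := by
        ext i j
        rw [← h2, Matrix.mul_apply, Matrix.mul_apply]
        by_cases hij : deg i = deg j
        · apply Finset.sum_congr rfl
          intro l _
          by_cases hil : deg i = deg l
          · simp [M'', hil]
          · rw [hgr l j (fun h => hil (hij.trans h.symm))]; simp
        · have h5 : (M' * M) i j = 0 := by
            rw [h2, Matrix.one_apply_ne]
            rintro rfl; exact hij rfl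
          rw [Matrix.mul_apply] at h5
          rw [h5]
          apply Finset.sum_eq_zero
          intro l _
          by_cases hil : deg i = deg l
          · rw [hgr l j (fun h => hij (hil.trans h))]; simp
          · simp [M'', hil]
      have h5 : M'' = M' := by
        calc M'' = M'' * (M * M') := by rw [h1, Matrix.mul_one]
          _ = M' := by rw [← Matrix.mul_assoc, h4, Matrix.one_mul]
      apply hne
      rw [← h5]
      simp [M'', hab]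
    obtain ⟨C1, C2, C3, C4, C5, hC⟩ := briDiag_of_graded (M'.submatrix e'.symm e.symm) (by
      intro a b hab
      apply hgr'
      rw [he, he']
      simp only [Equiv.apply_symm_apply]
      omega)
    have hM' : M' = (briDiag C1 C2 C3 C4 C5).submatrix e' e := by
      rw [← hC]; ext i j; simp
    have h1' : briDiag B1 B2 B3 B4 B5 * briDiag C1 C2 C3 C4 C5 = briDiag 1 1 1 1 1 := by
      rw [briDiag_one, ← hB, ← hC, Matrix.submatrix_mul_equiv, h1, Matrix.submatrix_one_equiv]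
    have h2' : briDiag C1 C2 C3 C4 C5 * briDiag B1 B2 B3 B4 B5 = briDiag 1 1 1 1 1 := by
      rw [briDiag_one, ← hB, ← hC, Matrix.submatrix_mul_equiv, h2, Matrix.submatrix_one_equiv]
    rw [briDiag_mul] at h1' h2'
    obtain ⟨p1, p2, p3, p4, p5⟩ := briDiag_inj h1'
    obtain ⟨q1, q2, q3, q4, q5⟩ := briDiag_inj h2'
    rw [bri_toMat e c hc, hNil, hM, Matrix.submatrix_mul_equiv, Matrix.submatrix_mul_equiv] at h3
    have h3' : bigMat x * (briDiag B1 B2 B3 B4 B5 : Matrix (VV k) (A ⊕ B ⊕ C ⊕ D ⊕ E) ℂ) =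
        (briDiag B1 B2 B3 B4 B5 : Matrix (VV k) (A ⊕ B ⊕ C ⊕ D ⊕ E) ℂ) *
        (shiftMat N1 N2 N3 N4 : Matrix (A ⊕ B ⊕ C ⊕ D ⊕ E) (A ⊕ B ⊕ C ⊕ D ⊕ E) ℂ) := by
      ext i j
      have := congrFun (congrFun h3 (e.symm i)) (e'.symm j)
      simpa using this
    rw [bigMat, briShift_mul_diag, briDiag_mul_shift] at h3'
    obtain ⟨r1, r2, r3, r4⟩ := briShift_inj h3'
    exact ⟨B1, B2, B3, B4, B5, ⟨C1, p1, q1⟩, ⟨C2, p2, q2⟩, ⟨C3, p3, q3⟩, ⟨C4, p4, q4⟩,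
      ⟨C5, p5, q5⟩, r1, r2, r3, r4⟩
  · rintro ⟨B1, B2, B3, B4, B5, ⟨C1, p1, q1⟩, ⟨C2, p2, q2⟩, ⟨C3, p3, q3⟩, ⟨C4, p4, q4⟩,
      ⟨C5, p5, q5⟩, r1, r2, r3, r4⟩
    refine ⟨(briDiag B1 B2 B3 B4 B5).submatrix e e', (briDiag C1 C2 C3 C4 C5).submatrix e' e,
      ?_, ?_, ?_, ?_⟩
    · intro a b hab
      rw [Matrix.submatrix_apply]
      apply briDiag_graded
      rw [he, he'] at hab
      intro h; apply hab; rw [h]
    · rw [Matrix.submatrix_mul_equiv, briDiag_mul, p1, p2, p3, p4, p5, briDiag_one,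
        Matrix.submatrix_one_equiv]
    · rw [Matrix.submatrix_mul_equiv, briDiag_mul, q1, q2, q3, q4, q5, briDiag_one,
        Matrix.submatrix_one_equiv]
    · rw [bri_toMat e c hc, hNil, Matrix.submatrix_mul_equiv, Matrix.submatrix_mul_equiv, bigMat,
        briShift_mul_diag, briDiag_mul_shift, r1, r2, r3, r4]

/-- the orbit of a parameter of type `m'` -/
theorem orbit_iff {π : Param} (e' : Idx π ≃ JJ k) (he' : ∀ a, deg a = d + 2 * pos5 (e' a))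
    (hN : ∀ a b, Nil π a b = bigN k (e' a) (e' b)) (x : YT k ⊕ ST k → ℂ) :
    x ∘ c ∈ Orbit φ π ↔ x ∈ OrbB k :=
  bri_orbit e he c hc e' he' (N12 k) (N23 k) N34 N45 hN x

variable (hφ : ∀ a b, Nil φ a b = bigMat (xBase k) (e a) (e b))

include hφ

/-- the base point lies in the orbit of `φ` -/
theorem base_mem_orbit : xBase k ∘ c ∈ Orbit φ φ := by
  rw [bri_orbit e he c hc e he _ _ _ _ hφ]
  exact ⟨1, 1, 1, 1, 1, ⟨1, by simp, by simp⟩, ⟨1, by simp, by simp⟩, ⟨1, by simp, by simp⟩,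
    ⟨1, by simp, by simp⟩, ⟨1, by simp, by simp⟩, by simp, by simp, by simp, by simp⟩

omit he hc hφ in
theorem bri_base_eq (k : ℕ) : x23 (xBase k ∘ Sum.inl) (xBase k ∘ Sum.inr) *
    x12 (xBase k ∘ Sum.inl) = 0 ∧
    x45 (xBase k ∘ Sum.inl) * x34 (xBase k ∘ Sum.inl) (xBase k ∘ Sum.inr) = 0 := by
  constructor
  · ext i j
    rcases i with i | i <;>
      simp [x23, x12, Matrix.mul_apply, Fintype.sum_sum_type, xBase, yB, yP3, yA3, zB, zP3, yBase]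
  · ext i j
    rcases j with j | j <;>
      simp [x34, x45, Matrix.mul_apply, Fintype.sum_sum_type, xBase, yB, yP3, yA3, zB, zP3, yBase]

/-- equations of the orbit of `φ` -/
theorem orbit_eqs (x : YT k ⊕ ST k → ℂ) (hx : x ∘ c ∈ Orbit φ φ) :
    x23 (x ∘ Sum.inl) (x ∘ Sum.inr) * x12 (x ∘ Sum.inl) = 0 ∧
      x45 (x ∘ Sum.inl) * x34 (x ∘ Sum.inl) (x ∘ Sum.inr) = 0 := by
  rw [bri_orbit e he c hc e he _ _ _ _ hφ] at hx
  obtain ⟨B1, B2, B3, B4, B5, ⟨C1, p1, q1⟩, ⟨C2, p2, q2⟩, ⟨C3, p3, q3⟩, ⟨C4, p4, q4⟩,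
      ⟨C5, p5, q5⟩, r1, r2, r3, r4⟩ := hx
  obtain ⟨b1, b2⟩ := bri_base_eq k
  constructor
  · calc x23 (x ∘ Sum.inl) (x ∘ Sum.inr) * x12 (x ∘ Sum.inl)
        = x23 (x ∘ Sum.inl) (x ∘ Sum.inr) * (x12 (x ∘ Sum.inl) * B1) * C1 := by
          rw [Matrix.mul_assoc, Matrix.mul_assoc, p1, Matrix.mul_one]
      _ = x23 (x ∘ Sum.inl) (x ∘ Sum.inr) * B2 * x12 (xBase k ∘ Sum.inl) * C1 := by
          rw [r1]; simp only [Matrix.mul_assoc]
      _ = B3 * (x23 (xBase k ∘ Sum.inl) (xBase k ∘ Sum.inr) * x12 (xBase k ∘ Sum.inl)) * C1 := by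
          rw [r2]; simp only [Matrix.mul_assoc]
      _ = 0 := by rw [b1, Matrix.mul_zero, Matrix.zero_mul]
  · calc x45 (x ∘ Sum.inl) * x34 (x ∘ Sum.inl) (x ∘ Sum.inr)
        = x45 (x ∘ Sum.inl) * (x34 (x ∘ Sum.inl) (x ∘ Sum.inr) * B3) * C3 := by
          rw [Matrix.mul_assoc, Matrix.mul_assoc, p3, Matrix.mul_one]
      _ = x45 (x ∘ Sum.inl) * B4 * x34 (xBase k ∘ Sum.inl) (xBase k ∘ Sum.inr) * C3 := by
          rw [r3]; simp only [Matrix.mul_assoc]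
      _ = B5 * (x45 (xBase k ∘ Sum.inl) * x34 (xBase k ∘ Sum.inl) (xBase k ∘ Sum.inr)) * C3 := by
          rw [r4]; simp only [Matrix.mul_assoc]
      _ = 0 := by rw [b2, Matrix.mul_zero, Matrix.zero_mul]

/-- commutation relations in block form -/
theorem conormal_blocks (x ξ : YT k ⊕ ST k → ℂ) (hz : (x ∘ c, ξ ∘ c) ∈ Conormal φ) :
    (x12 (ξ ∘ Sum.inl)).transpose * x12 (x ∘ Sum.inl) = 0 ∧
    x12 (x ∘ Sum.inl) * (x12 (ξ ∘ Sum.inl)).transpose =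
      (x23 (ξ ∘ Sum.inl) (ξ ∘ Sum.inr)).transpose * x23 (x ∘ Sum.inl) (x ∘ Sum.inr) ∧
    x23 (x ∘ Sum.inl) (x ∘ Sum.inr) * (x23 (ξ ∘ Sum.inl) (ξ ∘ Sum.inr)).transpose =
      (x34 (ξ ∘ Sum.inl) (ξ ∘ Sum.inr)).transpose * x34 (x ∘ Sum.inl) (x ∘ Sum.inr) ∧
    x34 (x ∘ Sum.inl) (x ∘ Sum.inr) * (x34 (ξ ∘ Sum.inl) (ξ ∘ Sum.inr)).transpose =
      (x45 (ξ ∘ Sum.inl)).transpose * x45 (x ∘ Sum.inl) ∧
    x45 (x ∘ Sum.inl) * (x45 (ξ ∘ Sum.inl)).transpose = 0 := by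
  have h := ((mem_conormal_iff _).1 hz).2
  simp only at h
  rw [bri_toMat e c hc, bri_toMat e c hc, Matrix.transpose_submatrix, Matrix.submatrix_mul_equiv,
    Matrix.submatrix_mul_equiv] at h
  have h' : bigMat x * (bigMat ξ).transpose = (bigMat ξ).transpose * bigMat x := by
    ext i j
    have := congrFun (congrFun h (e.symm i)) (e.symm j)
    simpa using this
  rw [bigMat, bigMat, briShift_mul_transpose, briTranspose_mul_shift] at h'
  obtain ⟨r1, r2, r3, r4, r5⟩ := briDiag_inj h'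
  exact ⟨r1.symm, r2, r3, r4, r5⟩

end

/-- the conormal covector at the base point used for `k = 2`: the block of `x23` in the columns `A`
and `E` is the identity, and `a₂` is the identity -/
def xiBase : YT 2 ⊕ ST 2 → ℂ :=
  Sum.elim
    (Sum.elim (fun a => if a.1 = 1 ∧ a.2.1 = a.2.2 then 1 else 0) (fun _ => 0))
    (Sum.elim (fun a => if a.1 = 0 ∧ a.2.1 = a.2.2 then 1 else 0)
      (fun a => if a.1 = a.2 then 1 else 0))

theorem xiBase_mem {φ : Param} {d : ℤ} (e : Idx φ ≃ VV 2)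
    (he : ∀ a, deg a = d + 2 * pos5 (e a)) (c : Coord φ ≃ YT 2 ⊕ ST 2)
    (hc : ∀ (x : YT 2 ⊕ ST 2 → ℂ) (i j : Idx φ), toMat (x ∘ c) i j = bigMat x (e i) (e j))
    (hφ : ∀ a b, Nil φ a b = bigMat (xBase 2) (e a) (e b)) :
    (xBase 2 ∘ c, xiBase ∘ c) ∈ Conormal φ := by
  rw [mem_conormal_iff]
  refine ⟨base_mem_orbit e he c hc hφ, ?_⟩
  simp only
  rw [bri_toMat e c hc, bri_toMat e c hc, Matrix.transpose_submatrix, Matrix.submatrix_mul_equiv,
    Matrix.submatrix_mul_equiv]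
  congr 1
  rw [bigMat, bigMat, briShift_mul_transpose, briTranspose_mul_shift]
  congr 1
  · ext i j
    simp [x12, Matrix.mul_apply, Fintype.sum_sum_type, xBase, xiBase, yB, yA3, yBase]
  · ext i j
    rcases i with i | i | i <;> rcases j with j | j | j <;> fin_cases i <;> fin_cases j <;>
      simp [x12, x23, Matrix.mul_apply, Fintype.sum_sum_type, xBase, xiBase, yB, yA3, yP3, zB,
        zP3, yBase]
  · ext i j
    rcases i with i | i <;> rcases j with j | j <;> fin_cases i <;> fin_cases j <;>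
      simp [x34, x23, Matrix.mul_apply, Fintype.sum_sum_type, xBase, xiBase, yB, yA3, yP3, zB,
        zP3, yBase]
  · ext i j
    rcases i with i | i <;> rcases j with j | j <;> fin_cases i <;> fin_cases j <;>
      simp [x34, x45, Matrix.mul_apply, Fintype.sum_sum_type, xBase, xiBase, yB, yA3, yP3, zB,
        zP3, yBase]
  · ext i j
    simp [x45, Matrix.mul_apply, Fintype.sum_sum_type, xBase, xiBase, yB, yA3, yBase]

end

end Adams
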