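import Pool.Agent.MP_fe6ac3_nt.StdChart

/-!
# [ADAMS-CNC] The conormal variety in the chart

Blueprint.  `x23 x12 = 0` is `P₁ = P₂ = 0` and `x45 x34 = 0` is `Y₁ = Y₂ = 0`, so `sF = 0` (clear).
Linear algebra: from `x23 x12 = 0`, `x45 x34 = 0` and the determinants: `x12` is injective with image
`ker x23` (rank `2`), `x45` is surjective with kernel the image of `x34`, and `V₃ = im x23 ⊕ ker x34`.
* `Ξ32 = x12 U` for some `U : V₃ → V₁` (a `2 × 4` matrix): `Ξ32` maps `ker x34` into `ker x23` since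
  `x23 Ξ32 = Ξ43 x34`, and `im x23` into `im x12` since `Ξ32 x23 = x12 Ξ21`.  Then `x12 Ξ21 = x12 U x23`
  gives `Ξ21 = U x23`.
* `Ξ43 x34 = x23 x12 U = 0`, so `Ξ43` kills `im x34 = ker x45`: `Ξ43 = U' x45` (`U'` is `4 × 2`); then
  `Ξ54 x45 = x34 Ξ43 = x34 U' x45` gives `Ξ54 = x34 U'`.
* `∑_l η_l s_l = tr(a α) + tr(b β) + tr(e ε) + tr(d δ)` with `a, b, e, d` the transposed blocks of `η`.
  At a point with `P = 0`, `Y = 0` its differential is `tr(Ũ dP) + tr(Ũ' dY)`,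
  `Ũ = a q' + b (det ρ [0, 1] - p₂' adj(ρ) q')`, `Ũ' = p' adj(ρ) e + n d`, and
  `dP = dx23 x12 + x23 dx12`, `dY = dx45 x34 + x45 dx34`, so it corresponds to
  `Ξ32 = x12 Ũ`, `Ξ21 = Ũ x23`, `Ξ43 = Ũ' x45`, `Ξ54 = x34 Ũ'`.
* `(a, b) ↦ Ũ` and `(e, d) ↦ Ũ'` are bijective (the `4 × 4` matrices
  `(q'; det ρ [0,1] - p₂' adj(ρ) q')` and `[p' adj(ρ) | n]` are invertible): choose `η` with
  `Ũ = U`, `Ũ' = U'`.
-/

open MvPolynomial

namespace Adams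

noncomputable section

theorem cnc_core {R : Type*} [Ring R]
    (a1 a2 p1' p2' q1' q2' r1 r2 p1 p2 q1 q2 A1 A2 X11 X12 X21 X22 W11 W12 W21 W22 B1 B2
      ai ri qi ρi : R)
    (ha : a1 * ai = 1) (ha' : ai * a1 = 1) (hr : r2 * ri = 1) (hr' : ri * r2 = 1)
    (hq : q1' * qi = 1)
    (hρ : (q1' * p1' + q2' * p2') * ρi = 1) (hρ' : ρi * (q1' * p1' + q2' * p2') = 1)
    (hP1 : p1 * a1 + p1' * a2 = 0) (hP2 : p2 * a1 + p2' * a2 = 0)
    (hY1 : r1 * q1' + r2 * q1 = 0) (hY2 : r1 * q2' + r2 * q2 = 0)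
    (c11 : a1 * A1 = X11 * p1 + X12 * p2) (c12 : a1 * A2 = X11 * p1' + X12 * p2')
    (c22 : a2 * A2 = X21 * p1' + X22 * p2')
    (d11 : p1 * X11 + p1' * X21 = W11 * q1' + W12 * q1)
    (d12 : p1 * X12 + p1' * X22 = W11 * q2' + W12 * q2)
    (d21 : p2 * X11 + p2' * X21 = W21 * q1' + W22 * q1)
    (d22 : p2 * X12 + p2' * X22 = W21 * q2' + W22 * q2)
    (e12 : q1' * W12 + q2' * W22 = B1 * r2) (e22 : q1 * W12 + q2 * W22 = B2 * r2) :
    ∃ U1 U2 V1 V2 : R, X11 = a1 * U1 ∧ X12 = a1 * U2 ∧ X21 = a2 * U1 ∧ X22 = a2 * U2 ∧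
      A1 = U1 * p1 + U2 * p2 ∧ A2 = U1 * p1' + U2 * p2' ∧
      W11 = V1 * r1 ∧ W12 = V1 * r2 ∧ W21 = V2 * r1 ∧ W22 = V2 * r2 ∧
      B1 = q1' * V1 + q2' * V2 ∧ B2 = q1 * V1 + q2 * V2 := by
  have hp1 : p1 = -(p1' * a2 * ai) := by
    have h : (p1 * a1 + p1' * a2) * ai = 0 := by rw [hP1, zero_mul]
    rw [add_mul, mul_assoc, ha, mul_one] at h
    exact eq_neg_of_add_eq_zero_left h
  have hp2 : p2 = -(p2' * a2 * ai) := by
    have h : (p2 * a1 + p2' * a2) * ai = 0 := by rw [hP2, zero_mul]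
    rw [add_mul, mul_assoc, ha, mul_one] at h
    exact eq_neg_of_add_eq_zero_left h
  have hq1 : q1 = -(ri * r1 * q1') := by
    have h : ri * (r1 * q1' + r2 * q1) = 0 := by rw [hY1, mul_zero]
    rw [mul_add, ← mul_assoc, ← mul_assoc, hr', one_mul] at h
    exact eq_neg_of_add_eq_zero_right h
  have hq2 : q2 = -(ri * r1 * q2') := by
    have h : ri * (r1 * q2' + r2 * q2) = 0 := by rw [hY2, mul_zero]
    rw [mul_add, ← mul_assoc, ← mul_assoc, hr', one_mul] at h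
    exact eq_neg_of_add_eq_zero_right h
  set K1 := X21 - a2 * ai * X11 with hK1
  set K2 := X22 - a2 * ai * X12 with hK2
  set L1 := W11 - W12 * (ri * r1) with hL1
  set L2 := W21 - W22 * (ri * r1) with hL2
  set ρ := q1' * p1' + q2' * p2' with hρd
  have f11 : p1' * K1 = L1 * q1' := by
    rw [hp1, hq1] at d11
    rw [hK1, hL1]
    linear_combination (norm := noncomm_ring) d11
  have f12 : p1' * K2 = L1 * q2' := by
    rw [hp1, hq2] at d12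
    rw [hK2, hL1]
    linear_combination (norm := noncomm_ring) d12
  have f21 : p2' * K1 = L2 * q1' := by
    rw [hp2, hq1] at d21
    rw [hK1, hL2]
    linear_combination (norm := noncomm_ring) d21
  have f22 : p2' * K2 = L2 * q2' := by
    rw [hp2, hq2] at d22
    rw [hK2, hL2]
    linear_combination (norm := noncomm_ring) d22
  set M := q1' * L1 + q2' * L2 with hM
  have g1 : ρ * K1 = M * q1' := by
    rw [hρd, hM]
    linear_combination (norm := noncomm_ring) q1' * f11 + q2' * f21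
  have g2 : ρ * K2 = M * q2' := by
    rw [hρd, hM]
    linear_combination (norm := noncomm_ring) q1' * f12 + q2' * f22
  have g3 : K1 * p1' + K2 * p2' = 0 := by
    have h1 : a2 * ai * (a1 * A2) = a2 * A2 := by
      rw [← mul_assoc, mul_assoc a2 ai a1, ha', mul_one]
    rw [c12, c22] at h1
    rw [hK1, hK2]
    linear_combination (norm := noncomm_ring) -h1
  have g4 : M * ρ = 0 := by
    have h : ρ * (K1 * p1' + K2 * p2') = 0 := by rw [g3, mul_zero]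
    rw [hρd] at g1 g2 h ⊢
    linear_combination (norm := noncomm_ring) h - g1 * p1' - g2 * p2'
  have g5 : M = 0 := by
    have h : M * ρ * ρi = 0 := by rw [g4, zero_mul]
    rwa [mul_assoc, hρ, mul_one] at h
  have k1 : K1 = 0 := by
    have h : ρi * (ρ * K1) = 0 := by rw [g1, g5, zero_mul, mul_zero]
    rwa [← mul_assoc, hρ', one_mul] at h
  have k2 : K2 = 0 := by
    have h : ρi * (ρ * K2) = 0 := by rw [g2, g5, zero_mul, mul_zero]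
    rwa [← mul_assoc, hρ', one_mul] at h
  have l1 : L1 = 0 := by
    have h : L1 * q1' * qi = 0 := by rw [← f11, k1, mul_zero, zero_mul]
    rwa [mul_assoc, hq, mul_one] at h
  have l2 : L2 = 0 := by
    have h : L2 * q1' * qi = 0 := by rw [← f21, k1, mul_zero, zero_mul]
    rwa [mul_assoc, hq, mul_one] at h
  have x21 : X21 = a2 * ai * X11 := sub_eq_zero.1 k1
  have x22 : X22 = a2 * ai * X12 := sub_eq_zero.1 k2
  have w11 : W11 = W12 * (ri * r1) := sub_eq_zero.1 l1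
  have w21 : W21 = W22 * (ri * r1) := sub_eq_zero.1 l2
  refine ⟨ai * X11, ai * X12, W12 * ri, W22 * ri, ?_, ?_, ?_, ?_, ?_, ?_, ?_, ?_, ?_, ?_, ?_, ?_⟩
  · rw [← mul_assoc, ha, one_mul]
  · rw [← mul_assoc, ha, one_mul]
  · rw [x21, mul_assoc]
  · rw [x22, mul_assoc]
  · have h : ai * (a1 * A1) = A1 := by rw [← mul_assoc, ha', one_mul]
    rw [← h, c11, mul_add, mul_assoc, mul_assoc]
  · have h : ai * (a1 * A2) = A2 := by rw [← mul_assoc, ha', one_mul]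
    rw [← h, c12, mul_add, mul_assoc, mul_assoc]
  · rw [w11, mul_assoc]
  · rw [mul_assoc, hr', mul_one]
  · rw [w21, mul_assoc]
  · rw [mul_assoc, hr', mul_one]
  · have h : B1 * r2 * ri = B1 := by rw [mul_assoc, hr, mul_one]
    rw [← h, ← e12, add_mul, mul_assoc, mul_assoc]
  · have h : B2 * r2 * ri = B2 := by rw [mul_assoc, hr, mul_one]
    rw [← h, ← e22, add_mul, mul_assoc, mul_assoc]



theorem cnc_solve (p1' p2' q1' q2' U1 U2 V1 V2 : Matrix (Fin 2) (Fin 2) ℂ)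
    (hq : q1'.det ≠ 0) (hρ : (q1' * p1' + q2' * p2').det ≠ 0) :
    ∃ a b e d : Matrix (Fin 2) (Fin 2) ℂ,
      U1 = (a - b * (p2' * (q1' * p1' + q2' * p2').adjugate)) * q1' ∧
      U2 = (q1' * p1' + q2' * p2').det • b +
        (a - b * (p2' * (q1' * p1' + q2' * p2').adjugate)) * q2' ∧
      V1 = p1' * (q1' * p1' + q2' * p2').adjugate * e - q1'.adjugate * q2' * d ∧
      V2 = p2' * (q1' * p1' + q2' * p2').adjugate * e + q1'.det • d := by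
  set ρ := q1' * p1' + q2' * p2' with hρd
  set Δ := ρ.det
  set κ := q1'.det
  have h1 : q1' * q1'.adjugate = κ • 1 := Matrix.mul_adjugate _
  have h2 : q1'.adjugate * q1' = κ • 1 := Matrix.adjugate_mul _
  have h3 : ρ * ρ.adjugate = Δ • 1 := Matrix.mul_adjugate _
  set c : Matrix (Fin 2) (Fin 2) ℂ := κ⁻¹ • (U1 * q1'.adjugate) with hc
  set b : Matrix (Fin 2) (Fin 2) ℂ := Δ⁻¹ • (U2 - c * q2') with hb
  set e : Matrix (Fin 2) (Fin 2) ℂ := Δ⁻¹ • (q1' * V1 + q2' * V2) with he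
  set d : Matrix (Fin 2) (Fin 2) ℂ := κ⁻¹ • (V2 - p2' * ρ.adjugate * e) with hd
  have hcq : c * q1' = U1 := by
    rw [hc, Matrix.smul_mul, Matrix.mul_assoc, h2, Matrix.mul_smul, Matrix.mul_one, smul_smul,
      inv_mul_cancel₀ hq, one_smul]
  have hΔe : Δ • e = q1' * V1 + q2' * V2 := by
    rw [he, smul_smul, mul_inv_cancel₀ hρ, one_smul]
  have hκd : κ • d = V2 - p2' * ρ.adjugate * e := by
    rw [hd, smul_smul, mul_inv_cancel₀ hq, one_smul]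
  refine ⟨c + b * (p2' * ρ.adjugate), b, e, d, ?_, ?_, ?_, ?_⟩
  · rw [add_sub_cancel_right, hcq]
  · rw [add_sub_cancel_right, hb, smul_smul, mul_inv_cancel₀ hρ, one_smul, sub_add_cancel]
  · have h4 : q1' * V1 = q1' * (p1' * ρ.adjugate * e - q1'.adjugate * q2' * d) := by
      have e0 : ∀ D : Matrix (Fin 2) (Fin 2) ℂ,
          q1' * (q1'.adjugate * q2' * D) = q2' * (κ • D) := by
        intro D
        rw [← Matrix.mul_assoc, ← Matrix.mul_assoc, h1, Matrix.smul_mul, Matrix.one_mul,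
          Matrix.smul_mul, Matrix.mul_smul]
      have e1 := e0 d
      have e2 : ρ * ρ.adjugate * e = Δ • e := by
        rw [h3, Matrix.smul_mul, Matrix.one_mul]
      rw [Matrix.mul_sub, e1, hκd]
      rw [hΔe] at e2
      have e3 : ρ * ρ.adjugate * e = q1' * (p1' * ρ.adjugate * e) + q2' * (p2' * ρ.adjugate * e) := by
        conv_lhs => rw [hρd]
        rw [Matrix.add_mul, Matrix.add_mul]
        simp only [Matrix.mul_assoc]
        rfl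
      rw [e3] at e2
      rw [Matrix.mul_sub]
      have e4 := e2
      rw [← sub_eq_zero] at e4 ⊢
      rw [← neg_eq_zero, ← e4]
      abel
    have h5 : ∀ Z W : Matrix (Fin 2) (Fin 2) ℂ, q1' * Z = q1' * W → Z = W := by
      intro Z W h
      have h6 : q1'.adjugate * (q1' * Z) = q1'.adjugate * (q1' * W) := by rw [h]
      rw [← Matrix.mul_assoc, ← Matrix.mul_assoc, h2, Matrix.smul_mul, Matrix.smul_mul,
        Matrix.one_mul, Matrix.one_mul] at h6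
      have h7 : κ⁻¹ • (κ • Z) = κ⁻¹ • (κ • W) := by rw [h6]
      rwa [smul_smul, smul_smul, inv_mul_cancel₀ hq, one_smul, one_smul] at h7
    exact h5 _ _ h4
  · rw [hκd]; abel

/-- the derivative at `x` in the direction of the `i`-th coordinate -/
def cnc_dv {σ : Type} (x : σ → ℂ) (i : σ) (p : O σ) : ℂ := eval x (pderiv i p)

section

variable {σ : Type} (x : σ → ℂ) (i : σ)

theorem cnc_dv_add (p q : O σ) : cnc_dv x i (p + q) = cnc_dv x i p + cnc_dv x i q := by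
  simp [cnc_dv]

theorem cnc_dv_sub (p q : O σ) : cnc_dv x i (p - q) = cnc_dv x i p - cnc_dv x i q := by
  simp [cnc_dv]

theorem cnc_dv_mul (p q : O σ) :
    cnc_dv x i (p * q) = cnc_dv x i p * eval x q + eval x p * cnc_dv x i q := by
  simp [cnc_dv, Derivation.leibniz]; ring

theorem cnc_dv_sum {α : Type*} (s : Finset α) (f : α → O σ) :
    cnc_dv x i (∑ a ∈ s, f a) = ∑ a ∈ s, cnc_dv x i (f a) := by
  simp [cnc_dv]

/-- the entrywise derivative of a matrix -/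
def cnc_md {m n : Type} (A : Matrix m n (O σ)) : Matrix m n ℂ :=
  Matrix.of fun a b => cnc_dv x i (A a b)

/-- the value of a matrix -/
def cnc_me {m n : Type} (A : Matrix m n (O σ)) : Matrix m n ℂ :=
  Matrix.of fun a b => eval x (A a b)

theorem cnc_md_add {m n : Type} (A B : Matrix m n (O σ)) :
    cnc_md x i (A + B) = cnc_md x i A + cnc_md x i B := by
  ext a b; simp [cnc_md, cnc_dv_add]

theorem cnc_md_sub {m n : Type} (A B : Matrix m n (O σ)) :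
    cnc_md x i (A - B) = cnc_md x i A - cnc_md x i B := by
  ext a b; simp [cnc_md, cnc_dv_sub]

theorem cnc_md_mul {m n p : Type} [Fintype n] (A : Matrix m n (O σ)) (B : Matrix n p (O σ)) :
    cnc_md x i (A * B) = cnc_md x i A * cnc_me x B + cnc_me x A * cnc_md x i B := by
  ext a b
  simp only [cnc_md, cnc_me, Matrix.of_apply, Matrix.mul_apply, Matrix.add_apply, cnc_dv_sum,
    cnc_dv_mul, Finset.sum_add_distrib]

theorem cnc_md_smul {m n : Type} (c : O σ) (A : Matrix m n (O σ)) :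
    cnc_md x i (c • A) = cnc_dv x i c • cnc_me x A + eval x c • cnc_md x i A := by
  ext a b
  simp only [cnc_md, cnc_me, Matrix.of_apply, Matrix.add_apply, Matrix.smul_apply, smul_eq_mul,
    cnc_dv_mul]

theorem cnc_me_add {m n : Type} (A B : Matrix m n (O σ)) :
    cnc_me x (A + B) = cnc_me x A + cnc_me x B := by
  ext a b; simp [cnc_me]

theorem cnc_me_mul {m n p : Type} [Fintype n] (A : Matrix m n (O σ)) (B : Matrix n p (O σ)) :
    cnc_me x (A * B) = cnc_me x A * cnc_me x B := by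
  ext a b
  simp [cnc_me, Matrix.mul_apply]

theorem cnc_me_det (A : Matrix (Fin 2) (Fin 2) (O σ)) : eval x A.det = (cnc_me x A).det := by
  simp [cnc_me, Matrix.det_fin_two]

theorem cnc_me_adj (A : Matrix (Fin 2) (Fin 2) (O σ)) :
    cnc_me x A.adjugate = (cnc_me x A).adjugate := by
  rw [Matrix.adjugate_fin_two, Matrix.adjugate_fin_two]
  ext a b
  fin_cases a <;> fin_cases b <;> simp [cnc_me]

end

/-- the generic point -/
abbrev cncY : YT 0 → O (YT 0 ⊕ ST 0) := fun i => X (Sum.inl i)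
/-- the generic point -/
abbrev cncZ : ST 0 → O (YT 0 ⊕ ST 0) := fun i => X (Sum.inr i)

variable (x : YT 0 ⊕ ST 0 → ℂ)

theorem cnc_me_yB (b : Fin 8) : cnc_me x (yB cncY b) = yB (x ∘ Sum.inl) b := by
  ext i j; simp [cnc_me, yB]

theorem cnc_me_zB (b : Fin 4) : cnc_me x (zB cncZ b) = zB (x ∘ Sum.inr) b := by
  ext i j; simp [cnc_me, zB]

theorem cnc_md_yB (i : YT 0 ⊕ ST 0) (b : Fin 8) :
    cnc_md x i (yB cncY b) = yB ((Pi.single i (1 : ℂ) : YT 0 ⊕ ST 0 → ℂ) ∘ Sum.inl) b := by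
  classical
  ext k l; simp [cnc_md, cnc_dv, yB, pderiv_X, Pi.single_apply]

theorem cnc_md_zB (i : YT 0 ⊕ ST 0) (b : Fin 4) :
    cnc_md x i (zB cncZ b) = zB ((Pi.single i (1 : ℂ) : YT 0 ⊕ ST 0 → ℂ) ∘ Sum.inr) b := by
  classical
  ext k l; simp [cnc_md, cnc_dv, zB, pderiv_X, Pi.single_apply]

theorem cnc_P1 {R : Type*} [CommRing R] (y : YT 0 → R) (z : ST 0 → R) :
    P1 y z = zB z 0 * yB y 0 + yB y 2 * yB y 1 := by
  have h : yP3 y * yA3 y = 0 := by ext i j; simp [Matrix.mul_apply]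
  rw [P1, h, add_zero]

theorem cnc_P2 {R : Type*} [CommRing R] (y : YT 0 → R) (z : ST 0 → R) :
    P2 y z = zB z 1 * yB y 0 + yB y 3 * yB y 1 := by
  have h : zP3 z * yA3 y = 0 := by ext i j; simp [Matrix.mul_apply]
  rw [P2, h, add_zero]

theorem cnc_x23_x12 (y : YT 0 → ℂ) (z : ST 0 → ℂ) (h : x23 y z * x12 y = 0) :
    zB z 0 * yB y 0 + yB y 2 * yB y 1 = 0 ∧ zB z 1 * yB y 0 + yB y 3 * yB y 1 = 0 := by
  constructor
  · ext i j
    have h1 := congrFun (congrFun h (Sum.inl i)) j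
    simpa [Matrix.mul_apply, x23, x12, Fintype.sum_sum_type] using h1
  · ext i j
    have h1 := congrFun (congrFun h (Sum.inr i)) j
    simpa [Matrix.mul_apply, x23, x12, Fintype.sum_sum_type] using h1

theorem cnc_x45_x34 (y : YT 0 → ℂ) (z : ST 0 → ℂ) (h : x45 y * x34 y z = 0) :
    yB y 6 * yB y 4 + yB y 7 * zB z 2 = 0 ∧ yB y 6 * yB y 5 + yB y 7 * zB z 3 = 0 := by
  constructor
  · ext i j
    have h1 := congrFun (congrFun h i) (Sum.inl j)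
    simpa [Matrix.mul_apply, x45, x34, Fintype.sum_sum_type] using h1
  · ext i j
    have h1 := congrFun (congrFun h i) (Sum.inr j)
    simpa [Matrix.mul_apply, x45, x34, Fintype.sum_sum_type] using h1

theorem cnc_md_P1 (i : YT 0 ⊕ ST 0) :
    cnc_md x i (P1 cncY cncZ) =
      zB ((Pi.single i (1 : ℂ) : YT 0 ⊕ ST 0 → ℂ) ∘ Sum.inr) 0 * yB (x ∘ Sum.inl) 0 +
      zB (x ∘ Sum.inr) 0 * yB ((Pi.single i (1 : ℂ) : YT 0 ⊕ ST 0 → ℂ) ∘ Sum.inl) 0 +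
      (yB ((Pi.single i (1 : ℂ) : YT 0 ⊕ ST 0 → ℂ) ∘ Sum.inl) 2 * yB (x ∘ Sum.inl) 1 +
      yB (x ∘ Sum.inl) 2 * yB ((Pi.single i (1 : ℂ) : YT 0 ⊕ ST 0 → ℂ) ∘ Sum.inl) 1) := by
  rw [cnc_P1, cnc_md_add, cnc_md_mul, cnc_md_mul, cnc_md_zB, cnc_md_yB, cnc_md_yB, cnc_md_yB,
    cnc_me_yB, cnc_me_yB, cnc_me_yB, cnc_me_zB]

theorem cnc_md_P2 (i : YT 0 ⊕ ST 0) :
    cnc_md x i (P2 cncY cncZ) =
      zB ((Pi.single i (1 : ℂ) : YT 0 ⊕ ST 0 → ℂ) ∘ Sum.inr) 1 * yB (x ∘ Sum.inl) 0 +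
      zB (x ∘ Sum.inr) 1 * yB ((Pi.single i (1 : ℂ) : YT 0 ⊕ ST 0 → ℂ) ∘ Sum.inl) 0 +
      (yB ((Pi.single i (1 : ℂ) : YT 0 ⊕ ST 0 → ℂ) ∘ Sum.inl) 3 * yB (x ∘ Sum.inl) 1 +
      yB (x ∘ Sum.inl) 3 * yB ((Pi.single i (1 : ℂ) : YT 0 ⊕ ST 0 → ℂ) ∘ Sum.inl) 1) := by
  rw [cnc_P2, cnc_md_add, cnc_md_mul, cnc_md_mul, cnc_md_zB, cnc_md_yB, cnc_md_yB, cnc_md_yB,
    cnc_me_yB, cnc_me_yB, cnc_me_yB, cnc_me_zB]

theorem cnc_md_Y1 (i : YT 0 ⊕ ST 0) :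
    cnc_md x i (Y1 cncY cncZ) =
      yB ((Pi.single i (1 : ℂ) : YT 0 ⊕ ST 0 → ℂ) ∘ Sum.inl) 6 * yB (x ∘ Sum.inl) 4 +
      yB (x ∘ Sum.inl) 6 * yB ((Pi.single i (1 : ℂ) : YT 0 ⊕ ST 0 → ℂ) ∘ Sum.inl) 4 +
      (yB ((Pi.single i (1 : ℂ) : YT 0 ⊕ ST 0 → ℂ) ∘ Sum.inl) 7 * zB (x ∘ Sum.inr) 2 +
      yB (x ∘ Sum.inl) 7 * zB ((Pi.single i (1 : ℂ) : YT 0 ⊕ ST 0 → ℂ) ∘ Sum.inr) 2) := by
  rw [Y1, cnc_md_add, cnc_md_mul, cnc_md_mul, cnc_md_zB, cnc_md_yB, cnc_md_yB, cnc_md_yB,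
    cnc_me_yB, cnc_me_yB, cnc_me_yB, cnc_me_zB]

theorem cnc_md_Y2 (i : YT 0 ⊕ ST 0) :
    cnc_md x i (Y2 cncY cncZ) =
      yB ((Pi.single i (1 : ℂ) : YT 0 ⊕ ST 0 → ℂ) ∘ Sum.inl) 6 * yB (x ∘ Sum.inl) 5 +
      yB (x ∘ Sum.inl) 6 * yB ((Pi.single i (1 : ℂ) : YT 0 ⊕ ST 0 → ℂ) ∘ Sum.inl) 5 +
      (yB ((Pi.single i (1 : ℂ) : YT 0 ⊕ ST 0 → ℂ) ∘ Sum.inl) 7 * zB (x ∘ Sum.inr) 3 +
      yB (x ∘ Sum.inl) 7 * zB ((Pi.single i (1 : ℂ) : YT 0 ⊕ ST 0 → ℂ) ∘ Sum.inr) 3) := by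
  rw [Y2, cnc_md_add, cnc_md_mul, cnc_md_mul, cnc_md_zB, cnc_md_yB, cnc_md_yB, cnc_md_yB,
    cnc_me_yB, cnc_me_yB, cnc_me_yB, cnc_me_zB]

section

variable (hP1 : zB (x ∘ Sum.inr) 0 * yB (x ∘ Sum.inl) 0 + yB (x ∘ Sum.inl) 2 * yB (x ∘ Sum.inl) 1 = 0)
  (hP2 : zB (x ∘ Sum.inr) 1 * yB (x ∘ Sum.inl) 0 + yB (x ∘ Sum.inl) 3 * yB (x ∘ Sum.inl) 1 = 0)
  (hY1 : yB (x ∘ Sum.inl) 6 * yB (x ∘ Sum.inl) 4 + yB (x ∘ Sum.inl) 7 * zB (x ∘ Sum.inr) 2 = 0)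
  (hY2 : yB (x ∘ Sum.inl) 6 * yB (x ∘ Sum.inl) 5 + yB (x ∘ Sum.inl) 7 * zB (x ∘ Sum.inr) 3 = 0)

include hP1 in
theorem cnc_me_P1 : cnc_me x (P1 cncY cncZ) = 0 := by
  rw [cnc_P1, cnc_me_add, cnc_me_mul, cnc_me_mul, cnc_me_yB, cnc_me_yB, cnc_me_yB, cnc_me_zB, hP1]

include hP2 in
theorem cnc_me_P2 : cnc_me x (P2 cncY cncZ) = 0 := by
  rw [cnc_P2, cnc_me_add, cnc_me_mul, cnc_me_mul, cnc_me_yB, cnc_me_yB, cnc_me_yB, cnc_me_zB, hP2]

include hY1 in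
theorem cnc_me_Y1 : cnc_me x (Y1 cncY cncZ) = 0 := by
  rw [Y1, cnc_me_add, cnc_me_mul, cnc_me_mul, cnc_me_yB, cnc_me_yB, cnc_me_yB, cnc_me_zB, hY1]

include hY2 in
theorem cnc_me_Y2 : cnc_me x (Y2 cncY cncZ) = 0 := by
  rw [Y2, cnc_me_add, cnc_me_mul, cnc_me_mul, cnc_me_yB, cnc_me_yB, cnc_me_yB, cnc_me_zB, hY2]

theorem cnc_me_rh : cnc_me x (rh cncY) = rh (x ∘ Sum.inl) := by
  rw [rh, cnc_me_add, cnc_me_mul, cnc_me_mul, cnc_me_yB, cnc_me_yB, cnc_me_yB, cnc_me_yB, rh]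

include hP1 hP2 in
theorem cnc_md_al (i : YT 0 ⊕ ST 0) : cnc_md x i (al cncY cncZ) =
    yB (x ∘ Sum.inl) 4 * cnc_md x i (P1 cncY cncZ) +
      yB (x ∘ Sum.inl) 5 * cnc_md x i (P2 cncY cncZ) := by
  rw [al, cnc_md_add, cnc_md_mul, cnc_md_mul, cnc_me_P1 x hP1, cnc_me_P2 x hP2, cnc_me_yB,
    cnc_me_yB]
  simp

include hP1 hP2 in
theorem cnc_me_al : cnc_me x (al cncY cncZ) = 0 := by
  rw [al, cnc_me_add, cnc_me_mul, cnc_me_mul, cnc_me_P1 x hP1, cnc_me_P2 x hP2]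
  simp

include hP1 hP2 in
theorem cnc_md_be (i : YT 0 ⊕ ST 0) : cnc_md x i (be cncY cncZ) =
    (rh (x ∘ Sum.inl)).det • cnc_md x i (P2 cncY cncZ) -
      yB (x ∘ Sum.inl) 3 * (rh (x ∘ Sum.inl)).adjugate * cnc_md x i (al cncY cncZ) := by
  rw [be, cnc_md_sub, cnc_md_smul, cnc_md_mul, cnc_me_al x hP1 hP2, cnc_me_P2 x hP2, cnc_me_mul,
    cnc_me_adj, cnc_me_rh, cnc_me_det, cnc_me_rh, cnc_me_yB]
  simp

include hY1 hY2 in
theorem cnc_md_ep (i : YT 0 ⊕ ST 0) : cnc_md x i (ep cncY cncZ) =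
    (cnc_md x i (Y1 cncY cncZ) * yB (x ∘ Sum.inl) 2 +
      cnc_md x i (Y2 cncY cncZ) * yB (x ∘ Sum.inl) 3) * (rh (x ∘ Sum.inl)).adjugate := by
  rw [ep, cnc_md_mul, cnc_md_add, cnc_md_mul, cnc_md_mul, cnc_me_add, cnc_me_mul, cnc_me_mul,
    cnc_me_Y1 x hY1, cnc_me_Y2 x hY2, cnc_me_adj, cnc_me_rh, cnc_me_yB, cnc_me_yB]
  simp

include hY1 hY2 in
theorem cnc_md_de (i : YT 0 ⊕ ST 0) : cnc_md x i (de cncY cncZ) =
    (yB (x ∘ Sum.inl) 4).det • cnc_md x i (Y2 cncY cncZ) -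
      cnc_md x i (Y1 cncY cncZ) * (yB (x ∘ Sum.inl) 4).adjugate * yB (x ∘ Sum.inl) 5 := by
  rw [de, cnc_md_sub, cnc_md_smul, cnc_md_mul, cnc_md_mul, cnc_me_mul, cnc_me_Y1 x hY1,
    cnc_me_Y2 x hY2, cnc_me_adj, cnc_me_det, cnc_me_yB, cnc_me_yB]
  simp

include hP1 hP2 hY1 hY2 in
theorem cnc_sO (l : ST 0) : eval x (sO 0 l) = 0 := by
  have ha := cnc_me_al x hP1 hP2
  have hb : cnc_me x (be cncY cncZ) = 0 := by
    have e : be cncY cncZ = (rh cncY).det • P2 cncY cncZ -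
      yB cncY 3 * (rh cncY).adjugate * al cncY cncZ := rfl
    have h2 := cnc_me_P2 x hP2
    have h3 : cnc_me x (yB cncY 3 * (rh cncY).adjugate * al cncY cncZ) = 0 := by
      rw [cnc_me_mul, ha, Matrix.mul_zero]
    ext i j
    have h4 := congrFun (congrFun h2 i) j
    have h5 := congrFun (congrFun h3 i) j
    simp only [cnc_me, Matrix.of_apply, Matrix.zero_apply] at h4 h5 ⊢
    rw [e, Matrix.sub_apply, Matrix.smul_apply, map_sub, h5, smul_eq_mul, map_mul, h4]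
    simp
  have he : cnc_me x (ep cncY cncZ) = 0 := by
    rw [ep, cnc_me_mul, cnc_me_add, cnc_me_mul, cnc_me_mul, cnc_me_Y1 x hY1, cnc_me_Y2 x hY2]
    simp
  have hd : cnc_me x (de cncY cncZ) = 0 := by
    have e : de cncY cncZ = (yB cncY 4).det • Y2 cncY cncZ -
      Y1 cncY cncZ * (yB cncY 4).adjugate * yB cncY 5 := rfl
    have h2 := cnc_me_Y2 x hY2
    have h3 : cnc_me x (Y1 cncY cncZ * (yB cncY 4).adjugate * yB cncY 5) = 0 := by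
      rw [cnc_me_mul, cnc_me_mul, cnc_me_Y1 x hY1, Matrix.zero_mul, Matrix.zero_mul]
    ext i j
    have h4 := congrFun (congrFun h2 i) j
    have h5 := congrFun (congrFun h3 i) j
    simp only [cnc_me, Matrix.of_apply, Matrix.zero_apply] at h4 h5 ⊢
    rw [e, Matrix.sub_apply, Matrix.smul_apply, map_sub, h5, smul_eq_mul, map_mul, h4]
    simp
  rcases l with ⟨b, i, j⟩ | ⟨i, j⟩
  · fin_cases b
    · exact congrFun (congrFun ha i) j
    · exact congrFun (congrFun hb i) j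
    · exact congrFun (congrFun he i) j
    · exact congrFun (congrFun hd i) j
  · exact j.elim0

end



theorem cnc_pair (ξ v : YT 0 ⊕ ST 0 → ℂ) :
    ∑ j, ξ j * v j =
      ∑ b, ((yB (ξ ∘ Sum.inl) b).transpose * yB (v ∘ Sum.inl) b).trace +
      ∑ b, ((zB (ξ ∘ Sum.inr) b).transpose * zB (v ∘ Sum.inr) b).trace := by
  rw [Fintype.sum_sum_type, Fintype.sum_sum_type, Fintype.sum_sum_type, Fintype.sum_sum_type]
  simp only [Fintype.sum_prod_type, Matrix.trace, Matrix.diag_apply, Matrix.mul_apply,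
    Matrix.transpose_apply, yB, zB, Matrix.of_apply, Function.comp_apply, Fin.sum_univ_zero,
    Fin.sum_univ_two, add_zero]
  have h8 : ∀ f g : Fin 8 → ℂ, (∀ b, f b = g b) → ∑ b, f b = ∑ b, g b := fun f g h =>
    Finset.sum_congr rfl fun b _ => h b
  have h4 : ∀ f g : Fin 4 → ℂ, (∀ b, f b = g b) → ∑ b, f b = ∑ b, g b := fun f g h =>
    Finset.sum_congr rfl fun b _ => h b
  congr 1
  · apply h8; intro b; ring
  · apply h4; intro b; ring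

theorem cnc_pair_single (ξ : YT 0 ⊕ ST 0 → ℂ) (i : YT 0 ⊕ ST 0) :
    ∑ j, ξ j * (Pi.single i (1 : ℂ) : YT 0 ⊕ ST 0 → ℂ) j = ξ i := by
  classical
  simp [Pi.single_apply]

theorem cnc_pair_s (N M : Fin 4 → Matrix (Fin 2) (Fin 2) ℂ) (f : ST 0 → ℂ)
    (hf : ∀ b i j, f (Sum.inl (b, i, j)) = M b i j) :
    ∑ l : ST 0, (Sum.elim (fun l => N l.1 l.2.2 l.2.1) (fun l => l.2.elim0) : ST 0 → ℂ) l * f l =
      ∑ b, (N b * M b).trace := by
  rw [Fintype.sum_sum_type]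
  simp only [Fintype.sum_prod_type, Matrix.trace, Matrix.diag_apply, Matrix.mul_apply,
    Sum.elim_inl, hf, Fin.sum_univ_zero, Fin.sum_univ_two, add_zero]
  apply Finset.sum_congr rfl
  intro b _
  ring

theorem cnc_trace1 (p1' p2' q1' q2' ρa qa a b e d DP1 DP2 DY1 DY2 : Matrix (Fin 2) (Fin 2) ℂ)
    (Δ κ : ℂ) :
    (a * (q1' * DP1 + q2' * DP2)).trace +
      (b * (Δ • DP2 - p2' * ρa * (q1' * DP1 + q2' * DP2))).trace +
      (e * ((DY1 * p1' + DY2 * p2') * ρa)).trace +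
      (d * (κ • DY2 - DY1 * qa * q2')).trace =
    ((a - b * (p2' * ρa)) * q1' * DP1).trace +
      ((Δ • b + (a - b * (p2' * ρa)) * q2') * DP2).trace +
      ((p1' * ρa * e - qa * q2' * d) * DY1).trace +
      ((p2' * ρa * e + κ • d) * DY2).trace := by
  simp only [Matrix.mul_add, Matrix.add_mul, Matrix.mul_sub, Matrix.sub_mul, Matrix.trace_add,
    Matrix.trace_sub, Matrix.mul_smul, Matrix.smul_mul, Matrix.trace_smul, Matrix.mul_assoc,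
    smul_eq_mul]
  have h1 : (e * (DY1 * (p1' * ρa))).trace = (p1' * (ρa * (e * DY1))).trace := by
    rw [← Matrix.mul_assoc e, Matrix.trace_mul_comm]
    simp only [Matrix.mul_assoc]
  have h2 : (e * (DY2 * (p2' * ρa))).trace = (p2' * (ρa * (e * DY2))).trace := by
    rw [← Matrix.mul_assoc e, Matrix.trace_mul_comm]
    simp only [Matrix.mul_assoc]
  have h3 : (d * (DY1 * (qa * q2'))).trace = (qa * (q2' * (d * DY1))).trace := by
    rw [← Matrix.mul_assoc d, Matrix.trace_mul_comm]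
    simp only [Matrix.mul_assoc]
  rw [h1, h2, h3]
  ring

theorem cnc_trace2 (a1 a2 p1 p2 p1' p2' q1' q2' r1 r2 q1 q2 U1 U2 V1 V2
      da1 da2 dp1 dp2 dp1' dp2' dq1' dq2' dr1 dr2 dq1 dq2 : Matrix (Fin 2) (Fin 2) ℂ) :
    (U1 * (dp1 * a1 + p1 * da1 + (dp1' * a2 + p1' * da2))).trace +
      (U2 * (dp2 * a1 + p2 * da1 + (dp2' * a2 + p2' * da2))).trace +
      (V1 * (dr1 * q1' + r1 * dq1' + (dr2 * q1 + r2 * dq1))).trace +
      (V2 * (dr1 * q2' + r1 * dq2' + (dr2 * q2 + r2 * dq2))).trace =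
    ((U1 * p1 + U2 * p2) * da1).trace + ((U1 * p1' + U2 * p2') * da2).trace +
      (a2 * U1 * dp1').trace + (a2 * U2 * dp2').trace +
      (V1 * r1 * dq1').trace + (V2 * r1 * dq2').trace +
      ((q1' * V1 + q2' * V2) * dr1).trace + ((q1 * V1 + q2 * V2) * dr2).trace +
      ((a1 * U1 * dp1).trace + (a1 * U2 * dp2).trace +
      (V1 * r2 * dq1).trace + (V2 * r2 * dq2).trace) := by
  have h : ∀ A B C : Matrix (Fin 2) (Fin 2) ℂ, (A * (B * C)).trace = (C * (A * B)).trace := by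
    intro A B C
    rw [← Matrix.mul_assoc, Matrix.trace_mul_comm]
  simp only [Matrix.mul_add, Matrix.add_mul, Matrix.trace_add, Matrix.mul_assoc]
  rw [h U1 dp1 a1, h U1 dp1' a2, h U2 dp2 a1, h U2 dp2' a2, h V1 dr1 q1', h V1 dr2 q1,
    h V2 dr1 q2', h V2 dr2 q2]
  ring

theorem conormal_chart (x ξ : YT 0 ⊕ ST 0 → ℂ)
    (h0 : (yB (x ∘ Sum.inl) 0).det ≠ 0) (h4 : (yB (x ∘ Sum.inl) 4).det ≠ 0)
    (h7 : (yB (x ∘ Sum.inl) 7).det ≠ 0) (hρ : (rh (x ∘ Sum.inl)).det ≠ 0)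
    (hP : x23 (x ∘ Sum.inl) (x ∘ Sum.inr) * x12 (x ∘ Sum.inl) = 0)
    (hY : x45 (x ∘ Sum.inl) * x34 (x ∘ Sum.inl) (x ∘ Sum.inr) = 0)
    (c1 : (x12 (ξ ∘ Sum.inl)).transpose * x12 (x ∘ Sum.inl) = 0)
    (c2 : x12 (x ∘ Sum.inl) * (x12 (ξ ∘ Sum.inl)).transpose =
      (x23 (ξ ∘ Sum.inl) (ξ ∘ Sum.inr)).transpose * x23 (x ∘ Sum.inl) (x ∘ Sum.inr))
    (c3 : x23 (x ∘ Sum.inl) (x ∘ Sum.inr) * (x23 (ξ ∘ Sum.inl) (ξ ∘ Sum.inr)).transpose =
      (x34 (ξ ∘ Sum.inl) (ξ ∘ Sum.inr)).transpose * x34 (x ∘ Sum.inl) (x ∘ Sum.inr))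
    (c4 : x34 (x ∘ Sum.inl) (x ∘ Sum.inr) * (x34 (ξ ∘ Sum.inl) (ξ ∘ Sum.inr)).transpose =
      (x45 (ξ ∘ Sum.inl)).transpose * x45 (x ∘ Sum.inl))
    (c5 : x45 (x ∘ Sum.inl) * (x45 (ξ ∘ Sum.inl)).transpose = 0) :
    (∀ l, eval x (sO 0 l) = 0) ∧
      ∃ η : ST 0 → ℂ, ∀ i, ξ i = ∑ l, η l * eval x (pderiv i (sO 0 l)) := by
  obtain ⟨hP1, hP2⟩ := cnc_x23_x12 _ _ hP
  obtain ⟨hY1, hY2⟩ := cnc_x45_x34 _ _ hY
  refine ⟨cnc_sO x hP1 hP2 hY1 hY2, ?_⟩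
  have e11 : yB (x ∘ Sum.inl) 0 * (yB (ξ ∘ Sum.inl) 0).transpose =
      (zB (ξ ∘ Sum.inr) 0).transpose * zB (x ∘ Sum.inr) 0 +
      (zB (ξ ∘ Sum.inr) 1).transpose * zB (x ∘ Sum.inr) 1 := by
    ext i j
    have h1 := congrFun (congrFun c2 (Sum.inl i)) (Sum.inl j)
    simpa [Matrix.mul_apply, x23, x12, Fintype.sum_sum_type] using h1
  have e12 : yB (x ∘ Sum.inl) 0 * (yB (ξ ∘ Sum.inl) 1).transpose =
      (zB (ξ ∘ Sum.inr) 0).transpose * yB (x ∘ Sum.inl) 2 +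
      (zB (ξ ∘ Sum.inr) 1).transpose * yB (x ∘ Sum.inl) 3 := by
    ext i j
    have h1 := congrFun (congrFun c2 (Sum.inl i)) (Sum.inr (Sum.inl j))
    simpa [Matrix.mul_apply, x23, x12, Fintype.sum_sum_type] using h1
  have e22 : yB (x ∘ Sum.inl) 1 * (yB (ξ ∘ Sum.inl) 1).transpose =
      (yB (ξ ∘ Sum.inl) 2).transpose * yB (x ∘ Sum.inl) 2 +
      (yB (ξ ∘ Sum.inl) 3).transpose * yB (x ∘ Sum.inl) 3 := by
    ext i j
    have h1 := congrFun (congrFun c2 (Sum.inr (Sum.inl i))) (Sum.inr (Sum.inl j))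
    simpa [Matrix.mul_apply, x23, x12, Fintype.sum_sum_type] using h1
  have f11 : zB (x ∘ Sum.inr) 0 * (zB (ξ ∘ Sum.inr) 0).transpose +
      yB (x ∘ Sum.inl) 2 * (yB (ξ ∘ Sum.inl) 2).transpose =
      (yB (ξ ∘ Sum.inl) 4).transpose * yB (x ∘ Sum.inl) 4 +
      (zB (ξ ∘ Sum.inr) 2).transpose * zB (x ∘ Sum.inr) 2 := by
    ext i j
    have h1 := congrFun (congrFun c3 (Sum.inl i)) (Sum.inl j)
    simpa [Matrix.mul_apply, x23, x34, Fintype.sum_sum_type] using h1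
  have f12 : zB (x ∘ Sum.inr) 0 * (zB (ξ ∘ Sum.inr) 1).transpose +
      yB (x ∘ Sum.inl) 2 * (yB (ξ ∘ Sum.inl) 3).transpose =
      (yB (ξ ∘ Sum.inl) 4).transpose * yB (x ∘ Sum.inl) 5 +
      (zB (ξ ∘ Sum.inr) 2).transpose * zB (x ∘ Sum.inr) 3 := by
    ext i j
    have h1 := congrFun (congrFun c3 (Sum.inl i)) (Sum.inr j)
    simpa [Matrix.mul_apply, x23, x34, Fintype.sum_sum_type] using h1
  have f21 : zB (x ∘ Sum.inr) 1 * (zB (ξ ∘ Sum.inr) 0).transpose +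
      yB (x ∘ Sum.inl) 3 * (yB (ξ ∘ Sum.inl) 2).transpose =
      (yB (ξ ∘ Sum.inl) 5).transpose * yB (x ∘ Sum.inl) 4 +
      (zB (ξ ∘ Sum.inr) 3).transpose * zB (x ∘ Sum.inr) 2 := by
    ext i j
    have h1 := congrFun (congrFun c3 (Sum.inr i)) (Sum.inl j)
    simpa [Matrix.mul_apply, x23, x34, Fintype.sum_sum_type] using h1
  have f22 : zB (x ∘ Sum.inr) 1 * (zB (ξ ∘ Sum.inr) 1).transpose +
      yB (x ∘ Sum.inl) 3 * (yB (ξ ∘ Sum.inl) 3).transpose =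
      (yB (ξ ∘ Sum.inl) 5).transpose * yB (x ∘ Sum.inl) 5 +
      (zB (ξ ∘ Sum.inr) 3).transpose * zB (x ∘ Sum.inr) 3 := by
    ext i j
    have h1 := congrFun (congrFun c3 (Sum.inr i)) (Sum.inr j)
    simpa [Matrix.mul_apply, x23, x34, Fintype.sum_sum_type] using h1
  have g12 : yB (x ∘ Sum.inl) 4 * (zB (ξ ∘ Sum.inr) 2).transpose +
      yB (x ∘ Sum.inl) 5 * (zB (ξ ∘ Sum.inr) 3).transpose =
      (yB (ξ ∘ Sum.inl) 6).transpose * yB (x ∘ Sum.inl) 7 := by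
    ext i j
    have h1 := congrFun (congrFun c4 (Sum.inl i)) (Sum.inr j)
    simpa [Matrix.mul_apply, x34, x45, Fintype.sum_sum_type] using h1
  have g22 : zB (x ∘ Sum.inr) 2 * (zB (ξ ∘ Sum.inr) 2).transpose +
      zB (x ∘ Sum.inr) 3 * (zB (ξ ∘ Sum.inr) 3).transpose =
      (yB (ξ ∘ Sum.inl) 7).transpose * yB (x ∘ Sum.inl) 7 := by
    ext i j
    have h1 := congrFun (congrFun c4 (Sum.inr i)) (Sum.inr j)
    simpa [Matrix.mul_apply, x34, x45, Fintype.sum_sum_type] using h1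
  have inv : ∀ A : Matrix (Fin 2) (Fin 2) ℂ, A.det ≠ 0 → A * A⁻¹ = 1 ∧ A⁻¹ * A = 1 := by
    intro A hA
    exact ⟨Matrix.mul_nonsing_inv A (isUnit_iff_ne_zero.2 hA),
      Matrix.nonsing_inv_mul A (isUnit_iff_ne_zero.2 hA)⟩
  have i0 := inv _ h0
  have i7 := inv _ h7
  have i4 := inv _ h4
  have iρ := inv _ hρ
  obtain ⟨U1, U2, V1, V2, k1, k2, k3, k4, k5, k6, k7, k8, k9, k10, k11, k12⟩ :=
    cnc_core (R := Matrix (Fin 2) (Fin 2) ℂ) _ _ _ _ _ _ _ _ _ _ _ _ _ _ _ _ _ _ _ _ _ _ _ _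
      _ _ _ _ i0.1 i0.2 i7.1 i7.2 i4.1 iρ.1 iρ.2 hP1 hP2 hY1 hY2 e11 e12 e22 f11 f12 f21 f22
      g12 g22
  obtain ⟨a, b, e, d, u1, u2, v1, v2⟩ := cnc_solve (yB (x ∘ Sum.inl) 2) (yB (x ∘ Sum.inl) 3)
    (yB (x ∘ Sum.inl) 4) (yB (x ∘ Sum.inl) 5) U1 U2 V1 V2 h4 hρ
  refine ⟨Sum.elim (fun l => (![a, b, e, d] l.1) l.2.2 l.2.1) (fun l => l.2.elim0), fun i => ?_⟩
  have s1 := cnc_pair_s ![a, b, e, d]
    ![cnc_md x i (al cncY cncZ), cnc_md x i (be cncY cncZ), cnc_md x i (ep cncY cncZ),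
      cnc_md x i (de cncY cncZ)] (fun l => eval x (pderiv i (sO 0 l))) (by
      intro b i j
      fin_cases b <;> rfl)
  refine Eq.trans ?_ s1.symm
  rw [Fin.sum_univ_four]
  simp only [Matrix.cons_val]
  rw [cnc_md_al x hP1 hP2, cnc_md_be x hP1 hP2, cnc_md_al x hP1 hP2, cnc_md_ep x hY1 hY2,
    cnc_md_de x hY1 hY2, cnc_trace1]
  have r1 : rh (x ∘ Sum.inl) = yB (x ∘ Sum.inl) 4 * yB (x ∘ Sum.inl) 2 +
    yB (x ∘ Sum.inl) 5 * yB (x ∘ Sum.inl) 3 := rfl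
  rw [r1, ← u1, ← u2, ← v1, ← v2, cnc_md_P1, cnc_md_P2, cnc_md_Y1, cnc_md_Y2, cnc_trace2]
  rw [← cnc_pair_single ξ i, cnc_pair, Fin.sum_univ_eight, Fin.sum_univ_four]
  rw [← k1, ← k2, ← k3, ← k4, ← k5, ← k6, ← k7, ← k8, ← k9, ← k10, ← k11, ← k12]

end

end Adams
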