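import Pool.Agent.MP_fe6ac3_nt.Local

/-!
# [ADAMS-CONV] Two parameter systems of the same prime ideal

Blueprint.  `R = locRing I`, `𝔪 = {f ∈ R | ∃ s ∉ I, ∃ g ∈ I, ι s * f = ι g}`.  Over `R`:
`h = B q` with a matrix `B` over `R` (entries `b_jk / s`).  By the Jacobian conditions (in the domain
`O / I`) `B` is square and `det B` is a unit of `R`.  Put `E = det B · e`, `e = (ι (∏ h))⁻¹`.

* For a derivation `θ = ∑ θ_i ∂_i` with `θ h = C h`, `C` over `R`:
  `θ e ≡ - tr(C) e mod locN` (because `(h_k / h_j) e ∈ locN` for `k ≠ j`).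
* If `θ q = c q`, then `θ h = (θ(B) + B c) B⁻¹ h`, and `θ(det B) = det B tr(B⁻¹ θ(B))`.
  Hence `θ E ≡ - tr(c) E`.
-/

open MvPolynomial

namespace Adams

noncomputable section

/-! ### The derivative of a determinant -/

section Det

open TrivSqZeroExt DualNumber

theorem conv_det_der {F : Type*} [Field F] {n : ℕ} (D : F → F)
    (hadd : ∀ f g, D (f + g) = D f + D g) (hmul : ∀ f g, D (f * g) = f * D g + g * D f)
    (B : Matrix (Fin n) (Fin n) F) (hB : B.det ≠ 0) :
    D B.det = B.det * (B⁻¹ * B.map D).trace := by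
  have h0 : D 0 = 0 := by
    have := hadd 0 0
    rw [add_zero] at this
    linear_combination -this
  have h1 : D 1 = 0 := by
    have := hmul 1 1
    rw [mul_one] at this
    linear_combination -this
  let φ : F →+* DualNumber F :=
    { toFun := fun f => inl f + inr (D f)
      map_one' := by rw [h1]; simp
      map_zero' := by rw [h0]; simp
      map_add' := by
        intro f g
        ext
        · simp
        · simp [hadd]
      map_mul' := by
        intro f g
        ext
        · simp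
        · simp [hmul, mul_comm] }
  have hφ : ∀ f, φ f = inl f + inr (D f) := fun f => rfl
  have e1 : φ B.det = (B.map φ).det := RingHom.map_det φ B
  have e2 : B.map φ = (B.map (inlHom F F)) *
      (1 + (ε : DualNumber F) • ((B⁻¹ * B.map D).map (inlHom F F))) := by
    rw [mul_add, mul_one, Matrix.mul_smul, ← Matrix.map_mul, ← mul_assoc,
      Matrix.mul_nonsing_inv _ (isUnit_iff_ne_zero.mpr hB), one_mul]
    ext i j
    · simp [hφ]
    · simp [hφ]
  rw [e2, Matrix.det_mul, Matrix.det_one_add_smul] at e1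
  have e3 : (B.map (inlHom F F)).det = inl B.det := (RingHom.map_det (inlHom F F) B).symm
  have e4 : ((B⁻¹ * B.map D).map (inlHom F F)).trace = inl (B⁻¹ * B.map D).trace := by
    rw [Matrix.trace, Matrix.trace]
    exact (map_sum (inlHom F F) _ _).symm
  have e5 : (ε : DualNumber F) ^ 2 = 0 := by rw [pow_two, eps_mul_eps]
  rw [e3, e4, e5, hφ] at e1
  have := congrArg TrivSqZeroExt.snd e1
  simpa using this

end Det

/-! ### The local ring as a subring -/

section Sub

variable {σ : Type} {I : Ideal (O σ)}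

/-- the local ring as a subring -/
def convR (I : Ideal (O σ)) [I.IsPrime] : Subring (K σ) where
  carrier := locRing I
  mul_mem' := locRing_mul
  one_mem' := by simpa using ι_mem_locRing (I := I) (1 : O σ)
  add_mem' := locRing_add
  zero_mem' := by simpa using ι_mem_locRing (I := I) (0 : O σ)
  neg_mem' := fun {x} hx => by
    have := locRing_mul (ι_mem_locRing (I := I) (-1 : O σ)) hx
    simpa using this

theorem mem_convR [I.IsPrime] {f : K σ} : f ∈ convR I ↔ f ∈ locRing I := Iff.rfl

theorem conv_inv_mem {F : Type*} [Field F] (R : Subring F) {n : ℕ} (B : Matrix (Fin n) (Fin n) F)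
    (hB : ∀ i j, B i j ∈ R) (hd : B.det⁻¹ ∈ R) (i j : Fin n) : B⁻¹ i j ∈ R := by
  let B' : Matrix (Fin n) (Fin n) R := Matrix.of fun i j => ⟨B i j, hB i j⟩
  have e : B = R.subtype.mapMatrix B' := by
    ext i j
    rfl
  rw [Matrix.inv_def, Ring.inverse_eq_inv', Matrix.smul_apply, smul_eq_mul]
  refine R.mul_mem hd ?_
  rw [e, ← RingHom.map_adjugate]
  exact ((Matrix.adjugate B') i j).2

theorem conv_det_mem {F : Type*} [Field F] (R : Subring F) {n : ℕ} (B : Matrix (Fin n) (Fin n) F)
    (hB : ∀ i j, B i j ∈ R) : B.det ∈ R := by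
  let B' : Matrix (Fin n) (Fin n) R := Matrix.of fun i j => ⟨B i j, hB i j⟩
  have e : B = R.subtype.mapMatrix B' := by
    ext i j
    rfl
  rw [e, ← RingHom.map_det]
  exact B'.det.2

/-- `(h_k / h_j) e ∈ locN` -/
theorem conv_offdiag [I.IsPrime] {r : ℕ} {h : Fin r → O σ} (hh : ∀ j, h j ≠ 0) {j k : Fin r}
    (hjk : k ≠ j) : (ι (h k) : K σ) / ι (h j) * (ι (∏ j, h j))⁻¹ ∈ locN I h := by
  refine Submodule.subset_span ⟨k, 1, fun h1 => Ideal.IsPrime.ne_top ‹_› ?_, 2,
    ∏ l ∈ (Finset.univ.erase k).erase j, h l, ?_⟩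
  · exact (Ideal.eq_top_iff_one _).mpr h1
  · have hj : j ∈ Finset.univ.erase k := by simp [hjk.symm]
    have e1 : (∏ l, h l) = h k * ∏ l ∈ Finset.univ.erase k, h l :=
      (Finset.mul_prod_erase _ _ (Finset.mem_univ k)).symm
    have e2 : (∏ l ∈ Finset.univ.erase k, h l) = h j * ∏ l ∈ (Finset.univ.erase k).erase j, h l :=
      (Finset.mul_prod_erase _ _ hj).symm
    have n1 : (ι (h k) : K σ) ≠ 0 := ι_ne_zero (hh k)
    have n2 : (ι (h j) : K σ) ≠ 0 := ι_ne_zero (hh j)
    have n3 : (ι (∏ l ∈ (Finset.univ.erase k).erase j, h l) : K σ) ≠ 0 :=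
      ι_ne_zero (Finset.prod_ne_zero_iff.mpr fun l _ => hh l)
    rw [e1, e2, one_mul, map_pow, map_mul, map_mul, map_mul]
    field_simp

/-- logarithmic derivative of a product -/
theorem conv_prod {F : Type*} [Field F] (D : F → F) (h1 : D 1 = 0)
    (hmul : ∀ f g, D (f * g) = f * D g + g * D f) {α : Type*} [DecidableEq α] (s : Finset α)
    (f : α → F) (hf : ∀ a ∈ s, f a ≠ 0) :
    D (∏ a ∈ s, f a) = (∏ a ∈ s, f a) * ∑ a ∈ s, D (f a) / f a := by
  induction s using Finset.induction_on with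
  | empty => simp [h1]
  | insert a s ha ih =>
    rw [Finset.prod_insert ha, Finset.sum_insert ha, hmul,
      ih (fun b hb => hf b (Finset.mem_insert_of_mem hb))]
    have := hf a (Finset.mem_insert_self a s)
    field_simp
    ring

end Sub

section Main

variable {σ : Type}

/-- common denominators -/
theorem conv_clear {I : Ideal (O σ)} [I.IsPrime] {r r' : ℕ} {h : Fin r → O σ}
    {q : Fin r' → O σ} (hh : ∀ j, h j ∈ I) (hq : IsParam I q) :
    ∃ s, s ∉ I ∧ ∃ b : Matrix (Fin r) (Fin r') (O σ), ∀ j, s * h j = ∑ k, b j k * q k := by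
  have H : ∀ j, ∃ s, s ∉ I ∧ ∃ b : Fin r' → O σ, s * h j = ∑ k, b k * q k := by
    intro j
    obtain ⟨s, hs, hm⟩ := hq.2.1 (h j) (hh j)
    obtain ⟨b, hb⟩ := (Submodule.mem_span_range_iff_exists_fun _).mp hm
    refine ⟨s, hs, b, ?_⟩
    rw [← hb]
    simp
  choose s hs b hb using H
  refine ⟨∏ j, s j, fun hm => ?_, Matrix.of fun j k => (∏ l ∈ Finset.univ.erase j, s l) * b j k,
    ?_⟩
  · obtain ⟨j, _, hj⟩ := Ideal.IsPrime.prod_mem_iff.mp hm
    exact hs j hj
  · intro j
    rw [← Finset.mul_prod_erase _ _ (Finset.mem_univ j)]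
    simp only [Matrix.of_apply, mul_assoc]
    rw [← Finset.mul_sum, ← hb j]
    ring

/-- the Jacobian identity modulo `I` -/
theorem conv_jac {I : Ideal (O σ)} {r r' : ℕ} {h : Fin r → O σ}
    {q : Fin r' → O σ} (hh : ∀ j, h j ∈ I) (hq : ∀ j, q j ∈ I) {s : O σ}
    {b : Matrix (Fin r) (Fin r') (O σ)} (hb : ∀ j, s * h j = ∑ k, b j k * q k) (c : Fin r → σ) :
    (Ideal.Quotient.mk I s) • ((Matrix.of fun i j => pderiv (c i) (h j)).map
      (Ideal.Quotient.mk I)) =
      ((Matrix.of fun i j => pderiv (c i) (q j)).map (Ideal.Quotient.mk I)) *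
        (b.map (Ideal.Quotient.mk I)).transpose := by
  ext i j
  have e := congrArg (fun f => Ideal.Quotient.mk I (pderiv (c i) f)) (hb j)
  have z1 : ∀ j, Ideal.Quotient.mk I (h j) = 0 := fun j => Ideal.Quotient.eq_zero_iff_mem.mpr (hh j)
  have z2 : ∀ j, Ideal.Quotient.mk I (q j) = 0 := fun j => Ideal.Quotient.eq_zero_iff_mem.mpr (hq j)
  simp only [map_sum, Derivation.leibniz, smul_eq_mul, map_add, map_mul, z1, z2, zero_mul,
    add_zero] at e
  simp only [Matrix.smul_apply, Matrix.map_apply, Matrix.of_apply, smul_eq_mul, Matrix.mul_apply,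
    Matrix.transpose_apply]
  rw [e]
  exact Finset.sum_congr rfl fun k _ => mul_comm _ _

theorem conv_le {I : Ideal (O σ)} [I.IsPrime] {r r' : ℕ} {h : Fin r → O σ}
    {q : Fin r' → O σ} (hh : IsParam I h) (hq : IsParam I q) : r ≤ r' := by
  obtain ⟨s, hs, b, hb⟩ := conv_clear hh.1 hq
  obtain ⟨c, hc⟩ := hh.2.2
  have e := conv_jac hh.1 hq.1 hb c
  have hs' : Ideal.Quotient.mk I s ≠ 0 := fun h => hs (Ideal.Quotient.eq_zero_iff_mem.mp h)
  have hc' : ((Matrix.of fun i j => pderiv (c i) (h j)).map (Ideal.Quotient.mk I)).det ≠ 0 := by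
    intro h0
    apply hc
    rw [← Ideal.Quotient.eq_zero_iff_mem, RingHom.map_det]
    exact h0
  have hd : ((Ideal.Quotient.mk I s) • ((Matrix.of fun i j => pderiv (c i) (h j)).map
      (Ideal.Quotient.mk I))).det ≠ 0 := by
    rw [Matrix.det_smul]
    exact mul_ne_zero (pow_ne_zero _ hs') hc'
  have hr := Matrix.rank_of_det_ne_zero hd
  rw [e] at hr
  have := (Matrix.rank_mul_le_left ((Matrix.of fun i j => pderiv (c i) (q j)).map
    (Ideal.Quotient.mk I)) (b.map (Ideal.Quotient.mk I)).transpose).trans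
      (Matrix.rank_le_width _)
  rw [hr, Fintype.card_fin] at this
  exact this

theorem conv_det_notMem {I : Ideal (O σ)} [I.IsPrime] {r : ℕ} {h q : Fin r → O σ}
    (hh : IsParam I h) (hq : ∀ j, q j ∈ I) {s : O σ} (hs : s ∉ I)
    {b : Matrix (Fin r) (Fin r) (O σ)} (hb : ∀ j, s * h j = ∑ k, b j k * q k) : b.det ∉ I := by
  obtain ⟨c, hc⟩ := hh.2.2
  have e := conv_jac hh.1 hq hb c
  have hs' : Ideal.Quotient.mk I s ≠ 0 := fun h => hs (Ideal.Quotient.eq_zero_iff_mem.mp h)
  have hc' : ((Matrix.of fun i j => pderiv (c i) (h j)).map (Ideal.Quotient.mk I)).det ≠ 0 := by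
    intro h0
    apply hc
    rw [← Ideal.Quotient.eq_zero_iff_mem, RingHom.map_det]
    exact h0
  have hd : ((Ideal.Quotient.mk I s) • ((Matrix.of fun i j => pderiv (c i) (h j)).map
      (Ideal.Quotient.mk I))).det ≠ 0 := by
    rw [Matrix.det_smul]
    exact mul_ne_zero (pow_ne_zero _ hs') hc'
  rw [e, Matrix.det_mul, Matrix.det_transpose] at hd
  intro hm
  apply right_ne_zero_of_mul hd
  have : Ideal.Quotient.mk I b.det = 0 := Ideal.Quotient.eq_zero_iff_mem.mpr hm
  rw [RingHom.map_det] at this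
  exact this

theorem conv [Fintype σ] {I : Ideal (O σ)} [I.IsPrime] {r r' : ℕ} {h : Fin r → O σ}
    {q : Fin r' → O σ} (hh : IsParam I h) (hq : IsParam I q) :
    ∃ E : K σ, (∃ s, s ∉ I ∧ ∃ g, ι s * E = ι g * (ι (∏ j, h j))⁻¹) ∧
      (∀ a, a ∉ I → ι a * E ∉ locN I h) ∧
      ∀ (θ : σ → O σ) (c : Matrix (Fin r') (Fin r') (O σ)),
        (∀ j, ∑ i, θ i * pderiv i (q j) = ∑ k, c j k * q k) →
        (∑ i, ι (θ i) * pd i E) + ι c.trace * E ∈ locN I h := by
  obtain rfl : r = r' := le_antisymm (conv_le hh hq) (conv_le hq hh)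
  obtain ⟨s, hs, b, hb⟩ := conv_clear hh.1 hq
  have hdet := conv_det_notMem hh hq.1 hs hb
  have hs0 : s ≠ 0 := fun h => hs (h ▸ I.zero_mem)
  have hιs : (ι s : K σ) ≠ 0 := ι_ne_zero hs0
  have hd0 : b.det ≠ 0 := fun h => hdet (h ▸ I.zero_mem)
  set B : Matrix (Fin r) (Fin r) (K σ) := (ι s : K σ)⁻¹ • b.map ι with hBdef
  have hBR : ∀ i j, B i j ∈ convR I := by
    intro i j
    exact (convR I).mul_mem (inv_mem_locRing hs) (ι_mem_locRing _)
  have hBdet : B.det = ((ι s : K σ)⁻¹) ^ r * ι b.det := by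
    rw [hBdef, Matrix.det_smul, Fintype.card_fin, RingHom.map_det]
    rfl
  have hBd0 : B.det ≠ 0 := by
    rw [hBdet]
    exact mul_ne_zero (pow_ne_zero _ (inv_ne_zero hιs)) (ι_ne_zero hd0)
  have hBinv : B.det⁻¹ ∈ convR I := by
    rw [hBdet, mul_inv, inv_pow, inv_inv, ← map_pow]
    exact (convR I).mul_mem (ι_mem_locRing _) (inv_mem_locRing hdet)
  have hBdR : B.det ∈ convR I := conv_det_mem _ _ hBR
  set e : K σ := (ι (∏ j, h j))⁻¹ with he
  refine ⟨B.det * e, ?_, ?_, ?_⟩
  · refine ⟨s ^ r, fun hm => hs (Ideal.IsPrime.mem_of_pow_mem ‹_› _ hm), b.det, ?_⟩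
    rw [hBdet, map_pow, ← mul_assoc, ← mul_assoc, ← mul_pow, mul_inv_cancel₀ hιs, one_pow, one_mul]
  · intro a ha hm
    have h1 := locN_mul (c := B.det⁻¹) hBinv hm
    apply gen_notMem hh ha
    rw [← he]
    convert h1 using 1
    field_simp
  · intro θ c hc
    set D : K σ → K σ := fun f => ∑ i, ι (θ i) * pd i f with hD
    have hDadd : ∀ f g, D (f + g) = D f + D g := by
      intro f g
      simp only [hD, pd_add, mul_add, Finset.sum_add_distrib]
    have hDmul : ∀ f g, D (f * g) = f * D g + g * D f := by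
      intro f g
      simp only [hD, pd_mul, Finset.mul_sum, ← Finset.sum_add_distrib]
      exact Finset.sum_congr rfl fun i _ => by ring
    have hD0 : D 0 = 0 := by simp [hD]
    have hD1 : D 1 = 0 := by simp [hD]
    have hDι : ∀ p : O σ, D (ι p) = ι (∑ i, θ i * pderiv i p) := by
      intro p
      simp only [hD, pd_ι, map_sum, map_mul]
    have hDR : ∀ f ∈ convR I, D f ∈ convR I := by
      intro f hf
      exact (convR I).sum_mem fun i _ => (convR I).mul_mem (ι_mem_locRing _) (pd_mem_locRing i hf)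
    have hDsum : ∀ (f : Fin r → K σ), D (∑ k, f k) = ∑ k, D (f k) := by
      intro f
      simp only [hD, pd_sum, Finset.mul_sum]
      exact Finset.sum_comm
    -- `h = B q`
    have hBq : ∀ j, (ι (h j) : K σ) = ∑ k, B j k * ι (q k) := by
      intro j
      have := congrArg (ι : O σ →+* K σ) (hb j)
      rw [map_mul, map_sum] at this
      simp only [hBdef, Matrix.smul_apply, Matrix.map_apply, smul_eq_mul, mul_assoc]
      rw [← Finset.mul_sum]
      simp only [map_mul] at this
      rw [← this]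
      field_simp
    have hBmul : (fun j => (ι (h j) : K σ)) = B.mulVec (fun k => ι (q k)) := by
      ext j
      exact hBq j
    -- `q = B⁻¹ h`
    have hqB : (fun k => (ι (q k) : K σ)) = B⁻¹.mulVec (fun j => ι (h j)) := by
      rw [hBmul, Matrix.mulVec_mulVec, Matrix.nonsing_inv_mul _ (isUnit_iff_ne_zero.mpr hBd0),
        Matrix.one_mulVec]
    set c' : Matrix (Fin r) (Fin r) (K σ) := c.map ι with hc'
    set C' : Matrix (Fin r) (Fin r) (K σ) := (B.map D + B * c') * B⁻¹ with hC'
    have hDh : ∀ j, D (ι (h j)) = ∑ k, C' j k * ι (h k) := by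
      have e1 : (fun j => D (ι (h j))) = (B.map D + B * c').mulVec (fun k => ι (q k)) := by
        ext j
        rw [hBq j, hDsum]
        simp only [hDmul, Finset.sum_add_distrib, Matrix.add_mulVec, Pi.add_apply,
          ← Matrix.mulVec_mulVec]
        rw [add_comm]
        congr 1
        · simp only [Matrix.mulVec, dotProduct, Matrix.map_apply]
          exact Finset.sum_congr rfl fun k _ => mul_comm _ _
        · simp only [Matrix.mulVec, dotProduct, hc', Matrix.map_apply]
          refine Finset.sum_congr rfl fun k _ => ?_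
          rw [hDι, hc k, map_sum]
          simp only [map_mul]
      intro j
      have := congrFun e1 j
      rw [hqB, Matrix.mulVec_mulVec] at this
      exact this
    have hCR : ∀ i j, C' i j ∈ convR I := by
      intro i j
      rw [hC', Matrix.mul_apply]
      refine (convR I).sum_mem fun k _ => (convR I).mul_mem ?_ (conv_inv_mem _ _ hBR hBinv k j)
      rw [Matrix.add_apply, Matrix.mul_apply]
      refine (convR I).add_mem (hDR _ (hBR i k)) ((convR I).sum_mem fun l _ =>
        (convR I).mul_mem (hBR i l) (ι_mem_locRing _))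
    have htr : C'.trace = (B⁻¹ * B.map D).trace + ι c.trace := by
      rw [hC', add_mul, Matrix.trace_add, Matrix.trace_mul_comm (B.map D), mul_assoc,
        Matrix.trace_mul_comm B, mul_assoc, Matrix.nonsing_inv_mul _ (isUnit_iff_ne_zero.mpr hBd0),
        mul_one]
      congr 1
      rw [Matrix.trace, Matrix.trace, map_sum]
      rfl
    have hne : ∀ j, h j ≠ 0 := fun j => hh.ne_zero j
    have hιne : ∀ j, (ι (h j) : K σ) ≠ 0 := fun j => ι_ne_zero (hne j)
    have hPne : (ι (∏ j, h j) : K σ) ≠ 0 := ι_ne_zero (Finset.prod_ne_zero_iff.mpr fun j _ => hne j)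
    have hDe : D e = -(∑ j, ∑ k, C' j k * (ι (h k) / ι (h j))) * e := by
      have h1 : D (ι (∏ j, h j)) = ι (∏ j, h j) * ∑ j, D (ι (h j)) / ι (h j) := by
        rw [map_prod]
        exact conv_prod D hD1 hDmul Finset.univ _ fun j _ => hιne j
      have h2 := hDmul (ι (∏ j, h j)) e
      rw [he, mul_inv_cancel₀ hPne, hD1, h1, ← he] at h2
      have h3 : ∑ j, D (ι (h j)) / ι (h j) = ∑ j, ∑ k, C' j k * (ι (h k) / ι (h j)) := by
        refine Finset.sum_congr rfl fun j _ => ?_
        rw [hDh j, Finset.sum_div]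
        exact Finset.sum_congr rfl fun k _ => by rw [mul_div_assoc]
      rw [h3] at h2
      have h4 : (ι (∏ j, h j) : K σ) * (D e + (∑ j, ∑ k, C' j k * (ι (h k) / ι (h j))) * e) = 0 := by
        linear_combination -h2
      have h5 := (mul_eq_zero.mp h4).resolve_left hPne
      linear_combination h5
    have key : D e + C'.trace * e ∈ locN I h := by
      have : D e + C'.trace * e = ∑ j, ∑ k ∈ Finset.univ.erase j,
          (-C' j k) * (ι (h k) / ι (h j) * e) := by
        rw [hDe, Matrix.trace, neg_mul, Finset.sum_mul, Finset.sum_mul, ← Finset.sum_neg_distrib,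
          ← Finset.sum_add_distrib]
        refine Finset.sum_congr rfl fun j _ => ?_
        rw [← Finset.add_sum_erase _ _ (Finset.mem_univ j), Matrix.diag_apply, div_self (hιne j),
          add_mul, Finset.sum_mul, neg_add]
        have : ∀ k, -C' j k * (ι (h k) / ι (h j) * e) = -(C' j k * (ι (h k) / ι (h j)) * e) := by
          intro k
          ring
        simp only [this, Finset.sum_neg_distrib]
        ring
      rw [this]
      refine Submodule.sum_mem _ fun j _ => Submodule.sum_mem _ fun k hk => ?_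
      exact locN_mul ((convR I).neg_mem (hCR j k)) (conv_offdiag hne (Finset.ne_of_mem_erase hk))
    have fin : (∑ i, ι (θ i) * pd i (B.det * e)) + ι c.trace * (B.det * e)
        = B.det * (D e + C'.trace * e) := by
      have h1 : (∑ i, ι (θ i) * pd i (B.det * e)) = D (B.det * e) := rfl
      rw [h1, hDmul, conv_det_der D hDadd hDmul B hBd0, htr]
      ring
    rw [fin]
    exact locN_mul hBdR key

end Main

end

end Adams
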