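import Mathlib

/-!
# ABV-packets for `GL_n` on type-`A` Vogan varieties, through `D`-modules

Everything below is the ordinary algebraic description of the objects of the problem.  Under the
Riemann-Hilbert correspondence the simple perverse sheaf `P(π)` with support the closure of
`C_π` and constant local system corresponds to the simple `D`-module `L(Z)`, `Z` the closure of
`C_π`, whose characteristic variety is the micro-support of `P(π)` (Kashiwara-Schapira); and
`Evs_C P(π) ≠ 0` if and only if `T*_C V` is contained in the micro-support.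

* `K σ = ℂ(x_i : i ∈ σ)` is the function field of the affine space `ℂ^σ`, with the partial
  derivatives `pd i`; the Weyl algebra of `ℂ^σ` acts on it.
* For an irreducible closed `Z ⊆ ℂ^σ` with prime ideal `I`, a *parameter system*
  (`IsParam I h`) is a tuple `h = (h_1, …, h_r)` of polynomials which is a regular system of
  parameters of the local ring `O_I`.  Then `locT I h / locN I h` is the local cohomology
  `H^r_I(O_I)` (Čech complex of `h`), and `IsBK I h M` says that `M / locN I h` is its smallest
  non-zero `D`-submodule, i.e. the Brylinski-Kashiwara module `L(Z)` (the intersection cohomology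
  `D`-module of `Z`).
* `CharVar N M` is the characteristic variety of the simple `D`-module `M/N`: the common zeros of
  the principal symbols of the operators killing a non-zero element.
-/

open MvPolynomial

namespace Adams

noncomputable section

/-! ## Rational functions and differential operators on `ℂ^σ` -/

section Dmod

/-- the ring of polynomial functions on `ℂ^σ` -/
abbrev O (σ : Type) : Type := MvPolynomial σ ℂ

/-- the field of rational functions on `ℂ^σ` -/
abbrev K (σ : Type) : Type := FractionRing (MvPolynomial σ ℂ)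

variable {σ : Type}

/-- the inclusion of the polynomials in the rational functions -/
abbrev ι : O σ →+* K σ := algebraMap (O σ) (K σ)

/-- the partial derivative `∂/∂x_i` of a rational function, by the quotient rule -/
def pd (i : σ) (f : K σ) : K σ :=
  let a : O σ := (IsLocalization.sec (nonZeroDivisors (O σ)) f).1
  let b : O σ := (IsLocalization.sec (nonZeroDivisors (O σ)) f).2
  (ι (pderiv i a) * ι b - ι a * ι (pderiv i b)) / ι b ^ 2

/-- A differential operator with polynomial coefficients on `ℂ^σ`: a finite sum of terms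
`p_w ∂_{w_1} ∂_{w_2} ⋯ ∂_{w_m}`, indexed by words `w` in `σ`. -/
abbrev Op (σ : Type) : Type := List σ →₀ O σ

/-- `∂_{w_1} ∂_{w_2} ⋯ ∂_{w_m} f` -/
def pdWord (w : List σ) (f : K σ) : K σ := w.foldr (fun i g => pd i g) f

/-- the action of a differential operator on a rational function -/
def Op.act (P : Op σ) (f : K σ) : K σ := P.sum fun w p => ι p * pdWord w f

/-- `P` has order at most `k` -/
def Op.OrderLE (P : Op σ) (k : ℕ) : Prop := ∀ w ∈ P.support, w.length ≤ k

/-- the value at `(x, ξ)` of the principal symbol `σ_k(P)` of an operator of order at most `k` -/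
def Op.symbol (P : Op σ) (k : ℕ) (x ξ : σ → ℂ) : ℂ :=
  P.sum fun w p => if w.length = k then eval x p * (w.map ξ).prod else 0

/-- An `O`-submodule of `K σ` which is stable under all `∂_i`, i.e. a submodule over the Weyl
algebra. -/
def DStable (M : Submodule (O σ) (K σ)) : Prop := ∀ i, ∀ f ∈ M, pd i f ∈ M

/-- `h_1, …, h_r` is a regular system of parameters of the local ring of `ℂ^σ` at the prime
ideal `I`: the `h_j` lie in `I`, they generate `I` locally at the generic point of the zero set
of `I`, and their Jacobian matrix has rank `r` there. -/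
def IsParam (I : Ideal (O σ)) {r : ℕ} (h : Fin r → O σ) : Prop :=
  (∀ j, h j ∈ I) ∧
  (∀ f ∈ I, ∃ s, s ∉ I ∧ s * f ∈ Ideal.span (Set.range h)) ∧
  ∃ c : Fin r → σ, (Matrix.of fun i j => pderiv (c i) (h j)).det ∉ I

/-- `O_I[1 / (h_1 ⋯ h_r)] ⊆ K σ` -/
def locT (I : Ideal (O σ)) {r : ℕ} (h : Fin r → O σ) : Submodule (O σ) (K σ) :=
  Submodule.span (O σ)
    {f | ∃ s, s ∉ I ∧ ∃ n : ℕ, ∃ g : O σ, ι (s * (∏ j, h j) ^ n) * f = ι g}

/-- `∑_i O_I[1 / ∏_{j ≠ i} h_j] ⊆ K σ` -/
def locN (I : Ideal (O σ)) {r : ℕ} (h : Fin r → O σ) : Submodule (O σ) (K σ) :=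
  Submodule.span (O σ)
    {f | ∃ i, ∃ s, s ∉ I ∧ ∃ n : ℕ, ∃ g : O σ,
      ι (s * (∏ j ∈ Finset.univ.erase i, h j) ^ n) * f = ι g}

/-- `M / locN I h` is the smallest non-zero `D`-submodule of the local cohomology module
`locT I h / locN I h`, i.e. the Brylinski-Kashiwara module of the zero set of `I`. -/
def IsBK (I : Ideal (O σ)) {r : ℕ} (h : Fin r → O σ) (M : Submodule (O σ) (K σ)) : Prop :=
  locN I h < M ∧ M ≤ locT I h ∧ DStable M ∧
    ∀ M' : Submodule (O σ) (K σ), locN I h < M' → M' ≤ M → DStable M' → M' = M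

/-- the characteristic variety of the simple `D`-module `M / N` -/
def CharVar (N M : Submodule (O σ) (K σ)) : Set ((σ → ℂ) × (σ → ℂ)) :=
  {z | ∀ f ∈ M, f ∉ N → ∀ (P : Op σ) (k : ℕ), P.OrderLE k → P.act f ∈ N →
    P.symbol k z.1 z.2 = 0}

/-- `Λ` is contained in the characteristic variety of the intersection cohomology `D`-module of
the closure of `Z ⊆ ℂ^σ`. -/
def InChar (Z : Set (σ → ℂ)) (Λ : Set ((σ → ℂ) × (σ → ℂ))) : Prop :=
  ∃ (r : ℕ) (h : Fin r → O σ) (M : Submodule (O σ) (K σ)),
    IsParam (vanishingIdeal ℂ Z) h ∧ IsBK (vanishingIdeal ℂ Z) h M ∧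
    Λ ⊆ CharVar (locN (vanishingIdeal ℂ Z) h) M

end Dmod

/-! ## Langlands parameters, Vogan varieties, packets -/

section Packets

/-- A Langlands parameter `⊕_j |·|^{s_j} ⊗ S_{k_j + 1}` with `s_j ∈ ½ℤ`, given by the list of
the pairs `(2 s_j - k_j, k_j)`.  Its restriction to the Weil group under
`w ↦ (w, diag(|w|^{1/2}, |w|^{-1/2}))` is the sum of the characters `|·|^{b/2}` with
`b = e, e + 2, …, e + 2k` for `(e, k)` in the list. -/
abbrev Param : Type := List (ℤ × ℕ)

/-- the dual parameter -/
def Param.dual (φ : Param) : Param := φ.map fun a => (-a.1 - 2 * a.2, a.2)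

/-- `φ_α = φ^∨ ⊕ ⊕_{i < α} |·|^{(α - 1)/2 - i} ⊗ S_1` -/
def Param.lift (φ : Param) (α : ℕ) : Param :=
  φ.dual ++ (List.range α).map fun i : ℕ => ((α : ℤ) - 1 - 2 * (i : ℤ), 0)

/-- the index set of the standard basis of the space of `φ` -/
abbrev Idx (φ : Param) : Type := Σ j : Fin φ.length, Fin ((φ.get j).2 + 1)

/-- the exponent (in half-units) of a basis vector -/
def deg {φ : Param} (a : Idx φ) : ℤ := (φ.get a.1).1 + 2 * (a.2 : ℕ)

/-- the nilpotent endomorphism of the space of `φ` (the image of `E ∈ sl_2`) -/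
def Nil (φ : Param) : Matrix (Idx φ) (Idx φ) ℂ :=
  Matrix.of fun a b => if a.1 = b.1 ∧ (a.2 : ℕ) = b.2 + 1 then 1 else 0

/-- The coordinates of the Vogan variety `V_λ` of the infinitesimal parameter `λ` of `φ`: the
matrix entries of degree one. -/
abbrev Coord (φ : Param) : Type := {p : Idx φ × Idx φ // deg p.1 = deg p.2 + 2}

/-- the endomorphism attached to a point of the Vogan variety -/
def toMat {φ : Param} (x : Coord φ → ℂ) : Matrix (Idx φ) (Idx φ) ℂ :=
  Matrix.of fun a b => if h : deg a = deg b + 2 then x ⟨(a, b), h⟩ else 0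

/-- the orbit `C_π` of the parameter `π` in the Vogan variety of the infinitesimal parameter of
`φ` (empty if `π` has another infinitesimal parameter): the `x` which are conjugate to `Nil π` by
an isomorphism `B` from the space of `π` to the space of `φ` which respects the exponents -/
def Orbit (φ π : Param) : Set (Coord φ → ℂ) :=
  {x | ∃ (B : Matrix (Idx φ) (Idx π) ℂ) (B' : Matrix (Idx π) (Idx φ) ℂ),
    (∀ a b, deg a ≠ deg b → B a b = 0) ∧ B * B' = 1 ∧ B' * B = 1 ∧
      toMat x * B = B * Nil π}

/-- the conormal variety `T*_{C_φ} V_λ`: pairs `(x, ξ)` with `x ∈ C_φ` and `ξ` orthogonal to the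
tangent vectors `a x - x a`, `a ∈ Lie H_λ`, of the orbit at `x` -/
def Conormal (φ : Param) : Set ((Coord φ → ℂ) × (Coord φ → ℂ)) :=
  {z | z.1 ∈ Orbit φ φ ∧
    ∀ a : Matrix (Idx φ) (Idx φ) ℂ, (∀ i j, deg i ≠ deg j → a i j = 0) →
      ∑ p : Coord φ, z.2 p * (a * toMat z.1 - toMat z.1 * a) p.1.1 p.1.2 = 0}

/-- `π ∈ Π^{ABV}_φ`, where `π` is given by its parameter: the conormal variety of `C_φ` lies in
the characteristic variety of the `D`-module of the simple perverse sheaf `P(π) = IC(C_π)`. -/
def InABV (φ π : Param) : Prop := InChar (Orbit φ π) (Conormal φ)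

end Packets

end

end Adams
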