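import Pool.Agent.MP_fe6ac3_nt.Base

/-!
# [ADAMS-DET] Determinants of partial derivatives

`D = (detOp x).act = ∑_p sign(p) ∂_{x 0 (p 0)} ∂_{x 1 (p 1)} ⋯`; all `∂` commute
(`pd_comm`), so `K σ` is a module over the commutative ring `DS` generated by the `∂`.
* `detOp_col` : Cramer (`adjugate`) over `DS`.
* `detOp_nil` : `T = {w | ∃ m, D^m w ∈ N}` is stable under addition and under multiplication by
  the variables, since `[D, x_i]` lies in `DS`.
-/

open MvPolynomial

namespace Adams

noncomputable section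

variable {σ : Type} {n : ℕ}

/-- the operator `det (∂/∂x_{i,j})` -/
def detOp (x : Fin n → Fin n → σ) : Op σ :=
  ∑ p : Equiv.Perm (Fin n),
    Finsupp.single (List.ofFn fun i => x i (p i)) (C (((Equiv.Perm.sign p : ℤˣ) : ℤ) : ℂ))

/-- the partial derivative as an endomorphism -/
def pdE (i : σ) : Module.End ℂ (K σ) := (pdD i : K σ →ₗ[ℂ] K σ)

theorem pdE_apply (i : σ) (f : K σ) : pdE i f = pd i f := rfl

theorem pdE_comm (i j : σ) : pdE i * pdE j = pdE j * pdE i :=
  LinearMap.ext fun f => pd_comm i j f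

/-- the algebra generated by the partial derivatives -/
abbrev DS (σ : Type) : Subalgebra ℂ (Module.End ℂ (K σ)) :=
  Algebra.adjoin ℂ (Set.range (pdE : σ → Module.End ℂ (K σ)))

instance instCommRingDS : CommRing (DS σ) :=
  { (DS σ).toRing with
    mul_comm := by
      have h := Algebra.isMulCommutative_adjoin ℂ
        (s := Set.range (pdE : σ → Module.End ℂ (K σ))) (by
          rintro _ ⟨i, rfl⟩ _ ⟨j, rfl⟩
          exact pdE_comm i j)
      intro a b
      exact h.is_comm.comm a b }

/-- the matrix of partial derivatives -/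
def pdMat (x : Fin n → Fin n → σ) : Matrix (Fin n) (Fin n) (DS σ) :=
  Matrix.of fun i j => ⟨pdE (x i j), Algebra.subset_adjoin ⟨_, rfl⟩⟩

theorem pdWord_eq (w : List σ) (f : K σ) : ((w.map pdE).prod : Module.End ℂ (K σ)) f = pdWord w f := by
  induction w with
  | nil => rfl
  | cons i w ih =>
    rw [List.map_cons, List.prod_cons, Module.End.mul_apply, ih]
    rfl

theorem detOp_act_eq (x : Fin n → Fin n → σ) (f : K σ) :
    (detOp x).act f = ∑ p : Equiv.Perm (Fin n),
      (((Equiv.Perm.sign p : ℤˣ) : ℤ) : ℂ) • pdWord (List.ofFn fun i => x i (p i)) f := by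
  unfold detOp Op.act
  rw [← Finsupp.sum_finsetSum_index]
  · refine Finset.sum_congr rfl fun p _ => ?_
    rw [Finsupp.sum_single_index (by simp)]
    rw [Algebra.smul_def, IsScalarTower.algebraMap_apply ℂ (O σ) (K σ)]
    rfl
  · intro w; simp
  · intro w p q; rw [map_add, add_mul]

theorem detOp_act (x : Fin n → Fin n → σ) (f : K σ) :
    (detOp x).act f = ((pdMat x).det : Module.End ℂ (K σ)) f := by
  rw [detOp_act_eq, ← Matrix.det_transpose, Matrix.det_apply']
  have h1 : ∀ a : DS σ, (a : Module.End ℂ (K σ)) = (DS σ).val a := fun a => rfl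
  rw [h1, map_sum, LinearMap.sum_apply]
  refine Finset.sum_congr rfl fun p _ => ?_
  rw [map_mul, map_intCast, ← List.prod_ofFn, map_list_prod, List.map_ofFn]
  have h2 : (List.ofFn ((DS σ).val ∘ fun i => (pdMat x).transpose (p i) i))
      = (List.ofFn fun i => x i (p i)).map pdE := by
    rw [List.map_ofFn]
    rfl
  rw [h2, Module.End.mul_apply, pdWord_eq, Module.End.intCast_apply]
  exact (Int.cast_smul_eq_zsmul ℂ _ _)

theorem detOp_order (x : Fin n → Fin n → σ) : (detOp x).OrderLE n := by
  classical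
  intro w hw
  have := Finsupp.support_finsetSum hw
  rw [Finset.mem_biUnion] at this
  obtain ⟨p, -, hp⟩ := this
  have := Finsupp.support_single_subset hp
  rw [Finset.mem_singleton] at this
  rw [this, List.length_ofFn]

theorem detOp_symbol (x : Fin n → Fin n → σ) (a ξ : σ → ℂ) :
    (detOp x).symbol n a ξ = (Matrix.of fun i j => ξ (x i j)).det := by
  unfold detOp Op.symbol
  rw [← Finsupp.sum_finsetSum_index, ← Matrix.det_transpose, Matrix.det_apply']
  · refine Finset.sum_congr rfl fun p _ => ?_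
    rw [Finsupp.sum_single_index (by simp), if_pos (by rw [List.length_ofFn]), eval_C,
      List.map_ofFn, List.prod_ofFn]
    rfl
  · intro w; simp
  · intro w p q; split_ifs
    · rw [map_add, add_mul]
    · rw [add_zero]

theorem DS_stable (N : Submodule (O σ) (K σ)) (hN : DStable N) (P : DS σ) (f : K σ) (hf : f ∈ N) :
    (P : Module.End ℂ (K σ)) f ∈ N := by
  obtain ⟨P, hP⟩ := P
  show P f ∈ N
  induction hP using Algebra.adjoin_induction generalizing f with
  | mem a ha =>
    obtain ⟨i, rfl⟩ := ha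
    exact hN i f hf
  | algebraMap r =>
    rw [Module.algebraMap_end_apply]
    have : r • f = (C r : O σ) • f := by
      rw [Algebra.smul_def, IsScalarTower.algebraMap_apply ℂ (O σ) (K σ), Algebra.smul_def]
      rfl
    rw [this]
    exact N.smul_mem _ hf
  | add a b _ _ ha hb => exact N.add_mem (ha f hf) (hb f hf)
  | mul a b _ _ ha hb => exact ha _ (hb f hf)

theorem detOp_col (N : Submodule (O σ) (K σ)) (hN : DStable N) (x : Fin (n + 1) → Fin (n + 1) → σ)
    (P : Fin (n + 1) → O σ) (u : K σ)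
    (h : ∀ j, ∑ i, pd (x i j) (ι (P i) * u) ∈ N) : (detOp x).act (ι (P 0) * u) ∈ N := by
  rw [detOp_act]
  have key : (((pdMat x).det : DS σ) : Module.End ℂ (K σ)) (ι (P 0) * u)
      = ∑ j, (((pdMat x).adjugate j 0 : DS σ) : Module.End ℂ (K σ))
          (∑ i, pd (x i j) (ι (P i) * u)) := by
    have h3 : ∀ i, (((∑ j, (pdMat x) i j * (pdMat x).adjugate j 0 : DS σ)) : Module.End ℂ (K σ))
        = if i = 0 then (((pdMat x).det : DS σ) : Module.End ℂ (K σ)) else 0 := by
      intro i
      have := congrFun (congrFun (Matrix.mul_adjugate (pdMat x)) i) 0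
      rw [Matrix.mul_apply] at this
      rw [this, Matrix.smul_apply, Matrix.one_apply, smul_eq_mul]
      split_ifs
      · rw [mul_one]
      · rw [mul_zero]; rfl
    have h4 : (((pdMat x).det : DS σ) : Module.End ℂ (K σ)) (ι (P 0) * u)
        = ∑ i, (((∑ j, (pdMat x) i j * (pdMat x).adjugate j 0 : DS σ)) : Module.End ℂ (K σ))
            (ι (P i) * u) := by
      rw [Finset.sum_eq_single (0 : Fin (n + 1))]
      · rw [h3, if_pos rfl]
      · intro i _ hi
        rw [h3, if_neg hi]
        rfl
      · intro h; exact absurd (Finset.mem_univ _) h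
    rw [h4]
    have h5 : ∀ i, (((∑ j, (pdMat x) i j * (pdMat x).adjugate j 0 : DS σ)) : Module.End ℂ (K σ))
            (ι (P i) * u) = ∑ j, (((pdMat x).adjugate j 0 : DS σ) : Module.End ℂ (K σ))
              (pd (x i j) (ι (P i) * u)) := by
      intro i
      have h1 : ∀ a : DS σ, (a : Module.End ℂ (K σ)) = (DS σ).val a := fun a => rfl
      rw [h1, map_sum, LinearMap.sum_apply]
      refine Finset.sum_congr rfl fun j _ => ?_
      rw [mul_comm (pdMat x i j)]
      rfl
    rw [Finset.sum_congr rfl fun i _ => h5 i, Finset.sum_comm]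
    refine Finset.sum_congr rfl fun j _ => ?_
    rw [map_sum]
  rw [key]
  exact N.sum_mem fun j _ => DS_stable N hN _ _ (h j)

/-- the commutator of an operator with constant coefficients and a variable -/
theorem DS_comm_X (i : σ) (P : DS σ) : ∃ P' : DS σ, ∀ f : K σ,
    (P : Module.End ℂ (K σ)) (ι (X i) * f)
      = ι (X i) * (P : Module.End ℂ (K σ)) f + (P' : Module.End ℂ (K σ)) f := by
  classical
  obtain ⟨P, hP⟩ := P
  show ∃ P' : DS σ, ∀ f : K σ, P (ι (X i) * f) = ι (X i) * P f + (P' : Module.End ℂ (K σ)) f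
  induction hP using Algebra.adjoin_induction with
  | mem a ha =>
    obtain ⟨j, rfl⟩ := ha
    refine ⟨if j = i then 1 else 0, fun f => ?_⟩
    rw [pdE_apply, pdE_apply, pd_mul, pd_X]
    by_cases h : j = i
    · rw [if_pos h, if_pos h, mul_one]; rfl
    · rw [if_neg h, if_neg h, mul_zero]; rfl
  | algebraMap r =>
    refine ⟨0, fun f => ?_⟩
    rw [Module.algebraMap_end_apply, Module.algebraMap_end_apply, mul_smul_comm]
    exact (add_zero _).symm
  | add a b _ _ ha hb =>
    obtain ⟨a', ha'⟩ := ha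
    obtain ⟨b', hb'⟩ := hb
    refine ⟨a' + b', fun f => ?_⟩
    rw [LinearMap.add_apply, ha', hb', LinearMap.add_apply]
    show _ = _ + ((a' : Module.End ℂ (K σ)) f + (b' : Module.End ℂ (K σ)) f)
    ring
  | mul a b ha0 hb0 ha hb =>
    obtain ⟨a', ha'⟩ := ha
    obtain ⟨b', hb'⟩ := hb
    refine ⟨a' * ⟨b, hb0⟩ + ⟨a, ha0⟩ * b', fun f => ?_⟩
    rw [Module.End.mul_apply, hb', map_add, ha', Module.End.mul_apply]
    show _ = _ + ((a' : Module.End ℂ (K σ)) (b f) + a ((b' : Module.End ℂ (K σ)) f))
    ring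

theorem nil_X (N : Submodule (O σ) (K σ)) (hN : DStable N) (D : DS σ) (i : σ) (m : ℕ) :
    ∀ w : K σ, (((D : Module.End ℂ (K σ)) : K σ → K σ)^[m] w) ∈ N →
      (((D : Module.End ℂ (K σ)) : K σ → K σ)^[m + 1] (ι (X i) * w)) ∈ N := by
  obtain ⟨D', hD'⟩ := DS_comm_X i D
  have hcomm : ∀ f : K σ, (D : Module.End ℂ (K σ)) ((D' : Module.End ℂ (K σ)) f)
      = (D' : Module.End ℂ (K σ)) ((D : Module.End ℂ (K σ)) f) := by
    intro f
    have : D * D' = D' * D := mul_comm _ _
    exact congrArg (fun P : DS σ => (P : Module.End ℂ (K σ)) f) this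
  have hcomm' : ∀ (m : ℕ) (f : K σ),
      ((D : Module.End ℂ (K σ)) : K σ → K σ)^[m] ((D' : Module.End ℂ (K σ)) f)
      = (D' : Module.End ℂ (K σ)) (((D : Module.End ℂ (K σ)) : K σ → K σ)^[m] f) := by
    intro m
    induction m with
    | zero => intro f; rfl
    | succ m ih => intro f; rw [Function.iterate_succ_apply, hcomm, ih, Function.iterate_succ_apply]
  have hadd : ∀ (m : ℕ) (f g : K σ),
      ((D : Module.End ℂ (K σ)) : K σ → K σ)^[m] (f + g)
      = ((D : Module.End ℂ (K σ)) : K σ → K σ)^[m] f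
        + ((D : Module.End ℂ (K σ)) : K σ → K σ)^[m] g := by
    intro m
    induction m with
    | zero => intro f g; rfl
    | succ m ih =>
      intro f g
      rw [Function.iterate_succ_apply, map_add, ih, Function.iterate_succ_apply,
        Function.iterate_succ_apply]
  induction m with
  | zero =>
    intro w hw
    exact DS_stable N hN D _ (by
      have := N.smul_mem (X i) hw
      rwa [Algebra.smul_def] at this)
  | succ m ih =>
    intro w hw
    rw [Function.iterate_succ_apply, hD', hadd, hcomm']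
    refine N.add_mem (ih _ ?_) (DS_stable N hN D' _ hw)
    rwa [Function.iterate_succ_apply] at hw

theorem nil_mul (N : Submodule (O σ) (K σ)) (hN : DStable N) (D : DS σ) (b : O σ) :
    ∀ w : K σ, (∃ m, ((D : Module.End ℂ (K σ)) : K σ → K σ)^[m] w ∈ N) →
      ∃ m, ((D : Module.End ℂ (K σ)) : K σ → K σ)^[m] (ι b * w) ∈ N := by
  have hadd : ∀ (m : ℕ) (f g : K σ),
      ((D : Module.End ℂ (K σ)) : K σ → K σ)^[m] (f + g)
      = ((D : Module.End ℂ (K σ)) : K σ → K σ)^[m] f
        + ((D : Module.End ℂ (K σ)) : K σ → K σ)^[m] g := by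
    intro m
    induction m with
    | zero => intro f g; rfl
    | succ m ih =>
      intro f g
      rw [Function.iterate_succ_apply, map_add, ih, Function.iterate_succ_apply,
        Function.iterate_succ_apply]
  have hsm : ∀ (c : ℂ) (f : K σ), ι (C c) * f = c • f := by
    intro c f
    rw [Algebra.smul_def, IsScalarTower.algebraMap_apply ℂ (O σ) (K σ)]
    rfl
  have hC : ∀ (m : ℕ) (c : ℂ) (f : K σ),
      ((D : Module.End ℂ (K σ)) : K σ → K σ)^[m] (ι (C c) * f)
      = ι (C c) * ((D : Module.End ℂ (K σ)) : K σ → K σ)^[m] f := by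
    intro m
    induction m with
    | zero => intro c f; rfl
    | succ m ih =>
      intro c f
      rw [Function.iterate_succ_apply, hsm, map_smul, ← hsm, ih, Function.iterate_succ_apply]
  have hmono : ∀ (m k : ℕ) (f : K σ), ((D : Module.End ℂ (K σ)) : K σ → K σ)^[m] f ∈ N →
      ((D : Module.End ℂ (K σ)) : K σ → K σ)^[k + m] f ∈ N := by
    intro m k
    induction k with
    | zero => intro f hf; rwa [zero_add]
    | succ k ih =>
      intro f hf
      rw [show k + 1 + m = (k + m) + 1 by ring, Function.iterate_succ_apply']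
      exact DS_stable N hN D _ (ih f hf)
  induction b using MvPolynomial.induction_on with
  | C c =>
    rintro w ⟨m, hm⟩
    refine ⟨m, ?_⟩
    rw [hC]
    have := N.smul_mem (C c) hm
    rwa [Algebra.smul_def] at this
  | add p q hp hq =>
    intro w hw
    obtain ⟨m1, h1⟩ := hp w hw
    obtain ⟨m2, h2⟩ := hq w hw
    refine ⟨m1 + m2, ?_⟩
    rw [map_add, add_mul, hadd]
    refine N.add_mem ?_ (hmono _ _ _ h2)
    rw [add_comm]
    exact hmono _ _ _ h1
  | mul_X p i hp =>
    intro w hw
    obtain ⟨m, hm⟩ := hw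
    rw [map_mul, mul_assoc]
    exact hp _ ⟨m + 1, nil_X N hN D i m w hm⟩

theorem detOp_nil (N : Submodule (O σ) (K σ)) (hN : DStable N) (x : Fin n → Fin n → σ) (u : K σ)
    (hu : (detOp x).act u ∈ N) (b : O σ) : ∃ m, (fun f => (detOp x).act f)^[m] (ι b * u) ∈ N := by
  have h1 : (fun f => (detOp x).act f)
      = ((((pdMat x).det : DS σ) : Module.End ℂ (K σ)) : K σ → K σ) := by
    funext f
    exact detOp_act x f
  rw [h1]
  refine nil_mul N hN (pdMat x).det b u ⟨1, ?_⟩
  rw [Function.iterate_one, ← detOp_act]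
  exact hu

end

end Adams
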