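import Pool.Agent.MP_fe6ac3_nt.OrbB

/-!
# [ADAMS-DOM] Generic solutions of the quadrics lie in the orbit

Blueprint for `mem_orbB`.  Let `(α, β, ε, δ; γ) = sF y z`, `p' = (p₁'; p₂')`, `n` as in QuadOrb.lean,
`E₀ = (1, 0)ᵀ`.  Use `det ρ det q₁' · P = det q₁' · p' adj(ρ) α + n β` and its analogue for the columns
of `p''` (with `q' p''`, `γ` instead of `α`, `β`).  Starting vectors (columns of the `B_i`):
* `[1,4]`: `E₀ ∈ V₁`; `[1,2]`: `(-α₀₁/α₀₀, 1)ᵀ ∈ V₁`, killed by `P`;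
* `[2,5]`: `(0, adj(ρ) E₀, 0) ∈ V₂`, image `p' adj(ρ) E₀ ∈ V₃`, and `Y p' adj(ρ) E₀ = ε E₀ ∈ V₅`;
* `[2,3]`: `det q₁' (det ρ · x12 E₀ - (0, adj(ρ) α E₀, 0)) ∈ V₂`, image `n β E₀ ∈ V₃`, killed by `x34`
  (`q' n = 0`, `Y n β E₀ = δ β E₀ = 0`, `r₂` invertible);
* `[2]_e`: `e_e - (0, ρ⁻¹ q' p''_e, 0) - γ_{0e} / (β₀₀ det ρ det q₁') · ([2,3] vector)`, killed by `x23`;
* `[3,4]`: `p' adj(ρ) E₀ - (ε₀₀/δ₀₀) n E₀ ∈ V₃`, killed by `Y`;
* `[4,5]`: `(0, adj(r₂) (0,1)ᵀ) ∈ V₄`, image `det r₂ (0,1)ᵀ ∈ V₅`.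
Independence in each `V_i` uses exactly `det a₁, det r₂, det ρ, det q₁', α₁₀, β₁₀, ε₀₀ ≠ 0` (e.g. `V₃`:
`P E₀`, `p' adj(ρ) E₀`, `n β E₀`, `[3,4]`; coordinates with respect to `p'`, `n`).

`orbB_dom`: given `F ≠ 0` choose `(y, u)` with `F(y, u) ≠ 0`, `det T(y) ≠ 0`, the `4` determinants `≠ 0`
and all `u ≠ 0` (product of nonzero polynomials); let `s` be the solution of the quadrics with free
coordinates `u` (`α₁₁ = α₀₁ α₁₀ / α₀₀`, …), `z` with `sF y z = s` (`c = stdChart k`: `T(y) z = s - t(y)`).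
Then `(y, z) ∈ OrbB k` and the polynomial takes the value `F(y, u) ≠ 0` there.
-/

open MvPolynomial

namespace Adams

noncomputable section

namespace Dom

open Matrix

/-- a square matrix with trivial kernel is invertible -/
theorem inv_of_ker {m n : Type} [Fintype m] [Fintype n] [DecidableEq m] [DecidableEq n]
    (hc : Fintype.card m = Fintype.card n) (B : Matrix m n ℂ)
    (h : ∀ v, B *ᵥ v = 0 → v = 0) : Inv B := by
  let e : m ≃ n := Fintype.equivOfCardEq hc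
  let B1 : Matrix n n ℂ := B.submatrix e.symm id
  have hB : B = B1.submatrix e id := by
    ext i j
    simp [B1]
  have h1 : Function.Injective B1.mulVec := by
    intro v w hvw
    have h2 : B *ᵥ (v - w) = 0 := by
      funext i
      have h3 : (B1 *ᵥ v) (e i) = (B1 *ᵥ w) (e i) := by rw [hvw]
      have h4 : ∀ v, (B1 *ᵥ v) (e i) = (B *ᵥ v) i := by
        intro v
        simp [B1, Matrix.mulVec, dotProduct]
      rw [Matrix.mulVec_sub, Pi.sub_apply, ← h4, ← h4, h3, sub_self]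
      rfl
    exact sub_eq_zero.1 (h _ h2)
  have h2 : IsUnit B1 := Matrix.mulVec_injective_iff_isUnit.1 h1
  have h3 : IsUnit B1.det := (Matrix.isUnit_iff_isUnit_det _).1 h2
  refine ⟨B1⁻¹.submatrix id e, ?_, ?_⟩
  · rw [hB, Matrix.submatrix_mul _ _ e id e Function.bijective_id |>.symm, Matrix.mul_nonsing_inv _ h3,
      Matrix.submatrix_one_equiv]
  · rw [hB, Matrix.submatrix_mul _ _ id e id e.bijective |>.symm, Matrix.nonsing_inv_mul _ h3,
      Matrix.submatrix_id_id]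

/-- the matrix with given columns -/
def cM {m n : Type} (f : n → m → ℂ) : Matrix m n ℂ := Matrix.of fun i j => f j i

theorem cM_apply {m n : Type} (f : n → m → ℂ) (i : m) (j : n) : cM f i j = f j i := rfl

theorem mul_cM {l m n : Type} [Fintype m] (A : Matrix l m ℂ) (f : n → m → ℂ) :
    A * cM f = cM fun j => A *ᵥ f j := by
  ext i j
  rfl

theorem cM_mulVec {m n : Type} [Fintype n] (f : n → m → ℂ) (v : n → ℂ) :
    cM f *ᵥ v = ∑ j, v j • f j := by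
  funext i
  simp only [Matrix.mulVec, dotProduct, cM_apply, Finset.sum_apply, Pi.smul_apply, smul_eq_mul,
    mul_comm]

abbrev M2 := Matrix (Fin 2) (Fin 2) ℂ

theorem key1 (q1 q2 p1 p2 : M2) (u1 u2 : Fin 2 → ℂ) (ρ : M2) (hρ : ρ = q1 * p1 + q2 * p2)
    (a b : Fin 2 → ℂ) (ha : a = q1 *ᵥ u1 + q2 *ᵥ u2)
    (hb : b = ρ.det • u2 - p2 *ᵥ (ρ.adjugate *ᵥ a)) :
    (ρ.det * q1.det) • u1 = q1.det • (p1 *ᵥ (ρ.adjugate *ᵥ a)) - q1.adjugate *ᵥ (q2 *ᵥ b) := by
  have h1 : q2 *ᵥ b = q1 *ᵥ (p1 *ᵥ (ρ.adjugate *ᵥ a)) - ρ.det • (q1 *ᵥ u1) := by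
    have h2 : q2 *ᵥ (p2 *ᵥ (ρ.adjugate *ᵥ a)) =
        ρ *ᵥ (ρ.adjugate *ᵥ a) - q1 *ᵥ (p1 *ᵥ (ρ.adjugate *ᵥ a)) := by
      rw [hρ, Matrix.add_mulVec, ← hρ]
      simp only [Matrix.mulVec_mulVec, Matrix.mul_assoc]
      abel
    have h3 : ρ *ᵥ (ρ.adjugate *ᵥ a) = ρ.det • a := by
      rw [Matrix.mulVec_mulVec, Matrix.mul_adjugate, Matrix.smul_mulVec, Matrix.one_mulVec]
    have h4 : q2 *ᵥ u2 = a - q1 *ᵥ u1 := by rw [ha]; abel
    rw [hb, Matrix.mulVec_sub, h2, h3, Matrix.mulVec_smul, h4, smul_sub]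
    abel
  have h5 : ∀ w, q1.adjugate *ᵥ (q1 *ᵥ w) = q1.det • w := by
    intro w
    rw [Matrix.mulVec_mulVec, Matrix.adjugate_mul, Matrix.smul_mulVec, Matrix.one_mulVec]
  rw [h1, Matrix.mulVec_sub, Matrix.mulVec_smul, h5, h5, smul_smul]
  abel


/-- `n w` -/
def nv {k : ℕ} (y : YT k → ℂ) (w : Fin 2 → ℂ) : Fin 2 ⊕ Fin 2 → ℂ :=
  Sum.elim (-((yB y 4).adjugate *ᵥ (yB y 5 *ᵥ w))) ((yB y 4).det • w)

/-- `p' w` -/
def pv {k : ℕ} (y : YT k → ℂ) (w : Fin 2 → ℂ) : Fin 2 ⊕ Fin 2 → ℂ :=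
  Sum.elim (yB y 2 *ᵥ w) (yB y 3 *ᵥ w)

/-- `adj(ρ) w` -/
def av {k : ℕ} (y : YT k → ℂ) (w : Fin 2 → ℂ) : Fin 2 → ℂ := (rh y).adjugate *ᵥ w

section
variable {k : ℕ} (y : YT k → ℂ) (z : ST k → ℂ)

theorem elim_add {m n : Type} (a b : m → ℂ) (c d : n → ℂ) :
    Sum.elim a c + Sum.elim b d = Sum.elim (a + b) (c + d) := by
  funext i; cases i <;> rfl

theorem elim_sub {m n : Type} (a b : m → ℂ) (c d : n → ℂ) :
    Sum.elim a c - Sum.elim b d = Sum.elim (a - b) (c - d) := by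
  funext i; cases i <;> rfl

theorem elim_smul {m n : Type} (t : ℂ) (a : m → ℂ) (c : n → ℂ) :
    t • Sum.elim a c = Sum.elim (t • a) (t • c) := by
  funext i; cases i <;> rfl

theorem elim_eq {m n : Type} {a b : m → ℂ} {c d : n → ℂ} (h1 : a = b) (h2 : c = d) :
    Sum.elim a c = Sum.elim b d := by rw [h1, h2]

theorem elim_zero {m n : Type} : Sum.elim (0 : m → ℂ) (0 : n → ℂ) = 0 := by
  funext i; cases i <;> rfl

theorem x12_mulVec (v : Fin 2 → ℂ) : x12 y *ᵥ v =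
    Sum.elim (yB y 0 *ᵥ v) (Sum.elim (yB y 1 *ᵥ v) (yA3 y *ᵥ v)) := by
  unfold x12
  rw [Matrix.fromRows_mulVec, Matrix.fromRows_mulVec]

theorem x23_mulVec (u v : Fin 2 → ℂ) (w : Fin k → ℂ) : x23 y z *ᵥ (Sum.elim u (Sum.elim v w)) =
    Sum.elim (zB z 0 *ᵥ u + (yB y 2 *ᵥ v + yP3 y *ᵥ w))
      (zB z 1 *ᵥ u + (yB y 3 *ᵥ v + zP3 z *ᵥ w)) := by
  unfold x23
  rw [Matrix.fromRows_mulVec, Matrix.fromCols_mulVec_sumElim, Matrix.fromCols_mulVec_sumElim,
    Matrix.fromCols_mulVec_sumElim, Matrix.fromCols_mulVec_sumElim]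

theorem x34_mulVec (u v : Fin 2 → ℂ) : x34 y z *ᵥ (Sum.elim u v) =
    Sum.elim (yB y 4 *ᵥ u + yB y 5 *ᵥ v) (zB z 2 *ᵥ u + zB z 3 *ᵥ v) := by
  unfold x34
  rw [Matrix.fromBlocks_mulVec]
  rfl

theorem x45_mulVec (u v : Fin 2 → ℂ) : x45 y *ᵥ (Sum.elim u v) = yB y 6 *ᵥ u + yB y 7 *ᵥ v := by
  unfold x45
  rw [Matrix.fromCols_mulVec_sumElim]

theorem x23x12 (v : Fin 2 → ℂ) : x23 y z *ᵥ (x12 y *ᵥ v) =
    Sum.elim (P1 y z *ᵥ v) (P2 y z *ᵥ v) := by
  rw [x12_mulVec, x23_mulVec]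
  apply elim_eq
  · unfold P1
    rw [Matrix.add_mulVec, Matrix.add_mulVec]
    simp only [Matrix.mulVec_mulVec]
    abel
  · unfold P2
    rw [Matrix.add_mulVec, Matrix.add_mulVec]
    simp only [Matrix.mulVec_mulVec]
    abel

theorem x45x34 (u v : Fin 2 → ℂ) : x45 y *ᵥ (x34 y z *ᵥ (Sum.elim u v)) =
    Y1 y z *ᵥ u + Y2 y z *ᵥ v := by
  rw [x34_mulVec, x45_mulVec]
  unfold Y1 Y2
  rw [Matrix.add_mulVec, Matrix.add_mulVec, Matrix.mulVec_add, Matrix.mulVec_add]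
  simp only [Matrix.mulVec_mulVec]
  abel

theorem al_mulVec (v : Fin 2 → ℂ) : al y z *ᵥ v =
    yB y 4 *ᵥ (P1 y z *ᵥ v) + yB y 5 *ᵥ (P2 y z *ᵥ v) := by
  unfold al
  rw [Matrix.add_mulVec]
  simp only [Matrix.mulVec_mulVec]

theorem be_mulVec (v : Fin 2 → ℂ) : be y z *ᵥ v =
    (rh y).det • (P2 y z *ᵥ v) - yB y 3 *ᵥ ((rh y).adjugate *ᵥ (al y z *ᵥ v)) := by
  unfold be
  rw [Matrix.sub_mulVec, Matrix.smul_mulVec]
  simp only [Matrix.mulVec_mulVec, Matrix.mul_assoc]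

theorem ga_mulVec (v : Fin k → ℂ) : ga y z *ᵥ v =
    (rh y).det • (zP3 z *ᵥ v) - yB y 3 *ᵥ ((rh y).adjugate *ᵥ
      (yB y 4 *ᵥ (yP3 y *ᵥ v) + yB y 5 *ᵥ (zP3 z *ᵥ v))) := by
  unfold ga
  rw [Matrix.sub_mulVec, Matrix.smul_mulVec]
  simp only [Matrix.mulVec_mulVec, Matrix.mul_assoc, Matrix.mulVec_add, Matrix.mul_add,
    Matrix.add_mulVec]

theorem Y_pv (w : Fin 2 → ℂ) : x45 y *ᵥ (x34 y z *ᵥ (pv y (av y w))) = ep y z *ᵥ w := by
  unfold pv av
  rw [x45x34]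
  unfold ep
  simp only [Matrix.mulVec_mulVec, Matrix.mul_assoc, Matrix.add_mul, Matrix.add_mulVec]

theorem Y_nv (w : Fin 2 → ℂ) : x45 y *ᵥ (x34 y z *ᵥ (nv y w)) = de y z *ᵥ w := by
  unfold nv
  rw [x45x34]
  unfold de
  rw [Matrix.sub_mulVec, Matrix.smul_mulVec, Matrix.mulVec_neg, Matrix.mulVec_smul]
  simp only [Matrix.mulVec_mulVec, Matrix.mul_assoc]
  abel

/-- the upper half of `x34` -/
theorem q_pv (w : Fin 2 → ℂ) (i : Fin 2) :
    (x34 y z *ᵥ (pv y (av y w))) (Sum.inl i) = (rh y).det * w i := by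
  unfold pv av
  rw [x34_mulVec, Sum.elim_inl]
  have : yB y 4 *ᵥ (yB y 2 *ᵥ ((rh y).adjugate *ᵥ w)) + yB y 5 *ᵥ (yB y 3 *ᵥ ((rh y).adjugate *ᵥ w))
      = (rh y).det • w := by
    have h1 : (rh y * (rh y).adjugate) *ᵥ w = (rh y).det • w := by
      rw [Matrix.mul_adjugate, Matrix.smul_mulVec, Matrix.one_mulVec]
    rw [← h1]
    conv_rhs => rw [← Matrix.mulVec_mulVec]
    conv_rhs => enter [1]; unfold rh
    rw [Matrix.add_mulVec]
    simp only [Matrix.mulVec_mulVec, Matrix.mul_assoc]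
  rw [this]
  rfl

theorem q_nv (w : Fin 2 → ℂ) (i : Fin 2) : (x34 y z *ᵥ (nv y w)) (Sum.inl i) = 0 := by
  unfold nv
  rw [x34_mulVec, Sum.elim_inl]
  have : yB y 4 *ᵥ (-((yB y 4).adjugate *ᵥ (yB y 5 *ᵥ w))) + yB y 5 *ᵥ ((yB y 4).det • w) = 0 := by
    rw [Matrix.mulVec_neg, Matrix.mulVec_mulVec, Matrix.mul_adjugate, Matrix.smul_mulVec,
      Matrix.one_mulVec, Matrix.mulVec_smul, neg_add_cancel]
  rw [this]
  rfl

theorem q_P (v : Fin 2 → ℂ) (i : Fin 2) :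
    (x34 y z *ᵥ (x23 y z *ᵥ (x12 y *ᵥ v))) (Sum.inl i) = (al y z *ᵥ v) i := by
  rw [x23x12, x34_mulVec, Sum.elim_inl, al_mulVec]

/-- the polynomial identity for `P` -/
theorem keyP (v : Fin 2 → ℂ) : ((rh y).det * (yB y 4).det) • (x23 y z *ᵥ (x12 y *ᵥ v)) =
    (yB y 4).det • pv y (av y (al y z *ᵥ v)) + nv y (be y z *ᵥ v) := by
  rw [x23x12]
  unfold pv av nv
  rw [elim_smul, elim_smul, elim_add]
  apply elim_eq
  · rw [key1 (yB y 4) (yB y 5) (yB y 2) (yB y 3) (P1 y z *ᵥ v) (P2 y z *ᵥ v) (rh y) rfl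
      (al y z *ᵥ v) (be y z *ᵥ v) (al_mulVec y z v) (be_mulVec y z v)]
    abel
  · rw [be_mulVec, smul_sub, smul_smul, mul_comm]
    abel

/-- the polynomial identity for `p''` -/
theorem keyP' (v : Fin k → ℂ) : ((rh y).det * (yB y 4).det) •
      (x23 y z *ᵥ (Sum.elim 0 (Sum.elim 0 v))) =
    (yB y 4).det • pv y (av y (yB y 4 *ᵥ (yP3 y *ᵥ v) + yB y 5 *ᵥ (zP3 z *ᵥ v))) +
      nv y (ga y z *ᵥ v) := by
  rw [x23_mulVec]
  simp only [Matrix.mulVec_zero, zero_add]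
  unfold pv av nv
  rw [elim_smul, elim_smul, elim_add]
  apply elim_eq
  · rw [key1 (yB y 4) (yB y 5) (yB y 2) (yB y 3) (yP3 y *ᵥ v) (zP3 z *ᵥ v) (rh y) rfl
      _ (ga y z *ᵥ v) rfl (ga_mulVec y z v)]
    abel
  · rw [ga_mulVec, smul_sub, smul_smul, mul_comm]
    abel

theorem x23_mid (w : Fin 2 → ℂ) : x23 y z *ᵥ (Sum.elim 0 (Sum.elim w 0)) = pv y w := by
  rw [x23_mulVec]
  simp only [Matrix.mulVec_zero, zero_add, add_zero]
  rfl

end

/-- the vector `(1, 0)` -/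
def E0 : Fin 2 → ℂ := ![1, 0]
/-- the vector `(0, 1)` -/
def E1 : Fin 2 → ℂ := ![0, 1]

theorem mulVec_E0 {m : Type} (A : Matrix m (Fin 2) ℂ) (i : m) : (A *ᵥ E0) i = A i 0 := by
  simp [Matrix.mulVec, dotProduct, E0, Fin.sum_univ_two]

theorem mulVec_E1 {m : Type} (A : Matrix m (Fin 2) ℂ) (i : m) : (A *ᵥ E1) i = A i 1 := by
  simp [Matrix.mulVec, dotProduct, E1, Fin.sum_univ_two]

theorem mulVec_two {m : Type} (A : Matrix m (Fin 2) ℂ) (v : Fin 2 → ℂ) (i : m) :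
    (A *ᵥ v) i = A i 0 * v 0 + A i 1 * v 1 := by
  simp [Matrix.mulVec, dotProduct, Fin.sum_univ_two]

theorem nv_zero {k : ℕ} (y : YT k → ℂ) : nv y 0 = 0 := by
  unfold nv
  rw [Matrix.mulVec_zero, Matrix.mulVec_zero, neg_zero, smul_zero, elim_zero]

theorem nv_smul {k : ℕ} (y : YT k → ℂ) (t : ℂ) (w : Fin 2 → ℂ) : nv y (t • w) = t • nv y w := by
  unfold nv
  rw [Matrix.mulVec_smul, Matrix.mulVec_smul, elim_smul, smul_neg, smul_comm]

theorem nv_sub {k : ℕ} (y : YT k → ℂ) (v w : Fin 2 → ℂ) : nv y (v - w) = nv y v - nv y w := by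
  unfold nv
  rw [Matrix.mulVec_sub, Matrix.mulVec_sub, elim_sub, smul_sub]
  congr 1
  abel

theorem pv_zero {k : ℕ} (y : YT k → ℂ) : pv y 0 = 0 := by
  unfold pv
  rw [Matrix.mulVec_zero, Matrix.mulVec_zero, elim_zero]

theorem av_zero {k : ℕ} (y : YT k → ℂ) : av y 0 = 0 := by
  unfold av
  rw [Matrix.mulVec_zero]

theorem nv_inr {k : ℕ} (y : YT k → ℂ) (w : Fin 2 → ℂ) (i : Fin 2) :
    nv y w (Sum.inr i) = (yB y 4).det * w i := rfl

section
variable {k : ℕ} (y : YT k → ℂ) (z : ST k → ℂ)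

/-- the hypotheses -/
structure Hyp : Prop where
  h0 : (yB y 0).det ≠ 0
  h4 : (yB y 4).det ≠ 0
  h7 : (yB y 7).det ≠ 0
  hρ : (rh y).det ≠ 0
  a00 : al y z 0 0 ≠ 0
  a01 : al y z 0 1 ≠ 0
  a10 : al y z 1 0 ≠ 0
  b00 : be y z 0 0 ≠ 0
  b10 : be y z 1 0 ≠ 0
  e00 : ep y z 0 0 ≠ 0
  e10 : ep y z 1 0 ≠ 0
  d00 : de y z 0 0 ≠ 0
  q0 : al y z 0 0 * al y z 1 1 - al y z 0 1 * al y z 1 0 = 0
  q1 : al y z 0 0 * be y z 0 1 - al y z 0 1 * be y z 0 0 = 0
  q2 : al y z 0 0 * be y z 1 1 - al y z 0 1 * be y z 1 0 = 0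
  q3 : ep y z 0 1 * al y z 1 0 + ep y z 0 0 * al y z 0 0 = 0
  q4 : ep y z 1 1 * al y z 1 0 + ep y z 1 0 * al y z 0 0 = 0
  q5 : de y z 0 1 * be y z 1 0 + de y z 0 0 * be y z 0 0 = 0
  q6 : ep y z 0 0 * de y z 1 0 - ep y z 1 0 * de y z 0 0 = 0
  q7 : de y z 1 0 * be y z 0 0 + de y z 1 1 * be y z 1 0 = 0
  qe : ∀ e, be y z 0 0 * ga y z 1 e - be y z 1 0 * ga y z 0 e = 0

variable {y z}

theorem fin2_ext {v w : Fin 2 → ℂ} (h0 : v 0 = w 0) (h1 : v 1 = w 1) : v = w := by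
  funext i
  fin_cases i
  · exact h0
  · exact h1

/-- `[1,2]` in `V₁` -/
def u12 (y : YT k → ℂ) (z : ST k → ℂ) : Fin 2 → ℂ := ![-(al y z 0 1 / al y z 0 0), 1]

theorem F1 (H : Hyp y z) : x23 y z *ᵥ (x12 y *ᵥ u12 y z) = 0 := by
  have h1 : al y z *ᵥ u12 y z = 0 := by
    have h := H.q0
    have ha := H.a00
    apply fin2_ext
    · rw [mulVec_two]
      simp only [u12, Matrix.cons_val_zero, Matrix.cons_val_one, Pi.zero_apply]
      field_simp
      ring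
    · rw [mulVec_two]
      simp only [u12, Matrix.cons_val_zero, Matrix.cons_val_one, Pi.zero_apply]
      field_simp
      linear_combination h
  have h2 : be y z *ᵥ u12 y z = 0 := by
    have hq1 := H.q1
    have hq2 := H.q2
    have ha := H.a00
    apply fin2_ext
    · rw [mulVec_two]
      simp only [u12, Matrix.cons_val_zero, Matrix.cons_val_one, Pi.zero_apply]
      field_simp
      linear_combination hq1
    · rw [mulVec_two]
      simp only [u12, Matrix.cons_val_zero, Matrix.cons_val_one, Pi.zero_apply]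
      field_simp
      linear_combination hq2
  have h3 := keyP y z (u12 y z)
  rw [h1, h2, av_zero, pv_zero, nv_zero, smul_zero, add_zero] at h3
  exact (smul_eq_zero.1 h3).resolve_left (mul_ne_zero H.hρ H.h4)

/-- a vector of the middle block -/
def mid {k : ℕ} (w : Fin 2 → ℂ) : Fin 2 ⊕ Fin 2 ⊕ Fin k → ℂ :=
  Sum.elim (0 : Fin 2 → ℂ) (Sum.elim w (0 : Fin k → ℂ))

/-- a vector of the lowest block -/
def low {k : ℕ} (w : Fin k → ℂ) : Fin 2 ⊕ Fin 2 ⊕ Fin k → ℂ :=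
  Sum.elim (0 : Fin 2 → ℂ) (Sum.elim (0 : Fin 2 → ℂ) w)

theorem x23_mid' (w : Fin 2 → ℂ) : x23 y z *ᵥ (mid w) = pv y w := x23_mid y z w

/-- `[2,3]` in `V₂` -/
def w23 (y : YT k → ℂ) (z : ST k → ℂ) : Fin 2 ⊕ Fin 2 ⊕ Fin k → ℂ :=
  (yB y 4).det • ((rh y).det • (x12 y *ᵥ E0) - mid (av y (al y z *ᵥ E0)))

theorem F3 : x23 y z *ᵥ w23 y z = nv y (be y z *ᵥ E0) := by
  unfold w23
  rw [Matrix.mulVec_smul, Matrix.mulVec_sub, Matrix.mulVec_smul, x23_mid', smul_sub, smul_smul,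
    mul_comm, keyP]
  abel

theorem dbE0 (H : Hyp y z) : de y z *ᵥ (be y z *ᵥ E0) = 0 := by
  apply fin2_ext
  · rw [mulVec_two, mulVec_E0, mulVec_E0, Pi.zero_apply]
    linear_combination H.q5
  · rw [mulVec_two, mulVec_E0, mulVec_E0, Pi.zero_apply]
    linear_combination H.q7

theorem eaE0 (H : Hyp y z) : ep y z *ᵥ (al y z *ᵥ E0) = 0 := by
  apply fin2_ext
  · rw [mulVec_two, mulVec_E0, mulVec_E0, Pi.zero_apply]
    linear_combination H.q3
  · rw [mulVec_two, mulVec_E0, mulVec_E0, Pi.zero_apply]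
    linear_combination H.q4

theorem eq_zero_of_det {A : Matrix (Fin 2) (Fin 2) ℂ} (h : A.det ≠ 0) {v : Fin 2 → ℂ}
    (hv : A *ᵥ v = 0) : v = 0 := by
  have h1 : A.adjugate *ᵥ (A *ᵥ v) = A.det • v := by
    rw [Matrix.mulVec_mulVec, Matrix.adjugate_mul, Matrix.smul_mulVec, Matrix.one_mulVec]
  rw [hv, Matrix.mulVec_zero] at h1
  exact (smul_eq_zero.1 h1.symm).resolve_left h

theorem F4 (H : Hyp y z) : x34 y z *ᵥ (nv y (be y z *ᵥ E0)) = 0 := by
  set w := nv y (be y z *ᵥ E0) with hw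
  set t := x34 y z *ᵥ w with ht
  have h1 : t = Sum.elim (0 : Fin 2 → ℂ) (fun i : Fin 2 => t (Sum.inr i)) := by
    funext i
    rcases i with i | i
    · exact q_nv y z _ i
    · rfl
  have h2 : x45 y *ᵥ t = 0 := by rw [ht, hw, Y_nv, dbE0 H]
  rw [h1, x45_mulVec, Matrix.mulVec_zero, zero_add] at h2
  have h3 := eq_zero_of_det H.h7 h2
  rw [h1, h3, elim_zero]

theorem F5 (H : Hyp y z) : x45 y *ᵥ (x34 y z *ᵥ (x23 y z *ᵥ (x12 y *ᵥ E0))) = 0 := by
  have h1 : x45 y *ᵥ (x34 y z *ᵥ (((rh y).det * (yB y 4).det) •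
      (x23 y z *ᵥ (x12 y *ᵥ E0)))) = 0 := by
    rw [keyP, Matrix.mulVec_add, Matrix.mulVec_add, Matrix.mulVec_smul, Matrix.mulVec_smul, Y_pv,
      Y_nv, eaE0 H, dbE0 H, smul_zero, add_zero]
  rw [Matrix.mulVec_smul, Matrix.mulVec_smul] at h1
  exact (smul_eq_zero.1 h1).resolve_left (mul_ne_zero H.hρ H.h4)

/-- `[3,4]` in `V₃` -/
def v34 (y : YT k → ℂ) (z : ST k → ℂ) : Fin 2 ⊕ Fin 2 → ℂ :=
  pv y (av y E0) - (ep y z 0 0 / de y z 0 0) • nv y E0

theorem F6 (H : Hyp y z) : x45 y *ᵥ (x34 y z *ᵥ v34 y z) = 0 := by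
  unfold v34
  rw [Matrix.mulVec_sub, Matrix.mulVec_sub, Matrix.mulVec_smul, Matrix.mulVec_smul, Y_pv, Y_nv]
  have h1 := H.q6
  have h2 := H.d00
  apply fin2_ext
  · rw [Pi.sub_apply, Pi.smul_apply, mulVec_E0, mulVec_E0, smul_eq_mul, Pi.zero_apply]
    field_simp
    ring
  · rw [Pi.sub_apply, Pi.smul_apply, mulVec_E0, mulVec_E0, smul_eq_mul, Pi.zero_apply]
    field_simp
    linear_combination -h1

/-- `q' p''_e` -/
def qp (y : YT k → ℂ) (z : ST k → ℂ) (e : Fin k) : Fin 2 → ℂ :=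
  yB y 4 *ᵥ (yP3 y *ᵥ (Pi.single e (1 : ℂ))) + yB y 5 *ᵥ (zP3 z *ᵥ (Pi.single e (1 : ℂ)))

/-- `[2]_e` in `V₂` -/
def wE (y : YT k → ℂ) (z : ST k → ℂ) (e : Fin k) : Fin 2 ⊕ Fin 2 ⊕ Fin k → ℂ :=
  low (Pi.single e 1) - (1 / (rh y).det) • mid (av y (qp y z e)) -
    (ga y z 0 e / (be y z 0 0 * (rh y).det * (yB y 4).det)) • w23 y z

theorem F7 (H : Hyp y z) (e : Fin k) : x23 y z *ᵥ wE y z e = 0 := by
  unfold wE
  rw [Matrix.mulVec_sub, Matrix.mulVec_sub, Matrix.mulVec_smul, Matrix.mulVec_smul, F3, x23_mid']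
  have h1 := keyP' y z (Pi.single e 1)
  have hc : ((rh y).det * (yB y 4).det) ≠ 0 := mul_ne_zero H.hρ H.h4
  have h2 : x23 y z *ᵥ (low (Pi.single e 1)) =
      ((rh y).det * (yB y 4).det)⁻¹ • ((yB y 4).det • pv y (av y (qp y z e)) +
        nv y (ga y z *ᵥ Pi.single e 1)) := by
    rw [eq_inv_smul_iff₀ hc]
    exact h1
  have h3 : ga y z *ᵥ Pi.single e 1 = (ga y z 0 e / be y z 0 0) • (be y z *ᵥ E0) := by
    have h := H.qe e
    have hb := H.b00
    have hg : ∀ i, (ga y z *ᵥ Pi.single e 1) i = ga y z i e := by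
      intro i
      rw [Matrix.mulVec_single_one]
      rfl
    apply fin2_ext
    · rw [hg, Pi.smul_apply, mulVec_E0, smul_eq_mul]
      field_simp
    · rw [hg, Pi.smul_apply, mulVec_E0, smul_eq_mul]
      field_simp
      linear_combination h
  have hr := H.hρ
  have h4 := H.h4
  have hb := H.b00
  rw [h2, h3, nv_smul]
  funext i
  simp only [Pi.sub_apply, Pi.smul_apply, Pi.add_apply, smul_eq_mul, Pi.zero_apply]
  field_simp
  ring

end

@[simp] theorem E0_zero : E0 0 = 1 := rfl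
@[simp] theorem E0_one : E0 1 = 0 := rfl
@[simp] theorem E1_zero : E1 0 = 0 := rfl
@[simp] theorem E1_one : E1 1 = 1 := rfl

/-- `[4,5]` in `V₄` -/
def t45 {k : ℕ} (y : YT k → ℂ) : Fin 2 ⊕ Fin 2 → ℂ :=
  Sum.elim (0 : Fin 2 → ℂ) ((yB y 7).adjugate *ᵥ E1)

theorem x45_t45 {k : ℕ} (y : YT k → ℂ) : x45 y *ᵥ t45 y = (yB y 7).det • E1 := by
  unfold t45
  rw [x45_mulVec, Matrix.mulVec_zero, zero_add, Matrix.mulVec_mulVec, Matrix.mul_adjugate,
    Matrix.smul_mulVec, Matrix.one_mulVec]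

section
variable {k : ℕ} {y : YT k → ℂ} {z : ST k → ℂ}

theorem inv1 (y : YT k → ℂ) (z : ST k → ℂ) : Inv (cM ![E0, u12 y z]) := by
  apply inv_of_ker rfl
  intro v hv
  rw [cM_mulVec, Fin.sum_univ_two] at hv
  have h1 := congrFun hv 1
  have h0 := congrFun hv 0
  simp [u12] at h0 h1
  rw [h1] at h0
  apply fin2_ext
  · simpa using h0
  · exact h1

theorem inv5 (H : Hyp y z) : Inv (cM ![ep y z *ᵥ E0, (yB y 7).det • E1]) := by
  apply inv_of_ker rfl
  intro v hv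
  rw [cM_mulVec, Fin.sum_univ_two] at hv
  have h1 := congrFun hv 1
  have h0 := congrFun hv 0
  simp only [Matrix.cons_val_zero, Matrix.cons_val_one, Pi.add_apply, Pi.smul_apply, smul_eq_mul,
    mulVec_E0, Pi.zero_apply, E1] at h0 h1
  have h2 : v 0 = 0 := by
    rw [mul_zero, mul_zero, add_zero] at h0
    exact (mul_eq_zero.1 h0).resolve_right H.e00
  rw [h2, zero_mul, zero_add, mul_one] at h1
  apply fin2_ext
  · exact h2
  · exact (mul_eq_zero.1 h1).resolve_right H.h7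

theorem ker3 (H : Hyp y z) (a b c d : ℂ)
    (h : a • (x23 y z *ᵥ (x12 y *ᵥ E0)) + b • pv y (av y E0) + c • nv y (be y z *ᵥ E0) +
      d • v34 y z = 0) : a = 0 ∧ b = 0 ∧ c = 0 ∧ d = 0 := by
  have h1 := congrArg (fun t => x34 y z *ᵥ t) h
  simp only [Matrix.mulVec_add, Matrix.mulVec_smul, Matrix.mulVec_zero, F4 H, smul_zero,
    add_zero] at h1
  have hv : ∀ i, (x34 y z *ᵥ v34 y z) (Sum.inl i) = (rh y).det * E0 i := by
    intro i
    unfold v34
    rw [Matrix.mulVec_sub, Matrix.mulVec_smul, Pi.sub_apply, Pi.smul_apply, q_pv, q_nv, smul_zero,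
      sub_zero]
  have h3 := congrFun h1 (Sum.inl 0)
  have h4 := congrFun h1 (Sum.inl 1)
  simp only [Pi.add_apply, Pi.smul_apply, smul_eq_mul, q_P, q_pv, hv, mulVec_E0,
    Pi.zero_apply] at h3 h4
  have h5 := congrArg (fun t => x45 y *ᵥ t) h1
  simp only [Matrix.mulVec_add, Matrix.mulVec_smul, Matrix.mulVec_zero, F5 H, F6 H, smul_zero,
    add_zero, zero_add, Y_pv] at h5
  have h6 := congrFun h5 0
  rw [Pi.smul_apply, mulVec_E0, smul_eq_mul, Pi.zero_apply] at h6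
  have hb : b = 0 := (mul_eq_zero.1 h6).resolve_right H.e00
  have ha : a = 0 := by
    simp only [E0_one, mul_zero, add_zero] at h4
    exact (mul_eq_zero.1 h4).resolve_right H.a10
  have hd : d = 0 := by
    rw [ha, hb] at h3
    simp only [E0_zero, zero_mul, zero_add, mul_one] at h3
    exact (mul_eq_zero.1 h3).resolve_right H.hρ
  have hc : c = 0 := by
    rw [ha, hb, hd] at h
    have h7 := congrFun h (Sum.inr 0)
    simp only [zero_smul, zero_add, add_zero, Pi.smul_apply, nv_inr, mulVec_E0, smul_eq_mul,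
      Pi.zero_apply] at h7
    exact (mul_eq_zero.1 h7).resolve_right (mul_ne_zero H.h4 H.b00)
  exact ⟨ha, hb, hc, hd⟩

theorem inv3 (H : Hyp y z) : Inv (cM ![x23 y z *ᵥ (x12 y *ᵥ E0), pv y (av y E0),
    nv y (be y z *ᵥ E0), v34 y z]) := by
  apply inv_of_ker (by simp)
  intro v hv
  rw [cM_mulVec, Fin.sum_univ_four] at hv
  obtain ⟨h0, h1, h2, h3⟩ := ker3 H _ _ _ _ hv
  funext i
  fin_cases i
  · exact h0
  · exact h1
  · exact h2
  · exact h3

theorem inv4 (H : Hyp y z) : Inv (cM ![x34 y z *ᵥ (x23 y z *ᵥ (x12 y *ᵥ E0)),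
    x34 y z *ᵥ (pv y (av y E0)), x34 y z *ᵥ v34 y z, t45 y]) := by
  apply inv_of_ker (by simp)
  intro v hv
  rw [cM_mulVec, Fin.sum_univ_four] at hv
  change v 0 • (x34 y z *ᵥ (x23 y z *ᵥ (x12 y *ᵥ E0))) + v 1 • (x34 y z *ᵥ (pv y (av y E0))) +
    v 2 • (x34 y z *ᵥ v34 y z) + v 3 • t45 y = 0 at hv
  have h5 := congrArg (fun t => x45 y *ᵥ t) hv
  simp only [Matrix.mulVec_add, Matrix.mulVec_smul, Matrix.mulVec_zero, F5 H, F6 H, smul_zero,
    add_zero, zero_add, Y_pv, x45_t45] at h5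
  have h6 := congrFun h5 0
  have h7 := congrFun h5 1
  simp only [Pi.add_apply, Pi.smul_apply, mulVec_E0, smul_eq_mul, Pi.zero_apply, E1_zero,
    E1_one, mul_zero, add_zero, mul_one] at h6 h7
  have h1 : v 1 = 0 := (mul_eq_zero.1 h6).resolve_right H.e00
  have h3 : v 3 = 0 := by
    rw [h1, zero_mul, zero_add] at h7
    exact (mul_eq_zero.1 h7).resolve_right H.h7
  have hv' : ∀ i, (x34 y z *ᵥ v34 y z) (Sum.inl i) = (rh y).det * E0 i := by
    intro i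
    unfold v34
    rw [Matrix.mulVec_sub, Matrix.mulVec_smul, Pi.sub_apply, Pi.smul_apply, q_pv, q_nv, smul_zero,
      sub_zero]
  rw [h1, h3, zero_smul, zero_smul, add_zero, add_zero] at hv
  have h8 := congrFun hv (Sum.inl 0)
  have h9 := congrFun hv (Sum.inl 1)
  simp only [Pi.add_apply, Pi.smul_apply, smul_eq_mul, q_P, hv', mulVec_E0, Pi.zero_apply, E0_zero,
    E0_one, mul_zero, add_zero, mul_one] at h8 h9
  have h0 : v 0 = 0 := (mul_eq_zero.1 h9).resolve_right H.a10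
  have h2 : v 2 = 0 := by
    rw [h0, zero_mul, zero_add] at h8
    exact (mul_eq_zero.1 h8).resolve_right H.hρ
  funext i
  fin_cases i
  · exact h0
  · exact h1
  · exact h2
  · exact h3

theorem x12_inl (v : Fin 2 → ℂ) (i : Fin 2) : (x12 y *ᵥ v) (Sum.inl i) = (yB y 0 *ᵥ v) i := by
  rw [x12_mulVec]
  rfl

theorem w23_inl (i : Fin 2) :
    w23 y z (Sum.inl i) = (yB y 4).det * ((rh y).det * (yB y 0 *ᵥ E0) i) := by
  unfold w23
  rw [Pi.smul_apply, Pi.sub_apply, Pi.smul_apply, x12_inl]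
  show (yB y 4).det * ((rh y).det * (yB y 0 *ᵥ E0) i - 0) = _
  rw [sub_zero]

theorem wE_inl (H : Hyp y z) (e : Fin k) (i : Fin 2) :
    wE y z e (Sum.inl i) = -(ga y z 0 e / be y z 0 0 * (yB y 0 *ᵥ E0) i) := by
  unfold wE
  rw [Pi.sub_apply, Pi.sub_apply, Pi.smul_apply, Pi.smul_apply, w23_inl]
  show (0 : ℂ) - (1 / (rh y).det) * 0 - _ * _ = _
  have h1 := H.hρ
  have h2 := H.h4
  have h3 := H.b00
  field_simp
  ring

theorem wE_inr (e : Fin k) : wE y z e = low (Pi.single e 1) -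
    ((1 / (rh y).det) • mid (av y (qp y z e)) +
    (ga y z 0 e / (be y z 0 0 * (rh y).det * (yB y 4).det)) • w23 y z) := by
  unfold wE
  rw [sub_sub]

theorem inv2 (H : Hyp y z) : Inv (cM (Sum.elim ![x12 y *ᵥ E0, x12 y *ᵥ u12 y z, mid (av y E0),
    w23 y z] (wE y z))) := by
  apply inv_of_ker
  · simp only [Fintype.card_sum, Fintype.card_fin]
    omega
  intro v hv
  rw [cM_mulVec, Fintype.sum_sum_type, Fin.sum_univ_four] at hv
  change (v (Sum.inl 0) • (x12 y *ᵥ E0) + v (Sum.inl 1) • (x12 y *ᵥ u12 y z) +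
    v (Sum.inl 2) • mid (av y E0) + v (Sum.inl 3) • w23 y z) +
      ∑ e, v (Sum.inr e) • wE y z e = 0 at hv
  have h1 := congrArg (fun t => x23 y z *ᵥ t) hv
  simp only [Matrix.mulVec_add, Matrix.mulVec_smul, Matrix.mulVec_zero, F1 H, F3, x23_mid',
    smul_zero, add_zero, Matrix.mulVec_sum, F7 H, Finset.sum_const_zero] at h1
  obtain ⟨h2, h3, h4, -⟩ := ker3 H (v (Sum.inl 0)) (v (Sum.inl 2)) (v (Sum.inl 3)) 0 (by
    rw [zero_smul, add_zero]
    exact h1)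
  rw [h2, h3, h4, zero_smul, zero_smul, zero_smul, zero_add, add_zero, add_zero] at hv
  set κ := ∑ e, v (Sum.inr e) * (ga y z 0 e / be y z 0 0) with hκ
  have h5 : yB y 0 *ᵥ (v (Sum.inl 1) • u12 y z - κ • E0) = 0 := by
    funext i
    have h6 := congrFun hv (Sum.inl i)
    rw [Pi.add_apply, Pi.smul_apply, x12_inl, Finset.sum_apply] at h6
    simp only [Pi.smul_apply, wE_inl H, smul_eq_mul] at h6
    have h61 : ∑ e, v (Sum.inr e) * -(ga y z 0 e / be y z 0 0 * (yB y 0 *ᵥ E0) i) =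
        -(κ * (yB y 0 *ᵥ E0) i) := by
      rw [hκ, Finset.sum_mul, ← Finset.sum_neg_distrib]
      apply Finset.sum_congr rfl
      intro e _
      ring
    rw [h61] at h6
    rw [Matrix.mulVec_sub, Matrix.mulVec_smul, Matrix.mulVec_smul, Pi.sub_apply, Pi.smul_apply,
      Pi.smul_apply, smul_eq_mul, smul_eq_mul, sub_eq_add_neg]
    exact h6
  have h6 := eq_zero_of_det H.h0 h5
  have h7 : v (Sum.inl 1) = 0 := by
    have := congrFun h6 1
    simpa [u12] using this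
  have h8 : κ = 0 := by
    have := congrFun h6 0
    rw [h7] at this
    simpa using this
  -- the lowest block
  have h9 : ∀ e, v (Sum.inr e) = 0 := by
    rw [h7, zero_smul, zero_add] at hv
    intro e
    have h10 := congrFun hv (Sum.inr (Sum.inr e))
    rw [Finset.sum_apply] at h10
    have h11 : ∀ e', (v (Sum.inr e') • wE y z e') (Sum.inr (Sum.inr e)) =
        v (Sum.inr e') * (Pi.single e' 1 : Fin k → ℂ) e -
        (v (Sum.inr e') * (ga y z 0 e' / be y z 0 0)) *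
          (w23 y z (Sum.inr (Sum.inr e)) / ((rh y).det * (yB y 4).det)) := by
      intro e'
      unfold wE
      rw [Pi.smul_apply, Pi.sub_apply, Pi.sub_apply, Pi.smul_apply, Pi.smul_apply]
      show v (Sum.inr e') * ((Pi.single e' 1 : Fin k → ℂ) e - (1 / (rh y).det) * 0 - _ * _) = _
      have h1 := H.hρ
      have h2 := H.h4
      have h3 := H.b00
      field_simp
      ring
    simp only [h11] at h10
    rw [Finset.sum_sub_distrib, ← Finset.sum_mul, ← hκ, h8, zero_mul, sub_zero] at h10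
    rw [Finset.sum_eq_single e] at h10
    · simpa using h10
    · intro e' _ he
      rw [Pi.single_eq_of_ne (Ne.symm he), mul_zero]
    · intro h
      exact absurd (Finset.mem_univ _) h
  funext i
  rcases i with i | e
  · fin_cases i
    · exact h2
    · exact h7
    · exact h3
    · exact h4
  · exact h9 e

theorem mem_of_hyp (x : YT k ⊕ ST k → ℂ) (H : Hyp (x ∘ Sum.inl) (x ∘ Sum.inr)) : x ∈ OrbB k := by
  set y := x ∘ Sum.inl with hy
  set z := x ∘ Sum.inr with hz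
  refine ⟨_, _, _, _, _, inv1 y z, inv2 H, inv3 H, inv4 H, inv5 H, ?_, ?_, ?_, ?_⟩
  · rw [mul_cM]
    ext i j
    rw [cM_apply, Matrix.mul_apply, Fintype.sum_sum_type, Fin.sum_univ_four]
    simp only [N12, cM_apply, Matrix.fromRows_apply_inl, Matrix.fromRows_apply_inr, Sum.elim_inl,
      Matrix.zero_apply, mul_zero, Finset.sum_const_zero, add_zero]
    rw [← hy]
    fin_cases j
    · show (x12 y *ᵥ E0) i = _
      generalize x12 y *ᵥ E0 = c0
      simp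
    · show (x12 y *ᵥ u12 y z) i = _
      generalize x12 y *ᵥ u12 y z = c1
      simp
  · rw [mul_cM]
    ext i j
    rw [cM_apply, Matrix.mul_apply, Fin.sum_univ_four]
    rcases j with j | e
    · have h0 := F1 H
      have h1 := x23_mid' (y := y) (z := z) (av y E0)
      have h2 := F3 (y := y) (z := z)
      fin_cases j
      · show (x23 y z *ᵥ (x12 y *ᵥ E0)) i = _
        generalize x23 y z *ᵥ (x12 y *ᵥ E0) = c0
        simp [N23, cM_apply]
      · show (x23 y z *ᵥ (x12 y *ᵥ u12 y z)) i = _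
        rw [h0]
        simp [N23, cM_apply]
      · show (x23 y z *ᵥ mid (av y E0)) i = _
        rw [h1]
        generalize pv y (av y E0) = c1
        simp [N23, cM_apply]
      · show (x23 y z *ᵥ w23 y z) i = _
        rw [h2]
        generalize nv y (be y z *ᵥ E0) = c2
        simp [N23, cM_apply]
    · show (x23 y z *ᵥ wE y z e) i = _
      rw [F7 H e]
      simp [N23, cM_apply]
  · rw [mul_cM]
    ext i j
    rw [cM_apply, Matrix.mul_apply, Fin.sum_univ_four]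
    fin_cases j
    · show (x34 y z *ᵥ (x23 y z *ᵥ (x12 y *ᵥ E0))) i = _
      generalize x34 y z *ᵥ (x23 y z *ᵥ (x12 y *ᵥ E0)) = c0
      simp [N34, cM_apply]
    · show (x34 y z *ᵥ pv y (av y E0)) i = _
      generalize x34 y z *ᵥ pv y (av y E0) = c0
      simp [N34, cM_apply]
    · show (x34 y z *ᵥ (nv y (be y z *ᵥ E0))) i = _
      rw [F4 H]
      simp [N34, cM_apply]
    · show (x34 y z *ᵥ v34 y z) i = _
      generalize x34 y z *ᵥ v34 y z = c0
      simp [N34, cM_apply]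
  · rw [mul_cM]
    ext i j
    rw [cM_apply, Matrix.mul_apply, Fin.sum_univ_two]
    fin_cases j
    · show (x45 y *ᵥ (x34 y z *ᵥ (x23 y z *ᵥ (x12 y *ᵥ E0)))) i = _
      rw [F5 H]
      simp [N45, cM_apply]
    · show (x45 y *ᵥ (x34 y z *ᵥ pv y (av y E0))) i = _
      rw [Y_pv]
      generalize ep y z *ᵥ E0 = c0
      simp [N45, cM_apply]
    · show (x45 y *ᵥ (x34 y z *ᵥ v34 y z)) i = _
      rw [F6 H]
      simp [N45, cM_apply]
    · show (x45 y *ᵥ t45 y) i = _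
      rw [x45_t45]
      generalize (yB y 7).det • E1 = c0
      simp [N45, cM_apply]

end

end Dom

theorem mem_orbB (k : ℕ) (x : YT k ⊕ ST k → ℂ)
    (h0 : (yB (x ∘ Sum.inl) 0).det ≠ 0) (h4 : (yB (x ∘ Sum.inl) 4).det ≠ 0)
    (h7 : (yB (x ∘ Sum.inl) 7).det ≠ 0) (hρ : (rh (x ∘ Sum.inl)).det ≠ 0)
    (hu : ∀ u, sF (x ∘ Sum.inl) (x ∘ Sum.inr) (uIdx k u) ≠ 0)
    (hq : ∀ j, quadAll (sF (x ∘ Sum.inl) (x ∘ Sum.inr)) j = 0) : x ∈ OrbB k := by
  have hq8 : ∀ j : Fin 8, quad (sF (x ∘ Sum.inl) (x ∘ Sum.inr)) j = 0 := by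
    intro j
    have := hq (Fin.castAdd k j)
    unfold quadAll at this
    rwa [Fin.addCases_left] at this
  have hqe : ∀ e : Fin k, quadE (sF (x ∘ Sum.inl) (x ∘ Sum.inr)) e = 0 := by
    intro e
    have := hq (Fin.natAdd 8 e)
    unfold quadAll at this
    rwa [Fin.addCases_right] at this
  apply Dom.mem_of_hyp
  exact
    { h0 := h0
      h4 := h4
      h7 := h7
      hρ := hρ
      a00 := hu (Sum.inl 0)
      a01 := hu (Sum.inl 1)
      a10 := hu (Sum.inl 2)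
      b00 := hu (Sum.inl 3)
      b10 := hu (Sum.inl 4)
      e00 := hu (Sum.inl 5)
      e10 := hu (Sum.inl 6)
      d00 := hu (Sum.inl 7)
      q0 := hq8 0
      q1 := hq8 1
      q2 := hq8 2
      q3 := hq8 3
      q4 := hq8 4
      q5 := hq8 5
      q6 := hq8 6
      q7 := hq8 7
      qe := fun e => hqe e }

namespace Dom

/-- the solution of the quadrics with given free coordinates -/
def sol {k : ℕ} (u : UT k → ℂ) : ST k → ℂ :=
  Sum.elim (fun a => (![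
    !![u (Sum.inl 0), u (Sum.inl 1); u (Sum.inl 2), u (Sum.inl 1) * u (Sum.inl 2) / u (Sum.inl 0)],
    !![u (Sum.inl 3), u (Sum.inl 1) * u (Sum.inl 3) / u (Sum.inl 0);
      u (Sum.inl 4), u (Sum.inl 1) * u (Sum.inl 4) / u (Sum.inl 0)],
    !![u (Sum.inl 5), -(u (Sum.inl 5) * u (Sum.inl 0) / u (Sum.inl 2));
      u (Sum.inl 6), -(u (Sum.inl 6) * u (Sum.inl 0) / u (Sum.inl 2))],
    !![u (Sum.inl 7), -(u (Sum.inl 7) * u (Sum.inl 3) / u (Sum.inl 4));
      u (Sum.inl 6) * u (Sum.inl 7) / u (Sum.inl 5),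
      -(u (Sum.inl 6) * u (Sum.inl 7) / u (Sum.inl 5) * u (Sum.inl 3) / u (Sum.inl 4))]] :
        Fin 4 → M2) a.1 a.2.1 a.2.2)
    (fun a => (![fun e => u (Sum.inr e), fun e => u (Sum.inl 4) * u (Sum.inr e) / u (Sum.inl 3)] :
      Fin 2 → Fin k → ℂ) a.1 a.2)

theorem sol_uIdx {k : ℕ} (u : UT k → ℂ) (v : UT k) : sol u (uIdx k v) = u v := by
  rcases v with v | e
  · fin_cases v <;> rfl
  · rfl

theorem sol_quad {k : ℕ} (u : UT k → ℂ) (hu : ∀ v, u v ≠ 0) (j : Fin (8 + k)) :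
    quadAll (sol u) j = 0 := by
  have h0 := hu (Sum.inl 0)
  have h2 := hu (Sum.inl 2)
  have h3 := hu (Sum.inl 3)
  have h4 := hu (Sum.inl 4)
  have h5 := hu (Sum.inl 5)
  refine Fin.addCases ?_ ?_ j
  · intro j
    unfold quadAll
    rw [Fin.addCases_left]
    have q0 : quad (sol u) 0 = u (Sum.inl 0) * (u (Sum.inl 1) * u (Sum.inl 2) / u (Sum.inl 0)) -
      u (Sum.inl 1) * u (Sum.inl 2) := rfl
    have q1 : quad (sol u) 1 = u (Sum.inl 0) * (u (Sum.inl 1) * u (Sum.inl 3) / u (Sum.inl 0)) -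
      u (Sum.inl 1) * u (Sum.inl 3) := rfl
    have q2 : quad (sol u) 2 = u (Sum.inl 0) * (u (Sum.inl 1) * u (Sum.inl 4) / u (Sum.inl 0)) -
      u (Sum.inl 1) * u (Sum.inl 4) := rfl
    have q3 : quad (sol u) 3 = -(u (Sum.inl 5) * u (Sum.inl 0) / u (Sum.inl 2)) * u (Sum.inl 2) +
      u (Sum.inl 5) * u (Sum.inl 0) := rfl
    have q4 : quad (sol u) 4 = -(u (Sum.inl 6) * u (Sum.inl 0) / u (Sum.inl 2)) * u (Sum.inl 2) +
      u (Sum.inl 6) * u (Sum.inl 0) := rfl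
    have q5 : quad (sol u) 5 = -(u (Sum.inl 7) * u (Sum.inl 3) / u (Sum.inl 4)) * u (Sum.inl 4) +
      u (Sum.inl 7) * u (Sum.inl 3) := rfl
    have q6 : quad (sol u) 6 = u (Sum.inl 5) * (u (Sum.inl 6) * u (Sum.inl 7) / u (Sum.inl 5)) -
      u (Sum.inl 6) * u (Sum.inl 7) := rfl
    have q7 : quad (sol u) 7 = u (Sum.inl 6) * u (Sum.inl 7) / u (Sum.inl 5) * u (Sum.inl 3) +
      -(u (Sum.inl 6) * u (Sum.inl 7) / u (Sum.inl 5) * u (Sum.inl 3) / u (Sum.inl 4)) *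
        u (Sum.inl 4) := rfl
    fin_cases j
    · show quad (sol u) 0 = 0
      rw [q0]; field_simp; ring
    · show quad (sol u) 1 = 0
      rw [q1]; field_simp; ring
    · show quad (sol u) 2 = 0
      rw [q2]; field_simp; ring
    · show quad (sol u) 3 = 0
      rw [q3]; field_simp; ring
    · show quad (sol u) 4 = 0
      rw [q4]; field_simp; ring
    · show quad (sol u) 5 = 0
      rw [q5]; field_simp; ring
    · show quad (sol u) 6 = 0
      rw [q6]; field_simp; ring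
    · show quad (sol u) 7 = 0
      rw [q7]; field_simp; ring
  · intro e
    unfold quadAll
    rw [Fin.addCases_right]
    have q : quadE (sol u) e = u (Sum.inl 3) * (u (Sum.inl 4) * u (Sum.inr e) / u (Sum.inl 3)) -
      u (Sum.inl 4) * u (Sum.inr e) := rfl
    rw [q]
    field_simp
    ring

theorem yB_yBase (k : ℕ) (b : Fin 8) (hb : b = 0 ∨ b = 2 ∨ b = 4 ∨ b = 7) :
    yB (yBase k : YT k → ℂ) b = 1 := by
  ext i j
  show (if (b = 0 ∨ b = 2 ∨ b = 4 ∨ b = 7) ∧ i = j then (1 : ℂ) else 0) = _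
  rw [Matrix.one_apply]
  simp only [hb, true_and]

theorem yB_yBase' (k : ℕ) (b : Fin 8) (hb : ¬ (b = 0 ∨ b = 2 ∨ b = 4 ∨ b = 7)) :
    yB (yBase k : YT k → ℂ) b = 0 := by
  ext i j
  show (if (b = 0 ∨ b = 2 ∨ b = 4 ∨ b = 7) ∧ i = j then (1 : ℂ) else 0) = _
  simp only [hb, false_and, if_false, Matrix.zero_apply]

/-- the polynomial of a determinant -/
theorem eval_det_yB {k : ℕ} (y : YT k → ℂ) (b : Fin 8) :
    eval y (yB (fun i => (X i : O (YT k))) b).det = (yB y b).det := by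
  rw [RingHom.map_det]
  congr 1
  ext i j
  simp [yB]

theorem eval_det_rh {k : ℕ} (y : YT k → ℂ) :
    eval y (rh (fun i => (X i : O (YT k)))).det = (rh y).det := by
  rw [RingHom.map_det]
  congr 1
  ext i j
  simp [rh, yB, Matrix.mul_apply]

theorem det_yB_ne (k : ℕ) (b : Fin 8) (hb : b = 0 ∨ b = 2 ∨ b = 4 ∨ b = 7) :
    (yB (fun i => (X i : O (YT k))) b).det ≠ 0 := by
  intro h
  have h1 := eval_det_yB (yBase k : YT k → ℂ) b
  rw [h, map_zero, yB_yBase k b hb, Matrix.det_one] at h1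
  exact zero_ne_one h1

theorem det_rh_ne (k : ℕ) : (rh (fun i => (X i : O (YT k)))).det ≠ 0 := by
  intro h
  have h1 := eval_det_rh (yBase k : YT k → ℂ)
  have h2 : rh (yBase k : YT k → ℂ) = 1 := by
    unfold rh
    rw [yB_yBase k 4 (by simp), yB_yBase k 2 (by simp), yB_yBase' k 5 (by decide), mul_one,
      zero_mul, add_zero]
  rw [h, map_zero, h2, Matrix.det_one] at h1
  exact zero_ne_one h1

theorem exists_ne {σ : Type} (F : O σ) (hF : F ≠ 0) : ∃ x : σ → ℂ, eval x F ≠ 0 := by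
  by_contra h
  push Not at h
  exact hF (MvPolynomial.funext (by simpa using h))

end Dom

theorem orbB_dom (k : ℕ) (F : O (YT k ⊕ UT k)) (hF : F ≠ 0) :
    aeval (Sum.elim (fun i => X (Sum.inl i)) (fun u => sO k (uIdx k u)) :
      YT k ⊕ UT k → O (YT k ⊕ ST k)) F ∉ vanishingIdeal ℂ (OrbB k) := by
  classical
  set R : O (YT k) →ₐ[ℂ] O (YT k ⊕ UT k) := rename Sum.inl with hR
  have hinj : ∀ p : O (YT k), p ≠ 0 → R p ≠ 0 := by
    intro p hp h
    exact hp (rename_injective Sum.inl Sum.inl_injective (h.trans (map_zero R).symm))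
  have hev : ∀ (x : YT k ⊕ UT k → ℂ) p, eval x (R p) = eval (x ∘ Sum.inl) p := by
    intro x p
    rw [hR, eval_rename]
  set c := stdChart k with hc
  have hprod : F * R c.T.det * R (yB (fun i => (X i : O (YT k))) 0).det *
      R (yB (fun i => (X i : O (YT k))) 4).det * R (yB (fun i => (X i : O (YT k))) 7).det *
      R (rh (fun i => (X i : O (YT k)))).det * ∏ u : UT k, X (Sum.inr u) ≠ 0 := by
    refine mul_ne_zero (mul_ne_zero (mul_ne_zero (mul_ne_zero (mul_ne_zero (mul_ne_zero hF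
      (hinj _ c.hT)) (hinj _ (Dom.det_yB_ne k 0 (by simp)))) (hinj _ (Dom.det_yB_ne k 4 (by simp))))
      (hinj _ (Dom.det_yB_ne k 7 (by simp)))) (hinj _ (Dom.det_rh_ne k))) ?_
    exact Finset.prod_ne_zero_iff.2 fun u _ => X_ne_zero _
  obtain ⟨x0, hx0⟩ := Dom.exists_ne _ hprod
  simp only [map_mul, hev, map_prod, eval_X, mul_ne_zero_iff, Finset.prod_ne_zero_iff] at hx0
  obtain ⟨⟨⟨⟨⟨⟨hF0, hT0⟩, hd0⟩, hd4⟩, hd7⟩, hdr⟩, hu0⟩ := hx0
  set y : YT k → ℂ := x0 ∘ Sum.inl with hy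
  set u : UT k → ℂ := x0 ∘ Sum.inr with hu
  rw [Dom.eval_det_yB] at hd0 hd4 hd7
  rw [Dom.eval_det_rh] at hdr
  -- solve for z
  set Ty : Matrix (ST k) (ST k) ℂ := c.T.map (eval y) with hTy
  have hdet : IsUnit Ty.det := by
    rw [isUnit_iff_ne_zero, hTy]
    have := RingHom.map_det (eval y) c.T
    rw [RingHom.mapMatrix_apply] at this
    rw [← this]
    exact hT0
  set z : ST k → ℂ := Ty⁻¹.mulVec (fun l => Dom.sol u l - eval y (c.t l)) with hz
  have hTz : Ty.mulVec z = fun l => Dom.sol u l - eval y (c.t l) := by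
    rw [hz, Matrix.mulVec_mulVec, Matrix.mul_nonsing_inv _ hdet, Matrix.one_mulVec]
  set x : YT k ⊕ ST k → ℂ := Sum.elim y z with hx
  have hxl : x ∘ Sum.inl = y := rfl
  have hxr : x ∘ Sum.inr = z := rfl
  have hs : sF (x ∘ Sum.inl) (x ∘ Sum.inr) = Dom.sol u := by
    funext l
    rw [← eval_sO, ← stdChart_s, ← hc, c.hs]
    have h1 := congrFun hTz l
    simp only [Matrix.mulVec, dotProduct] at h1
    rw [map_add, map_sum, eval_rename, hxl]
    have h2 : ∀ m, eval x (rename Sum.inl (c.T l m) * X (Sum.inr m)) = Ty l m * z m := by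
      intro m
      rw [map_mul, eval_rename, hxl, eval_X, hTy, Matrix.map_apply]
      rfl
    simp only [h2]
    rw [h1]
    ring
  have hmem : x ∈ OrbB k := by
    apply mem_orbB k x hd0 hd4 hd7 hdr
    · intro v
      rw [hs, Dom.sol_uIdx]
      exact hu0 v (Finset.mem_univ _)
    · intro j
      rw [hs]
      exact Dom.sol_quad u (fun v => hu0 v (Finset.mem_univ _)) j
  intro hvan
  rw [mem_vanishingIdeal_iff] at hvan
  have h3 := hvan x hmem
  apply hF0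
  rw [← h3]
  have h4 : ∀ G : O (YT k ⊕ UT k), eval x0 G = aeval x (aeval (Sum.elim (fun i => X (Sum.inl i))
      (fun u => sO k (uIdx k u)) : YT k ⊕ UT k → O (YT k ⊕ ST k)) G) := by
    intro G
    induction G using MvPolynomial.induction_on with
    | C a => simp
    | add p q hp hq => rw [map_add, map_add, map_add, hp, hq]
    | mul_X p i hp =>
      rw [map_mul, map_mul, map_mul, hp, aeval_X, eval_X]
      congr 1
      rcases i with i | v
      · rw [Sum.elim_inl, aeval_X]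
        rfl
      · rw [Sum.elim_inr]
        have h5 := eval_sO k x (uIdx k v)
        rw [hs, Dom.sol_uIdx] at h5
        exact h5.symm
  exact h4 F

end

end Adams
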