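import Pool.Agent.MP_fe6ac3_nt.KModel

/-!
# [ADAMS-FMOD] The Fourier model

For a nonzero polynomial `Δ` in the dual variables `η_l` the function field `ℂ(y, η)` is a model:
`∂/∂s_l` acts as multiplication by `η_l = X (inr l)`, `s_l` acts as `-∇_l`,
`∇_l f = ∂f/∂η_l - ½ (∂Δ/∂η_l / Δ) f`, `ℂ(y)` acts by multiplication (`jL`), `∂/∂y_j` acts as
`pd (inl j)`.

Blueprint.
* `nab_comm` : flatness, a computation with `pd_comm`, `pd_mul`, `pd_inv`.
* `evalComm`: a ring homomorphism `MvPolynomial S L →+* E` from a commuting family in an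
  `L`-algebra `E` (`Algebra.adjoinCommRingOfComm` + `MvPolynomial.aeval` + `Subalgebra.val`); take
  `L = K Y`, `E = Module.End (K Y) (K (Y ⊕ S))` (module structure through `jL`; `nab` is
  `ℂ(y)`-linear by `pd_inr_jL`), and compose with `Module.End → AddMonoid.End`.  Any other
  construction of `ρ` with the stated values on `C a`, `X l` is fine.
* the axioms `δρ`, `δyρ` : induction on the polynomial, from the cases `C a` and `X l`:
  `η_l (-∇_m f) = δ_lm f + (-∇_m)(η_l f)`.
* `fModel_inj` ([ADAMS-FINJ]).  Let `∇_l f = 0`, `f ≠ 0`, `D = rename inr Δ`, `' = ∂/∂η_l`.  Then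
  `(f²/D)' = 0`.  Write `f²/D = c₁/c₂` with `c₁, c₂` coprime polynomials; `c₁' c₂ = c₁ c₂'` gives
  `c₂ ∣ c₂'`, so `c₂' = 0` (degree in `η_l`), `c₁' = 0`.  `g = f c₂` satisfies `g² = c₁ c₂ D`, so `g` is
  integral over the polynomial ring, which is integrally closed: `g` is a polynomial, of degree `≤ 1`
  in `η_l` (`2 deg g = deg (c₁ c₂ D) ≤ 2`), so `g'' = 0`.  With `c = c₁ c₂`: `c D' = 2 g g'`,
  `c D'' = 2 g'²`, so `c² (D'² - 2 D D'') = 0`, contradiction.
-/

open MvPolynomial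

namespace Adams

noncomputable section

/-- evaluation of polynomials at commuting endomorphisms -/
theorem exists_evalComm {L V S : Type} [Field L] [AddCommGroup V] [Module L V]
    (x : S → Module.End L V) (hx : ∀ l m, x l * x m = x m * x l) :
    ∃ φ : MvPolynomial S L →+* Module.End L V,
      (∀ a, φ (C a) = algebraMap L (Module.End L V) a) ∧ ∀ l, φ (X l) = x l := by
  classical
  have hcomm : ∀ a ∈ Set.range x, ∀ b ∈ Set.range x, a * b = b * a := by
    rintro _ ⟨l, rfl⟩ _ ⟨m, rfl⟩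
    exact hx l m
  let A := Algebra.adjoin L (Set.range x)
  have hA : IsMulCommutative A := Algebra.isMulCommutative_adjoin L hcomm
  let instA : CommRing A :=
    { (inferInstance : Ring A) with
      mul_comm := fun a b => hA.is_comm.comm a b }
  let y : S → A := fun l => ⟨x l, Algebra.subset_adjoin ⟨l, rfl⟩⟩
  let g : L →+* A := algebraMap L A
  let e : A →+* Module.End L V := A.val.toRingHom
  refine ⟨e.comp (eval₂Hom g y), ?_, ?_⟩
  · intro a
    rw [RingHom.comp_apply, coe_eval₂Hom, eval₂_C]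
    rfl
  · intro l
    rw [RingHom.comp_apply, coe_eval₂Hom, eval₂_X]
    rfl

section Half

section finj

variable {σ : Type}

theorem finj_degreeOf_lt (i : σ) (p : O σ) (h : degreeOf i p ≠ 0) :
    degreeOf i (pderiv i p) < degreeOf i p := by
  classical
  rw [degreeOf_lt_iff (Nat.pos_of_ne_zero h)]
  intro m hm
  rw [mem_support_iff, coeff_pderiv] at hm
  have h1 : coeff (m + Finsupp.single i 1) p ≠ 0 := left_ne_zero_of_mul hm
  have h2 := monomial_le_degreeOf i (mem_support_iff.2 h1)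
  simp only [Finsupp.coe_add, Pi.add_apply, Finsupp.single_eq_same] at h2
  omega

theorem finj_degreeOf_zero (i : σ) (p : O σ) (h : pderiv i p = 0) : degreeOf i p = 0 := by
  classical
  rw [← Nat.le_zero, degreeOf_le_iff]
  intro m hm
  by_contra hmi
  have hmi' : 1 ≤ m i := by omega
  have h1 : m - Finsupp.single i 1 + Finsupp.single i 1 = m := by
    refine tsub_add_cancel_of_le ?_
    rw [Finsupp.single_le_iff]
    exact hmi'
  have h2 := coeff_pderiv (i := i) p (m - Finsupp.single i 1)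
  rw [h, coeff_zero, h1] at h2
  rw [mem_support_iff] at hm
  have h3 : ((((m - Finsupp.single i 1 : σ →₀ ℕ) i : ℕ)) : ℂ) + 1 ≠ 0 := by
    exact Nat.cast_add_one_ne_zero _
  exact mul_ne_zero hm h3 h2.symm

theorem finj_dvd (i : σ) (c : O σ) (hc : c ≠ 0) (h : c ∣ pderiv i c) : pderiv i c = 0 := by
  classical
  by_contra h0
  obtain ⟨k, hk⟩ := h
  have hk0 : k ≠ 0 := by
    rintro rfl
    exact h0 (by rw [hk, mul_zero])
  have h1 := degreeOf_mul_eq (n := i) hc hk0
  rw [← hk] at h1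
  by_cases h2 : degreeOf i c = 0
  · -- then the derivative is zero
    apply h0
    ext m
    rw [coeff_pderiv, coeff_zero]
    have h3 : coeff (m + Finsupp.single i 1) c = 0 := by
      by_contra h4
      have h5 := monomial_le_degreeOf i (mem_support_iff.2 h4)
      simp only [Finsupp.coe_add, Pi.add_apply, Finsupp.single_eq_same] at h5
      omega
    rw [h3, zero_mul]
  · have := finj_degreeOf_lt i c h2
    omega

theorem finj_core (i : σ) (D : O σ) (hD0 : D ≠ 0) (hdeg : degreeOf i D ≤ 2)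
    (hdisc : (pderiv i D) ^ 2 - 2 * D * pderiv i (pderiv i D) ≠ 0)
    (f : K σ) (hf : 2 * ι D * pd i f = ι (pderiv i D) * f) : f = 0 := by
  classical
  by_contra hf0
  have hιD : (ι D : K σ) ≠ 0 := ι_ne_zero hD0
  set h : K σ := f ^ 2 / ι D with hh
  have hh0 : h ≠ 0 := div_ne_zero (pow_ne_zero 2 hf0) hιD
  have hpdh : pd i h = 0 := by
    rw [hh, div_eq_mul_inv, pd_mul, pd_inv i _ hιD, pd_pow, pd_ι]
    have : (2 : ℕ) - 1 = 1 := rfl
    rw [this, pow_one]
    field_simp
    push_cast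
    linear_combination f * hf
  set c₁ : O σ := IsFractionRing.num (O σ) h with hc1
  set c₂ : O σ := (IsFractionRing.den (O σ) h : O σ) with hc2
  have hc20 : c₂ ≠ 0 := nonZeroDivisors.ne_zero (IsFractionRing.den (O σ) h).2
  have hιc2 : (ι c₂ : K σ) ≠ 0 := ι_ne_zero hc20
  have hrep : h = ι c₁ / ι c₂ := by
    have := IsFractionRing.mk'_num_den (O σ) h
    rw [IsFractionRing.mk'_eq_div] at this
    exact this.symm
  have hrel : IsRelPrime c₁ c₂ := IsFractionRing.num_den_reduced (O σ) h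
  have hc10 : c₁ ≠ 0 := by
    intro h0
    rw [hrep, h0] at hh0
    simp at hh0
  have hder : pderiv i c₁ * c₂ = c₁ * pderiv i c₂ := by
    rw [hrep, pd_frac i _ _ hc20, div_eq_zero_iff] at hpdh
    rcases hpdh with h1 | h1
    · apply ι_injective (σ := σ)
      rw [map_mul, map_mul]
      linear_combination h1
    · exact absurd h1 (pow_ne_zero 2 hιc2)
  have hd2 : pderiv i c₂ = 0 := by
    apply finj_dvd i c₂ hc20
    exact hrel.symm.dvd_of_dvd_mul_left ⟨pderiv i c₁, by rw [← hder]; ring⟩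
  have hd1 : pderiv i c₁ = 0 := by
    rw [hd2, mul_zero] at hder
    exact (mul_eq_zero.1 hder).resolve_right hc20
  have hg2 : (f * ι c₂) ^ 2 = (ι (c₁ * c₂ * D) : K σ) := by
    have h1 : f ^ 2 = h * ι D := by rw [hh]; field_simp
    rw [mul_pow, h1, hrep, map_mul, map_mul]
    field_simp
  obtain ⟨g, hg⟩ : ∃ g : O σ, ι g = f * ι c₂ := by
    refine IsIntegrallyClosed.exists_algebraMap_eq_of_isIntegral_pow (n := 2) (by norm_num) ?_
    rw [hg2]
    exact isIntegral_algebraMap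
  have hgD : g ^ 2 = c₁ * c₂ * D := by
    apply ι_injective (σ := σ)
    rw [map_pow, hg, hg2]
  have hc : c₁ * c₂ ≠ 0 := mul_ne_zero hc10 hc20
  have hg0 : g ≠ 0 := by
    rintro rfl
    have := mul_ne_zero hc hD0
    rw [← hgD] at this
    simp at this
  have hdg : degreeOf i g ≤ 1 := by
    have h1 : degreeOf i (g * g) = degreeOf i g + degreeOf i g := degreeOf_mul_eq hg0 hg0
    have h2 : degreeOf i (c₁ * c₂ * D) = degreeOf i c₁ + degreeOf i c₂ + degreeOf i D := by
      rw [degreeOf_mul_eq hc hD0, degreeOf_mul_eq hc10 hc20]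
    rw [← pow_two, hgD, h2, finj_degreeOf_zero i c₁ hd1, finj_degreeOf_zero i c₂ hd2] at h1
    omega
  have hg'' : pderiv i (pderiv i g) = 0 := by
    have h1 : degreeOf i (pderiv i g) = 0 := by
      by_cases h2 : degreeOf i g = 0
      · have : pderiv i g = 0 := by
          ext m
          rw [coeff_pderiv, coeff_zero]
          have h3 : coeff (m + Finsupp.single i 1) g = 0 := by
            by_contra h4
            have h5 := monomial_le_degreeOf i (mem_support_iff.2 h4)
            simp only [Finsupp.coe_add, Pi.add_apply, Finsupp.single_eq_same] at h5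
            omega
          rw [h3, zero_mul]
        rw [this]
        simp
      · have := finj_degreeOf_lt i g h2
        omega
    ext m
    rw [coeff_pderiv, coeff_zero]
    have h3 : coeff (m + Finsupp.single i 1) (pderiv i g) = 0 := by
      by_contra h4
      have h5 := monomial_le_degreeOf i (mem_support_iff.2 h4)
      simp only [Finsupp.coe_add, Pi.add_apply, Finsupp.single_eq_same] at h5
      omega
    rw [h3, zero_mul]
  have e1 : 2 * g * pderiv i g = c₁ * c₂ * pderiv i D := by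
    have := congrArg (pderiv i) hgD
    rw [pow_two] at this
    simp only [Derivation.leibniz, smul_eq_mul, hd1, hd2] at this
    linear_combination this
  have e2 : 2 * (pderiv i g) ^ 2 = c₁ * c₂ * pderiv i (pderiv i D) := by
    have := congrArg (pderiv i) e1
    simp only [Derivation.leibniz, smul_eq_mul, hd1, hd2, hg''] at this
    have h2 : pderiv i (2 : O σ) = 0 := by
      have : (2 : O σ) = C (2 : ℂ) := (map_ofNat (C : ℂ →+* O σ) 2).symm
      rw [this, pderiv_C]
    rw [h2] at this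
    linear_combination this
  have e3 : (c₁ * c₂) ^ 2 * ((pderiv i D) ^ 2 - 2 * D * pderiv i (pderiv i D)) = 0 := by
    linear_combination (-(c₁ * c₂ * pderiv i D) - 2 * g * pderiv i g) * e1 + 2 * (c₁ * c₂ * D) * e2
      + 4 * (pderiv i g) ^ 2 * hgD
  exact (mul_ne_zero (pow_ne_zero 2 hc) hdisc) e3

end finj

variable {Y S : Type}

theorem rename_inr_ne_zero {Δ : O S} (hΔ : Δ ≠ 0) :
    (ι (rename Sum.inr Δ) : K (Y ⊕ S)) ≠ 0 := by
  apply ι_ne_zero
  intro h
  apply hΔ
  exact rename_injective _ Sum.inr_injective (by rw [h, map_zero])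

theorem pd_half (i : Y ⊕ S) : pd i (1 / 2 : K (Y ⊕ S)) = 0 := by
  have h2 : (2 : K (Y ⊕ S)) ≠ 0 := two_ne_zero
  have h : pd i (2 : K (Y ⊕ S)) = 0 := by
    have := pd_add i (1 : K (Y ⊕ S)) 1
    rw [one_add_one_eq_two, pd_one, add_zero] at this
    exact this
  rw [one_div, pd_inv i _ h2, h, neg_zero, zero_div]

/-- derivatives with respect to `y` kill functions of `η` -/
theorem pd_inl_renameInr (j : Y) (Δ : O S) :
    pd (Sum.inl j) (ι (rename Sum.inr Δ) : K (Y ⊕ S)) = 0 := by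
  classical
  rw [pd_ι]
  have h : pderiv (Sum.inl j) (rename (R := ℂ) (Sum.inr : S → Y ⊕ S) Δ) = 0 := by
    induction Δ using MvPolynomial.induction_on with
    | C a => rw [rename_C, pderiv_C]
    | add p q hp hq => rw [map_add, map_add, hp, hq, add_zero]
    | mul_X p m hp =>
      rw [map_mul, Derivation.leibniz, hp, rename_X, pderiv_X_of_ne (by simp), smul_zero,
        smul_zero, add_zero]
  rw [h, map_zero]

end Half

variable {Y S : Type} [Fintype Y] [DecidableEq Y] [Fintype S] [DecidableEq S]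

/-- the connection `∇_l = ∂/∂η_l - ½ ∂ log Δ/∂η_l` -/
def nab (Δ : O S) (l : S) (f : K (Y ⊕ S)) : K (Y ⊕ S) :=
  pd (Sum.inr l) f
    - (1 / 2) * (pd (Sum.inr l) (ι (rename Sum.inr Δ)) / ι (rename Sum.inr Δ)) * f

omit [Fintype Y] [DecidableEq Y] [Fintype S] [DecidableEq S] in
theorem nab_add (Δ : O S) (l : S) (f g : K (Y ⊕ S)) :
    nab Δ l (f + g) = nab Δ l f + nab Δ l g := by
  unfold nab
  rw [pd_add]
  ring

omit [Fintype Y] [DecidableEq Y] [Fintype S] [DecidableEq S] in
theorem nab_zero (Δ : O S) (l : S) : nab Δ l (0 : K (Y ⊕ S)) = 0 := by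
  unfold nab
  rw [pd_zero]
  ring

omit [Fintype Y] [DecidableEq Y] [Fintype S] [DecidableEq S] in
theorem nab_neg (Δ : O S) (l : S) (f : K (Y ⊕ S)) : nab Δ l (-f) = -nab Δ l f := by
  have := nab_add Δ l f (-f)
  rw [add_neg_cancel, nab_zero] at this
  exact eq_neg_of_add_eq_zero_right this.symm

omit [Fintype Y] [DecidableEq Y] [Fintype S] [DecidableEq S] in
theorem nab_mul (Δ : O S) (l : S) (f g : K (Y ⊕ S)) :
    nab Δ l (f * g) = f * nab Δ l g + g * pd (Sum.inr l) f := by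
  unfold nab
  rw [pd_mul]
  ring

omit [Fintype Y] [DecidableEq Y] [Fintype S] [DecidableEq S] in
theorem nab_pd_inl (Δ : O S) (hΔ : Δ ≠ 0) (l : S) (j : Y) (f : K (Y ⊕ S)) :
    pd (Sum.inl j) (nab Δ l f) = nab Δ l (pd (Sum.inl j) f) := by
  have hD : (ι (rename Sum.inr Δ) : K (Y ⊕ S)) ≠ 0 := rename_inr_ne_zero hΔ
  have hD0 := pd_inl_renameInr (S := S) j Δ
  have h3 := pd_comm (Sum.inl j) (Sum.inr l) (ι (rename Sum.inr Δ) : K (Y ⊕ S))
  rw [hD0, pd_zero] at h3
  have h4 := pd_comm (Sum.inl j) (Sum.inr l) f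
  unfold nab
  have h5 : pd (Sum.inl j) (pd (Sum.inr l) (ι (rename Sum.inr Δ)) / ι (rename Sum.inr Δ) :
      K (Y ⊕ S)) = 0 := by
    rw [div_eq_mul_inv, pd_mul, h3, pd_inv _ _ hD, hD0]
    ring
  rw [pd_sub, pd_mul, pd_mul, pd_half, h5, h4]
  ring

omit [Fintype Y] [DecidableEq Y] [Fintype S] [DecidableEq S] in
theorem nab_comm (Δ : O S) (hΔ : Δ ≠ 0) (l m : S) (f : K (Y ⊕ S)) :
    nab Δ l (nab Δ m f) = nab Δ m (nab Δ l f) := by
  have hD : (ι (rename Sum.inr Δ) : K (Y ⊕ S)) ≠ 0 := rename_inr_ne_zero hΔ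
  unfold nab
  set D : K (Y ⊕ S) := ι (rename Sum.inr Δ) with hDdef
  clear_value D
  have h1 := pd_comm (Sum.inr l) (Sum.inr m) f
  have h2 := pd_comm (Sum.inr l) (Sum.inr m) D
  simp only [pd_sub, pd_mul, div_eq_mul_inv, pd_inv _ _ hD, h1, h2]
  rw [← one_div, pd_half, pd_half, pd_one, pd_one]
  field_simp
  ring

/-- the action of `ℂ(y)[s]` on the Fourier model -/
theorem exists_fρ (Δ : O S) (hΔ : Δ ≠ 0) :
    ∃ ρ : MvPolynomial S (K Y) →+* AddMonoid.End (K (Y ⊕ S)),
      (∀ a f, ρ (C a) f = jL a * f) ∧ ∀ l f, ρ (X l) f = -nab Δ l f := by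
  let instM : Module (K Y) (K (Y ⊕ S)) := Module.compHom (K (Y ⊕ S)) (jL (Y := Y) (S := S))
  have hsm : ∀ (a : K Y) (f : K (Y ⊕ S)), a • f = jL a * f := fun a f => rfl
  let x : S → Module.End (K Y) (K (Y ⊕ S)) := fun l =>
    { toFun := fun f => -nab Δ l f
      map_add' := by
        intro f g
        rw [nab_add, neg_add]
      map_smul' := by
        intro a f
        rw [hsm, nab_mul, pd_inr_jL, mul_zero, add_zero, RingHom.id_apply, hsm, mul_neg] }
  have hx : ∀ l m, x l * x m = x m * x l := by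
    intro l m
    apply LinearMap.ext
    intro f
    change -nab Δ l (-nab Δ m f) = -nab Δ m (-nab Δ l f)
    rw [nab_neg, nab_neg, nab_comm Δ hΔ]
  obtain ⟨φ, hφC, hφX⟩ := exists_evalComm x hx
  let ψ : Module.End (K Y) (K (Y ⊕ S)) →+* AddMonoid.End (K (Y ⊕ S)) :=
    { toFun := fun g => g.toAddMonoidHom
      map_one' := rfl
      map_mul' := fun _ _ => rfl
      map_zero' := rfl
      map_add' := fun _ _ => rfl }
  refine ⟨ψ.comp φ, ?_, ?_⟩
  · intro a f
    rw [RingHom.comp_apply, hφC]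
    rfl
  · intro l f
    rw [RingHom.comp_apply, hφX]
    rfl

theorem fρ_C (Δ : O S) (hΔ : Δ ≠ 0) (a : K Y) (f : K (Y ⊕ S)) :
    (exists_fρ (Y := Y) Δ hΔ).choose (C a) f = jL a * f :=
  (exists_fρ (Y := Y) Δ hΔ).choose_spec.1 a f

theorem fρ_X (Δ : O S) (hΔ : Δ ≠ 0) (l : S) (f : K (Y ⊕ S)) :
    (exists_fρ (Y := Y) Δ hΔ).choose (X l) f = -nab Δ l f :=
  (exists_fρ (Y := Y) Δ hΔ).choose_spec.2 l f

/-- the commutation relation of `η_l` with the action of a polynomial -/
theorem fρ_δ (Δ : O S) (hΔ : Δ ≠ 0) (l : S) (p : MvPolynomial S (K Y)) (f : K (Y ⊕ S)) :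
    ι (X (Sum.inr l)) * (exists_fρ (Y := Y) Δ hΔ).choose p f =
      (exists_fρ (Y := Y) Δ hΔ).choose (pderiv l p) f +
        (exists_fρ (Y := Y) Δ hΔ).choose p (ι (X (Sum.inr l)) * f) := by
  have hC := fρ_C (Y := Y) Δ hΔ
  have hX := fρ_X (Y := Y) Δ hΔ
  set ρ := (exists_fρ (Y := Y) Δ hΔ).choose with hρ
  clear_value ρ
  have hadd : ∀ (a b : MvPolynomial S (K Y)) (g : K (Y ⊕ S)), ρ (a + b) g = ρ a g + ρ b g := by
    intro a b g
    rw [map_add]
    rfl
  have hzero : ∀ g : K (Y ⊕ S), ρ 0 g = 0 := by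
    intro g
    rw [map_zero]
    rfl
  have hone : ∀ g : K (Y ⊕ S), ρ 1 g = g := by
    intro g
    rw [map_one]
    rfl
  have hmul : ∀ (a b : MvPolynomial S (K Y)) (g : K (Y ⊕ S)), ρ (a * b) g = ρ a (ρ b g) := by
    intro a b g
    rw [map_mul]
    rfl
  induction p using MvPolynomial.induction_on generalizing f with
  | C a =>
    rw [pderiv_C, hzero, hC, hC]
    ring
  | add p q hp hq =>
    have e : pderiv l (p + q) = pderiv l p + pderiv l q := map_add _ _ _
    rw [e, hadd, hadd, hadd, mul_add, hp, hq]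
    ring
  | mul_X p m hp =>
    have hl : pderiv l (p * X m) = pderiv l p * X m + p * pderiv l (X m) := by
      rw [Derivation.leibniz, smul_eq_mul, smul_eq_mul]
      ring
    rw [hl, hadd, hmul, hp, hmul, hmul, hmul, hX, hX]
    have key : ι (X (Sum.inr l)) * -nab Δ m f =
        ρ (pderiv l (X m)) f + -nab Δ m (ι (X (Sum.inr l)) * f) := by
      rw [nab_mul, pd_X]
      by_cases hml : m = l
      · subst hml
        rw [pderiv_X_self, hone, if_pos rfl]
        ring
      · rw [pderiv_X_of_ne (fun h => hml h), hzero,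
          if_neg (fun h => hml (Sum.inr_injective h))]
        ring
    rw [key, map_add]
    ring

/-- the commutation relation of `∂/∂y_j` with the action of a polynomial -/
theorem fρ_δy (Δ : O S) (hΔ : Δ ≠ 0) (j : Y) (p : MvPolynomial S (K Y)) (f : K (Y ⊕ S)) :
    pd (Sum.inl j) ((exists_fρ (Y := Y) Δ hΔ).choose p f) =
      (exists_fρ (Y := Y) Δ hΔ).choose (dY j p) f +
        (exists_fρ (Y := Y) Δ hΔ).choose p (pd (Sum.inl j) f) := by
  have hC := fρ_C (Y := Y) Δ hΔ
  have hX := fρ_X (Y := Y) Δ hΔ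
  set ρ := (exists_fρ (Y := Y) Δ hΔ).choose with hρ
  clear_value ρ
  have hadd : ∀ (a b : MvPolynomial S (K Y)) (g : K (Y ⊕ S)), ρ (a + b) g = ρ a g + ρ b g := by
    intro a b g
    rw [map_add]
    rfl
  have hzero : ∀ g : K (Y ⊕ S), ρ 0 g = 0 := by
    intro g
    rw [map_zero]
    rfl
  have hone : ∀ g : K (Y ⊕ S), ρ 1 g = g := by
    intro g
    rw [map_one]
    rfl
  have hmul : ∀ (a b : MvPolynomial S (K Y)) (g : K (Y ⊕ S)), ρ (a * b) g = ρ a (ρ b g) := by
    intro a b g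
    rw [map_mul]
    rfl
  induction p using MvPolynomial.induction_on generalizing f with
  | C a =>
    rw [dY_C, hC, hC, hC, pd_mul, pd_inl_jL]
    ring
  | add p q hp hq =>
    have e : dY j (p + q) = dY j p + dY j q := map_add _ _ _
    rw [e, hadd, hadd, hadd, pd_add, hp, hq]
    ring
  | mul_X p m hp =>
    rw [dY_mul, dY_X, mul_zero, zero_add, mul_comm (X m) (dY j p), hmul, hmul, hmul, hp, hX, hX,
      ← nab_pd_inl Δ hΔ, pd_neg]

/-- the Fourier model -/
def fModel (Y : Type) [Fintype Y] [DecidableEq Y] (Δ : O S) (hΔ : Δ ≠ 0) :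
    Model Y S (K (Y ⊕ S)) where
  N := ⊥
  ρ := (exists_fρ (Y := Y) Δ hΔ).choose
  δ l := AddMonoidHom.mulLeft (ι (X (Sum.inr l)))
  δy j := (pdD (Sum.inl j)).toLinearMap.toAddMonoidHom
  ρN := by
    intro f m hm
    rw [AddSubgroup.mem_bot] at hm
    rw [hm, map_zero]
    exact zero_mem _
  δN := by
    intro l m hm
    rw [AddSubgroup.mem_bot] at hm
    subst hm
    exact AddSubgroup.mem_bot.mpr (mul_zero _)
  δyN := by
    intro j m hm
    rw [AddSubgroup.mem_bot] at hm
    subst hm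
    exact AddSubgroup.mem_bot.mpr (pd_zero _)
  δρ := by
    intro l f m
    exact fρ_δ Δ hΔ l f m
  δyρ := by
    intro j f m
    exact fρ_δy Δ hΔ j f m
  δδ := by
    intro l l' m
    exact mul_left_comm (ι (X (Sum.inr l)) : K (Y ⊕ S)) (ι (X (Sum.inr l'))) m
  δyδ := by
    intro j l m
    have h : pd (Sum.inl j) (ι (X (Sum.inr l)) * m : K (Y ⊕ S)) =
        ι (X (Sum.inr l)) * pd (Sum.inl j) m := by
      rw [pd_mul, pd_X, if_neg (by simp), mul_zero, add_zero]
    exact h

variable (Δ : O S) (hΔ : Δ ≠ 0)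

theorem fModel_mem_N (x : K (Y ⊕ S)) : x ∈ (fModel Y Δ hΔ).N ↔ x = 0 :=
  AddSubgroup.mem_bot

theorem fModel_ρ_C (a : K Y) (x : K (Y ⊕ S)) : (fModel Y Δ hΔ).ρ (C a) x = jL a * x :=
  fρ_C Δ hΔ a x

theorem fModel_ρ_X (l : S) (x : K (Y ⊕ S)) : (fModel Y Δ hΔ).ρ (X l) x = -nab Δ l x :=
  fρ_X Δ hΔ l x

theorem fModel_δ (l : S) (x : K (Y ⊕ S)) :
    (fModel Y Δ hΔ).δ l x = ι (X (Sum.inr l)) * x := rfl

theorem fModel_δy (j : Y) (x : K (Y ⊕ S)) : (fModel Y Δ hΔ).δy j x = pd (Sum.inl j) x := rfl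

theorem fModel_inj (l : S) (hdeg : degreeOf l Δ ≤ 2)
    (hdisc : (pderiv l Δ) ^ 2 - 2 * Δ * pderiv l (pderiv l Δ) ≠ 0)
    (f : K (Y ⊕ S)) (hf : nab Δ l f = 0) : f = 0 := by
  have hinj : Function.Injective (Sum.inr : S → Y ⊕ S) := Sum.inr_injective
  have hΔ : Δ ≠ 0 := by
    rintro rfl
    simp at hdisc
  have hD0 : (rename Sum.inr Δ : O (Y ⊕ S)) ≠ 0 := by
    intro h
    exact hΔ (rename_injective _ hinj (by rw [h, map_zero]))
  have hιD : (ι (rename Sum.inr Δ) : K (Y ⊕ S)) ≠ 0 := ι_ne_zero hD0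
  have hp : ∀ p : O S, pderiv (Sum.inr l : Y ⊕ S) (rename Sum.inr p) = rename Sum.inr (pderiv l p) :=
    fun p => pderiv_rename hinj l p
  refine finj_core (Sum.inr l) (rename Sum.inr Δ) hD0 ?_ ?_ f ?_
  · rw [degreeOf_rename_of_injective hinj]
    exact hdeg
  · rw [hp, hp]
    intro h
    apply hdisc
    apply rename_injective _ hinj
    rw [map_zero, ← h]
    simp only [map_sub, map_mul, map_pow, map_ofNat]
  · unfold nab at hf
    rw [pd_ι] at hf
    have h2 : pd (Sum.inr l) f = (1 / 2) * (ι (pderiv (Sum.inr l) (rename Sum.inr Δ)) / ι (rename Sum.inr Δ)) * f := by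
      linear_combination hf
    rw [h2]
    field_simp

end

end Adams
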