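import Pool.Agent.MP_fe6ac3_nt.Bridge

/-!
# [ADAMS-LST] The explicit parameters

`L1` is `2 ([1,2] + [2,4] + [3] + [4,5])`, `L1'` is `[1,4] + [2,5] + [1,2] + [2,3] + [3,4] + [4,5]`,
where `[a, b]` has the exponents `2 (a - 2), …, 2 (b - 2)`.

Blueprint.  Finite checks.  In `VV`: `[1,2]_i ↦ V₁ i, V₂ (inl i)`; `[2,4]_i ↦ V₂ (inr (inl i)),
V₃ (inl i), V₄ (inl i)`; `[3]_i ↦ V₃ (inr i)`; `[4,5]_i ↦ V₄ (inr i), V₅ i`; `[2]_e ↦ V₂ (inr (inr e))`.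
In `JJ`: `J₁ = ([1,4], [1,2])`, `J₂ = ([1,4], [1,2], [2,5], [2,3]; [2]_e)`,
`J₃ = ([1,4], [2,5], [2,3], [3,4])`, `J₄ = ([1,4], [2,5], [3,4], [4,5])`, `J₅ = ([2,5], [4,5])`.
The dual parameters list the same segments (shifted by `-4`, `d = -6`) in the order
`[4,5], [4,5], [2,4], [2,4], [3], [3], [1,2], [1,2]`, resp.
`[2,5], [1,4], [4,5], [3,4], [2,3], [1,2]`.
-/

open MvPolynomial

namespace Adams

noncomputable section

/-- the Kashiwara-Saito parameter `φ` -/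
def L1 : Param := [(-2, 1), (-2, 1), (0, 2), (0, 2), (2, 0), (2, 0), (4, 1), (4, 1)]

/-- the Kashiwara-Saito parameter of `π` -/
def L1' : Param := [(-2, 3), (0, 3), (-2, 1), (0, 1), (2, 1), (4, 1)]

/-- All that is needed about a pair `(φ, π)` -/
structure Good (k : ℕ) (φ π : Param) : Prop where
  out : ∃ (d : ℤ) (e : Idx φ ≃ VV k) (e' : Idx π ≃ JJ k),
    (∀ a, deg a = d + 2 * pos5 (e a)) ∧ (∀ a, deg a = d + 2 * pos5 (e' a)) ∧
    (∀ a b, Nil φ a b = bigMat (xBase k) (e a) (e b)) ∧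
    ∀ a b, Nil π a b = bigN k (e' a) (e' b)

/-! ### Auxiliary description of the normal forms -/

/-- the image of a basis vector under `bigMat (xBase k)` -/
def nxtV {k : ℕ} : VV k → Option (VV k)
  | Sum.inl i => some (Sum.inr (Sum.inl (Sum.inl i)))
  | Sum.inr (Sum.inl (Sum.inl _)) => none
  | Sum.inr (Sum.inl (Sum.inr (Sum.inl i))) => some (Sum.inr (Sum.inr (Sum.inl (Sum.inl i))))
  | Sum.inr (Sum.inl (Sum.inr (Sum.inr _))) => none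
  | Sum.inr (Sum.inr (Sum.inl (Sum.inl i))) =>
      some (Sum.inr (Sum.inr (Sum.inr (Sum.inl (Sum.inl i)))))
  | Sum.inr (Sum.inr (Sum.inl (Sum.inr _))) => none
  | Sum.inr (Sum.inr (Sum.inr (Sum.inl (Sum.inl _)))) => none
  | Sum.inr (Sum.inr (Sum.inr (Sum.inl (Sum.inr i)))) =>
      some (Sum.inr (Sum.inr (Sum.inr (Sum.inr i))))
  | Sum.inr (Sum.inr (Sum.inr (Sum.inr _))) => none

/-- the image of a basis vector under `bigN k` -/
def nxtJ {k : ℕ} : JJ k → Option (JJ k)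
  | Sum.inl i => some (Sum.inr (Sum.inl (Sum.inl (![0, 1] i))))
  | Sum.inr (Sum.inl (Sum.inl i)) =>
      ![some (Sum.inr (Sum.inr (Sum.inl 0))), none, some (Sum.inr (Sum.inr (Sum.inl 1))),
        some (Sum.inr (Sum.inr (Sum.inl 2)))] i
  | Sum.inr (Sum.inl (Sum.inr _)) => none
  | Sum.inr (Sum.inr (Sum.inl i)) =>
      ![some (Sum.inr (Sum.inr (Sum.inr (Sum.inl 0)))),
        some (Sum.inr (Sum.inr (Sum.inr (Sum.inl 1)))), none,
        some (Sum.inr (Sum.inr (Sum.inr (Sum.inl 2))))] i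
  | Sum.inr (Sum.inr (Sum.inr (Sum.inl i))) =>
      ![none, some (Sum.inr (Sum.inr (Sum.inr (Sum.inr 0)))), none,
        some (Sum.inr (Sum.inr (Sum.inr (Sum.inr 1))))] i
  | Sum.inr (Sum.inr (Sum.inr (Sum.inr _))) => none

theorem bigMat_xBase (k : ℕ) (i j : VV k) :
    bigMat (xBase k) i j = if nxtV j = some i then 1 else 0 := by
  rcases i with i | (i | i | i) | (i | i) | (i | i) | i <;>
  rcases j with j | (j | j | j) | (j | j) | (j | j) | j <;>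
  simp [bigMat, shiftMat, xBase, x12, x23, x34, x45, yB, yA3, yP3, zB, zP3, yBase, nxtV, eq_comm]

theorem bigN_apply (k : ℕ) (i j : JJ k) :
    bigN k i j = if nxtJ j = some i then 1 else 0 := by
  rcases i with i | (i | i) | i | i | i <;>
  rcases j with j | (j | j) | j | j | j <;>
  first
  | (simp [bigN, shiftMat, N12, N23, N34, N45, nxtJ]; done)
  | (fin_cases j <;> simp [bigN, shiftMat, N12, N23, N34, N45, nxtJ]; done)
  | (fin_cases i <;> simp [bigN, shiftMat, N12, N23, N34, N45, nxtJ]; done)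
  | (fin_cases i <;> fin_cases j <;> simp [bigN, shiftMat, N12, N23, N34, N45, nxtJ])

/-- equality in `VV k` is decidable -/
local instance lstDecVV (k : ℕ) : DecidableEq (VV k) := inferInstance

/-- equality in `JJ k` is decidable -/
local instance lstDecJJ (k : ℕ) : DecidableEq (JJ k) := inferInstance

/-! ### The first pair -/

/-- the position of the basis vectors of `L1` in `VV 0` -/
def lstEA (a : Idx L1) : VV 0 :=
  match (a.1 : ℕ), (a.2 : ℕ) with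
  | 0, 0 => Sum.inl 0
  | 0, _ => Sum.inr (Sum.inl (Sum.inl 0))
  | 1, 0 => Sum.inl 1
  | 1, _ => Sum.inr (Sum.inl (Sum.inl 1))
  | 2, 0 => Sum.inr (Sum.inl (Sum.inr (Sum.inl 0)))
  | 2, 1 => Sum.inr (Sum.inr (Sum.inl (Sum.inl 0)))
  | 2, _ => Sum.inr (Sum.inr (Sum.inr (Sum.inl (Sum.inl 0))))
  | 3, 0 => Sum.inr (Sum.inl (Sum.inr (Sum.inl 1)))
  | 3, 1 => Sum.inr (Sum.inr (Sum.inl (Sum.inl 1)))
  | 3, _ => Sum.inr (Sum.inr (Sum.inr (Sum.inl (Sum.inl 1))))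
  | 4, _ => Sum.inr (Sum.inr (Sum.inl (Sum.inr 0)))
  | 5, _ => Sum.inr (Sum.inr (Sum.inl (Sum.inr 1)))
  | 6, 0 => Sum.inr (Sum.inr (Sum.inr (Sum.inl (Sum.inr 0))))
  | 6, _ => Sum.inr (Sum.inr (Sum.inr (Sum.inr 0)))
  | _, 0 => Sum.inr (Sum.inr (Sum.inr (Sum.inl (Sum.inr 1))))
  | _, _ => Sum.inr (Sum.inr (Sum.inr (Sum.inr 1)))

/-- the position of the basis vectors of `L1'` in `JJ 0` -/
def lstFA (a : Idx L1') : JJ 0 :=
  match (a.1 : ℕ), (a.2 : ℕ) with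
  | 0, 0 => Sum.inl 0
  | 0, 1 => Sum.inr (Sum.inl (Sum.inl 0))
  | 0, 2 => Sum.inr (Sum.inr (Sum.inl 0))
  | 0, _ => Sum.inr (Sum.inr (Sum.inr (Sum.inl 0)))
  | 1, 0 => Sum.inr (Sum.inl (Sum.inl 2))
  | 1, 1 => Sum.inr (Sum.inr (Sum.inl 1))
  | 1, 2 => Sum.inr (Sum.inr (Sum.inr (Sum.inl 1)))
  | 1, _ => Sum.inr (Sum.inr (Sum.inr (Sum.inr 0)))
  | 2, 0 => Sum.inl 1
  | 2, _ => Sum.inr (Sum.inl (Sum.inl 1))
  | 3, 0 => Sum.inr (Sum.inl (Sum.inl 3))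
  | 3, _ => Sum.inr (Sum.inr (Sum.inl 2))
  | 4, 0 => Sum.inr (Sum.inr (Sum.inl 3))
  | 4, _ => Sum.inr (Sum.inr (Sum.inr (Sum.inl 2)))
  | _, 0 => Sum.inr (Sum.inr (Sum.inr (Sum.inl 3)))
  | _, _ => Sum.inr (Sum.inr (Sum.inr (Sum.inr 1)))

theorem lstEA_bij : Function.Bijective lstEA :=
  ⟨by unfold Function.Injective; decide +kernel, by unfold Function.Surjective; decide +kernel⟩

theorem lstFA_bij : Function.Bijective lstFA :=
  ⟨by unfold Function.Injective; decide +kernel, by unfold Function.Surjective; decide +kernel⟩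

theorem lstEA_deg : ∀ a, deg a = -2 + 2 * pos5 (lstEA a) := by decide +kernel

theorem lstFA_deg : ∀ a, deg a = -2 + 2 * pos5 (lstFA a) := by decide +kernel

theorem lstEA_nil : ∀ a b : Idx L1,
    (a.1 = b.1 ∧ (a.2 : ℕ) = b.2 + 1) ↔ nxtV (lstEA b) = some (lstEA a) := by
  decide +kernel

theorem lstFA_nil : ∀ a b : Idx L1',
    (a.1 = b.1 ∧ (a.2 : ℕ) = b.2 + 1) ↔ nxtJ (lstFA b) = some (lstFA a) := by
  decide +kernel

/-! ### The dual pair -/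

/-- the position of the basis vectors of `L1.dual` in `VV 0` -/
def lstEB (a : Idx L1.dual) : VV 0 :=
  match (a.1 : ℕ), (a.2 : ℕ) with
  | 0, 0 => Sum.inr (Sum.inr (Sum.inr (Sum.inl (Sum.inr 0))))
  | 0, _ => Sum.inr (Sum.inr (Sum.inr (Sum.inr 0)))
  | 1, 0 => Sum.inr (Sum.inr (Sum.inr (Sum.inl (Sum.inr 1))))
  | 1, _ => Sum.inr (Sum.inr (Sum.inr (Sum.inr 1)))
  | 2, 0 => Sum.inr (Sum.inl (Sum.inr (Sum.inl 0)))
  | 2, 1 => Sum.inr (Sum.inr (Sum.inl (Sum.inl 0)))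
  | 2, _ => Sum.inr (Sum.inr (Sum.inr (Sum.inl (Sum.inl 0))))
  | 3, 0 => Sum.inr (Sum.inl (Sum.inr (Sum.inl 1)))
  | 3, 1 => Sum.inr (Sum.inr (Sum.inl (Sum.inl 1)))
  | 3, _ => Sum.inr (Sum.inr (Sum.inr (Sum.inl (Sum.inl 1))))
  | 4, _ => Sum.inr (Sum.inr (Sum.inl (Sum.inr 0)))
  | 5, _ => Sum.inr (Sum.inr (Sum.inl (Sum.inr 1)))
  | 6, 0 => Sum.inl 0
  | 6, _ => Sum.inr (Sum.inl (Sum.inl 0))
  | _, 0 => Sum.inl 1
  | _, _ => Sum.inr (Sum.inl (Sum.inl 1))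

/-- the position of the basis vectors of `L1'.dual` in `JJ 0` -/
def lstFB (a : Idx L1'.dual) : JJ 0 :=
  match (a.1 : ℕ), (a.2 : ℕ) with
  | 0, 0 => Sum.inr (Sum.inl (Sum.inl 2))
  | 0, 1 => Sum.inr (Sum.inr (Sum.inl 1))
  | 0, 2 => Sum.inr (Sum.inr (Sum.inr (Sum.inl 1)))
  | 0, _ => Sum.inr (Sum.inr (Sum.inr (Sum.inr 0)))
  | 1, 0 => Sum.inl 0
  | 1, 1 => Sum.inr (Sum.inl (Sum.inl 0))
  | 1, 2 => Sum.inr (Sum.inr (Sum.inl 0))
  | 1, _ => Sum.inr (Sum.inr (Sum.inr (Sum.inl 0)))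
  | 2, 0 => Sum.inr (Sum.inr (Sum.inr (Sum.inl 3)))
  | 2, _ => Sum.inr (Sum.inr (Sum.inr (Sum.inr 1)))
  | 3, 0 => Sum.inr (Sum.inr (Sum.inl 3))
  | 3, _ => Sum.inr (Sum.inr (Sum.inr (Sum.inl 2)))
  | 4, 0 => Sum.inr (Sum.inl (Sum.inl 3))
  | 4, _ => Sum.inr (Sum.inr (Sum.inl 2))
  | _, 0 => Sum.inl 1
  | _, _ => Sum.inr (Sum.inl (Sum.inl 1))

theorem lstEB_bij : Function.Bijective lstEB :=
  ⟨by unfold Function.Injective; decide +kernel, by unfold Function.Surjective; decide +kernel⟩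

theorem lstFB_bij : Function.Bijective lstFB :=
  ⟨by unfold Function.Injective; decide +kernel, by unfold Function.Surjective; decide +kernel⟩

theorem lstEB_deg : ∀ a, deg a = -6 + 2 * pos5 (lstEB a) := by decide +kernel

theorem lstFB_deg : ∀ a, deg a = -6 + 2 * pos5 (lstFB a) := by decide +kernel

theorem lstEB_nil : ∀ a b : Idx L1.dual,
    (a.1 = b.1 ∧ (a.2 : ℕ) = b.2 + 1) ↔ nxtV (lstEB b) = some (lstEB a) := by
  decide +kernel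

theorem lstFB_nil : ∀ a b : Idx L1'.dual,
    (a.1 = b.1 ∧ (a.2 : ℕ) = b.2 + 1) ↔ nxtJ (lstFB b) = some (lstFB a) := by
  decide +kernel

/-! ### The pair with two more singletons -/

/-- the position of the basis vectors of `L1 ++ [(0, 0), (0, 0)]` in `VV 2` -/
def lstEC (a : Idx (L1 ++ [(0, 0), (0, 0)])) : VV 2 :=
  match (a.1 : ℕ), (a.2 : ℕ) with
  | 0, 0 => Sum.inl 0
  | 0, _ => Sum.inr (Sum.inl (Sum.inl 0))
  | 1, 0 => Sum.inl 1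
  | 1, _ => Sum.inr (Sum.inl (Sum.inl 1))
  | 2, 0 => Sum.inr (Sum.inl (Sum.inr (Sum.inl 0)))
  | 2, 1 => Sum.inr (Sum.inr (Sum.inl (Sum.inl 0)))
  | 2, _ => Sum.inr (Sum.inr (Sum.inr (Sum.inl (Sum.inl 0))))
  | 3, 0 => Sum.inr (Sum.inl (Sum.inr (Sum.inl 1)))
  | 3, 1 => Sum.inr (Sum.inr (Sum.inl (Sum.inl 1)))
  | 3, _ => Sum.inr (Sum.inr (Sum.inr (Sum.inl (Sum.inl 1))))
  | 4, _ => Sum.inr (Sum.inr (Sum.inl (Sum.inr 0)))
  | 5, _ => Sum.inr (Sum.inr (Sum.inl (Sum.inr 1)))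
  | 6, 0 => Sum.inr (Sum.inr (Sum.inr (Sum.inl (Sum.inr 0))))
  | 6, _ => Sum.inr (Sum.inr (Sum.inr (Sum.inr 0)))
  | 7, 0 => Sum.inr (Sum.inr (Sum.inr (Sum.inl (Sum.inr 1))))
  | 7, _ => Sum.inr (Sum.inr (Sum.inr (Sum.inr 1)))
  | 8, _ => Sum.inr (Sum.inl (Sum.inr (Sum.inr 0)))
  | _, _ => Sum.inr (Sum.inl (Sum.inr (Sum.inr 1)))

/-- the position of the basis vectors of `L1' ++ [(0, 0), (0, 0)]` in `JJ 2` -/
def lstFC (a : Idx (L1' ++ [(0, 0), (0, 0)])) : JJ 2 :=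
  match (a.1 : ℕ), (a.2 : ℕ) with
  | 0, 0 => Sum.inl 0
  | 0, 1 => Sum.inr (Sum.inl (Sum.inl 0))
  | 0, 2 => Sum.inr (Sum.inr (Sum.inl 0))
  | 0, _ => Sum.inr (Sum.inr (Sum.inr (Sum.inl 0)))
  | 1, 0 => Sum.inr (Sum.inl (Sum.inl 2))
  | 1, 1 => Sum.inr (Sum.inr (Sum.inl 1))
  | 1, 2 => Sum.inr (Sum.inr (Sum.inr (Sum.inl 1)))
  | 1, _ => Sum.inr (Sum.inr (Sum.inr (Sum.inr 0)))
  | 2, 0 => Sum.inl 1
  | 2, _ => Sum.inr (Sum.inl (Sum.inl 1))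
  | 3, 0 => Sum.inr (Sum.inl (Sum.inl 3))
  | 3, _ => Sum.inr (Sum.inr (Sum.inl 2))
  | 4, 0 => Sum.inr (Sum.inr (Sum.inl 3))
  | 4, _ => Sum.inr (Sum.inr (Sum.inr (Sum.inl 2)))
  | 5, 0 => Sum.inr (Sum.inr (Sum.inr (Sum.inl 3)))
  | 5, _ => Sum.inr (Sum.inr (Sum.inr (Sum.inr 1)))
  | 6, _ => Sum.inr (Sum.inl (Sum.inr 0))
  | _, _ => Sum.inr (Sum.inl (Sum.inr 1))

theorem lstEC_bij : Function.Bijective lstEC :=
  ⟨by unfold Function.Injective; decide +kernel, by unfold Function.Surjective; decide +kernel⟩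

theorem lstFC_bij : Function.Bijective lstFC :=
  ⟨by unfold Function.Injective; decide +kernel, by unfold Function.Surjective; decide +kernel⟩

theorem lstEC_deg : ∀ a, deg a = -2 + 2 * pos5 (lstEC a) := by decide +kernel

theorem lstFC_deg : ∀ a, deg a = -2 + 2 * pos5 (lstFC a) := by decide +kernel

theorem lstEC_nil : ∀ a b : Idx (L1 ++ [(0, 0), (0, 0)]),
    (a.1 = b.1 ∧ (a.2 : ℕ) = b.2 + 1) ↔ nxtV (lstEC b) = some (lstEC a) := by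
  decide +kernel

theorem lstFC_nil : ∀ a b : Idx (L1' ++ [(0, 0), (0, 0)]),
    (a.1 = b.1 ∧ (a.2 : ℕ) = b.2 + 1) ↔ nxtJ (lstFC b) = some (lstFC a) := by
  decide +kernel

/-! ### Assembly -/

theorem lst_good_of {k : ℕ} {φ π : Param} (d : ℤ) (e : Idx φ → VV k) (f : Idx π → JJ k)
    (he : Function.Bijective e) (hf : Function.Bijective f)
    (hed : ∀ a, deg a = d + 2 * pos5 (e a)) (hfd : ∀ a, deg a = d + 2 * pos5 (f a))
    (hen : ∀ a b : Idx φ, (a.1 = b.1 ∧ (a.2 : ℕ) = b.2 + 1) ↔ nxtV (e b) = some (e a))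
    (hfn : ∀ a b : Idx π, (a.1 = b.1 ∧ (a.2 : ℕ) = b.2 + 1) ↔ nxtJ (f b) = some (f a)) :
    Good k φ π := by
  refine ⟨d, Equiv.ofBijective e he, Equiv.ofBijective f hf, hed, hfd, fun a b => ?_,
    fun a b => ?_⟩
  · rw [bigMat_xBase]
    exact if_congr (hen a b) rfl rfl
  · rw [bigN_apply]
    exact if_congr (hfn a b) rfl rfl

theorem good_1 : Good 0 L1 L1' :=
  lst_good_of (-2) lstEA lstFA lstEA_bij lstFA_bij lstEA_deg lstFA_deg lstEA_nil lstFA_nil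

theorem good_2 : Good 0 L1.dual L1'.dual :=
  lst_good_of (-6) lstEB lstFB lstEB_bij lstFB_bij lstEB_deg lstFB_deg lstEB_nil lstFB_nil

theorem good_3 : Good 2 (L1 ++ [(0, 0), (0, 0)]) (L1' ++ [(0, 0), (0, 0)]) :=
  lst_good_of (-2) lstEC lstFC lstEC_bij lstFC_bij lstEC_deg lstFC_deg lstEC_nil lstFC_nil

end

end Adams
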