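import Pool.Agent.MP_fe6ac3_nt.StdChart

/-!
# [ADAMS-PAR] `qsys k` is a parameter system

Let `I = vanishingIdeal ℂ Z`, `A₀ ⊆ O` the range of the `aeval` of `GenVar.dom` (`ℂ[y, s_u]`),
`J = (q)`.
* `divAlg A₀ I J = {f | ∃ s g ∈ A₀, s ∉ I, s f - g ∈ J}` is a subalgebra which contains `A₀` and is
  closed under division by elements of `A₀ \ I`; it contains all `s_l` (by the quadrics) and
  hence all `z_m` (`det T · z_m = ∑ adj(T)_ml (s_l - t_l)`), so it is everything.
* so for `f ∈ I` there are `s ∉ I` and `g ∈ A₀` with `s f - g ∈ (q)`; `g ∈ I`, so `g = 0` by `dom`.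
* Jacobian: for the matrix `a_{im} = adj(T)_{m, t_i}` we have
  `∑_m a_{im} ∂q_j/∂z_m = det T · ∂q_j/∂t_i`, triangular with diagonal `det T · b_j`, so its
  determinant is `∉ I`; expanding the determinant of the product, some minor is `∉ I`.
-/

open MvPolynomial

namespace Adams

noncomputable section

section DivAlg

variable {R : Type*} [CommRing R] [Algebra ℂ R]

/-- the elements which are quotients of elements of `A` modulo `J` -/
def divAlg (A : Subalgebra ℂ R) (I J : Ideal R) (hI : I.IsPrime) : Subalgebra ℂ R where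
  carrier := {f | ∃ s ∈ A, ∃ g ∈ A, s ∉ I ∧ s * f - g ∈ J}
  mul_mem' := by
    rintro f f' ⟨s, hs, g, hg, hsI, h⟩ ⟨s', hs', g', hg', hsI', h'⟩
    refine ⟨s * s', A.mul_mem hs hs', g * g', A.mul_mem hg hg',
      fun hh => (hI.mem_or_mem hh).elim hsI hsI', ?_⟩
    have : s * s' * (f * f') - g * g' = (s * f - g) * (s' * f') + (s' * f' - g') * g := by ring
    rw [this]
    exact J.add_mem (J.mul_mem_right _ h) (J.mul_mem_right _ h')
  add_mem' := by
    rintro f f' ⟨s, hs, g, hg, hsI, h⟩ ⟨s', hs', g', hg', hsI', h'⟩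
    refine ⟨s * s', A.mul_mem hs hs', s' * g + s * g',
      A.add_mem (A.mul_mem hs' hg) (A.mul_mem hs hg'),
      fun hh => (hI.mem_or_mem hh).elim hsI hsI', ?_⟩
    have : s * s' * (f + f') - (s' * g + s * g') = (s * f - g) * s' + (s' * f' - g') * s := by ring
    rw [this]
    exact J.add_mem (J.mul_mem_right _ h) (J.mul_mem_right _ h')
  algebraMap_mem' := by
    intro r
    refine ⟨1, A.one_mem, _, A.algebraMap_mem r, fun hh => hI.ne_top (I.eq_top_iff_one.2 hh), ?_⟩
    simp

theorem mem_divAlg {A : Subalgebra ℂ R} {I J : Ideal R} {hI : I.IsPrime} {f : R} :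
    f ∈ divAlg A I J hI ↔ ∃ s ∈ A, ∃ g ∈ A, s ∉ I ∧ s * f - g ∈ J := Iff.rfl

theorem divAlg_of_mem {A : Subalgebra ℂ R} {I J : Ideal R} {hI : I.IsPrime} {f : R}
    (hf : f ∈ A) : f ∈ divAlg A I J hI :=
  ⟨1, A.one_mem, f, hf, fun hh => hI.ne_top (I.eq_top_iff_one.2 hh), by simp⟩

theorem divAlg_of_ideal {A : Subalgebra ℂ R} {I J : Ideal R} {hI : I.IsPrime} {f : R}
    (hf : f ∈ J) : f ∈ divAlg A I J hI :=
  ⟨1, A.one_mem, 0, A.zero_mem, fun hh => hI.ne_top (I.eq_top_iff_one.2 hh), by simpa using hf⟩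

theorem divAlg_of_mul {A : Subalgebra ℂ R} {I J : Ideal R} {hI : I.IsPrime} {b f : R}
    (hb : b ∈ A) (hbI : b ∉ I) (hf : b * f ∈ divAlg A I J hI) : f ∈ divAlg A I J hI := by
  obtain ⟨s, hs, g, hg, hsI, h⟩ := hf
  refine ⟨s * b, A.mul_mem hs hb, g, hg, fun hh => (hI.mem_or_mem hh).elim hsI hbI, ?_⟩
  rwa [mul_assoc]

end DivAlg

/-- the expansion of the determinant of a product of two rectangular matrices -/
theorem det_expand {R : Type*} [CommRing R] {r : ℕ} {σ : Type} [Fintype σ] [DecidableEq σ]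
    (a : Fin r → σ → R) (v : σ → Fin r → R) :
    (Matrix.of fun i j => ∑ m, a i m * v m j).det
      = ∑ c : Fin r → σ, (∏ i, a i (c i)) * (Matrix.of fun i j => v (c i) j).det := by
  have h1 : (Matrix.of fun i j => ∑ m, a i m * v m j : Matrix (Fin r) (Fin r) R)
      = fun i => ∑ m, a i m • v m := by
    ext i j
    simp [Finset.sum_apply]
  rw [h1]
  change (Matrix.detRowAlternating : (Fin r → R) [⋀^Fin r]→ₗ[R] R).toMultilinearMap
    (fun i => ∑ m, a i m • v m) = _
  rw [MultilinearMap.map_sum]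
  refine Finset.sum_congr rfl fun c _ => ?_
  rw [MultilinearMap.map_smul_univ]
  rfl

theorem rename_eq_aeval' {Y S : Type} (F : O Y) :
    (rename Sum.inl F : O (Y ⊕ S)) = aeval (fun i => X (Sum.inl i)) F := by
  have h : (rename Sum.inl : O Y →ₐ[ℂ] O (Y ⊕ S)) = aeval (fun i => X (Sum.inl i)) :=
    MvPolynomial.algHom_ext fun i => by rw [rename_X, aeval_X]
  rw [h]

theorem GenVar.hL {k : ℕ} {Z : Set (YT k ⊕ ST k → ℂ)} (hZ : GenVar k Z) (F : O (YT k))
    (hF : F ≠ 0) : rename Sum.inl F ∉ vanishingIdeal ℂ Z := by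
  have h1 : (rename Sum.inl F : O (YT k ⊕ UT k)) ≠ 0 := by
    intro h
    exact hF (rename_injective _ Sum.inl_injective (by rw [h, map_zero]))
  have h2 := hZ.dom _ h1
  rw [aeval_rename] at h2
  rw [rename_eq_aeval']
  exact h2

theorem GenVar.hU {k : ℕ} {Z : Set (YT k ⊕ ST k → ℂ)} (hZ : GenVar k Z) (u : UT k) :
    sO k (uIdx k u) ∉ vanishingIdeal ℂ Z := by
  have h2 := hZ.dom (X (Sum.inr u)) (X_ne_zero _)
  rw [aeval_X] at h2
  exact h2

/-- the subalgebra generated by the `y` and the free `s` -/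
def parA (k : ℕ) : Subalgebra ℂ (O (YT k ⊕ ST k)) :=
  (aeval (Sum.elim (fun i => X (Sum.inl i)) (fun u => sO k (uIdx k u)) :
      YT k ⊕ UT k → O (YT k ⊕ ST k))).range

theorem parA_rename (k : ℕ) (F : O (YT k)) :
    (rename Sum.inl F : O (YT k ⊕ ST k)) ∈ parA k := by
  refine ⟨rename Sum.inl F, ?_⟩
  change aeval _ _ = _
  rw [aeval_rename, rename_eq_aeval']
  rfl

theorem parA_u (k : ℕ) (u : UT k) : sO k (uIdx k u) ∈ parA k :=
  ⟨X (Sum.inr u), by change aeval _ _ = _; rw [aeval_X]; rfl⟩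

/-- the renamed matrix of the chart -/
def parT (k : ℕ) : Matrix (ST k) (ST k) (O (YT k ⊕ ST k)) :=
  (stdChart k).T.map (rename Sum.inl)

theorem parT_det (k : ℕ) : (parT k).det = rename Sum.inl (stdChart k).T.det := by
  unfold parT
  exact ((rename Sum.inl : O (YT k) →ₐ[ℂ] O (YT k ⊕ ST k)).map_det (stdChart k).T).symm

theorem parT_adj (k : ℕ) (i j : ST k) :
    (parT k).adjugate i j = rename Sum.inl ((stdChart k).T.adjugate i j) := by
  have h := (rename Sum.inl : O (YT k) →ₐ[ℂ] O (YT k ⊕ ST k)).map_adjugate (stdChart k).T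
  have h2 := congrFun (congrFun h i) j
  exact h2.symm

theorem sO_eq (k : ℕ) (l : ST k) :
    sO k l = ∑ m, parT k l m * X (Sum.inr m) + rename Sum.inl ((stdChart k).t l) := by
  have := (stdChart k).hs l
  rw [stdChart_s] at this
  exact this

/-- solving for the `z` -/
theorem det_mul_z (k : ℕ) (m : ST k) :
    (parT k).det * X (Sum.inr m)
      = ∑ l, (parT k).adjugate m l * (sO k l - rename Sum.inl ((stdChart k).t l)) := by
  have h1 : ∀ l, sO k l - rename Sum.inl ((stdChart k).t l)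
      = ((parT k).mulVec (fun m => X (Sum.inr m))) l := by
    intro l
    rw [sO_eq]
    simp [Matrix.mulVec, dotProduct]
  simp_rw [h1]
  have h2 : ∑ l, (parT k).adjugate m l * ((parT k).mulVec (fun m => X (Sum.inr m))) l
      = ((parT k).adjugate.mulVec ((parT k).mulVec (fun m => X (Sum.inr m)))) m := rfl
  rw [h2, Matrix.mulVec_mulVec, Matrix.adjugate_mul, Matrix.smul_mulVec, Matrix.one_mulVec]
  rfl

theorem pderiv_inr_rename_inl {Y S : Type} (m : S) (F : O Y) :
    pderiv (Sum.inr m) (rename Sum.inl F : O (Y ⊕ S)) = 0 := by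
  classical
  apply pderiv_eq_zero_of_notMem_vars
  intro h
  have := vars_rename Sum.inl F h
  simp at this

theorem pderiv_sO (k : ℕ) (l m : ST k) : pderiv (Sum.inr m) (sO k l) = parT k l m := by
  classical
  rw [sO_eq, map_add, pderiv_inr_rename_inl, add_zero, map_sum]
  rw [Finset.sum_eq_single m]
  · rw [Derivation.leibniz, pderiv_X_self]
    have : pderiv (Sum.inr m) (parT k l m) = 0 := pderiv_inr_rename_inl m _
    rw [this]
    simp
  · intro b _ hb
    rw [Derivation.leibniz, pderiv_X_of_ne (by simpa using hb)]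
    have : pderiv (Sum.inr m) (parT k l b) = 0 := pderiv_inr_rename_inl m _
    rw [this]
    simp
  · simp

/-- the derivation `det T · ∂/∂s_l` -/
def parD (k : ℕ) (l : ST k) : Derivation ℂ (O (YT k ⊕ ST k)) (O (YT k ⊕ ST k)) :=
  ∑ m, (parT k).adjugate m l • pderiv (Sum.inr m)

theorem parD_apply (k : ℕ) (l : ST k) (f : O (YT k ⊕ ST k)) :
    parD k l f = ∑ m, (parT k).adjugate m l * pderiv (Sum.inr m) f := by
  have h : Derivation.coeFnAddMonoidHom (parD k l)
      = ∑ m, Derivation.coeFnAddMonoidHom ((parT k).adjugate m l •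
        (pderiv (Sum.inr m) : Derivation ℂ (O (YT k ⊕ ST k)) (O (YT k ⊕ ST k)))) := by
    unfold parD
    exact map_sum _ _ _
  have h2 := congrFun h f
  rw [Finset.sum_apply] at h2
  exact h2

theorem parD_sO (k : ℕ) (l l' : ST k) :
    parD k l (sO k l') = if l' = l then (parT k).det else 0 := by
  rw [parD_apply]
  simp_rw [pderiv_sO]
  have h : ∑ m, (parT k).adjugate m l * parT k l' m = (parT k * (parT k).adjugate) l' l := by
    rw [Matrix.mul_apply]
    exact Finset.sum_congr rfl fun m _ => mul_comm _ _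
  rw [h, Matrix.mul_adjugate, Matrix.smul_apply, Matrix.one_apply]
  split_ifs <;> simp

/-- the dependent coordinates -/
def tIdx (k : ℕ) (j : Fin (8 + k)) : ST k :=
  Fin.addCases ![Sum.inl (0, 1, 1), Sum.inl (1, 0, 1), Sum.inl (1, 1, 1), Sum.inl (2, 0, 1),
    Sum.inl (2, 1, 1), Sum.inl (3, 0, 1), Sum.inl (3, 1, 0), Sum.inl (3, 1, 1)]
    (fun e => Sum.inr (1, e)) j

/-- the leading coefficients -/
def bIdx (k : ℕ) (j : Fin (8 + k)) : UT k :=
  Fin.addCases ![Sum.inl 0, Sum.inl 0, Sum.inl 0, Sum.inl 2,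
    Sum.inl 2, Sum.inl 4, Sum.inl 5, Sum.inl 4]
    (fun _ => Sum.inl 3) j

theorem qsys_castAdd (k : ℕ) (j : Fin 8) : qsys k (Fin.castAdd k j) = quad (sO k) j := by
  simp [qsys, quadAll]

theorem qsys_natAdd (k : ℕ) (e : Fin k) : qsys k (Fin.natAdd 8 e) = quadE (sO k) e := by
  simp [qsys, quadAll]

theorem parD_qsys_diag (k : ℕ) (j : Fin (8 + k)) :
    parD k (tIdx k j) (qsys k j) = (parT k).det * sO k (uIdx k (bIdx k j)) := by
  refine Fin.addCases (fun j => ?_) (fun e => ?_) j
  · rw [qsys_castAdd]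
    fin_cases j <;>
      simp [tIdx, bIdx, uIdx, quad, zB, parD_sO, Derivation.leibniz, mul_comm]
  · rw [qsys_natAdd]
    simp [tIdx, bIdx, uIdx, quadE, parD_sO, Derivation.leibniz, mul_comm]

theorem parD_qsys_off (k : ℕ) (i j : Fin (8 + k)) (hij : j < i) :
    parD k (tIdx k i) (qsys k j) = 0 := by
  revert hij
  refine Fin.addCases (fun j => ?_) (fun e => ?_) j
  · refine Fin.addCases (fun i => ?_) (fun e' => ?_) i
    · intro hij
      rw [qsys_castAdd]
      have hij' : j < i := by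
        rw [Fin.lt_def] at hij ⊢
        exact hij
      clear hij
      revert hij'
      fin_cases j <;> fin_cases i <;> intro hij' <;>
        first
        | (exfalso; revert hij'; decide)
        | simp [tIdx, quad, zB, parD_sO, Derivation.leibniz]
    · intro _
      rw [qsys_castAdd]
      fin_cases j <;>
        simp [tIdx, quad, zB, parD_sO, Derivation.leibniz]
  · refine Fin.addCases (fun i => ?_) (fun e' => ?_) i
    · intro hij
      exfalso
      rw [Fin.lt_def] at hij
      simp at hij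
      omega
    · intro hij
      rw [qsys_natAdd]
      have hne : e ≠ e' := by
        rintro rfl
        exact lt_irrefl _ hij
      simp [tIdx, quadE, parD_sO, Derivation.leibniz, hne]

/-- the elements `s_l` lie in a subalgebra which contains the free ones and is closed under
division by them, provided it contains the quadrics -/
theorem all_s {R : Type*} [CommRing R] [Algebra ℂ R] {k : ℕ} (S : Subalgebra ℂ R) (s : ST k → R)
    (hu : ∀ u, s (uIdx k u) ∈ S) (hdiv : ∀ (u : UT k) (f : R), s (uIdx k u) * f ∈ S → f ∈ S)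
    (hqq : ∀ j, quad s j ∈ S) (hqe : ∀ e, quadE s e ∈ S) (l : ST k) : s l ∈ S := by
  have ha00 : s (Sum.inl (0, 0, 0)) ∈ S := hu (Sum.inl 0)
  have ha01 : s (Sum.inl (0, 0, 1)) ∈ S := hu (Sum.inl 1)
  have ha10 : s (Sum.inl (0, 1, 0)) ∈ S := hu (Sum.inl 2)
  have hb00 : s (Sum.inl (1, 0, 0)) ∈ S := hu (Sum.inl 3)
  have hb10 : s (Sum.inl (1, 1, 0)) ∈ S := hu (Sum.inl 4)
  have he00 : s (Sum.inl (2, 0, 0)) ∈ S := hu (Sum.inl 5)
  have he10 : s (Sum.inl (2, 1, 0)) ∈ S := hu (Sum.inl 6)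
  have hd00 : s (Sum.inl (3, 0, 0)) ∈ S := hu (Sum.inl 7)
  have hg0 : ∀ e : Fin k, s (Sum.inr (0, e)) ∈ S := fun e => hu (Sum.inr e)
  have ha11 : s (Sum.inl (0, 1, 1)) ∈ S := by
    apply hdiv (Sum.inl 0)
    have : s (uIdx k (Sum.inl 0)) * s (Sum.inl (0, 1, 1))
        = quad s 0 + s (Sum.inl (0, 0, 1)) * s (Sum.inl (0, 1, 0)) := by
      simp [uIdx, quad, zB]
    rw [this]
    exact S.add_mem (hqq 0) (S.mul_mem ha01 ha10)
  have hb01 : s (Sum.inl (1, 0, 1)) ∈ S := by
    apply hdiv (Sum.inl 0)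
    have : s (uIdx k (Sum.inl 0)) * s (Sum.inl (1, 0, 1))
        = quad s 1 + s (Sum.inl (0, 0, 1)) * s (Sum.inl (1, 0, 0)) := by
      simp [uIdx, quad, zB]
    rw [this]
    exact S.add_mem (hqq 1) (S.mul_mem ha01 hb00)
  have hb11 : s (Sum.inl (1, 1, 1)) ∈ S := by
    apply hdiv (Sum.inl 0)
    have : s (uIdx k (Sum.inl 0)) * s (Sum.inl (1, 1, 1))
        = quad s 2 + s (Sum.inl (0, 0, 1)) * s (Sum.inl (1, 1, 0)) := by
      simp [uIdx, quad, zB]
    rw [this]
    exact S.add_mem (hqq 2) (S.mul_mem ha01 hb10)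
  have he01 : s (Sum.inl (2, 0, 1)) ∈ S := by
    apply hdiv (Sum.inl 2)
    have : s (uIdx k (Sum.inl 2)) * s (Sum.inl (2, 0, 1))
        = quad s 3 - s (Sum.inl (2, 0, 0)) * s (Sum.inl (0, 0, 0)) := by
      simp [uIdx, quad, zB, mul_comm]
    rw [this]
    exact S.sub_mem (hqq 3) (S.mul_mem he00 ha00)
  have he11 : s (Sum.inl (2, 1, 1)) ∈ S := by
    apply hdiv (Sum.inl 2)
    have : s (uIdx k (Sum.inl 2)) * s (Sum.inl (2, 1, 1))
        = quad s 4 - s (Sum.inl (2, 1, 0)) * s (Sum.inl (0, 0, 0)) := by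
      simp [uIdx, quad, zB, mul_comm]
    rw [this]
    exact S.sub_mem (hqq 4) (S.mul_mem he10 ha00)
  have hd01 : s (Sum.inl (3, 0, 1)) ∈ S := by
    apply hdiv (Sum.inl 4)
    have : s (uIdx k (Sum.inl 4)) * s (Sum.inl (3, 0, 1))
        = quad s 5 - s (Sum.inl (3, 0, 0)) * s (Sum.inl (1, 0, 0)) := by
      simp [uIdx, quad, zB, mul_comm]
    rw [this]
    exact S.sub_mem (hqq 5) (S.mul_mem hd00 hb00)
  have hd10 : s (Sum.inl (3, 1, 0)) ∈ S := by
    apply hdiv (Sum.inl 5)
    have : s (uIdx k (Sum.inl 5)) * s (Sum.inl (3, 1, 0))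
        = quad s 6 + s (Sum.inl (2, 1, 0)) * s (Sum.inl (3, 0, 0)) := by
      simp [uIdx, quad, zB]
    rw [this]
    exact S.add_mem (hqq 6) (S.mul_mem he10 hd00)
  have hd11 : s (Sum.inl (3, 1, 1)) ∈ S := by
    apply hdiv (Sum.inl 4)
    have : s (uIdx k (Sum.inl 4)) * s (Sum.inl (3, 1, 1))
        = quad s 7 - s (Sum.inl (3, 1, 0)) * s (Sum.inl (1, 0, 0)) := by
      simp [uIdx, quad, zB, mul_comm]
    rw [this]
    exact S.sub_mem (hqq 7) (S.mul_mem hd10 hb00)
  have hg1 : ∀ e : Fin k, s (Sum.inr (1, e)) ∈ S := by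
    intro e
    apply hdiv (Sum.inl 3)
    have : s (uIdx k (Sum.inl 3)) * s (Sum.inr (1, e))
        = quadE s e + s (Sum.inl (1, 1, 0)) * s (Sum.inr (0, e)) := by
      simp [uIdx, quadE]
    rw [this]
    exact S.add_mem (hqe e) (S.mul_mem hb10 (hg0 e))
  rcases l with ⟨b, i, j⟩ | ⟨i, e⟩
  · fin_cases b <;> fin_cases i <;> fin_cases j
    · exact ha00
    · exact ha01
    · exact ha10
    · exact ha11
    · exact hb00
    · exact hb01
    · exact hb10
    · exact hb11
    · exact he00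
    · exact he01
    · exact he10
    · exact he11
    · exact hd00
    · exact hd01
    · exact hd10
    · exact hd11
  · fin_cases i
    · exact hg0 e
    · exact hg1 e

theorem qsys_isParam (k : ℕ) (Z : Set (YT k ⊕ ST k → ℂ)) (hZ : GenVar k Z) :
    IsParam (vanishingIdeal ℂ Z) (qsys k) := by
  have hI : (vanishingIdeal ℂ Z).IsPrime := hZ.prime
  set I := vanishingIdeal ℂ Z with hIdef
  set J : Ideal (O (YT k ⊕ ST k)) := Ideal.span (Set.range (qsys k)) with hJ
  have hJI : J ≤ I := by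
    rw [hJ, Ideal.span_le]
    rintro _ ⟨j, rfl⟩
    exact hZ.quad_mem j
  have hdet : (parT k).det ∉ I := by
    rw [parT_det]
    exact hZ.hL _ (stdChart k).hT
  have hqJ : ∀ j, qsys k j ∈ J := fun j => Ideal.subset_span ⟨j, rfl⟩
  refine ⟨hZ.quad_mem, ?_, ?_⟩
  · -- generation
    set S := divAlg (parA k) I J hI with hS
    have hu : ∀ u, sO k (uIdx k u) ∈ S := fun u => divAlg_of_mem (parA_u k u)
    have hdiv : ∀ (u : UT k) (f : O (YT k ⊕ ST k)), sO k (uIdx k u) * f ∈ S → f ∈ S :=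
      fun u f hf => divAlg_of_mul (parA_u k u) (hZ.hU u) hf
    have hqS : ∀ j, qsys k j ∈ S := fun j => divAlg_of_ideal (hqJ j)
    have hs : ∀ l : ST k, sO k l ∈ S :=
      all_s S (sO k) hu hdiv (fun j => by rw [← qsys_castAdd]; exact hqS _)
        (fun e => by rw [← qsys_natAdd]; exact hqS _)
    have hren : ∀ F : O (YT k), (rename Sum.inl F : O (YT k ⊕ ST k)) ∈ S :=
      fun F => divAlg_of_mem (parA_rename k F)
    have hz : ∀ m : ST k, (X (Sum.inr m) : O (YT k ⊕ ST k)) ∈ S := by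
      intro m
      have hb : (parT k).det ∈ parA k := by rw [parT_det]; exact parA_rename k _
      apply divAlg_of_mul hb hdet
      change (parT k).det * X (Sum.inr m) ∈ S
      rw [det_mul_z]
      refine S.sum_mem fun l _ => S.mul_mem ?_ (S.sub_mem (hs l) (hren _))
      rw [parT_adj]
      exact hren _
    have hy : ∀ i : YT k, (X (Sum.inl i) : O (YT k ⊕ ST k)) ∈ S := by
      intro i
      have := hren (X i)
      rwa [rename_X] at this
    have hall : ∀ f : O (YT k ⊕ ST k), f ∈ S := by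
      intro f
      induction f using MvPolynomial.induction_on with
      | C c => exact S.algebraMap_mem c
      | add p q hp hq => exact S.add_mem hp hq
      | mul_X p i hp =>
        refine S.mul_mem hp ?_
        rcases i with i | m
        · exact hy i
        · exact hz m
    intro f hf
    obtain ⟨s, hs', g, hg, hsI, h⟩ := mem_divAlg.1 (hall f)
    refine ⟨s, hsI, ?_⟩
    have hgI : g ∈ I := by
      have h1 : g = s * f - (s * f - g) := by ring
      rw [h1]
      exact I.sub_mem (I.mul_mem_left _ hf) (hJI h)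
    have hg0 : g = 0 := by
      obtain ⟨F, hF⟩ := hg
      by_contra hne
      have hF0 : F ≠ 0 := by
        rintro rfl
        apply hne
        rw [← hF, map_zero]
      apply hZ.dom F hF0
      change _ ∈ I
      have hF' : aeval (Sum.elim (fun i => X (Sum.inl i)) (fun u => sO k (uIdx k u)) :
        YT k ⊕ UT k → O (YT k ⊕ ST k)) F = g := hF
      rw [hF']
      exact hgI
    rw [hg0, sub_zero] at h
    exact h
  · -- Jacobian
    by_contra hcon
    push_neg at hcon
    have hM : (Matrix.of fun i j => parD k (tIdx k i) (qsys k j)).det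
        = ∏ j, ((parT k).det * sO k (uIdx k (bIdx k j))) := by
      rw [Matrix.det_of_upperTriangular]
      · exact Finset.prod_congr rfl fun j _ => parD_qsys_diag k j
      · intro i j hij
        exact parD_qsys_off k i j hij
    have hM2 : (Matrix.of fun i j => parD k (tIdx k i) (qsys k j)).det ∈ I := by
      simp_rw [parD_apply]
      rw [det_expand (fun i m => (parT k).adjugate m (tIdx k i))
        (fun m j => pderiv (Sum.inr m) (qsys k j))]
      refine I.sum_mem fun c _ => I.mul_mem_left _ ?_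
      exact hcon (fun i => Sum.inr (c i))
    rw [hM] at hM2
    obtain ⟨j, _, hj⟩ := (Ideal.IsPrime.prod_mem_iff (hp := hI)).1 hM2
    rcases hI.mem_or_mem hj with h | h
    · exact hdet h
    · exact hZ.hU _ h

end

end Adams
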