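import Pool.Agent.MP_fe6ac3_nt.Conv
import Pool.Agent.MP_fe6ac3_nt.ParamSys

/-!
# [ADAMS-NRL] The relation used after adding two singletons

Blueprint.  `I = vanishingIdeal ℂ Z`, `h` any parameter system.  `X = x23` (`4 × 6`), the matrix `xJ`
lists its variables in the four columns `A`, `E`; `P0 i` is the first column of `P = x23 x12`;
`α_j = x12 j 0` (`j` in `A` or `E`).
* `D_j = ∑_i P0 i ∂/∂X_{ij}`: `D_j (P0 i) = α_j P0 i`; `D_j q = α_j q` for all quadrics `q` except `q 6`,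
  and `D_j (q 6) = 0`; `D_j (α₀₀) = α_j α₀₀`.  (Replacing the column `j` of `X` by itself plus
  `t P_{·0}` multiplies the first columns of `α, β` by `1 + t α_j`, adds `t (x12 j 1)` times the first
  column to the second, adds `t β_{·0}` to `γ_{·j}` if `j ∈ E`, and changes nothing else except
  `p₁''`.)  Checked numerically.
* `E` from `conv` (with `q = qsys 2`, `c` = diagonal matrix, trace `9 α_j`); `u = α₀₀^5 E`;
  `D_j u ≡ (5 - 9) α_j u = -4 α_j u`, and `∑_i ∂_{X_ij} (P0 i · u) = 4 α_j u + D_j u ∈ N`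
  (`∂ (P0 i)/∂X_ij = α_j`).
* `P0 0 ∉ I`: polynomial identity `det ρ det q₁' · P = det q₁' · p' adj(ρ) α + n β` (see QuadOrb.lean);
  so `det ρ det q₁' · P0 0` is a nonzero polynomial in `y, α₀₀, α₁₀, β₀₀, β₁₀`; use `hZ.dom`.
-/

open MvPolynomial

namespace Adams

noncomputable section

/-- the variables of `x23` in the columns `A`, `E` -/
def xJ : Fin 4 → Fin 4 → YT 2 ⊕ ST 2 :=
  ![![Sum.inr (Sum.inl (0, 0, 0)), Sum.inr (Sum.inl (0, 0, 1)),
      Sum.inl (Sum.inr (Sum.inr (0, 0))), Sum.inl (Sum.inr (Sum.inr (0, 1)))],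
    ![Sum.inr (Sum.inl (0, 1, 0)), Sum.inr (Sum.inl (0, 1, 1)),
      Sum.inl (Sum.inr (Sum.inr (1, 0))), Sum.inl (Sum.inr (Sum.inr (1, 1)))],
    ![Sum.inr (Sum.inl (1, 0, 0)), Sum.inr (Sum.inl (1, 0, 1)),
      Sum.inr (Sum.inr (0, 0)), Sum.inr (Sum.inr (0, 1))],
    ![Sum.inr (Sum.inl (1, 1, 0)), Sum.inr (Sum.inl (1, 1, 1)),
      Sum.inr (Sum.inr (1, 0)), Sum.inr (Sum.inr (1, 1))]]

/-- the first column of `P = x23 x12` -/
def P0 : Fin 4 → O (YT 2 ⊕ ST 2) :=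
  ![P1 (fun i => X (Sum.inl i)) (fun i => X (Sum.inr i)) 0 0,
    P1 (fun i => X (Sum.inl i)) (fun i => X (Sum.inr i)) 1 0,
    P2 (fun i => X (Sum.inl i)) (fun i => X (Sum.inr i)) 0 0,
    P2 (fun i => X (Sum.inl i)) (fun i => X (Sum.inr i)) 1 0]

/-! ### the first column is not in the ideal -/

section FF

variable {R : Type*} [CommRing R]

/-- the polynomial expressing `det ρ det q₁' P₀₀` through the free coordinates -/
def FF (y : YT 2 → R) (a0 a1 b0 b1 : R) : R :=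
  (yB y 4).det * ((yB y 2 * (rh y).adjugate) 0 0 * a0 + (yB y 2 * (rh y).adjugate) 0 1 * a1) -
    (((yB y 4).adjugate * yB y 5) 0 0 * b0 + ((yB y 4).adjugate * yB y 5) 0 1 * b1)

theorem P1_identity (y : YT 2 → R) (z : ST 2 → R) :
    ((rh y).det * (yB y 4).det) • P1 y z = (yB y 4).det • (yB y 2 * (rh y).adjugate * al y z) -
      (yB y 4).adjugate * yB y 5 * be y z := by
  have h1 : (yB y 4).det • (yB y 2 * (rh y).adjugate * al y z) =
      (yB y 4).adjugate * (yB y 4 * yB y 2) * (rh y).adjugate * al y z := by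
    rw [← Matrix.mul_assoc (yB y 4).adjugate, Matrix.adjugate_mul, Matrix.smul_mul,
      Matrix.smul_mul, Matrix.smul_mul, Matrix.one_mul]
  have h2 : (yB y 4).adjugate * yB y 5 * be y z =
      (rh y).det • ((yB y 4).adjugate * yB y 5 * P2 y z) -
        (yB y 4).adjugate * (yB y 5 * yB y 3) * (rh y).adjugate * al y z := by
    rw [be, Matrix.mul_sub, Matrix.mul_smul]
    simp only [Matrix.mul_assoc]
  have h3 : (yB y 4).adjugate * (yB y 4 * yB y 2) * (rh y).adjugate * al y z +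
      (yB y 4).adjugate * (yB y 5 * yB y 3) * (rh y).adjugate * al y z =
      (rh y).det • ((yB y 4).adjugate * al y z) := by
    rw [← Matrix.add_mul, ← Matrix.add_mul, ← Matrix.mul_add]
    have : yB y 4 * yB y 2 + yB y 5 * yB y 3 = rh y := rfl
    rw [this, Matrix.mul_assoc (yB y 4).adjugate, Matrix.mul_adjugate, Matrix.mul_smul,
      Matrix.mul_one, Matrix.smul_mul]
  have h4 : (yB y 4).adjugate * al y z = (yB y 4).det • P1 y z +
      (yB y 4).adjugate * yB y 5 * P2 y z := by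
    rw [al, Matrix.mul_add, ← Matrix.mul_assoc, Matrix.adjugate_mul, Matrix.smul_mul,
      Matrix.one_mul, ← Matrix.mul_assoc]
  rw [h1, h2]
  have h5 : (yB y 4).adjugate * (yB y 4 * yB y 2) * (rh y).adjugate * al y z -
      ((rh y).det • ((yB y 4).adjugate * yB y 5 * P2 y z) -
        (yB y 4).adjugate * (yB y 5 * yB y 3) * (rh y).adjugate * al y z) =
      (rh y).det • ((yB y 4).adjugate * al y z) -
        (rh y).det • ((yB y 4).adjugate * yB y 5 * P2 y z) := by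
    rw [← h3]; abel
  rw [h5, h4, smul_add, smul_smul]
  abel

theorem P1_FF (y : YT 2 → R) (z : ST 2 → R) :
    (rh y).det * (yB y 4).det * P1 y z 0 0 =
      FF y (al y z 0 0) (al y z 1 0) (be y z 0 0) (be y z 1 0) := by
  have h := congrFun (congrFun (P1_identity y z) 0) 0
  rw [Matrix.smul_apply, Matrix.sub_apply, Matrix.smul_apply,
    Matrix.mul_apply (M := yB y 2 * (rh y).adjugate),
    Matrix.mul_apply (M := (yB y 4).adjugate * yB y 5), Fin.sum_univ_two, Fin.sum_univ_two,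
    smul_eq_mul, smul_eq_mul] at h
  rw [h, FF]

theorem FF_map {R' : Type*} [CommRing R'] (φ : R →+* R') (y : YT 2 → R) (a0 a1 b0 b1 : R) :
    φ (FF y a0 a1 b0 b1) = FF (fun i => φ (y i)) (φ a0) (φ a1) (φ b0) (φ b1) := by
  simp only [FF, rh, yB, Matrix.det_fin_two, Matrix.adjugate_fin_two, Matrix.mul_apply,
    Matrix.add_apply, Fin.sum_univ_two, Matrix.of_apply, Matrix.cons_val_zero,
    Matrix.cons_val_one, map_sub, map_add, map_mul, map_neg, Matrix.cons_val', Matrix.cons_val_fin_one]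

end FF

theorem P0_notMem {Z : Set (YT 2 ⊕ ST 2 → ℂ)} (hZ : GenVar 2 Z) : P0 0 ∉ vanishingIdeal ℂ Z := by
  intro hmem
  set F : O (YT 2 ⊕ UT 2) := FF (fun i => X (Sum.inl i)) (X (Sum.inr (Sum.inl 0)))
    (X (Sum.inr (Sum.inl 2))) (X (Sum.inr (Sum.inl 3))) (X (Sum.inr (Sum.inl 4))) with hF
  have hF0 : F ≠ 0 := by
    intro h0
    have h1 := congrArg (eval (Sum.elim
      (fun i : YT 2 => if i = Sum.inl (4, 0, 0) ∨ i = Sum.inl (4, 1, 1) ∨ i = Sum.inl (5, 0, 0)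
        then (1 : ℂ) else 0)
      (fun u : UT 2 => if u = Sum.inl 3 then (1 : ℂ) else 0))) h0
    rw [hF, FF_map, map_zero] at h1
    simp [FF, rh, yB, Matrix.det_fin_two, Matrix.adjugate_fin_two, Matrix.mul_apply] at h1
  apply hZ.dom F hF0
  have h2 : aeval (Sum.elim (fun i => X (Sum.inl i)) (fun u => sO 2 (uIdx 2 u)) :
      YT 2 ⊕ UT 2 → O (YT 2 ⊕ ST 2)) F =
      (rh (fun i => X (Sum.inl i) : YT 2 → O (YT 2 ⊕ ST 2))).det *
        (yB (fun i => X (Sum.inl i) : YT 2 → O (YT 2 ⊕ ST 2)) 4).det * P0 0 := by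
    have h3 := FF_map ((aeval (Sum.elim (fun i => X (Sum.inl i)) (fun u => sO 2 (uIdx 2 u)) :
      YT 2 ⊕ UT 2 → O (YT 2 ⊕ ST 2)) : O (YT 2 ⊕ UT 2) →ₐ[ℂ] O (YT 2 ⊕ ST 2)) :
        O (YT 2 ⊕ UT 2) →+* O (YT 2 ⊕ ST 2)) (fun i => X (Sum.inl i)) (X (Sum.inr (Sum.inl 0)))
      (X (Sum.inr (Sum.inl 2))) (X (Sum.inr (Sum.inl 3))) (X (Sum.inr (Sum.inl 4)))
    simp only [RingHom.coe_coe, aeval_X, Sum.elim_inl, Sum.elim_inr] at h3
    rw [hF, h3]
    refine Eq.trans ?_ (P1_FF (fun i => X (Sum.inl i)) (fun i => X (Sum.inr i))).symm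
    rfl
  rw [h2]
  exact Ideal.mul_mem_left _ _ hmem

/-! ### the derivations -/

section DD

/-- the `y`-variables -/
abbrev yv : YT 2 → O (YT 2 ⊕ ST 2) := fun i => X (Sum.inl i)
/-- the `z`-variables -/
abbrev zv : ST 2 → O (YT 2 ⊕ ST 2) := fun i => X (Sum.inr i)

/-- the derivation `∑_i P0 i ∂/∂X_{ij}` -/
def DD (j : Fin 4) : Derivation ℂ (O (YT 2 ⊕ ST 2)) (O (YT 2 ⊕ ST 2)) :=
  P0 0 • pderiv (xJ 0 j) + P0 1 • pderiv (xJ 1 j) + P0 2 • pderiv (xJ 2 j) + P0 3 • pderiv (xJ 3 j)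

theorem DD_apply (j : Fin 4) (f : O (YT 2 ⊕ ST 2)) :
    DD j f = ∑ i, P0 i * pderiv (xJ i j) f := by
  simp [DD, Fin.sum_univ_four]

theorem DD_X (j : Fin 4) (v : YT 2 ⊕ ST 2) :
    DD j (X v) = ∑ i, if v = xJ i j then P0 i else 0 := by
  rw [DD_apply]
  refine Finset.sum_congr rfl fun i _ => ?_
  rw [pderiv_X, Pi.single_apply]
  split_ifs <;> simp

theorem DD_yB (j : Fin 4) (b : Fin 8) (i c : Fin 2) : DD j (yB yv b i c) = 0 := by
  show DD j (X (Sum.inl (Sum.inl (b, i, c)))) = 0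
  rw [DD_X]
  refine Finset.sum_eq_zero fun i _ => if_neg ?_
  fin_cases i <;> fin_cases j <;> simp [xJ]

theorem DD_yA3 (j : Fin 4) (e c : Fin 2) : DD j (yA3 yv e c) = 0 := by
  show DD j (X (Sum.inl (Sum.inr (Sum.inl (e, c))))) = 0
  rw [DD_X]
  refine Finset.sum_eq_zero fun i _ => if_neg ?_
  fin_cases i <;> fin_cases j <;> simp [xJ]

theorem DD_z2 (j : Fin 4) (i c : Fin 2) : DD j (zB zv 2 i c) = 0 := by
  show DD j (X (Sum.inr (Sum.inl (2, i, c)))) = 0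
  rw [DD_X]
  refine Finset.sum_eq_zero fun i _ => if_neg ?_
  fin_cases i <;> fin_cases j <;> simp [xJ]

theorem DD_z3 (j : Fin 4) (i c : Fin 2) : DD j (zB zv 3 i c) = 0 := by
  show DD j (X (Sum.inr (Sum.inl (3, i, c)))) = 0
  rw [DD_X]
  refine Finset.sum_eq_zero fun i _ => if_neg ?_
  fin_cases i <;> fin_cases j <;> simp [xJ]

theorem DD_z0 (j : Fin 4) (i c : Fin 2) :
    DD j (zB zv 0 i c) = if (j : ℕ) = c then P1 yv zv i 0 else 0 := by
  show DD j (X (Sum.inr (Sum.inl (0, i, c)))) = _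
  rw [DD_X, Fin.sum_univ_four]
  fin_cases i <;> fin_cases j <;> fin_cases c <;> simp [xJ, P0]

theorem DD_z1 (j : Fin 4) (i c : Fin 2) :
    DD j (zB zv 1 i c) = if (j : ℕ) = c then P2 yv zv i 0 else 0 := by
  show DD j (X (Sum.inr (Sum.inl (1, i, c)))) = _
  rw [DD_X, Fin.sum_univ_four]
  fin_cases i <;> fin_cases j <;> fin_cases c <;> simp [xJ, P0]

theorem DD_yP3 (j : Fin 4) (i e : Fin 2) :
    DD j (yP3 yv i e) = if (j : ℕ) = 2 + e then P1 yv zv i 0 else 0 := by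
  show DD j (X (Sum.inl (Sum.inr (Sum.inr (i, e))))) = _
  rw [DD_X, Fin.sum_univ_four]
  fin_cases i <;> fin_cases j <;> fin_cases e <;> simp [xJ, P0]

theorem DD_zP3 (j : Fin 4) (i e : Fin 2) :
    DD j (zP3 zv i e) = if (j : ℕ) = 2 + e then P2 yv zv i 0 else 0 := by
  show DD j (X (Sum.inr (Sum.inr (i, e)))) = _
  rw [DD_X, Fin.sum_univ_four]
  fin_cases i <;> fin_cases j <;> fin_cases e <;> simp [xJ, P0]

/-- the entries of `x12` in the rows `A`, `E` -/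
def xa (j : Fin 4) (c : Fin 2) : O (YT 2 ⊕ ST 2) :=
  ![yB yv 0 0 c, yB yv 0 1 c, yA3 yv 0 c, yA3 yv 1 c] j

theorem DD_P1 (j : Fin 4) (i c : Fin 2) : DD j (P1 yv zv i c) = xa j c * P1 yv zv i 0 := by
  have h : P1 yv zv i c = zB zv 0 i 0 * yB yv 0 0 c + zB zv 0 i 1 * yB yv 0 1 c +
      (yB yv 2 i 0 * yB yv 1 0 c + yB yv 2 i 1 * yB yv 1 1 c) +
      (yP3 yv i 0 * yA3 yv 0 c + yP3 yv i 1 * yA3 yv 1 c) := by
    simp only [P1, Matrix.add_apply, Matrix.mul_apply, Fin.sum_univ_two]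
  rw [h]
  simp only [map_add, Derivation.leibniz, smul_eq_mul, DD_yB, DD_yA3, DD_z0, DD_yP3]
  fin_cases j <;> simp [xa]

theorem DD_P2 (j : Fin 4) (i c : Fin 2) : DD j (P2 yv zv i c) = xa j c * P2 yv zv i 0 := by
  have h : P2 yv zv i c = zB zv 1 i 0 * yB yv 0 0 c + zB zv 1 i 1 * yB yv 0 1 c +
      (yB yv 3 i 0 * yB yv 1 0 c + yB yv 3 i 1 * yB yv 1 1 c) +
      (zP3 zv i 0 * yA3 yv 0 c + zP3 zv i 1 * yA3 yv 1 c) := by
    simp only [P2, Matrix.add_apply, Matrix.mul_apply, Fin.sum_univ_two]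
  rw [h]
  simp only [map_add, Derivation.leibniz, smul_eq_mul, DD_yB, DD_yA3, DD_z1, DD_zP3]
  fin_cases j <;> simp [xa]

theorem DD_rh (j : Fin 4) (i c : Fin 2) : DD j (rh yv i c) = 0 := by
  have h : rh (yv) i c = yB yv 4 i 0 * yB yv 2 0 c + yB yv 4 i 1 * yB yv 2 1 c +
      (yB yv 5 i 0 * yB yv 3 0 c + yB yv 5 i 1 * yB yv 3 1 c) := by
    simp only [rh, Matrix.add_apply, Matrix.mul_apply, Fin.sum_univ_two]
  rw [h]
  simp only [map_add, Derivation.leibniz, smul_eq_mul, DD_yB, mul_zero, add_zero]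

theorem DD_rhdet (j : Fin 4) : DD j (rh yv).det = 0 := by
  rw [Matrix.det_fin_two]
  simp only [map_sub, Derivation.leibniz, smul_eq_mul, DD_rh, mul_zero, add_zero, sub_zero]

theorem DD_rhadj (j : Fin 4) (i c : Fin 2) : DD j ((rh yv).adjugate i c) = 0 := by
  rw [Matrix.adjugate_fin_two]
  fin_cases i <;> fin_cases c <;> simp [DD_rh]

theorem DD_q4det (j : Fin 4) : DD j (yB yv 4).det = 0 := by
  rw [Matrix.det_fin_two]
  simp only [map_sub, Derivation.leibniz, smul_eq_mul, DD_yB, mul_zero, add_zero, sub_zero]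

theorem DD_q4adj (j : Fin 4) (i c : Fin 2) : DD j ((yB yv 4).adjugate i c) = 0 := by
  rw [Matrix.adjugate_fin_two]
  fin_cases i <;> fin_cases c <;> simp [DD_yB]

theorem DD_Y1 (j : Fin 4) (i c : Fin 2) : DD j (Y1 yv zv i c) = 0 := by
  have h : Y1 yv zv i c = yB yv 6 i 0 * yB yv 4 0 c + yB yv 6 i 1 * yB yv 4 1 c +
      (yB yv 7 i 0 * zB zv 2 0 c + yB yv 7 i 1 * zB zv 2 1 c) := by
    simp only [Y1, Matrix.add_apply, Matrix.mul_apply, Fin.sum_univ_two]
  rw [h]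
  simp only [map_add, Derivation.leibniz, smul_eq_mul, DD_yB, DD_z2, mul_zero, add_zero]

theorem DD_Y2 (j : Fin 4) (i c : Fin 2) : DD j (Y2 yv zv i c) = 0 := by
  have h : Y2 yv zv i c = yB yv 6 i 0 * yB yv 5 0 c + yB yv 6 i 1 * yB yv 5 1 c +
      (yB yv 7 i 0 * zB zv 3 0 c + yB yv 7 i 1 * zB zv 3 1 c) := by
    simp only [Y2, Matrix.add_apply, Matrix.mul_apply, Fin.sum_univ_two]
  rw [h]
  simp only [map_add, Derivation.leibniz, smul_eq_mul, DD_yB, DD_z3, mul_zero, add_zero]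

theorem DD_al (j : Fin 4) (i c : Fin 2) : DD j (al yv zv i c) = xa j c * al yv zv i 0 := by
  simp only [al, Matrix.add_apply, Matrix.mul_apply, Fin.sum_univ_two, map_add,
    Derivation.leibniz, smul_eq_mul, DD_yB, DD_P1, DD_P2]
  ring

theorem DD_be (j : Fin 4) (i c : Fin 2) : DD j (be yv zv i c) = xa j c * be yv zv i 0 := by
  simp only [be, Matrix.sub_apply, Matrix.smul_apply, Matrix.mul_apply, Fin.sum_univ_two, map_add,
    map_sub, Derivation.leibniz, smul_eq_mul, DD_yB, DD_P2, DD_al, DD_rhdet, DD_rhadj]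
  ring

theorem DD_ep (j : Fin 4) (i c : Fin 2) : DD j (ep yv zv i c) = 0 := by
  simp only [ep, Matrix.add_apply, Matrix.mul_apply, Fin.sum_univ_two, map_add,
    Derivation.leibniz, smul_eq_mul, DD_yB, DD_Y1, DD_Y2, DD_rhadj, mul_zero, add_zero]

theorem DD_de (j : Fin 4) (i c : Fin 2) : DD j (de yv zv i c) = 0 := by
  simp only [de, Matrix.sub_apply, Matrix.smul_apply, Matrix.mul_apply, Fin.sum_univ_two, map_add,
    map_sub, Derivation.leibniz, smul_eq_mul, DD_yB, DD_Y1, DD_Y2, DD_q4det, DD_q4adj,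
    mul_zero, add_zero, sub_zero]

theorem DD_ga (j : Fin 4) (i e : Fin 2) :
    DD j (ga yv zv i e) = if (j : ℕ) = 2 + e then be yv zv i 0 else 0 := by
  simp only [ga, Matrix.sub_apply, Matrix.smul_apply, Matrix.mul_apply, Fin.sum_univ_two, map_add,
    map_sub, Derivation.leibniz, smul_eq_mul, DD_yB, DD_zP3, DD_yP3, DD_rhdet, DD_rhadj,
    Matrix.add_apply]
  split_ifs with h
  · simp only [be, al, Matrix.sub_apply, Matrix.smul_apply, Matrix.mul_apply, Fin.sum_univ_two,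
      smul_eq_mul, Matrix.add_apply]
    ring
  · ring

/-- the eigenvalues -/
def ev (j : Fin 4) (l : Fin 10) : O (YT 2 ⊕ ST 2) := if l = 6 then 0 else xa j 0

theorem DD_q (j : Fin 4) (l : Fin 10) : DD j (qsys 2 l) = ev j l * qsys 2 l := by
  have hal : ∀ i c : Fin 2, sO 2 (Sum.inl (0, i, c)) = al yv zv i c := fun i c => rfl
  have hbe : ∀ i c : Fin 2, sO 2 (Sum.inl (1, i, c)) = be yv zv i c := fun i c => rfl
  have hep : ∀ i c : Fin 2, sO 2 (Sum.inl (2, i, c)) = ep yv zv i c := fun i c => rfl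
  have hde : ∀ i c : Fin 2, sO 2 (Sum.inl (3, i, c)) = de yv zv i c := fun i c => rfl
  have hga : ∀ i c : Fin 2, sO 2 (Sum.inr (i, c)) = ga yv zv i c := fun i c => rfl
  have h0 : qsys 2 0 = al yv zv 0 0 * al yv zv 1 1 - al yv zv 0 1 * al yv zv 1 0 := rfl
  have h1 : qsys 2 1 = al yv zv 0 0 * be yv zv 0 1 - al yv zv 0 1 * be yv zv 0 0 := rfl
  have h2 : qsys 2 2 = al yv zv 0 0 * be yv zv 1 1 - al yv zv 0 1 * be yv zv 1 0 := rfl
  have h3 : qsys 2 3 = ep yv zv 0 1 * al yv zv 1 0 + ep yv zv 0 0 * al yv zv 0 0 := rfl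
  have h4 : qsys 2 4 = ep yv zv 1 1 * al yv zv 1 0 + ep yv zv 1 0 * al yv zv 0 0 := rfl
  have h5 : qsys 2 5 = de yv zv 0 1 * be yv zv 1 0 + de yv zv 0 0 * be yv zv 0 0 := rfl
  have h6 : qsys 2 6 = ep yv zv 0 0 * de yv zv 1 0 - ep yv zv 1 0 * de yv zv 0 0 := rfl
  have h7 : qsys 2 7 = de yv zv 1 0 * be yv zv 0 0 + de yv zv 1 1 * be yv zv 1 0 := rfl
  have h8 : qsys 2 8 = be yv zv 0 0 * ga yv zv 1 0 - be yv zv 1 0 * ga yv zv 0 0 := rfl
  have h9 : qsys 2 9 = be yv zv 0 0 * ga yv zv 1 1 - be yv zv 1 0 * ga yv zv 0 1 := rfl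
  have e6 : ∀ l : Fin 10, l ≠ 6 → ev j l = xa j 0 := fun l hl => if_neg hl
  have e6' : ev j 6 = 0 := if_pos rfl
  fin_cases l
  · show DD j (qsys 2 0) = ev j 0 * qsys 2 0
    rw [e6 0 (by decide), h0]
    simp only [map_sub, Derivation.leibniz, smul_eq_mul, DD_al]; ring
  · show DD j (qsys 2 1) = ev j 1 * qsys 2 1
    rw [e6 1 (by decide), h1]
    simp only [map_sub, Derivation.leibniz, smul_eq_mul, DD_al, DD_be]; ring
  · show DD j (qsys 2 2) = ev j 2 * qsys 2 2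
    rw [e6 2 (by decide), h2]
    simp only [map_sub, Derivation.leibniz, smul_eq_mul, DD_al, DD_be]; ring
  · show DD j (qsys 2 3) = ev j 3 * qsys 2 3
    rw [e6 3 (by decide), h3]
    simp only [map_add, Derivation.leibniz, smul_eq_mul, DD_al, DD_ep]; ring
  · show DD j (qsys 2 4) = ev j 4 * qsys 2 4
    rw [e6 4 (by decide), h4]
    simp only [map_add, Derivation.leibniz, smul_eq_mul, DD_al, DD_ep]; ring
  · show DD j (qsys 2 5) = ev j 5 * qsys 2 5
    rw [e6 5 (by decide), h5]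
    simp only [map_add, Derivation.leibniz, smul_eq_mul, DD_be, DD_de]; ring
  · show DD j (qsys 2 6) = ev j 6 * qsys 2 6
    rw [e6', h6]
    simp only [map_sub, Derivation.leibniz, smul_eq_mul, DD_ep, DD_de]; ring
  · show DD j (qsys 2 7) = ev j 7 * qsys 2 7
    rw [e6 7 (by decide), h7]
    simp only [map_add, Derivation.leibniz, smul_eq_mul, DD_be, DD_de]; ring
  · show DD j (qsys 2 8) = ev j 8 * qsys 2 8
    rw [e6 8 (by decide), h8]
    simp only [map_sub, Derivation.leibniz, smul_eq_mul, DD_be, DD_ga]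
    split_ifs <;> ring
  · show DD j (qsys 2 9) = ev j 9 * qsys 2 9
    rw [e6 9 (by decide), h9]
    simp only [map_sub, Derivation.leibniz, smul_eq_mul, DD_be, DD_ga]
    split_ifs <;> ring

theorem pderiv_P0 (i j : Fin 4) : pderiv (xJ i j) (P0 i) = xa j 0 := by
  fin_cases i <;> fin_cases j <;>
    simp [xJ, P0, P1, P2, xa, Matrix.mul_apply, Fin.sum_univ_two, zB, yB, yP3, yA3, zP3,
      pderiv_X, Pi.single_apply]

end DD

theorem neg_rel {Z : Set (YT 2 ⊕ ST 2 → ℂ)} (hZ : GenVar 2 Z) {r : ℕ}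
    {h : Fin r → O (YT 2 ⊕ ST 2)} (hh : IsParam (vanishingIdeal ℂ Z) h) :
    ∃ u : K (YT 2 ⊕ ST 2),
      (∃ s, s ∉ vanishingIdeal ℂ Z ∧ ∃ g, ι s * u = ι g * (ι (∏ j, h j))⁻¹) ∧
      (∀ a, a ∉ vanishingIdeal ℂ Z → ι a * u ∉ locN (vanishingIdeal ℂ Z) h) ∧
      ∀ j, ∑ i, pd (xJ i j) (ι (P0 i) * u) ∈ locN (vanishingIdeal ℂ Z) h := by
  haveI := hZ.prime
  obtain ⟨E, ⟨s, hs, g, hg⟩, hE, hθ⟩ := conv hh (qsys_isParam 2 Z hZ)
  have hU : sO 2 (Sum.inl (0, 0, 0)) ∉ vanishingIdeal ℂ Z := hZ.hU (Sum.inl 0)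
  set α : O (YT 2 ⊕ ST 2) := sO 2 (Sum.inl (0, 0, 0)) with hα
  have hα5 : α ^ 5 ∉ vanishingIdeal ℂ Z := fun h5 => hU (hZ.prime.mem_of_pow_mem 5 h5)
  refine ⟨ι (α ^ 5) * E, ⟨s, hs, α ^ 5 * g, ?_⟩, ?_, ?_⟩
  · rw [map_mul, mul_left_comm, hg, mul_assoc]
  · intro a ha
    rw [← mul_assoc, ← map_mul]
    exact hE _ (fun h' => (hZ.prime.mem_or_mem h').elim ha hα5)
  · intro j
    -- the vector field
    let θ : YT 2 ⊕ ST 2 → O (YT 2 ⊕ ST 2) := fun x => ∑ i, if x = xJ i j then P0 i else 0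
    have hθsum : ∀ (R : Type) [CommRing R] (φ : O (YT 2 ⊕ ST 2) →+* R) (F : YT 2 ⊕ ST 2 → R),
        ∑ x, φ (θ x) * F x = ∑ i, φ (P0 i) * F (xJ i j) := by
      intro R _ φ F
      simp only [θ, map_sum, Finset.sum_mul]
      rw [Finset.sum_comm]
      refine Finset.sum_congr rfl fun i _ => ?_
      rw [Finset.sum_eq_single (xJ i j)]
      · simp
      · intro x _ hx
        rw [if_neg hx, map_zero, zero_mul]
      · intro hx
        exact absurd (Finset.mem_univ _) hx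
    have h1 : ∀ l : Fin (8 + 2), ∑ x, θ x * pderiv x (qsys 2 l) =
        ∑ k, (Matrix.diagonal (ev j)) l k * qsys 2 k := by
      intro l
      have h2 := hθsum (O (YT 2 ⊕ ST 2)) (RingHom.id _) (fun x => pderiv x (qsys 2 l))
      simp only [RingHom.id_apply] at h2
      rw [h2, ← DD_apply, DD_q, Finset.sum_eq_single l]
      · rw [Matrix.diagonal_apply_eq]
      · intro k _ hk
        rw [Matrix.diagonal_apply_ne _ hk.symm, zero_mul]
      · intro hl
        exact absurd (Finset.mem_univ _) hl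
    have h2 := hθ θ (Matrix.diagonal (ev j)) h1
    have h3 : (Matrix.diagonal (ev j) : Matrix (Fin (8 + 2)) (Fin (8 + 2)) (O (YT 2 ⊕ ST 2))).trace =
        9 * xa j 0 := by
      rw [Matrix.trace_diagonal]
      have : ∀ l : Fin 10, ev j l = if l = 6 then 0 else xa j 0 := fun l => rfl
      show ∑ l : Fin 10, ev j l = _
      simp only [this]
      simp [Fin.sum_univ_succ]
      ring
    rw [h3, hθsum (K (YT 2 ⊕ ST 2)) ι (fun x => pd x E)] at h2
    have h4 : ∑ i, pd (xJ i j) (ι (P0 i) * (ι (α ^ 5) * E)) =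
        (α ^ 5) • (∑ i, ι (P0 i) * pd (xJ i j) E + ι (9 * xa j 0) * E) := by
      have h5 : ∀ i, pd (xJ i j) (ι (P0 i) * (ι (α ^ 5) * E)) =
          ι (α ^ 5) * (ι (P0 i) * pd (xJ i j) E) + ι (P0 i * pderiv (xJ i j) (α ^ 5)) * E +
            ι (xa j 0) * (ι (α ^ 5) * E) := by
        intro i
        rw [pd_mul, pd_mul, pd_ι, pd_ι, pderiv_P0, map_mul]
        ring
      simp only [h5, Finset.sum_add_distrib]
      rw [← Finset.mul_sum, ← Finset.sum_mul, ← map_sum, ← DD_apply]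
      have h6 : DD j (α ^ 5) = 5 * xa j 0 * α ^ 5 := by
        have : DD j α = xa j 0 * α := DD_al j 0 0
        rw [Derivation.leibniz_pow, this]
        simp only [smul_eq_mul, nsmul_eq_mul, Nat.cast_ofNat]
        ring
      rw [h6, Algebra.smul_def]
      simp only [map_mul, map_pow, map_ofNat, Finset.sum_const, Finset.card_univ, Fintype.card_fin,
        nsmul_eq_mul, Nat.cast_ofNat]
      ring
    rw [h4]
    exact Submodule.smul_mem _ _ h2

end

end Adams
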