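import Pool.Agent.MP_fe6ac3_nt.Ops
import Pool.Agent.MP_fe6ac3_nt.NegRel
import Pool.Agent.MP_fe6ac3_nt.DetOp

/-!
# [ADAMS-NEG] After adding two singletons the conormal variety is not in the characteristic variety

Let `h` be any parameter system and `M` any `D`-stable module with `locN < M ≤ locT`; `D = detOp xJ`.
By `socle` there is `a ∉ I` with `ι a * e ∈ M`, so with `u` from `neg_rel` and some `b ∉ I`:
`f = ι b * (ι (P0 0) * u) ∈ M`, `f ∉ locN`.  `D (ι (P0 0) * u) ∈ locN` (`detOp_col`), so `D^m f ∈ locN`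
for some `m` (`detOp_nil`); take the last `D^m f ∉ locN`.  It is killed by `D`, whose symbol is
`det ξ ≠ 0` at the given point.
-/

open MvPolynomial

namespace Adams

noncomputable section

theorem negCore (Z : Set (YT 2 ⊕ ST 2 → ℂ)) (hZ : GenVar 2 Z)
    (Λ : Set ((YT 2 ⊕ ST 2 → ℂ) × (YT 2 ⊕ ST 2 → ℂ))) (x ξ : YT 2 ⊕ ST 2 → ℂ)
    (hx : (x, ξ) ∈ Λ) (hξ : (Matrix.of fun i j => ξ (xJ i j)).det ≠ 0) : ¬ InChar Z Λ := by
  classical
  have hprime := hZ.prime
  rintro ⟨r, h, M, hp, ⟨hNM, hMT, hMD, hmin⟩, hΛ⟩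
  have hND := locN_dstable hp
  obtain ⟨u, ⟨s, hs, g, hsg⟩, huN, hrel⟩ := neg_rel hZ hp
  have hP0 := P0_notMem hZ
  set I := vanishingIdeal ℂ Z with hI
  set N := locN I h with hN
  obtain ⟨f, hf, hfN⟩ := SetLike.exists_of_lt hNM
  obtain ⟨b, a, ha, hba⟩ := socle hp (hMT hf) hfN
  have hae : ι a * (ι (∏ j, h j))⁻¹ ∈ M := by
    have h1 : ι a * (ι (∏ j, h j))⁻¹ = ι b * f - (ι b * f - ι a * (ι (∏ j, h j))⁻¹) := by ring
    rw [h1]
    exact M.sub_mem (ι_mul_mem _ hf) (hNM.le hba)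
  have hasM : ι (a * s) * (ι (P0 0) * u) ∈ M := by
    have h1 : ι (a * s) * (ι (P0 0) * u) = ι (P0 0) * (ι g * (ι a * (ι (∏ j, h j))⁻¹)) := by
      have h2 : (ι (a * s) : K (YT 2 ⊕ ST 2)) = ι a * ι s := map_mul _ _ _
      rw [h2]
      linear_combination (ι a * ι (P0 0) : K (YT 2 ⊕ ST 2)) * hsg
    rw [h1]
    exact ι_mul_mem _ (ι_mul_mem _ hae)
  have hasN : ι (a * s) * (ι (P0 0) * u) ∉ N := by
    have h1 : ι (a * s) * (ι (P0 0) * u) = ι (a * s * P0 0) * u := by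
      have h2 : (ι (a * s * P0 0) : K (YT 2 ⊕ ST 2)) = ι (a * s) * ι (P0 0) := map_mul _ _ _
      rw [h2, mul_assoc]
    rw [h1]
    apply huN
    intro hmem
    rcases hprime.mem_or_mem hmem with hmem | hmem
    · rcases hprime.mem_or_mem hmem with hmem | hmem
      · exact ha hmem
      · exact hs hmem
    · exact hP0 hmem
  have hcol : (detOp xJ).act (ι (P0 0) * u) ∈ N := detOp_col N hND xJ P0 u hrel
  have hnil := detOp_nil N hND xJ _ hcol (a * s)
  -- the last iterate outside `N`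
  have hm0 : Nat.find hnil ≠ 0 := by
    intro h0
    have h1 := Nat.find_spec hnil
    rw [h0] at h1
    exact hasN h1
  obtain ⟨m, hm⟩ := Nat.exists_eq_succ_of_ne_zero hm0
  have h1 := Nat.find_spec hnil
  rw [hm, Function.iterate_succ_apply'] at h1
  have h2 : (fun f => (detOp xJ).act f)^[m] (ι (a * s) * (ι (P0 0) * u)) ∉ N :=
    Nat.find_min hnil (by omega)
  have h3 : ∀ n, (fun f => (detOp xJ).act f)^[n] (ι (a * s) * (ι (P0 0) * u)) ∈ M := by
    intro n
    induction n with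
    | zero => exact hasM
    | succ n ih =>
      rw [Function.iterate_succ_apply']
      exact act_mem hMD _ ih
  have h4 := hΛ hx _ (h3 m) h2 (detOp xJ) 4 (detOp_order xJ) h1
  rw [detOp_symbol] at h4
  exact hξ h4

end

end Adams
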