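import Pool.Agent.MP_fe6ac3_nt.OrbB

/-!
# [ADAMS-QOR] The quadrics vanish on the orbit

Blueprint.  For `x ∈ OrbB k`: `P = x23 x12 = v ⊗ f` with `v = B3 e₀`, `f` = row `0` of `B1⁻¹`;
`Y = x45 x34 = w ⊗ g`, `w = B5 e₀`, `g` = row `1` (`[2,5]`) of `B3⁻¹`; `g v = 0`.
* `(α; β) = M P` and `(ε, δ) = Y M'` for matrices `M`, `M'` depending on `y`, so all `2 × 2` minors of
  `(α; β)` and of `(ε, δ)` vanish: `q 0, q 1, q 2, q 6`.
* `ε α = Y p' adj(ρ) q' P = 0` (`q 3`, `q 4`).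
* `δ β = det q₁' (det ρ Y P - ε α) = 0` (`q 5`, `q 7`).
* `quadE`: the lower halves of `(det ρ - p' adj(ρ) q') P` and `(det ρ - p' adj(ρ) q') p''` are parallel.
-/

open MvPolynomial

namespace Adams

noncomputable section

open Matrix

/-- the data extracted from a point of the orbit -/
private structure QData (k : ℕ) (y : YT k → ℂ) (z : ST k → ℂ) (v1 v2 f w g1 g2 v4 h f2 w4 k1 k2 :
    Fin 2 → ℂ) : Prop where
  hP1 : P1 y z = vecMulVec v1 f
  hP2 : P2 y z = vecMulVec v2 f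
  hY1 : Y1 y z = vecMulVec w g1
  hY2 : Y2 y z = vecMulVec w g2
  hv4 : yB y 4 *ᵥ v1 + yB y 5 *ᵥ v2 = v4
  hh : g1 ᵥ* yB y 2 + g2 ᵥ* yB y 3 = h
  hrh : rh y = vecMulVec v4 f2 + vecMulVec w4 h
  hgv : g1 ⬝ᵥ v1 + g2 ⬝ᵥ v2 = 0
  hk : k1 ≠ 0 ∨ k2 ≠ 0
  hkv : k1 ⬝ᵥ v1 + k2 ⬝ᵥ v2 = 0
  hkp : k1 ᵥ* yB y 2 + k2 ᵥ* yB y 3 = 0
  hkp3 : k1 ᵥ* yP3 y + k2 ᵥ* zP3 z = 0

section
variable {k : ℕ} {y : YT k → ℂ} {z : ST k → ℂ} {v1 v2 f w g1 g2 v4 h f2 w4 k1 k2 : Fin 2 → ℂ}

private theorem QData.al_eq (D : QData k y z v1 v2 f w g1 g2 v4 h f2 w4 k1 k2) :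
    al y z = vecMulVec v4 f := by
  unfold al
  rw [D.hP1, D.hP2, mul_vecMulVec, mul_vecMulVec, ← add_vecMulVec, D.hv4]

private theorem QData.be_eq (D : QData k y z v1 v2 f w g1 g2 v4 h f2 w4 k1 k2) :
    be y z = vecMulVec ((rh y).det • v2 - (yB y 3 * (rh y).adjugate) *ᵥ v4) f := by
  unfold be
  rw [D.al_eq, D.hP2, mul_vecMulVec, ← smul_vecMulVec, ← sub_vecMulVec]

private theorem QData.ep_eq (D : QData k y z v1 v2 f w g1 g2 v4 h f2 w4 k1 k2) :
    ep y z = vecMulVec w (h ᵥ* (rh y).adjugate) := by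
  unfold ep
  rw [D.hY1, D.hY2, vecMulVec_mul, vecMulVec_mul, ← vecMulVec_add, D.hh, vecMulVec_mul]

private theorem QData.de_eq (D : QData k y z v1 v2 f w g1 g2 v4 h f2 w4 k1 k2) :
    de y z = vecMulVec w ((yB y 4).det • g2 - g1 ᵥ* ((yB y 4).adjugate * yB y 5)) := by
  unfold de
  rw [D.hY1, D.hY2, Matrix.mul_assoc, vecMulVec_mul]
  ext i j
  simp only [Matrix.sub_apply, Matrix.smul_apply, vecMulVec_apply, Pi.sub_apply, Pi.smul_apply,
    smul_eq_mul]
  ring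

private theorem QData.hadj (D : QData k y z v1 v2 f w g1 g2 v4 h f2 w4 k1 k2) :
    (h ᵥ* (rh y).adjugate) ⬝ᵥ v4 = 0 := by
  rw [D.hrh]
  simp [Matrix.adjugate_fin_two, Matrix.vecMul, dotProduct, Fin.sum_univ_two, vecMulVec_apply]
  ring

/-- `q' (det ρ - p' adj(ρ) q') V = 0` -/
private theorem ker_q (y : YT k → ℂ) (a1 a2 b : Fin 2 → ℂ)
    (hb : yB y 4 *ᵥ a1 + yB y 5 *ᵥ a2 = b) :
    yB y 4 *ᵥ ((rh y).det • a1 - (yB y 2 * (rh y).adjugate) *ᵥ b) +
      yB y 5 *ᵥ ((rh y).det • a2 - (yB y 3 * (rh y).adjugate) *ᵥ b) = 0 := by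
  have e : yB y 4 *ᵥ ((rh y).det • a1 - (yB y 2 * (rh y).adjugate) *ᵥ b) +
      yB y 5 *ᵥ ((rh y).det • a2 - (yB y 3 * (rh y).adjugate) *ᵥ b) =
      (rh y).det • (yB y 4 *ᵥ a1 + yB y 5 *ᵥ a2) - (rh y * (rh y).adjugate) *ᵥ b := by
    rw [mulVec_sub, mulVec_sub, mulVec_smul, mulVec_smul, mulVec_mulVec, mulVec_mulVec]
    have : rh y * (rh y).adjugate = yB y 4 * (yB y 2 * (rh y).adjugate) +
        yB y 5 * (yB y 3 * (rh y).adjugate) := by
      conv_lhs => rw [show rh y = yB y 4 * yB y 2 + yB y 5 * yB y 3 from rfl]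
      rw [Matrix.add_mul, Matrix.mul_assoc, Matrix.mul_assoc]
      rfl
    rw [this, add_mulVec, smul_add]
    abel
  rw [e, hb, mul_adjugate, smul_mulVec, one_mulVec, sub_self]

private theorem ker_row (y : YT k → ℂ) (a1 a2 b c1 c2 : Fin 2 → ℂ) :
    c1 ⬝ᵥ ((rh y).det • a1 - (yB y 2 * (rh y).adjugate) *ᵥ b) +
      c2 ⬝ᵥ ((rh y).det • a2 - (yB y 3 * (rh y).adjugate) *ᵥ b) =
    (rh y).det * (c1 ⬝ᵥ a1 + c2 ⬝ᵥ a2) -
      ((c1 ᵥ* yB y 2 + c2 ᵥ* yB y 3) ᵥ* (rh y).adjugate) ⬝ᵥ b := by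
  rw [dotProduct_sub, dotProduct_sub, dotProduct_smul, dotProduct_smul, dotProduct_mulVec,
    dotProduct_mulVec, add_vecMul, vecMul_vecMul, vecMul_vecMul, add_dotProduct]
  simp only [smul_eq_mul]
  ring

private theorem QData.de_be (D : QData k y z v1 v2 f w g1 g2 v4 h f2 w4 k1 k2) :
    ((yB y 4).det • g2 - g1 ᵥ* ((yB y 4).adjugate * yB y 5)) ⬝ᵥ
      ((rh y).det • v2 - (yB y 3 * (rh y).adjugate) *ᵥ v4) = 0 := by
  set u1 := (rh y).det • v1 - (yB y 2 * (rh y).adjugate) *ᵥ v4 with hu1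
  set u2 := (rh y).det • v2 - (yB y 3 * (rh y).adjugate) *ᵥ v4 with hu2
  have h1 : yB y 4 *ᵥ u1 + yB y 5 *ᵥ u2 = 0 := ker_q y v1 v2 v4 D.hv4
  have h2 : (yB y 4).det • u1 + ((yB y 4).adjugate * yB y 5) *ᵥ u2 = 0 := by
    have := congrArg (fun v => (yB y 4).adjugate *ᵥ v) h1
    simp only [mulVec_add, mulVec_mulVec, adjugate_mul, smul_mulVec, one_mulVec,
      mulVec_zero] at this
    exact this
  have h3 : g1 ⬝ᵥ u1 + g2 ⬝ᵥ u2 = 0 := by
    rw [hu1, hu2, ker_row, D.hgv, D.hh, D.hadj]; simp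
  have h4 : (yB y 4).det * (g1 ⬝ᵥ u1) + (g1 ᵥ* ((yB y 4).adjugate * yB y 5)) ⬝ᵥ u2 = 0 := by
    have := congrArg (fun v => g1 ⬝ᵥ v) h2
    simp only [dotProduct_add, dotProduct_smul, dotProduct_mulVec, dotProduct_zero,
      smul_eq_mul] at this
    exact this
  rw [sub_dotProduct, smul_dotProduct, smul_eq_mul]
  linear_combination (yB y 4).det * h3 - h4

/-- two vectors killed by everything are parallel -/
private theorem par (y : YT k → ℂ) (a1 a2 b c1 c2 d k1 k2 : Fin 2 → ℂ)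
    (hb : yB y 4 *ᵥ a1 + yB y 5 *ᵥ a2 = b) (hd : yB y 4 *ᵥ c1 + yB y 5 *ᵥ c2 = d)
    (hk : k1 ≠ 0 ∨ k2 ≠ 0) (hkp : k1 ᵥ* yB y 2 + k2 ᵥ* yB y 3 = 0)
    (hka : k1 ⬝ᵥ a1 + k2 ⬝ᵥ a2 = 0) (hkc : k1 ⬝ᵥ c1 + k2 ⬝ᵥ c2 = 0) :
    ((rh y).det • a2 - (yB y 3 * (rh y).adjugate) *ᵥ b) 0 *
      ((rh y).det • c2 - (yB y 3 * (rh y).adjugate) *ᵥ d) 1 -
    ((rh y).det • a2 - (yB y 3 * (rh y).adjugate) *ᵥ b) 1 *
      ((rh y).det • c2 - (yB y 3 * (rh y).adjugate) *ᵥ d) 0 = 0 := by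
  by_cases hr : (rh y).det = 0
  · -- `adj ρ` is singular
    have hr' : (rh y) 0 0 * (rh y) 1 1 - (rh y) 0 1 * (rh y) 1 0 = 0 := by
      rw [← det_fin_two]; exact hr
    rw [hr]
    simp only [zero_smul, zero_sub, Pi.neg_apply, ← mulVec_mulVec]
    simp [Matrix.adjugate_fin_two, mulVec, dotProduct, Fin.sum_univ_two]
    linear_combination ((yB y 3 0 0 * yB y 3 1 1 - yB y 3 0 1 * yB y 3 1 0) *
      (b 0 * d 1 - b 1 * d 0)) * hr'
  · set u1 := (rh y).det • a1 - (yB y 2 * (rh y).adjugate) *ᵥ b with hu1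
    set u2 := (rh y).det • a2 - (yB y 3 * (rh y).adjugate) *ᵥ b with hu2
    set t1 := (rh y).det • c1 - (yB y 2 * (rh y).adjugate) *ᵥ d with ht1
    set t2 := (rh y).det • c2 - (yB y 3 * (rh y).adjugate) *ᵥ d with ht2
    by_contra hne
    have hq1 : yB y 4 *ᵥ u1 + yB y 5 *ᵥ u2 = 0 := ker_q y a1 a2 b hb
    have hq2 : yB y 4 *ᵥ t1 + yB y 5 *ᵥ t2 = 0 := ker_q y c1 c2 d hd
    have hk1 : k1 ⬝ᵥ u1 + k2 ⬝ᵥ u2 = 0 := by
      rw [hu1, hu2, ker_row, hka, hkp]; simp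
    have hk2 : k1 ⬝ᵥ t1 + k2 ⬝ᵥ t2 = 0 := by
      rw [ht1, ht2, ker_row, hkc, hkp]; simp
    -- a relation `l q₁' + m k₁ = 0` implies `l = 0` and `m = 0`
    have key : ∀ (l : Fin 2 → ℂ) (m : ℂ), l ᵥ* yB y 4 + m • k1 = 0 → l = 0 ∧ m = 0 := by
      intro l m hlm
      set r : Fin 2 → ℂ := l ᵥ* yB y 5 + m • k2 with hr2
      have e1 : r ⬝ᵥ u2 = 0 := by
        have a := congrArg (fun v => l ⬝ᵥ v) hq1
        simp only [dotProduct_add, dotProduct_mulVec, dotProduct_zero] at a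
        have b' := congrArg (fun v => v ⬝ᵥ u1) hlm
        simp only [add_dotProduct, smul_dotProduct, zero_dotProduct, smul_eq_mul] at b'
        rw [hr2, add_dotProduct, smul_dotProduct, smul_eq_mul]
        linear_combination a + m * hk1 - b'
      have e2 : r ⬝ᵥ t2 = 0 := by
        have a := congrArg (fun v => l ⬝ᵥ v) hq2
        simp only [dotProduct_add, dotProduct_mulVec, dotProduct_zero] at a
        have b' := congrArg (fun v => v ⬝ᵥ t1) hlm
        simp only [add_dotProduct, smul_dotProduct, zero_dotProduct, smul_eq_mul] at b'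
        rw [hr2, add_dotProduct, smul_dotProduct, smul_eq_mul]
        linear_combination a + m * hk2 - b'
      simp only [dotProduct, Fin.sum_univ_two] at e1 e2
      have r0 : r 0 = 0 := by
        have : r 0 * (u2 0 * t2 1 - u2 1 * t2 0) = 0 := by
          linear_combination t2 1 * e1 - u2 1 * e2
        rcases mul_eq_zero.1 this with h | h
        · exact h
        · exact absurd h hne
      have r1 : r 1 = 0 := by
        have : r 1 * (u2 0 * t2 1 - u2 1 * t2 0) = 0 := by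
          linear_combination u2 0 * e2 - t2 0 * e1
        rcases mul_eq_zero.1 this with h | h
        · exact h
        · exact absurd h hne
      have hrz : l ᵥ* yB y 5 + m • k2 = 0 := by
        rw [← hr2]; funext i; fin_cases i <;> simp [r0, r1]
      -- multiply by `p'`
      have hl : l ᵥ* rh y = 0 := by
        have a := congrArg (fun v => v ᵥ* yB y 2) hlm
        have b' := congrArg (fun v => v ᵥ* yB y 3) hrz
        simp only [add_vecMul, smul_vecMul, vecMul_vecMul, zero_vecMul] at a b'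
        have c := congrArg (fun v => m • v) hkp
        simp only [smul_add, smul_zero] at c
        have : l ᵥ* rh y = l ᵥ* (yB y 4 * yB y 2) + l ᵥ* (yB y 5 * yB y 3) := by
          rw [← vecMul_add]; rfl
        rw [this]
        have e : l ᵥ* (yB y 4 * yB y 2) + l ᵥ* (yB y 5 * yB y 3) =
          (l ᵥ* (yB y 4 * yB y 2) + m • (k1 ᵥ* yB y 2)) +
          (l ᵥ* (yB y 5 * yB y 3) + m • (k2 ᵥ* yB y 3)) -
          (m • (k1 ᵥ* yB y 2) + m • (k2 ᵥ* yB y 3)) := by abel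
        rw [e, a, b', c]; simp
      have l0 : l = 0 := eq_zero_of_vecMul_eq_zero hr hl
      refine ⟨l0, ?_⟩
      by_contra hm
      rw [l0] at hlm hrz
      simp only [zero_vecMul, zero_add] at hlm hrz
      rcases hk with h | h
      · exact h ((smul_eq_zero.1 hlm).resolve_left hm)
      · exact h ((smul_eq_zero.1 hrz).resolve_left hm)
    by_cases hdq : (yB y 4).det = 0
    · obtain ⟨l, hl0, hl⟩ := exists_vecMul_eq_zero_iff.2 hdq
      exact hl0 (key l 0 (by rw [hl]; simp)).1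
    · have := (key (-(k1 ᵥ* (yB y 4).adjugate)) ((yB y 4).det) (by
        rw [neg_vecMul, vecMul_vecMul, adjugate_mul, vecMul_smul, vecMul_one]; simp)).2
      exact hdq this

end

/-- the normal form data -/
private theorem exists_QData (k : ℕ) (x : YT k ⊕ ST k → ℂ) (hx : x ∈ OrbB k) :
    ∃ v1 v2 f w g1 g2 v4 h f2 w4 k1 k2 : Fin 2 → ℂ,
      QData k (x ∘ Sum.inl) (x ∘ Sum.inr) v1 v2 f w g1 g2 v4 h f2 w4 k1 k2 := by
  obtain ⟨B1, B2, B3, B4, B5, ⟨B1', h1, h1'⟩, ⟨B2', h2, h2'⟩, ⟨B3', h3, h3'⟩, ⟨B4', h4, h4'⟩,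
    ⟨B5', h5, h5'⟩, e12, e23, e34, e45⟩ := hx
  set y := x ∘ Sum.inl with hy
  set z := x ∘ Sum.inr with hz
  have x12e : x12 y = B2 * N12 k * B1' := by rw [← e12, Matrix.mul_assoc, h1, Matrix.mul_one]
  have x23e : x23 y z = B3 * N23 k * B2' := by rw [← e23, Matrix.mul_assoc, h2, Matrix.mul_one]
  have x34e : x34 y z = B4 * N34 * B3' := by rw [← e34, Matrix.mul_assoc, h3, Matrix.mul_one]
  have x45e : x45 y = B5 * N45 * B4' := by rw [← e45, Matrix.mul_assoc, h4, Matrix.mul_one]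
  obtain ⟨E1, hE1⟩ : ∃ E : Matrix (Fin 4) (Fin 2) ℂ, E = !![1, 0; 0, 0; 0, 0; 0, 0] := ⟨_, rfl⟩
  obtain ⟨E2, hE2⟩ : ∃ E : Matrix (Fin 2) (Fin 4) ℂ, E = !![0, 1, 0, 0; 0, 0, 0, 0] := ⟨_, rfl⟩
  obtain ⟨E3, hE3⟩ : ∃ E : Matrix (Fin 4) (Fin 4) ℂ,
    E = !![1, 0, 0, 0; 0, 0, 1, 0; 0, 0, 0, 0; 0, 0, 0, 0] := ⟨_, rfl⟩
  have n1 : N23 k * N12 k = E1 := by
    unfold N23 N12
    rw [fromCols_mul_fromRows, Matrix.mul_zero, add_zero, hE1]
    ext i j; fin_cases i <;> fin_cases j <;> simp [Matrix.mul_apply, Fin.sum_univ_four]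
  have n2 : N45 * N34 = E2 := by
    unfold N45 N34
    rw [hE2]
    ext i j; fin_cases i <;> fin_cases j <;> simp [Matrix.mul_apply, Fin.sum_univ_four]
  have n3 : N34 * N23 k = fromCols E3 (0 : Matrix (Fin 4) (Fin k) ℂ) := by
    have e : (!![1, 0, 0, 0; 0, 1, 0, 0; 0, 0, 0, 1; 0, 0, 0, 0] : Matrix (Fin 4) (Fin 4) ℂ) *
        !![1, 0, 0, 0; 0, 0, 1, 0; 0, 0, 0, 1; 0, 0, 0, 0] = E3 := by
      rw [hE3]
      ext i j; fin_cases i <;> fin_cases j <;> simp [Matrix.mul_apply, Fin.sum_univ_four]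
    unfold N34 N23
    rw [mul_fromCols, Matrix.mul_zero, e]
  have P : x23 y z * x12 y = B3 * E1 * B1' := by
    rw [x23e, x12e, ← n1]
    calc B3 * N23 k * B2' * (B2 * N12 k * B1')
        = B3 * N23 k * ((B2' * B2) * (N12 k * B1')) := by simp only [Matrix.mul_assoc]
      _ = _ := by rw [h2', Matrix.one_mul]; simp only [Matrix.mul_assoc]
  have Y : x45 y * x34 y z = B5 * E2 * B3' := by
    rw [x45e, x34e, ← n2]
    calc B5 * N45 * B4' * (B4 * N34 * B3')
        = B5 * N45 * ((B4' * B4) * (N34 * B3')) := by simp only [Matrix.mul_assoc]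
      _ = _ := by rw [h4', Matrix.one_mul]; simp only [Matrix.mul_assoc]
  have hP : x23 y z * x12 y = fromRows (P1 y z) (P2 y z) := by
    unfold x23 x12 P1 P2
    rw [fromRows_mul, fromCols_mul_fromRows, fromCols_mul_fromRows, fromCols_mul_fromRows,
      fromCols_mul_fromRows, add_assoc, add_assoc]
  have hY : x45 y * x34 y z = fromCols (Y1 y z) (Y2 y z) := by
    unfold x45 x34 Y1 Y2
    rw [fromCols_mul_fromBlocks]
  have R23 : B3' * x23 y z = N23 k * B2' := by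
    rw [x23e, ← Matrix.mul_assoc, ← Matrix.mul_assoc, h3', Matrix.one_mul]
  have RH : x34 y z * x23 y z = B4 * fromCols E3 (0 : Matrix (Fin 4) (Fin k) ℂ) * B2' := by
    rw [x34e, x23e, ← n3]
    calc B4 * N34 * B3' * (B3 * N23 k * B2')
        = B4 * N34 * ((B3' * B3) * (N23 k * B2')) := by simp only [Matrix.mul_assoc]
      _ = _ := by rw [h3', Matrix.one_mul]; simp only [Matrix.mul_assoc]
  rw [hP] at P
  rw [hY] at Y
  have hP1 : ∀ i j, P1 y z i j = B3 (Sum.inl i) 0 * B1' 0 j := by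
    intro i j
    have := congrFun (congrFun P (Sum.inl i)) j
    simpa [Matrix.mul_apply, hE1, Fin.sum_univ_four, Fin.sum_univ_two] using this
  have hP2 : ∀ i j, P2 y z i j = B3 (Sum.inr i) 0 * B1' 0 j := by
    intro i j
    have := congrFun (congrFun P (Sum.inr i)) j
    simpa [Matrix.mul_apply, hE1, Fin.sum_univ_four, Fin.sum_univ_two] using this
  have hY1 : ∀ i j, Y1 y z i j = B5 i 0 * B3' 1 (Sum.inl j) := by
    intro i j
    have := congrFun (congrFun Y i) (Sum.inl j)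
    simpa [Matrix.mul_apply, hE2, Fin.sum_univ_four, Fin.sum_univ_two] using this
  have hY2 : ∀ i j, Y2 y z i j = B5 i 0 * B3' 1 (Sum.inr j) := by
    intro i j
    have := congrFun (congrFun Y i) (Sum.inr j)
    simpa [Matrix.mul_apply, hE2, Fin.sum_univ_four, Fin.sum_univ_two] using this
  refine ⟨fun i => B3 (Sum.inl i) 0, fun i => B3 (Sum.inr i) 0, fun j => B1' 0 j,
    fun i => B5 i 0, fun j => B3' 1 (Sum.inl j), fun j => B3' 1 (Sum.inr j),
    fun i => B4 (Sum.inl i) 0, fun j => B2' (Sum.inl 2) (Sum.inr (Sum.inl j)),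
    fun j => B2' (Sum.inl 0) (Sum.inr (Sum.inl j)), fun i => B4 (Sum.inl i) 1,
    fun j => B3' 3 (Sum.inl j), fun j => B3' 3 (Sum.inr j), ?_⟩
  constructor
  · ext i j; rw [hP1, vecMulVec_apply]
  · ext i j; rw [hP2, vecMulVec_apply]
  · ext i j; rw [hY1, vecMulVec_apply]
  · ext i j; rw [hY2, vecMulVec_apply]
  · funext i
    have := congrFun (congrFun e34 (Sum.inl i)) 0
    simp only [Pi.add_apply, mulVec, dotProduct, Fin.sum_univ_two]
    simpa [x34, N34, Matrix.mul_apply, Fin.sum_univ_four, Fin.sum_univ_two]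
      using this
  · funext j
    have := congrFun (congrFun R23 1) (Sum.inr (Sum.inl j))
    simpa [x23, N23, Matrix.mul_apply, Fin.sum_univ_four, Fin.sum_univ_two, vecMul, dotProduct]
      using this
  · ext i j
    have := congrFun (congrFun RH (Sum.inl i)) (Sum.inr (Sum.inl j))
    rw [Matrix.add_apply, vecMulVec_apply, vecMulVec_apply]
    unfold rh
    have e : (B4 * fromCols E3 (0 : Matrix (Fin 4) (Fin k) ℂ) * B2') (Sum.inl i) (Sum.inr (Sum.inl j)) =
        B4 (Sum.inl i) 0 * B2' (Sum.inl 0) (Sum.inr (Sum.inl j)) +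
          B4 (Sum.inl i) 1 * B2' (Sum.inl 2) (Sum.inr (Sum.inl j)) := by
      rw [mul_fromCols, Matrix.mul_zero, Matrix.mul_apply, Fintype.sum_sum_type]
      simp [Matrix.mul_apply, hE3, Fin.sum_univ_four]
    rw [e] at this
    simpa [x34, x23, Matrix.mul_apply, Fin.sum_univ_four, Fin.sum_univ_two] using this
  · have := congrFun (congrFun h3' 1) 0
    simpa [Matrix.mul_apply, Fin.sum_univ_two, dotProduct] using this
  · by_contra hcon
    push Not at hcon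
    have := congrFun (congrFun h3' 3) 3
    have a0 := congrFun hcon.1 0
    have a1 := congrFun hcon.1 1
    have b0 := congrFun hcon.2 0
    have b1 := congrFun hcon.2 1
    simp only [Pi.zero_apply] at a0 a1 b0 b1
    simp [Matrix.mul_apply, Fin.sum_univ_two, a0, a1, b0, b1] at this
  · have := congrFun (congrFun h3' 3) 0
    simpa [Matrix.mul_apply, Fin.sum_univ_two, dotProduct] using this
  · funext j
    have := congrFun (congrFun R23 3) (Sum.inr (Sum.inl j))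
    simpa [x23, N23, Matrix.mul_apply, Fin.sum_univ_four, Fin.sum_univ_two, vecMul, dotProduct]
      using this
  · funext j
    have := congrFun (congrFun R23 3) (Sum.inr (Sum.inr j))
    simpa [x23, N23, Matrix.mul_apply, Fin.sum_univ_four, Fin.sum_univ_two, vecMul, dotProduct]
      using this

theorem quad_orbB (k : ℕ) (x : YT k ⊕ ST k → ℂ) (hx : x ∈ OrbB k) (j : Fin (8 + k)) :
    quadAll (sF (x ∘ Sum.inl) (x ∘ Sum.inr)) j = 0 := by
  obtain ⟨v1, v2, f, w, g1, g2, v4, h, f2, w4, k1, k2, D⟩ := exists_QData k x hx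
  set y := x ∘ Sum.inl with hy
  set z := x ∘ Sum.inr with hz
  have z0 : zB (sF y z) 0 = al y z := by ext i j; rfl
  have z1 : zB (sF y z) 1 = be y z := by ext i j; rfl
  have z2 : zB (sF y z) 2 = ep y z := by ext i j; rfl
  have z3 : zB (sF y z) 3 = de y z := by ext i j; rfl
  have hal := D.al_eq
  have hbe := D.be_eq
  have hep := D.ep_eq
  have hde := D.de_eq
  have hea := D.hadj
  have hdb := D.de_be
  set b' := (rh y).det • v2 - (yB y 3 * (rh y).adjugate) *ᵥ v4 with hb'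
  set e' := h ᵥ* (rh y).adjugate with he'
  set d' := (yB y 4).det • g2 - g1 ᵥ* ((yB y 4).adjugate * yB y 5) with hd'
  simp only [dotProduct, Fin.sum_univ_two] at hea hdb
  refine Fin.addCases (fun j => ?_) (fun e => ?_) j
  · simp only [quadAll, Fin.addCases_left, quad, z0, z1, z2, z3, hal, hbe, hep, hde]
    fin_cases j <;> simp [vecMulVec_apply]
    · ring
    · ring
    · ring
    · linear_combination w 0 * f 0 * hea
    · linear_combination w 1 * f 0 * hea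
    · linear_combination w 0 * f 0 * hdb
    · ring
    · linear_combination w 1 * f 0 * hdb
  · simp only [quadAll, Fin.addCases_right, quadE]
    have hg : ∀ i : Fin 2, sF y z (Sum.inr (i, e)) =
        ((rh y).det • (fun i => zP3 z i e) - (yB y 3 * (rh y).adjugate) *ᵥ
          (yB y 4 *ᵥ (fun i => yP3 y i e) + yB y 5 *ᵥ (fun i => zP3 z i e))) i := by
      intro i
      show ga y z i e = _
      unfold ga
      simp only [Matrix.sub_apply, Matrix.smul_apply, Pi.sub_apply, Pi.smul_apply, smul_eq_mul]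
      congr 1
    have hb1 : ∀ i : Fin 2, sF y z (Sum.inl (1, i, 0)) = b' i * f 0 := by
      intro i
      show be y z i 0 = _
      rw [hbe, vecMulVec_apply]
    rw [hb1, hb1, hg, hg]
    have := par y v1 v2 v4 (fun i => yP3 y i e) (fun i => zP3 z i e) _ k1 k2 D.hv4 rfl D.hk D.hkp
      D.hkv (by
        have := congrFun D.hkp3 e
        simpa [vecMul, dotProduct] using this)
    rw [← hb'] at this
    linear_combination f 0 * this

end

end Adams
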