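import Pool.Agent.MP_fe6ac3_nt.Base

/-!
# [ADAMS-TRANS] Renaming the coordinates

Blueprint.  `e : σ ≃ τ` gives ring isomorphisms `rename e : O σ ≃ O τ` and `Θ : K σ ≃ K τ`
(`IsFractionRing.ringEquivOfRingEquiv` or `IsLocalization.map`), with
`Θ (pd i f) = pd (e i) (Θ f)`, `aeval x (rename e f) = aeval (x ∘ e) f`.  Transport `h`, `M`
(`M.map` along the semilinear `Θ`, or the set image), `locN`, `locT`, `DStable`, the operators
(`P ↦` words mapped by `e`, coefficients by `rename e`), `act`, `symbol`.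
-/

open MvPolynomial

namespace Adams

noncomputable section

variable {σ τ : Type}

namespace Transp

/-- the isomorphism of polynomial rings -/
def rr (e : σ ≃ τ) : O σ ≃+* O τ := (renameEquiv ℂ e).toRingEquiv

theorem rr_apply (e : σ ≃ τ) (p : O σ) : rr e p = rename e p := rfl

/-- the isomorphism of function fields -/
def th (e : σ ≃ τ) : K σ ≃+* K τ := IsFractionRing.ringEquivOfRingEquiv (rr e)

theorem th_ι (e : σ ≃ τ) (p : O σ) : th e (ι p) = ι (rr e p) :=
  IsFractionRing.ringEquivOfRingEquiv_algebraMap (rr e) p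

theorem pderiv_rr (e : σ ≃ τ) (i : σ) (p : O σ) : pderiv (e i) (rr e p) = rr e (pderiv i p) := by
  classical
  rw [rr_apply, rr_apply]
  induction p using MvPolynomial.induction_on with
  | C c => simp
  | add p q hp hq => rw [map_add, map_add, map_add, map_add, hp, hq]
  | mul_X p j hp =>
    rw [map_mul, Derivation.leibniz, Derivation.leibniz, hp, rename_X, pderiv_X, pderiv_X]
    by_cases h : i = j
    · subst h; simp
    · have h' : e i ≠ e j := fun h1 => h (e.injective h1)
      rw [Pi.single_eq_of_ne (Ne.symm h), Pi.single_eq_of_ne (Ne.symm h')]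
      simp

theorem th_pd (e : σ ≃ τ) (i : σ) (f : K σ) : th e (pd i f) = pd (e i) (th e f) := by
  apply der_ext (th e).toRingHom (fun f => th e (pd i f)) (fun f => pd (e i) (th e f))
  · intro f g; simp only [pd_add, map_add]
  · intro f g; simp only [map_add, pd_add]
  · intro f g
    simp only [pd_mul, map_add, map_mul]
    rfl
  · intro f g
    simp only [map_mul, pd_mul]
    rfl
  · intro c
    simp only [pd_ι, th_ι]
    rw [← pderiv_rr]
  · intro c
    simp only [pd_ι, th_ι]
    rw [← pderiv_rr]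

theorem th_symm_pd (e : σ ≃ τ) (j : τ) (f : K τ) :
    (th e).symm (pd j f) = pd (e.symm j) ((th e).symm f) := by
  apply (th e).injective
  rw [th_pd]
  simp

/-- image of a submodule -/
def tm (e : σ ≃ τ) (M : Submodule (O σ) (K σ)) : Submodule (O τ) (K τ) where
  carrier := {g | (th e).symm g ∈ M}
  add_mem' := by
    intro a b ha hb
    simp only [Set.mem_ofPred_eq, map_add] at *
    exact M.add_mem ha hb
  zero_mem' := by simp
  smul_mem' := by
    intro c x hx
    simp only [Set.mem_ofPred_eq] at *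
    have h : (th e).symm (c • x) = (rr e).symm c • (th e).symm x := by
      apply (th e).injective
      rw [RingEquiv.apply_symm_apply, Algebra.smul_def, Algebra.smul_def, map_mul, th_ι,
        RingEquiv.apply_symm_apply, RingEquiv.apply_symm_apply]
    rw [h]
    exact M.smul_mem _ hx

/-- preimage of a submodule -/
def cm (e : σ ≃ τ) (M : Submodule (O τ) (K τ)) : Submodule (O σ) (K σ) where
  carrier := {g | th e g ∈ M}
  add_mem' := by
    intro a b ha hb
    simp only [Set.mem_ofPred_eq, map_add] at *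
    exact M.add_mem ha hb
  zero_mem' := by simp
  smul_mem' := by
    intro c x hx
    simp only [Set.mem_ofPred_eq] at *
    have h : th e (c • x) = (rr e) c • th e x := by
      rw [Algebra.smul_def, Algebra.smul_def, map_mul, th_ι]
    rw [h]
    exact M.smul_mem _ hx

theorem mem_tm (e : σ ≃ τ) (M : Submodule (O σ) (K σ)) (g : K τ) :
    g ∈ tm e M ↔ (th e).symm g ∈ M := Iff.rfl

theorem mem_cm (e : σ ≃ τ) (M : Submodule (O τ) (K τ)) (g : K σ) :
    g ∈ cm e M ↔ th e g ∈ M := Iff.rfl

theorem tm_cm (e : σ ≃ τ) (M : Submodule (O τ) (K τ)) : tm e (cm e M) = M := by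
  ext g
  rw [mem_tm, mem_cm, RingEquiv.apply_symm_apply]

theorem cm_tm (e : σ ≃ τ) (M : Submodule (O σ) (K σ)) : cm e (tm e M) = M := by
  ext g
  rw [mem_cm, mem_tm, RingEquiv.symm_apply_apply]

theorem tm_le (e : σ ≃ τ) {M M' : Submodule (O σ) (K σ)} : tm e M ≤ tm e M' ↔ M ≤ M' := by
  constructor
  · intro h g hg
    have h1 : th e g ∈ tm e M := by rw [mem_tm, RingEquiv.symm_apply_apply]; exact hg
    have h2 := h h1
    rwa [mem_tm, RingEquiv.symm_apply_apply] at h2
  · intro h g hg
    exact h hg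

theorem tm_lt (e : σ ≃ τ) {M M' : Submodule (O σ) (K σ)} : tm e M < tm e M' ↔ M < M' := by
  rw [lt_iff_le_not_ge, lt_iff_le_not_ge, tm_le, tm_le]

theorem tm_span (e : σ ≃ τ) (S : Set (K σ)) (S' : Set (K τ))
    (h : ∀ f, f ∈ S ↔ th e f ∈ S') : tm e (Submodule.span (O σ) S) = Submodule.span (O τ) S' := by
  apply le_antisymm
  · rw [← tm_cm e (Submodule.span (O τ) S'), tm_le, Submodule.span_le]
    intro f hf
    exact Submodule.subset_span ((h f).1 hf)
  · rw [Submodule.span_le]
    intro f hf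
    change (th e).symm f ∈ Submodule.span (O σ) S
    apply Submodule.subset_span
    rw [h, RingEquiv.apply_symm_apply]
    exact hf

theorem tm_dstable (e : σ ≃ τ) {M : Submodule (O σ) (K σ)} (h : DStable M) :
    DStable (tm e M) := by
  intro j f hf
  rw [mem_tm, th_symm_pd]
  exact h _ _ hf

theorem cm_dstable (e : σ ≃ τ) {M : Submodule (O τ) (K τ)} (h : DStable M) :
    DStable (cm e M) := by
  intro j f hf
  rw [mem_cm, th_pd]
  exact h _ _ hf

/-- image of an operator -/
def op (e : σ ≃ τ) (P : Op τ) : Op σ :=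
  (P.mapRange (rr e).symm (map_zero _)).mapDomain (List.map e.symm)

theorem pdWord_th (e : σ ≃ τ) (w : List τ) (f : K σ) :
    th e (pdWord (w.map e.symm) f) = pdWord w (th e f) := by
  induction w with
  | nil => rfl
  | cons i w ih =>
    simp only [pdWord, List.map_cons, List.foldr_cons] at ih ⊢
    rw [th_pd, ih, Equiv.apply_symm_apply]

theorem act_op (e : σ ≃ τ) (P : Op τ) (f : K σ) : th e ((op e P).act f) = P.act (th e f) := by
  unfold Op.act op
  rw [Finsupp.sum_mapDomain_index (by simp) (by intro w p q; rw [map_add, add_mul]),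
    Finsupp.sum_mapRange_index (by simp), Finsupp.sum, Finsupp.sum, map_sum]
  apply Finset.sum_congr rfl
  intro w _
  rw [map_mul, pdWord_th, th_ι, RingEquiv.apply_symm_apply]

theorem eval_rr_symm (e : σ ≃ τ) (x : τ → ℂ) (p : O τ) :
    eval (x ∘ e) ((rr e).symm p) = eval x p := by
  conv_rhs => rw [← (rr e).apply_symm_apply p]
  rw [rr_apply, eval_rename]

theorem symbol_op (e : σ ≃ τ) (P : Op τ) (k : ℕ) (x ξ : τ → ℂ) :
    (op e P).symbol k (x ∘ e) (ξ ∘ e) = P.symbol k x ξ := by
  unfold Op.symbol op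
  rw [Finsupp.sum_mapDomain_index (by simp)
    (by intro w p q; split_ifs <;> simp [add_mul]),
    Finsupp.sum_mapRange_index (by simp), Finsupp.sum, Finsupp.sum]
  apply Finset.sum_congr rfl
  intro w _
  rw [eval_rr_symm, List.length_map, List.map_map]
  have h : (ξ ∘ e) ∘ e.symm = ξ := by ext i; simp
  rw [h]

theorem orderLE_op (e : σ ≃ τ) (P : Op τ) (k : ℕ) (h : P.OrderLE k) : (op e P).OrderLE k := by
  classical
  intro w hw
  have h1 := Finsupp.mapDomain_support hw
  rw [Finset.mem_image] at h1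
  obtain ⟨w', hw', rfl⟩ := h1
  rw [List.length_map]
  exact h w' (Finsupp.support_mapRange hw')

theorem mem_vanishing (e : σ ≃ τ) (Z : Set (σ → ℂ)) (p : O σ) :
    rr e p ∈ vanishingIdeal ℂ {x : τ → ℂ | x ∘ e ∈ Z} ↔ p ∈ vanishingIdeal ℂ Z := by
  rw [mem_vanishingIdeal_iff, mem_vanishingIdeal_iff, rr_apply]
  constructor
  · intro h x hx
    have h1 := h (x ∘ e.symm) (by
      have : (x ∘ e.symm) ∘ e = x := by ext i; simp
      rw [Set.mem_ofPred_eq, this]
      exact hx)
    rw [aeval_rename] at h1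
    have : (x ∘ e.symm) ∘ e = x := by ext i; simp
    rwa [this] at h1
  · intro h x hx
    rw [aeval_rename]
    exact h _ hx

end Transp

open Transp

theorem inChar_transport (e : σ ≃ τ) (Z : Set (σ → ℂ)) (Λ : Set ((σ → ℂ) × (σ → ℂ)))
    (h : InChar Z Λ) :
    InChar {x : τ → ℂ | x ∘ e ∈ Z} {z : (τ → ℂ) × (τ → ℂ) | (z.1 ∘ e, z.2 ∘ e) ∈ Λ} := by
  obtain ⟨r, h, M, hpar, hbk, hchar⟩ := h
  set I := vanishingIdeal ℂ Z with hI
  set J := vanishingIdeal ℂ {x : τ → ℂ | x ∘ e ∈ Z} with hJ
  have hmem : ∀ p, rr e p ∈ J ↔ p ∈ I := mem_vanishing e Z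
  let h' : Fin r → O τ := fun j => rr e (h j)
  have hN : tm e (locN I h) = locN J h' := by
    apply tm_span
    intro f
    simp only [Set.mem_ofPred_eq]
    constructor
    · rintro ⟨i, s, hs, n, g, hg⟩
      refine ⟨i, rr e s, fun h1 => hs ((hmem s).1 h1), n, rr e g, ?_⟩
      have h2 := congrArg (th e) hg
      rw [map_mul, th_ι, th_ι, map_mul, map_pow, map_prod] at h2
      exact h2
    · rintro ⟨i, s, hs, n, g, hg⟩
      refine ⟨i, (rr e).symm s, fun h1 => hs ?_, n, (rr e).symm g, ?_⟩
      · rw [← (rr e).apply_symm_apply s]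
        exact (hmem _).2 h1
      · apply (th e).injective
        rw [map_mul, th_ι, th_ι, map_mul, map_pow, map_prod, RingEquiv.apply_symm_apply,
          RingEquiv.apply_symm_apply]
        exact hg
  have hT : tm e (locT I h) = locT J h' := by
    apply tm_span
    intro f
    simp only [Set.mem_ofPred_eq]
    constructor
    · rintro ⟨s, hs, n, g, hg⟩
      refine ⟨rr e s, fun h1 => hs ((hmem s).1 h1), n, rr e g, ?_⟩
      have h2 := congrArg (th e) hg
      rw [map_mul, th_ι, th_ι, map_mul, map_pow, map_prod] at h2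
      exact h2
    · rintro ⟨s, hs, n, g, hg⟩
      refine ⟨(rr e).symm s, fun h1 => hs ?_, n, (rr e).symm g, ?_⟩
      · rw [← (rr e).apply_symm_apply s]
        exact (hmem _).2 h1
      · apply (th e).injective
        rw [map_mul, th_ι, th_ι, map_mul, map_pow, map_prod, RingEquiv.apply_symm_apply,
          RingEquiv.apply_symm_apply]
        exact hg
  refine ⟨r, h', tm e M, ⟨?_, ?_, ?_⟩, ⟨?_, ?_, ?_, ?_⟩, ?_⟩
  · intro j
    exact (hmem _).2 (hpar.1 j)
  · intro f hf
    have hf' : (rr e).symm f ∈ I := by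
      rw [← hmem, RingEquiv.apply_symm_apply]
      exact hf
    obtain ⟨s, hs, hs'⟩ := hpar.2.1 _ hf'
    refine ⟨rr e s, fun h1 => hs ((hmem s).1 h1), ?_⟩
    have h2 := Ideal.mem_map_of_mem (rr e : O σ →+* O τ) hs'
    rw [Ideal.map_span, ← Set.range_comp] at h2
    have h3 : (rr e : O σ →+* O τ) (s * (rr e).symm f) = rr e s * f := by
      rw [map_mul]
      change rr e s * rr e ((rr e).symm f) = _
      rw [RingEquiv.apply_symm_apply]
    rw [h3] at h2
    exact h2
  · obtain ⟨c, hc⟩ := hpar.2.2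
    refine ⟨fun i => e (c i), fun h1 => hc ?_⟩
    rw [← hmem, ← RingEquiv.coe_toRingHom, RingHom.map_det]
    convert h1 using 2
    ext1 i j
    simp only [RingHom.mapMatrix_apply, Matrix.map_apply, Matrix.of_apply, h']
    exact (pderiv_rr e _ _).symm
  · rw [← hN, tm_lt]; exact hbk.1
  · rw [← hT, tm_le]; exact hbk.2.1
  · exact tm_dstable e hbk.2.2.1
  · intro M' h1 h2 h3
    have h4 := hbk.2.2.2 (cm e M') (by rw [← tm_lt e, tm_cm, hN]; exact h1)
      (by rw [← tm_le e, tm_cm]; exact h2) (cm_dstable e h3)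
    rw [← tm_cm e M', h4]
  · intro z hz f hf hfN P k hP hPf
    have h1 := hchar hz ((th e).symm f) hf (fun h2 => hfN (by rw [← hN]; exact h2)) (op e P) k
      (orderLE_op e P k hP) (by
        have h3 : th e ((op e P).act ((th e).symm f)) = P.act f := by
          rw [act_op, RingEquiv.apply_symm_apply]
        rw [← cm_tm e (locN I h), mem_cm, h3, hN]
        exact hPf)
    rwa [symbol_op] at h1

theorem prime_transport (e : σ ≃ τ) (Z : Set (σ → ℂ)) (h : (vanishingIdeal ℂ Z).IsPrime) :
    (vanishingIdeal ℂ {x : τ → ℂ | x ∘ e ∈ Z}).IsPrime := by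
  have h1 : vanishingIdeal ℂ {x : τ → ℂ | x ∘ e ∈ Z} =
      (vanishingIdeal ℂ Z).comap ((rr e).symm : O τ →+* O σ) := by
    ext p
    rw [Ideal.mem_comap]
    change _ ↔ (rr e).symm p ∈ _
    rw [← mem_vanishing e, RingEquiv.apply_symm_apply]
  rw [h1]
  exact Ideal.comap_isPrime _ _

end

end Adams
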