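import Pool.Agent.MP_fe6ac3_nt.PosCore
import Pool.Agent.MP_fe6ac3_nt.NegCore
import Pool.Agent.MP_fe6ac3_nt.Lists
import Pool.Agent.MP_fe6ac3_nt.Transport
import Pool.Agent.MP_fe6ac3_nt.QuadOrb
import Pool.Agent.MP_fe6ac3_nt.DomOrb
import Pool.Agent.MP_fe6ac3_nt.ConormalChart

/-!
# Assembly
-/

open MvPolynomial

namespace Adams

noncomputable section

theorem InChar.mono {σ : Type} {Z : Set (σ → ℂ)} {Λ Λ' : Set ((σ → ℂ) × (σ → ℂ))}
    (h : InChar Z Λ) (hΛ : Λ' ⊆ Λ) : InChar Z Λ' := by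
  obtain ⟨r, h, M, h1, h2, h3⟩ := h
  exact ⟨r, h, M, h1, h2, hΛ.trans h3⟩

theorem orbB_nonempty (k : ℕ) : (OrbB k).Nonempty := by
  by_contra hne
  rw [Set.not_nonempty_iff_eq_empty] at hne
  have := orbB_dom k 1 one_ne_zero
  rw [hne] at this
  apply this
  intro x hx
  exact absurd hx (Set.notMem_empty x)

theorem genVar_orbB {k : ℕ} {φ π : Param} (hG : Good k φ π) : GenVar k (OrbB k) := by
  obtain ⟨d, e, e', he, he', hφ, hN⟩ := hG.out
  obtain ⟨c, hc⟩ := exists_coordEquiv φ k d e he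
  have hiff := orbit_iff e he c hc e' he' hN
  have hset : {x : YT k ⊕ ST k → ℂ | x ∘ c ∈ Orbit φ π} = OrbB k := by
    ext x
    exact hiff x
  refine ⟨?_, ?_, orbB_dom k⟩
  · rw [← hset]
    apply prime_transport
    apply orbit_prime
    obtain ⟨x, hx⟩ := orbB_nonempty k
    exact ⟨x ∘ c, (hiff x).2 hx⟩
  · intro j x hx
    have h1 := eval_qsys k x j
    rw [quad_orbB k x hx j] at h1
    rw [← h1]
    rfl

theorem inABV_of_good {φ π : Param} (hG : Good 0 φ π) : InABV φ π := by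
  have hgen := genVar_orbB hG
  obtain ⟨d, e, e', he, he', hφ, hN⟩ := hG.out
  obtain ⟨c, hc⟩ := exists_coordEquiv φ 0 d e he
  have hiff := orbit_iff e he c hc e' he' hN
  have hset : {x : Coord φ → ℂ | x ∘ c.symm ∈ OrbB 0} = Orbit φ π := by
    ext x
    have h1 := hiff (x ∘ c.symm)
    have h2 : (x ∘ c.symm) ∘ c = x := by
      funext a
      simp
    rw [h2] at h1
    exact h1.symm
  -- the open set
  let gY : O (YT 0) := (stdChart 0).T.det *
    ((yB (fun i => X i : YT 0 → O (YT 0)) 0).det * (yB (fun i => X i : YT 0 → O (YT 0)) 4).det *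
      (yB (fun i => X i : YT 0 → O (YT 0)) 7).det * (rh (fun i => X i : YT 0 → O (YT 0))).det)
  let g : O (Coord φ) := rename (fun i => c.symm (Sum.inl i)) gY
  have hyB : ∀ (y : YT 0 → ℂ) (b : Fin 8),
      eval y (yB (fun i => X i : YT 0 → O (YT 0)) b).det = (yB y b).det := by
    intro y b
    rw [RingHom.map_det]
    congr 1
    ext i j
    simp [yB]
  have hrh : ∀ (y : YT 0 → ℂ), eval y (rh (fun i => X i : YT 0 → O (YT 0))).det = (rh y).det := by
    intro y
    rw [RingHom.map_det]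
    congr 1
    ext i j
    simp [yB, rh, Matrix.mul_apply]
  have heval : ∀ x : Coord φ → ℂ, eval x g = eval (fun i => x (c.symm (Sum.inl i))) gY := by
    intro x
    simp only [g, eval_rename]
    rfl
  apply inChar_density φ (Orbit φ π) g (xBase 0 ∘ c) (base_mem_orbit e he c hc hφ)
  · rw [heval]
    have hx : (fun i => (xBase 0 ∘ c) (c.symm (Sum.inl i))) = yBase (R := ℂ) 0 := by
      funext i
      simp [xBase]
    rw [hx]
    simp only [gY, map_mul, hyB, hrh]
    refine mul_ne_zero (stdChart_det 0) ?_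
    have h1 : ∀ b : Fin 8, (b = 0 ∨ b = 2 ∨ b = 4 ∨ b = 7) → yB (yBase (R := ℂ) 0) b = 1 := by
      intro b hb
      ext i j
      by_cases hij : i = j
      · subst hij
        simp [yB, yBase, hb]
      · simp [yB, yBase, hij]
    have h2 : yB (yBase (R := ℂ) 0) 3 = 0 := by
      ext i j
      simp [yB, yBase]
    have h3 : yB (yBase (R := ℂ) 0) 5 = 0 := by
      ext i j
      simp [yB, yBase]
    rw [h1 0 (by decide), h1 4 (by decide), h1 7 (by decide), rh, h1 4 (by decide),
      h1 2 (by decide), h2, h3]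
    simp
  · have hpos := posCore (OrbB 0) hgen
    have htr := inChar_transport c.symm (OrbB 0) _ hpos
    rw [hset] at htr
    refine htr.mono ?_
    rintro ⟨x, ξ⟩ ⟨hz, hgx⟩
    have hx2 : (x ∘ c.symm) ∘ c = x := by
      funext a
      simp
    have hξ2 : (ξ ∘ c.symm) ∘ c = ξ := by
      funext a
      simp
    have hz' : ((x ∘ c.symm) ∘ c, (ξ ∘ c.symm) ∘ c) ∈ Conormal φ := by
      rw [hx2, hξ2]
      exact hz
    obtain ⟨c1, c2, c3, c4, c5⟩ := conormal_blocks e he c hc hφ _ _ hz'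
    have horb : (x ∘ c.symm) ∘ c ∈ Orbit φ φ := by
      rw [hx2]
      exact hz.1
    obtain ⟨hP, hY⟩ := orbit_eqs e he c hc hφ _ horb
    simp only at hgx
    rw [heval] at hgx
    have hxx : (fun i => x (c.symm (Sum.inl i))) = (x ∘ c.symm) ∘ Sum.inl := rfl
    rw [hxx] at hgx
    simp only [gY, map_mul, hyB, hrh] at hgx
    have g1 := left_ne_zero_of_mul hgx
    have g2 := right_ne_zero_of_mul hgx
    have g3 := right_ne_zero_of_mul g2
    have g4 := left_ne_zero_of_mul g2
    have g5 := right_ne_zero_of_mul g4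
    have g6 := left_ne_zero_of_mul g4
    have g7 := right_ne_zero_of_mul g6
    have g8 := left_ne_zero_of_mul g6
    obtain ⟨r1, r2⟩ := conormal_chart (x ∘ c.symm) (ξ ∘ c.symm) g8 g7 g5 g3 hP hY c1 c2 c3 c4 c5
    exact ⟨g1, r1, r2⟩

theorem not_inABV_of_good {φ π : Param} (hG : Good 2 φ π) : ¬ InABV φ π := by
  have hgen := genVar_orbB hG
  obtain ⟨d, e, e', he, he', hφ, hN⟩ := hG.out
  obtain ⟨c, hc⟩ := exists_coordEquiv φ 2 d e he
  have hiff := orbit_iff e he c hc e' he' hN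
  have hset : {x : YT 2 ⊕ ST 2 → ℂ | x ∘ c ∈ Orbit φ π} = OrbB 2 := by
    ext x
    exact hiff x
  intro h
  have h1 := inChar_transport c _ _ h
  rw [hset] at h1
  refine negCore (OrbB 2) hgen _ (xBase 2) xiBase ?_ ?_ h1
  · exact xiBase_mem e he c hc hφ
  · have : (Matrix.of fun i j => xiBase (xJ i j)) = (1 : Matrix (Fin 4) (Fin 4) ℂ) := by
      ext i j
      fin_cases i <;> fin_cases j <;> simp [xiBase, xJ]
    rw [this]
    simp

theorem final : ∃ φ π : Param, φ ≠ [] ∧ ∃ α : ℕ, InABV φ π ∧ InABV (φ.lift α) (π.lift α) ∧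
    ¬ InABV (φ.lift (α + 1)) (π.lift (α + 1)) := by
  by_contra hcon
  have hpers : ∀ φ π : Param, φ ≠ [] → InABV φ π → InABV (φ.lift 0) (π.lift 0) →
      InABV (φ.lift 1) (π.lift 1) := by
    intro φ π hne h1 h2
    by_contra h3
    exact hcon ⟨φ, π, hne, 0, h1, h2, h3⟩
  have h1 : InABV L1 L1' := inABV_of_good good_1
  have h2 : InABV L1.dual L1'.dual := inABV_of_good good_2
  have d1 : L1.dual.dual = L1 := by simp [L1, Param.dual]
  have d1' : L1'.dual.dual = L1' := by simp [L1', Param.dual]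
  have l0 : ∀ φ : Param, φ.lift 0 = φ.dual := by
    intro φ
    simp [Param.lift]
  have l1 : ∀ φ : Param, φ.lift 1 = φ.dual ++ [(0, 0)] := by
    intro φ
    simp [Param.lift]
  have dapp : ∀ φ : Param, Param.dual (φ ++ [(0, 0)]) = φ.dual ++ [(0, 0)] := by
    intro φ
    simp [Param.dual]
  have n1 : L1 ≠ [] := by simp [L1]
  have n2 : L1.dual ≠ [] := by simp [L1, Param.dual]
  have n3 : L1.dual ++ [(0, 0)] ≠ [] := by simp
  -- persistence for L1
  have p1 : InABV (L1.dual ++ [(0, 0)]) (L1'.dual ++ [(0, 0)]) := by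
    have := hpers L1 L1' n1 h1 (by rw [l0, l0]; exact h2)
    rw [l1, l1] at this
    exact this
  -- persistence for the dual
  have p2 : InABV (L1 ++ [(0, 0)]) (L1' ++ [(0, 0)]) := by
    have := hpers L1.dual L1'.dual n2 h2 (by rw [l0, l0, d1, d1']; exact h1)
    rw [l1, l1, d1, d1'] at this
    exact this
  -- persistence for the dual with a singleton
  have p3 : InABV (L1 ++ [(0, 0), (0, 0)]) (L1' ++ [(0, 0), (0, 0)]) := by
    have := hpers (L1.dual ++ [(0, 0)]) (L1'.dual ++ [(0, 0)]) n3 p1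
      (by rw [l0, l0, dapp, dapp, d1, d1']; exact p2)
    rw [l1, l1, dapp, dapp, d1, d1', List.append_assoc, List.append_assoc] at this
    exact this
  exact not_inABV_of_good good_3 p3

end

end Adams
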