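import Pool.Agent.MP_fe6ac3_nt.Defs

/-!
# The derivations `pd i` of the rational function field
-/

open MvPolynomial

namespace Adams

noncomputable section

variable {σ : Type}

theorem ι_injective : Function.Injective (ι : O σ → K σ) := IsFractionRing.injective _ _

theorem ι_ne_zero {p : O σ} (hp : p ≠ 0) : (ι p : K σ) ≠ 0 := by
  intro h
  exact hp (ι_injective (by simpa using h))

theorem ι_eq_zero {p : O σ} : (ι p : K σ) = 0 ↔ p = 0 := by
  constructor
  · intro h
    by_contra hp
    exact ι_ne_zero hp h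
  · rintro rfl
    simp

theorem exists_frac (f : K σ) : ∃ a b : O σ, b ≠ 0 ∧ f = ι a / ι b := by
  obtain ⟨a, b, hb, rfl⟩ := IsFractionRing.div_surjective (A := O σ) f
  exact ⟨a, b, nonZeroDivisors.ne_zero hb, rfl⟩

theorem pd_frac (i : σ) (a b : O σ) (hb : b ≠ 0) :
    pd i (ι a / ι b : K σ) = (ι (pderiv i a) * ι b - ι a * ι (pderiv i b)) / ι b ^ 2 := by
  unfold pd
  set f : K σ := ι a / ι b with hf
  set s := IsLocalization.sec (nonZeroDivisors (O σ)) f with hs
  have hspec : f * ι (s.2 : O σ) = ι s.1 := IsLocalization.sec_spec _ f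
  have hb' : (s.2 : O σ) ≠ 0 := nonZeroDivisors.ne_zero s.2.2
  have hιb : (ι b : K σ) ≠ 0 := ι_ne_zero hb
  have hιb' : (ι (s.2 : O σ) : K σ) ≠ 0 := ι_ne_zero hb'
  have h1 : a * (s.2 : O σ) = s.1 * b := by
    apply ι_injective (σ := σ)
    rw [map_mul, map_mul, ← hspec, hf]
    field_simp
  have h2 : pderiv i a * (s.2 : O σ) + a * pderiv i (s.2 : O σ)
      = pderiv i s.1 * b + s.1 * pderiv i b := by
    have := congrArg (pderiv i) h1
    simp only [Derivation.leibniz, smul_eq_mul] at this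
    linear_combination this
  have h1' : (ι a : K σ) * ι (s.2 : O σ) = ι s.1 * ι b := by
    rw [← map_mul, h1, map_mul]
  have h2' : (ι (pderiv i a) : K σ) * ι (s.2 : O σ) + ι a * ι (pderiv i (s.2 : O σ))
      = ι (pderiv i s.1) * ι b + ι s.1 * ι (pderiv i b) := by
    rw [← map_mul, ← map_mul, ← map_add, h2, map_add, map_mul, map_mul]
  rw [div_eq_div_iff (pow_ne_zero 2 hιb') (pow_ne_zero 2 hιb)]
  linear_combination (-(ι b : K σ) * ι (s.2 : O σ)) * h2'
    + ((ι (pderiv i b) : K σ) * ι (s.2 : O σ) + ι b * ι (pderiv i (s.2 : O σ))) * h1'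

theorem pd_ι (i : σ) (p : O σ) : pd i (ι p : K σ) = ι (pderiv i p) := by
  have := pd_frac i p 1 one_ne_zero
  simpa using this

theorem pd_add (i : σ) (f g : K σ) : pd i (f + g) = pd i f + pd i g := by
  obtain ⟨a, b, hb, rfl⟩ := exists_frac f
  obtain ⟨c, d, hd, rfl⟩ := exists_frac g
  have hιb : (ι b : K σ) ≠ 0 := ι_ne_zero hb
  have hιd : (ι d : K σ) ≠ 0 := ι_ne_zero hd
  have h : (ι a / ι b + ι c / ι d : K σ) = ι (a * d + b * c) / ι (b * d) := by
    rw [map_add, map_mul, map_mul, map_mul]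
    field_simp
  rw [h, pd_frac i _ _ (mul_ne_zero hb hd), pd_frac i _ _ hb, pd_frac i _ _ hd]
  simp only [map_add, map_mul, Derivation.leibniz, smul_eq_mul]
  field_simp
  ring

theorem pd_mul (i : σ) (f g : K σ) : pd i (f * g) = f * pd i g + g * pd i f := by
  obtain ⟨a, b, hb, rfl⟩ := exists_frac f
  obtain ⟨c, d, hd, rfl⟩ := exists_frac g
  have hιb : (ι b : K σ) ≠ 0 := ι_ne_zero hb
  have hιd : (ι d : K σ) ≠ 0 := ι_ne_zero hd
  have h : (ι a / ι b * (ι c / ι d) : K σ) = ι (a * c) / ι (b * d) := by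
    rw [map_mul, map_mul]
    field_simp
  rw [h, pd_frac i _ _ (mul_ne_zero hb hd), pd_frac i _ _ hb, pd_frac i _ _ hd]
  simp only [map_add, map_mul, Derivation.leibniz, smul_eq_mul]
  field_simp
  ring

/-- `pd i` as a derivation over `ℂ` -/
def pdD (i : σ) : Derivation ℂ (K σ) (K σ) :=
  Derivation.mk'
    { toFun := pd i
      map_add' := pd_add i
      map_smul' := by
        intro c f
        have h : (c • f : K σ) = ι (C c) * f := by
          rw [Algebra.smul_def, IsScalarTower.algebraMap_apply ℂ (O σ) (K σ)]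
          rfl
        rw [h, pd_mul, pd_ι]
        simp [Algebra.smul_def, IsScalarTower.algebraMap_apply ℂ (O σ) (K σ)] }
    (by
      intro f g
      simp only [LinearMap.coe_mk, AddHom.coe_mk, smul_eq_mul]
      exact pd_mul i f g)

@[simp] theorem pdD_apply (i : σ) (f : K σ) : pdD i f = pd i f := rfl

@[simp] theorem pd_zero (i : σ) : pd i (0 : K σ) = 0 := (pdD i).map_zero

theorem pd_neg (i : σ) (f : K σ) : pd i (-f) = -pd i f := (pdD i).map_neg f

theorem pd_sub (i : σ) (f g : K σ) : pd i (f - g) = pd i f - pd i g := (pdD i).map_sub f g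

theorem pd_sum (i : σ) {α : Type*} (s : Finset α) (f : α → K σ) :
    pd i (∑ a ∈ s, f a) = ∑ a ∈ s, pd i (f a) := map_sum (pdD i) f s

theorem pd_smul (i : σ) (p : O σ) (f : K σ) : pd i (p • f) = p • pd i f + pderiv i p • f := by
  simp only [Algebra.smul_def]
  rw [pd_mul, pd_ι]
  ring

theorem pd_X [DecidableEq σ] (i j : σ) :
    pd i (ι (X j) : K σ) = if i = j then 1 else 0 := by
  rw [pd_ι, pderiv_X]
  by_cases h : i = j
  · subst h
    simp
  · rw [Pi.single_eq_of_ne (Ne.symm h)]
    simp [h]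

/-- Two derivations `K σ → F` along the same field homomorphism which agree on constants and
variables are equal. -/
theorem der_ext {F : Type*} [Field F] (φ : K σ →+* F) (D D' : K σ → F)
    (ha : ∀ f g, D (f + g) = D f + D g) (ha' : ∀ f g, D' (f + g) = D' f + D' g)
    (hm : ∀ f g, D (f * g) = φ f * D g + φ g * D f)
    (hm' : ∀ f g, D' (f * g) = φ f * D' g + φ g * D' f)
    (hC : ∀ c : ℂ, D (ι (C c)) = D' (ι (C c))) (hX : ∀ i, D (ι (X i)) = D' (ι (X i)))
    (f : K σ) : D f = D' f := by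
  have hO : ∀ p : O σ, D (ι p) = D' (ι p) := by
    intro p
    induction p using MvPolynomial.induction_on with
    | C c => exact hC c
    | add p q hp hq => rw [map_add, ha, ha', hp, hq]
    | mul_X p i hp => rw [map_mul, hm, hm', hp, hX]
  obtain ⟨a, b, hb, rfl⟩ := exists_frac f
  have hιb : (ι b : K σ) ≠ 0 := ι_ne_zero hb
  have hb2 : φ (ι b) ≠ 0 := by simpa using hιb
  have e : (ι a / ι b * ι b : K σ) = ι a := by field_simp
  have h1 := hm (ι a / ι b) (ι b)
  have h2 := hm' (ι a / ι b) (ι b)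
  rw [e] at h1 h2
  have h3 := hO a
  have h4 := hO b
  apply mul_left_cancel₀ hb2
  linear_combination h3 - h1 + h2 - φ (ι a / ι b) * h4

theorem pd_comm (i j : σ) (f : K σ) : pd i (pd j f) = pd j (pd i f) := by
  classical
  have h := der_ext (σ := σ) (RingHom.id (K σ)) (fun f => pd i (pd j f) - pd j (pd i f))
    (fun _ => 0) (by intro f g; simp only [pd_add]; ring) (by intro f g; ring)
    (by
      intro f g
      simp only [pd_mul, pd_add, RingHom.id_apply]
      ring)
    (by intro f g; simp)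
    (by intro c; simp [pd_ι])
    (by
      intro k
      simp only [pd_ι, pderiv_X, Pi.single_apply]
      split_ifs <;> simp)
    f
  simpa [sub_eq_zero] using h

theorem pd_inv (i : σ) (f : K σ) (hf : f ≠ 0) : pd i f⁻¹ = -(pd i f) / f ^ 2 := by
  have h := pd_mul i f f⁻¹
  have h1 : pd i (1 : K σ) = 0 := (pdD i).map_one_eq_zero
  rw [mul_inv_cancel₀ hf, h1] at h
  have : f * pd i f⁻¹ = - (f⁻¹ * pd i f) := by linear_combination -h
  field_simp
  field_simp at this
  linear_combination this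

@[simp] theorem pd_one (i : σ) : pd i (1 : K σ) = 0 := (pdD i).map_one_eq_zero

theorem pd_pow (i : σ) (f : K σ) (n : ℕ) : pd i (f ^ n) = n * f ^ (n - 1) * pd i f := by
  have := (pdD i).leibniz_pow f n
  simp only [pdD_apply, nsmul_eq_mul, smul_eq_mul] at this
  rw [this]
  ring

end

end Adams
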