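import Pool.Agent.MP_fe6ac3_nt.Base

/-!
# [ADAMS-GRO] Bernstein's growth argument: existence of minimal `D`-submodules

Blueprint.  Let `n = |σ|`, `d = totalDegree q`, `Γ_k = {f | ∃ g, totalDegree g ≤ (d+1) k,
f = g / q^k}` (a finite dimensional `ℂ`-space, increasing in `k`; `x_i Γ_k ⊆ Γ_{k+1}`,
`∂_i Γ_k ⊆ Γ_{k+1}`; `⋃ Γ_k = ℂ[x, 1/q]`; `dim Γ_k ≤ ((d+1)k+1)^n`).

For a polynomial `F` in `2n` variables `(x, ξ)` let `Φ(F)` be the operator with
`Φ(x^α ξ^β) = x^α ∂^β` (normal ordering).  Then `[Φ(F), x_j] = Φ(∂F/∂ξ_j)`,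
`[∂_j, Φ(F)] = Φ(∂F/∂x_j)`, and `Φ(F) Γ_k ⊆ Γ_{k + totalDegree F}`.

Claim: if `N' < N` are `D`-stable inside `ℂ[x,1/q]`, `x₀ ∈ N ∩ Γ_{k₀}`, `x₀ ∉ N'`, `F ≠ 0` of degree
`≤ k`, then `Φ(F)` does not map `N ∩ Γ_{k₀+k}` into `N'`.  (Induction on `k`: otherwise all
`Φ(∂F/∂ξ_j)`, `Φ(∂F/∂x_j)` map `N ∩ Γ_{k₀+k-1}` into `N'`, so they vanish, `F` is constant.)
Hence with `G_k = (N ∩ Γ_k)/(N' ∩ Γ_k)`: `dim G_{k₀+k} · dim G_{k₀+2k} ≥ dim {F : deg F ≤ k}`, and for
`k = 2 n j` this is `≥ (j+1)^{2n}` (monomials with all exponents `≤ j`), so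
`dim G_{k₀+4nj} ≥ (j+1)^n`.

For a chain `N_0 < ⋯ < N_l` (choose `k₀` good for all steps): `l (j+1)^n ≤ dim Γ_{k₀+4nj} ≤
((d+1)(k₀+4nj)+1)^n`; for large `j` this gives `l ≤ (4n(d+1)+1)^n` or so.

`exists_minimal`: replace `N` by `N ∩ ℂ[x,1/q]`.  If there is no minimal one, build arbitrarily long
chains between `N₀` and `N₀ + D x` (for `N₀ ≤ M ≤ N₀ + D x` the modular law gives
`M = N₀ + (M ∩ D x)`, and `D x ⊆ ℂ[x,1/q]`, so strict inclusions stay strict after intersecting with
`ℂ[x,1/q]`).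
-/

open MvPolynomial

namespace Adams

noncomputable section

variable {σ : Type}

/-! ### Operators -/

/-- multiplication by polynomials -/
def gA : O σ →ₐ[ℂ] Module.End ℂ (K σ) := Algebra.lsmul ℂ ℂ (K σ)

theorem gA_apply (a : O σ) (f : K σ) : gA a f = a • f := rfl

/-- `∂_i` as an endomorphism -/
def gd (i : σ) : Module.End ℂ (K σ) := (pdD i).toLinearMap

theorem gd_apply (i : σ) (f : K σ) : gd i f = pd i f := rfl

theorem gd_comm (i j : σ) : gd i * gd j = gd j * gd i := by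
  ext f
  exact pd_comm i j f

theorem gd_comm' : ∀ a ∈ Set.range (gd : σ → Module.End ℂ (K σ)),
    ∀ b ∈ Set.range (gd : σ → Module.End ℂ (K σ)), a * b = b * a := by
  rintro _ ⟨i, rfl⟩ _ ⟨j, rfl⟩
  exact gd_comm i j

open scoped IsMulCommutative in
/-- polynomials in the `∂_i` -/
def gP : MvPolynomial σ ℂ →ₐ[ℂ] Module.End ℂ (K σ) :=
  have := Algebra.isMulCommutative_adjoin ℂ (gd_comm' (σ := σ))
  (Subalgebra.val (Algebra.adjoin ℂ (Set.range (gd : σ → Module.End ℂ (K σ))))).comp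
    (aeval (fun i => (⟨gd i, Algebra.subset_adjoin ⟨i, rfl⟩⟩ :
      Algebra.adjoin ℂ (Set.range (gd : σ → Module.End ℂ (K σ))))))

theorem gP_X (i : σ) : gP (X i) = gd i := by
  simp [gP]

/-- normal ordering -/
def gF : MvPolynomial (σ ⊕ σ) ℂ →ₗ[ℂ] Module.End ℂ (K σ) :=
  (basisMonomials (σ ⊕ σ) ℂ).constr ℂ (fun m =>
    gA (monomial (Finsupp.sumFinsuppEquivProdFinsupp m).1 1) *
      gP (monomial (Finsupp.sumFinsuppEquivProdFinsupp m).2 1))

theorem gF_monomial (m : (σ ⊕ σ) →₀ ℕ) :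
    gF (monomial m 1) = gA (monomial (Finsupp.sumFinsuppEquivProdFinsupp m).1 1) *
      gP (monomial (Finsupp.sumFinsuppEquivProdFinsupp m).2 1) := by
  have h : (monomial m (1 : ℂ)) = basisMonomials (σ ⊕ σ) ℂ m := by
    rw [coe_basisMonomials]
  rw [h]
  unfold gF
  rw [Module.Basis.constr_basis]

theorem g_split (m : (σ ⊕ σ) →₀ ℕ) (c : ℂ) :
    monomial m c = rename Sum.inl (monomial (Finsupp.sumFinsuppEquivProdFinsupp m).1 c) *
      rename Sum.inr (monomial (Finsupp.sumFinsuppEquivProdFinsupp m).2 1) := by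
  rw [rename_monomial, rename_monomial, monomial_mul, mul_one]
  have h : m = Finsupp.mapDomain Sum.inl (Finsupp.sumFinsuppEquivProdFinsupp m).1 +
      Finsupp.mapDomain (Sum.inr : σ → σ ⊕ σ) (Finsupp.sumFinsuppEquivProdFinsupp m).2 := by
    ext i
    rcases i with i | i
    · simp [Finsupp.mapDomain_apply Sum.inl_injective, Finsupp.mapDomain_of_notMem_range]
    · simp [Finsupp.mapDomain_apply Sum.inr_injective, Finsupp.mapDomain_of_notMem_range]
  rw [← h]

theorem gF_prod (a b : O σ) : gF (rename Sum.inl a * rename Sum.inr b) = gA a * gP b := by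
  induction a using MvPolynomial.induction_on' with
  | add p q hp hq => rw [map_add, add_mul, map_add, hp, hq, map_add, add_mul]
  | monomial m c =>
    induction b using MvPolynomial.induction_on' with
    | add p q hp hq => rw [map_add, mul_add, map_add, hp, hq, map_add, mul_add]
    | monomial m' c' =>
      have h1 : rename Sum.inl (monomial m c) * rename Sum.inr (monomial m' c')
          = (c * c') • (monomial (m.mapDomain Sum.inl + m'.mapDomain Sum.inr) (1 : ℂ) :
            MvPolynomial (σ ⊕ σ) ℂ) := by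
        rw [rename_monomial, rename_monomial, monomial_mul, smul_monomial, smul_eq_mul, mul_one]
      have h2 : (monomial m c : O σ) = c • monomial m 1 := by
        rw [smul_monomial, smul_eq_mul, mul_one]
      have h3 : (monomial m' c' : O σ) = c' • monomial m' 1 := by
        rw [smul_monomial, smul_eq_mul, mul_one]
      rw [h1, map_smul, gF_monomial, h2, h3, map_smul, map_smul, smul_mul_smul_comm]
      have h4 : Finsupp.sumFinsuppEquivProdFinsupp
          (Finsupp.mapDomain Sum.inl m + Finsupp.mapDomain (Sum.inr : σ → σ ⊕ σ) m') = (m, m') := by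
        ext i
        · simp [Finsupp.mapDomain_apply Sum.inl_injective, Finsupp.mapDomain_of_notMem_range]
        · simp [Finsupp.mapDomain_apply Sum.inr_injective, Finsupp.mapDomain_of_notMem_range]
      rw [h4]

theorem g_induction {p : MvPolynomial (σ ⊕ σ) ℂ → Prop}
    (hadd : ∀ F G, p F → p G → p (F + G))
    (hprod : ∀ a b : O σ, p (rename Sum.inl a * rename Sum.inr b)) (F : MvPolynomial (σ ⊕ σ) ℂ) :
    p F := by
  induction F using MvPolynomial.induction_on' with
  | add F G hF hG => exact hadd F G hF hG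
  | monomial m c => rw [g_split]; exact hprod _ _

theorem gd_gA (i : σ) (a : O σ) : gd i * gA a = gA a * gd i + gA (pderiv i a) := by
  ext f
  exact pd_smul i a f

theorem gP_comm_x (j : σ) (b : O σ) : gP b * gA (X j) = gA (X j) * gP b + gP (pderiv j b) := by
  classical
  induction b using MvPolynomial.induction_on with
  | C c =>
    have h : gP (C c : O σ) = algebraMap ℂ _ c := by
      rw [← algebraMap_eq, AlgHom.commutes]
    rw [h, Algebra.commutes, pderiv_C, map_zero, add_zero]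
  | add p q hp hq => rw [map_add, add_mul, hp, hq, map_add, map_add]; noncomm_ring
  | mul_X p i hp =>
    rw [map_mul, gP_X, mul_assoc, gd_gA, mul_add, ← mul_assoc, hp, pderiv_mul, map_add, map_mul,
      map_mul, gP_X, pderiv_X, pderiv_X]
    by_cases h : i = j
    · subst h
      simp only [Pi.single_eq_same, map_one]
      noncomm_ring
    · rw [Pi.single_eq_of_ne (Ne.symm h), Pi.single_eq_of_ne h]
      simp only [map_zero]
      noncomm_ring

theorem gF_comm_x (j : σ) (F : MvPolynomial (σ ⊕ σ) ℂ) :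
    gF F * gA (X j) = gA (X j) * gF F + gF (pderiv (Sum.inr j) F) := by
  classical
  induction F using g_induction with
  | hadd F G hF hG => rw [map_add, add_mul, hF, hG, map_add, map_add]; noncomm_ring
  | hprod a b =>
    have h1 : pderiv (Sum.inr j) (rename Sum.inl a * rename Sum.inr b : MvPolynomial (σ ⊕ σ) ℂ)
        = rename Sum.inl a * rename Sum.inr (pderiv j b) := by
      rw [pderiv_mul, pderiv_rename Sum.inr_injective, pderiv_eq_zero_of_notMem_vars, zero_mul,
        zero_add]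
      intro h
      have := vars_rename (Sum.inl : σ → σ ⊕ σ) a h
      simp at this
    rw [h1, gF_prod, gF_prod, mul_assoc, gP_comm_x, mul_add, ← mul_assoc, ← map_mul, mul_comm a,
      map_mul, mul_assoc]

theorem gF_comm_d (j : σ) (F : MvPolynomial (σ ⊕ σ) ℂ) :
    gd j * gF F = gF F * gd j + gF (pderiv (Sum.inl j) F) := by
  classical
  induction F using g_induction with
  | hadd F G hF hG => rw [map_add, mul_add, hF, hG, map_add, map_add]; noncomm_ring
  | hprod a b =>
    have h1 : pderiv (Sum.inl j) (rename Sum.inl a * rename Sum.inr b : MvPolynomial (σ ⊕ σ) ℂ)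
        = rename Sum.inl (pderiv j a) * rename Sum.inr b := by
      rw [pderiv_mul, pderiv_rename Sum.inl_injective]
      have : pderiv (Sum.inl j) (rename (Sum.inr : σ → σ ⊕ σ) b) = 0 := by
        apply pderiv_eq_zero_of_notMem_vars
        intro h
        have := vars_rename (Sum.inr : σ → σ ⊕ σ) b h
        simp at this
      rw [this, mul_zero, add_zero]
    have h2 : gd j * gP b = gP b * gd j := by
      rw [← gP_X, ← map_mul, ← map_mul, mul_comm]
    rw [h1, gF_prod, gF_prod, ← mul_assoc, gd_gA, add_mul, mul_assoc, h2, mul_assoc]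

theorem g_ι_smul (c : ℂ) (g : O σ) : (ι (c • g) : K σ) = c • ι g :=
  map_smul (IsScalarTower.toAlgHom ℂ (O σ) (K σ)) c g

/-- the filtration of `ℂ[x, 1/q]` -/
def gam (q : O σ) (k : ℕ) : Submodule ℂ (K σ) where
  carrier := {f | ∃ g : O σ, g.totalDegree ≤ (q.totalDegree + 1) * k ∧ ι (q ^ k) * f = ι g}
  zero_mem' := ⟨0, by simp, by simp⟩
  add_mem' := by
    rintro f f' ⟨g, hg, h⟩ ⟨g', hg', h'⟩
    exact ⟨g + g', (totalDegree_add _ _).trans (max_le hg hg'), by rw [mul_add, h, h', map_add]⟩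
  smul_mem' := by
    rintro c f ⟨g, hg, h⟩
    exact ⟨c • g, (totalDegree_smul_le _ _).trans hg, by rw [mul_smul_comm, h, g_ι_smul]⟩

theorem mem_gam (q : O σ) (k : ℕ) (f : K σ) : f ∈ gam q k ↔
    ∃ g : O σ, g.totalDegree ≤ (q.totalDegree + 1) * k ∧ ι (q ^ k) * f = ι g := Iff.rfl

theorem gam_step (q : O σ) (k : ℕ) {f : K σ} (h : f ∈ gam q k) : f ∈ gam q (k + 1) := by
  obtain ⟨g, hg, h⟩ := h
  refine ⟨g * q, (totalDegree_mul _ _).trans ?_, ?_⟩
  · nlinarith
  · rw [map_mul, ← h, pow_succ, map_mul]; ring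

theorem gam_mono (q : O σ) {k l : ℕ} (hkl : k ≤ l) : gam q k ≤ gam q l := by
  induction l, hkl using Nat.le_induction with
  | base => exact le_rfl
  | succ n hn ih => exact ih.trans fun f hf => gam_step q n hf

theorem gam_x (q : O σ) (k : ℕ) {f : K σ} (i : σ) (h : f ∈ gam q k) :
    gA (X i) f ∈ gam q (k + 1) := by
  obtain ⟨g, hg, h⟩ := h
  refine ⟨g * q * X i, (totalDegree_mul _ _).trans ?_, ?_⟩
  · have h1 := totalDegree_mul g q
    have h2 : (X i : O σ).totalDegree = 1 := totalDegree_X i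
    rw [h2]
    nlinarith
  · rw [gA_apply, Algebra.smul_def, map_mul, map_mul, ← h, pow_succ, map_mul]; ring

theorem g_totalDegree_pderiv {τ : Type} (i : τ) (p : MvPolynomial τ ℂ) :
    (pderiv i p).totalDegree ≤ p.totalDegree - 1 := by
  rw [totalDegree, Finset.sup_le_iff]
  intro m hm
  rw [mem_support_iff, coeff_pderiv] at hm
  have h1 : m + Finsupp.single i 1 ∈ p.support := by
    rw [mem_support_iff]
    intro h
    rw [h, zero_mul] at hm
    exact hm rfl
  have h2 := le_totalDegree h1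
  rw [Finsupp.sum_add_index' (by simp) (by simp), Finsupp.sum_single_index rfl] at h2
  omega

theorem gam_d (q : O σ) (k : ℕ) {f : K σ} (i : σ) (h : f ∈ gam q k) :
    gd i f ∈ gam q (k + 1) := by
  obtain ⟨g, hg, h⟩ := h
  refine ⟨q * pderiv i g - (k : O σ) * (pderiv i q * g), ?_, ?_⟩
  · refine (totalDegree_sub _ _).trans (max_le ?_ ?_)
    · have h1 := totalDegree_mul q (pderiv i g)
      have h2 := g_totalDegree_pderiv i g
      have h3 : (pderiv i g).totalDegree ≤ g.totalDegree := h2.trans (Nat.sub_le _ _)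
      nlinarith
    · have h1 := totalDegree_mul (k : O σ) (pderiv i q * g)
      have h0 : (k : O σ).totalDegree = 0 := by
        rw [← map_natCast (C : ℂ →+* O σ), totalDegree_C]
      have h2 := totalDegree_mul (pderiv i q) g
      have h3 := g_totalDegree_pderiv i q
      have h4 : (pderiv i q).totalDegree ≤ q.totalDegree := h3.trans (Nat.sub_le _ _)
      rw [h0] at h1
      nlinarith
  · rw [gd_apply]
    have h1 := congrArg (pd i) h
    rw [pd_mul, pd_ι, pd_ι, pderiv_pow] at h1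
    have h2 : (ι q : K σ) * ι ((k : O σ) * q ^ (k - 1) * pderiv i q)
        = (k : K σ) * ι (q ^ k) * ι (pderiv i q) := by
      rcases k with _ | k
      · simp
      · rw [Nat.add_sub_cancel, pow_succ]
        simp only [map_mul, map_natCast]
        ring
    have e1 : (ι (q * pderiv i g - (k : O σ) * (pderiv i q * g)) : K σ)
        = ι q * ι (pderiv i g) - k * (ι (pderiv i q) * ι g) := by
      simp only [map_sub, map_mul, map_natCast]
    have e2 : (ι (q ^ (k + 1)) : K σ) = ι (q ^ k) * ι q := by rw [pow_succ, map_mul]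
    rw [e1, ← h1, ← h, e2]
    linear_combination (-f) * h2

theorem gam_Apow (q : O σ) (i : σ) (n : ℕ) : ∀ (k : ℕ) (f : K σ), f ∈ gam q k →
    gA (X i ^ n) f ∈ gam q (k + n) := by
  induction n with
  | zero => intro k f h; simpa using h
  | succ n ih =>
    intro k f h
    rw [pow_succ, map_mul, Module.End.mul_apply]
    have := ih (k + 1) _ (gam_x q k i h)
    rwa [show k + (n + 1) = k + 1 + n by ring]

theorem gam_Ppow (q : O σ) (i : σ) (n : ℕ) : ∀ (k : ℕ) (f : K σ), f ∈ gam q k →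
    gP (X i ^ n) f ∈ gam q (k + n) := by
  induction n with
  | zero => intro k f h; simpa using h
  | succ n ih =>
    intro k f h
    rw [pow_succ, map_mul, Module.End.mul_apply, gP_X]
    have := ih (k + 1) _ (gam_d q k i h)
    rwa [show k + (n + 1) = k + 1 + n by ring]

theorem g_monomial_add (α β : σ →₀ ℕ) :
    (monomial (α + β) 1 : O σ) = monomial α 1 * monomial β 1 := by
  rw [monomial_mul, one_mul]

theorem gam_A (q : O σ) (α : σ →₀ ℕ) : ∀ (k : ℕ) (f : K σ), f ∈ gam q k →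
    gA (monomial α 1) f ∈ gam q (k + α.sum fun _ e => e) := by
  induction α using Finsupp.induction_linear with
  | zero => intro k f h; simpa using h
  | add α β hα hβ =>
    intro k f h
    rw [g_monomial_add, map_mul, Module.End.mul_apply,
      Finsupp.sum_add_index' (by simp) (by simp)]
    have := hα _ _ (hβ k f h)
    rwa [show k + ((α.sum fun _ e => e) + β.sum fun _ e => e)
      = k + (β.sum fun _ e => e) + (α.sum fun _ e => e) by ring]
  | single i n =>
    intro k f h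
    rw [Finsupp.sum_single_index rfl, ← X_pow_eq_monomial]
    exact gam_Apow q i n k f h

theorem gam_P (q : O σ) (α : σ →₀ ℕ) : ∀ (k : ℕ) (f : K σ), f ∈ gam q k →
    gP (monomial α 1) f ∈ gam q (k + α.sum fun _ e => e) := by
  induction α using Finsupp.induction_linear with
  | zero => intro k f h; simpa using h
  | add α β hα hβ =>
    intro k f h
    rw [g_monomial_add, map_mul, Module.End.mul_apply,
      Finsupp.sum_add_index' (by simp) (by simp)]
    have := hα _ _ (hβ k f h)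
    rwa [show k + ((α.sum fun _ e => e) + β.sum fun _ e => e)
      = k + (β.sum fun _ e => e) + (α.sum fun _ e => e) by ring]
  | single i n =>
    intro k f h
    rw [Finsupp.sum_single_index rfl, ← X_pow_eq_monomial]
    exact gam_Ppow q i n k f h

theorem g_sum_split (m : (σ ⊕ σ) →₀ ℕ) : (m.sum fun _ e => e) =
    ((Finsupp.sumFinsuppEquivProdFinsupp m).1.sum fun _ e => e) +
      ((Finsupp.sumFinsuppEquivProdFinsupp m).2.sum fun _ e => e) := by
  have h : m = Finsupp.mapDomain Sum.inl (Finsupp.sumFinsuppEquivProdFinsupp m).1 +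
      Finsupp.mapDomain (Sum.inr : σ → σ ⊕ σ) (Finsupp.sumFinsuppEquivProdFinsupp m).2 := by
    ext i
    rcases i with i | i
    · simp [Finsupp.mapDomain_apply Sum.inl_injective, Finsupp.mapDomain_of_notMem_range]
    · simp [Finsupp.mapDomain_apply Sum.inr_injective, Finsupp.mapDomain_of_notMem_range]
  conv_lhs => rw [h]
  rw [Finsupp.sum_add_index' (by simp) (by simp), Finsupp.sum_mapDomain_index (by simp) (by simp),
    Finsupp.sum_mapDomain_index (by simp) (by simp)]

theorem gam_F (q : O σ) (F : MvPolynomial (σ ⊕ σ) ℂ) (k d : ℕ) (hd : F.totalDegree ≤ d) (f : K σ)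
    (h : f ∈ gam q k) : gF F f ∈ gam q (k + d) := by
  have h1 : F = ∑ m ∈ F.support, (coeff m F) • monomial m (1 : ℂ) := by
    conv_lhs => rw [F.as_sum]
    apply Finset.sum_congr rfl
    intro m _
    rw [smul_monomial, smul_eq_mul, mul_one]
  rw [h1, map_sum, LinearMap.sum_apply]
  apply Submodule.sum_mem
  intro m hm
  rw [map_smul, LinearMap.smul_apply]
  apply Submodule.smul_mem
  rw [gF_monomial, Module.End.mul_apply]
  have h2 := gam_A q (Finsupp.sumFinsuppEquivProdFinsupp m).1 _ _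
    (gam_P q (Finsupp.sumFinsuppEquivProdFinsupp m).2 _ _ h)
  have h3 := le_totalDegree hm
  have h4 := g_sum_split m
  exact gam_mono q (by omega) h2

theorem gF_mem (N : Submodule (O σ) (K σ)) (hN : DStable N) (F : MvPolynomial (σ ⊕ σ) ℂ) :
    ∀ f ∈ N, gF F f ∈ N := by
  induction F using g_induction with
  | hadd F G hF hG =>
    intro f hf
    rw [map_add, LinearMap.add_apply]
    exact N.add_mem (hF f hf) (hG f hf)
  | hprod a b =>
    intro f hf
    rw [gF_prod, Module.End.mul_apply, gA_apply]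
    apply N.smul_mem
    induction b using MvPolynomial.induction_on generalizing f with
    | C c =>
      have h : gP (C c : O σ) = algebraMap ℂ _ c := by
        rw [← algebraMap_eq, AlgHom.commutes]
      rw [h, Module.algebraMap_end_apply]
      exact (N.restrictScalars ℂ).smul_mem c hf
    | add p q hp hq =>
      rw [map_add, LinearMap.add_apply]
      exact N.add_mem (hp f hf) (hq f hf)
    | mul_X p i hp =>
      rw [map_mul, gP_X, Module.End.mul_apply]
      exact hp _ (hN i f hf)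

theorem g_const {τ : Type} (F : MvPolynomial τ ℂ) (h : ∀ i, pderiv i F = 0) :
    F = C (coeff 0 F) := by
  classical
  ext m
  rw [coeff_C]
  split_ifs with hm
  · rw [hm]
  · obtain ⟨i, hi⟩ : ∃ i, m i ≠ 0 := by
      by_contra hcon
      push Not at hcon
      exact hm (Finsupp.ext fun i => (hcon i).symm)
    have h1 := coeff_pderiv (i := i) F (m - Finsupp.single i 1)
    rw [h i, coeff_zero] at h1
    have h2 : m - Finsupp.single i 1 + Finsupp.single i 1 = m := by
      apply tsub_add_cancel_of_le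
      rw [Finsupp.single_le_iff]
      omega
    rw [h2] at h1
    have h3 : (((m - Finsupp.single i 1 : τ →₀ ℕ) i : ℂ) + 1) ≠ 0 := Nat.cast_add_one_ne_zero _
    rcases mul_eq_zero.1 h1.symm with h | h
    · exact h
    · exact absurd h h3

theorem g_inj (q : O σ) (N N' : Submodule (O σ) (K σ)) (hN : DStable N) (hN' : DStable N')
    (k₀ : ℕ) (x₀ : K σ) (hx : x₀ ∈ N) (hxk : x₀ ∈ gam q k₀) (hx' : x₀ ∉ N') (k : ℕ) :
    ∀ F : MvPolynomial (σ ⊕ σ) ℂ, F.totalDegree ≤ k →
      (∀ f ∈ N, f ∈ gam q (k₀ + k) → gF F f ∈ N') → F = 0 := by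
  induction k with
  | zero =>
    intro F hF h
    have h1 : F = C (coeff 0 F) := totalDegree_eq_zero_iff_eq_C.1 (Nat.le_zero.1 hF)
    have h2 := h x₀ hx hxk
    have h3 : gF F x₀ = (coeff 0 F) • x₀ := by
      have h4 : F = rename Sum.inl (C (coeff 0 F) : O σ) * rename Sum.inr 1 := by
        rw [rename_C, map_one, mul_one]; exact h1
      conv_lhs => rw [h4]
      rw [gF_prod, map_one, mul_one, gA_apply, ← algebraMap_eq, algebraMap_smul]
    by_contra hF0
    have h5 : coeff 0 F ≠ 0 := by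
      intro h0
      rw [h0, map_zero] at h1
      exact hF0 h1
    rw [h3] at h2
    apply hx'
    have h6 := (N'.restrictScalars ℂ).smul_mem (coeff 0 F)⁻¹ h2
    rwa [smul_smul, inv_mul_cancel₀ h5, one_smul] at h6
  | succ k ih =>
    intro F hF h
    have hpd : ∀ i, pderiv i F = 0 := by
      intro i
      have hdeg : (pderiv i F).totalDegree ≤ k := by
        have := g_totalDegree_pderiv i F
        omega
      apply ih _ hdeg
      intro f hf hfk
      have hfk' : f ∈ gam q (k₀ + (k + 1)) := gam_step q _ hfk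
      rcases i with i | i
      · have h1 := LinearMap.congr_fun (gF_comm_d i F) f
        rw [LinearMap.add_apply, Module.End.mul_apply, Module.End.mul_apply] at h1
        have h2 : gF (pderiv (Sum.inl i) F) f = gd i (gF F f) - gF F (gd i f) := by
          rw [h1]; abel
        rw [h2]
        apply N'.sub_mem
        · exact hN' i _ (h f hf hfk')
        · exact h _ (hN i f hf) (gam_d q _ i hfk)
      · have h1 := LinearMap.congr_fun (gF_comm_x i F) f
        rw [LinearMap.add_apply, Module.End.mul_apply, Module.End.mul_apply] at h1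
        have h2 : gF (pderiv (Sum.inr i) F) f = gF F (gA (X i) f) - gA (X i) (gF F f) := by
          rw [h1]; abel
        rw [h2]
        apply N'.sub_mem
        · exact h _ (N.smul_mem _ hf) (gam_x q _ i hfk)
        · exact N'.smul_mem _ (h f hf hfk')
    have h1 := g_const F hpd
    have h2 : F.totalDegree = 0 := by rw [h1, totalDegree_C]
    have hpd0 : ∀ f ∈ N, f ∈ gam q (k₀ + k) → gF F f ∈ N' := fun f hf hfk =>
      h f hf (gam_step q _ hfk)
    exact ih F (by omega) hpd0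

/-! ### Dimensions -/

theorem g_card_fun {τ : Type} [Finite τ] (m : ℕ) :
    Nat.card (τ → Fin (m + 1)) = (m + 1) ^ Nat.card τ := by
  classical
  have := Fintype.ofFinite τ
  rw [Nat.card_eq_fintype_card, Nat.card_eq_fintype_card, Fintype.card_pi]
  simp

theorem g_card_upper {τ : Type} [Finite τ] (m : ℕ) :
    Finite {n : τ →₀ ℕ | ∀ i, n i ≤ m} ∧
      Nat.card {n : τ →₀ ℕ | ∀ i, n i ≤ m} ≤ (m + 1) ^ Nat.card τ := by
  have := Fintype.ofFinite τ
  let e : {n : τ →₀ ℕ | ∀ i, n i ≤ m} → (τ → Fin (m + 1)) := fun n i =>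
    ⟨n.1 i, Nat.lt_succ_of_le (n.2 i)⟩
  have he : Function.Injective e := by
    intro a b hab
    apply Subtype.ext
    ext i
    exact congrArg Fin.val (congrFun hab i)
  refine ⟨Finite.of_injective e he, (Nat.card_le_card_of_injective e he).trans ?_⟩
  rw [g_card_fun]

theorem g_finite_total {τ : Type} [Finite τ] (m : ℕ) :
    Finite {n : τ →₀ ℕ | (n.sum fun _ e => e) ≤ m} := by
  have h := (g_card_upper (τ := τ) m).1
  apply Set.Finite.subset (s := {n : τ →₀ ℕ | ∀ i, n i ≤ m}) h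
  intro n hn i
  refine le_trans ?_ hn
  by_cases h : i ∈ n.support
  · exact Finset.single_le_sum (f := fun i => n i) (fun _ _ => Nat.zero_le _) h
  · rw [Finsupp.notMem_support_iff.1 h]; exact Nat.zero_le _

theorem g_fd_total {τ : Type} [Finite τ] (m : ℕ) :
    Module.Finite ℂ (restrictTotalDegree τ ℂ m) := by
  have := g_finite_total (τ := τ) m
  exact Module.Finite.of_basis (basisRestrictSupport ℂ {n : τ →₀ ℕ | (n.sum fun _ e => e) ≤ m})

theorem g_finrank_upper {τ : Type} [Finite τ] (m : ℕ) :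
    Module.finrank ℂ (restrictTotalDegree τ ℂ m) ≤ (m + 1) ^ Nat.card τ := by
  obtain ⟨h1, h2⟩ := g_card_upper (τ := τ) m
  have h3 : Module.Finite ℂ (restrictDegree τ ℂ m) :=
    Module.Finite.of_basis (basisRestrictSupport ℂ {n : τ →₀ ℕ | ∀ i, n i ≤ m})
  refine (Submodule.finrank_mono (restrictTotalDegree_le_restrictDegree τ ℂ m)).trans ?_
  have h4 : Module.finrank ℂ (restrictDegree τ ℂ m) = Nat.card {n : τ →₀ ℕ | ∀ i, n i ≤ m} :=
    Module.finrank_eq_nat_card_basis (basisRestrictSupport ℂ {n : τ →₀ ℕ | ∀ i, n i ≤ m})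
  rw [h4]
  exact h2

theorem g_finrank_lower {τ : Type} [Finite τ] (j : ℕ) :
    (j + 1) ^ Nat.card τ ≤ Module.finrank ℂ (restrictTotalDegree τ ℂ (Nat.card τ * j)) := by
  have := Fintype.ofFinite τ
  have hfin := g_finite_total (τ := τ) (Nat.card τ * j)
  have h1 : Module.finrank ℂ (restrictTotalDegree τ ℂ (Nat.card τ * j))
      = Nat.card {n : τ →₀ ℕ | (n.sum fun _ e => e) ≤ Nat.card τ * j} :=
    Module.finrank_eq_nat_card_basis (basisRestrictSupport ℂ _)
  rw [h1]
  let e : (τ → Fin (j + 1)) → {n : τ →₀ ℕ | (n.sum fun _ e => e) ≤ Nat.card τ * j} := fun f =>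
    ⟨Finsupp.equivFunOnFinite.symm (fun i => (f i : ℕ)), by
      rw [Set.mem_ofPred_eq, Finsupp.sum_fintype _ _ (by simp)]
      simp only [Finsupp.equivFunOnFinite_symm_apply_apply]
      refine (Finset.sum_le_card_nsmul _ _ j ?_).trans ?_
      · intro i _
        exact Nat.lt_succ_iff.1 (f i).2
      · simp⟩
  have he : Function.Injective e := by
    intro a b hab
    funext i
    have := congrArg (fun n => n.1 i) hab
    simp only [e, Finsupp.equivFunOnFinite_symm_apply_apply] at this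
    exact Fin.ext this
  have h2 := Nat.card_le_card_of_injective e he
  rwa [g_card_fun] at h2

theorem gam_le_range (q : O σ) (hq : q ≠ 0) (k : ℕ) : gam q k ≤
    ((LinearMap.mulLeft ℂ (ι (q ^ k) : K σ)⁻¹).comp
      ((IsScalarTower.toAlgHom ℂ (O σ) (K σ)).toLinearMap.comp
        (restrictTotalDegree σ ℂ ((q.totalDegree + 1) * k)).subtype)).range := by
  rintro f ⟨g, hg, h⟩
  refine ⟨⟨g, (mem_restrictTotalDegree _ _ _).2 hg⟩, ?_⟩
  change (ι (q ^ k) : K σ)⁻¹ * ι g = f
  rw [← h, ← mul_assoc, inv_mul_cancel₀ (ι_ne_zero (pow_ne_zero k hq)), one_mul]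

theorem gam_fd [Finite σ] (q : O σ) (hq : q ≠ 0) (k : ℕ) : FiniteDimensional ℂ (gam q k) := by
  have := g_fd_total (τ := σ) ((q.totalDegree + 1) * k)
  exact Submodule.finiteDimensional_of_le (gam_le_range q hq k)

theorem gam_finrank [Finite σ] (q : O σ) (hq : q ≠ 0) (k : ℕ) :
    Module.finrank ℂ (gam q k) ≤ ((q.totalDegree + 1) * k + 1) ^ Nat.card σ := by
  have := g_fd_total (τ := σ) ((q.totalDegree + 1) * k)
  refine (Submodule.finrank_mono (gam_le_range q hq k)).trans ?_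
  refine (LinearMap.finrank_range_le _).trans ?_
  exact g_finrank_upper _

/-! ### The graded pieces -/

/-- the image of `N ∩ Γ_k` in the quotient by `N'` -/
def gG (q : O σ) (N N' : Submodule (O σ) (K σ)) (k : ℕ) :
    Submodule ℂ (K σ ⧸ N'.restrictScalars ℂ) :=
  Submodule.map (N'.restrictScalars ℂ).mkQ (N.restrictScalars ℂ ⊓ gam q k)

theorem gG_fd [Finite σ] (q : O σ) (hq : q ≠ 0) (N N' : Submodule (O σ) (K σ)) (k : ℕ) :
    FiniteDimensional ℂ (gG q N N' k) := by
  have := gam_fd q hq k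
  have : FiniteDimensional ℂ (N.restrictScalars ℂ ⊓ gam q k : Submodule ℂ (K σ)) :=
    Submodule.finiteDimensional_of_le inf_le_right
  unfold gG
  infer_instance

theorem gG_mono (q : O σ) (N N' : Submodule (O σ) (K σ)) {k l : ℕ} (h : k ≤ l) :
    gG q N N' k ≤ gG q N N' l :=
  Submodule.map_mono (inf_le_inf_left _ (gam_mono q h))

theorem gG_dim (q : O σ) (hq : q ≠ 0) (N N' : Submodule (O σ) (K σ)) [Finite σ]
    (hN : DStable N) (hN' : DStable N')
    (k₀ : ℕ) (x₀ : K σ) (hx : x₀ ∈ N) (hxk : x₀ ∈ gam q k₀) (hx' : x₀ ∉ N') (k : ℕ) :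
    Module.finrank ℂ (restrictTotalDegree (σ ⊕ σ) ℂ k) ≤
      Module.finrank ℂ (gG q N N' (k₀ + k)) * Module.finrank ℂ (gG q N N' (k₀ + k + k)) := by
  have fd1 := gG_fd q hq N N' (k₀ + k)
  have fd2 := gG_fd q hq N N' (k₀ + k + k)
  have hle : ∀ F : MvPolynomial (σ ⊕ σ) ℂ,
      N'.restrictScalars ℂ ≤ (N'.restrictScalars ℂ).comap (gF F) := fun F f hf =>
    gF_mem N' hN' F f hf
  let Q : MvPolynomial (σ ⊕ σ) ℂ → (K σ ⧸ N'.restrictScalars ℂ) →ₗ[ℂ]
      (K σ ⧸ N'.restrictScalars ℂ) := fun F => Submodule.mapQ _ _ (gF F) (hle F)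
  have hQ : ∀ (F : MvPolynomial (σ ⊕ σ) ℂ) (f : K σ),
      Q F ((N'.restrictScalars ℂ).mkQ f) = (N'.restrictScalars ℂ).mkQ (gF F f) := fun F f =>
    Submodule.mapQ_apply _ _ _ _
  have hQadd : ∀ (F G : MvPolynomial (σ ⊕ σ) ℂ) (y : K σ ⧸ N'.restrictScalars ℂ),
      Q (F + G) y = Q F y + Q G y := by
    intro F G y
    obtain ⟨f, rfl⟩ := Submodule.mkQ_surjective _ y
    rw [hQ, hQ, hQ, map_add, LinearMap.add_apply, map_add]
  have hQsmul : ∀ (c : ℂ) (F : MvPolynomial (σ ⊕ σ) ℂ) (y : K σ ⧸ N'.restrictScalars ℂ),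
      Q (c • F) y = c • Q F y := by
    intro c F y
    obtain ⟨f, rfl⟩ := Submodule.mkQ_surjective _ y
    rw [hQ, hQ, map_smul, LinearMap.smul_apply, map_smul]
  have hres : ∀ F : MvPolynomial (σ ⊕ σ) ℂ, F.totalDegree ≤ k →
      ∀ y ∈ gG q N N' (k₀ + k), Q F y ∈ gG q N N' (k₀ + k + k) := by
    rintro F hF y ⟨f, ⟨hf1, hf2⟩, rfl⟩
    rw [hQ]
    exact ⟨gF F f, ⟨gF_mem N hN F f hf1, gam_F q F _ _ hF f hf2⟩, rfl⟩
  let T : (restrictTotalDegree (σ ⊕ σ) ℂ k) →ₗ[ℂ]
      (gG q N N' (k₀ + k) →ₗ[ℂ] gG q N N' (k₀ + k + k)) :=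
    { toFun := fun F => (Q F.1).restrict (hres F.1 ((mem_restrictTotalDegree _ _ _).1 F.2))
      map_add' := fun F G => LinearMap.ext fun y => Subtype.ext (hQadd F.1 G.1 y.1)
      map_smul' := fun c F => LinearMap.ext fun y => Subtype.ext (hQsmul c F.1 y.1) }
  have hT : Function.Injective T := by
    rw [injective_iff_map_eq_zero]
    intro F hF
    apply Subtype.ext
    apply g_inj q N N' hN hN' k₀ x₀ hx hxk hx' k F.1 ((mem_restrictTotalDegree _ _ _).1 F.2)
    intro f hf hfk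
    have h1 := LinearMap.congr_fun hF ⟨(N'.restrictScalars ℂ).mkQ f, ⟨f, ⟨hf, hfk⟩, rfl⟩⟩
    have h2 := congrArg Subtype.val h1
    have h3 : (N'.restrictScalars ℂ).mkQ (gF F.1 f) = 0 := by
      rw [← hQ]; exact h2
    rw [Submodule.mkQ_apply, Submodule.Quotient.mk_eq_zero] at h3
    exact h3
  have := LinearMap.finrank_le_finrank_of_injective hT
  rwa [Module.finrank_linearMap] at this

theorem gG_lower (q : O σ) (hq : q ≠ 0) (N N' : Submodule (O σ) (K σ)) [Finite σ]
    (hN : DStable N) (hN' : DStable N')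
    (k₀ : ℕ) (x₀ : K σ) (hx : x₀ ∈ N) (hxk : x₀ ∈ gam q k₀) (hx' : x₀ ∉ N') (j : ℕ) :
    (j + 1) ^ Nat.card σ ≤ Module.finrank ℂ (gG q N N' (k₀ + 4 * Nat.card σ * j)) := by
  have h1 := gG_dim q hq N N' hN hN' k₀ x₀ hx hxk hx' (Nat.card (σ ⊕ σ) * j)
  have h2 := g_finrank_lower (τ := σ ⊕ σ) j
  have h3 : Nat.card (σ ⊕ σ) = 2 * Nat.card σ := by rw [Nat.card_sum]; ring
  have fd2 := gG_fd q hq N N' (k₀ + 4 * Nat.card σ * j)
  have h4 : Module.finrank ℂ (gG q N N' (k₀ + Nat.card (σ ⊕ σ) * j)) ≤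
      Module.finrank ℂ (gG q N N' (k₀ + 4 * Nat.card σ * j)) := by
    apply Submodule.finrank_mono
    apply gG_mono
    rw [h3]
    nlinarith [Nat.zero_le (Nat.card σ * j)]
  have h5 : k₀ + Nat.card (σ ⊕ σ) * j + Nat.card (σ ⊕ σ) * j = k₀ + 4 * Nat.card σ * j := by
    rw [h3]; ring
  rw [h5] at h1
  have h6 : (j + 1) ^ Nat.card σ * (j + 1) ^ Nat.card σ ≤
      Module.finrank ℂ (gG q N N' (k₀ + 4 * Nat.card σ * j)) *
        Module.finrank ℂ (gG q N N' (k₀ + 4 * Nat.card σ * j)) := by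
    rw [← pow_add, ← two_mul, ← h3]
    exact h2.trans (h1.trans (Nat.mul_le_mul_right _ h4))
  exact Nat.mul_self_le_mul_self_iff.1 h6

theorem g_chain (q : O σ) (hq : q ≠ 0) [Finite σ] (N : ℕ → Submodule (O σ) (K σ)) (k : ℕ) (l : ℕ)
    (hN : ∀ i < l, N i ≤ N (i + 1)) :
    ∑ i ∈ Finset.range l, Module.finrank ℂ (gG q (N (i + 1)) (N i) k) ≤
      Module.finrank ℂ ((N l).restrictScalars ℂ ⊓ gam q k : Submodule ℂ (K σ)) := by
  have := gam_fd q hq k
  induction l with
  | zero => simp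
  | succ l ih =>
    rw [Finset.sum_range_succ]
    have h1 := ih fun i hi => hN i (by omega)
    have fd : ∀ i, FiniteDimensional ℂ ((N i).restrictScalars ℂ ⊓ gam q k : Submodule ℂ (K σ)) :=
      fun i => Submodule.finiteDimensional_of_le inf_le_right
    have fd1 := fd (l + 1)
    have fd0 := fd l
    set U := ((N (l + 1)).restrictScalars ℂ ⊓ gam q k : Submodule ℂ (K σ)) with hU
    let φ : U →ₗ[ℂ] (K σ ⧸ (N l).restrictScalars ℂ) :=
      ((N l).restrictScalars ℂ).mkQ.comp U.subtype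
    have h2 := LinearMap.finrank_range_add_finrank_ker φ
    have h3 : LinearMap.range φ = gG q (N (l + 1)) (N l) k := by
      rw [LinearMap.range_comp, Submodule.range_subtype]
      rfl
    have h4 : Module.finrank ℂ ((N l).restrictScalars ℂ ⊓ gam q k : Submodule ℂ (K σ)) ≤
        Module.finrank ℂ (LinearMap.ker φ) := by
      have hle := hN l (Nat.lt_succ_self l)
      let ψ : ((N l).restrictScalars ℂ ⊓ gam q k : Submodule ℂ (K σ)) →ₗ[ℂ] LinearMap.ker φ :=
        { toFun := fun f => ⟨⟨f.1, ⟨hle f.2.1, f.2.2⟩⟩, by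
            rw [LinearMap.mem_ker]
            change ((N l).restrictScalars ℂ).mkQ f.1 = 0
            rw [Submodule.mkQ_apply, Submodule.Quotient.mk_eq_zero]
            exact f.2.1⟩
          map_add' := fun _ _ => rfl
          map_smul' := fun _ _ => rfl }
      apply LinearMap.finrank_le_finrank_of_injective (f := ψ)
      intro a b hab
      apply Subtype.ext
      exact congrArg (fun x => (x.1.1 : K σ)) hab
    rw [h3] at h2
    omega

theorem g_mem_gam (q : O σ) (f : K σ) (hf : f ∈ locAway q) : ∃ k, f ∈ gam q k := by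
  obtain ⟨n, g, h⟩ := hf
  refine ⟨n + g.totalDegree, q ^ g.totalDegree * g, ?_, ?_⟩
  · refine (totalDegree_mul _ _).trans ?_
    have := totalDegree_pow q g.totalDegree
    nlinarith [Nat.zero_le (q.totalDegree * n)]
  · rw [pow_add, map_mul, map_mul, ← h]; ring

theorem growth [Finite σ] (q : O σ) (hq : q ≠ 0) :
    ∃ B : ℕ, ∀ (l : ℕ) (N : ℕ → Submodule (O σ) (K σ)), (∀ i, DStable (N i)) →
      (∀ i < l, N i < N (i + 1)) → (∀ i ≤ l, ∀ f ∈ N i, f ∈ locAway q) → l ≤ B := by
  refine ⟨((q.totalDegree + 1) * (4 * Nat.card σ + 1) + 1) ^ Nat.card σ, ?_⟩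
  intro l N hD hlt hloc
  -- choose elements
  have hx : ∀ i, ∃ (k : ℕ) (x : K σ), i < l → x ∈ N (i + 1) ∧ x ∉ N i ∧ x ∈ gam q k := by
    intro i
    by_cases hi : i < l
    · obtain ⟨x, hx1, hx2⟩ := SetLike.exists_of_lt (hlt i hi)
      obtain ⟨k, hk⟩ := g_mem_gam q x (hloc (i + 1) hi x hx1)
      exact ⟨k, x, fun _ => ⟨hx1, hx2, hk⟩⟩
    · exact ⟨0, 0, fun h => absurd h hi⟩
  choose kk xx hkx using hx
  set k₀ := (Finset.range l).sup kk with hk₀
  set n := Nat.card σ with hn
  set j := k₀ with hj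
  have h1 : ∀ i ∈ Finset.range l,
      (j + 1) ^ n ≤ Module.finrank ℂ (gG q (N (i + 1)) (N i) (k₀ + 4 * n * j)) := by
    intro i hi
    obtain ⟨h1, h2, h3⟩ := hkx i (Finset.mem_range.1 hi)
    exact gG_lower q hq (N (i + 1)) (N i) (hD _) (hD _) k₀ (xx i) h1
      (gam_mono q (Finset.le_sup (f := kk) hi) h3) h2 j
  have h2 := g_chain q hq N (k₀ + 4 * n * j) l fun i hi => (hlt i hi).le
  have h3 : l * (j + 1) ^ n ≤
      ∑ i ∈ Finset.range l, Module.finrank ℂ (gG q (N (i + 1)) (N i) (k₀ + 4 * n * j)) := by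
    have := Finset.card_nsmul_le_sum _ _ _ h1
    rwa [Finset.card_range, smul_eq_mul] at this
  have fd := gam_fd q hq (k₀ + 4 * n * j)
  have h4 : Module.finrank ℂ ((N l).restrictScalars ℂ ⊓ gam q (k₀ + 4 * n * j) :
      Submodule ℂ (K σ)) ≤ Module.finrank ℂ (gam q (k₀ + 4 * n * j)) :=
    Submodule.finrank_mono inf_le_right
  have h5 := gam_finrank q hq (k₀ + 4 * n * j)
  have h6 : (q.totalDegree + 1) * (k₀ + 4 * n * j) + 1 ≤
      ((q.totalDegree + 1) * (4 * n + 1) + 1) * (j + 1) := by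
    rw [← hj]
    nlinarith [Nat.zero_le (q.totalDegree * n), Nat.zero_le (q.totalDegree * j),
      Nat.zero_le (n * j)]
  have h7 : l * (j + 1) ^ n ≤ (((q.totalDegree + 1) * (4 * n + 1) + 1)) ^ n * (j + 1) ^ n := by
    rw [← mul_pow]
    exact (h3.trans h2).trans (h4.trans (h5.trans (Nat.pow_le_pow_left h6 n)))
  exact Nat.le_of_mul_le_mul_right h7 (pow_pos (Nat.succ_pos j) n)

/-- `ℂ[x, 1/q]` as a submodule -/
def groSub (q : O σ) : Submodule (O σ) (K σ) where
  carrier := locAway q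
  zero_mem' := ⟨0, 0, by simp⟩
  add_mem' := by
    rintro f f' ⟨n, g, h⟩ ⟨n', g', h'⟩
    refine ⟨n + n', q ^ n' * g + q ^ n * g', ?_⟩
    rw [pow_add, map_mul, map_add, map_mul, map_mul, ← h, ← h']
    ring
  smul_mem' := by
    rintro c f ⟨n, g, h⟩
    refine ⟨n, c * g, ?_⟩
    rw [map_mul, ← h, Algebra.smul_def]
    ring

theorem groSub_DStable (q : O σ) : DStable (groSub q) := by
  rintro i f hf
  obtain ⟨k, hk⟩ := g_mem_gam q f hf
  obtain ⟨g, -, hg⟩ := gam_d q k i hk
  exact ⟨k + 1, g, hg⟩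

theorem g_sup_DStable {M N : Submodule (O σ) (K σ)} (hM : DStable M) (hN : DStable N) :
    DStable (M ⊔ N) := by
  intro i f hf
  obtain ⟨a, ha, b, hb, rfl⟩ := Submodule.mem_sup.1 hf
  rw [pd_add]
  exact Submodule.add_mem_sup (hM i a ha) (hN i b hb)

theorem g_inf_DStable {M N : Submodule (O σ) (K σ)} (hM : DStable M) (hN : DStable N) :
    DStable (M ⊓ N) := fun i f hf => ⟨hM i f hf.1, hN i f hf.2⟩

theorem exists_minimal [Finite σ] (q : O σ) (hq : q ≠ 0) (N₀ T₀ : Submodule (O σ) (K σ))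
    (hN₀ : DStable N₀) (hT₀ : DStable T₀) (h : N₀ ≤ T₀) (x : K σ) (hx : x ∈ locAway q)
    (hxT : x ∈ T₀) (hxN : x ∉ N₀) :
    ∃ M : Submodule (O σ) (K σ), N₀ < M ∧ M ≤ T₀ ∧ DStable M ∧
      ∀ M' : Submodule (O σ) (K σ), N₀ < M' → M' ≤ M → DStable M' → M' = M := by
  obtain ⟨B, hB⟩ := growth q hq
  set W : Submodule (O σ) (K σ) := groSub q ⊓ T₀ with hW
  have hWD : DStable W := g_inf_DStable (groSub_DStable q) hT₀
  by_contra hcon
  push Not at hcon
  let S : Set (Submodule (O σ) (K σ)) := {M | N₀ < M ∧ M ≤ N₀ ⊔ W ∧ DStable M}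
  have hST : N₀ ⊔ W ≤ T₀ := sup_le h inf_le_right
  have hstep : ∀ M : S, ∃ M' : S, M'.1 < M.1 := by
    rintro ⟨M, hM1, hM2, hM3⟩
    obtain ⟨M', h1, h2, h3, h4⟩ := hcon M hM1 (hM2.trans hST) hM3
    exact ⟨⟨M', h1, h2.trans hM2, h3⟩, lt_of_le_of_ne h2 h4⟩
  choose nxt hnxt using hstep
  have h0 : (N₀ ⊔ W) ∈ S := by
    refine ⟨lt_of_le_of_ne le_sup_left ?_, le_rfl, g_sup_DStable hN₀ hWD⟩
    intro h
    apply hxN
    rw [h]
    exact Submodule.mem_sup_right ⟨hx, hxT⟩
  let seq : ℕ → S := fun n => nxt^[n] ⟨N₀ ⊔ W, h0⟩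
  have hseq : ∀ n, (seq (n + 1)).1 < (seq n).1 := by
    intro n
    change (nxt^[n + 1] ⟨N₀ ⊔ W, h0⟩).1 < _
    rw [Function.iterate_succ_apply']
    exact hnxt _
  have hinf : ∀ n, (seq (n + 1)).1 ⊓ W < (seq n).1 ⊓ W := by
    intro n
    refine lt_of_le_of_ne (inf_le_inf_right _ (hseq n).le) ?_
    intro heq
    have hmod : ∀ m, (seq m).1 = N₀ ⊔ ((seq m).1 ⊓ W) := by
      intro m
      have h1 : N₀ ≤ (seq m).1 := (seq m).2.1.le
      have h2 : (seq m).1 ≤ N₀ ⊔ W := (seq m).2.2.1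
      calc (seq m).1 = (N₀ ⊔ W) ⊓ (seq m).1 := by rw [inf_eq_right.2 h2]
        _ = N₀ ⊔ (W ⊓ (seq m).1) := sup_inf_assoc_of_le W h1
        _ = N₀ ⊔ ((seq m).1 ⊓ W) := by rw [inf_comm]
    have h3 := hmod (n + 1)
    rw [heq, ← hmod n] at h3
    exact (hseq n).ne h3
  have hfin := hB (B + 1) (fun i => (seq (B + 1 - i)).1 ⊓ W)
    (fun i => g_inf_DStable (seq _).2.2.2 hWD)
    (by
      intro i hi
      have h1 := hinf (B + 1 - (i + 1))
      have h2 : B + 1 - (i + 1) + 1 = B + 1 - i := by omega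
      rwa [h2] at h1)
    (fun i _ f hf => hf.2.1)
  omega

end

end Adams
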