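import Pool.Agent.MP_fe6ac3_nt.Base

/-!
# [ADAMS-ISO] Two generators with the same relations have the same annihilator
-/

open MvPolynomial

namespace Adams

noncomputable section

namespace Iso

/-- the polynomial ring `ℂ(y)[s]` -/
abbrev RR (Y : Type) : Type := MvPolynomial (ST 0) (K Y)

/-- A module with compatible derivations (a model with `N = 0`). -/
structure DM (Y V : Type) [AddCommGroup V] [Module (RR Y) V] where
  /-- the action of `∂/∂s_l` -/
  δ : ST 0 → V →+ V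
  /-- the action of `∂/∂y_j` -/
  δy : Y → V →+ V
  δρ : ∀ l (f : RR Y) (v : V), δ l (f • v) = pderiv l f • v + f • δ l v
  δyρ : ∀ j (f : RR Y) (v : V), δy j (f • v) = dY j f • v + f • δy j v
  δδ : ∀ l l' v, δ l (δ l' v) = δ l' (δ l v)
  δyδ : ∀ j l v, δy j (δ l v) = δ l (δy j v)

abbrev a00 : ST 0 := Sum.inl (0, 0, 0)
abbrev a01 : ST 0 := Sum.inl (0, 0, 1)
abbrev a10 : ST 0 := Sum.inl (0, 1, 0)
abbrev a11 : ST 0 := Sum.inl (0, 1, 1)
abbrev b00 : ST 0 := Sum.inl (1, 0, 0)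
abbrev b01 : ST 0 := Sum.inl (1, 0, 1)
abbrev b10 : ST 0 := Sum.inl (1, 1, 0)
abbrev b11 : ST 0 := Sum.inl (1, 1, 1)
abbrev e00 : ST 0 := Sum.inl (2, 0, 0)
abbrev e01 : ST 0 := Sum.inl (2, 0, 1)
abbrev e10 : ST 0 := Sum.inl (2, 1, 0)
abbrev e11 : ST 0 := Sum.inl (2, 1, 1)
abbrev d00 : ST 0 := Sum.inl (3, 0, 0)
abbrev d01 : ST 0 := Sum.inl (3, 0, 1)
abbrev d10 : ST 0 := Sum.inl (3, 1, 0)
abbrev d11 : ST 0 := Sum.inl (3, 1, 1)

/-- the dependent letters -/
def wI : Fin 8 → ST 0 := ![a11, b01, b11, e01, e11, d01, d10, d11]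

/-- the free letters -/
def uI : Fin 8 → ST 0 := ![a01, a00, a10, b00, b10, e10, d00, e00]

theorem cases_ST : ∀ l : ST 0, (∃ i, l = uI i) ∨ ∃ i, l = wI i := by decide

theorem wI_ne_uI : ∀ i j, uI i ≠ wI j := by decide

theorem wI_inj : ∀ i j, wI i = wI j → i = j := by decide

section Rel

variable {Y V : Type} [AddCommGroup V] [Module (RR Y) V]

/-- The relations of the generator, in a module with `N = 0`. -/
structure KR (D : DM Y V) (κ : V) : Prop where
  inj : ∀ l : ST 0, l ∈ ({a00, a10, b10, e00, d00} : Set (ST 0)) →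
    ∀ x : V, (X l : RR Y) • x = 0 → x = 0
  dy : ∀ j, D.δy j κ = 0
  q : ∀ j, quad (fun l => (X l : RR Y)) j • κ = 0
  t1 : (X a00 : RR Y) • D.δ a01 κ + (X a10 : RR Y) • D.δ a11 κ
    + (X b00 : RR Y) • D.δ b01 κ + (X b10 : RR Y) • D.δ b11 κ = 0
  t2 : (X a10 : RR Y) • D.δ a00 κ + (X a11 : RR Y) • D.δ a01 κ
    - (X e00 : RR Y) • D.δ e01 κ - (X e10 : RR Y) • D.δ e11 κ = 0
  t3 : (X a10 : RR Y) • D.δ a10 κ + (X a11 : RR Y) • D.δ a11 κ
    - (X e01 : RR Y) • D.δ e01 κ - (X e11 : RR Y) • D.δ e11 κ = 0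
  t4 : (X b10 : RR Y) • D.δ b00 κ + (X b11 : RR Y) • D.δ b01 κ
    - (X d00 : RR Y) • D.δ d01 κ - (X d10 : RR Y) • D.δ d11 κ = 0
  t5 : (X b10 : RR Y) • D.δ b10 κ + (X b11 : RR Y) • D.δ b11 κ
    - (X d01 : RR Y) • D.δ d01 κ - (X d11 : RR Y) • D.δ d11 κ = 0
  t6 : (X e00 : RR Y) • D.δ e10 κ + (X e01 : RR Y) • D.δ e11 κ
    + (X d00 : RR Y) • D.δ d10 κ + (X d01 : RR Y) • D.δ d11 κ = 0
  t7 : (X d00 : RR Y) • D.δ d00 κ + (X d01 : RR Y) • D.δ d01 κ
    + (X d10 : RR Y) • D.δ d10 κ + (X d11 : RR Y) • D.δ d11 κ + (3 : ℤ) • κ = 0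
  t8 : (X e00 : RR Y) • D.δ e00 κ + (X e01 : RR Y) • D.δ e01 κ
    + (X d00 : RR Y) • D.δ d00 κ + (X d01 : RR Y) • D.δ d01 κ + (3 : ℤ) • κ = 0

/-- polynomials in the free letters -/
def B (F : RR Y) : Prop := ∀ i, pderiv (wI i) F = 0

theorem B_add {F G : RR Y} (hF : B F) (hG : B G) : B (F + G) := fun i => by
  rw [map_add, hF i, hG i, add_zero]

theorem B_neg {F : RR Y} (hF : B F) : B (-F) := fun i => by
  rw [map_neg, hF i, neg_zero]

theorem B_mul {F G : RR Y} (hF : B F) (hG : B G) : B (F * G) := fun i => by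
  rw [pderiv_mul, hF i, hG i, zero_mul, mul_zero, add_zero]

theorem B_one : B (1 : RR Y) := fun _ => pderiv_one

theorem B_C (a : K Y) : B (C a : RR Y) := fun _ => pderiv_C

theorem B_X (i : Fin 8) : B (X (uI i) : RR Y) := fun j => pderiv_X_of_ne (wI_ne_uI i j)

theorem B_a00 : B (X a00 : RR Y) := B_X 1
theorem B_a01 : B (X a01 : RR Y) := B_X 0
theorem B_a10 : B (X a10 : RR Y) := B_X 2
theorem B_b00 : B (X b00 : RR Y) := B_X 3
theorem B_b10 : B (X b10 : RR Y) := B_X 4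
theorem B_e00 : B (X e00 : RR Y) := B_X 7
theorem B_e10 : B (X e10 : RR Y) := B_X 5
theorem B_d00 : B (X d00 : RR Y) := B_X 6

theorem pderiv_pderiv (l l' : ST 0) (F : RR Y) :
    pderiv l (pderiv l' F) = pderiv l' (pderiv l F) := by
  ext m
  rw [coeff_pderiv, coeff_pderiv, coeff_pderiv, coeff_pderiv]
  by_cases h : l = l'
  · subst h; rfl
  · have h1 : ((m + Finsupp.single l 1 : ST 0 →₀ ℕ)) l' = m l' := by
      simp [h]
    have h2 : ((m + Finsupp.single l' 1 : ST 0 →₀ ℕ)) l = m l := by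
      simp [Ne.symm h]
    rw [h1, h2, add_right_comm]
    ring

theorem dY_pderiv (j : Y) (l : ST 0) (F : RR Y) :
    dY j (pderiv l F) = pderiv l (dY j F) := by
  induction F using MvPolynomial.induction_on' with
  | add p q hp hq => rw [map_add, map_add, map_add, map_add, hp, hq]
  | monomial m c =>
    rw [pderiv_monomial, dY_monomial, dY_monomial, pderiv_monomial]
    congr 1
    have : (m l : K Y) = ι (C (m l : ℂ)) := by simp
    rw [pd_mul, this, pd_ι, pderiv_C, map_zero, mul_zero, zero_add, mul_comm]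

theorem B_pderiv {F : RR Y} (hF : B F) (l : ST 0) : B (pderiv l F) := fun i => by
  rw [pderiv_pderiv, hF i, map_zero]

theorem B_dY {F : RR Y} (hF : B F) (j : Y) : B (dY j F) := fun i => by
  rw [← dY_pderiv, hF i, map_zero]

/-- the common multiple `c` of the leading coefficients -/
def cc : RR Y := X a00 * X a10 * X b10 * X e00

/-- the constant terms -/
def aa : Fin 8 → RR Y :=
  ![X a10 * X b10 * X e00 * (X a01 * X a10), X a10 * X b10 * X e00 * (X a01 * X b00),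
    X a10 * X b10 * X e00 * (X a01 * X b10), -(X a00 * X b10 * X e00 * (X e00 * X a00)),
    -(X a00 * X b10 * X e00 * (X e10 * X a00)), -(X a00 * X a10 * X e00 * (X d00 * X b00)),
    X a00 * X a10 * X b10 * (X e10 * X d00), -(X a00 * X a10 * (X b00 * X e10 * X d00))]

/-- `h'_w = c w - a'_w` -/
def hh (i : Fin 8) : RR Y := cc * X (wI i) - aa i

theorem B_cc : B (cc : RR Y) := B_mul (B_mul (B_mul B_a00 B_a10) B_b10) B_e00

theorem B_aa (i : Fin 8) : B (aa i : RR Y) := by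
  have h1 := B_a00 (Y := Y)
  have h2 := B_a01 (Y := Y)
  have h3 := B_a10 (Y := Y)
  have h4 := B_b00 (Y := Y)
  have h5 := B_b10 (Y := Y)
  have h6 := B_e00 (Y := Y)
  have h7 := B_e10 (Y := Y)
  have h8 := B_d00 (Y := Y)
  fin_cases i
  · exact B_mul (B_mul (B_mul h3 h5) h6) (B_mul h2 h3)
  · exact B_mul (B_mul (B_mul h3 h5) h6) (B_mul h2 h4)
  · exact B_mul (B_mul (B_mul h3 h5) h6) (B_mul h2 h5)
  · exact B_neg (B_mul (B_mul (B_mul h1 h5) h6) (B_mul h6 h1))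
  · exact B_neg (B_mul (B_mul (B_mul h1 h5) h6) (B_mul h7 h1))
  · exact B_neg (B_mul (B_mul (B_mul h1 h3) h6) (B_mul h8 h4))
  · exact B_mul (B_mul (B_mul h1 h3) h5) (B_mul h7 h8)
  · exact B_neg (B_mul (B_mul h1 h3) (B_mul (B_mul h4 h7) h8))

theorem pderiv_hh (i j : Fin 8) :
    pderiv (wI j) (hh i : RR Y) = if i = j then cc else 0 := by
  rw [hh, map_sub, pderiv_mul, B_cc j, B_aa i j, zero_mul, zero_add, sub_zero]
  by_cases h : i = j
  · subst h
    rw [pderiv_X_self, mul_one, if_pos rfl]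
  · rw [pderiv_X_of_ne (fun h' => h (wI_inj _ _ h')), mul_zero, if_neg h]

variable {D : DM Y V} {κ : V}

theorem hh_kappa (hκ : KR D κ) (i : Fin 8) : (hh i : RR Y) • κ = 0 := by
  have hq : ∀ (j : Fin 8) (d : RR Y), (d * quad (fun l => (X l : RR Y)) j) • κ = 0 := by
    intro j d
    rw [mul_smul, hκ.q j, smul_zero]
  fin_cases i
  · rw [← hq 0 (X a10 * X b10 * X e00)]
    congr 1
    simp [hh, cc, aa, wI, quad, zB]
    ring
  · rw [← hq 1 (X a10 * X b10 * X e00)]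
    congr 1
    simp [hh, cc, aa, wI, quad, zB]
    ring
  · rw [← hq 2 (X a10 * X b10 * X e00)]
    congr 1
    simp [hh, cc, aa, wI, quad, zB]
    ring
  · rw [← hq 3 (X a00 * X b10 * X e00)]
    congr 1
    simp [hh, cc, aa, wI, quad, zB]
    ring
  · rw [← hq 4 (X a00 * X b10 * X e00)]
    congr 1
    simp [hh, cc, aa, wI, quad, zB]
    ring
  · rw [← hq 5 (X a00 * X a10 * X e00)]
    congr 1
    simp [hh, cc, aa, wI, quad, zB]
    ring
  · rw [← hq 6 (X a00 * X a10 * X b10)]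
    congr 1
    simp [hh, cc, aa, wI, quad, zB]
    ring
  · have h := hq 7 (X a00 * X a10 * X e00)
    have h' := hq 6 (X a00 * X a10 * X b00)
    have h2 : (hh 7 : RR Y) = X a00 * X a10 * X e00 * quad (fun l => (X l : RR Y)) 7 -
        X a00 * X a10 * X b00 * quad (fun l => (X l : RR Y)) 6 := by
      simp [hh, cc, aa, wI, quad, zB]
      ring
    change (hh 7 : RR Y) • κ = 0
    rw [h2, sub_smul, h, h', sub_zero]

/-- `∂_{w_1} ⋯ ∂_{w_k} v` -/
def wd (D : DM Y V) (l : List (Fin 8)) (v : V) : V := l.foldr (fun i x => D.δ (wI i) x) v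

@[simp] theorem wd_nil (v : V) : wd D [] v = v := rfl

@[simp] theorem wd_cons (i : Fin 8) (l : List (Fin 8)) (v : V) :
    wd D (i :: l) v = D.δ (wI i) (wd D l v) := rfl

theorem wd_add (l : List (Fin 8)) (v v' : V) : wd D l (v + v') = wd D l v + wd D l v' := by
  induction l with
  | nil => rfl
  | cons i l ih => rw [wd_cons, wd_cons, wd_cons, ih, map_add]

theorem wd_B (l : List (Fin 8)) {F : RR Y} (hF : B F) (v : V) :
    wd D l (F • v) = F • wd D l v := by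
  induction l with
  | nil => rfl
  | cons i l ih => rw [wd_cons, wd_cons, ih, D.δρ, hF i, zero_smul, zero_add]

theorem wd_δ (l : List (Fin 8)) (s : ST 0) (v : V) :
    D.δ s (wd D l v) = wd D l (D.δ s v) := by
  induction l with
  | nil => rfl
  | cons i l ih => rw [wd_cons, wd_cons, ← ih, D.δδ]

theorem wd_δy (l : List (Fin 8)) (j : Y) (v : V) :
    D.δy j (wd D l v) = wd D l (D.δy j v) := by
  induction l with
  | nil => rfl
  | cons i l ih => rw [wd_cons, wd_cons, ← ih, D.δyδ]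

/-- the filtration `E_n` -/
def E (D : DM Y V) (κ : V) (n : ℕ) : AddSubgroup V :=
  AddSubgroup.closure {v | ∃ l : List (Fin 8), l.length ≤ n ∧ ∃ F : RR Y, B F ∧
    v = wd D l (F • κ)}

theorem mem_E {n : ℕ} {l : List (Fin 8)} (hl : l.length ≤ n) {F : RR Y} (hF : B F) :
    wd D l (F • κ) ∈ E D κ n :=
  AddSubgroup.subset_closure ⟨l, hl, F, hF, rfl⟩

theorem E_map (φ : V →+ V) {n : ℕ} {S : AddSubgroup V}
    (h : ∀ (l : List (Fin 8)) (F : RR Y), l.length ≤ n → B F → φ (wd D l (F • κ)) ∈ S) :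
    ∀ v ∈ E D κ n, φ v ∈ S := by
  intro v hv
  have : E D κ n ≤ S.comap φ := by
    rw [E, AddSubgroup.closure_le]
    rintro _ ⟨l, hl, F, hF, rfl⟩
    exact h l F hl hF
  exact this hv

theorem E_mono {n m : ℕ} (h : n ≤ m) : E D κ n ≤ E D κ m := by
  rw [E, AddSubgroup.closure_le]
  rintro _ ⟨l, hl, F, hF, rfl⟩
  exact mem_E (hl.trans h) hF

theorem E_B {n : ℕ} {G : RR Y} (hG : B G) {v : V} (hv : v ∈ E D κ n) : G • v ∈ E D κ n := by
  refine E_map (DistribSMul.toAddMonoidHom V G) ?_ v hv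
  intro l F hl hF
  change G • wd D l (F • κ) ∈ _
  rw [← wd_B l hG, ← mul_smul]
  exact mem_E hl (B_mul hG hF)

theorem E_δ {n : ℕ} (i : Fin 8) {v : V} (hv : v ∈ E D κ n) : D.δ (wI i) v ∈ E D κ (n + 1) := by
  refine E_map (D.δ (wI i)) ?_ v hv
  intro l F hl hF
  rw [← wd_cons]
  exact mem_E (by simpa using hl) hF

theorem E_δy (hκ : KR D κ) {n : ℕ} (j : Y) {v : V} (hv : v ∈ E D κ n) :
    D.δy j v ∈ E D κ n := by
  refine E_map (D.δy j) ?_ v hv
  intro l F hl hF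
  rw [wd_δy, D.δyρ, hκ.dy, smul_zero, add_zero]
  exact mem_E hl (B_dY hF j)

theorem hh_nil (hκ : KR D κ) (i : Fin 8) {F : RR Y} : (hh i : RR Y) • (F • κ) = 0 := by
  rw [smul_comm, hh_kappa hκ, smul_zero]

theorem hh_cons (i j : Fin 8) (v : V) :
    (hh i : RR Y) • D.δ (wI j) v = D.δ (wI j) ((hh i : RR Y) • v) -
      (if i = j then (cc : RR Y) else 0) • v := by
  rw [D.δρ, pderiv_hh]
  abel

theorem hh_gen (hκ : KR D κ) (i : Fin 8) {F : RR Y} (hF : B F) (l : List (Fin 8)) :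
    ∀ n, l.length ≤ n + 1 → (hh i : RR Y) • wd D l (F • κ) ∈ E D κ n := by
  induction l with
  | nil =>
    intro n _
    rw [wd_nil, hh_nil hκ]
    exact zero_mem _
  | cons j l ih =>
    intro n hn
    rw [wd_cons, hh_cons]
    have hl : l.length ≤ n := by simpa using hn
    refine sub_mem ?_ ?_
    · rcases n with _ | n
      · have : l = [] := by simpa using hl
        subst this
        rw [wd_nil, hh_nil hκ, map_zero]
        exact zero_mem _
      · exact E_δ j (ih n hl)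
    · by_cases hij : i = j
      · rw [if_pos hij]
        exact E_B B_cc (mem_E hl hF)
      · rw [if_neg hij, zero_smul]
        exact zero_mem _

theorem hh_E (hκ : KR D κ) (i : Fin 8) {n : ℕ} {v : V} (hv : v ∈ E D κ (n + 1)) :
    (hh i : RR Y) • v ∈ E D κ n :=
  E_map (DistribSMul.toAddMonoidHom V (hh i : RR Y)) (fun l _ hl hF => hh_gen hκ i hF l n hl) v hv

/-- the Euler operator -/
def eu (D : DM Y V) : V →+ V :=
  ∑ i : Fin 8, (D.δ (wI i)).comp (DistribSMul.toAddMonoidHom V (hh i : RR Y))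

theorem eu_apply (v : V) : eu D v = ∑ i : Fin 8, D.δ (wI i) ((hh i : RR Y) • v) := by
  rw [eu, AddMonoidHom.finsetSum_apply]
  rfl

theorem eu_gen (hκ : KR D κ) {F : RR Y} (l : List (Fin 8)) :
    (l.length : ℕ) • ((cc : RR Y) • wd D l (F • κ)) + eu D (wd D l (F • κ)) = 0 := by
  induction l with
  | nil =>
    rw [eu_apply]
    simp [hh_nil hκ]
  | cons j l ih =>
    have h1 : eu D (wd D (j :: l) (F • κ)) =
        D.δ (wI j) (eu D (wd D l (F • κ))) - (cc : RR Y) • D.δ (wI j) (wd D l (F • κ)) := by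
      rw [eu_apply, eu_apply, map_sum]
      have : ∀ i : Fin 8, D.δ (wI i) ((hh i : RR Y) • wd D (j :: l) (F • κ)) =
          D.δ (wI j) (D.δ (wI i) ((hh i : RR Y) • wd D l (F • κ))) -
            if i = j then (cc : RR Y) • D.δ (wI j) (wd D l (F • κ)) else 0 := by
        intro i
        rw [wd_cons, hh_cons, map_sub, D.δδ]
        congr 1
        by_cases hij : i = j
        · subst hij
          rw [if_pos rfl, if_pos rfl, D.δρ, B_cc i, zero_smul, zero_add]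
        · rw [if_neg hij, if_neg hij, zero_smul, map_zero]
      rw [Finset.sum_congr rfl (fun i _ => this i), Finset.sum_sub_distrib,
        Finset.sum_ite_eq' Finset.univ j, if_pos (Finset.mem_univ _)]
    have h2 : eu D (wd D l (F • κ)) = -((l.length : ℕ) • ((cc : RR Y) • wd D l (F • κ))) :=
      eq_neg_of_add_eq_zero_right ih
    rw [h1, h2, map_neg, map_nsmul, D.δρ, B_cc j, zero_smul, zero_add, wd_cons, List.length_cons,
      succ_nsmul]
    abel

theorem eu_E (hκ : KR D κ) {n : ℕ} {v : V} (hv : v ∈ E D κ (n + 1)) :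
    (n + 1) • ((cc : RR Y) • v) + eu D v ∈ E D κ n := by
  have := E_map (D := D) (κ := κ) (n := n + 1) (S := E D κ n)
    ((n + 1) • (DistribSMul.toAddMonoidHom V (cc : RR Y)) + eu D) ?_ v hv
  · exact this
  · intro l F hl hF
    change (n + 1) • ((cc : RR Y) • wd D l (F • κ)) + eu D (wd D l (F • κ)) ∈ _
    rcases Nat.lt_or_ge n l.length with h | h
    · have h' : l.length = n + 1 := le_antisymm hl h
      rw [← h', eu_gen hκ]
      exact zero_mem _
    · have h2 : eu D (wd D l (F • κ)) = -((l.length : ℕ) • ((cc : RR Y) • wd D l (F • κ))) :=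
        eq_neg_of_add_eq_zero_right (eu_gen hκ l)
      rw [h2]
      exact add_mem (nsmul_mem (E_B B_cc (mem_E h hF)) _)
        (neg_mem (nsmul_mem (E_B B_cc (mem_E h hF)) _))

/-- the multiplicative set generated by the injective letters -/
def TT (Y : Type) : Submonoid (RR Y) :=
  Submonoid.closure {f | ∃ l ∈ ({a00, a10, b10, e00, d00} : Set (ST 0)), f = X l}

theorem TT_X {l : ST 0} (hl : l ∈ ({a00, a10, b10, e00, d00} : Set (ST 0))) :
    (X l : RR Y) ∈ TT Y := Submonoid.subset_closure ⟨l, hl, rfl⟩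

theorem TT_cc : (cc : RR Y) ∈ TT Y :=
  mul_mem (mul_mem (mul_mem (TT_X (by simp)) (TT_X (by simp))) (TT_X (by simp)))
    (TT_X (by simp))

theorem TT_B {f : RR Y} (hf : f ∈ TT Y) : B f := by
  refine Submonoid.closure_induction ?_ B_one (fun x y _ _ hx hy => B_mul hx hy) hf
  rintro _ ⟨l, hl, rfl⟩
  rcases hl with h | h | h | h | h
  · rw [h]; exact B_a00
  · rw [h]; exact B_a10
  · rw [h]; exact B_b10
  · rw [h]; exact B_e00
  · rw [h]; exact B_d00

theorem TT_inj (hκ : KR D κ) {f : RR Y} (hf : f ∈ TT Y) : ∀ x : V, f • x = 0 → x = 0 := by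
  refine Submonoid.closure_induction ?_ ?_ ?_ hf
  · rintro _ ⟨l, hl, rfl⟩ x hx
    exact hκ.inj l hl x hx
  · intro x hx
    simpa using hx
  · intro f g _ _ hf hg x hx
    rw [mul_smul] at hx
    exact hg x (hf _ hx)

theorem TT_dY {f : RR Y} (hf : f ∈ TT Y) (j : Y) : dY j f = 0 := by
  refine Submonoid.closure_induction ?_ ?_ ?_ hf
  · rintro _ ⟨l, hl, rfl⟩
    exact dY_X j l
  · have := dY_C (S := ST 0) j (1 : K Y)
    rwa [pd_one, map_zero, map_one] at this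
  · intro f g _ _ hf hg
    rw [dY_mul, hf, hg, mul_zero, mul_zero, add_zero]

/-- the saturation of the union of the `E_n` -/
def NN (D : DM Y V) (κ v : V) : Prop := ∃ f ∈ TT Y, ∃ n, f • v ∈ E D κ n

theorem NN_add {v v' : V} (h : NN D κ v) (h' : NN D κ v') : NN D κ (v + v') := by
  obtain ⟨f, hf, n, hn⟩ := h
  obtain ⟨f', hf', n', hn'⟩ := h'
  refine ⟨f * f', mul_mem hf hf', max n n', ?_⟩
  rw [smul_add]
  refine add_mem ?_ ?_
  · rw [mul_comm, mul_smul]
    exact E_B (TT_B hf') (E_mono (le_max_left _ _) hn)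
  · rw [mul_smul]
    exact E_B (TT_B hf) (E_mono (le_max_right _ _) hn')

theorem NN_B {v : V} (h : NN D κ v) {F : RR Y} (hF : B F) : NN D κ (F • v) := by
  obtain ⟨f, hf, n, hn⟩ := h
  refine ⟨f, hf, n, ?_⟩
  rw [smul_comm]
  exact E_B hF hn

theorem NN_neg {v : V} (h : NN D κ v) : NN D κ (-v) := by
  obtain ⟨f, hf, n, hn⟩ := h
  refine ⟨f, hf, n, ?_⟩
  rw [smul_neg]
  exact neg_mem hn

theorem NN_sub {v v' : V} (h : NN D κ v) (h' : NN D κ v') : NN D κ (v - v') := by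
  rw [sub_eq_add_neg]
  exact NN_add h (NN_neg h')

theorem NN_zero : NN D κ 0 := ⟨1, one_mem _, 0, by rw [smul_zero]; exact zero_mem _⟩

theorem NN_sat {f : RR Y} (hf : f ∈ TT Y) {v : V} (h : NN D κ (f • v)) : NN D κ v := by
  obtain ⟨g, hg, n, hn⟩ := h
  exact ⟨g * f, mul_mem hg hf, n, by rwa [mul_smul]⟩

theorem NN_E {n : ℕ} {v : V} (h : v ∈ E D κ n) : NN D κ v :=
  ⟨1, one_mem _, n, by rwa [one_smul]⟩

theorem NN_kappa : NN D κ κ := by
  apply NN_E (n := 0)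
  have := mem_E (D := D) (κ := κ) (n := 0) (l := []) (by simp) B_one
  simpa using this

theorem NN_δw {v : V} (h : NN D κ v) (i : Fin 8) : NN D κ (D.δ (wI i) v) := by
  obtain ⟨f, hf, n, hn⟩ := h
  refine ⟨f, hf, n + 1, ?_⟩
  have := E_δ i hn
  rwa [D.δρ, TT_B hf i, zero_smul, zero_add] at this

theorem NN_X (hκ : KR D κ) {v : V} (h : NN D κ v) (i : Fin 8) :
    NN D κ ((X (wI i) : RR Y) • v) := by
  obtain ⟨f, hf, n, hn⟩ := h
  refine ⟨cc * f, mul_mem TT_cc hf, n, ?_⟩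
  have h1 : ((cc : RR Y) * f) • ((X (wI i) : RR Y) • v) =
      (hh i : RR Y) • (f • v) + (aa i : RR Y) • (f • v) := by
    rw [hh, ← mul_smul, ← mul_smul, ← mul_smul, ← add_smul]
    congr 1
    ring
  rw [h1]
  exact add_mem (hh_E hκ i (E_mono (Nat.le_succ n) hn)) (E_B (B_aa i) hn)

theorem NN_δy (hκ : KR D κ) {v : V} (h : NN D κ v) (j : Y) : NN D κ (D.δy j v) := by
  obtain ⟨f, hf, n, hn⟩ := h
  refine ⟨f, hf, n, ?_⟩
  have := E_δy hκ j hn
  rwa [D.δyρ, TT_dY hf, zero_smul, zero_add] at this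

theorem NN_cancel {l : ST 0} (hl : l ∈ ({a00, a10, b10, e00, d00} : Set (ST 0))) {v w' : V}
    (hw : NN D κ w') (h : (X l : RR Y) • v + w' = 0) : NN D κ v := by
  apply NN_sat (TT_X hl)
  rw [eq_neg_of_add_eq_zero_left h]
  exact NN_neg hw

theorem NN_δu_kappa (hκ : KR D κ) (i : Fin 8) : NN D κ (D.δ (uI i) κ) := by
  have hk := NN_kappa (D := D) (κ := κ)
  have ha11 : NN D κ (D.δ a11 κ) := NN_δw hk 0
  have hb01 : NN D κ (D.δ b01 κ) := NN_δw hk 1
  have hb11 : NN D κ (D.δ b11 κ) := NN_δw hk 2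
  have he01 : NN D κ (D.δ e01 κ) := NN_δw hk 3
  have he11 : NN D κ (D.δ e11 κ) := NN_δw hk 4
  have hd01 : NN D κ (D.δ d01 κ) := NN_δw hk 5
  have hd10 : NN D κ (D.δ d10 κ) := NN_δw hk 6
  have hd11 : NN D κ (D.δ d11 κ) := NN_δw hk 7
  have h3 : NN D κ ((3 : ℤ) • κ) := by
    have := NN_add (NN_add hk hk) hk
    convert this using 1
    abel
  have ha01 : NN D κ (D.δ a01 κ) := by
    have p1 : NN D κ ((X a10 : RR Y) • D.δ a11 κ) := NN_B ha11 B_a10
    have p2 : NN D κ ((X b00 : RR Y) • D.δ b01 κ) := NN_B hb01 B_b00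
    have p3 : NN D κ ((X b10 : RR Y) • D.δ b11 κ) := NN_B hb11 B_b10
    refine NN_cancel (l := a00) (by simp) (NN_add (NN_add p1 p2) p3) ?_
    rw [← hκ.t1]; abel
  have ha00 : NN D κ (D.δ a00 κ) := by
    have p1 : NN D κ ((X a11 : RR Y) • D.δ a01 κ) := NN_X hκ ha01 0
    have p2 : NN D κ ((X e00 : RR Y) • D.δ e01 κ) := NN_B he01 B_e00
    have p3 : NN D κ ((X e10 : RR Y) • D.δ e11 κ) := NN_B he11 B_e10
    refine NN_cancel (l := a10) (by simp) (NN_sub (NN_sub p1 p2) p3) ?_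
    rw [← hκ.t2]; abel
  have ha10 : NN D κ (D.δ a10 κ) := by
    have p1 : NN D κ ((X a11 : RR Y) • D.δ a11 κ) := NN_X hκ ha11 0
    have p2 : NN D κ ((X e01 : RR Y) • D.δ e01 κ) := NN_X hκ he01 3
    have p3 : NN D κ ((X e11 : RR Y) • D.δ e11 κ) := NN_X hκ he11 4
    refine NN_cancel (l := a10) (by simp) (NN_sub (NN_sub p1 p2) p3) ?_
    rw [← hκ.t3]; abel
  have hb00 : NN D κ (D.δ b00 κ) := by
    have p1 : NN D κ ((X b11 : RR Y) • D.δ b01 κ) := NN_X hκ hb01 2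
    have p2 : NN D κ ((X d00 : RR Y) • D.δ d01 κ) := NN_B hd01 B_d00
    have p3 : NN D κ ((X d10 : RR Y) • D.δ d11 κ) := NN_X hκ hd11 6
    refine NN_cancel (l := b10) (by simp) (NN_sub (NN_sub p1 p2) p3) ?_
    rw [← hκ.t4]; abel
  have hb10 : NN D κ (D.δ b10 κ) := by
    have p1 : NN D κ ((X b11 : RR Y) • D.δ b11 κ) := NN_X hκ hb11 2
    have p2 : NN D κ ((X d01 : RR Y) • D.δ d01 κ) := NN_X hκ hd01 5
    have p3 : NN D κ ((X d11 : RR Y) • D.δ d11 κ) := NN_X hκ hd11 7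
    refine NN_cancel (l := b10) (by simp) (NN_sub (NN_sub p1 p2) p3) ?_
    rw [← hκ.t5]; abel
  have he10 : NN D κ (D.δ e10 κ) := by
    have p1 : NN D κ ((X e01 : RR Y) • D.δ e11 κ) := NN_X hκ he11 3
    have p2 : NN D κ ((X d00 : RR Y) • D.δ d10 κ) := NN_B hd10 B_d00
    have p3 : NN D κ ((X d01 : RR Y) • D.δ d11 κ) := NN_X hκ hd11 5
    refine NN_cancel (l := e00) (by simp) (NN_add (NN_add p1 p2) p3) ?_
    rw [← hκ.t6]; abel
  have hd00 : NN D κ (D.δ d00 κ) := by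
    have p1 : NN D κ ((X d01 : RR Y) • D.δ d01 κ) := NN_X hκ hd01 5
    have p2 : NN D κ ((X d10 : RR Y) • D.δ d10 κ) := NN_X hκ hd10 6
    have p3 : NN D κ ((X d11 : RR Y) • D.δ d11 κ) := NN_X hκ hd11 7
    refine NN_cancel (l := d00) (by simp) (NN_add (NN_add (NN_add p1 p2) p3) h3) ?_
    rw [← hκ.t7]; abel
  have he00 : NN D κ (D.δ e00 κ) := by
    have p1 : NN D κ ((X e01 : RR Y) • D.δ e01 κ) := NN_X hκ he01 3
    have p2 : NN D κ ((X d00 : RR Y) • D.δ d00 κ) := NN_B hd00 B_d00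
    have p3 : NN D κ ((X d01 : RR Y) • D.δ d01 κ) := NN_X hκ hd01 5
    refine NN_cancel (l := e00) (by simp) (NN_add (NN_add (NN_add p1 p2) p3) h3) ?_
    rw [← hκ.t8]; abel
  fin_cases i
  · exact ha01
  · exact ha00
  · exact ha10
  · exact hb00
  · exact hb10
  · exact he10
  · exact hd00
  · exact he00

theorem NN_wd {v : V} (h : NN D κ v) (l : List (Fin 8)) : NN D κ (wd D l v) := by
  induction l with
  | nil => exact h
  | cons i l ih => exact NN_δw ih i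

theorem NN_closure {φ : V →+ V} {n : ℕ}
    (h : ∀ (l : List (Fin 8)) (F : RR Y), l.length ≤ n → B F → NN D κ (φ (wd D l (F • κ)))) :
    ∀ v ∈ E D κ n, NN D κ (φ v) := by
  let S : AddSubgroup V :=
    { carrier := {v | NN D κ v}
      add_mem' := fun h h' => NN_add h h'
      zero_mem' := NN_zero
      neg_mem' := fun h => NN_neg h }
  exact E_map (S := S) φ h

theorem NN_δu (hκ : KR D κ) {v : V} (h : NN D κ v) (i : Fin 8) : NN D κ (D.δ (uI i) v) := by
  obtain ⟨f, hf, n, hn⟩ := h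
  have h1 : NN D κ (D.δ (uI i) (f • v)) := by
    refine NN_closure ?_ (f • v) hn
    intro l F _ hF
    rw [wd_δ, D.δρ]
    exact NN_wd (NN_add (NN_B NN_kappa (B_pderiv hF _)) (NN_B (NN_δu_kappa hκ i) hF)) l
  apply NN_sat (mul_mem hf hf)
  have h2 : (f * f) • D.δ (uI i) v = f • D.δ (uI i) (f • v) - pderiv (uI i) f • (f • v) := by
    rw [D.δρ, smul_add, mul_smul, smul_comm f (pderiv (uI i) f)]
    abel
  rw [h2]
  exact NN_sub (NN_B h1 (TT_B hf)) (NN_B (NN_E hn) (B_pderiv (TT_B hf) _))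

theorem NN_δ (hκ : KR D κ) {v : V} (h : NN D κ v) (l : ST 0) : NN D κ (D.δ l v) := by
  rcases cases_ST l with ⟨i, rfl⟩ | ⟨i, rfl⟩
  · exact NN_δu hκ h i
  · exact NN_δw h i

theorem NN_smul (hκ : KR D κ) (p : RR Y) : ∀ {v : V}, NN D κ v → NN D κ (p • v) := by
  induction p using MvPolynomial.induction_on with
  | C a => intro v hv; exact NN_B hv (B_C a)
  | add p q hp hq => intro v hv; rw [add_smul]; exact NN_add (hp hv) (hq hv)
  | mul_X p l hp =>
    intro v hv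
    rw [mul_smul]
    apply hp
    rcases cases_ST l with ⟨i, rfl⟩ | ⟨i, rfl⟩
    · exact NN_B hv (B_X i)
    · exact NN_X hκ hv i

/-! ### Step 5 -/

theorem const_of_pderiv {F : RR Y} (h : ∀ l, pderiv l F = 0) : ∃ a, F = C a := by
  refine ⟨coeff 0 F, ?_⟩
  ext m
  rw [coeff_C]
  by_cases hm : 0 = m
  · rw [if_pos hm, hm]
  · rw [if_neg hm]
    have : ∃ l, m l ≠ 0 := by
      by_contra hcon
      push Not at hcon
      exact hm (Finsupp.ext fun l => (hcon l).symm)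
    obtain ⟨l, hl⟩ := this
    have h1 := congrArg (coeff (m - Finsupp.single l 1)) (h l)
    have h2 : m - Finsupp.single l 1 + Finsupp.single l 1 = m := by
      apply tsub_add_cancel_of_le
      rw [Finsupp.single_le_iff]
      omega
    rw [coeff_pderiv, h2, coeff_zero, mul_eq_zero] at h1
    rcases h1 with h1 | h1
    · exact h1
    · exfalso
      have h3 : (((m - Finsupp.single l 1 : ST 0 →₀ ℕ) l + 1 : ℕ) : K Y) = 0 := by
        push_cast
        exact h1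
      exact (Nat.cast_ne_zero.2 (Nat.succ_ne_zero _)) h3

theorem inj_kappa (hκ : KR D κ) (hne : κ ≠ 0) (d : ℕ) :
    ∀ F : RR Y, B F → (∀ m : ST 0 →₀ ℕ, d ≤ m.degree → coeff m F = 0) → F • κ = 0 → F = 0 := by
  induction d with
  | zero =>
    intro F _ h _
    ext m
    rw [h m (Nat.zero_le _), coeff_zero]
  | succ d ih =>
    intro F hF hd h0
    have hdeg : ∀ l, ∀ m : ST 0 →₀ ℕ, d ≤ m.degree → coeff m (pderiv l F) = 0 := by
      intro l m hm
      rw [coeff_pderiv, hd, zero_mul]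
      rw [map_add, Finsupp.degree_single]
      omega
    have step : ∀ l l' : ST 0, l' ∈ ({a00, a10, b10, e00, d00} : Set (ST 0)) →
        (X l' : RR Y) • (pderiv l F • κ) = 0 → pderiv l F = 0 := by
      intro l l' hl' h
      exact ih _ (B_pderiv hF l) (hdeg l) (hκ.inj l' hl' _ h)
    have hδ : ∀ a b : ST 0, F • ((X a : RR Y) • D.δ b κ) =
        -((X a : RR Y) • (pderiv b F • κ)) := by
      intro a b
      have h1 := D.δρ b F κ
      rw [h0, map_zero] at h1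
      rw [smul_comm F, ← smul_neg, ← eq_neg_of_add_eq_zero_right h1.symm]
    have h3 : F • ((3 : ℤ) • κ) = 0 := by rw [smul_comm, h0, smul_zero]
    have pa11 : pderiv a11 F = 0 := hF 0
    have pb01 : pderiv b01 F = 0 := hF 1
    have pb11 : pderiv b11 F = 0 := hF 2
    have pe01 : pderiv e01 F = 0 := hF 3
    have pe11 : pderiv e11 F = 0 := hF 4
    have pd01 : pderiv d01 F = 0 := hF 5
    have pd10 : pderiv d10 F = 0 := hF 6
    have pd11 : pderiv d11 F = 0 := hF 7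
    have pa01 : pderiv a01 F = 0 := by
      apply step a01 a00 (by simp)
      have h := congrArg (fun v => F • v) hκ.t1
      simpa only [smul_add, smul_zero, hδ, pa11, pb01, pb11, zero_smul, neg_zero, add_zero,
        neg_eq_zero] using h
    have pa00 : pderiv a00 F = 0 := by
      apply step a00 a10 (by simp)
      have h := congrArg (fun v => F • v) hκ.t2
      simpa only [smul_add, smul_sub, smul_zero, hδ, pa01, pe01, pe11, zero_smul, neg_zero,
        add_zero, sub_zero, neg_eq_zero] using h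
    have pa10 : pderiv a10 F = 0 := by
      apply step a10 a10 (by simp)
      have h := congrArg (fun v => F • v) hκ.t3
      simpa only [smul_add, smul_sub, smul_zero, hδ, pa11, pe01, pe11, zero_smul, neg_zero,
        add_zero, sub_zero, neg_eq_zero] using h
    have pb00 : pderiv b00 F = 0 := by
      apply step b00 b10 (by simp)
      have h := congrArg (fun v => F • v) hκ.t4
      simpa only [smul_add, smul_sub, smul_zero, hδ, pb01, pd01, pd11, zero_smul, neg_zero,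
        add_zero, sub_zero, neg_eq_zero] using h
    have pb10 : pderiv b10 F = 0 := by
      apply step b10 b10 (by simp)
      have h := congrArg (fun v => F • v) hκ.t5
      simpa only [smul_add, smul_sub, smul_zero, hδ, pb11, pd01, pd11, zero_smul, neg_zero,
        add_zero, sub_zero, neg_eq_zero] using h
    have pe10 : pderiv e10 F = 0 := by
      apply step e10 e00 (by simp)
      have h := congrArg (fun v => F • v) hκ.t6
      simpa only [smul_add, smul_sub, smul_zero, hδ, pe11, pd10, pd11, zero_smul, neg_zero,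
        add_zero, sub_zero, neg_eq_zero] using h
    have pd00 : pderiv d00 F = 0 := by
      apply step d00 d00 (by simp)
      have h := congrArg (fun v => F • v) hκ.t7
      simpa only [smul_add, smul_sub, smul_zero, hδ, h3, pd01, pd10, pd11, zero_smul, neg_zero,
        add_zero, sub_zero, neg_eq_zero] using h
    have pe00 : pderiv e00 F = 0 := by
      apply step e00 e00 (by simp)
      have h := congrArg (fun v => F • v) hκ.t8
      simpa only [smul_add, smul_sub, smul_zero, hδ, h3, pe01, pd00, pd01, zero_smul, neg_zero,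
        add_zero, sub_zero, neg_eq_zero] using h
    have hall : ∀ l, pderiv l F = 0 := by
      intro l
      rcases cases_ST l with ⟨i, rfl⟩ | ⟨i, rfl⟩
      · fin_cases i
        · exact pa01
        · exact pa00
        · exact pa10
        · exact pb00
        · exact pb10
        · exact pe10
        · exact pd00
        · exact pe00
      · exact hF i
    obtain ⟨a, rfl⟩ := const_of_pderiv hall
    by_cases ha : a = 0
    · rw [ha, map_zero]
    · exfalso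
      apply hne
      have h4 := congrArg (fun v => (C a⁻¹ : RR Y) • v) h0
      simpa only [smul_zero, ← mul_smul, ← map_mul, inv_mul_cancel₀ ha, map_one, one_smul]
        using h4

theorem inj_kappa' (hκ : KR D κ) (hne : κ ≠ 0) {F : RR Y} (hF : B F) (h : F • κ = 0) :
    F = 0 := by
  classical
  refine inj_kappa hκ hne (F.support.sup Finsupp.degree + 1) F hF ?_ h
  intro m hm
  by_contra hcon
  have := Finset.le_sup (f := Finsupp.degree) (mem_support_iff.2 hcon)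
  omega

end Rel

/-! ### Step 6 -/

section Transfer

variable {Y V : Type} [AddCommGroup V] [Module (RR Y) V]

theorem E_zero {D : DM Y V} {κ z : V} (hz : z ∈ E D κ 0) : ∃ F : RR Y, B F ∧ z = F • κ := by
  let S : AddSubgroup V :=
    { carrier := {v | ∃ F : RR Y, B F ∧ v = F • κ}
      add_mem' := by
        rintro _ _ ⟨F, hF, rfl⟩ ⟨G, hG, rfl⟩
        exact ⟨F + G, B_add hF hG, (add_smul _ _ _).symm⟩
      zero_mem' := ⟨0, fun _ => map_zero _, (zero_smul _ _).symm⟩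
      neg_mem' := by
        rintro _ ⟨F, hF, rfl⟩
        exact ⟨-F, B_neg hF, (neg_smul _ _).symm⟩ }
  refine E_map (S := S) (AddMonoidHom.id V) ?_ z hz
  intro l F hl hF
  have : l = [] := by simpa using hl
  subst this
  exact ⟨F, hF, rfl⟩

theorem nsmul_cancel (Y : Type) {V : Type} [AddCommGroup V] [Module (RR Y) V] {n : ℕ} {x : V}
    (h : (n + 1) • x = 0) : x = 0 := by
  have h1 : ((n + 1 : ℕ) : K Y) ≠ 0 := Nat.cast_ne_zero.2 (Nat.succ_ne_zero _)
  have h2 : (C ((n + 1 : ℕ) : K Y) : RR Y) • x = 0 := by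
    rw [map_natCast, Nat.cast_smul_eq_nsmul]
    exact h
  have h3 := congrArg (fun v => (C (((n + 1 : ℕ) : K Y)⁻¹) : RR Y) • v) h2
  simpa only [smul_zero, ← mul_smul, ← map_mul, inv_mul_cancel₀ h1, map_one, one_smul] using h3

theorem transfer {V₁ V₂ : Type} [AddCommGroup V₁] [Module (RR Y) V₁] [AddCommGroup V₂]
    [Module (RR Y) V₂] {D : DM Y V} {D₁ : DM Y V₁} {D₂ : DM Y V₂} {κ : V}
    (p₁ : V →ₗ[RR Y] V₁) (p₂ : V →ₗ[RR Y] V₂)
    (h₂ : ∀ l v, p₂ (D.δ l v) = D₂.δ l (p₂ v)) (h₁ : ∀ l v, p₁ (D.δ l v) = D₁.δ l (p₁ v))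
    (hκ : KR D κ) (hκ₁ : KR D₁ (p₁ κ)) (hκ₂ : KR D₂ (p₂ κ)) (hne : p₁ κ ≠ 0) (n : ℕ) :
    ∀ z ∈ E D κ n, p₁ z = 0 → p₂ z = 0 := by
  induction n with
  | zero =>
    intro z hz h0
    obtain ⟨F, hF, rfl⟩ := E_zero hz
    rw [map_smul] at h0
    rw [inj_kappa' hκ₁ hne hF h0, zero_smul, map_zero]
  | succ n ih =>
    intro z hz h0
    have hi : ∀ i, p₂ ((hh i : RR Y) • z) = 0 := by
      intro i
      apply ih _ (hh_E hκ i hz)
      rw [map_smul, h0, smul_zero]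
    have hi1 : ∀ i, p₁ ((hh i : RR Y) • z) = 0 := by
      intro i
      rw [map_smul, h0, smul_zero]
    have h3 : p₂ ((n + 1) • ((cc : RR Y) • z) + eu D z) = 0 := by
      apply ih _ (eu_E hκ hz)
      rw [map_add, map_nsmul, map_smul, h0, smul_zero, smul_zero, zero_add, eu_apply, map_sum]
      apply Finset.sum_eq_zero
      intro i _
      rw [h₁, hi1, map_zero]
    rw [map_add, map_nsmul, map_smul, eu_apply, map_sum] at h3
    rw [Finset.sum_eq_zero (fun i _ => by rw [h₂, hi, map_zero]), add_zero] at h3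
    exact TT_inj hκ₂ TT_cc _ (nsmul_cancel Y h3)

end Transfer

/-! ### The quotient of a model -/

section Quot

variable {Y M : Type} [AddCommGroup M]

/-- the action on the quotient -/
def ρq (m : Model Y (ST 0) M) : RR Y →+* AddMonoid.End (M ⧸ m.N) where
  toFun f := QuotientAddGroup.map m.N m.N (m.ρ f) (fun x hx => m.ρN f x hx)
  map_one' := by
    ext x
    obtain ⟨x, rfl⟩ := QuotientAddGroup.mk_surjective x
    change ((m.ρ 1 x : M) : M ⧸ m.N) = (x : M ⧸ m.N)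
    rw [map_one]
    rfl
  map_mul' f g := by
    ext x
    obtain ⟨x, rfl⟩ := QuotientAddGroup.mk_surjective x
    change ((m.ρ (f * g) x : M) : M ⧸ m.N) = ((m.ρ f (m.ρ g x) : M) : M ⧸ m.N)
    rw [map_mul]
    rfl
  map_zero' := by
    ext x
    obtain ⟨x, rfl⟩ := QuotientAddGroup.mk_surjective x
    change ((m.ρ 0 x : M) : M ⧸ m.N) = 0
    rw [map_zero]
    rfl
  map_add' f g := by
    ext x
    obtain ⟨x, rfl⟩ := QuotientAddGroup.mk_surjective x
    change ((m.ρ (f + g) x : M) : M ⧸ m.N) = ((m.ρ f x + m.ρ g x : M) : M ⧸ m.N)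
    rw [map_add]
    rfl

/-- the quotient `M / N` -/
def Q (m : Model Y (ST 0) M) : Type := M ⧸ m.N

instance (m : Model Y (ST 0) M) : AddCommGroup (Q m) := inferInstanceAs (AddCommGroup (M ⧸ m.N))

instance (m : Model Y (ST 0) M) : Module (RR Y) (Q m) := Module.compHom (M ⧸ m.N) (ρq m)

/-- the projection -/
def mkQ (m : Model Y (ST 0) M) : M →+ Q m := QuotientAddGroup.mk' m.N

theorem mkQ_surj (m : Model Y (ST 0) M) (x : Q m) : ∃ y, mkQ m y = x :=
  QuotientAddGroup.mk'_surjective m.N x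

theorem mkQ_eq_zero (m : Model Y (ST 0) M) (x : M) : mkQ m x = 0 ↔ x ∈ m.N :=
  QuotientAddGroup.eq_zero_iff x

theorem mkQ_ρ (m : Model Y (ST 0) M) (f : RR Y) (x : M) : f • mkQ m x = mkQ m (m.ρ f x) := rfl

/-- the derivations on the quotient -/
def δq (m : Model Y (ST 0) M) (l : ST 0) : Q m →+ Q m :=
  QuotientAddGroup.map m.N m.N (m.δ l) (fun x hx => m.δN l x hx)

/-- the derivations on the quotient -/
def δyq (m : Model Y (ST 0) M) (j : Y) : Q m →+ Q m :=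
  QuotientAddGroup.map m.N m.N (m.δy j) (fun x hx => m.δyN j x hx)

theorem δq_mkQ (m : Model Y (ST 0) M) (l : ST 0) (x : M) : δq m l (mkQ m x) = mkQ m (m.δ l x) :=
  rfl

theorem δyq_mkQ (m : Model Y (ST 0) M) (j : Y) (x : M) : δyq m j (mkQ m x) = mkQ m (m.δy j x) :=
  rfl

/-- the quotient of a model -/
def DQ (m : Model Y (ST 0) M) : DM Y (Q m) where
  δ := δq m
  δy := δyq m
  δρ l f v := by
    obtain ⟨x, rfl⟩ := mkQ_surj m v
    rw [mkQ_ρ, δq_mkQ, m.δρ, map_add, mkQ_ρ, δq_mkQ, mkQ_ρ]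
  δyρ j f v := by
    obtain ⟨x, rfl⟩ := mkQ_surj m v
    rw [mkQ_ρ, δyq_mkQ, m.δyρ, map_add, mkQ_ρ, δyq_mkQ, mkQ_ρ]
  δδ l l' v := by
    obtain ⟨x, rfl⟩ := mkQ_surj m v
    rw [δq_mkQ, δq_mkQ, δq_mkQ, δq_mkQ, m.δδ]
  δyδ j l v := by
    obtain ⟨x, rfl⟩ := mkQ_surj m v
    rw [δq_mkQ, δyq_mkQ, δyq_mkQ, δq_mkQ, m.δyδ]

theorem DQ_δ (m : Model Y (ST 0) M) (l : ST 0) (x : M) :
    (DQ m).δ l (mkQ m x) = mkQ m (m.δ l x) := rfl

theorem DQ_δy (m : Model Y (ST 0) M) (j : Y) (x : M) :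
    (DQ m).δy j (mkQ m x) = mkQ m (m.δy j x) := rfl

theorem KR_quot {m : Model Y (ST 0) M} {κ : M} (h : KRel m κ) : KR (DQ m) (mkQ m κ) where
  inj l hl x hx := by
    obtain ⟨x, rfl⟩ := mkQ_surj m x
    rw [mkQ_ρ, mkQ_eq_zero] at hx
    rw [mkQ_eq_zero]
    exact h.inj l hl x hx
  dy j := by
    rw [DQ_δy, mkQ_eq_zero]
    exact h.dy j
  q j := by
    rw [mkQ_ρ, mkQ_eq_zero]
    exact h.q j
  t1 := by
    simp only [DQ_δ, mkQ_ρ, ← map_add, ← map_sub, ← map_zsmul]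
    rw [mkQ_eq_zero]
    exact h.t1
  t2 := by
    simp only [DQ_δ, mkQ_ρ, ← map_add, ← map_sub, ← map_zsmul]
    rw [mkQ_eq_zero]
    exact h.t2
  t3 := by
    simp only [DQ_δ, mkQ_ρ, ← map_add, ← map_sub, ← map_zsmul]
    rw [mkQ_eq_zero]
    exact h.t3
  t4 := by
    simp only [DQ_δ, mkQ_ρ, ← map_add, ← map_sub, ← map_zsmul]
    rw [mkQ_eq_zero]
    exact h.t4
  t5 := by
    simp only [DQ_δ, mkQ_ρ, ← map_add, ← map_sub, ← map_zsmul]
    rw [mkQ_eq_zero]
    exact h.t5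
  t6 := by
    simp only [DQ_δ, mkQ_ρ, ← map_add, ← map_sub, ← map_zsmul]
    rw [mkQ_eq_zero]
    exact h.t6
  t7 := by
    simp only [DQ_δ, mkQ_ρ, ← map_add, ← map_sub, ← map_zsmul]
    rw [mkQ_eq_zero]
    exact h.t7
  t8 := by
    simp only [DQ_δ, mkQ_ρ, ← map_add, ← map_sub, ← map_zsmul]
    rw [mkQ_eq_zero]
    exact h.t8

end Quot

/-! ### The product -/

section Prod

variable {Y V₁ V₂ : Type} [AddCommGroup V₁] [Module (RR Y) V₁] [AddCommGroup V₂]
  [Module (RR Y) V₂]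

/-- the product -/
def DP (D₁ : DM Y V₁) (D₂ : DM Y V₂) : DM Y (V₁ × V₂) where
  δ l := (D₁.δ l).prodMap (D₂.δ l)
  δy j := (D₁.δy j).prodMap (D₂.δy j)
  δρ l f v := Prod.ext (D₁.δρ l f v.1) (D₂.δρ l f v.2)
  δyρ j f v := Prod.ext (D₁.δyρ j f v.1) (D₂.δyρ j f v.2)
  δδ l l' v := Prod.ext (D₁.δδ l l' v.1) (D₂.δδ l l' v.2)
  δyδ j l v := Prod.ext (D₁.δyδ j l v.1) (D₂.δyδ j l v.2)

theorem KR_prod {D₁ : DM Y V₁} {D₂ : DM Y V₂} {κ₁ : V₁} {κ₂ : V₂} (h₁ : KR D₁ κ₁)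
    (h₂ : KR D₂ κ₂) : KR (DP D₁ D₂) (κ₁, κ₂) where
  inj l hl x hx := Prod.ext (h₁.inj l hl x.1 (congrArg Prod.fst hx))
    (h₂.inj l hl x.2 (congrArg Prod.snd hx))
  dy j := Prod.ext (h₁.dy j) (h₂.dy j)
  q j := Prod.ext (h₁.q j) (h₂.q j)
  t1 := Prod.ext h₁.t1 h₂.t1
  t2 := Prod.ext h₁.t2 h₂.t2
  t3 := Prod.ext h₁.t3 h₂.t3
  t4 := Prod.ext h₁.t4 h₂.t4
  t5 := Prod.ext h₁.t5 h₂.t5
  t6 := Prod.ext h₁.t6 h₂.t6
  t7 := Prod.ext h₁.t7 h₂.t7
  t8 := Prod.ext h₁.t8 h₂.t8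

end Prod

theorem gen_NN {Y M₁ M₂ : Type} [AddCommGroup M₁] [AddCommGroup M₂]
    {m₁ : Model Y (ST 0) M₁} {m₂ : Model Y (ST 0) M₂} {κ₁ : M₁} {κ₂ : M₂}
    (h₁ : KRel m₁ κ₁) (h₂ : KRel m₂ κ₂) {z₁ : M₁} {z₂ : M₂}
    (hz : Model.Gen m₁ m₂ κ₁ κ₂ z₁ z₂) :
    NN (DP (DQ m₁) (DQ m₂)) (mkQ m₁ κ₁, mkQ m₂ κ₂) (mkQ m₁ z₁, mkQ m₂ z₂) := by
  have hκ := KR_prod (KR_quot h₁) (KR_quot h₂)
  induction hz with
  | base => exact NN_kappa
  | add _ _ ih ih' => exact NN_add ih ih'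
  | rho f _ ih => exact NN_smul hκ f ih
  | del l _ ih => exact NN_δ hκ ih l
  | dely j _ ih => exact NN_δy hκ ih j

end Iso

theorem iso {Y : Type} [Fintype Y] [DecidableEq Y] {M₁ M₂ : Type} [AddCommGroup M₁]
    [AddCommGroup M₂] (m₁ : Model Y (ST 0) M₁) (m₂ : Model Y (ST 0) M₂) {κ₁ : M₁} {κ₂ : M₂}
    (h₁ : KRel m₁ κ₁) (h₂ : KRel m₂ κ₂) {z₁ : M₁} {z₂ : M₂}
    (hz : Model.Gen m₁ m₂ κ₁ κ₂ z₁ z₂) : z₁ ∈ m₁.N ↔ z₂ ∈ m₂.N := by
  have hk1 := Iso.KR_quot h₁
  have hk2 := Iso.KR_quot h₂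
  have hk := Iso.KR_prod hk1 hk2
  obtain ⟨f, hf, n, hn⟩ := Iso.gen_NN h₁ h₂ hz
  have hne1 : Iso.mkQ m₁ κ₁ ≠ 0 := fun h => h₁.notMem ((Iso.mkQ_eq_zero m₁ κ₁).1 h)
  have hne2 : Iso.mkQ m₂ κ₂ ≠ 0 := fun h => h₂.notMem ((Iso.mkQ_eq_zero m₂ κ₂).1 h)
  rw [← Iso.mkQ_eq_zero, ← Iso.mkQ_eq_zero]
  constructor
  · intro h
    have h3 := Iso.transfer (D₁ := Iso.DQ m₁) (D₂ := Iso.DQ m₂)
      (LinearMap.fst (Iso.RR Y) (Iso.Q m₁) (Iso.Q m₂))
      (LinearMap.snd (Iso.RR Y) (Iso.Q m₁) (Iso.Q m₂)) (fun _ _ => rfl) (fun _ _ => rfl)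
      hk hk1 hk2 hne1 n _ hn (by
        change f • Iso.mkQ m₁ z₁ = 0
        rw [h, smul_zero])
    exact Iso.TT_inj hk2 hf _ h3
  · intro h
    have h3 := Iso.transfer (D₁ := Iso.DQ m₂) (D₂ := Iso.DQ m₁)
      (LinearMap.snd (Iso.RR Y) (Iso.Q m₁) (Iso.Q m₂))
      (LinearMap.fst (Iso.RR Y) (Iso.Q m₁) (Iso.Q m₂)) (fun _ _ => rfl) (fun _ _ => rfl)
      hk hk2 hk1 hne2 n _ hn (by
        change f • Iso.mkQ m₂ z₂ = 0
        rw [h, smul_zero])
    exact Iso.TT_inj hk1 hf _ h3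

end

end Adams
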