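import Pool.Agent.MP_fe6ac3_nt.Local

/-!
# [ADAMS-KMOD] The model given by the function field

For a chart `c` on `ℂ^{Y ⊕ S}` and a parameter system `h` of a prime ideal `I` with
`I ∩ ℂ[y] = 0`, the function field `K (Y ⊕ S)` with the submodule `locN I h` is a model: `ℂ(y)[s]`
acts by multiplication (`s_l` = the polynomial `c.s l`), `∂/∂s_l` and `∂/∂y_j` act as the
derivations `dS l`, `dYK j` dual to the coordinates `(y, s)`.

Blueprint.
* `jL : ℂ(y) → K (Y ⊕ S)` extends `rename Sum.inl`; `jA` extends it by `X l ↦ ι (c.s l)`.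
  Facts: `pd (inr m) (jL a) = 0`, `pd (inl j) (jL a) = jL (pd j a)`; `(c.T.map ι) * c.Tinv = 1`
  (nonsingular inverse, `c.hT`); `pderiv (inr m) (c.s l) = rename inl (c.T l m)` by `c.hs`.
* `Ψ_s : c.Ψ (c.s l) = X l` from `c.hs` and `T * Tinv = 1`; `jA_Ψ` : both sides are ring
  homomorphisms `O (Y ⊕ S) → K`, compare on `C`, `X (inl j)`, `X (inr m)`.
* `dS l (ι (c.s l')) = δ`, `dS l (jL a) = 0`, `dYK j (ι (c.s l)) = 0`, `dYK j (jL a) = jL (pd j a)`;
  `dS l (jA f) = jA (pderiv l f)`, `dYK j (jA f) = jA (dY j f)` (induction on `f`).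
* commutators of `dS`, `dYK` are derivations of `K (Y ⊕ S)` vanishing on constants, on the
  `ι (X (inl j))` and on the `ι (c.s l)`, hence on all `ι (X (inr m))` since
  `ι (X (inr m)) = jA (c.Ψ (X (inr m)))`; use `der_ext`.
* coefficients of `dS`, `dYK` lie in `locRing I` (`hL`), so `locN` is stable.
* `pd i = (dYK j if i = inl j) + ∑ l, ι (pderiv i (c.s l)) * dS l` : compare derivations on `y`
  and `s`.
-/

open MvPolynomial

namespace Adams

noncomputable section

variable {Y S : Type} [Fintype Y] [DecidableEq Y] [Fintype S] [DecidableEq S]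

theorem renameInl_injective :
    Function.Injective ((ι : O (Y ⊕ S) →+* K (Y ⊕ S)).comp
      (rename (R := ℂ) (Sum.inl : Y → Y ⊕ S)).toRingHom) := by
  intro a b h
  apply rename_injective (R := ℂ) (Sum.inl : Y → Y ⊕ S) Sum.inl_injective
  exact ι_injective h

/-- the embedding `ℂ(y) → ℂ(y, z)` -/
def jL : K Y →+* K (Y ⊕ S) := IsFractionRing.lift (renameInl_injective (Y := Y) (S := S))

theorem jL_ι (p : O Y) : (jL (ι p) : K (Y ⊕ S)) = ι (rename Sum.inl p) := by
  unfold jL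
  rw [IsFractionRing.lift_algebraMap]
  rfl

theorem pd_inl_jL (j : Y) (a : K Y) : pd (Sum.inl j) (jL a : K (Y ⊕ S)) = jL (pd j a) := by
  refine der_ext (σ := Y) (F := K (Y ⊕ S)) jL (fun a => pd (Sum.inl j) (jL a : K (Y ⊕ S)))
    (fun a => jL (pd j a)) ?_ ?_ ?_ ?_ ?_ ?_ a
  · intro f g; simp only [map_add, pd_add]
  · intro f g; simp only [pd_add, map_add]
  · intro f g; simp only [map_mul, pd_mul]
  · intro f g; simp only [pd_mul, map_add, map_mul]
  · intro c
    simp only [jL_ι, pd_ι, rename_C, pderiv_C, map_zero]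
  · intro i
    simp only [jL_ι, pd_ι, rename_X, pderiv_X]
    by_cases h : i = j
    · subst h
      simp
    · rw [Pi.single_eq_of_ne h, Pi.single_eq_of_ne (fun h' => h (Sum.inl_injective h'))]
      simp

theorem pd_inr_jL (l : S) (a : K Y) : pd (Sum.inr l) (jL a : K (Y ⊕ S)) = 0 := by
  refine der_ext (σ := Y) (F := K (Y ⊕ S)) jL (fun a => pd (Sum.inr l) (jL a : K (Y ⊕ S)))
    (fun a => 0) ?_ ?_ ?_ ?_ ?_ ?_ a
  · intro f g; simp only [map_add, pd_add]
  · intro f g; simp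
  · intro f g; simp only [map_mul, pd_mul]
  · intro f g; simp
  · intro c
    simp only [jL_ι, pd_ι, rename_C, pderiv_C, map_zero]
  · intro i
    simp only [jL_ι, pd_ι, rename_X, pderiv_X]
    rw [Pi.single_eq_of_ne (by simp)]
    simp

/-- the embedding `ℂ(y)[s] → ℂ(y, z)` given by the chart -/
def Chart.jA (c : Chart Y S) : MvPolynomial S (K Y) →+* K (Y ⊕ S) :=
  eval₂Hom jL (fun l => ι (c.s l))

theorem Chart.jA_C (c : Chart Y S) (a : K Y) : c.jA (C a) = jL a := by
  unfold Chart.jA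
  rw [coe_eval₂Hom, eval₂_C]

theorem Chart.jA_X (c : Chart Y S) (l : S) : c.jA (X l) = ι (c.s l) := by
  unfold Chart.jA
  rw [coe_eval₂Hom, eval₂_X]

theorem Chart.Ψ_inl (c : Chart Y S) (p : O Y) : c.Ψ (rename Sum.inl p) = C (ι p) := by
  induction p using MvPolynomial.induction_on with
  | C a =>
    rw [rename_C, Chart.Ψ, coe_eval₂Hom, eval₂_C]
    rfl
  | add p q hp hq => rw [map_add, map_add, hp, hq, map_add, map_add]
  | mul_X p i hp =>
    rw [map_mul, map_mul, hp, rename_X, map_mul, map_mul]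
    congr 1
    rw [Chart.Ψ, coe_eval₂Hom, eval₂_X, Sum.elim_inl]

theorem Chart.Ψ_inr (c : Chart Y S) (m : S) :
    c.Ψ (X (Sum.inr m)) = ∑ l, C (c.Tinv m l) * (X l - C (ι (c.t l))) := by
  rw [Chart.Ψ, coe_eval₂Hom, eval₂_X, Sum.elim_inr]

theorem Chart.isUnit_det (c : Chart Y S) : IsUnit (c.T.map (ι : O Y →+* K Y)).det := by
  have h : (c.T.map (ι : O Y →+* K Y)).det = ι c.T.det := by
    rw [RingHom.map_det]; rfl
  rw [h, isUnit_iff_ne_zero]
  exact ι_ne_zero c.hT

theorem Chart.T_mul_Tinv (c : Chart Y S) : c.T.map (ι : O Y →+* K Y) * c.Tinv = 1 :=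
  Matrix.mul_nonsing_inv _ c.isUnit_det

theorem Chart.Tinv_mul_T (c : Chart Y S) : c.Tinv * c.T.map (ι : O Y →+* K Y) = 1 :=
  Matrix.nonsing_inv_mul _ c.isUnit_det

theorem Chart.sum_T_Tinv (c : Chart Y S) (l l' : S) :
    ∑ m, ι (c.T l m) * c.Tinv m l' = if l = l' then 1 else 0 := by
  have h := congrFun (congrFun c.T_mul_Tinv l) l'
  rw [Matrix.mul_apply, Matrix.one_apply] at h
  rw [← h]
  rfl

theorem Chart.sum_Tinv_T (c : Chart Y S) (m m' : S) :
    ∑ l, c.Tinv m l * ι (c.T l m') = if m = m' then 1 else 0 := by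
  have h := congrFun (congrFun c.Tinv_mul_T m) m'
  rw [Matrix.mul_apply, Matrix.one_apply] at h
  rw [← h]
  rfl

theorem Chart.Ψ_s (c : Chart Y S) (l : S) : c.Ψ (c.s l) = X l := by
  rw [c.hs l, map_add, map_sum]
  simp only [map_mul, Chart.Ψ_inl, Chart.Ψ_inr, Finset.mul_sum]
  rw [Finset.sum_comm]
  have h : ∀ l' : S, ∑ m, (C (ι (c.T l m)) : MvPolynomial S (K Y)) *
      (C (c.Tinv m l') * (X l' - C (ι (c.t l')))) =
      C (if l = l' then 1 else 0) * (X l' - C (ι (c.t l'))) := by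
    intro l'
    rw [← c.sum_T_Tinv l l', map_sum, Finset.sum_mul]
    apply Finset.sum_congr rfl
    intro m _
    rw [map_mul]; ring
  rw [Finset.sum_congr rfl (fun l' _ => h l'), Finset.sum_eq_single l]
  · simp
  · intro b _ hb
    rw [if_neg (Ne.symm hb)]; simp
  · intro hl; exact absurd (Finset.mem_univ l) hl

theorem Chart.ι_s (c : Chart Y S) (l : S) : (ι (c.s l) : K (Y ⊕ S)) =
    ∑ m, jL (ι (c.T l m)) * ι (X (Sum.inr m)) + jL (ι (c.t l)) := by
  rw [c.hs l, map_add, map_sum]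
  simp only [map_mul, jL_ι]

theorem Chart.jA_Ψ (c : Chart Y S) (f : O (Y ⊕ S)) : c.jA (c.Ψ f) = ι f := by
  induction f using MvPolynomial.induction_on with
  | C a =>
    have h : c.Ψ (C a) = C (ι (C a)) := by
      have := c.Ψ_inl (C a)
      rwa [rename_C] at this
    rw [h, c.jA_C, jL_ι, rename_C]
  | add p q hp hq => rw [map_add, map_add, hp, hq, map_add]
  | mul_X p i hp =>
    rw [map_mul, map_mul, hp, map_mul]
    congr 1
    rcases i with j | m
    · have h : c.Ψ (X (Sum.inl j)) = C (ι (X j)) := by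
        have := c.Ψ_inl (X j)
        rwa [rename_X] at this
      rw [h, c.jA_C, jL_ι, rename_X]
    · rw [c.Ψ_inr, map_sum]
      have h : ∀ l : S, c.jA (C (c.Tinv m l) * (X l - C (ι (c.t l)))) =
          ∑ m', jL (c.Tinv m l * ι (c.T l m')) * ι (X (Sum.inr m')) := by
        intro l
        rw [map_mul, map_sub, c.jA_C, c.jA_X, c.jA_C, c.ι_s, add_sub_cancel_right, Finset.mul_sum]
        apply Finset.sum_congr rfl
        intro m' _
        rw [map_mul]; ring
      rw [Finset.sum_congr rfl (fun l _ => h l), Finset.sum_comm]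
      have h2 : ∀ m' : S, ∑ l, jL (c.Tinv m l * ι (c.T l m')) * (ι (X (Sum.inr m')) : K (Y ⊕ S)) =
          (if m = m' then 1 else 0) * ι (X (Sum.inr m')) := by
        intro m'
        rw [← Finset.sum_mul, ← map_sum, c.sum_Tinv_T]
        congr 1
        split_ifs <;> simp
      rw [Finset.sum_congr rfl (fun m' _ => h2 m'), Finset.sum_eq_single m]
      · simp
      · intro b _ hb
        rw [if_neg (Ne.symm hb)]; simp
      · intro hl; exact absurd (Finset.mem_univ m) hl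

/-- the derivation `∂/∂s_l` of the coordinates `(y, s)` -/
def Chart.dS (c : Chart Y S) (l : S) (f : K (Y ⊕ S)) : K (Y ⊕ S) :=
  ∑ m, jL (c.Tinv m l) * pd (Sum.inr m) f

/-- the derivation `∂/∂y_j` of the coordinates `(y, s)` -/
def Chart.dYK (c : Chart Y S) (j : Y) (f : K (Y ⊕ S)) : K (Y ⊕ S) :=
  pd (Sum.inl j) f - ∑ l, ι (pderiv (Sum.inl j) (c.s l)) * c.dS l f

theorem Chart.dS_add (c : Chart Y S) (l : S) (f g : K (Y ⊕ S)) :
    c.dS l (f + g) = c.dS l f + c.dS l g := by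
  unfold Chart.dS
  rw [← Finset.sum_add_distrib]
  apply Finset.sum_congr rfl
  intro m _
  rw [pd_add]; ring

theorem Chart.dS_mul (c : Chart Y S) (l : S) (f g : K (Y ⊕ S)) :
    c.dS l (f * g) = f * c.dS l g + g * c.dS l f := by
  unfold Chart.dS
  rw [Finset.mul_sum, Finset.mul_sum, ← Finset.sum_add_distrib]
  apply Finset.sum_congr rfl
  intro m _
  rw [pd_mul]; ring

theorem Chart.dYK_add (c : Chart Y S) (j : Y) (f g : K (Y ⊕ S)) :
    c.dYK j (f + g) = c.dYK j f + c.dYK j g := by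
  unfold Chart.dYK
  have h : ∑ l, ι (pderiv (Sum.inl j) (c.s l)) * c.dS l (f + g) =
      ∑ l, ι (pderiv (Sum.inl j) (c.s l)) * c.dS l f +
      ∑ l, ι (pderiv (Sum.inl j) (c.s l)) * c.dS l g := by
    rw [← Finset.sum_add_distrib]
    apply Finset.sum_congr rfl
    intro m _
    rw [c.dS_add]; ring
  rw [h, pd_add]; ring

theorem Chart.dYK_mul (c : Chart Y S) (j : Y) (f g : K (Y ⊕ S)) :
    c.dYK j (f * g) = f * c.dYK j g + g * c.dYK j f := by
  unfold Chart.dYK
  have h : ∑ l, ι (pderiv (Sum.inl j) (c.s l)) * c.dS l (f * g) =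
      f * ∑ l, ι (pderiv (Sum.inl j) (c.s l)) * c.dS l g +
      g * ∑ l, ι (pderiv (Sum.inl j) (c.s l)) * c.dS l f := by
    rw [Finset.mul_sum, Finset.mul_sum, ← Finset.sum_add_distrib]
    apply Finset.sum_congr rfl
    intro m _
    rw [c.dS_mul]; ring
  rw [h, pd_mul]; ring

theorem Chart.dS_jL (c : Chart Y S) (l : S) (a : K Y) : c.dS l (jL a) = 0 := by
  unfold Chart.dS
  simp only [pd_inr_jL, mul_zero, Finset.sum_const_zero]

theorem Chart.pderiv_inr_s (c : Chart Y S) (m l : S) :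
    (ι (pderiv (Sum.inr m) (c.s l)) : K (Y ⊕ S)) = jL (ι (c.T l m)) := by
  rw [← pd_ι, c.ι_s, pd_add, pd_inr_jL, add_zero, pd_sum, Finset.sum_eq_single m]
  · rw [pd_mul, pd_inr_jL, pd_X, if_pos rfl]; ring
  · intro b _ hb
    rw [pd_mul, pd_inr_jL, pd_X, if_neg (fun h => hb (Sum.inr_injective h).symm)]; ring
  · intro hl; exact absurd (Finset.mem_univ m) hl

theorem Chart.dS_s (c : Chart Y S) (l i : S) :
    c.dS l (ι (c.s i)) = if l = i then 1 else 0 := by
  unfold Chart.dS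
  have h : ∀ m : S, jL (c.Tinv m l) * pd (Sum.inr m) (ι (c.s i) : K (Y ⊕ S)) =
      jL (ι (c.T i m) * c.Tinv m l) := by
    intro m
    rw [pd_ι, c.pderiv_inr_s, map_mul]; ring
  rw [Finset.sum_congr rfl (fun m _ => h m), ← map_sum, c.sum_T_Tinv]
  by_cases h : i = l
  · rw [if_pos h, if_pos h.symm, map_one]
  · rw [if_neg h, if_neg (Ne.symm h), map_zero]

theorem Chart.dS_jA (c : Chart Y S) (l : S) (f : MvPolynomial S (K Y)) :
    c.dS l (c.jA f) = c.jA (pderiv l f) := by
  induction f using MvPolynomial.induction_on with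
  | C a => rw [c.jA_C, c.dS_jL, pderiv_C, map_zero]
  | add p q hp hq => rw [map_add, c.dS_add, hp, hq, map_add, map_add]
  | mul_X p i hp =>
    rw [map_mul, c.dS_mul, hp, c.jA_X, c.dS_s, pderiv_mul, map_add, map_mul, map_mul, c.jA_X,
      pderiv_X]
    by_cases h : i = l
    · subst h
      simp
      ring
    · rw [if_neg (Ne.symm h), Pi.single_eq_of_ne h, map_zero]
      ring

theorem Chart.dYK_jL (c : Chart Y S) (j : Y) (a : K Y) : c.dYK j (jL a) = jL (pd j a) := by
  unfold Chart.dYK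
  simp only [c.dS_jL, mul_zero, Finset.sum_const_zero, sub_zero, pd_inl_jL]

theorem Chart.dYK_s (c : Chart Y S) (j : Y) (i : S) : c.dYK j (ι (c.s i)) = 0 := by
  unfold Chart.dYK
  simp only [c.dS_s, pd_ι]
  rw [Finset.sum_eq_single i]
  · simp
  · intro b _ hb
    rw [if_neg hb, mul_zero]
  · intro hl; exact absurd (Finset.mem_univ i) hl

theorem Chart.dYK_jA (c : Chart Y S) (j : Y) (f : MvPolynomial S (K Y)) :
    c.dYK j (c.jA f) = c.jA (dY j f) := by
  induction f using MvPolynomial.induction_on with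
  | C a => rw [c.jA_C, c.dYK_jL, dY_C, c.jA_C]
  | add p q hp hq => rw [map_add, c.dYK_add, hp, hq, map_add, map_add]
  | mul_X p i hp =>
    rw [map_mul, c.dYK_mul, hp, c.jA_X, c.dYK_s, dY_mul, dY_X, map_add, map_mul, map_mul, c.jA_X,
      map_zero]

theorem Chart.pd_eq (c : Chart Y S) (i : Y ⊕ S) (f : K (Y ⊕ S)) :
    pd i f = Sum.elim (fun j => c.dYK j f) (fun _ => 0) i +
      ∑ l, ι (pderiv i (c.s l)) * c.dS l f := by
  rcases i with j | m
  · rw [Sum.elim_inl]
    unfold Chart.dYK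
    ring
  · rw [Sum.elim_inr, zero_add]
    have h : ∀ l : S, ι (pderiv (Sum.inr m) (c.s l)) * c.dS l f =
        ∑ m', jL (c.Tinv m' l * ι (c.T l m)) * pd (Sum.inr m') f := by
      intro l
      rw [c.pderiv_inr_s]
      unfold Chart.dS
      rw [Finset.mul_sum]
      apply Finset.sum_congr rfl
      intro m' _
      rw [map_mul]; ring
    rw [Finset.sum_congr rfl (fun l _ => h l), Finset.sum_comm]
    have h2 : ∀ m' : S, ∑ l, jL (c.Tinv m' l * ι (c.T l m)) * pd (Sum.inr m') f =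
        (if m' = m then 1 else 0) * pd (Sum.inr m') f := by
      intro m'
      rw [← Finset.sum_mul, ← map_sum, c.sum_Tinv_T]
      congr 1
      split_ifs <;> simp
    rw [Finset.sum_congr rfl (fun m' _ => h2 m'), Finset.sum_eq_single m]
    · simp
    · intro b _ hb
      rw [if_neg hb]; simp
    · intro hl; exact absurd (Finset.mem_univ m) hl

theorem Chart.jL_mem {I : Ideal (O (Y ⊕ S))} [I.IsPrime]
    (hL : ∀ F : O Y, F ≠ 0 → rename Sum.inl F ∉ I) (a : K Y) :
    (jL a : K (Y ⊕ S)) ∈ locRing I := by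
  obtain ⟨p, q, hq, rfl⟩ := exists_frac a
  rw [map_div₀, jL_ι, jL_ι, div_eq_mul_inv]
  exact locRing_mul (ι_mem_locRing _) (inv_mem_locRing (hL q hq))

/-- elements of `ℂ(y)[s]` lie in the local ring -/
theorem Chart.jA_mem (c : Chart Y S) {I : Ideal (O (Y ⊕ S))} [I.IsPrime]
    (hL : ∀ F : O Y, F ≠ 0 → rename Sum.inl F ∉ I) (f : MvPolynomial S (K Y)) :
    c.jA f ∈ locRing I := by
  induction f using MvPolynomial.induction_on with
  | C a => rw [c.jA_C]; exact Chart.jL_mem hL a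
  | add p q hp hq => rw [map_add]; exact locRing_add hp hq
  | mul_X p i hp => rw [map_mul, c.jA_X]; exact locRing_mul hp (ι_mem_locRing _)

theorem Chart.dS_zero (c : Chart Y S) (l : S) : c.dS l 0 = 0 := by
  unfold Chart.dS; simp

theorem Chart.dYK_zero (c : Chart Y S) (j : Y) : c.dYK j 0 = 0 := by
  unfold Chart.dYK; simp [c.dS_zero]

theorem Chart.dS_sub (c : Chart Y S) (l : S) (f g : K (Y ⊕ S)) :
    c.dS l (f - g) = c.dS l f - c.dS l g := by
  have h := c.dS_add l (f - g) g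
  rw [sub_add_cancel] at h
  rw [h]; ring

theorem Chart.dYK_sub (c : Chart Y S) (l : Y) (f g : K (Y ⊕ S)) :
    c.dYK l (f - g) = c.dYK l f - c.dYK l g := by
  have h := c.dYK_add l (f - g) g
  rw [sub_add_cancel] at h
  rw [h]; ring

theorem Chart.dS_mem (c : Chart Y S) {I : Ideal (O (Y ⊕ S))} [I.IsPrime] {r : ℕ}
    {h : Fin r → O (Y ⊕ S)} (hp : IsParam I h)
    (hL : ∀ F : O Y, F ≠ 0 → rename Sum.inl F ∉ I) (l : S) {f : K (Y ⊕ S)}
    (hf : f ∈ locN I h) : c.dS l f ∈ locN I h := by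
  unfold Chart.dS
  apply Submodule.sum_mem
  intro m _
  exact locN_mul (Chart.jL_mem hL _) (locN_dstable hp _ _ hf)

theorem Chart.dYK_mem (c : Chart Y S) {I : Ideal (O (Y ⊕ S))} [I.IsPrime] {r : ℕ}
    {h : Fin r → O (Y ⊕ S)} (hp : IsParam I h)
    (hL : ∀ F : O Y, F ≠ 0 → rename Sum.inl F ∉ I) (j : Y) {f : K (Y ⊕ S)}
    (hf : f ∈ locN I h) : c.dYK j f ∈ locN I h := by
  unfold Chart.dYK
  apply Submodule.sub_mem _ (locN_dstable hp _ _ hf)
  apply Submodule.sum_mem
  intro m _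
  exact locN_mul (ι_mem_locRing _) (c.dS_mem hp hL m hf)

omit [Fintype S] [DecidableEq S] in
theorem pderiv_comm' {R : Type*} [CommRing R] (i j : S) (f : MvPolynomial S R) :
    pderiv i (pderiv j f) = pderiv j (pderiv i f) := by
  classical
  induction f using MvPolynomial.induction_on with
  | C a => simp
  | add p q hp hq => simp only [map_add, hp, hq]
  | mul_X p k hp =>
    simp only [pderiv_mul, map_add, pderiv_X, Pi.single_apply, hp]
    split_ifs <;> simp <;> ring

omit [Fintype Y] [DecidableEq Y] [Fintype S] [DecidableEq S] in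
theorem dY_pderiv (j : Y) (l : S) (f : MvPolynomial S (K Y)) :
    dY j (pderiv l f) = pderiv l (dY j f) := by
  classical
  induction f using MvPolynomial.induction_on with
  | C a => simp
  | add p q hp hq => simp only [map_add, hp, hq]
  | mul_X p k hp =>
    simp only [pderiv_mul, map_add, pderiv_X, Pi.single_apply, hp, dY_mul, dY_X, mul_zero, zero_add]
    have h1 : dY j (1 : MvPolynomial S (K Y)) = 0 := by
      rw [← C_1, dY_C, pd_one, C_0]
    split_ifs <;> simp [h1] <;> ring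

/-- a derivation that vanishes on the image of the chart ring vanishes -/
theorem Chart.der_zero (c : Chart Y S) (D : K (Y ⊕ S) → K (Y ⊕ S))
    (ha : ∀ f g, D (f + g) = D f + D g) (hm : ∀ f g, D (f * g) = f * D g + g * D f)
    (h0 : ∀ f : MvPolynomial S (K Y), D (c.jA f) = 0) (f : K (Y ⊕ S)) : D f = 0 := by
  refine der_ext (σ := Y ⊕ S) (RingHom.id _) D (fun _ => 0) ha (by simp) hm (by simp) ?_ ?_ f
  · intro a
    rw [← c.jA_Ψ]; exact h0 _
  · intro i
    rw [← c.jA_Ψ]; exact h0 _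

theorem Chart.dS_comm (c : Chart Y S) (l l' : S) (f : K (Y ⊕ S)) :
    c.dS l (c.dS l' f) = c.dS l' (c.dS l f) := by
  rw [← sub_eq_zero]
  refine c.der_zero (fun f => c.dS l (c.dS l' f) - c.dS l' (c.dS l f)) ?_ ?_ ?_ f
  · intro f g
    simp only [c.dS_add]; ring
  · intro f g
    simp only [c.dS_mul, c.dS_add]; ring
  · intro f
    simp only [c.dS_jA]
    rw [pderiv_comm' l l' f, sub_self]

theorem Chart.dYK_dS (c : Chart Y S) (j : Y) (l : S) (f : K (Y ⊕ S)) :
    c.dYK j (c.dS l f) = c.dS l (c.dYK j f) := by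
  rw [← sub_eq_zero]
  refine c.der_zero (fun f => c.dYK j (c.dS l f) - c.dS l (c.dYK j f)) ?_ ?_ ?_ f
  · intro f g
    simp only [c.dS_add, c.dYK_add]; ring
  · intro f g
    simp only [c.dS_mul, c.dS_add, c.dYK_mul, c.dYK_add]; ring
  · intro f
    simp only [c.dS_jA, c.dYK_jA]
    rw [dY_pderiv j l f, sub_self]

/-- the model -/
def kModel (c : Chart Y S) (I : Ideal (O (Y ⊕ S))) [I.IsPrime] {r : ℕ}
    (h : Fin r → O (Y ⊕ S)) (hp : IsParam I h)
    (hL : ∀ F : O Y, F ≠ 0 → rename Sum.inl F ∉ I) : Model Y S (K (Y ⊕ S)) where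
  N := (locN I h).toAddSubgroup
  ρ := (Module.toAddMonoidEnd (K (Y ⊕ S)) (K (Y ⊕ S))).comp c.jA
  δ l := { toFun := c.dS l, map_zero' := c.dS_zero l, map_add' := c.dS_add l }
  δy j := { toFun := c.dYK j, map_zero' := c.dYK_zero j, map_add' := c.dYK_add j }
  ρN := fun f _ hm => locN_mul (c.jA_mem hL f) hm
  δN := fun l _ hm => c.dS_mem hp hL l hm
  δyN := fun j _ hm => c.dYK_mem hp hL j hm
  δρ := by
    intro l f m
    change c.dS l (c.jA f * m) = c.jA (pderiv l f) * m + c.jA f * c.dS l m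
    rw [c.dS_mul, c.dS_jA]; ring
  δyρ := by
    intro j f m
    change c.dYK j (c.jA f * m) = c.jA (dY j f) * m + c.jA f * c.dYK j m
    rw [c.dYK_mul, c.dYK_jA]; ring
  δδ := fun l l' m => c.dS_comm l l' m
  δyδ := fun j l m => c.dYK_dS j l m

variable (c : Chart Y S) (I : Ideal (O (Y ⊕ S))) [I.IsPrime] {r : ℕ}
    (h : Fin r → O (Y ⊕ S)) (hp : IsParam I h)
    (hL : ∀ F : O Y, F ≠ 0 → rename Sum.inl F ∉ I)

theorem kModel_mem_N (x : K (Y ⊕ S)) : x ∈ (kModel c I h hp hL).N ↔ x ∈ locN I h := by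
  exact Iff.rfl

theorem kModel_ρ (f : MvPolynomial S (K Y)) (x : K (Y ⊕ S)) :
    (kModel c I h hp hL).ρ f x = c.jA f * x := by
  rfl

theorem kModel_δ (l : S) (x : K (Y ⊕ S)) : (kModel c I h hp hL).δ l x = c.dS l x := by
  rfl

theorem kModel_δy (j : Y) (x : K (Y ⊕ S)) : (kModel c I h hp hL).δy j x = c.dYK j x := by
  rfl

theorem end_add_apply {M : Type*} [AddCommGroup M] (e₁ e₂ : AddMonoid.End M) (x : M) :
    (e₁ + e₂) x = e₁ x + e₂ x := rfl

theorem end_sum_apply {M α : Type*} [AddCommGroup M] (s : Finset α) (e : α → AddMonoid.End M)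
    (x : M) : (∑ l ∈ s, e l) x = ∑ l ∈ s, e l x :=
  AddMonoidHom.finsetSum_apply e s x

theorem kModel_D (i : Y ⊕ S) (x : K (Y ⊕ S)) : (kModel c I h hp hL).D c i x = pd i x := by
  rw [c.pd_eq i x]
  have h1 : (kModel c I h hp hL).D c i x =
      (Sum.elim (fun j => (kModel c I h hp hL).δy j) (fun _ => 0) i : AddMonoid.End _) x +
      ∑ l, ((kModel c I h hp hL).ρ (c.Ψ (pderiv i (c.s l))) *
        (kModel c I h hp hL).δ l : AddMonoid.End _) x := by
    unfold Model.D
    rw [end_add_apply, end_sum_apply]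
  rw [h1]
  congr 1
  · rcases i with j | m
    · rfl
    · rfl
  · apply Finset.sum_congr rfl
    intro l _
    change (kModel c I h hp hL).ρ (c.Ψ (pderiv i (c.s l))) ((kModel c I h hp hL).δ l x) = _
    rw [kModel_ρ, kModel_δ, c.jA_Ψ]

theorem kModel_DWord (w : List (Y ⊕ S)) (x : K (Y ⊕ S)) :
    (kModel c I h hp hL).DWord c w x = pdWord w x := by
  unfold Model.DWord pdWord
  simp only [kModel_D]

theorem kModel_act (P : Op (Y ⊕ S)) (x : K (Y ⊕ S)) :
    (kModel c I h hp hL).act c P x = P.act x := by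
  unfold Model.act Op.act
  simp only [kModel_DWord, kModel_ρ, c.jA_Ψ]

end

end Adams
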