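import Pool.Agent.MP_fe6ac3_nt.FModel

/-!
# [ADAMS-KRF] The relations of the generator `1` of the Fourier model of `Δ^{-1/2}`
-/

open MvPolynomial

namespace Adams

noncomputable section

/-- `Δ` as a function of the `16` dual variables -/
def DeltaF {R : Type*} [CommRing R] (η : ST 0 → R) : R :=
  let F : Matrix (Fin 2) (Fin 2) R := zB η 2 * zB η 0
  let G : Matrix (Fin 2) (Fin 2) R := zB η 3 * zB η 1
  (F.adjugate * G).trace ^ 2 - 4 * F.det * G.det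

/-- `Δ` as a polynomial -/
def Delta0 : O (ST 0) := DeltaF X

namespace KRF

section Gen

variable {R : Type*} [CommRing R]

/-- the entries of `F, G` -/
def uu (η : ST 0 → R) : Fin 8 → R :=
  ![η (Sum.inl (2, 0, 0)) * η (Sum.inl (0, 0, 0)) + η (Sum.inl (2, 0, 1)) * η (Sum.inl (0, 1, 0)),
    η (Sum.inl (2, 0, 0)) * η (Sum.inl (0, 0, 1)) + η (Sum.inl (2, 0, 1)) * η (Sum.inl (0, 1, 1)),
    η (Sum.inl (2, 1, 0)) * η (Sum.inl (0, 0, 0)) + η (Sum.inl (2, 1, 1)) * η (Sum.inl (0, 1, 0)),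
    η (Sum.inl (2, 1, 0)) * η (Sum.inl (0, 0, 1)) + η (Sum.inl (2, 1, 1)) * η (Sum.inl (0, 1, 1)),
    η (Sum.inl (3, 0, 0)) * η (Sum.inl (1, 0, 0)) + η (Sum.inl (3, 0, 1)) * η (Sum.inl (1, 1, 0)),
    η (Sum.inl (3, 0, 0)) * η (Sum.inl (1, 0, 1)) + η (Sum.inl (3, 0, 1)) * η (Sum.inl (1, 1, 1)),
    η (Sum.inl (3, 1, 0)) * η (Sum.inl (1, 0, 0)) + η (Sum.inl (3, 1, 1)) * η (Sum.inl (1, 1, 0)),
    η (Sum.inl (3, 1, 0)) * η (Sum.inl (1, 0, 1)) + η (Sum.inl (3, 1, 1)) * η (Sum.inl (1, 1, 1))]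

def TT1 (u : Fin 8 → R) : R := u 3 * u 4 - u 1 * u 6 - u 2 * u 5 + u 0 * u 7
def TT2 (u p : Fin 8 → R) : R := (p 3 * u 4 + u 3 * p 4) - (p 1 * u 6 + u 1 * p 6)
  - (p 2 * u 5 + u 2 * p 5) + (p 0 * u 7 + u 0 * p 7)
def dF1 (u : Fin 8 → R) : R := u 0 * u 3 - u 1 * u 2
def dF2 (u p : Fin 8 → R) : R := (p 0 * u 3 + u 0 * p 3) - (p 1 * u 2 + u 1 * p 2)
def dG1 (u : Fin 8 → R) : R := u 4 * u 7 - u 5 * u 6
def dG2 (u p : Fin 8 → R) : R := (p 4 * u 7 + u 4 * p 7) - (p 5 * u 6 + u 5 * p 6)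

def Ph (u : Fin 8 → R) : R := TT1 u ^ 2 - 4 * dF1 u * dG1 u
def Ph1 (u q : Fin 8 → R) : R := 2 * TT1 u * TT2 u q - 4 * (dF2 u q * dG1 u + dF1 u * dG2 u q)
def Ph2 (u p q r : Fin 8 → R) : R :=
  2 * TT2 u p * TT2 u q + 2 * TT1 u * (TT2 p q + TT2 u r)
    - 4 * ((dF2 p q + dF2 u r) * dG1 u + dF2 u q * dG2 u p + dF2 u p * dG2 u q
      + dF1 u * (dG2 p q + dG2 u r))

theorem DeltaF_eq (η : ST 0 → R) : DeltaF η = Ph (uu η) := by
  simp only [DeltaF, zB, Matrix.adjugate_fin_two, Matrix.trace_fin_two, Matrix.det_fin_two,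
    Matrix.mul_apply, Fin.sum_univ_two, Matrix.of_apply, Ph, TT1, dF1, dG1, uu,
    Matrix.cons_val_zero, Matrix.cons_val_one, Matrix.cons_val]
  ring

theorem P_Ph [Algebra ℂ R] (P : Derivation ℂ R R) (u : Fin 8 → R) :
    P (Ph u) = Ph1 u (fun i => P (u i)) := by
  have h4 : P (4 : R) = 0 := by
    have := P.map_natCast 4
    simpa using this
  simp only [Ph, Ph1, TT1, TT2, dF1, dF2, dG1, dG2, map_sub, map_add, Derivation.leibniz,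
    Derivation.leibniz_pow, smul_eq_mul, h4]
  simp
  ring

theorem PQ_Ph [Algebra ℂ R] (P : Derivation ℂ R R) (u q : Fin 8 → R) :
    P (Ph1 u q) = Ph2 u (fun i => P (u i)) q (fun i => P (q i)) := by
  have h4 : P (4 : R) = 0 := by
    have := P.map_natCast 4
    simpa using this
  have h2 : P (2 : R) = 0 := by
    have := P.map_natCast 2
    simpa using this
  simp only [Ph1, Ph2, TT1, TT2, dF1, dF2, dG1, dG2, map_sub, map_add, Derivation.leibniz,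
    Derivation.leibniz_pow, smul_eq_mul, h4, h2]
  ring


theorem map_Ph {R' : Type*} [CommRing R'] (φ : R →+* R') (u : Fin 8 → R) :
    φ (Ph u) = Ph (fun i => φ (u i)) := by
  simp only [Ph, TT1, dF1, dG1, map_sub, map_add, map_mul, map_pow, map_ofNat]

theorem map_uu {R' : Type*} [CommRing R'] (φ : R →+* R') (η : ST 0 → R) (i : Fin 8) :
    φ (uu η i) = uu (fun c => φ (η c)) i := by
  fin_cases i <;> simp [uu]

end Gen

/-! ### the function field -/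

section Fld

variable {Y : Type} [Fintype Y] [DecidableEq Y]

/-- the dual variables -/
def xx (c : ST 0) : K (Y ⊕ ST 0) := ι (X (Sum.inr c))

/-- `Δ` in the function field -/
def DD0 (Y : Type) [Fintype Y] [DecidableEq Y] : K (Y ⊕ ST 0) := ι (rename Sum.inr Delta0)

theorem DD0_eq : DD0 Y = Ph (uu (xx (Y := Y))) := by
  unfold DD0 Delta0
  rw [DeltaF_eq]
  have h1 : (ι (rename Sum.inr (Ph (uu (X : ST 0 → O (ST 0))))) : K (Y ⊕ ST 0)) =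
      ((ι : O (Y ⊕ ST 0) →+* K (Y ⊕ ST 0)).comp
        (rename (R := ℂ) (Sum.inr : ST 0 → Y ⊕ ST 0)).toRingHom) (Ph (uu X)) := rfl
  rw [h1, map_Ph]
  congr 1
  funext i
  rw [map_uu]
  congr 1
  funext c
  simp [xx]

theorem pd_xx (c c' : ST 0) : pd (Sum.inr c) (xx (Y := Y) c') = if c = c' then 1 else 0 := by
  unfold xx
  rw [pd_X]
  by_cases h : c = c'
  · subst h; simp
  · rw [if_neg h, if_neg]
    intro h'
    exact h (Sum.inr_injective h')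

/-- the gradient of `u` -/
def va (c : ST 0) : Fin 8 → K (Y ⊕ ST 0) := fun i => pd (Sum.inr c) (uu xx i)

theorem pd_DD0 (c : ST 0) : pd (Sum.inr c) (DD0 Y) = Ph1 (uu xx) (va c) := by
  rw [DD0_eq]
  exact P_Ph (pdD (Sum.inr c)) (uu xx)

theorem pd_pd_DD0 (c c' : ST 0) : pd (Sum.inr c) (pd (Sum.inr c') (DD0 Y)) =
    Ph2 (uu xx) (va c) (va c') (fun i => pd (Sum.inr c) (va c' i)) := by
  rw [pd_DD0]
  exact PQ_Ph (pdD (Sum.inr c)) (uu xx) (va c')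


/-- the quadratic expression `3 Δ_a Δ_b - 2 Δ Δ_ab` -/
def HH {R : Type*} [CommRing R] (u p q r : Fin 8 → R) : R :=
  3 * Ph1 u p * Ph1 u q - 2 * Ph u * Ph2 u p q r

theorem DD0_ne_zero (h : Delta0 ≠ 0) : DD0 Y ≠ 0 := by
  unfold DD0
  apply ι_ne_zero
  intro h'
  exact h (rename_injective _ Sum.inr_injective (by rw [h', map_zero]))

theorem nab_one (c : ST 0) : nab Delta0 c (1 : K (Y ⊕ ST 0)) =
    -(1 / 2) * (pd (Sum.inr c) (DD0 Y) / DD0 Y) := by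
  unfold nab
  rw [pd_one]
  unfold DD0
  ring

theorem pd_half (i : Y ⊕ ST 0) : pd i (1 / 2 : K (Y ⊕ ST 0)) = 0 := by
  have h2 : pd i (2 : K (Y ⊕ ST 0)) = 0 := by
    have := (pdD i).map_natCast 2
    simpa using this
  rw [one_div, pd_inv _ _ two_ne_zero, h2]
  simp

theorem nab_nab (hD : DD0 Y ≠ 0) (a b : ST 0) : nab Delta0 a (nab Delta0 b (1 : K (Y ⊕ ST 0))) =
    HH (uu xx) (va a) (va b) (fun i => pd (Sum.inr a) (va b i)) * (4 * DD0 Y ^ 2)⁻¹ := by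
  have h1 : HH (uu xx) (va a) (va b) (fun i => pd (Sum.inr a) (va b i)) =
      3 * pd (Sum.inr a) (DD0 Y) * pd (Sum.inr b) (DD0 Y)
        - 2 * DD0 Y * pd (Sum.inr a) (pd (Sum.inr b) (DD0 Y)) := by
    rw [HH, pd_DD0, pd_DD0, ← pd_DD0 b, pd_pd_DD0, DD0_eq]
  rw [h1, nab_one]
  unfold nab
  change pd (Sum.inr a) (-(1 / 2) * (pd (Sum.inr b) (DD0 Y) / DD0 Y)) -
    1 / 2 * (pd (Sum.inr a) (DD0 Y) / DD0 Y) * (-(1 / 2) * (pd (Sum.inr b) (DD0 Y) / DD0 Y)) = _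
  rw [pd_mul, pd_neg, pd_half, div_eq_mul_inv (pd (Sum.inr b) (DD0 Y)) (DD0 Y), pd_mul,
    pd_inv _ _ hD]
  field_simp
  ring

theorem va_a00 : va (Y := Y) (Sum.inl (0, 0, 0)) =
    ![xx (Sum.inl (2, 0, 0)),
      0,
      xx (Sum.inl (2, 1, 0)),
      0,
      0,
      0,
      0,
      0] := by
  funext i; fin_cases i <;> simp [va, uu, pd_add, pd_mul, pd_xx]

theorem va_a01 : va (Y := Y) (Sum.inl (0, 0, 1)) =
    ![0,
      xx (Sum.inl (2, 0, 0)),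
      0,
      xx (Sum.inl (2, 1, 0)),
      0,
      0,
      0,
      0] := by
  funext i; fin_cases i <;> simp [va, uu, pd_add, pd_mul, pd_xx]

theorem va_a10 : va (Y := Y) (Sum.inl (0, 1, 0)) =
    ![xx (Sum.inl (2, 0, 1)),
      0,
      xx (Sum.inl (2, 1, 1)),
      0,
      0,
      0,
      0,
      0] := by
  funext i; fin_cases i <;> simp [va, uu, pd_add, pd_mul, pd_xx]

theorem va_a11 : va (Y := Y) (Sum.inl (0, 1, 1)) =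
    ![0,
      xx (Sum.inl (2, 0, 1)),
      0,
      xx (Sum.inl (2, 1, 1)),
      0,
      0,
      0,
      0] := by
  funext i; fin_cases i <;> simp [va, uu, pd_add, pd_mul, pd_xx]

theorem va_b00 : va (Y := Y) (Sum.inl (1, 0, 0)) =
    ![0,
      0,
      0,
      0,
      xx (Sum.inl (3, 0, 0)),
      0,
      xx (Sum.inl (3, 1, 0)),
      0] := by
  funext i; fin_cases i <;> simp [va, uu, pd_add, pd_mul, pd_xx]

theorem va_b01 : va (Y := Y) (Sum.inl (1, 0, 1)) =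
    ![0,
      0,
      0,
      0,
      0,
      xx (Sum.inl (3, 0, 0)),
      0,
      xx (Sum.inl (3, 1, 0))] := by
  funext i; fin_cases i <;> simp [va, uu, pd_add, pd_mul, pd_xx]

theorem va_b10 : va (Y := Y) (Sum.inl (1, 1, 0)) =
    ![0,
      0,
      0,
      0,
      xx (Sum.inl (3, 0, 1)),
      0,
      xx (Sum.inl (3, 1, 1)),
      0] := by
  funext i; fin_cases i <;> simp [va, uu, pd_add, pd_mul, pd_xx]

theorem va_b11 : va (Y := Y) (Sum.inl (1, 1, 1)) =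
    ![0,
      0,
      0,
      0,
      0,
      xx (Sum.inl (3, 0, 1)),
      0,
      xx (Sum.inl (3, 1, 1))] := by
  funext i; fin_cases i <;> simp [va, uu, pd_add, pd_mul, pd_xx]

theorem va_e00 : va (Y := Y) (Sum.inl (2, 0, 0)) =
    ![xx (Sum.inl (0, 0, 0)),
      xx (Sum.inl (0, 0, 1)),
      0,
      0,
      0,
      0,
      0,
      0] := by
  funext i; fin_cases i <;> simp [va, uu, pd_add, pd_mul, pd_xx]

theorem va_e01 : va (Y := Y) (Sum.inl (2, 0, 1)) =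
    ![xx (Sum.inl (0, 1, 0)),
      xx (Sum.inl (0, 1, 1)),
      0,
      0,
      0,
      0,
      0,
      0] := by
  funext i; fin_cases i <;> simp [va, uu, pd_add, pd_mul, pd_xx]

theorem va_e10 : va (Y := Y) (Sum.inl (2, 1, 0)) =
    ![0,
      0,
      xx (Sum.inl (0, 0, 0)),
      xx (Sum.inl (0, 0, 1)),
      0,
      0,
      0,
      0] := by
  funext i; fin_cases i <;> simp [va, uu, pd_add, pd_mul, pd_xx]

theorem va_e11 : va (Y := Y) (Sum.inl (2, 1, 1)) =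
    ![0,
      0,
      xx (Sum.inl (0, 1, 0)),
      xx (Sum.inl (0, 1, 1)),
      0,
      0,
      0,
      0] := by
  funext i; fin_cases i <;> simp [va, uu, pd_add, pd_mul, pd_xx]

theorem va_d00 : va (Y := Y) (Sum.inl (3, 0, 0)) =
    ![0,
      0,
      0,
      0,
      xx (Sum.inl (1, 0, 0)),
      xx (Sum.inl (1, 0, 1)),
      0,
      0] := by
  funext i; fin_cases i <;> simp [va, uu, pd_add, pd_mul, pd_xx]

theorem va_d01 : va (Y := Y) (Sum.inl (3, 0, 1)) =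
    ![0,
      0,
      0,
      0,
      xx (Sum.inl (1, 1, 0)),
      xx (Sum.inl (1, 1, 1)),
      0,
      0] := by
  funext i; fin_cases i <;> simp [va, uu, pd_add, pd_mul, pd_xx]

theorem va_d10 : va (Y := Y) (Sum.inl (3, 1, 0)) =
    ![0,
      0,
      0,
      0,
      0,
      0,
      xx (Sum.inl (1, 0, 0)),
      xx (Sum.inl (1, 0, 1))] := by
  funext i; fin_cases i <;> simp [va, uu, pd_add, pd_mul, pd_xx]

theorem va_d11 : va (Y := Y) (Sum.inl (3, 1, 1)) =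
    ![0,
      0,
      0,
      0,
      0,
      0,
      xx (Sum.inl (1, 1, 0)),
      xx (Sum.inl (1, 1, 1))] := by
  funext i; fin_cases i <;> simp [va, uu, pd_add, pd_mul, pd_xx]

theorem rr_a00_a11 : (fun i => pd (Sum.inr (Sum.inl (0, 0, 0))) (va (Y := Y) (Sum.inl (0, 1, 1)) i)) =
    ![0, 0, 0, 0, 0, 0, 0, 0] := by
  rw [va_a11]; funext i; fin_cases i <;> simp [pd_xx]

theorem rr_a01_a10 : (fun i => pd (Sum.inr (Sum.inl (0, 0, 1))) (va (Y := Y) (Sum.inl (0, 1, 0)) i)) =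
    ![0, 0, 0, 0, 0, 0, 0, 0] := by
  rw [va_a10]; funext i; fin_cases i <;> simp [pd_xx]

theorem rr_a00_b01 : (fun i => pd (Sum.inr (Sum.inl (0, 0, 0))) (va (Y := Y) (Sum.inl (1, 0, 1)) i)) =
    ![0, 0, 0, 0, 0, 0, 0, 0] := by
  rw [va_b01]; funext i; fin_cases i <;> simp [pd_xx]

theorem rr_a01_b00 : (fun i => pd (Sum.inr (Sum.inl (0, 0, 1))) (va (Y := Y) (Sum.inl (1, 0, 0)) i)) =
    ![0, 0, 0, 0, 0, 0, 0, 0] := by
  rw [va_b00]; funext i; fin_cases i <;> simp [pd_xx]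

theorem rr_a00_b11 : (fun i => pd (Sum.inr (Sum.inl (0, 0, 0))) (va (Y := Y) (Sum.inl (1, 1, 1)) i)) =
    ![0, 0, 0, 0, 0, 0, 0, 0] := by
  rw [va_b11]; funext i; fin_cases i <;> simp [pd_xx]

theorem rr_a01_b10 : (fun i => pd (Sum.inr (Sum.inl (0, 0, 1))) (va (Y := Y) (Sum.inl (1, 1, 0)) i)) =
    ![0, 0, 0, 0, 0, 0, 0, 0] := by
  rw [va_b10]; funext i; fin_cases i <;> simp [pd_xx]

theorem rr_e01_a10 : (fun i => pd (Sum.inr (Sum.inl (2, 0, 1))) (va (Y := Y) (Sum.inl (0, 1, 0)) i)) =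
    ![1, 0, 0, 0, 0, 0, 0, 0] := by
  rw [va_a10]; funext i; fin_cases i <;> simp [pd_xx]

theorem rr_e00_a00 : (fun i => pd (Sum.inr (Sum.inl (2, 0, 0))) (va (Y := Y) (Sum.inl (0, 0, 0)) i)) =
    ![1, 0, 0, 0, 0, 0, 0, 0] := by
  rw [va_a00]; funext i; fin_cases i <;> simp [pd_xx]

theorem rr_e11_a10 : (fun i => pd (Sum.inr (Sum.inl (2, 1, 1))) (va (Y := Y) (Sum.inl (0, 1, 0)) i)) =
    ![0, 0, 1, 0, 0, 0, 0, 0] := by
  rw [va_a10]; funext i; fin_cases i <;> simp [pd_xx]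

theorem rr_e10_a00 : (fun i => pd (Sum.inr (Sum.inl (2, 1, 0))) (va (Y := Y) (Sum.inl (0, 0, 0)) i)) =
    ![0, 0, 1, 0, 0, 0, 0, 0] := by
  rw [va_a00]; funext i; fin_cases i <;> simp [pd_xx]

theorem rr_d01_b10 : (fun i => pd (Sum.inr (Sum.inl (3, 0, 1))) (va (Y := Y) (Sum.inl (1, 1, 0)) i)) =
    ![0, 0, 0, 0, 1, 0, 0, 0] := by
  rw [va_b10]; funext i; fin_cases i <;> simp [pd_xx]

theorem rr_d00_b00 : (fun i => pd (Sum.inr (Sum.inl (3, 0, 0))) (va (Y := Y) (Sum.inl (1, 0, 0)) i)) =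
    ![0, 0, 0, 0, 1, 0, 0, 0] := by
  rw [va_b00]; funext i; fin_cases i <;> simp [pd_xx]

theorem rr_e00_d10 : (fun i => pd (Sum.inr (Sum.inl (2, 0, 0))) (va (Y := Y) (Sum.inl (3, 1, 0)) i)) =
    ![0, 0, 0, 0, 0, 0, 0, 0] := by
  rw [va_d10]; funext i; fin_cases i <;> simp [pd_xx]

theorem rr_e10_d00 : (fun i => pd (Sum.inr (Sum.inl (2, 1, 0))) (va (Y := Y) (Sum.inl (3, 0, 0)) i)) =
    ![0, 0, 0, 0, 0, 0, 0, 0] := by
  rw [va_d00]; funext i; fin_cases i <;> simp [pd_xx]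

theorem rr_d10_b00 : (fun i => pd (Sum.inr (Sum.inl (3, 1, 0))) (va (Y := Y) (Sum.inl (1, 0, 0)) i)) =
    ![0, 0, 0, 0, 0, 0, 1, 0] := by
  rw [va_b00]; funext i; fin_cases i <;> simp [pd_xx]

theorem rr_d11_b10 : (fun i => pd (Sum.inr (Sum.inl (3, 1, 1))) (va (Y := Y) (Sum.inl (1, 1, 0)) i)) =
    ![0, 0, 0, 0, 0, 0, 1, 0] := by
  rw [va_b10]; funext i; fin_cases i <;> simp [pd_xx]

theorem nab_neg (a : ST 0) (f : K (Y ⊕ ST 0)) : nab Delta0 a (-f) = -nab Delta0 a f := by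
  unfold nab
  rw [pd_neg]
  ring

theorem rho_XX (h : Delta0 ≠ 0) (a b : ST 0) :
    (fModel Y Delta0 h).ρ (X a * X b) (1 : K (Y ⊕ ST 0)) =
      HH (uu xx) (va a) (va b) (fun i => pd (Sum.inr a) (va b i)) * (4 * DD0 Y ^ 2)⁻¹ := by
  rw [map_mul]
  change (fModel Y Delta0 h).ρ (X a) ((fModel Y Delta0 h).ρ (X b) (1 : K (Y ⊕ ST 0))) = _
  rw [fModel_ρ_X, fModel_ρ_X, nab_neg, neg_neg, nab_nab (DD0_ne_zero h)]

theorem q_sub (h : Delta0 ≠ 0) (a b c d : ST 0)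
    (hh : HH (uu (xx (Y := Y))) (va a) (va b) (fun i => pd (Sum.inr a) (va b i)) =
      HH (uu xx) (va c) (va d) (fun i => pd (Sum.inr c) (va d i))) :
    (fModel Y Delta0 h).ρ (X a * X b - X c * X d) (1 : K (Y ⊕ ST 0)) = 0 := by
  rw [map_sub]
  change (fModel Y Delta0 h).ρ (X a * X b) (1 : K (Y ⊕ ST 0)) -
    (fModel Y Delta0 h).ρ (X c * X d) (1 : K (Y ⊕ ST 0)) = _
  rw [rho_XX, rho_XX, hh, sub_self]

theorem q_add (h : Delta0 ≠ 0) (a b c d : ST 0)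
    (hh : HH (uu (xx (Y := Y))) (va a) (va b) (fun i => pd (Sum.inr a) (va b i)) +
      HH (uu xx) (va c) (va d) (fun i => pd (Sum.inr c) (va d i)) = 0) :
    (fModel Y Delta0 h).ρ (X a * X b + X c * X d) (1 : K (Y ⊕ ST 0)) = 0 := by
  rw [map_add]
  change (fModel Y Delta0 h).ρ (X a * X b) (1 : K (Y ⊕ ST 0)) +
    (fModel Y Delta0 h).ρ (X c * X d) (1 : K (Y ⊕ ST 0)) = _
  rw [rho_XX, rho_XX, ← add_mul, hh, zero_mul]

theorem hh0 : HH (uu (xx (Y := Y))) (va (Sum.inl (0, 0, 0))) (va (Sum.inl (0, 1, 1)))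
      (fun i => pd (Sum.inr (Sum.inl (0, 0, 0))) (va (Sum.inl (0, 1, 1)) i)) =
    HH (uu xx) (va (Sum.inl (0, 0, 1))) (va (Sum.inl (0, 1, 0)))
      (fun i => pd (Sum.inr (Sum.inl (0, 0, 1))) (va (Sum.inl (0, 1, 0)) i)) := by
  rw [rr_a00_a11, rr_a01_a10, va_a00, va_a11, va_a01, va_a10]
  generalize uu (xx (Y := Y)) = u
  simp only [HH, Ph1, Ph2, Ph, TT1, TT2, dF1, dF2, dG1, dG2, Matrix.cons_val_zero,
    Matrix.cons_val_one, Matrix.cons_val]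
  ring

theorem hh1 : HH (uu (xx (Y := Y))) (va (Sum.inl (0, 0, 0))) (va (Sum.inl (1, 0, 1)))
      (fun i => pd (Sum.inr (Sum.inl (0, 0, 0))) (va (Sum.inl (1, 0, 1)) i)) =
    HH (uu xx) (va (Sum.inl (0, 0, 1))) (va (Sum.inl (1, 0, 0)))
      (fun i => pd (Sum.inr (Sum.inl (0, 0, 1))) (va (Sum.inl (1, 0, 0)) i)) := by
  rw [rr_a00_b01, rr_a01_b00, va_a00, va_b01, va_a01, va_b00]
  generalize uu (xx (Y := Y)) = u
  simp only [HH, Ph1, Ph2, Ph, TT1, TT2, dF1, dF2, dG1, dG2, Matrix.cons_val_zero,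
    Matrix.cons_val_one, Matrix.cons_val]
  ring

theorem hh2 : HH (uu (xx (Y := Y))) (va (Sum.inl (0, 0, 0))) (va (Sum.inl (1, 1, 1)))
      (fun i => pd (Sum.inr (Sum.inl (0, 0, 0))) (va (Sum.inl (1, 1, 1)) i)) =
    HH (uu xx) (va (Sum.inl (0, 0, 1))) (va (Sum.inl (1, 1, 0)))
      (fun i => pd (Sum.inr (Sum.inl (0, 0, 1))) (va (Sum.inl (1, 1, 0)) i)) := by
  rw [rr_a00_b11, rr_a01_b10, va_a00, va_b11, va_a01, va_b10]
  generalize uu (xx (Y := Y)) = u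
  simp only [HH, Ph1, Ph2, Ph, TT1, TT2, dF1, dF2, dG1, dG2, Matrix.cons_val_zero,
    Matrix.cons_val_one, Matrix.cons_val]
  ring

theorem hh3 : HH (uu (xx (Y := Y))) (va (Sum.inl (2, 0, 1))) (va (Sum.inl (0, 1, 0)))
      (fun i => pd (Sum.inr (Sum.inl (2, 0, 1))) (va (Sum.inl (0, 1, 0)) i)) +
    HH (uu xx) (va (Sum.inl (2, 0, 0))) (va (Sum.inl (0, 0, 0)))
      (fun i => pd (Sum.inr (Sum.inl (2, 0, 0))) (va (Sum.inl (0, 0, 0)) i)) = 0 := by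
  have h0 : uu (xx (Y := Y)) 0 = xx (Sum.inl (2, 0, 0)) * xx (Sum.inl (0, 0, 0)) + xx (Sum.inl (2, 0, 1)) * xx (Sum.inl (0, 1, 0)) := rfl
  have h2 : uu (xx (Y := Y)) 2 = xx (Sum.inl (2, 1, 0)) * xx (Sum.inl (0, 0, 0)) + xx (Sum.inl (2, 1, 1)) * xx (Sum.inl (0, 1, 0)) := rfl
  have h1 : uu (xx (Y := Y)) 1 = xx (Sum.inl (2, 0, 0)) * xx (Sum.inl (0, 0, 1)) + xx (Sum.inl (2, 0, 1)) * xx (Sum.inl (0, 1, 1)) := rfl
  have h3 : uu (xx (Y := Y)) 3 = xx (Sum.inl (2, 1, 0)) * xx (Sum.inl (0, 0, 1)) + xx (Sum.inl (2, 1, 1)) * xx (Sum.inl (0, 1, 1)) := rfl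
  rw [rr_e01_a10, rr_e00_a00, va_e01, va_a10, va_e00, va_a00]
  generalize uu (xx (Y := Y)) = u at h0 h2 h1 h3 ⊢
  simp only [HH, Ph1, Ph2, Ph, TT1, TT2, dF1, dF2, dG1, dG2, Matrix.cons_val_zero,
    Matrix.cons_val_one, Matrix.cons_val]
  have c0 := congrArg (fun z => HH u ![1, 0, 0, 0, 0, 0, 0, 0] ![1, 0, 0, 0, 0, 0, 0, 0] ![0, 0, 0, 0, 0, 0, 0, 0] * z) h0
  have c2 := congrArg (fun z => HH u ![1, 0, 0, 0, 0, 0, 0, 0] ![0, 0, 1, 0, 0, 0, 0, 0] ![0, 0, 0, 0, 0, 0, 0, 0] * z) h2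
  have c1 := congrArg (fun z => HH u ![0, 1, 0, 0, 0, 0, 0, 0] ![1, 0, 0, 0, 0, 0, 0, 0] ![0, 0, 0, 0, 0, 0, 0, 0] * z) h1
  have c3 := congrArg (fun z => HH u ![0, 1, 0, 0, 0, 0, 0, 0] ![0, 0, 1, 0, 0, 0, 0, 0] ![0, 0, 0, 0, 0, 0, 0, 0] * z) h3
  simp only [HH, Ph1, Ph2, Ph, TT1, TT2, dF1, dF2, dG1, dG2, Matrix.cons_val_zero,
    Matrix.cons_val_one, Matrix.cons_val] at c0 c2 c1 c3
  linear_combination -c0 - c2 - c1 - c3

theorem hh4 : HH (uu (xx (Y := Y))) (va (Sum.inl (2, 1, 1))) (va (Sum.inl (0, 1, 0)))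
      (fun i => pd (Sum.inr (Sum.inl (2, 1, 1))) (va (Sum.inl (0, 1, 0)) i)) +
    HH (uu xx) (va (Sum.inl (2, 1, 0))) (va (Sum.inl (0, 0, 0)))
      (fun i => pd (Sum.inr (Sum.inl (2, 1, 0))) (va (Sum.inl (0, 0, 0)) i)) = 0 := by
  have h0 : uu (xx (Y := Y)) 0 = xx (Sum.inl (2, 0, 0)) * xx (Sum.inl (0, 0, 0)) + xx (Sum.inl (2, 0, 1)) * xx (Sum.inl (0, 1, 0)) := rfl
  have h2 : uu (xx (Y := Y)) 2 = xx (Sum.inl (2, 1, 0)) * xx (Sum.inl (0, 0, 0)) + xx (Sum.inl (2, 1, 1)) * xx (Sum.inl (0, 1, 0)) := rfl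
  have h1 : uu (xx (Y := Y)) 1 = xx (Sum.inl (2, 0, 0)) * xx (Sum.inl (0, 0, 1)) + xx (Sum.inl (2, 0, 1)) * xx (Sum.inl (0, 1, 1)) := rfl
  have h3 : uu (xx (Y := Y)) 3 = xx (Sum.inl (2, 1, 0)) * xx (Sum.inl (0, 0, 1)) + xx (Sum.inl (2, 1, 1)) * xx (Sum.inl (0, 1, 1)) := rfl
  rw [rr_e11_a10, rr_e10_a00, va_e11, va_a10, va_e10, va_a00]
  generalize uu (xx (Y := Y)) = u at h0 h2 h1 h3 ⊢
  simp only [HH, Ph1, Ph2, Ph, TT1, TT2, dF1, dF2, dG1, dG2, Matrix.cons_val_zero,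
    Matrix.cons_val_one, Matrix.cons_val]
  have c0 := congrArg (fun z => HH u ![0, 0, 1, 0, 0, 0, 0, 0] ![1, 0, 0, 0, 0, 0, 0, 0] ![0, 0, 0, 0, 0, 0, 0, 0] * z) h0
  have c2 := congrArg (fun z => HH u ![0, 0, 1, 0, 0, 0, 0, 0] ![0, 0, 1, 0, 0, 0, 0, 0] ![0, 0, 0, 0, 0, 0, 0, 0] * z) h2
  have c1 := congrArg (fun z => HH u ![0, 0, 0, 1, 0, 0, 0, 0] ![1, 0, 0, 0, 0, 0, 0, 0] ![0, 0, 0, 0, 0, 0, 0, 0] * z) h1
  have c3 := congrArg (fun z => HH u ![0, 0, 0, 1, 0, 0, 0, 0] ![0, 0, 1, 0, 0, 0, 0, 0] ![0, 0, 0, 0, 0, 0, 0, 0] * z) h3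
  simp only [HH, Ph1, Ph2, Ph, TT1, TT2, dF1, dF2, dG1, dG2, Matrix.cons_val_zero,
    Matrix.cons_val_one, Matrix.cons_val] at c0 c2 c1 c3
  linear_combination -c0 - c2 - c1 - c3

theorem hh5 : HH (uu (xx (Y := Y))) (va (Sum.inl (3, 0, 1))) (va (Sum.inl (1, 1, 0)))
      (fun i => pd (Sum.inr (Sum.inl (3, 0, 1))) (va (Sum.inl (1, 1, 0)) i)) +
    HH (uu xx) (va (Sum.inl (3, 0, 0))) (va (Sum.inl (1, 0, 0)))
      (fun i => pd (Sum.inr (Sum.inl (3, 0, 0))) (va (Sum.inl (1, 0, 0)) i)) = 0 := by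
  have h4 : uu (xx (Y := Y)) 4 = xx (Sum.inl (3, 0, 0)) * xx (Sum.inl (1, 0, 0)) + xx (Sum.inl (3, 0, 1)) * xx (Sum.inl (1, 1, 0)) := rfl
  have h6 : uu (xx (Y := Y)) 6 = xx (Sum.inl (3, 1, 0)) * xx (Sum.inl (1, 0, 0)) + xx (Sum.inl (3, 1, 1)) * xx (Sum.inl (1, 1, 0)) := rfl
  have h5 : uu (xx (Y := Y)) 5 = xx (Sum.inl (3, 0, 0)) * xx (Sum.inl (1, 0, 1)) + xx (Sum.inl (3, 0, 1)) * xx (Sum.inl (1, 1, 1)) := rfl
  have h7 : uu (xx (Y := Y)) 7 = xx (Sum.inl (3, 1, 0)) * xx (Sum.inl (1, 0, 1)) + xx (Sum.inl (3, 1, 1)) * xx (Sum.inl (1, 1, 1)) := rfl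
  rw [rr_d01_b10, rr_d00_b00, va_d01, va_b10, va_d00, va_b00]
  generalize uu (xx (Y := Y)) = u at h4 h6 h5 h7 ⊢
  simp only [HH, Ph1, Ph2, Ph, TT1, TT2, dF1, dF2, dG1, dG2, Matrix.cons_val_zero,
    Matrix.cons_val_one, Matrix.cons_val]
  have c4 := congrArg (fun z => HH u ![0, 0, 0, 0, 1, 0, 0, 0] ![0, 0, 0, 0, 1, 0, 0, 0] ![0, 0, 0, 0, 0, 0, 0, 0] * z) h4
  have c6 := congrArg (fun z => HH u ![0, 0, 0, 0, 1, 0, 0, 0] ![0, 0, 0, 0, 0, 0, 1, 0] ![0, 0, 0, 0, 0, 0, 0, 0] * z) h6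
  have c5 := congrArg (fun z => HH u ![0, 0, 0, 0, 0, 1, 0, 0] ![0, 0, 0, 0, 1, 0, 0, 0] ![0, 0, 0, 0, 0, 0, 0, 0] * z) h5
  have c7 := congrArg (fun z => HH u ![0, 0, 0, 0, 0, 1, 0, 0] ![0, 0, 0, 0, 0, 0, 1, 0] ![0, 0, 0, 0, 0, 0, 0, 0] * z) h7
  simp only [HH, Ph1, Ph2, Ph, TT1, TT2, dF1, dF2, dG1, dG2, Matrix.cons_val_zero,
    Matrix.cons_val_one, Matrix.cons_val] at c4 c6 c5 c7
  linear_combination -c4 - c6 - c5 - c7

theorem hh6 : HH (uu (xx (Y := Y))) (va (Sum.inl (2, 0, 0))) (va (Sum.inl (3, 1, 0)))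
      (fun i => pd (Sum.inr (Sum.inl (2, 0, 0))) (va (Sum.inl (3, 1, 0)) i)) =
    HH (uu xx) (va (Sum.inl (2, 1, 0))) (va (Sum.inl (3, 0, 0)))
      (fun i => pd (Sum.inr (Sum.inl (2, 1, 0))) (va (Sum.inl (3, 0, 0)) i)) := by
  rw [rr_e00_d10, rr_e10_d00, va_e00, va_d10, va_e10, va_d00]
  generalize uu (xx (Y := Y)) = u
  simp only [HH, Ph1, Ph2, Ph, TT1, TT2, dF1, dF2, dG1, dG2, Matrix.cons_val_zero,
    Matrix.cons_val_one, Matrix.cons_val]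
  ring

theorem hh7 : HH (uu (xx (Y := Y))) (va (Sum.inl (3, 1, 0))) (va (Sum.inl (1, 0, 0)))
      (fun i => pd (Sum.inr (Sum.inl (3, 1, 0))) (va (Sum.inl (1, 0, 0)) i)) +
    HH (uu xx) (va (Sum.inl (3, 1, 1))) (va (Sum.inl (1, 1, 0)))
      (fun i => pd (Sum.inr (Sum.inl (3, 1, 1))) (va (Sum.inl (1, 1, 0)) i)) = 0 := by
  have h4 : uu (xx (Y := Y)) 4 = xx (Sum.inl (3, 0, 0)) * xx (Sum.inl (1, 0, 0)) + xx (Sum.inl (3, 0, 1)) * xx (Sum.inl (1, 1, 0)) := rfl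
  have h6 : uu (xx (Y := Y)) 6 = xx (Sum.inl (3, 1, 0)) * xx (Sum.inl (1, 0, 0)) + xx (Sum.inl (3, 1, 1)) * xx (Sum.inl (1, 1, 0)) := rfl
  have h5 : uu (xx (Y := Y)) 5 = xx (Sum.inl (3, 0, 0)) * xx (Sum.inl (1, 0, 1)) + xx (Sum.inl (3, 0, 1)) * xx (Sum.inl (1, 1, 1)) := rfl
  have h7 : uu (xx (Y := Y)) 7 = xx (Sum.inl (3, 1, 0)) * xx (Sum.inl (1, 0, 1)) + xx (Sum.inl (3, 1, 1)) * xx (Sum.inl (1, 1, 1)) := rfl
  rw [rr_d10_b00, rr_d11_b10, va_d10, va_b00, va_d11, va_b10]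
  generalize uu (xx (Y := Y)) = u at h4 h6 h5 h7 ⊢
  simp only [HH, Ph1, Ph2, Ph, TT1, TT2, dF1, dF2, dG1, dG2, Matrix.cons_val_zero,
    Matrix.cons_val_one, Matrix.cons_val]
  have c4 := congrArg (fun z => HH u ![0, 0, 0, 0, 0, 0, 1, 0] ![0, 0, 0, 0, 1, 0, 0, 0] ![0, 0, 0, 0, 0, 0, 0, 0] * z) h4
  have c6 := congrArg (fun z => HH u ![0, 0, 0, 0, 0, 0, 1, 0] ![0, 0, 0, 0, 0, 0, 1, 0] ![0, 0, 0, 0, 0, 0, 0, 0] * z) h6
  have c5 := congrArg (fun z => HH u ![0, 0, 0, 0, 0, 0, 0, 1] ![0, 0, 0, 0, 1, 0, 0, 0] ![0, 0, 0, 0, 0, 0, 0, 0] * z) h5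
  have c7 := congrArg (fun z => HH u ![0, 0, 0, 0, 0, 0, 0, 1] ![0, 0, 0, 0, 0, 0, 1, 0] ![0, 0, 0, 0, 0, 0, 0, 0] * z) h7
  simp only [HH, Ph1, Ph2, Ph, TT1, TT2, dF1, dF2, dG1, dG2, Matrix.cons_val_zero,
    Matrix.cons_val_one, Matrix.cons_val] at c4 c6 c5 c7
  linear_combination -c4 - c6 - c5 - c7

theorem tt1 : Ph1 (uu (xx (Y := Y))) (va (Sum.inl (0, 0, 0))) * xx (Sum.inl (0, 0, 1))
      + Ph1 (uu (xx (Y := Y))) (va (Sum.inl (0, 1, 0))) * xx (Sum.inl (0, 1, 1))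
      + Ph1 (uu (xx (Y := Y))) (va (Sum.inl (1, 0, 0))) * xx (Sum.inl (1, 0, 1))
      + Ph1 (uu (xx (Y := Y))) (va (Sum.inl (1, 1, 0))) * xx (Sum.inl (1, 1, 1)) = 0 := by
  have h1 : uu (xx (Y := Y)) 1 = xx (Sum.inl (2, 0, 0)) * xx (Sum.inl (0, 0, 1)) + xx (Sum.inl (2, 0, 1)) * xx (Sum.inl (0, 1, 1)) := rfl
  have h3 : uu (xx (Y := Y)) 3 = xx (Sum.inl (2, 1, 0)) * xx (Sum.inl (0, 0, 1)) + xx (Sum.inl (2, 1, 1)) * xx (Sum.inl (0, 1, 1)) := rfl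
  have h5 : uu (xx (Y := Y)) 5 = xx (Sum.inl (3, 0, 0)) * xx (Sum.inl (1, 0, 1)) + xx (Sum.inl (3, 0, 1)) * xx (Sum.inl (1, 1, 1)) := rfl
  have h7 : uu (xx (Y := Y)) 7 = xx (Sum.inl (3, 1, 0)) * xx (Sum.inl (1, 0, 1)) + xx (Sum.inl (3, 1, 1)) * xx (Sum.inl (1, 1, 1)) := rfl
  rw [va_a00, va_a10, va_b00, va_b10]
  generalize uu (xx (Y := Y)) = u at h1 h3 h5 h7 ⊢
  simp only [Ph1, Ph, TT1, TT2, dF1, dF2, dG1, dG2, Matrix.cons_val_zero,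
    Matrix.cons_val_one, Matrix.cons_val]
  have c1 := congrArg (fun z => Ph1 u ![1, 0, 0, 0, 0, 0, 0, 0] * z) h1
  have c3 := congrArg (fun z => Ph1 u ![0, 0, 1, 0, 0, 0, 0, 0] * z) h3
  have c5 := congrArg (fun z => Ph1 u ![0, 0, 0, 0, 1, 0, 0, 0] * z) h5
  have c7 := congrArg (fun z => Ph1 u ![0, 0, 0, 0, 0, 0, 1, 0] * z) h7
  simp only [Ph1, Ph, TT1, TT2, dF1, dF2, dG1, dG2, Matrix.cons_val_zero,
    Matrix.cons_val_one, Matrix.cons_val] at c1 c3 c5 c7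
  linear_combination -c1 - c3 - c5 - c7

theorem tt2 : Ph1 (uu (xx (Y := Y))) (va (Sum.inl (0, 1, 0))) * xx (Sum.inl (0, 0, 0))
      + Ph1 (uu (xx (Y := Y))) (va (Sum.inl (0, 1, 1))) * xx (Sum.inl (0, 0, 1))
      - Ph1 (uu (xx (Y := Y))) (va (Sum.inl (2, 0, 0))) * xx (Sum.inl (2, 0, 1))
      - Ph1 (uu (xx (Y := Y))) (va (Sum.inl (2, 1, 0))) * xx (Sum.inl (2, 1, 1)) = 0 := by
  rw [va_a10, va_a11, va_e00, va_e10]
  generalize uu (xx (Y := Y)) = u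
  simp only [Ph1, TT1, TT2, dF1, dF2, dG1, dG2, Matrix.cons_val_zero,
    Matrix.cons_val_one, Matrix.cons_val]
  ring

theorem tt3 : Ph1 (uu (xx (Y := Y))) (va (Sum.inl (0, 1, 0))) * xx (Sum.inl (0, 1, 0))
      + Ph1 (uu (xx (Y := Y))) (va (Sum.inl (0, 1, 1))) * xx (Sum.inl (0, 1, 1))
      - Ph1 (uu (xx (Y := Y))) (va (Sum.inl (2, 0, 1))) * xx (Sum.inl (2, 0, 1))
      - Ph1 (uu (xx (Y := Y))) (va (Sum.inl (2, 1, 1))) * xx (Sum.inl (2, 1, 1)) = 0 := by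
  rw [va_a10, va_a11, va_e01, va_e11]
  generalize uu (xx (Y := Y)) = u
  simp only [Ph1, TT1, TT2, dF1, dF2, dG1, dG2, Matrix.cons_val_zero,
    Matrix.cons_val_one, Matrix.cons_val]
  ring

theorem tt4 : Ph1 (uu (xx (Y := Y))) (va (Sum.inl (1, 1, 0))) * xx (Sum.inl (1, 0, 0))
      + Ph1 (uu (xx (Y := Y))) (va (Sum.inl (1, 1, 1))) * xx (Sum.inl (1, 0, 1))
      - Ph1 (uu (xx (Y := Y))) (va (Sum.inl (3, 0, 0))) * xx (Sum.inl (3, 0, 1))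
      - Ph1 (uu (xx (Y := Y))) (va (Sum.inl (3, 1, 0))) * xx (Sum.inl (3, 1, 1)) = 0 := by
  rw [va_b10, va_b11, va_d00, va_d10]
  generalize uu (xx (Y := Y)) = u
  simp only [Ph1, TT1, TT2, dF1, dF2, dG1, dG2, Matrix.cons_val_zero,
    Matrix.cons_val_one, Matrix.cons_val]
  ring

theorem tt5 : Ph1 (uu (xx (Y := Y))) (va (Sum.inl (1, 1, 0))) * xx (Sum.inl (1, 1, 0))
      + Ph1 (uu (xx (Y := Y))) (va (Sum.inl (1, 1, 1))) * xx (Sum.inl (1, 1, 1))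
      - Ph1 (uu (xx (Y := Y))) (va (Sum.inl (3, 0, 1))) * xx (Sum.inl (3, 0, 1))
      - Ph1 (uu (xx (Y := Y))) (va (Sum.inl (3, 1, 1))) * xx (Sum.inl (3, 1, 1)) = 0 := by
  rw [va_b10, va_b11, va_d01, va_d11]
  generalize uu (xx (Y := Y)) = u
  simp only [Ph1, TT1, TT2, dF1, dF2, dG1, dG2, Matrix.cons_val_zero,
    Matrix.cons_val_one, Matrix.cons_val]
  ring

theorem tt6 : Ph1 (uu (xx (Y := Y))) (va (Sum.inl (2, 0, 0))) * xx (Sum.inl (2, 1, 0))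
      + Ph1 (uu (xx (Y := Y))) (va (Sum.inl (2, 0, 1))) * xx (Sum.inl (2, 1, 1))
      + Ph1 (uu (xx (Y := Y))) (va (Sum.inl (3, 0, 0))) * xx (Sum.inl (3, 1, 0))
      + Ph1 (uu (xx (Y := Y))) (va (Sum.inl (3, 0, 1))) * xx (Sum.inl (3, 1, 1)) = 0 := by
  have h2 : uu (xx (Y := Y)) 2 = xx (Sum.inl (2, 1, 0)) * xx (Sum.inl (0, 0, 0)) + xx (Sum.inl (2, 1, 1)) * xx (Sum.inl (0, 1, 0)) := rfl
  have h3 : uu (xx (Y := Y)) 3 = xx (Sum.inl (2, 1, 0)) * xx (Sum.inl (0, 0, 1)) + xx (Sum.inl (2, 1, 1)) * xx (Sum.inl (0, 1, 1)) := rfl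
  have h6 : uu (xx (Y := Y)) 6 = xx (Sum.inl (3, 1, 0)) * xx (Sum.inl (1, 0, 0)) + xx (Sum.inl (3, 1, 1)) * xx (Sum.inl (1, 1, 0)) := rfl
  have h7 : uu (xx (Y := Y)) 7 = xx (Sum.inl (3, 1, 0)) * xx (Sum.inl (1, 0, 1)) + xx (Sum.inl (3, 1, 1)) * xx (Sum.inl (1, 1, 1)) := rfl
  rw [va_e00, va_e01, va_d00, va_d01]
  generalize uu (xx (Y := Y)) = u at h2 h3 h6 h7 ⊢
  simp only [Ph1, Ph, TT1, TT2, dF1, dF2, dG1, dG2, Matrix.cons_val_zero,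
    Matrix.cons_val_one, Matrix.cons_val]
  have c2 := congrArg (fun z => Ph1 u ![1, 0, 0, 0, 0, 0, 0, 0] * z) h2
  have c3 := congrArg (fun z => Ph1 u ![0, 1, 0, 0, 0, 0, 0, 0] * z) h3
  have c6 := congrArg (fun z => Ph1 u ![0, 0, 0, 0, 1, 0, 0, 0] * z) h6
  have c7 := congrArg (fun z => Ph1 u ![0, 0, 0, 0, 0, 1, 0, 0] * z) h7
  simp only [Ph1, Ph, TT1, TT2, dF1, dF2, dG1, dG2, Matrix.cons_val_zero,
    Matrix.cons_val_one, Matrix.cons_val] at c2 c3 c6 c7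
  linear_combination -c2 - c3 - c6 - c7

theorem tt7 : Ph1 (uu (xx (Y := Y))) (va (Sum.inl (3, 0, 0))) * xx (Sum.inl (3, 0, 0))
      + Ph1 (uu (xx (Y := Y))) (va (Sum.inl (3, 0, 1))) * xx (Sum.inl (3, 0, 1))
      + Ph1 (uu (xx (Y := Y))) (va (Sum.inl (3, 1, 0))) * xx (Sum.inl (3, 1, 0))
      + Ph1 (uu (xx (Y := Y))) (va (Sum.inl (3, 1, 1))) * xx (Sum.inl (3, 1, 1)) = 2 * Ph (uu (xx (Y := Y))) := by
  have h4 : uu (xx (Y := Y)) 4 = xx (Sum.inl (3, 0, 0)) * xx (Sum.inl (1, 0, 0)) + xx (Sum.inl (3, 0, 1)) * xx (Sum.inl (1, 1, 0)) := rfl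
  have h5 : uu (xx (Y := Y)) 5 = xx (Sum.inl (3, 0, 0)) * xx (Sum.inl (1, 0, 1)) + xx (Sum.inl (3, 0, 1)) * xx (Sum.inl (1, 1, 1)) := rfl
  have h6 : uu (xx (Y := Y)) 6 = xx (Sum.inl (3, 1, 0)) * xx (Sum.inl (1, 0, 0)) + xx (Sum.inl (3, 1, 1)) * xx (Sum.inl (1, 1, 0)) := rfl
  have h7 : uu (xx (Y := Y)) 7 = xx (Sum.inl (3, 1, 0)) * xx (Sum.inl (1, 0, 1)) + xx (Sum.inl (3, 1, 1)) * xx (Sum.inl (1, 1, 1)) := rfl
  rw [va_d00, va_d01, va_d10, va_d11]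
  generalize uu (xx (Y := Y)) = u at h4 h5 h6 h7 ⊢
  simp only [Ph1, Ph, TT1, TT2, dF1, dF2, dG1, dG2, Matrix.cons_val_zero,
    Matrix.cons_val_one, Matrix.cons_val]
  have c4 := congrArg (fun z => Ph1 u ![0, 0, 0, 0, 1, 0, 0, 0] * z) h4
  have c5 := congrArg (fun z => Ph1 u ![0, 0, 0, 0, 0, 1, 0, 0] * z) h5
  have c6 := congrArg (fun z => Ph1 u ![0, 0, 0, 0, 0, 0, 1, 0] * z) h6
  have c7 := congrArg (fun z => Ph1 u ![0, 0, 0, 0, 0, 0, 0, 1] * z) h7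
  simp only [Ph1, Ph, TT1, TT2, dF1, dF2, dG1, dG2, Matrix.cons_val_zero,
    Matrix.cons_val_one, Matrix.cons_val] at c4 c5 c6 c7
  linear_combination -c4 - c5 - c6 - c7

theorem tt8 : Ph1 (uu (xx (Y := Y))) (va (Sum.inl (2, 0, 0))) * xx (Sum.inl (2, 0, 0))
      + Ph1 (uu (xx (Y := Y))) (va (Sum.inl (2, 0, 1))) * xx (Sum.inl (2, 0, 1))
      + Ph1 (uu (xx (Y := Y))) (va (Sum.inl (3, 0, 0))) * xx (Sum.inl (3, 0, 0))
      + Ph1 (uu (xx (Y := Y))) (va (Sum.inl (3, 0, 1))) * xx (Sum.inl (3, 0, 1)) = 2 * Ph (uu (xx (Y := Y))) := by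
  have h0 : uu (xx (Y := Y)) 0 = xx (Sum.inl (2, 0, 0)) * xx (Sum.inl (0, 0, 0)) + xx (Sum.inl (2, 0, 1)) * xx (Sum.inl (0, 1, 0)) := rfl
  have h1 : uu (xx (Y := Y)) 1 = xx (Sum.inl (2, 0, 0)) * xx (Sum.inl (0, 0, 1)) + xx (Sum.inl (2, 0, 1)) * xx (Sum.inl (0, 1, 1)) := rfl
  have h4 : uu (xx (Y := Y)) 4 = xx (Sum.inl (3, 0, 0)) * xx (Sum.inl (1, 0, 0)) + xx (Sum.inl (3, 0, 1)) * xx (Sum.inl (1, 1, 0)) := rfl
  have h5 : uu (xx (Y := Y)) 5 = xx (Sum.inl (3, 0, 0)) * xx (Sum.inl (1, 0, 1)) + xx (Sum.inl (3, 0, 1)) * xx (Sum.inl (1, 1, 1)) := rfl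
  rw [va_e00, va_e01, va_d00, va_d01]
  generalize uu (xx (Y := Y)) = u at h0 h1 h4 h5 ⊢
  simp only [Ph1, Ph, TT1, TT2, dF1, dF2, dG1, dG2, Matrix.cons_val_zero,
    Matrix.cons_val_one, Matrix.cons_val]
  have c0 := congrArg (fun z => Ph1 u ![1, 0, 0, 0, 0, 0, 0, 0] * z) h0
  have c1 := congrArg (fun z => Ph1 u ![0, 1, 0, 0, 0, 0, 0, 0] * z) h1
  have c4 := congrArg (fun z => Ph1 u ![0, 0, 0, 0, 1, 0, 0, 0] * z) h4
  have c5 := congrArg (fun z => Ph1 u ![0, 0, 0, 0, 0, 1, 0, 0] * z) h5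
  simp only [Ph1, Ph, TT1, TT2, dF1, dF2, dG1, dG2, Matrix.cons_val_zero,
    Matrix.cons_val_one, Matrix.cons_val] at c0 c1 c4 c5
  linear_combination -c0 - c1 - c4 - c5

theorem q_all (h : Delta0 ≠ 0) (j : Fin 8) :
    (fModel Y Delta0 h).ρ (quad (fun l => (X l : MvPolynomial (ST 0) (K Y))) j)
      (1 : K (Y ⊕ ST 0)) = 0 := by
  fin_cases j
  · exact q_sub h _ _ _ _ hh0
  · exact q_sub h _ _ _ _ hh1
  · exact q_sub h _ _ _ _ hh2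
  · exact q_add h _ _ _ _ hh3
  · exact q_add h _ _ _ _ hh4
  · exact q_add h _ _ _ _ hh5
  · exact q_sub h _ _ _ _ hh6
  · exact q_add h _ _ _ _ hh7

theorem e_eq (h : Delta0 ≠ 0) (a b : ST 0) :
    (fModel Y Delta0 h).e (1 : K (Y ⊕ ST 0)) a b =
      -(if a = b then 1 else 0) + 1 / 2 * (Ph1 (uu xx) (va a) * xx b / DD0 Y) := by
  unfold Model.e
  rw [fModel_δ, fModel_ρ_X, mul_one]
  unfold nab
  change -(pd (Sum.inr a) (xx b) - 1 / 2 * (pd (Sum.inr a) (DD0 Y) / DD0 Y) * xx b) = _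
  rw [pd_xx, pd_DD0]
  ring

theorem e_ne (h : Delta0 ≠ 0) (a b : ST 0) (hab : a ≠ b) :
    (fModel Y Delta0 h).e (1 : K (Y ⊕ ST 0)) a b =
      1 / 2 * (Ph1 (uu xx) (va a) * xx b / DD0 Y) := by
  rw [e_eq, if_neg hab]
  ring

theorem e_self (h : Delta0 ≠ 0) (a : ST 0) :
    (fModel Y Delta0 h).e (1 : K (Y ⊕ ST 0)) a a =
      -1 + 1 / 2 * (Ph1 (uu xx) (va a) * xx a / DD0 Y) := by
  rw [e_eq, if_pos rfl]

end Fld

/-! ### evaluation at a point -/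

theorem map_Ph1 {R R' : Type*} [CommRing R] [CommRing R'] (φ : R →+* R') (u q : Fin 8 → R) :
    φ (Ph1 u q) = Ph1 (fun i => φ (u i)) (fun i => φ (q i)) := by
  simp only [Ph1, TT1, TT2, dF1, dF2, dG1, dG2, map_sub, map_add, map_mul, map_ofNat]

theorem map_Ph2 {R R' : Type*} [CommRing R] [CommRing R'] (φ : R →+* R') (u p q r : Fin 8 → R) :
    φ (Ph2 u p q r) = Ph2 (fun i => φ (u i)) (fun i => φ (p i)) (fun i => φ (q i))
      (fun i => φ (r i)) := by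
  simp only [Ph2, TT1, TT2, dF1, dF2, dG1, dG2, map_sub, map_add, map_mul, map_ofNat]

/-- the point of evaluation -/
def pt : ST 0 → ℂ :=
  Sum.elim (fun a => (![![![0, 1], ![1, 0]], ![![2, -1], ![0, 1]], ![![0, 1], ![1, 0]],
    ![![1, -1], ![1, 0]]] : Fin 4 → Fin 2 → Fin 2 → ℂ) a.1 a.2.1 a.2.2) (fun _ => 0)

theorem uu_pt : uu pt = ![1, 0, 0, 1, 2, -2, 2, -1] := by
  funext i
  fin_cases i <;> simp [uu, pt] <;> norm_num

theorem eval_Delta0 : eval pt Delta0 = -7 := by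
  unfold Delta0
  rw [DeltaF_eq, map_Ph (eval pt)]
  have : (fun i => eval pt (uu (X : ST 0 → O (ST 0)) i)) = uu pt := by
    funext i
    rw [map_uu (eval pt)]
    congr 1
    funext c
    simp
  rw [this, uu_pt]
  simp only [Ph, TT1, dF1, dG1, Matrix.cons_val_zero, Matrix.cons_val_one, Matrix.cons_val]
  norm_num

/-- gradient of `u` at the point -/
theorem disc_ne (l : ST 0) (g : Fin 8 → O (ST 0)) (hg : ∀ i, pderiv l (uu X i) = g i)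
    (hgg : ∀ i, pderiv l (g i) = 0)
    (hv : Ph1 (uu pt) (fun i => eval pt (g i)) ^ 2 -
      2 * Ph (uu pt) * Ph2 (uu pt) (fun i => eval pt (g i)) (fun i => eval pt (g i)) 0 ≠ 0) :
    (pderiv l Delta0) ^ 2 - 2 * Delta0 * pderiv l (pderiv l Delta0) ≠ 0 := by
  have hX : (fun i => eval pt (uu (X : ST 0 → O (ST 0)) i)) = uu pt := by
    funext i
    rw [map_uu (eval pt)]
    congr 1
    funext c
    simp
  have h0 : eval pt Delta0 = Ph (uu pt) := by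
    unfold Delta0
    rw [DeltaF_eq, map_Ph (eval pt), hX]
  have e1 : pderiv l Delta0 = Ph1 (uu X) g := by
    unfold Delta0
    rw [DeltaF_eq, P_Ph (pderiv l)]
    congr 1
    funext i
    exact hg i
  have e2 : pderiv l (pderiv l Delta0) = Ph2 (uu X) g g 0 := by
    rw [e1, PQ_Ph (pderiv l)]
    congr 1
    · funext i
      exact hg i
    · funext i
      exact hgg i
  have h1 : eval pt (pderiv l Delta0) = Ph1 (uu pt) (fun i => eval pt (g i)) := by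
    rw [e1, map_Ph1 (eval pt), hX]
  have h2 : eval pt (pderiv l (pderiv l Delta0)) =
      Ph2 (uu pt) (fun i => eval pt (g i)) (fun i => eval pt (g i)) 0 := by
    rw [e2, map_Ph2 (eval pt), hX]
    congr 1
  intro h
  apply hv
  rw [← h0, ← h1, ← h2]
  have := congrArg (eval pt) h
  simpa only [map_sub, map_mul, map_pow, map_ofNat, map_zero] using this

end KRF

theorem Delta0_ne_zero : Delta0 ≠ 0 := by
  intro h
  have h1 := KRF.eval_Delta0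
  rw [h, map_zero] at h1
  norm_num at h1

namespace KRF

theorem disc_a00 : (pderiv (Sum.inl (0, 0, 0)) Delta0) ^ 2 -
    2 * Delta0 * pderiv (Sum.inl (0, 0, 0)) (pderiv (Sum.inl (0, 0, 0)) Delta0) ≠ 0 := by
  apply disc_ne _ ![X (Sum.inl (2, 0, 0)), 0, X (Sum.inl (2, 1, 0)), 0, 0, 0, 0, 0]
  · intro i; fin_cases i <;> simp [uu, pderiv_X]
  · intro i; fin_cases i <;> simp [pderiv_X]
  · rw [uu_pt]
    simp only [Ph, Ph1, Ph2, TT1, TT2, dF1, dF2, dG1, dG2, Matrix.cons_val_zero,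
      Matrix.cons_val_one, Matrix.cons_val, eval_X, map_zero, Pi.zero_apply, pt, Sum.elim_inl]
    norm_num

theorem disc_a10 : (pderiv (Sum.inl (0, 1, 0)) Delta0) ^ 2 -
    2 * Delta0 * pderiv (Sum.inl (0, 1, 0)) (pderiv (Sum.inl (0, 1, 0)) Delta0) ≠ 0 := by
  apply disc_ne _ ![X (Sum.inl (2, 0, 1)), 0, X (Sum.inl (2, 1, 1)), 0, 0, 0, 0, 0]
  · intro i; fin_cases i <;> simp [uu, pderiv_X]
  · intro i; fin_cases i <;> simp [pderiv_X]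
  · rw [uu_pt]
    simp only [Ph, Ph1, Ph2, TT1, TT2, dF1, dF2, dG1, dG2, Matrix.cons_val_zero,
      Matrix.cons_val_one, Matrix.cons_val, eval_X, map_zero, Pi.zero_apply, pt, Sum.elim_inl]
    norm_num

theorem disc_b10 : (pderiv (Sum.inl (1, 1, 0)) Delta0) ^ 2 -
    2 * Delta0 * pderiv (Sum.inl (1, 1, 0)) (pderiv (Sum.inl (1, 1, 0)) Delta0) ≠ 0 := by
  apply disc_ne _ ![0, 0, 0, 0, X (Sum.inl (3, 0, 1)), 0, X (Sum.inl (3, 1, 1)), 0]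
  · intro i; fin_cases i <;> simp [uu, pderiv_X]
  · intro i; fin_cases i <;> simp [pderiv_X]
  · rw [uu_pt]
    simp only [Ph, Ph1, Ph2, TT1, TT2, dF1, dF2, dG1, dG2, Matrix.cons_val_zero,
      Matrix.cons_val_one, Matrix.cons_val, eval_X, map_zero, Pi.zero_apply, pt, Sum.elim_inl]
    norm_num

theorem disc_e00 : (pderiv (Sum.inl (2, 0, 0)) Delta0) ^ 2 -
    2 * Delta0 * pderiv (Sum.inl (2, 0, 0)) (pderiv (Sum.inl (2, 0, 0)) Delta0) ≠ 0 := by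
  apply disc_ne _ ![X (Sum.inl (0, 0, 0)), X (Sum.inl (0, 0, 1)), 0, 0, 0, 0, 0, 0]
  · intro i; fin_cases i <;> simp [uu, pderiv_X]
  · intro i; fin_cases i <;> simp [pderiv_X]
  · rw [uu_pt]
    simp only [Ph, Ph1, Ph2, TT1, TT2, dF1, dF2, dG1, dG2, Matrix.cons_val_zero,
      Matrix.cons_val_one, Matrix.cons_val, eval_X, map_zero, Pi.zero_apply, pt, Sum.elim_inl]
    norm_num

theorem disc_d00 : (pderiv (Sum.inl (3, 0, 0)) Delta0) ^ 2 -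
    2 * Delta0 * pderiv (Sum.inl (3, 0, 0)) (pderiv (Sum.inl (3, 0, 0)) Delta0) ≠ 0 := by
  apply disc_ne _ ![0, 0, 0, 0, X (Sum.inl (1, 0, 0)), X (Sum.inl (1, 0, 1)), 0, 0]
  · intro i; fin_cases i <;> simp [uu, pderiv_X]
  · intro i; fin_cases i <;> simp [pderiv_X]
  · rw [uu_pt]
    simp only [Ph, Ph1, Ph2, TT1, TT2, dF1, dF2, dG1, dG2, Matrix.cons_val_zero,
      Matrix.cons_val_one, Matrix.cons_val, eval_X, map_zero, Pi.zero_apply, pt, Sum.elim_inl]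
    norm_num

theorem deg_uu (l : ST 0) (a b c d : ST 0) (k : ℕ)
    (h1 : (if l = a then 1 else 0) + (if l = b then 1 else 0) ≤ k)
    (h2 : (if l = c then 1 else 0) + (if l = d then 1 else 0) ≤ k) :
    degreeOf l (X a * X b + X c * X d : O (ST 0)) ≤ k := by
  refine (degreeOf_add_le _ _ _).trans (max_le ((degreeOf_mul_le _ _ _).trans ?_)
    ((degreeOf_mul_le _ _ _).trans ?_))
  · rwa [degreeOf_X, degreeOf_X]
  · rwa [degreeOf_X, degreeOf_X]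

theorem deg_sub (l : ST 0) (p q : O (ST 0)) (k : ℕ) (hp : degreeOf l p ≤ k)
    (hq : degreeOf l q ≤ k) : degreeOf l (p - q) ≤ k :=
  (degreeOf_sub_le _ _ _).trans (max_le hp hq)

theorem deg_add (l : ST 0) (p q : O (ST 0)) (k : ℕ) (hp : degreeOf l p ≤ k)
    (hq : degreeOf l q ≤ k) : degreeOf l (p + q) ≤ k :=
  (degreeOf_add_le _ _ _).trans (max_le hp hq)

theorem deg_mul (l : ST 0) (p q : O (ST 0)) (a b k : ℕ) (hp : degreeOf l p ≤ a)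
    (hq : degreeOf l q ≤ b) (h : a + b ≤ k) : degreeOf l (p * q) ≤ k :=
  (degreeOf_mul_le _ _ _).trans ((add_le_add hp hq).trans h)

theorem deg_Ph (l : ST 0) (u : Fin 8 → O (ST 0)) (a b : ℕ) (hab : a + b ≤ 1)
    (h0 : degreeOf l (u 0) ≤ a) (h1 : degreeOf l (u 1) ≤ a) (h2 : degreeOf l (u 2) ≤ a)
    (h3 : degreeOf l (u 3) ≤ a) (h4 : degreeOf l (u 4) ≤ b) (h5 : degreeOf l (u 5) ≤ b)
    (h6 : degreeOf l (u 6) ≤ b) (h7 : degreeOf l (u 7) ≤ b) : degreeOf l (Ph u) ≤ 2 := by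
  have hT : degreeOf l (TT1 u) ≤ 1 := by
    unfold TT1
    refine deg_add _ _ _ _ (deg_sub _ _ _ _ (deg_sub _ _ _ _ ?_ ?_) ?_) ?_
    · exact deg_mul _ _ _ _ _ _ h3 h4 hab
    · exact deg_mul _ _ _ _ _ _ h1 h6 hab
    · exact deg_mul _ _ _ _ _ _ h2 h5 hab
    · exact deg_mul _ _ _ _ _ _ h0 h7 hab
  have hF : degreeOf l (dF1 u) ≤ 2 * a := by
    unfold dF1
    refine deg_sub _ _ _ _ ?_ ?_
    · exact deg_mul _ _ _ _ _ _ h0 h3 (by omega)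
    · exact deg_mul _ _ _ _ _ _ h1 h2 (by omega)
  have hG : degreeOf l (dG1 u) ≤ 2 * b := by
    unfold dG1
    refine deg_sub _ _ _ _ ?_ ?_
    · exact deg_mul _ _ _ _ _ _ h4 h7 (by omega)
    · exact deg_mul _ _ _ _ _ _ h5 h6 (by omega)
  have h4' : degreeOf l (4 : O (ST 0)) ≤ 0 := by
    have : (4 : O (ST 0)) = C 4 := (map_ofNat C 4).symm
    rw [this, degreeOf_C]
  unfold Ph
  refine deg_sub _ _ _ _ ?_ ?_
  · rw [sq]
    exact deg_mul _ _ _ _ _ _ hT hT (by omega)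
  · exact deg_mul _ _ _ _ _ _ (deg_mul _ _ _ 0 (2 * a) (2 * a) h4' hF (by omega)) hG (by omega)

theorem deg_Delta0 (l : ST 0) (a b : ℕ) (hab : a + b ≤ 1)
    (h0 : degreeOf l (uu (X : ST 0 → O (ST 0)) 0) ≤ a)
    (h1 : degreeOf l (uu (X : ST 0 → O (ST 0)) 1) ≤ a)
    (h2 : degreeOf l (uu (X : ST 0 → O (ST 0)) 2) ≤ a)
    (h3 : degreeOf l (uu (X : ST 0 → O (ST 0)) 3) ≤ a)
    (h4 : degreeOf l (uu (X : ST 0 → O (ST 0)) 4) ≤ b)
    (h5 : degreeOf l (uu (X : ST 0 → O (ST 0)) 5) ≤ b)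
    (h6 : degreeOf l (uu (X : ST 0 → O (ST 0)) 6) ≤ b)
    (h7 : degreeOf l (uu (X : ST 0 → O (ST 0)) 7) ≤ b) : degreeOf l Delta0 ≤ 2 := by
  unfold Delta0
  rw [DeltaF_eq]
  exact deg_Ph l _ a b hab h0 h1 h2 h3 h4 h5 h6 h7

theorem deg_a00 : degreeOf (Sum.inl (0, 0, 0)) Delta0 ≤ 2 := by
  apply deg_Delta0 _ 1 0 le_rfl <;> exact deg_uu _ _ _ _ _ _ (by decide) (by decide)

theorem deg_a10 : degreeOf (Sum.inl (0, 1, 0)) Delta0 ≤ 2 := by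
  apply deg_Delta0 _ 1 0 le_rfl <;> exact deg_uu _ _ _ _ _ _ (by decide) (by decide)

theorem deg_b10 : degreeOf (Sum.inl (1, 1, 0)) Delta0 ≤ 2 := by
  apply deg_Delta0 _ 0 1 le_rfl <;> exact deg_uu _ _ _ _ _ _ (by decide) (by decide)

theorem deg_e00 : degreeOf (Sum.inl (2, 0, 0)) Delta0 ≤ 2 := by
  apply deg_Delta0 _ 1 0 le_rfl <;> exact deg_uu _ _ _ _ _ _ (by decide) (by decide)

theorem deg_d00 : degreeOf (Sum.inl (3, 0, 0)) Delta0 ≤ 2 := by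
  apply deg_Delta0 _ 0 1 le_rfl <;> exact deg_uu _ _ _ _ _ _ (by decide) (by decide)

end KRF

theorem krelF' (h : Delta0 ≠ 0) {Y : Type} [Fintype Y] [DecidableEq Y] :
    KRel (fModel Y Delta0 h) (1 : K (Y ⊕ ST 0)) where
  notMem := by
    rw [fModel_mem_N]
    exact one_ne_zero
  inj := by
    intro l hl x hx
    rw [fModel_mem_N] at hx ⊢
    rw [fModel_ρ_X, neg_eq_zero] at hx
    rcases hl with rfl | rfl | rfl | rfl | rfl
    · exact fModel_inj Delta0 _ KRF.deg_a00 KRF.disc_a00 x hx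
    · exact fModel_inj Delta0 _ KRF.deg_a10 KRF.disc_a10 x hx
    · exact fModel_inj Delta0 _ KRF.deg_b10 KRF.disc_b10 x hx
    · exact fModel_inj Delta0 _ KRF.deg_e00 KRF.disc_e00 x hx
    · exact fModel_inj Delta0 _ KRF.deg_d00 KRF.disc_d00 x hx
  dy j := by
    rw [fModel_mem_N, fModel_δy, pd_one]
  q j := by
    rw [fModel_mem_N]
    exact KRF.q_all h j
  t1 := by
    rw [fModel_mem_N,
      KRF.e_ne h (Sum.inl (0, 0, 0)) (Sum.inl (0, 0, 1)) (by decide),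
      KRF.e_ne h (Sum.inl (0, 1, 0)) (Sum.inl (0, 1, 1)) (by decide),
      KRF.e_ne h (Sum.inl (1, 0, 0)) (Sum.inl (1, 0, 1)) (by decide),
      KRF.e_ne h (Sum.inl (1, 1, 0)) (Sum.inl (1, 1, 1)) (by decide)]
    linear_combination (1 / 2 * (KRF.DD0 Y)⁻¹) * KRF.tt1 (Y := Y)
  t2 := by
    rw [fModel_mem_N,
      KRF.e_ne h (Sum.inl (0, 1, 0)) (Sum.inl (0, 0, 0)) (by decide),
      KRF.e_ne h (Sum.inl (0, 1, 1)) (Sum.inl (0, 0, 1)) (by decide),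
      KRF.e_ne h (Sum.inl (2, 0, 0)) (Sum.inl (2, 0, 1)) (by decide),
      KRF.e_ne h (Sum.inl (2, 1, 0)) (Sum.inl (2, 1, 1)) (by decide)]
    linear_combination (1 / 2 * (KRF.DD0 Y)⁻¹) * KRF.tt2 (Y := Y)
  t3 := by
    rw [fModel_mem_N,
      KRF.e_self h (Sum.inl (0, 1, 0)),
      KRF.e_self h (Sum.inl (0, 1, 1)),
      KRF.e_self h (Sum.inl (2, 0, 1)),
      KRF.e_self h (Sum.inl (2, 1, 1))]
    linear_combination (1 / 2 * (KRF.DD0 Y)⁻¹) * KRF.tt3 (Y := Y)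
  t4 := by
    rw [fModel_mem_N,
      KRF.e_ne h (Sum.inl (1, 1, 0)) (Sum.inl (1, 0, 0)) (by decide),
      KRF.e_ne h (Sum.inl (1, 1, 1)) (Sum.inl (1, 0, 1)) (by decide),
      KRF.e_ne h (Sum.inl (3, 0, 0)) (Sum.inl (3, 0, 1)) (by decide),
      KRF.e_ne h (Sum.inl (3, 1, 0)) (Sum.inl (3, 1, 1)) (by decide)]
    linear_combination (1 / 2 * (KRF.DD0 Y)⁻¹) * KRF.tt4 (Y := Y)
  t5 := by
    rw [fModel_mem_N,
      KRF.e_self h (Sum.inl (1, 1, 0)),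
      KRF.e_self h (Sum.inl (1, 1, 1)),
      KRF.e_self h (Sum.inl (3, 0, 1)),
      KRF.e_self h (Sum.inl (3, 1, 1))]
    linear_combination (1 / 2 * (KRF.DD0 Y)⁻¹) * KRF.tt5 (Y := Y)
  t6 := by
    rw [fModel_mem_N,
      KRF.e_ne h (Sum.inl (2, 0, 0)) (Sum.inl (2, 1, 0)) (by decide),
      KRF.e_ne h (Sum.inl (2, 0, 1)) (Sum.inl (2, 1, 1)) (by decide),
      KRF.e_ne h (Sum.inl (3, 0, 0)) (Sum.inl (3, 1, 0)) (by decide),
      KRF.e_ne h (Sum.inl (3, 0, 1)) (Sum.inl (3, 1, 1)) (by decide)]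
    linear_combination (1 / 2 * (KRF.DD0 Y)⁻¹) * KRF.tt6 (Y := Y)
  t7 := by
    rw [fModel_mem_N,
      KRF.e_self h (Sum.inl (3, 0, 0)),
      KRF.e_self h (Sum.inl (3, 0, 1)),
      KRF.e_self h (Sum.inl (3, 1, 0)),
      KRF.e_self h (Sum.inl (3, 1, 1))]
    have hinv : KRF.Ph (KRF.uu (KRF.xx (Y := Y))) * (KRF.DD0 Y)⁻¹ = 1 := by
      rw [← KRF.DD0_eq]
      exact mul_inv_cancel₀ (KRF.DD0_ne_zero h)
    have h3 : (3 : ℤ) • (1 : K (Y ⊕ ST 0)) = 3 := by simp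
    rw [h3]
    linear_combination (1 / 2 * (KRF.DD0 Y)⁻¹) * KRF.tt7 (Y := Y) + hinv
  t8 := by
    rw [fModel_mem_N,
      KRF.e_self h (Sum.inl (2, 0, 0)),
      KRF.e_self h (Sum.inl (2, 0, 1)),
      KRF.e_self h (Sum.inl (3, 0, 0)),
      KRF.e_self h (Sum.inl (3, 0, 1))]
    have hinv : KRF.Ph (KRF.uu (KRF.xx (Y := Y))) * (KRF.DD0 Y)⁻¹ = 1 := by
      rw [← KRF.DD0_eq]
      exact mul_inv_cancel₀ (KRF.DD0_ne_zero h)
    have h3 : (3 : ℤ) • (1 : K (Y ⊕ ST 0)) = 3 := by simp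
    rw [h3]
    linear_combination (1 / 2 * (KRF.DD0 Y)⁻¹) * KRF.tt8 (Y := Y) + hinv

theorem krelF {Y : Type} [Fintype Y] [DecidableEq Y] :
    KRel (fModel Y Delta0 Delta0_ne_zero) (1 : K (Y ⊕ ST 0)) :=
  krelF' Delta0_ne_zero

end

end Adams
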