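import Pool.Agent.MP_fe6ac3_nt.KModel

/-!
# [ADAMS-KRK] The relations of the generator of the local cohomology

`κ₂ = α₀₀² α₁₀ β₁₀ / (q_0 ⋯ q_7)` in `K / locN`.  Blueprint.  `q_j = quadAll` of the coordinates
`s_l`, so all computations take place in `jA (ℂ[s])`; the letters are units of the local ring
(`hU`).  With `e = 1 / ∏ q`, `q_j e ∈ locN`.
* `dy`: `dYK j` kills all `ι (c.s l)`, hence `κ₂` (exactly `0`).
* `t_i`: for the linear vector field `θ` of `t_i` one has `θ q = C q` with `C` over the local ring,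
  and `θ e ≡ -tr(C) e`.  With `f = α₀₀² α₁₀ β₁₀`:
  `t1`: all `θ q_j = 0`, `θ f = 0`.
  `t2`: `θ q_0 = 0`, `θ q_1 = (α₁₀ q_1 - β₀₀ q_0)/α₀₀`, `θ q_2 = (α₁₀ q_2 - β₁₀ q_0)/α₀₀`, others `0`;
        `θ f = 2 (α₁₀/α₀₀) f`; total `0`.
  `t3`: `θ q_0 = q_0`, others `0`, `θ f = f`; total `0`.
  `t4`: `θ q_1 = q_2`, others `0`, `θ f = 0`.
  `t5`: `θ q_2 = q_2`, others `0`, `θ f = f`; total `0`.
  `t6`: `θ q_4 = q_3`, `θ q_7 = q_5`, others `0`, `θ f = 0`.
  `t7`: `θ q_j = q_j` for `j = 5, 6, 7`, others `0`, `θ f = 0`; total `-3`.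
  `t8`: `θ q_j = q_j` for `j = 3, 5, 6`, others `0`, `θ f = 0`; total `-3`.
* `notMem`: `gen_notMem` and units.  `inj`: letters are units of the local ring, `locN_mul`.
-/

open MvPolynomial

namespace Adams

noncomputable section

/-- the generator -/
def kap2 : K (YT 0 ⊕ ST 0) :=
  ι (sO 0 (Sum.inl (0, 0, 0)) ^ 2 * sO 0 (Sum.inl (0, 1, 0)) * sO 0 (Sum.inl (1, 1, 0))) *
    (ι (∏ j, qsys 0 j))⁻¹

/-! ## Derivations of the function field -/

section Key

variable {σ : Type} {I : Ideal (O σ)} {r : ℕ} {h : Fin r → O σ}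

/-- logarithmic derivative of a finite product -/
theorem der_prod_inv (θ : Derivation ℂ (K σ) (K σ)) {α : Type*} [DecidableEq α] (s : Finset α)
    (q : α → K σ) (hq : ∀ j ∈ s, q j ≠ 0) :
    θ ((∏ j ∈ s, q j)⁻¹) = - (∑ j ∈ s, θ (q j) / q j) * (∏ j ∈ s, q j)⁻¹ := by
  induction s using Finset.induction_on with
  | empty => simp
  | insert a s ha ih =>
    have hqa : q a ≠ 0 := hq a (Finset.mem_insert_self a s)
    have ih' := ih (fun j hj => hq j (Finset.mem_insert_of_mem hj))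
    rw [Finset.prod_insert ha, Finset.sum_insert ha, mul_inv, Derivation.leibniz, ih',
      Derivation.leibniz_inv θ (q a)]
    simp only [smul_eq_mul]
    have hqa' : (q a)⁻¹ ^ 2 = (q a)⁻¹ / q a := by field_simp
    rw [hqa']
    ring

/-- `q_i / (q_j ∏ q)` lies in `locN` for `i ≠ j` -/
theorem ratio_mem_locN [I.IsPrime] (hp : IsParam I h) {i j : Fin r} (hij : j ≠ i) :
    (ι (h i) / ι (h j)) * (ι (∏ l, h l))⁻¹ ∈ locN I h := by
  classical
  apply Submodule.subset_span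
  refine ⟨i, 1, ?_, 2, ∏ l ∈ (Finset.univ.erase i).erase j, h l, ?_⟩
  · intro h1
    exact (Ideal.IsPrime.ne_top ‹I.IsPrime›) ((Ideal.eq_top_iff_one I).2 h1)
  · have e1 : (∏ l, h l) = h i * ∏ l ∈ Finset.univ.erase i, h l := by
      rw [Finset.mul_prod_erase _ _ (Finset.mem_univ i)]
    have e2 : (∏ l ∈ Finset.univ.erase i, h l)
        = h j * ∏ l ∈ (Finset.univ.erase i).erase j, h l := by
      rw [Finset.mul_prod_erase _ _ (Finset.mem_erase.2 ⟨hij, Finset.mem_univ j⟩)]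
    have hi : (ι (h i) : K σ) ≠ 0 := ι_ne_zero (hp.ne_zero i)
    have hj : (ι (h j) : K σ) ≠ 0 := ι_ne_zero (hp.ne_zero j)
    have hP : (ι (∏ l ∈ (Finset.univ.erase i).erase j, h l) : K σ) ≠ 0 := by
      apply ι_ne_zero
      exact Finset.prod_ne_zero_iff.2 fun l _ => hp.ne_zero l
    rw [one_mul, e1, e2]
    simp only [map_mul, map_pow]
    field_simp

/-- a linear vector field on the generator -/
theorem der_gen [I.IsPrime] (hp : IsParam I h) (θ : Derivation ℂ (K σ) (K σ)) (F : K σ)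
    (hF : F ∈ locRing I) (C : Fin r → Fin r → K σ) (hC : ∀ j i, C j i ∈ locRing I)
    (h1 : ∀ j, θ (ι (h j)) = ∑ i, C j i * ι (h i)) :
    θ (F * (ι (∏ j, h j))⁻¹) - (θ F - F * ∑ j, C j j) * (ι (∏ j, h j))⁻¹ ∈ locN I h := by
  classical
  have hne : ∀ j, (ι (h j) : K σ) ≠ 0 := fun j => ι_ne_zero (hp.ne_zero j)
  have e : (ι (∏ j, h j) : K σ) = ∏ j, ι (h j) := map_prod _ _ _
  have h2 : θ (F * (ι (∏ j, h j))⁻¹) - (θ F - F * ∑ j, C j j) * (ι (∏ j, h j))⁻¹
      = ∑ j, ∑ i ∈ Finset.univ.erase j,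
        (-(F * C j i)) * ((ι (h i) / ι (h j)) * (ι (∏ l, h l))⁻¹) := by
    rw [Derivation.leibniz, e, der_prod_inv θ Finset.univ _ (fun j _ => hne j)]
    have h3 : ∀ j, θ (ι (h j)) / ι (h j) = C j j
        + ∑ i ∈ Finset.univ.erase j, C j i * (ι (h i) / ι (h j)) := by
      intro j
      rw [h1, ← Finset.add_sum_erase _ _ (Finset.mem_univ j), add_div, Finset.sum_div,
        mul_div_assoc, div_self (hne j), mul_one]
      congr 1
      exact Finset.sum_congr rfl fun i _ => by rw [mul_div_assoc]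
    rw [Finset.sum_congr rfl fun j _ => h3 j, Finset.sum_add_distrib]
    simp only [smul_eq_mul]
    have h4 : ∀ j : Fin r, ∑ i ∈ Finset.univ.erase j,
        (-(F * C j i)) * ((ι (h i) / ι (h j)) * (∏ l, (ι (h l) : K σ))⁻¹)
        = - F * (∑ i ∈ Finset.univ.erase j, C j i * (ι (h i) / ι (h j)))
          * (∏ l, (ι (h l) : K σ))⁻¹ := by
      intro j
      rw [Finset.mul_sum, Finset.sum_mul]
      exact Finset.sum_congr rfl fun i _ => by ring
    rw [Finset.sum_congr rfl fun j _ => h4 j, ← Finset.sum_mul, ← Finset.mul_sum]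
    ring
  rw [h2]
  refine Submodule.sum_mem _ fun j _ => Submodule.sum_mem _ fun i hi => ?_
  refine locN_mul ?_ (ratio_mem_locN hp (Finset.ne_of_mem_erase hi).symm)
  have h5 : -(F * C j i) = ι (-1) * (F * C j i) := by
    simp
  rw [h5]
  exact locRing_mul (ι_mem_locRing _) (locRing_mul hF (hC j i))

end Key

section Std

/-- `quad` commutes with ring homomorphisms -/
theorem map_quad {R R' : Type*} [CommRing R] [CommRing R'] (φ : R →+* R') (s : ST 0 → R)
    (j : Fin 8) : quad (fun l => φ (s l)) j = φ (quad s j) := by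
  fin_cases j <;> simp [quad, zB]

theorem quadAll_left {R : Type*} [CommRing R] {k : ℕ} (s : ST k → R) (j : Fin 8) :
    quadAll s (Fin.castAdd k j) = quad s j := by
  simp [quadAll]

theorem derSum_apply {σ : Type} {α : Type*} (s : Finset α)
    (D : α → Derivation ℂ (K σ) (K σ)) (f : K σ) : (∑ a ∈ s, D a) f = ∑ a ∈ s, D a f := by
  classical
  induction s using Finset.induction_on with
  | empty => simp
  | insert a s ha ih => rw [Finset.sum_insert ha, Finset.sum_insert ha, Derivation.add_apply, ih]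

/-- `∂/∂s_l` as a derivation -/
def dSD {Y S : Type} [Fintype Y] [DecidableEq Y] [Fintype S] [DecidableEq S]
    (c : Chart Y S) (l : S) : Derivation ℂ (K (Y ⊕ S)) (K (Y ⊕ S)) :=
  ∑ m : S, (jL (c.Tinv m l) : K (Y ⊕ S)) • pdD (Sum.inr m : Y ⊕ S)

theorem dSD_apply {Y S : Type} [Fintype Y] [DecidableEq Y] [Fintype S] [DecidableEq S]
    (c : Chart Y S) (l : S) (f : K (Y ⊕ S)) : dSD c l f = c.dS l f := by
  simp only [dSD, Chart.dS, derSum_apply, Derivation.coe_smul,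
    Pi.smul_apply, smul_eq_mul, pdD_apply]

/-- `∂/∂y_j` as a derivation -/
def dYD {Y S : Type} [Fintype Y] [DecidableEq Y] [Fintype S] [DecidableEq S]
    (c : Chart Y S) (j : Y) : Derivation ℂ (K (Y ⊕ S)) (K (Y ⊕ S)) :=
  pdD (Sum.inl j) - ∑ l, (ι (pderiv (Sum.inl j) (c.s l)) : K (Y ⊕ S)) • dSD c l

theorem dYD_apply {Y S : Type} [Fintype Y] [DecidableEq Y] [Fintype S] [DecidableEq S]
    (c : Chart Y S) (j : Y) (f : K (Y ⊕ S)) : dYD c j f = c.dYK j f := by
  simp only [dYD, Chart.dYK, Derivation.coe_sub, Pi.sub_apply, derSum_apply,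
    Derivation.coe_smul, Pi.smul_apply, smul_eq_mul, pdD_apply, dSD_apply]

theorem jA_X {Y S : Type} [Fintype Y] [DecidableEq Y] [Fintype S] [DecidableEq S]
    (c : Chart Y S) (l : S) : c.jA (X l) = ι (c.s l) := by
  simp [Chart.jA]

theorem dSD_s {Y S : Type} [Fintype Y] [DecidableEq Y] [Fintype S] [DecidableEq S]
    (c : Chart Y S) (l l' : S) : dSD c l (ι (c.s l')) = if l = l' then 1 else 0 := by
  rw [dSD_apply, ← jA_X, c.dS_jA, pderiv_X]
  by_cases h : l = l'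
  · subst h
    simp
  · rw [Pi.single_eq_of_ne (Ne.symm h)]
    simp [h]

theorem dYD_s {Y S : Type} [Fintype Y] [DecidableEq Y] [Fintype S] [DecidableEq S]
    (c : Chart Y S) (j : Y) (l : S) : dYD c j (ι (c.s l)) = 0 := by
  rw [dYD_apply, ← jA_X, c.dYK_jA, dY_X, map_zero]

end Std

section Calc

variable {F : Type*} [Field F]

/-- the derivative of the quadrics at `s` in the direction `v` -/
def dq (s v : ST 0 → F) : Fin 8 → F :=
  let a : Matrix (Fin 2) (Fin 2) F := zB s 0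
  let b : Matrix (Fin 2) (Fin 2) F := zB s 1
  let e : Matrix (Fin 2) (Fin 2) F := zB s 2
  let d : Matrix (Fin 2) (Fin 2) F := zB s 3
  let a' : Matrix (Fin 2) (Fin 2) F := zB v 0
  let b' : Matrix (Fin 2) (Fin 2) F := zB v 1
  let e' : Matrix (Fin 2) (Fin 2) F := zB v 2
  let d' : Matrix (Fin 2) (Fin 2) F := zB v 3
  ![a' 0 0 * a 1 1 - a' 0 1 * a 1 0 + (a 0 0 * a' 1 1 - a 0 1 * a' 1 0),
    a' 0 0 * b 0 1 - a' 0 1 * b 0 0 + (a 0 0 * b' 0 1 - a 0 1 * b' 0 0),
    a' 0 0 * b 1 1 - a' 0 1 * b 1 0 + (a 0 0 * b' 1 1 - a 0 1 * b' 1 0),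
    e' 0 1 * a 1 0 + e' 0 0 * a 0 0 + (e 0 1 * a' 1 0 + e 0 0 * a' 0 0),
    e' 1 1 * a 1 0 + e' 1 0 * a 0 0 + (e 1 1 * a' 1 0 + e 1 0 * a' 0 0),
    d' 0 1 * b 1 0 + d' 0 0 * b 0 0 + (d 0 1 * b' 1 0 + d 0 0 * b' 0 0),
    e' 0 0 * d 1 0 - e' 1 0 * d 0 0 + (e 0 0 * d' 1 0 - e 1 0 * d' 0 0),
    d' 1 0 * b 0 0 + d' 1 1 * b 1 0 + (d 1 0 * b' 0 0 + d 1 1 * b' 1 0)]

theorem der_quad [Algebra ℂ F] (D : Derivation ℂ F F) (s : ST 0 → F)
    (j : Fin 8) : D (quad s j) = dq s (fun l => D (s l)) j := by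
  fin_cases j <;> simp [quad, dq, zB, Derivation.leibniz] <;> ring1

/-- the numerator -/
def nF (s : ST 0 → F) : F :=
  s (Sum.inl (0, 0, 0)) ^ 2 * s (Sum.inl (0, 1, 0)) * s (Sum.inl (1, 1, 0))

/-- the derivative of the numerator in the direction `v` -/
def dnF (s v : ST 0 → F) : F :=
  2 * s (Sum.inl (0, 0, 0)) * v (Sum.inl (0, 0, 0)) * s (Sum.inl (0, 1, 0)) * s (Sum.inl (1, 1, 0))
  + s (Sum.inl (0, 0, 0)) ^ 2 * v (Sum.inl (0, 1, 0)) * s (Sum.inl (1, 1, 0))
  + s (Sum.inl (0, 0, 0)) ^ 2 * s (Sum.inl (0, 1, 0)) * v (Sum.inl (1, 1, 0))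

theorem der_nF [Algebra ℂ F] (D : Derivation ℂ F F) (s : ST 0 → F) :
    D (nF s) = dnF s (fun l => D (s l)) := by
  simp only [nF, dnF, Derivation.leibniz, Derivation.leibniz_pow, smul_eq_mul, nsmul_eq_mul]
  push_cast
  ring

/-- the direction `s_a ∂_b` -/
def vf (s : ST 0 → F) (a b : ST 0) : ST 0 → F :=
  fun l => s a * (if b = l then 1 else 0)

/-- the direction of `t1` -/
def vt1 (s : ST 0 → F) : ST 0 → F :=
  vf s (Sum.inl (0, 0, 0)) (Sum.inl (0, 0, 1))
      + vf s (Sum.inl (0, 1, 0)) (Sum.inl (0, 1, 1))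
      + vf s (Sum.inl (1, 0, 0)) (Sum.inl (1, 0, 1))
      + vf s (Sum.inl (1, 1, 0)) (Sum.inl (1, 1, 1))

/-- the matrix of `t1` on the quadrics -/
def Ct1 : Fin 8 → Fin 8 → F :=
  0

theorem calc_t1 (s : ST 0 → F) (j : Fin 8) :
    dq s (vt1 s) j = ∑ i, (Ct1 : Fin 8 → Fin 8 → F) j i * quad s i := by
  fin_cases j <;> simp [dq, quad, zB, vt1, vf, Ct1, Fin.sum_univ_succ] <;>
    first | done | ring1 | (field_simp; ring1) | (field_simp; done)

theorem calcN_t1 (s : ST 0 → F) :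
    dnF s (vt1 s) - nF s * ∑ j, (Ct1 : Fin 8 → Fin 8 → F) j j + (0 : ℤ) * nF s = 0 := by
  simp [dnF, nF, vt1, vf, Ct1, Fin.sum_univ_succ] <;>
    first | done | ring1 | (field_simp; ring1) | (field_simp; done)

/-- the direction of `t2` -/
def vt2 (s : ST 0 → F) : ST 0 → F :=
  vf s (Sum.inl (0, 1, 0)) (Sum.inl (0, 0, 0))
      + vf s (Sum.inl (0, 1, 1)) (Sum.inl (0, 0, 1))
      - vf s (Sum.inl (2, 0, 0)) (Sum.inl (2, 0, 1))
      - vf s (Sum.inl (2, 1, 0)) (Sum.inl (2, 1, 1))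

/-- the matrix of `t2` on the quadrics -/
def Ct2 (s : ST 0 → F) : Fin 8 → Fin 8 → F :=
  fun j i => if j = 1 ∧ i = 1 then s (Sum.inl (0, 1, 0)) * (s (Sum.inl (0, 0, 0)))⁻¹ else if j = 1 ∧ i = 0 then -(s (Sum.inl (1, 0, 0)) * (s (Sum.inl (0, 0, 0)))⁻¹) else if j = 2 ∧ i = 2 then s (Sum.inl (0, 1, 0)) * (s (Sum.inl (0, 0, 0)))⁻¹ else if j = 2 ∧ i = 0 then -(s (Sum.inl (1, 1, 0)) * (s (Sum.inl (0, 0, 0)))⁻¹) else 0

theorem calc_t2 (s : ST 0 → F) (h0 : s (Sum.inl (0, 0, 0)) ≠ 0) (j : Fin 8) :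
    dq s (vt2 s) j = ∑ i, Ct2 s j i * quad s i := by
  fin_cases j <;> simp [dq, quad, zB, vt2, vf, Ct2, Fin.sum_univ_succ] <;>
    first | done | ring1 | (field_simp; ring1) | (field_simp; done)

theorem calcN_t2 (s : ST 0 → F) (h0 : s (Sum.inl (0, 0, 0)) ≠ 0) :
    dnF s (vt2 s) - nF s * ∑ j, Ct2 s j j + (0 : ℤ) * nF s = 0 := by
  simp [dnF, nF, vt2, vf, Ct2, Fin.sum_univ_succ] <;>
    first | done | ring1 | (field_simp; ring1) | (field_simp; done)

/-- the direction of `t3` -/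
def vt3 (s : ST 0 → F) : ST 0 → F :=
  vf s (Sum.inl (0, 1, 0)) (Sum.inl (0, 1, 0))
      + vf s (Sum.inl (0, 1, 1)) (Sum.inl (0, 1, 1))
      - vf s (Sum.inl (2, 0, 1)) (Sum.inl (2, 0, 1))
      - vf s (Sum.inl (2, 1, 1)) (Sum.inl (2, 1, 1))

/-- the matrix of `t3` on the quadrics -/
def Ct3 : Fin 8 → Fin 8 → F :=
  fun j i => if j = 0 ∧ i = 0 then 1 else 0

theorem calc_t3 (s : ST 0 → F) (j : Fin 8) :
    dq s (vt3 s) j = ∑ i, (Ct3 : Fin 8 → Fin 8 → F) j i * quad s i := by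
  fin_cases j <;> simp [dq, quad, zB, vt3, vf, Ct3, Fin.sum_univ_succ] <;>
    first | done | ring1 | (field_simp; ring1) | (field_simp; done)

theorem calcN_t3 (s : ST 0 → F) :
    dnF s (vt3 s) - nF s * ∑ j, (Ct3 : Fin 8 → Fin 8 → F) j j + (0 : ℤ) * nF s = 0 := by
  simp [dnF, nF, vt3, vf, Ct3, Fin.sum_univ_succ] <;>
    first | done | ring1 | (field_simp; ring1) | (field_simp; done)

/-- the direction of `t4` -/
def vt4 (s : ST 0 → F) : ST 0 → F :=
  vf s (Sum.inl (1, 1, 0)) (Sum.inl (1, 0, 0))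
      + vf s (Sum.inl (1, 1, 1)) (Sum.inl (1, 0, 1))
      - vf s (Sum.inl (3, 0, 0)) (Sum.inl (3, 0, 1))
      - vf s (Sum.inl (3, 1, 0)) (Sum.inl (3, 1, 1))

/-- the matrix of `t4` on the quadrics -/
def Ct4 : Fin 8 → Fin 8 → F :=
  fun j i => if j = 1 ∧ i = 2 then 1 else 0

theorem calc_t4 (s : ST 0 → F) (j : Fin 8) :
    dq s (vt4 s) j = ∑ i, (Ct4 : Fin 8 → Fin 8 → F) j i * quad s i := by
  fin_cases j <;> simp [dq, quad, zB, vt4, vf, Ct4, Fin.sum_univ_succ] <;>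
    first | done | ring1 | (field_simp; ring1) | (field_simp; done)

theorem calcN_t4 (s : ST 0 → F) :
    dnF s (vt4 s) - nF s * ∑ j, (Ct4 : Fin 8 → Fin 8 → F) j j + (0 : ℤ) * nF s = 0 := by
  simp [dnF, nF, vt4, vf, Ct4, Fin.sum_univ_succ, -Finset.sum_boole] <;>
    first | done | ring1 | (field_simp; ring1) | (field_simp; done)

/-- the direction of `t5` -/
def vt5 (s : ST 0 → F) : ST 0 → F :=
  vf s (Sum.inl (1, 1, 0)) (Sum.inl (1, 1, 0))
      + vf s (Sum.inl (1, 1, 1)) (Sum.inl (1, 1, 1))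
      - vf s (Sum.inl (3, 0, 1)) (Sum.inl (3, 0, 1))
      - vf s (Sum.inl (3, 1, 1)) (Sum.inl (3, 1, 1))

/-- the matrix of `t5` on the quadrics -/
def Ct5 : Fin 8 → Fin 8 → F :=
  fun j i => if j = 2 ∧ i = 2 then 1 else 0

theorem calc_t5 (s : ST 0 → F) (j : Fin 8) :
    dq s (vt5 s) j = ∑ i, (Ct5 : Fin 8 → Fin 8 → F) j i * quad s i := by
  fin_cases j <;> simp [dq, quad, zB, vt5, vf, Ct5, Fin.sum_univ_succ] <;>
    first | done | ring1 | (field_simp; ring1) | (field_simp; done)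

theorem calcN_t5 (s : ST 0 → F) :
    dnF s (vt5 s) - nF s * ∑ j, (Ct5 : Fin 8 → Fin 8 → F) j j + (0 : ℤ) * nF s = 0 := by
  simp [dnF, nF, vt5, vf, Ct5, Fin.sum_univ_succ] <;>
    first | done | ring1 | (field_simp; ring1) | (field_simp; done)

/-- the direction of `t6` -/
def vt6 (s : ST 0 → F) : ST 0 → F :=
  vf s (Sum.inl (2, 0, 0)) (Sum.inl (2, 1, 0))
      + vf s (Sum.inl (2, 0, 1)) (Sum.inl (2, 1, 1))
      + vf s (Sum.inl (3, 0, 0)) (Sum.inl (3, 1, 0))
      + vf s (Sum.inl (3, 0, 1)) (Sum.inl (3, 1, 1))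

/-- the matrix of `t6` on the quadrics -/
def Ct6 : Fin 8 → Fin 8 → F :=
  fun j i => if j = 4 ∧ i = 3 then 1 else if j = 7 ∧ i = 5 then 1 else 0

theorem calc_t6 (s : ST 0 → F) (j : Fin 8) :
    dq s (vt6 s) j = ∑ i, (Ct6 : Fin 8 → Fin 8 → F) j i * quad s i := by
  fin_cases j <;> simp [dq, quad, zB, vt6, vf, Ct6, Fin.sum_univ_succ] <;>
    first | done | ring1 | (field_simp; ring1) | (field_simp; done)

theorem calcN_t6 (s : ST 0 → F) :
    dnF s (vt6 s) - nF s * ∑ j, (Ct6 : Fin 8 → Fin 8 → F) j j + (0 : ℤ) * nF s = 0 := by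
  simp [dnF, nF, vt6, vf, Ct6, Fin.sum_univ_succ] <;>
    first | done | ring1 | (field_simp; ring1) | (field_simp; done)

/-- the direction of `t7` -/
def vt7 (s : ST 0 → F) : ST 0 → F :=
  vf s (Sum.inl (3, 0, 0)) (Sum.inl (3, 0, 0))
      + vf s (Sum.inl (3, 0, 1)) (Sum.inl (3, 0, 1))
      + vf s (Sum.inl (3, 1, 0)) (Sum.inl (3, 1, 0))
      + vf s (Sum.inl (3, 1, 1)) (Sum.inl (3, 1, 1))

/-- the matrix of `t7` on the quadrics -/
def Ct7 : Fin 8 → Fin 8 → F :=
  fun j i => if j = 5 ∧ i = 5 then 1 else if j = 6 ∧ i = 6 then 1 else if j = 7 ∧ i = 7 then 1 else 0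

theorem calc_t7 (s : ST 0 → F) (j : Fin 8) :
    dq s (vt7 s) j = ∑ i, (Ct7 : Fin 8 → Fin 8 → F) j i * quad s i := by
  fin_cases j <;> simp [dq, quad, zB, vt7, vf, Ct7, Fin.sum_univ_succ] <;>
    first | done | ring1 | (field_simp; ring1) | (field_simp; done)

theorem calcN_t7 (s : ST 0 → F) :
    dnF s (vt7 s) - nF s * ∑ j, (Ct7 : Fin 8 → Fin 8 → F) j j + (3 : ℤ) * nF s = 0 := by
  simp [dnF, nF, vt7, vf, Ct7, Fin.sum_univ_succ] <;>
    first | done | ring1 | (field_simp; ring1) | (field_simp; done)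

/-- the direction of `t8` -/
def vt8 (s : ST 0 → F) : ST 0 → F :=
  vf s (Sum.inl (2, 0, 0)) (Sum.inl (2, 0, 0))
      + vf s (Sum.inl (2, 0, 1)) (Sum.inl (2, 0, 1))
      + vf s (Sum.inl (3, 0, 0)) (Sum.inl (3, 0, 0))
      + vf s (Sum.inl (3, 0, 1)) (Sum.inl (3, 0, 1))

/-- the matrix of `t8` on the quadrics -/
def Ct8 : Fin 8 → Fin 8 → F :=
  fun j i => if j = 3 ∧ i = 3 then 1 else if j = 5 ∧ i = 5 then 1 else if j = 6 ∧ i = 6 then 1 else 0

theorem calc_t8 (s : ST 0 → F) (j : Fin 8) :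
    dq s (vt8 s) j = ∑ i, (Ct8 : Fin 8 → Fin 8 → F) j i * quad s i := by
  fin_cases j <;> simp [dq, quad, zB, vt8, vf, Ct8, Fin.sum_univ_succ] <;>
    first | done | ring1 | (field_simp; ring1) | (field_simp; done)

theorem calcN_t8 (s : ST 0 → F) :
    dnF s (vt8 s) - nF s * ∑ j, (Ct8 : Fin 8 → Fin 8 → F) j j + (3 : ℤ) * nF s = 0 := by
  simp [dnF, nF, vt8, vf, Ct8, Fin.sum_univ_succ] <;>
    first | done | ring1 | (field_simp; ring1) | (field_simp; done)

end Calc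

section Main

/-- the coordinates in the function field -/
def sK (l : ST 0) : K (YT 0 ⊕ ST 0) := ι (sO 0 l)

theorem kap2_eq : kap2 = nF sK * (ι (∏ j, qsys 0 j))⁻¹ := by
  simp only [kap2, nF, sK, map_mul, map_pow]

theorem ιq (j : Fin 8) : (ι (qsys 0 (Fin.castAdd 0 j)) : K (YT 0 ⊕ ST 0))
    = quad sK j := by
  unfold sK
  rw [map_quad (ι : O (YT 0 ⊕ ST 0) →+* K (YT 0 ⊕ ST 0)), qsys, quadAll_left]

theorem nF_mem {I : Ideal (O (YT 0 ⊕ ST 0))} [I.IsPrime] : nF sK ∈ locRing I := by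
  have : nF sK = ι (sO 0 (Sum.inl (0, 0, 0)) ^ 2 * sO 0 (Sum.inl (0, 1, 0)) *
      sO 0 (Sum.inl (1, 1, 0))) := by
    simp only [nF, sK, map_mul, map_pow]
  rw [this]
  exact ι_mem_locRing _

/-- the general relation -/
theorem rel_gen {I : Ideal (O (YT 0 ⊕ ST 0))} [I.IsPrime] (hp : IsParam I (qsys 0))
    (θ : Derivation ℂ (K (YT 0 ⊕ ST 0)) (K (YT 0 ⊕ ST 0))) (v : ST 0 → K (YT 0 ⊕ ST 0))
    (hv : ∀ l, θ (sK l) = v l)
    (C : Fin 8 → Fin 8 → K (YT 0 ⊕ ST 0)) (hC : ∀ j i, C j i ∈ locRing I) (n : ℤ)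
    (h1 : ∀ j, dq sK v j = ∑ i, C j i * quad sK i)
    (h2 : dnF sK v - nF sK * ∑ j, C j j + n * nF sK = 0) :
    θ kap2 + n • kap2 ∈ locN I (qsys 0) := by
  have hv' : (fun l => θ (sK l)) = v := funext hv
  have h := der_gen (r := 8 + 0) hp θ (nF sK) nF_mem C hC (by
    intro j
    have := h1 j
    rw [← hv', ← der_quad, ← ιq] at this
    refine this.trans (Finset.sum_congr rfl fun i _ => ?_)
    rw [← ιq]
    rfl)
  rw [← kap2_eq] at h
  convert h using 1
  have h3 : θ (nF sK) - nF sK * ∑ j, C j j = - (n * nF sK) := by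
    rw [der_nF, hv']
    linear_combination h2
  have h4 : (∑ j : Fin (8 + 0), C j j) = ∑ j : Fin 8, C j j := rfl
  rw [h4, h3, kap2_eq, zsmul_eq_mul]
  ring

theorem krelK (c : Chart (YT 0) (ST 0)) (hc : c.s = sO 0) (I : Ideal (O (YT 0 ⊕ ST 0)))
    [I.IsPrime] (hp : IsParam I (qsys 0))
    (hL : ∀ F : O (YT 0), F ≠ 0 → rename Sum.inl F ∉ I)
    (hU : ∀ u, sO 0 (uIdx 0 u) ∉ I) :
    KRel (kModel c I (qsys 0) hp hL) kap2 := by
  have u00 : sO 0 (Sum.inl (0, 0, 0)) ∉ I := hU (Sum.inl 0)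
  have u10 : sO 0 (Sum.inl (0, 1, 0)) ∉ I := hU (Sum.inl 2)
  have ub10 : sO 0 (Sum.inl (1, 1, 0)) ∉ I := hU (Sum.inl 4)
  have ue00 : sO 0 (Sum.inl (2, 0, 0)) ∉ I := hU (Sum.inl 5)
  have ud00 : sO 0 (Sum.inl (3, 0, 0)) ∉ I := hU (Sum.inl 7)
  have hne : ∀ j, (ι (qsys 0 j) : K (YT 0 ⊕ ST 0)) ≠ 0 := fun j => ι_ne_zero (hp.ne_zero j)
  have hzero : (0 : K (YT 0 ⊕ ST 0)) ∈ locRing I := by
    simpa using ι_mem_locRing (I := I) (0 : O (YT 0 ⊕ ST 0))
  have hone : (1 : K (YT 0 ⊕ ST 0)) ∈ locRing I := by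
    simpa using ι_mem_locRing (I := I) (1 : O (YT 0 ⊕ ST 0))
  have hs : ∀ l l', dSD c l (sK l') = if l = l' then 1 else 0 := by
    intro l l'
    rw [sK, ← hc]
    exact dSD_s c l l'
  have hden : ∀ a b : ST 0, (kModel c I (qsys 0) hp hL).e kap2 a b
      = sK a * dSD c b kap2 := by
    intro a b
    rw [Model.e, kModel_ρ, kModel_δ, jA_X, hc, dSD_apply, sK]
  have hlet : ∀ l : ST 0, sO 0 l ∉ I → ∀ x, (kModel c I (qsys 0) hp hL).ρ (X l) x ∈
      (kModel c I (qsys 0) hp hL).N → x ∈ (kModel c I (qsys 0) hp hL).N := by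
    intro l hl x hx
    rw [kModel_mem_N, kModel_ρ, jA_X, hc] at hx
    rw [kModel_mem_N]
    have h := locN_mul (inv_mem_locRing hl) hx
    have h0 : (ι (sO 0 l) : K (YT 0 ⊕ ST 0)) ≠ 0 := by
      apply ι_ne_zero
      rintro h
      exact hl (h ▸ I.zero_mem)
    rwa [← mul_assoc, inv_mul_cancel₀ h0, one_mul] at h
  have h00 : sK (Sum.inl (0, 0, 0)) ≠ 0 := by
    apply ι_ne_zero
    rintro h
    exact u00 (h ▸ I.zero_mem)
  have hneg : ∀ x : K (YT 0 ⊕ ST 0), x ∈ locRing I → -x ∈ locRing I := by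
    intro x hx
    have h5 : -x = ι (-1) * x := by simp
    rw [h5]
    exact locRing_mul (ι_mem_locRing _) hx
  have hr1 : sK (Sum.inl (0, 1, 0)) * (sK (Sum.inl (0, 0, 0)))⁻¹ ∈ locRing I :=
    locRing_mul (ι_mem_locRing _) (inv_mem_locRing u00)
  have hr2 : -(sK (Sum.inl (1, 0, 0)) * (sK (Sum.inl (0, 0, 0)))⁻¹) ∈ locRing I :=
    hneg _ (locRing_mul (ι_mem_locRing _) (inv_mem_locRing u00))
  have hr3 : -(sK (Sum.inl (1, 1, 0)) * (sK (Sum.inl (0, 0, 0)))⁻¹) ∈ locRing I :=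
    hneg _ (locRing_mul (ι_mem_locRing _) (inv_mem_locRing u00))
  constructor
  case notMem =>
    rw [kModel_mem_N]
    refine gen_notMem hp ?_
    intro h
    rcases (‹I.IsPrime›).mem_or_mem h with h | h
    · rcases (‹I.IsPrime›).mem_or_mem h with h | h
      · exact u00 ((‹I.IsPrime›).mem_of_pow_mem _ h)
      · exact u10 h
    · exact ub10 h
  case inj =>
    intro l hl
    simp only [Set.mem_insert_iff, Set.mem_singleton_iff] at hl
    rcases hl with rfl | rfl | rfl | rfl | rfl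
    · exact hlet _ u00
    · exact hlet _ u10
    · exact hlet _ ub10
    · exact hlet _ ue00
    · exact hlet _ ud00
  case dy =>
    intro j
    rw [kModel_mem_N, kModel_δy, ← dYD_apply]
    have h0 : ∀ l, dYD c j (sK l) = (0 : ST 0 → K (YT 0 ⊕ ST 0)) l := by
      intro l
      rw [sK, ← hc]
      exact dYD_s c j l
    have h1 := rel_gen hp (dYD c j) 0 h0 0 (fun _ _ => hzero) 0
      (by
        intro i
        fin_cases i <;> simp [dq, zB])
      (by simp [dnF])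
    simpa using h1
  case q =>
    intro j
    rw [kModel_mem_N, kModel_ρ]
    have h1 : c.jA (quad (fun l => (X l : MvPolynomial (ST 0) (K (YT 0)))) j)
        = ι (qsys 0 (Fin.castAdd 0 j)) := by
      rw [← map_quad c.jA, ιq]
      simp only [jA_X, hc]
      rfl
    rw [h1, kap2, ← mul_assoc, ← map_mul]
    refine ideal_mul_gen hp ?_
    exact I.mul_mem_right _ (hp.1 _)
  case t1 =>
    rw [kModel_mem_N]
    simp only [hden]
    have h1 := rel_gen hp
      (sK (Sum.inl (0, 0, 0)) • dSD c (Sum.inl (0, 0, 1))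
        + sK (Sum.inl (0, 1, 0)) • dSD c (Sum.inl (0, 1, 1))
        + sK (Sum.inl (1, 0, 0)) • dSD c (Sum.inl (1, 0, 1))
        + sK (Sum.inl (1, 1, 0)) • dSD c (Sum.inl (1, 1, 1)))
      (vt1 sK)
      (by
        intro l
        simp only [vt1, vf, Derivation.add_apply, Derivation.sub_apply, Derivation.coe_smul,
          Pi.smul_apply, Pi.add_apply, Pi.sub_apply, smul_eq_mul, hs])
      Ct1 (fun _ _ => hzero) 0 (calc_t1 sK) (calcN_t1 sK)
    simpa only [zero_smul, add_zero, Derivation.add_apply, Derivation.sub_apply,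
      Derivation.coe_smul, Pi.smul_apply, smul_eq_mul] using h1
  case t2 =>
    rw [kModel_mem_N]
    simp only [hden]
    have h1 := rel_gen hp
      (sK (Sum.inl (0, 1, 0)) • dSD c (Sum.inl (0, 0, 0))
        + sK (Sum.inl (0, 1, 1)) • dSD c (Sum.inl (0, 0, 1))
        - sK (Sum.inl (2, 0, 0)) • dSD c (Sum.inl (2, 0, 1))
        - sK (Sum.inl (2, 1, 0)) • dSD c (Sum.inl (2, 1, 1)))
      (vt2 sK)
      (by
        intro l
        simp only [vt2, vf, Derivation.add_apply, Derivation.sub_apply, Derivation.coe_smul,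
          Pi.smul_apply, Pi.add_apply, Pi.sub_apply, smul_eq_mul, hs])
      (Ct2 sK)
      (by
        intro j i
        unfold Ct2
        split_ifs
        · exact hr1
        · exact hr2
        · exact hr1
        · exact hr3
        · exact hzero)
      0 (calc_t2 sK h00) (calcN_t2 sK h00)
    simpa only [zero_smul, add_zero, Derivation.add_apply, Derivation.sub_apply,
      Derivation.coe_smul, Pi.smul_apply, smul_eq_mul] using h1
  case t3 =>
    rw [kModel_mem_N]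
    simp only [hden]
    have h1 := rel_gen hp
      (sK (Sum.inl (0, 1, 0)) • dSD c (Sum.inl (0, 1, 0))
        + sK (Sum.inl (0, 1, 1)) • dSD c (Sum.inl (0, 1, 1))
        - sK (Sum.inl (2, 0, 1)) • dSD c (Sum.inl (2, 0, 1))
        - sK (Sum.inl (2, 1, 1)) • dSD c (Sum.inl (2, 1, 1)))
      (vt3 sK)
      (by
        intro l
        simp only [vt3, vf, Derivation.add_apply, Derivation.sub_apply, Derivation.coe_smul,
          Pi.smul_apply, Pi.add_apply, Pi.sub_apply, smul_eq_mul, hs])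
      Ct3
      (by
        intro j i
        unfold Ct3
        split_ifs <;> first | exact hone | exact hzero)
      0 (calc_t3 sK) (calcN_t3 sK)
    simpa only [zero_smul, add_zero, Derivation.add_apply, Derivation.sub_apply,
      Derivation.coe_smul, Pi.smul_apply, smul_eq_mul] using h1
  case t4 =>
    rw [kModel_mem_N]
    simp only [hden]
    have h1 := rel_gen hp
      (sK (Sum.inl (1, 1, 0)) • dSD c (Sum.inl (1, 0, 0))
        + sK (Sum.inl (1, 1, 1)) • dSD c (Sum.inl (1, 0, 1))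
        - sK (Sum.inl (3, 0, 0)) • dSD c (Sum.inl (3, 0, 1))
        - sK (Sum.inl (3, 1, 0)) • dSD c (Sum.inl (3, 1, 1)))
      (vt4 sK)
      (by
        intro l
        simp only [vt4, vf, Derivation.add_apply, Derivation.sub_apply, Derivation.coe_smul,
          Pi.smul_apply, Pi.add_apply, Pi.sub_apply, smul_eq_mul, hs])
      Ct4
      (by
        intro j i
        unfold Ct4
        split_ifs <;> first | exact hone | exact hzero)
      0 (calc_t4 sK) (calcN_t4 sK)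
    simpa only [zero_smul, add_zero, Derivation.add_apply, Derivation.sub_apply,
      Derivation.coe_smul, Pi.smul_apply, smul_eq_mul] using h1
  case t5 =>
    rw [kModel_mem_N]
    simp only [hden]
    have h1 := rel_gen hp
      (sK (Sum.inl (1, 1, 0)) • dSD c (Sum.inl (1, 1, 0))
        + sK (Sum.inl (1, 1, 1)) • dSD c (Sum.inl (1, 1, 1))
        - sK (Sum.inl (3, 0, 1)) • dSD c (Sum.inl (3, 0, 1))
        - sK (Sum.inl (3, 1, 1)) • dSD c (Sum.inl (3, 1, 1)))
      (vt5 sK)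
      (by
        intro l
        simp only [vt5, vf, Derivation.add_apply, Derivation.sub_apply, Derivation.coe_smul,
          Pi.smul_apply, Pi.add_apply, Pi.sub_apply, smul_eq_mul, hs])
      Ct5
      (by
        intro j i
        unfold Ct5
        split_ifs <;> first | exact hone | exact hzero)
      0 (calc_t5 sK) (calcN_t5 sK)
    simpa only [zero_smul, add_zero, Derivation.add_apply, Derivation.sub_apply,
      Derivation.coe_smul, Pi.smul_apply, smul_eq_mul] using h1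
  case t6 =>
    rw [kModel_mem_N]
    simp only [hden]
    have h1 := rel_gen hp
      (sK (Sum.inl (2, 0, 0)) • dSD c (Sum.inl (2, 1, 0))
        + sK (Sum.inl (2, 0, 1)) • dSD c (Sum.inl (2, 1, 1))
        + sK (Sum.inl (3, 0, 0)) • dSD c (Sum.inl (3, 1, 0))
        + sK (Sum.inl (3, 0, 1)) • dSD c (Sum.inl (3, 1, 1)))
      (vt6 sK)
      (by
        intro l
        simp only [vt6, vf, Derivation.add_apply, Derivation.sub_apply, Derivation.coe_smul,
          Pi.smul_apply, Pi.add_apply, Pi.sub_apply, smul_eq_mul, hs])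
      Ct6
      (by
        intro j i
        unfold Ct6
        split_ifs <;> first | exact hone | exact hzero)
      0 (calc_t6 sK) (calcN_t6 sK)
    simpa only [zero_smul, add_zero, Derivation.add_apply, Derivation.sub_apply,
      Derivation.coe_smul, Pi.smul_apply, smul_eq_mul] using h1
  case t7 =>
    rw [kModel_mem_N]
    simp only [hden]
    have h1 := rel_gen hp
      (sK (Sum.inl (3, 0, 0)) • dSD c (Sum.inl (3, 0, 0))
        + sK (Sum.inl (3, 0, 1)) • dSD c (Sum.inl (3, 0, 1))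
        + sK (Sum.inl (3, 1, 0)) • dSD c (Sum.inl (3, 1, 0))
        + sK (Sum.inl (3, 1, 1)) • dSD c (Sum.inl (3, 1, 1)))
      (vt7 sK)
      (by
        intro l
        simp only [vt7, vf, Derivation.add_apply, Derivation.sub_apply, Derivation.coe_smul,
          Pi.smul_apply, Pi.add_apply, Pi.sub_apply, smul_eq_mul, hs])
      Ct7
      (by
        intro j i
        unfold Ct7
        split_ifs <;> first | exact hone | exact hzero)
      3 (calc_t7 sK) (calcN_t7 sK)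
    simpa only [zero_smul, add_zero, Derivation.add_apply, Derivation.sub_apply,
      Derivation.coe_smul, Pi.smul_apply, smul_eq_mul] using h1
  case t8 =>
    rw [kModel_mem_N]
    simp only [hden]
    have h1 := rel_gen hp
      (sK (Sum.inl (2, 0, 0)) • dSD c (Sum.inl (2, 0, 0))
        + sK (Sum.inl (2, 0, 1)) • dSD c (Sum.inl (2, 0, 1))
        + sK (Sum.inl (3, 0, 0)) • dSD c (Sum.inl (3, 0, 0))
        + sK (Sum.inl (3, 0, 1)) • dSD c (Sum.inl (3, 0, 1)))
      (vt8 sK)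
      (by
        intro l
        simp only [vt8, vf, Derivation.add_apply, Derivation.sub_apply, Derivation.coe_smul,
          Pi.smul_apply, Pi.add_apply, Pi.sub_apply, smul_eq_mul, hs])
      Ct8
      (by
        intro j i
        unfold Ct8
        split_ifs <;> first | exact hone | exact hzero)
      3 (calc_t8 sK) (calcN_t8 sK)
    simpa only [zero_smul, add_zero, Derivation.add_apply, Derivation.sub_apply,
      Derivation.coe_smul, Pi.smul_apply, smul_eq_mul] using h1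

end Main

end

end Adams
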