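import Pool.Agent.MP_fe6ac3_nt.Base

/-!
# [ADAMS-LINE] Orbits are irreducible; density in the conormal variety

Blueprint.  `G` = graded invertible matrices `B : Matrix (Idx φ) (Idx φ) ℂ`.

* `mem_conormal_iff`: `∑_p ξ_p (a x - x a)_p = ∑_{i,j} (toMat ξ)_{ij} (a x - x a)_{ij}
  = tr((toMat ξ)ᵀ (a x - x a)) = tr(a (x Ξ - Ξ x))`, `Ξ = (toMat ξ)ᵀ`.  Take `a = E_ij` with
  `deg i = deg j`; for `deg i ≠ deg j` the entries of `x Ξ - Ξ x` vanish anyway.
* Line lemma: for graded matrices `A₀, A₁` (square, on `Idx φ`) put `γ_t = (1-t) A₀ + t A₁`,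
  `x_t = γ_t N γ_t⁻¹`.  For every polynomial `f` on `Coord φ` there are `p : ℂ[t]` and `k` with
  `f(x_t) det(γ_t)^k = p(t)` whenever `det γ_t ≠ 0` (induction on `f`; the entries of
  `det(γ_t) γ_t⁻¹ = adj(γ_t)` are polynomials in `t`).  The same for polynomials in
  `(x_t, ξ_t)` where `Ξ_t = γ_t Ξ₀ γ_t⁻¹`.
* `orbit_prime`: let `f(x) ≠ 0`, `g(x') ≠ 0`, `x = B Nil(π) B⁻¹`, `x' = B' Nil(π) B'⁻¹`.
  Join `1` to `B' B⁻¹` and conjugate `x`; `f(x_t) g(x_t)` is then nonzero for some `t` with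
  `det γ_t ≠ 0` (three nonzero polynomials in `t`).
* `conormal_density`: let `z = (x, ξ)` be in the conormal variety, `x₀ = B₀ N B₀⁻¹`,
  `x = B N B⁻¹`, `γ_t = (1-t) + t B B₀⁻¹`, `x_t = γ_t x₀ γ_t⁻¹`,
  `Ξ_t = γ_t (B₀ B⁻¹ Ξ B B₀⁻¹) γ_t⁻¹`.  `(x_t, ξ_t)` is in the conormal variety, at `t = 0` we have
  `g(x_t) ≠ 0`, so `F(x_t, ξ_t) = 0` for all but finitely many `t`, hence at `t = 1`.
* `inChar_density`: `Op.symbol P k x ξ` is the value of a polynomial at `(x, ξ)`.
-/

open MvPolynomial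

namespace Adams

noncomputable section

/-! ### graded matrices -/

/-- matrices of degree `k` -/
def LineG {φ π : Param} (k : ℤ) (A : Matrix (Idx φ) (Idx π) ℂ) : Prop :=
  ∀ a b, deg a ≠ deg b + k → A a b = 0

theorem LineG.mul {φ π ψ : Param} {k l : ℤ} {A : Matrix (Idx φ) (Idx π) ℂ}
    {B : Matrix (Idx π) (Idx ψ) ℂ} (hA : LineG k A) (hB : LineG l B) : LineG (k + l) (A * B) := by
  intro a c hac
  rw [Matrix.mul_apply]
  apply Finset.sum_eq_zero
  intro b _
  by_cases h : deg a = deg b + k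
  · have h2 : deg b ≠ deg c + l := by
      intro h3
      apply hac
      rw [h, h3]
      ring
    rw [hB b c h2, mul_zero]
  · rw [hA a b h, zero_mul]

theorem lineG_one {φ : Param} : LineG 0 (1 : Matrix (Idx φ) (Idx φ) ℂ) := by
  intro a b hab
  rw [Matrix.one_apply_ne]
  rintro rfl
  exact hab (by ring)

theorem lineG_toMat {φ : Param} (x : Coord φ → ℂ) : LineG 2 (toMat x) := by
  intro a b hab
  simp only [toMat, Matrix.of_apply]
  rw [dif_neg hab]

/-- the diagonal matrix of degrees -/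
def lineDiag (φ : Param) : Matrix (Idx φ) (Idx φ) ℂ := Matrix.diagonal fun i => ((deg i : ℤ) : ℂ)

theorem lineG_iff {φ π : Param} (A : Matrix (Idx φ) (Idx π) ℂ) :
    LineG 0 A ↔ A * lineDiag π = lineDiag φ * A := by
  constructor
  · intro h
    ext a b
    simp only [lineDiag, Matrix.mul_diagonal, Matrix.diagonal_mul]
    by_cases hab : deg a = deg b
    · rw [hab]
      ring
    · rw [h a b (by simpa using hab)]
      ring
  · intro h a b hab
    have h1 := congrFun (congrFun h a) b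
    simp only [lineDiag, Matrix.mul_diagonal, Matrix.diagonal_mul] at h1
    have h2 : A a b * (((deg b : ℤ) : ℂ) - ((deg a : ℤ) : ℂ)) = 0 := by
      rw [mul_sub, h1]
      ring
    rcases mul_eq_zero.1 h2 with h3 | h3
    · exact h3
    · exfalso
      apply hab
      have h4 : ((deg b : ℤ) : ℂ) = ((deg a : ℤ) : ℂ) := sub_eq_zero.1 h3
      have h5 : deg b = deg a := by exact_mod_cast h4
      rw [h5]
      ring

theorem LineG.inv {φ π : Param} {B : Matrix (Idx φ) (Idx π) ℂ} {B' : Matrix (Idx π) (Idx φ) ℂ}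
    (h : LineG 0 B) (h1 : B * B' = 1) (h2 : B' * B = 1) : LineG 0 B' := by
  rw [lineG_iff] at h ⊢
  calc B' * lineDiag φ = B' * lineDiag φ * (B * B') := by rw [h1, Matrix.mul_one]
    _ = B' * (lineDiag φ * B) * B' := by simp only [Matrix.mul_assoc]
    _ = B' * (B * lineDiag π) * B' := by rw [h]
    _ = (B' * B) * lineDiag π * B' := by simp only [Matrix.mul_assoc]
    _ = lineDiag π * B' := by rw [h2, Matrix.one_mul]

/-- the point with a given matrix -/
def lineOf {φ : Param} (A : Matrix (Idx φ) (Idx φ) ℂ) : Coord φ → ℂ := fun p => A p.1.1 p.1.2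

theorem lineOf_toMat {φ : Param} (x : Coord φ → ℂ) : lineOf (toMat x) = x := by
  funext p
  simp only [lineOf, toMat, Matrix.of_apply]
  rw [dif_pos p.2]

theorem toMat_lineOf {φ : Param} {A : Matrix (Idx φ) (Idx φ) ℂ} (h : LineG 2 A) :
    toMat (lineOf A) = A := by
  ext a b
  simp only [lineOf, toMat, Matrix.of_apply]
  by_cases hab : deg a = deg b + 2
  · rw [dif_pos hab]
  · rw [dif_neg hab, h a b hab]

theorem mem_conormal_iff {φ : Param} (z : (Coord φ → ℂ) × (Coord φ → ℂ)) :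
    z ∈ Conormal φ ↔ z.1 ∈ Orbit φ φ ∧
      toMat z.1 * (toMat z.2).transpose = (toMat z.2).transpose * toMat z.1 := by
  set X := toMat z.1 with hX
  set Y := toMat z.2 with hY
  have hXG : LineG 2 X := lineG_toMat _
  have hYG : LineG 2 Y := lineG_toMat _
  have hsum : ∀ W : Matrix (Idx φ) (Idx φ) ℂ,
      ∑ p : Coord φ, z.2 p * W p.1.1 p.1.2 = (Y.transpose * W).trace := by
    intro W
    have h1 : (Y.transpose * W).trace = ∑ q : Idx φ × Idx φ, Y q.1 q.2 * W q.1 q.2 := by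
      rw [Matrix.trace, Fintype.sum_prod_type_right]
      apply Finset.sum_congr rfl
      intro j _
      rw [Matrix.diag_apply, Matrix.mul_apply]
      rfl
    rw [h1]
    have h2 : ∑ q : Idx φ × Idx φ, Y q.1 q.2 * W q.1 q.2 =
        ∑ q ∈ Finset.univ.filter (fun q : Idx φ × Idx φ => deg q.1 = deg q.2 + 2),
          Y q.1 q.2 * W q.1 q.2 := by
      symm
      apply Finset.sum_filter_of_ne
      intro q _ hq
      by_contra hne
      exact hq (by rw [hYG q.1 q.2 hne, zero_mul])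
    rw [h2, ← Finset.sum_subtype_eq_sum_filter]
    simp only [Finset.subtype_univ]
    apply Finset.sum_congr rfl
    intro p _
    congr 1
    rw [hY]
    exact (congrFun (lineOf_toMat z.2) p).symm
  have htr : ∀ a : Matrix (Idx φ) (Idx φ) ℂ,
      (Y.transpose * (a * X - X * a)).trace = (a * (X * Y.transpose - Y.transpose * X)).trace := by
    intro a
    rw [Matrix.mul_sub, Matrix.mul_sub, Matrix.trace_sub, Matrix.trace_sub]
    congr 1
    · rw [Matrix.trace_mul_comm, Matrix.mul_assoc]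
    · rw [← Matrix.mul_assoc, Matrix.trace_mul_comm]
  constructor
  · rintro ⟨h1, h2⟩
    refine ⟨h1, ?_⟩
    rw [← sub_eq_zero]
    ext i j
    rw [Matrix.zero_apply]
    by_cases hij : deg i = deg j
    · have h3 := h2 (Matrix.single j i 1) (by
        intro a b hab
        rw [Matrix.single_apply]
        rw [if_neg]
        rintro ⟨rfl, rfl⟩
        exact hab hij.symm)
      rw [hsum, htr] at h3
      rw [Matrix.trace_mul_comm, Matrix.trace_mul_single] at h3
      simpa using h3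
    · have hYt : LineG (-2) Y.transpose := by
        intro a b hab
        rw [Matrix.transpose_apply]
        apply hYG
        intro h
        apply hab
        rw [h]
        ring
      have e1 := hXG.mul hYt
      have e2 := hYt.mul hXG
      rw [Matrix.sub_apply, e1 i j (by simpa using hij), e2 i j (by simpa using hij), sub_zero]
  · rintro ⟨h1, h2⟩
    refine ⟨h1, ?_⟩
    intro a _
    rw [hsum, htr, h2, sub_self, Matrix.mul_zero, Matrix.trace_zero]

/-! ### the line lemma -/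

theorem line_poly {τ : Type} (P : τ → Polynomial ℂ) (δ : Polynomial ℂ) (f : MvPolynomial τ ℂ) :
    ∃ (q : Polynomial ℂ) (k : ℕ), ∀ t : ℂ, δ.eval t ≠ 0 →
      q.eval t = (δ.eval t) ^ k * eval (fun p => (δ.eval t)⁻¹ * (P p).eval t) f := by
  induction f using MvPolynomial.induction_on with
  | C a =>
    refine ⟨Polynomial.C a, 0, fun t _ => ?_⟩
    rw [Polynomial.eval_C, eval_C, pow_zero, one_mul]
  | add f g hf hg =>
    obtain ⟨q1, k1, h1⟩ := hf
    obtain ⟨q2, k2, h2⟩ := hg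
    refine ⟨q1 * δ ^ k2 + q2 * δ ^ k1, k1 + k2, fun t ht => ?_⟩
    rw [Polynomial.eval_add, Polynomial.eval_mul, Polynomial.eval_mul, Polynomial.eval_pow,
      Polynomial.eval_pow, h1 t ht, h2 t ht, map_add]
    ring
  | mul_X f p hf =>
    obtain ⟨q, k, h⟩ := hf
    refine ⟨q * P p, k + 1, fun t ht => ?_⟩
    rw [Polynomial.eval_mul, h t ht, map_mul, eval_X, pow_succ]
    field_simp

theorem line_exists {p : Polynomial ℂ} (hp : p ≠ 0) : ∃ t : ℂ, p.eval t ≠ 0 := by
  by_contra hcon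
  push Not at hcon
  exact hp (Polynomial.funext fun t => by rw [hcon t, Polynomial.eval_zero])

/-- the path from `1` to `D` -/
theorem line_path {φ : Param} (D D' : Matrix (Idx φ) (Idx φ) ℂ) (hD : LineG 0 D)
    (h1 : D * D' = 1) (h2 : D' * D = 1) :
    ∃ (δ : Polynomial ℂ) (PX : Matrix (Idx φ) (Idx φ) ℂ → Idx φ → Idx φ → Polynomial ℂ),
      δ.eval 0 ≠ 0 ∧ δ.eval 1 ≠ 0 ∧ ∀ t : ℂ, δ.eval t ≠ 0 →
        ∃ γ γ' : Matrix (Idx φ) (Idx φ) ℂ, LineG 0 γ ∧ γ * γ' = 1 ∧ γ' * γ = 1 ∧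
          (t = 0 → γ = 1 ∧ γ' = 1) ∧ (t = 1 → γ = D ∧ γ' = D') ∧
          ∀ A i j, (γ * A * γ') i j = (δ.eval t)⁻¹ * (PX A i j).eval t := by
  classical
  set Γ : Matrix (Idx φ) (Idx φ) (Polynomial ℂ) :=
    (1 - Polynomial.X : Polynomial ℂ) • (1 : Matrix (Idx φ) (Idx φ) (Polynomial ℂ)) +
      (Polynomial.X : Polynomial ℂ) • D.map Polynomial.C with hΓ
  have hev : ∀ t : ℂ, (Polynomial.evalRingHom t).mapMatrix Γ = (1 - t) • 1 + t • D := by
    intro t
    ext i j
    simp only [hΓ, RingHom.mapMatrix_apply, Matrix.map_apply, Matrix.add_apply, Matrix.smul_apply,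
      smul_eq_mul, Polynomial.coe_evalRingHom, Polynomial.eval_add, Polynomial.eval_mul,
      Polynomial.eval_sub, Polynomial.eval_one, Polynomial.eval_X, Polynomial.eval_C]
    congr 2
    rw [Matrix.one_apply, Matrix.one_apply]
    split_ifs <;> simp
  have hdet : ∀ t : ℂ, (Γ.det).eval t = ((1 - t) • (1 : Matrix (Idx φ) (Idx φ) ℂ) + t • D).det := by
    intro t
    rw [← hev t, ← RingHom.map_det]
    rfl
  have hadj : ∀ (t : ℂ) (i j : Idx φ), (Γ.adjugate i j).eval t =
      ((1 - t) • (1 : Matrix (Idx φ) (Idx φ) ℂ) + t • D).adjugate i j := by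
    intro t i j
    rw [← hev t, ← RingHom.map_adjugate]
    rfl
  have hDdet : D.det ≠ 0 := by
    intro h0
    have := congrArg Matrix.det h1
    rw [Matrix.det_mul, h0, zero_mul, Matrix.det_one] at this
    exact zero_ne_one this
  refine ⟨Γ.det, fun A i j => (Γ * A.map Polynomial.C * Γ.adjugate) i j, ?_, ?_, ?_⟩
  · rw [hdet]
    simp
  · rw [hdet]
    simpa using hDdet
  · intro t ht
    set γ : Matrix (Idx φ) (Idx φ) ℂ := (1 - t) • (1 : Matrix (Idx φ) (Idx φ) ℂ) + t • D with hγ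
    rw [hdet t] at ht
    have hunit : IsUnit γ.det := isUnit_iff_ne_zero.2 ht
    have e1 : γ * γ⁻¹ = 1 := Matrix.mul_nonsing_inv γ hunit
    have e2 : γ⁻¹ * γ = 1 := Matrix.nonsing_inv_mul γ hunit
    refine ⟨γ, γ⁻¹, ?_, e1, e2, ?_, ?_, ?_⟩
    · intro a b hab
      rw [hγ, Matrix.add_apply, Matrix.smul_apply, Matrix.smul_apply, lineG_one a b hab,
        hD a b hab]
      simp
    · intro h0
      have : γ = 1 := by
        rw [hγ, h0]
        simp
      rw [this]
      simp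
    · intro h0
      have : γ = D := by
        rw [hγ, h0]
        simp
      refine ⟨this, ?_⟩
      rw [this]
      exact Matrix.inv_eq_right_inv h1
    · intro A i j
      have hinv : γ⁻¹ = (γ.det)⁻¹ • γ.adjugate := by
        rw [Matrix.inv_def, Ring.inverse_eq_inv']
      rw [hinv, Matrix.mul_smul, Matrix.smul_apply, smul_eq_mul, hdet t]
      congr 1
      have : (Polynomial.evalRingHom t).mapMatrix (Γ * A.map Polynomial.C * Γ.adjugate) =
          γ * A * γ.adjugate := by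
        rw [map_mul, map_mul, hev t]
        congr 1
        · congr 1
          ext i j
          simp
        · ext i j
          rw [RingHom.mapMatrix_apply, Matrix.map_apply]
          exact hadj t i j
      have h3 := congrFun (congrFun this i) j
      rw [← h3]
      rfl

/-- conjugating a point of the orbit -/
theorem line_orbit {φ π : Param} {x : Coord φ → ℂ} (hx : x ∈ Orbit φ π)
    {γ γ' : Matrix (Idx φ) (Idx φ) ℂ} (h0 : LineG 0 γ) (h1 : γ * γ' = 1) (h2 : γ' * γ = 1) :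
    lineOf (γ * toMat x * γ') ∈ Orbit φ π ∧
      toMat (lineOf (γ * toMat x * γ')) = γ * toMat x * γ' := by
  have hg : LineG 2 (γ * toMat x * γ') := by
    have := (h0.mul (lineG_toMat x)).mul (h0.inv h1 h2)
    simpa using this
  have ht := toMat_lineOf hg
  refine ⟨?_, ht⟩
  obtain ⟨B, B', hB, hBB, hBB', hN⟩ := hx
  refine ⟨γ * B, B' * γ', ?_, ?_, ?_, ?_⟩
  · have hB0 : LineG 0 B := fun a b hab => hB a b (by simpa using hab)
    have := h0.mul hB0
    intro a b hab
    exact this a b (by simpa using hab)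
  · calc γ * B * (B' * γ') = γ * (B * B') * γ' := by simp only [Matrix.mul_assoc]
      _ = 1 := by rw [hBB, Matrix.mul_one, h1]
  · calc B' * γ' * (γ * B) = B' * (γ' * γ) * B := by simp only [Matrix.mul_assoc]
      _ = 1 := by rw [h2, Matrix.mul_one, hBB']
  · rw [ht]
    calc γ * toMat x * γ' * (γ * B) = γ * toMat x * (γ' * γ) * B := by
          simp only [Matrix.mul_assoc]
      _ = γ * (toMat x * B) := by rw [h2, Matrix.mul_one, Matrix.mul_assoc]
      _ = γ * B * Nil π := by rw [hN, Matrix.mul_assoc]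

/-- two points of an orbit are conjugate -/
theorem line_conj {φ π : Param} {x x' : Coord φ → ℂ} (hx : x ∈ Orbit φ π) (hx' : x' ∈ Orbit φ π) :
    ∃ D D' : Matrix (Idx φ) (Idx φ) ℂ, LineG 0 D ∧ D * D' = 1 ∧ D' * D = 1 ∧
      toMat x' = D * toMat x * D' := by
  obtain ⟨B, B', hB, hB1, hB2, hN⟩ := hx
  obtain ⟨C, C', hC, hC1, hC2, hN'⟩ := hx'
  have hB0 : LineG 0 B := fun a b hab => hB a b (by simpa using hab)
  have hC0 : LineG 0 C := fun a b hab => hC a b (by simpa using hab)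
  refine ⟨C * B', B * C', ?_, ?_, ?_, ?_⟩
  · have := hC0.mul (hB0.inv hB1 hB2)
    simpa using this
  · calc C * B' * (B * C') = C * (B' * B) * C' := by simp only [Matrix.mul_assoc]
      _ = 1 := by rw [hB2, Matrix.mul_one, hC1]
  · calc B * C' * (C * B') = B * (C' * C) * B' := by simp only [Matrix.mul_assoc]
      _ = 1 := by rw [hC2, Matrix.mul_one, hB1]
  · calc toMat x' = toMat x' * (C * C') := by rw [hC1, Matrix.mul_one]
      _ = (toMat x' * C) * C' := by rw [Matrix.mul_assoc]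
      _ = C * (B' * B) * Nil π * C' := by rw [hN', hB2, Matrix.mul_one]
      _ = C * B' * (B * Nil π) * C' := by simp only [Matrix.mul_assoc]
      _ = C * B' * (toMat x * B) * C' := by rw [hN]
      _ = C * B' * toMat x * (B * C') := by simp only [Matrix.mul_assoc]

theorem orbit_prime (φ π : Param) (hne : (Orbit φ π).Nonempty) :
    (vanishingIdeal ℂ (Orbit φ π)).IsPrime := by
  refine Ideal.isPrime_iff.2 ⟨?_, ?_⟩
  · intro htop
    have h1 : (1 : O (Coord φ)) ∈ vanishingIdeal ℂ (Orbit φ π) := by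
      rw [htop]
      exact Submodule.mem_top
    obtain ⟨x, hx⟩ := hne
    have := (mem_vanishingIdeal_iff.1 h1) x hx
    simp at this
  · intro f g hfg
    by_contra hcon
    rw [not_or] at hcon
    obtain ⟨hf, hg⟩ := hcon
    rw [mem_vanishingIdeal_iff] at hf hg hfg
    push Not at hf hg
    obtain ⟨x, hx, hfx⟩ := hf
    obtain ⟨x', hx', hgx⟩ := hg
    obtain ⟨D, D', hD, hD1, hD2, hDx⟩ := line_conj hx hx'
    obtain ⟨δ, PX, d0, d1, hpath⟩ := line_path D D' hD hD1 hD2
    obtain ⟨qf, kf, hqf⟩ := line_poly (fun p : Coord φ => PX (toMat x) p.1.1 p.1.2) δ f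
    obtain ⟨qg, kg, hqg⟩ := line_poly (fun p : Coord φ => PX (toMat x) p.1.1 p.1.2) δ g
    have hpt : ∀ t : ℂ, δ.eval t ≠ 0 →
        ∃ y : Coord φ → ℂ, y ∈ Orbit φ π ∧ (t = 0 → y = x) ∧ (t = 1 → y = x') ∧
          (fun p : Coord φ => (δ.eval t)⁻¹ * (PX (toMat x) p.1.1 p.1.2).eval t) = y := by
      intro t ht
      obtain ⟨γ, γ', g0, g1, g2, g3, g4, g5⟩ := hpath t ht
      refine ⟨lineOf (γ * toMat x * γ'), (line_orbit hx g0 g1 g2).1, ?_, ?_, ?_⟩
      · intro h
        obtain ⟨rfl, rfl⟩ := g3 h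
        rw [Matrix.one_mul, Matrix.mul_one, lineOf_toMat]
      · intro h
        obtain ⟨rfl, rfl⟩ := g4 h
        rw [← hDx, lineOf_toMat]
      · funext p
        exact (g5 (toMat x) p.1.1 p.1.2).symm
    have hqf0 : qf ≠ 0 := by
      rintro rfl
      obtain ⟨y, hy, hy0, _, hyp⟩ := hpt 0 d0
      have h3 := hqf 0 d0
      rw [hyp, hy0 rfl, Polynomial.eval_zero] at h3
      rcases mul_eq_zero.1 h3.symm with h4 | h4
      · exact pow_ne_zero _ d0 h4
      · exact hfx (by rw [← h4]; rfl)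
    have hqg0 : qg ≠ 0 := by
      rintro rfl
      obtain ⟨y, hy, _, hy1, hyp⟩ := hpt 1 d1
      have h3 := hqg 1 d1
      rw [hyp, hy1 rfl, Polynomial.eval_zero] at h3
      rcases mul_eq_zero.1 h3.symm with h4 | h4
      · exact pow_ne_zero _ d1 h4
      · exact hgx (by rw [← h4]; rfl)
    have hδ0 : δ ≠ 0 := by
      rintro rfl
      exact d0 Polynomial.eval_zero
    obtain ⟨t, ht⟩ := line_exists (mul_ne_zero (mul_ne_zero hqf0 hqg0) hδ0)
    rw [Polynomial.eval_mul, Polynomial.eval_mul] at ht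
    have htδ : δ.eval t ≠ 0 := right_ne_zero_of_mul ht
    have htf : qf.eval t ≠ 0 := left_ne_zero_of_mul (left_ne_zero_of_mul ht)
    have htg : qg.eval t ≠ 0 := right_ne_zero_of_mul (left_ne_zero_of_mul ht)
    obtain ⟨y, hy, _, _, hyp⟩ := hpt t htδ
    rw [hqf t htδ, hyp] at htf
    rw [hqg t htδ, hyp] at htg
    have h5 := hfg y hy
    rw [map_mul] at h5
    rcases mul_eq_zero.1 h5 with h6 | h6
    · exact right_ne_zero_of_mul htf (by rw [← h6]; rfl)
    · exact right_ne_zero_of_mul htg (by rw [← h6]; rfl)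

theorem conormal_density (φ : Param) (g : O (Coord φ)) (x₀ : Coord φ → ℂ) (hx₀ : x₀ ∈ Orbit φ φ)
    (hg : eval x₀ g ≠ 0) (F : MvPolynomial (Coord φ ⊕ Coord φ) ℂ)
    (hF : ∀ z ∈ Conormal φ, eval z.1 g ≠ 0 → eval (Sum.elim z.1 z.2) F = 0) :
    ∀ z ∈ Conormal φ, eval (Sum.elim z.1 z.2) F = 0 := by
  rintro ⟨x, ξ⟩ hz
  rw [mem_conormal_iff] at hz
  obtain ⟨hx, hcomm⟩ := hz
  simp only at hx hcomm
  obtain ⟨D, D', hD, hD1, hD2, hDx⟩ := line_conj hx₀ hx
  obtain ⟨δ, PX, d0, d1, hpath⟩ := line_path D D' hD hD1 hD2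
  set Ξ : Matrix (Idx φ) (Idx φ) ℂ := (toMat ξ).transpose with hΞ
  set Ξ₀ : Matrix (Idx φ) (Idx φ) ℂ := D' * Ξ * D with hΞ₀
  have hΞG : LineG (-2) Ξ := by
    intro a b hab
    rw [hΞ, Matrix.transpose_apply]
    apply lineG_toMat
    intro h
    apply hab
    rw [h]
    ring
  have hD'G : LineG 0 D' := hD.inv hD1 hD2
  have hΞ₀G : LineG (-2) Ξ₀ := by
    have := (hD'G.mul hΞG).mul hD
    simpa using this
  have hX₀ : D' * toMat x * D = toMat x₀ := by
    rw [hDx]
    calc D' * (D * toMat x₀ * D') * D = (D' * D) * toMat x₀ * (D' * D) := by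
          simp only [Matrix.mul_assoc]
      _ = toMat x₀ := by rw [hD2, Matrix.one_mul, Matrix.mul_one]
  have hcomm₀ : toMat x₀ * Ξ₀ = Ξ₀ * toMat x₀ := by
    rw [← hX₀, hΞ₀]
    calc D' * toMat x * D * (D' * Ξ * D) = D' * toMat x * (D * D') * Ξ * D := by
          simp only [Matrix.mul_assoc]
      _ = D' * (toMat x * Ξ) * D := by rw [hD1, Matrix.mul_one]; simp only [Matrix.mul_assoc]
      _ = D' * (Ξ * toMat x) * D := by rw [hcomm]
      _ = D' * Ξ * (D * D') * toMat x * D := by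
          rw [hD1, Matrix.mul_one]; simp only [Matrix.mul_assoc]
      _ = D' * Ξ * D * (D' * toMat x * D) := by simp only [Matrix.mul_assoc]
  obtain ⟨qF, kF, hqF⟩ := line_poly (Sum.elim (fun p : Coord φ => PX (toMat x₀) p.1.1 p.1.2)
    (fun p : Coord φ => PX Ξ₀ p.1.2 p.1.1)) δ F
  obtain ⟨qg, kg, hqg⟩ := line_poly (fun p : Coord φ => PX (toMat x₀) p.1.1 p.1.2) δ g
  have hpt : ∀ t : ℂ, δ.eval t ≠ 0 →
      ∃ y η : Coord φ → ℂ, (y, η) ∈ Conormal φ ∧ (t = 0 → y = x₀) ∧ (t = 1 → y = x ∧ η = ξ) ∧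
        (fun p : Coord φ => (δ.eval t)⁻¹ * (PX (toMat x₀) p.1.1 p.1.2).eval t) = y ∧
        (fun s : Coord φ ⊕ Coord φ => (δ.eval t)⁻¹ *
          ((Sum.elim (fun p : Coord φ => PX (toMat x₀) p.1.1 p.1.2)
            (fun p : Coord φ => PX Ξ₀ p.1.2 p.1.1) : Coord φ ⊕ Coord φ → Polynomial ℂ) s).eval t) =
          Sum.elim y η := by
    intro t ht
    obtain ⟨γ, γ', g0, g1, g2, g3, g4, g5⟩ := hpath t ht
    have hγ'G : LineG 0 γ' := g0.inv g1 g2
    have hΞtG : LineG (-2) (γ * Ξ₀ * γ') := by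
      have := (g0.mul hΞ₀G).mul hγ'G
      simpa using this
    have hΞtG' : LineG 2 (γ * Ξ₀ * γ').transpose := by
      intro a b hab
      rw [Matrix.transpose_apply]
      apply hΞtG
      intro h
      apply hab
      rw [h]
      ring
    obtain ⟨o1, o2⟩ := line_orbit hx₀ g0 g1 g2
    refine ⟨lineOf (γ * toMat x₀ * γ'), lineOf (γ * Ξ₀ * γ').transpose, ?_, ?_, ?_, ?_, ?_⟩
    · rw [mem_conormal_iff]
      refine ⟨o1, ?_⟩
      simp only
      rw [o2, toMat_lineOf hΞtG', Matrix.transpose_transpose]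
      calc γ * toMat x₀ * γ' * (γ * Ξ₀ * γ') = γ * toMat x₀ * (γ' * γ) * Ξ₀ * γ' := by
            simp only [Matrix.mul_assoc]
        _ = γ * (toMat x₀ * Ξ₀) * γ' := by
            rw [g2, Matrix.mul_one]; simp only [Matrix.mul_assoc]
        _ = γ * (Ξ₀ * toMat x₀) * γ' := by rw [hcomm₀]
        _ = γ * Ξ₀ * (γ' * γ) * toMat x₀ * γ' := by
            rw [g2, Matrix.mul_one]; simp only [Matrix.mul_assoc]
        _ = γ * Ξ₀ * γ' * (γ * toMat x₀ * γ') := by simp only [Matrix.mul_assoc]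
    · intro h
      obtain ⟨rfl, rfl⟩ := g3 h
      rw [Matrix.one_mul, Matrix.mul_one, lineOf_toMat]
    · intro h
      obtain ⟨rfl, rfl⟩ := g4 h
      refine ⟨by rw [← hDx, lineOf_toMat], ?_⟩
      have : γ * Ξ₀ * γ' = Ξ := by
        rw [hΞ₀]
        calc γ * (γ' * Ξ * γ) * γ' = (γ * γ') * Ξ * (γ * γ') := by simp only [Matrix.mul_assoc]
          _ = Ξ := by rw [hD1, Matrix.one_mul, Matrix.mul_one]
      rw [this, hΞ, Matrix.transpose_transpose, lineOf_toMat]
    · funext p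
      exact (g5 (toMat x₀) p.1.1 p.1.2).symm
    · funext s
      rcases s with p | p
      · exact (g5 (toMat x₀) p.1.1 p.1.2).symm
      · exact (g5 Ξ₀ p.1.2 p.1.1).symm
  have hqg0 : qg ≠ 0 := by
    rintro rfl
    obtain ⟨y, η, _, hy0, _, hyp, _⟩ := hpt 0 d0
    have h3 := hqg 0 d0
    rw [hyp, hy0 rfl, Polynomial.eval_zero] at h3
    rcases mul_eq_zero.1 h3.symm with h4 | h4
    · exact pow_ne_zero _ d0 h4
    · exact hg h4
  have hδ0 : δ ≠ 0 := by
    rintro rfl
    exact d0 Polynomial.eval_zero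
  have hzero : qF * qg * δ = 0 := by
    apply Polynomial.funext
    intro t
    rw [Polynomial.eval_mul, Polynomial.eval_mul, Polynomial.eval_zero]
    by_cases ht : δ.eval t = 0
    · rw [ht, mul_zero]
    · obtain ⟨y, η, hyc, _, _, hyp, hys⟩ := hpt t ht
      rw [hqF t ht, hqg t ht, hyp, hys]
      by_cases hgy : eval y g = 0
      · rw [hgy]
        ring
      · have := hF (y, η) hyc hgy
        simp only at this
        rw [this]
        ring
  have hqF0 : qF = 0 := by
    rcases mul_eq_zero.1 hzero with h | h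
    · rcases mul_eq_zero.1 h with h' | h'
      · exact h'
      · exact absurd h' hqg0
    · exact absurd h hδ0
  obtain ⟨y, η, _, _, hy1, _, hys⟩ := hpt 1 d1
  obtain ⟨rfl, rfl⟩ := hy1 rfl
  have h3 := hqF 1 d1
  rw [hqF0, Polynomial.eval_zero, hys] at h3
  rcases mul_eq_zero.1 h3.symm with h4 | h4
  · exact absurd h4 (pow_ne_zero _ d1)
  · exact h4

/-- the principal symbol as a polynomial -/
def lineSymb {σ : Type} (P : Op σ) (k : ℕ) : MvPolynomial (σ ⊕ σ) ℂ :=
  P.sum fun w p => if w.length = k then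
    rename Sum.inl p * (w.map fun i => X (Sum.inr i)).prod else 0

theorem eval_lineSymb {σ : Type} (P : Op σ) (k : ℕ) (x ξ : σ → ℂ) :
    eval (Sum.elim x ξ) (lineSymb P k) = P.symbol k x ξ := by
  unfold lineSymb Op.symbol
  rw [Finsupp.sum, Finsupp.sum, map_sum]
  apply Finset.sum_congr rfl
  intro w _
  split_ifs with hw
  · rw [map_mul, eval_rename, Sum.elim_comp_inl, map_list_prod, List.map_map]
    congr 2
    apply List.map_congr_left
    intro i _
    simp
  · rw [map_zero]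

theorem inChar_density (φ : Param) (Z : Set (Coord φ → ℂ)) (g : O (Coord φ)) (x₀ : Coord φ → ℂ)
    (hx₀ : x₀ ∈ Orbit φ φ) (hg : eval x₀ g ≠ 0)
    (h : InChar Z {z | z ∈ Conormal φ ∧ eval z.1 g ≠ 0}) : InChar Z (Conormal φ) := by
  obtain ⟨r, h, M, hp, hb, hc⟩ := h
  refine ⟨r, h, M, hp, hb, ?_⟩
  intro z hz f hf hfN P k hP hact
  have := conormal_density φ g x₀ hx₀ hg (lineSymb P k) (by
    intro z' hz' hgz'
    rw [eval_lineSymb]
    exact hc ⟨hz', hgz'⟩ f hf hfN P k hP hact) z hz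
  rw [eval_lineSymb] at this
  exact this

end

end Adams
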