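import Pool.Agent.MP_fe6ac3_nt.Base

/-!
# [ADAMS-LOC] The local cohomology module `locT I h / locN I h`

Notation: `R = locRing I` (local ring), `e = (ι (∏ j, h j))⁻¹`.

Blueprint.
* `R` is a subring of `K σ`, stable under all `pd i` (quotient rule), every `ι s`, `s ∉ I`, is a
  unit of `R`.  `locN`, `locT` are `R`-stable and `pd`-stable: an element of the `i`-th generating
  set is `c / (∏_{j ≠ i} h_j)^n`, `c ∈ R`; with `I` prime the generating sets are additive
  subgroups (raise to a common `n`, multiply the `s`), `locN` is the sum of `r` of them.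
* Jacobian condition: the matrix `J = (∂_{c i} h_j)` is invertible over `R`; put
  `δ_i = ∑_k (J⁻¹)_{ik} ∂_{c k}`, derivations of `K σ` preserving `R`, `locN`, `locT`, with
  `δ_i h_j = δ_{ij}`.
* `gen_notMem`.  If `a e = ∑_i a_i / (∏_{j≠i} h_j)^n` (`a_i ∈ R`, `n ≥ 1`), multiply by
  `(∏ h)^n`: `a (∏ h)^{n-1} = ∑ a_i h_i^n`.  Apply `δ_1^{n-1} δ_2^{n-1} ⋯ δ_r^{n-1}`.  Modulo the
  ideal `m = I R` the right side gives `0` (at most `n-1` derivatives hit `h_i^n`), the left side
  gives `a ((n-1)!)^r`, a unit.  (Say `𝔪 = {f ∈ R | ∃ s ∉ I, s f ∈ I}`.)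
* `socle`.  For a multi-index `γ` let `h^γ = ∏ h_i^{γ_i}`.  For `x ∈ locT` only finitely many
  `h^γ x ∉ locN`; take `γ` with `|γ|` maximal, `y = h^γ x ∉ locN`, so `h_i y ∈ locN` for all `i`.
  Let `T_k = ∑_{|γ| ≤ k} R h^{-γ-1} + locN`; `y ∈ T_k` for some `k`; take `k` minimal.  If
  `k ≥ 1`: `∑_i δ_i(h_i c h^{-γ-1}) = -|γ| c h^{-γ-1} + ∑_i δ_i(c) h_i h^{-γ-1}`, so from
  `∑_i δ_i(h_i y) ∈ locN` we get `k y ∈ T_{k-1}`, contradiction.  So `y ≡ c e`, `c ∈ R`, and
  `c ∉ m` since `m e ⊆ locN`; clear denominators.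
-/

open MvPolynomial

namespace Adams

noncomputable section

variable {σ : Type} {I : Ideal (O σ)} {r : ℕ} {h : Fin r → O σ}

theorem loc_mul_notMem [I.IsPrime] {s t : O σ} (hs : s ∉ I) (ht : t ∉ I) : s * t ∉ I := by
  intro hst
  rcases Ideal.IsPrime.mem_or_mem ‹I.IsPrime› hst with h1 | h1
  · exact hs h1
  · exact ht h1

theorem loc_one_notMem [I.IsPrime] : (1 : O σ) ∉ I :=
  fun h1 => Ideal.IsPrime.ne_top ‹I.IsPrime› ((Ideal.eq_top_iff_one I).2 h1)

theorem loc_pow_notMem [I.IsPrime] {s : O σ} (hs : s ∉ I) (n : ℕ) : s ^ n ∉ I :=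
  fun h1 => hs (Ideal.IsPrime.mem_of_pow_mem ‹I.IsPrime› n h1)

theorem loc_ne_zero {s : O σ} (hs : s ∉ I) : s ≠ 0 := by
  rintro rfl
  exact hs I.zero_mem

theorem locRing_add [I.IsPrime] {f g : K σ} (hf : f ∈ locRing I) (hg : g ∈ locRing I) :
    f + g ∈ locRing I := by
  obtain ⟨s, hs, a, ha⟩ := hf
  obtain ⟨t, ht, b, hb⟩ := hg
  refine ⟨s * t, loc_mul_notMem hs ht, a * t + b * s, ?_⟩
  rw [map_mul, map_add, map_mul, map_mul]
  linear_combination (ι t : K σ) * ha + (ι s : K σ) * hb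

theorem locRing_mul [I.IsPrime] {f g : K σ} (hf : f ∈ locRing I) (hg : g ∈ locRing I) :
    f * g ∈ locRing I := by
  obtain ⟨s, hs, a, ha⟩ := hf
  obtain ⟨t, ht, b, hb⟩ := hg
  refine ⟨s * t, loc_mul_notMem hs ht, a * b, ?_⟩
  rw [map_mul, map_mul, ← ha, ← hb]
  ring

theorem ι_mem_locRing [I.IsPrime] (f : O σ) : (ι f : K σ) ∈ locRing I :=
  ⟨1, loc_one_notMem, f, by rw [map_one, one_mul]⟩

theorem inv_mem_locRing [I.IsPrime] {s : O σ} (hs : s ∉ I) : (ι s : K σ)⁻¹ ∈ locRing I := by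
  refine ⟨s, hs, 1, ?_⟩
  rw [map_one, mul_inv_cancel₀ (ι_ne_zero (loc_ne_zero hs))]

/-- the local ring, as a subring of the function field -/
def locSub (I : Ideal (O σ)) [I.IsPrime] : Subring (K σ) where
  carrier := locRing I
  mul_mem' := locRing_mul
  one_mem' := by simpa using ι_mem_locRing (I := I) (1 : O σ)
  add_mem' := locRing_add
  zero_mem' := by simpa using ι_mem_locRing (I := I) (0 : O σ)
  neg_mem' := by
    intro f hf
    have := locRing_mul (ι_mem_locRing (I := I) (-1 : O σ)) hf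
    simpa using this

theorem mem_locSub [I.IsPrime] {f : K σ} : f ∈ locSub I ↔ f ∈ locRing I := Iff.rfl

theorem pd_mem_locRing [I.IsPrime] (i : σ) {f : K σ} (hf : f ∈ locRing I) :
    pd i f ∈ locRing I := by
  obtain ⟨s, hs, g, hg⟩ := hf
  refine ⟨s * s, loc_mul_notMem hs hs, s * pderiv i g - pderiv i s * g, ?_⟩
  have h1 := congrArg (pd i) hg
  rw [pd_mul, pd_ι, pd_ι] at h1
  rw [map_mul, map_sub, map_mul, map_mul, ← hg]
  linear_combination (ι s : K σ) * h1

/-- `locN` is stable under multiplication with the local ring -/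
theorem locN_mul [I.IsPrime] {c f : K σ} (hc : c ∈ locRing I) (hf : f ∈ locN I h) :
    c * f ∈ locN I h := by
  induction hf using Submodule.span_induction with
  | mem x hx =>
    obtain ⟨i, s, hs, n, g, hg⟩ := hx
    obtain ⟨t, ht, b, hb⟩ := hc
    refine Submodule.subset_span ⟨i, t * s, loc_mul_notMem ht hs, n, b * g, ?_⟩
    have e : (ι (t * s * (∏ j ∈ Finset.univ.erase i, h j) ^ n) : K σ) =
        ι t * ι (s * (∏ j ∈ Finset.univ.erase i, h j) ^ n) := by rw [mul_assoc, map_mul]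
    rw [e, map_mul ι b g, ← hg, ← hb]
    ring
  | zero => rw [mul_zero]; exact Submodule.zero_mem _
  | add x y _ _ hx hy => rw [mul_add]; exact Submodule.add_mem _ hx hy
  | smul a x _ hx => rw [mul_smul_comm]; exact Submodule.smul_mem _ a hx

theorem locT_mul [I.IsPrime] {c f : K σ} (hc : c ∈ locRing I) (hf : f ∈ locT I h) :
    c * f ∈ locT I h := by
  induction hf using Submodule.span_induction with
  | mem x hx =>
    obtain ⟨s, hs, n, g, hg⟩ := hx
    obtain ⟨t, ht, b, hb⟩ := hc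
    refine Submodule.subset_span ⟨t * s, loc_mul_notMem ht hs, n, b * g, ?_⟩
    have e : (ι (t * s * (∏ j, h j) ^ n) : K σ) = ι t * ι (s * (∏ j, h j) ^ n) := by
      rw [mul_assoc, map_mul]
    rw [e, map_mul ι b g, ← hg, ← hb]
    ring
  | zero => rw [mul_zero]; exact Submodule.zero_mem _
  | add x y _ _ hx hy => rw [mul_add]; exact Submodule.add_mem _ hx hy
  | smul a x _ hx => rw [mul_smul_comm]; exact Submodule.smul_mem _ a hx

theorem IsParam.ne_zero [I.IsPrime] (hp : IsParam I h) (j : Fin r) : h j ≠ 0 := by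
  obtain ⟨-, -, c, hc⟩ := hp
  intro hj
  apply hc
  rw [Matrix.det_eq_zero_of_column_eq_zero j]
  · exact I.zero_mem
  · intro i
    rw [Matrix.of_apply, hj, map_zero]

/-- derivative of a fraction -/
theorem loc_pd_frac (i : σ) {D g : O σ} {f : K σ} (hf : ι D * f = ι g) :
    ι (D ^ 2) * pd i f = ι (D * pderiv i g - pderiv i D * g) := by
  have h1 := congrArg (pd i) hf
  rw [pd_mul, pd_ι, pd_ι] at h1
  rw [map_pow, map_sub, map_mul, map_mul, ← hf]
  linear_combination (ι D : K σ) * h1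

theorem locN_dstable [I.IsPrime] (hp : IsParam I h) : DStable (locN I h) := by
  have _ := hp
  intro k f hf
  induction hf using Submodule.span_induction with
  | mem x hx =>
    obtain ⟨i, s, hs, n, g, hg⟩ := hx
    have h1 := loc_pd_frac k hg
    refine Submodule.subset_span ⟨i, s ^ 2, loc_pow_notMem hs 2, n * 2,
      s * (∏ j ∈ Finset.univ.erase i, h j) ^ n * pderiv k g -
        pderiv k (s * (∏ j ∈ Finset.univ.erase i, h j) ^ n) * g, ?_⟩
    rw [← h1, mul_pow, ← pow_mul]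
  | zero => rw [pd_zero]; exact Submodule.zero_mem _
  | add x y _ _ hx hy => rw [pd_add]; exact Submodule.add_mem _ hx hy
  | smul a x hx' hx =>
    rw [pd_smul]
    exact Submodule.add_mem _ (Submodule.smul_mem _ a hx) (Submodule.smul_mem _ _ hx')

theorem locT_dstable [I.IsPrime] (hp : IsParam I h) : DStable (locT I h) := by
  have _ := hp
  intro k f hf
  induction hf using Submodule.span_induction with
  | mem x hx =>
    obtain ⟨s, hs, n, g, hg⟩ := hx
    have h1 := loc_pd_frac k hg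
    refine Submodule.subset_span ⟨s ^ 2, loc_pow_notMem hs 2, n * 2,
      s * (∏ j, h j) ^ n * pderiv k g - pderiv k (s * (∏ j, h j) ^ n) * g, ?_⟩
    rw [← h1, mul_pow, ← pow_mul]
  | zero => rw [pd_zero]; exact Submodule.zero_mem _
  | add x y _ _ hx hy => rw [pd_add]; exact Submodule.add_mem _ hx hy
  | smul a x hx' hx =>
    rw [pd_smul]
    exact Submodule.add_mem _ (Submodule.smul_mem _ a hx) (Submodule.smul_mem _ _ hx')

theorem locN_le_locT [I.IsPrime] (hp : IsParam I h) : locN I h ≤ locT I h := by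
  have _ := hp
  refine Submodule.span_le.2 ?_
  rintro f ⟨i, s, hs, n, g, hg⟩
  refine Submodule.subset_span ⟨s, hs, n, h i ^ n * g, ?_⟩
  have e : s * (∏ j, h j) ^ n = h i ^ n * (s * (∏ j ∈ Finset.univ.erase i, h j) ^ n) := by
    rw [← Finset.mul_prod_erase Finset.univ h (Finset.mem_univ i), mul_pow]
    ring
  rw [e, map_mul, map_mul ι (h i ^ n) g, ← hg]
  ring

theorem gen_mem [I.IsPrime] (hp : IsParam I h) {c : K σ} (hc : c ∈ locRing I) :
    c * (ι (∏ j, h j))⁻¹ ∈ locT I h := by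
  obtain ⟨s, hs, g, hg⟩ := hc
  have hH : (ι (∏ j, h j) : K σ) ≠ 0 :=
    ι_ne_zero (Finset.prod_ne_zero_iff.2 fun j _ => hp.ne_zero j)
  refine Submodule.subset_span ⟨s, hs, 1, g, ?_⟩
  rw [pow_one, map_mul, ← hg]
  field_simp

/-- the `i`-th generating set -/
theorem loc_mem_locN (hne : ∀ j, h j ≠ 0) (i : Fin r) {c : K σ} (hc : c ∈ locRing I) (n : ℕ) :
    c * (ι (∏ j ∈ Finset.univ.erase i, h j) ^ n)⁻¹ ∈ locN I h := by
  obtain ⟨s, hs, g, hg⟩ := hc
  have hH : (ι (∏ j ∈ Finset.univ.erase i, h j) : K σ) ≠ 0 :=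
    ι_ne_zero (Finset.prod_ne_zero_iff.2 fun j _ => hne j)
  refine Submodule.subset_span ⟨i, s, hs, n, g, ?_⟩
  rw [map_mul, ← hg, map_pow]
  field_simp

theorem loc_prod_erase (i : Fin r) :
    (ι (∏ j, h j) : K σ) = ι (h i) * ι (∏ j ∈ Finset.univ.erase i, h j) := by
  rw [← map_mul, Finset.mul_prod_erase Finset.univ h (Finset.mem_univ i)]

theorem ideal_mul_gen [I.IsPrime] (hp : IsParam I h) {f : O σ} (hf : f ∈ I) :
    ι f * (ι (∏ j, h j))⁻¹ ∈ locN I h := by
  obtain ⟨s, hs, hsf⟩ := hp.2.1 f hf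
  obtain ⟨c, hc⟩ := (Ideal.mem_span_range_iff_exists_fun).1 hsf
  have hs0 : (ι s : K σ) ≠ 0 := ι_ne_zero (loc_ne_zero hs)
  have h1 : (ι f * (ι (∏ j, h j))⁻¹ : K σ) =
      ∑ i, (ι s)⁻¹ * ι (c i) * (ι (∏ j ∈ Finset.univ.erase i, h j) ^ 1)⁻¹ := by
    have h2 : (ι f : K σ) = ∑ i, (ι s)⁻¹ * ι (c i) * ι (h i) := by
      have h3 : (ι s * ι f : K σ) = ∑ i, ι (c i) * ι (h i) := by
        rw [← map_mul, ← hc, map_sum]
        exact Finset.sum_congr rfl fun i _ => map_mul _ _ _
      have h4 : (ι f : K σ) = (ι s)⁻¹ * (ι s * ι f) := by field_simp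
      rw [h4, h3, Finset.mul_sum]
      exact Finset.sum_congr rfl fun i _ => by ring
    rw [h2, Finset.sum_mul]
    refine Finset.sum_congr rfl fun i _ => ?_
    have hi : (ι (h i) : K σ) ≠ 0 := ι_ne_zero (hp.ne_zero i)
    have hHi : (ι (∏ j ∈ Finset.univ.erase i, h j) : K σ) ≠ 0 :=
      ι_ne_zero (Finset.prod_ne_zero_iff.2 fun j _ => hp.ne_zero j)
    rw [loc_prod_erase i, pow_one, mul_inv]
    field_simp
  rw [h1]
  refine Submodule.sum_mem _ fun i _ => ?_
  exact loc_mem_locN hp.ne_zero i (locRing_mul (inv_mem_locRing hs) (ι_mem_locRing _)) 1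

/-- the maximal ideal of the local ring -/
def locMax (I : Ideal (O σ)) : Set (K σ) := {f | ∃ s, s ∉ I ∧ ∃ g ∈ I, ι s * f = ι g}

theorem locMax_mul_gen [I.IsPrime] (hp : IsParam I h) {f : K σ} (hf : f ∈ locMax I) :
    f * (ι (∏ j, h j))⁻¹ ∈ locN I h := by
  obtain ⟨s, hs, g, hg, hfg⟩ := hf
  have hs0 : (ι s : K σ) ≠ 0 := ι_ne_zero (loc_ne_zero hs)
  have h1 : f * (ι (∏ j, h j))⁻¹ = (ι s)⁻¹ * (ι g * (ι (∏ j, h j))⁻¹) := by
    rw [← hfg]
    field_simp
  rw [h1]
  exact locN_mul (inv_mem_locRing hs) (ideal_mul_gen hp hg)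

theorem locMax_add [I.IsPrime] {f g : K σ} (hf : f ∈ locMax I) (hg : g ∈ locMax I) :
    f + g ∈ locMax I := by
  obtain ⟨s, hs, a, ha, hfa⟩ := hf
  obtain ⟨t, ht, b, hb, hgb⟩ := hg
  refine ⟨s * t, loc_mul_notMem hs ht, a * t + b * s,
    I.add_mem (I.mul_mem_right _ ha) (I.mul_mem_right _ hb), ?_⟩
  rw [map_mul, map_add, map_mul, map_mul]
  linear_combination (ι t : K σ) * hfa + (ι s : K σ) * hgb

theorem locMax_mul [I.IsPrime] {c f : K σ} (hc : c ∈ locRing I) (hf : f ∈ locMax I) :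
    c * f ∈ locMax I := by
  obtain ⟨s, hs, a, ha⟩ := hc
  obtain ⟨t, ht, b, hb, hfb⟩ := hf
  refine ⟨s * t, loc_mul_notMem hs ht, a * b, I.mul_mem_left _ hb, ?_⟩
  rw [map_mul, map_mul, ← ha, ← hfb]
  ring

theorem locMax_sum [I.IsPrime] {α : Type*} (s : Finset α) (f : α → K σ)
    (hf : ∀ a ∈ s, f a ∈ locMax I) : ∑ a ∈ s, f a ∈ locMax I := by
  classical
  induction s using Finset.induction_on with
  | empty => exact ⟨1, loc_one_notMem, 0, I.zero_mem, by simp⟩
  | insert a s ha ih =>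
    rw [Finset.sum_insert ha]
    exact locMax_add (hf a (Finset.mem_insert_self _ _))
      (ih fun b hb => hf b (Finset.mem_insert_of_mem hb))

/-- The derivations of the function field dual to the parameters. -/
theorem exists_dual [I.IsPrime] (hp : IsParam I h) :
    ∃ δ : Fin r → Derivation ℂ (K σ) (K σ),
      (∀ i j, δ i (ι (h j)) = if i = j then 1 else 0) ∧
      (∀ i, ∀ f ∈ locRing I, δ i f ∈ locRing I) ∧
      (∀ i, ∀ f ∈ locN I h, δ i f ∈ locN I h) := by
  classical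
  obtain ⟨c, hc⟩ := hp.2.2
  set J : Matrix (Fin r) (Fin r) (O σ) := Matrix.of fun i j => pderiv (c i) (h j) with hJ
  set M : Matrix (Fin r) (Fin r) (K σ) := J.map ι with hM
  have hdet : M.det = ι J.det := ((ι : O σ →+* K σ).map_det J).symm
  have hdet0 : M.det ≠ 0 := by
    rw [hdet]
    exact ι_ne_zero (loc_ne_zero hc)
  have hunit : IsUnit M.det := isUnit_iff_ne_zero.2 hdet0
  have hinv : ∀ i k, M⁻¹ i k ∈ locRing I := by
    intro i k
    rw [Matrix.inv_def, Matrix.smul_apply, smul_eq_mul, Ring.inverse_eq_inv', hdet]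
    refine locRing_mul (inv_mem_locRing hc) ?_
    have h1 : M.adjugate = J.adjugate.map ι := ((ι : O σ →+* K σ).map_adjugate J).symm
    rw [h1, Matrix.map_apply]
    exact ι_mem_locRing _
  have happ : ∀ i (f : K σ), (∑ k, M⁻¹ i k • pdD (c k) : Derivation ℂ (K σ) (K σ)) f =
      ∑ k, M⁻¹ i k * pd (c k) f := by
    intro i f
    have h1 := map_sum (Derivation.coeFnAddMonoidHom (R := ℂ) (A := K σ) (M := K σ))
      (fun k => M⁻¹ i k • pdD (c k)) Finset.univ
    have h2 := congrFun h1 f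
    rw [Finset.sum_apply] at h2
    exact h2
  refine ⟨fun i => ∑ k, M⁻¹ i k • pdD (c k), ?_, ?_, ?_⟩
  · intro i j
    rw [happ]
    have h1 : ∑ k, M⁻¹ i k * pd (c k) (ι (h j)) = (M⁻¹ * M) i j := by
      rw [Matrix.mul_apply]
      refine Finset.sum_congr rfl fun k _ => ?_
      rw [pd_ι]
      rfl
    rw [h1, Matrix.nonsing_inv_mul M hunit, Matrix.one_apply]
  · intro i f hf
    rw [happ]
    exact (locSub I).sum_mem fun k _ => locRing_mul (hinv i k) (pd_mem_locRing _ hf)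
  · intro i f hf
    rw [happ]
    exact Submodule.sum_mem _ fun k _ => locN_mul (hinv i k) (locN_dstable hp _ _ hf)

/-- Laurent monomials in the parameters -/
def hpw (h : Fin r → O σ) (m : Fin r → ℤ) : K σ := ∏ i, (ι (h i) : K σ) ^ (m i)

theorem hpw_split (k : Fin r) (m : Fin r → ℤ) :
    hpw h m = (ι (h k) : K σ) ^ (m k) * ∏ i ∈ Finset.univ.erase k, (ι (h i) : K σ) ^ (m i) :=
  (Finset.mul_prod_erase Finset.univ (fun i => (ι (h i) : K σ) ^ (m i)) (Finset.mem_univ k)).symm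

theorem hpw_pred (hne : ∀ j, h j ≠ 0) (k : Fin r) (m m' : Fin r → ℤ) (hk : m' k = m k - 1)
    (hm : ∀ i, i ≠ k → m' i = m i) : hpw h m' = (ι (h k))⁻¹ * hpw h m := by
  rw [hpw_split k m, hpw_split k m', hk, zpow_sub_one₀ (ι_ne_zero (hne k))]
  have e : ∏ i ∈ Finset.univ.erase k, (ι (h i) : K σ) ^ (m' i) =
      ∏ i ∈ Finset.univ.erase k, (ι (h i) : K σ) ^ (m i) :=
    Finset.prod_congr rfl fun i hi => by rw [hm i (Finset.ne_of_mem_erase hi)]
  rw [e]
  ring

theorem hpw_const (n : ℤ) : hpw h (fun _ => n) = (ι (∏ j, h j) : K σ) ^ n := by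
  rw [hpw, Finset.prod_zpow, map_prod]

theorem der_prod (hne : ∀ j, h j ≠ 0) (δ : Fin r → Derivation ℂ (K σ) (K σ))
    (hδ : ∀ i j, δ i (ι (h j)) = if i = j then 1 else 0) (k : Fin r) (m : Fin r → ℤ)
    (S : Finset (Fin r)) :
    δ k (∏ i ∈ S, (ι (h i) : K σ) ^ (m i)) =
      (if k ∈ S then (m k : K σ) * (ι (h k))⁻¹ else 0) * ∏ i ∈ S, (ι (h i) : K σ) ^ (m i) := by
  classical
  induction S using Finset.induction_on with
  | empty => simp
  | insert a S ha ih =>
    rw [Finset.prod_insert ha, Derivation.leibniz, ih, Derivation.leibniz_zpow, hδ]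
    simp only [smul_eq_mul, zsmul_eq_mul]
    have ha0 : (ι (h a) : K σ) ≠ 0 := ι_ne_zero (hne a)
    by_cases hka : k = a
    · subst hka
      rw [if_neg ha, if_pos rfl, if_pos (Finset.mem_insert_self _ _), zpow_sub_one₀ ha0]
      ring
    · rw [if_neg hka]
      by_cases hkS : k ∈ S
      · rw [if_pos hkS, if_pos (Finset.mem_insert_of_mem hkS)]
        ring
      · rw [if_neg hkS, if_neg (by
          rw [Finset.mem_insert]
          rintro (h1 | h1)
          · exact hka h1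
          · exact hkS h1)]
        ring

theorem der_hpw (hne : ∀ j, h j ≠ 0) (δ : Fin r → Derivation ℂ (K σ) (K σ))
    (hδ : ∀ i j, δ i (ι (h j)) = if i = j then 1 else 0) (k : Fin r) (m : Fin r → ℤ) :
    δ k (hpw h m) = (m k : K σ) * (ι (h k))⁻¹ * hpw h m := by
  rw [hpw, der_prod hne δ hδ, if_pos (Finset.mem_univ k)]

theorem natInv_mem_locRing [I.IsPrime] (n : ℕ) : ((n : K σ))⁻¹ ∈ locRing I := by
  have h1 : ((n : K σ))⁻¹ = ι (C ((n : ℂ)⁻¹)) := by
    have h2 : ∀ z : ℂ, (ι (C z) : K σ) = algebraMap ℂ (K σ) z := fun z => by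
      rw [IsScalarTower.algebraMap_apply ℂ (O σ) (K σ)]
      rfl
    rw [h2, map_inv₀, map_natCast]
  rw [h1]
  exact ι_mem_locRing _

instance charZeroK : CharZero (K σ) := charZero_of_injective_algebraMap (algebraMap ℂ (K σ)).injective

/-- the monomial property of the parameters -/
theorem monomial_property [I.IsPrime] (hp : IsParam I h) (n : ℕ) :
    ∀ ν : Fin r → ℕ, ∑ i, ν i = n → ∀ a ∈ locRing I, ∀ c : Fin r → K σ,
      (∀ i, c i ∈ locRing I) →
      a * hpw h (fun i => (ν i : ℤ)) = ∑ i, c i * (ι (h i) : K σ) ^ (ν i + 1) →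
      a ∈ locMax I := by
  classical
  obtain ⟨δ, hδ, hδR, -⟩ := exists_dual hp
  have hne := hp.ne_zero
  induction n with
  | zero =>
    intro ν hν a _ c hc hac
    have hν0 : ∀ i, ν i = 0 := fun i =>
      (Finset.sum_eq_zero_iff.1 hν) i (Finset.mem_univ i)
    have h1 : hpw h (fun i => (ν i : ℤ)) = 1 := by
      rw [hpw]
      exact Finset.prod_eq_one fun i _ => by rw [hν0 i]; simp
    rw [h1, mul_one] at hac
    rw [hac]
    refine locMax_sum _ _ fun i _ => ?_
    refine locMax_mul (hc i) ?_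
    rw [hν0 i, zero_add, pow_one]
    exact ⟨1, loc_one_notMem, h i, hp.1 i, by rw [map_one, one_mul]⟩
  | succ n ih =>
    intro ν hν a ha c hc hac
    obtain ⟨k, hk⟩ : ∃ k, ν k ≠ 0 := by
      by_contra hcon
      push Not at hcon
      rw [Finset.sum_eq_zero (fun i _ => hcon i)] at hν
      omega
    obtain ⟨b, hb⟩ : ∃ b, ν k = b + 1 := ⟨ν k - 1, by omega⟩
    let ν' : Fin r → ℕ := Function.update ν k b
    have hν'k : ν' k = b := Function.update_self k b ν
    have hν'i : ∀ i, i ≠ k → ν' i = ν i := fun i hi => Function.update_of_ne hi b ν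
    have hk0 : (ι (h k) : K σ) ≠ 0 := ι_ne_zero (hne k)
    have hbK : ((b : K σ) + 1) ≠ 0 := by exact_mod_cast Nat.succ_ne_zero b
    set P : K σ := ∏ i ∈ Finset.univ.erase k, (ι (h i) : K σ) ^ (ν i) with hP
    have hPR : P ∈ locRing I :=
      (locSub I).prod_mem fun i _ => (locSub I).pow_mem (ι_mem_locRing (h i)) _
    have hsplit : hpw h (fun i => (ν i : ℤ)) = (ι (h k) : K σ) ^ (b + 1) * P := by
      rw [hpw_split k]
      simp only [zpow_natCast]
      rw [hb, hP]
    have hpred : hpw h (fun i => (ν' i : ℤ)) = (ι (h k) : K σ) ^ b * P := by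
      rw [hpw_pred hne k (fun i => (ν i : ℤ)) (fun i => (ν' i : ℤ))
        (by rw [hν'k, hb]; push_cast; ring)
        (fun i hi => by rw [hν'i i hi]), hsplit, pow_succ]
      field_simp
    -- differentiate
    have hder := congrArg (δ k) hac
    rw [Derivation.leibniz, der_hpw hne δ hδ, map_sum, hsplit] at hder
    have hterm : ∀ i, δ k (c i * (ι (h i) : K σ) ^ (ν i + 1)) =
        δ k (c i) * (ι (h i) : K σ) ^ (ν i + 1) +
          (if i = k then c k * ((b : K σ) + 1 + 1) * (ι (h k)) ^ (b + 1) else 0) := by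
      intro i
      rw [Derivation.leibniz, Derivation.leibniz_pow, hδ]
      by_cases hik : i = k
      · subst hik
        rw [if_pos rfl, if_pos rfl, hb]
        simp only [smul_eq_mul, nsmul_eq_mul, Nat.add_sub_cancel]
        push_cast
        ring
      · rw [if_neg (fun h1 => hik h1.symm), if_neg hik]
        simp only [smul_eq_mul, nsmul_eq_mul]
        ring
    rw [Finset.sum_congr rfl fun i _ => hterm i, Finset.sum_add_distrib,
      Finset.sum_ite_eq' Finset.univ k, if_pos (Finset.mem_univ k)] at hder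
    rw [← Finset.add_sum_erase Finset.univ _ (Finset.mem_univ k)] at hder
    have hbi : ((((ν k : ℕ) : ℤ)) : K σ) = (b : K σ) + 1 := by
      rw [hb]; push_cast; ring
    simp only [smul_eq_mul] at hder
    rw [hbi, hb] at hder
    -- the new coefficients
    have hinvR : ((b : K σ) + 1)⁻¹ ∈ locRing I := by
      have := natInv_mem_locRing (I := I) (b + 1)
      push_cast at this
      exact this
    have hb2R : ((b : K σ) + 1 + 1) ∈ locRing I := by
      have h1 := natCast_mem (locSub I) (b + 2)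
      have h2 : ((b + 2 : ℕ) : K σ) = (b : K σ) + 1 + 1 := by push_cast; ring
      rw [h2] at h1
      exact h1
    let c' : Fin r → K σ := fun i => if i = k then
        ((b : K σ) + 1)⁻¹ * (((b : K σ) + 1 + 1) * c k + δ k (c k) * ι (h k) - δ k a * P)
      else ((b : K σ) + 1)⁻¹ * δ k (c i)
    refine ih ν' ?_ a ha c' ?_ ?_
    · have h1 : ∑ i, ν i = ν k + ∑ i ∈ Finset.univ.erase k, ν i :=
        (Finset.add_sum_erase Finset.univ ν (Finset.mem_univ k)).symm
      have h2 : ∑ i, ν' i = ν' k + ∑ i ∈ Finset.univ.erase k, ν' i :=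
        (Finset.add_sum_erase Finset.univ ν' (Finset.mem_univ k)).symm
      have h3 : ∑ i ∈ Finset.univ.erase k, ν' i = ∑ i ∈ Finset.univ.erase k, ν i :=
        Finset.sum_congr rfl fun i hi => hν'i i (Finset.ne_of_mem_erase hi)
      rw [h2, h3, hν'k]
      rw [h1, hb] at hν
      omega
    · intro i
      by_cases hik : i = k
      · simp only [c', if_pos hik]
        refine locRing_mul hinvR ?_
        exact (locSub I).sub_mem ((locSub I).add_mem (locRing_mul hb2R (hc k))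
          (locRing_mul (hδR k _ (hc k)) (ι_mem_locRing _))) (locRing_mul (hδR k _ ha) hPR)
      · simp only [c', if_neg hik]
        exact locRing_mul hinvR (hδR k _ (hc i))
    · rw [hpred, ← Finset.add_sum_erase Finset.univ _ (Finset.mem_univ k)]
      have h1 : ∑ i ∈ Finset.univ.erase k, c' i * (ι (h i) : K σ) ^ (ν' i + 1) =
          ((b : K σ) + 1)⁻¹ * ∑ i ∈ Finset.univ.erase k, δ k (c i) * (ι (h i) : K σ) ^ (ν i + 1) := by
        rw [Finset.mul_sum]
        refine Finset.sum_congr rfl fun i hi => ?_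
        have hik := Finset.ne_of_mem_erase hi
        simp only [c', if_neg hik]
        rw [hν'i i hik]
        ring
      have hc'k : c' k = ((b : K σ) + 1)⁻¹ * (((b : K σ) + 1 + 1) * c k +
          δ k (c k) * ι (h k) - δ k a * P) := if_pos rfl
      rw [h1, hc'k, hν'k]
      have h2 : (ι (h k) : K σ)⁻¹ * ι (h k) ^ (b + 1) = ι (h k) ^ b := by
        rw [pow_succ]
        field_simp
      have h3 : a * ((b : K σ) + 1) * (ι (h k) ^ b * P) = -(ι (h k) ^ (b + 1) * P * δ k a) +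
          (δ k (c k) * ι (h k) ^ (b + 1 + 1) +
            ∑ x ∈ Finset.univ.erase k, δ k (c x) * (ι (h x) : K σ) ^ (ν x + 1) +
          c k * ((b : K σ) + 1 + 1) * ι (h k) ^ (b + 1)) := by
        rw [← hder, ← h2]
        ring
      field_simp
      linear_combination h3

/-- elements of `locN` as sums -/
theorem exists_of_mem_locN [I.IsPrime] (hne : ∀ j, h j ≠ 0) {f : K σ} (hf : f ∈ locN I h) :
    ∃ n : ℕ, ∃ c : Fin r → K σ, (∀ i, c i ∈ locRing I) ∧
      f = ∑ i, c i * ((ι (∏ j ∈ Finset.univ.erase i, h j) : K σ) ^ n)⁻¹ := by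
  classical
  have hHi : ∀ i, (ι (∏ j ∈ Finset.univ.erase i, h j) : K σ) ≠ 0 := fun i =>
    ι_ne_zero (Finset.prod_ne_zero_iff.2 fun j _ => hne j)
  induction hf using Submodule.span_induction with
  | mem x hx =>
    obtain ⟨i, s, hs, n, g, hg⟩ := hx
    have hs0 : (ι s : K σ) ≠ 0 := ι_ne_zero (loc_ne_zero hs)
    refine ⟨n, fun j => if j = i then ι g * (ι s)⁻¹ else 0, ?_, ?_⟩
    · intro j
      beta_reduce
      split_ifs
      · exact locRing_mul (ι_mem_locRing g) (inv_mem_locRing hs)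
      · exact (locSub I).zero_mem
    · rw [Finset.sum_eq_single i]
      · beta_reduce
        rw [if_pos rfl, ← hg, map_mul, map_pow]
        have := hHi i
        field_simp
      · intro j _ hji
        beta_reduce
        rw [if_neg hji, zero_mul]
      · intro h1
        exact absurd (Finset.mem_univ i) h1
  | zero =>
    exact ⟨0, fun _ => 0, fun _ => (locSub I).zero_mem, by simp⟩
  | add x y _ _ hx hy =>
    obtain ⟨n, c, hc, hx⟩ := hx
    obtain ⟨m, d, hd, hy⟩ := hy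
    refine ⟨n + m, fun i => c i * ι (∏ j ∈ Finset.univ.erase i, h j) ^ m +
      d i * ι (∏ j ∈ Finset.univ.erase i, h j) ^ n, ?_, ?_⟩
    · intro i
      exact locRing_add (locRing_mul (hc i) ((locSub I).pow_mem (ι_mem_locRing _) _))
        (locRing_mul (hd i) ((locSub I).pow_mem (ι_mem_locRing _) _))
    · rw [hx, hy, ← Finset.sum_add_distrib]
      refine Finset.sum_congr rfl fun i _ => ?_
      have := hHi i
      rw [pow_add]
      field_simp
  | smul a x _ hx =>
    obtain ⟨n, c, hc, hx⟩ := hx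
    refine ⟨n, fun i => ι a * c i, fun i => locRing_mul (ι_mem_locRing a) (hc i), ?_⟩
    rw [hx, Algebra.smul_def, Finset.mul_sum]
    exact Finset.sum_congr rfl fun i _ => by ring

theorem gen_notMem [I.IsPrime] (hp : IsParam I h) {a : O σ} (ha : a ∉ I) :
    ι a * (ι (∏ j, h j))⁻¹ ∉ locN I h := by
  intro hmem
  have hne := hp.ne_zero
  obtain ⟨n, c, hc, hac⟩ := exists_of_mem_locN hne hmem
  have hH : (ι (∏ j, h j) : K σ) ≠ 0 := ι_ne_zero (Finset.prod_ne_zero_iff.2 fun j _ => hne j)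
  have key : (ι a : K σ) ∈ locMax I := by
    refine monomial_property hp (∑ _i : Fin r, n) (fun _ => n) rfl (ι a) (ι_mem_locRing a)
      (fun i => c i * ι (∏ j ∈ Finset.univ.erase i, h j))
      (fun i => locRing_mul (hc i) (ι_mem_locRing _)) ?_
    rw [hpw_const, zpow_natCast]
    have h1 : (ι a * ι (∏ j, h j) ^ n : K σ) =
        (ι a * (ι (∏ j, h j))⁻¹) * ι (∏ j, h j) ^ (n + 1) := by
      rw [pow_succ]
      field_simp
    rw [h1, hac, Finset.sum_mul]
    refine Finset.sum_congr rfl fun i _ => ?_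
    have hHi : (ι (∏ j ∈ Finset.univ.erase i, h j) : K σ) ≠ 0 :=
      ι_ne_zero (Finset.prod_ne_zero_iff.2 fun j _ => hne j)
    rw [loc_prod_erase i, mul_pow, pow_succ (ι (∏ j ∈ Finset.univ.erase i, h j) : K σ)]
    field_simp
  obtain ⟨s, hs, g, hg, hsg⟩ := key
  rw [← map_mul] at hsg
  exact loc_mul_notMem hs ha (ι_injective hsg ▸ hg)

theorem exists_pow_mul_mem [I.IsPrime] {x : K σ} (hx : x ∈ locT I h) :
    ∃ n : ℕ, (ι (∏ j, h j) : K σ) ^ n * x ∈ locRing I := by
  induction hx using Submodule.span_induction with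
  | mem x hx =>
    obtain ⟨s, hs, n, g, hg⟩ := hx
    exact ⟨n, s, hs, g, by rw [← hg, map_mul, map_pow]; ring⟩
  | zero => exact ⟨0, by rw [mul_zero]; exact (locSub I).zero_mem⟩
  | add x y _ _ hx hy =>
    obtain ⟨n, hn⟩ := hx
    obtain ⟨m, hm⟩ := hy
    refine ⟨n + m, ?_⟩
    have e : (ι (∏ j, h j) : K σ) ^ (n + m) * (x + y) =
        ι (∏ j, h j) ^ m * (ι (∏ j, h j) ^ n * x) + ι (∏ j, h j) ^ n * (ι (∏ j, h j) ^ m * y) := by
      ring
    rw [e]
    exact locRing_add (locRing_mul ((locSub I).pow_mem (ι_mem_locRing _) _) hn)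
      (locRing_mul ((locSub I).pow_mem (ι_mem_locRing _) _) hm)
  | smul a x _ hx =>
    obtain ⟨n, hn⟩ := hx
    refine ⟨n, ?_⟩
    rw [Algebra.smul_def]
    have e : (ι (∏ j, h j) : K σ) ^ n * (ι a * x) = ι a * (ι (∏ j, h j) ^ n * x) := by ring
    rw [e]
    exact locRing_mul (ι_mem_locRing a) hn

/-- for every `x ∈ locT` a power of `h_i` maps `x` into `locN` -/
theorem exists_pow_mem_locN [I.IsPrime] (hne : ∀ j, h j ≠ 0) {x : K σ} (hx : x ∈ locT I h)
    (i : Fin r) : ∃ n : ℕ, (ι (h i) : K σ) ^ n * x ∈ locN I h := by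
  obtain ⟨n, hn⟩ := exists_pow_mul_mem hx
  refine ⟨n, ?_⟩
  have hHi : (ι (∏ j ∈ Finset.univ.erase i, h j) : K σ) ≠ 0 :=
    ι_ne_zero (Finset.prod_ne_zero_iff.2 fun j _ => hne j)
  have h1 := loc_mem_locN hne i hn n
  have e : (ι (∏ j, h j) : K σ) ^ n * x * (ι (∏ j ∈ Finset.univ.erase i, h j) ^ n)⁻¹ =
      ι (h i) ^ n * x := by
    rw [loc_prod_erase i, mul_pow]
    field_simp
  rwa [e] at h1

/-- reduction to an element killed by the parameters -/
theorem exists_killed [I.IsPrime] (hne : ∀ j, h j ≠ 0) {x : K σ} (hx : x ∈ locT I h)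
    (hx' : x ∉ locN I h) (S : Finset (Fin r)) :
    ∃ f : O σ, ι f * x ∉ locN I h ∧ ∀ i ∈ S, ι (h i) * (ι f * x) ∈ locN I h := by
  classical
  induction S using Finset.induction_on with
  | empty => exact ⟨1, by rwa [map_one, one_mul], fun i hi => absurd hi (Finset.notMem_empty i)⟩
  | insert i S hi ih =>
    obtain ⟨f, hf, hfS⟩ := ih
    have hfT : ι f * x ∈ locT I h := locT_mul (ι_mem_locRing f) hx
    have hex := exists_pow_mem_locN hne hfT i
    set m := Nat.find hex with hm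
    have hm1 : (ι (h i) : K σ) ^ m * (ι f * x) ∈ locN I h := Nat.find_spec hex
    have hm0 : m ≠ 0 := by
      intro h0
      rw [h0, pow_zero, one_mul] at hm1
      exact hf hm1
    obtain ⟨b, hb⟩ : ∃ b, m = b + 1 := ⟨m - 1, by omega⟩
    have hb1 : (ι (h i) : K σ) ^ b * (ι f * x) ∉ locN I h :=
      Nat.find_min hex (by omega)
    refine ⟨h i ^ b * f, ?_, ?_⟩
    · rw [map_mul, map_pow, mul_assoc]
      exact hb1
    · intro j hj
      rw [map_mul, map_pow]
      rcases Finset.mem_insert.1 hj with rfl | hj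
      · have e : (ι (h j) : K σ) * (ι (h j) ^ b * ι f * x) = ι (h j) ^ m * (ι f * x) := by
          rw [hb, pow_succ]
          ring
        rw [e]
        exact hm1
      · have e : (ι (h j) : K σ) * (ι (h i) ^ b * ι f * x) =
            ι (h i) ^ b * (ι (h j) * (ι f * x)) := by ring
        rw [e]
        exact locN_mul ((locSub I).pow_mem (ι_mem_locRing _) _) (hfS j hj)

/-- the filtration by the order of the pole -/
def locTk (I : Ideal (O σ)) (h : Fin r → O σ) (k : ℕ) : AddSubgroup (K σ) :=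
  AddSubgroup.closure ({x | ∃ c ∈ locRing I, ∃ γ : Fin r → ℕ, ∑ i, γ i ≤ k ∧
    x = c * hpw h (fun i => -(γ i : ℤ) - 1)} ∪ (locN I h : Set (K σ)))

theorem locN_le_locTk (k : ℕ) {x : K σ} (hx : x ∈ locN I h) : x ∈ locTk I h k :=
  AddSubgroup.subset_closure (Or.inr hx)

theorem mem_locTk (k : ℕ) {c : K σ} (hc : c ∈ locRing I) (γ : Fin r → ℕ) (hγ : ∑ i, γ i ≤ k) :
    c * hpw h (fun i => -(γ i : ℤ) - 1) ∈ locTk I h k :=
  AddSubgroup.subset_closure (Or.inl ⟨c, hc, γ, hγ, rfl⟩)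

theorem locTk_mul [I.IsPrime] (k : ℕ) {c x : K σ} (hc : c ∈ locRing I) (hx : x ∈ locTk I h k) :
    c * x ∈ locTk I h k := by
  induction hx using AddSubgroup.closure_induction with
  | mem x hx =>
    rcases hx with ⟨d, hd, γ, hγ, rfl⟩ | hx
    · rw [← mul_assoc]
      exact mem_locTk k (locRing_mul hc hd) γ hγ
    · exact locN_le_locTk k (locN_mul hc hx)
  | zero => rw [mul_zero]; exact AddSubgroup.zero_mem _
  | add x y _ _ hx hy => rw [mul_add]; exact AddSubgroup.add_mem _ hx hy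
  | neg x _ hx => rw [mul_neg]; exact AddSubgroup.neg_mem _ hx

theorem h_mul_hpw_mem [I.IsPrime] (hne : ∀ j, h j ≠ 0) (k : ℕ) {c : K σ} (hc : c ∈ locRing I)
    (γ : Fin r → ℕ) (hγ : ∑ i, γ i ≤ k + 1) (i : Fin r) :
    c * ι (h i) * hpw h (fun i => -(γ i : ℤ) - 1) ∈ locTk I h k := by
  classical
  have hi0 : (ι (h i) : K σ) ≠ 0 := ι_ne_zero (hne i)
  by_cases hγi : γ i = 0
  · apply locN_le_locTk
    rw [mul_assoc]
    apply locN_mul hc
    set N := ∑ i, γ i + 1 with hN
    have hle : ∀ j, γ j + 1 ≤ N := fun j => by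
      have := Finset.single_le_sum (f := γ) (fun _ _ => Nat.zero_le _) (Finset.mem_univ j)
      omega
    refine Submodule.subset_span ⟨i, 1, loc_one_notMem, N,
      ∏ j ∈ Finset.univ.erase i, h j ^ (N - (γ j + 1)), ?_⟩
    rw [one_mul, map_pow, map_prod, map_prod, hpw_split i, hγi, ← Finset.prod_pow]
    have e1 : (ι (h i) : K σ) * (ι (h i) ^ (-((0 : ℕ) : ℤ) - 1) *
        ∏ j ∈ Finset.univ.erase i, (ι (h j) : K σ) ^ (-(γ j : ℤ) - 1)) =
        ∏ j ∈ Finset.univ.erase i, (ι (h j) : K σ) ^ (-(γ j : ℤ) - 1) := by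
      have e2 : (ι (h i) : K σ) ^ (-((0 : ℕ) : ℤ) - 1) = (ι (h i))⁻¹ := by
        rw [Nat.cast_zero, neg_zero, zero_sub, zpow_neg_one]
      rw [e2]
      field_simp
    rw [e1, ← Finset.prod_mul_distrib]
    refine Finset.prod_congr rfl fun j _ => ?_
    have hj0 : (ι (h j) : K σ) ≠ 0 := ι_ne_zero (hne j)
    rw [map_pow, ← zpow_natCast, ← zpow_natCast, ← zpow_add₀ hj0]
    congr 1
    rw [Nat.cast_sub (hle j)]
    push_cast
    ring
  · obtain ⟨b, hb⟩ : ∃ b, γ i = b + 1 := ⟨γ i - 1, by omega⟩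
    let γ' : Fin r → ℕ := Function.update γ i b
    have hγ'i : γ' i = b := Function.update_self i b γ
    have hγ'j : ∀ j, j ≠ i → γ' j = γ j := fun j hj => Function.update_of_ne hj b γ
    have e : ι (h i) * hpw h (fun i => -(γ i : ℤ) - 1) = hpw h (fun i => -(γ' i : ℤ) - 1) := by
      rw [hpw_pred hne i (fun i => -(γ' i : ℤ) - 1) (fun i => -(γ i : ℤ) - 1)
        (by rw [hγ'i, hb]; push_cast; ring) (fun j hj => by rw [hγ'j j hj])]
      field_simp
    rw [mul_assoc, e]
    refine mem_locTk k hc γ' ?_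
    have h1 : ∑ i, γ i = γ i + ∑ j ∈ Finset.univ.erase i, γ j :=
      (Finset.add_sum_erase Finset.univ γ (Finset.mem_univ i)).symm
    have h2 : ∑ i, γ' i = γ' i + ∑ j ∈ Finset.univ.erase i, γ' j :=
      (Finset.add_sum_erase Finset.univ γ' (Finset.mem_univ i)).symm
    have h3 : ∑ j ∈ Finset.univ.erase i, γ' j = ∑ j ∈ Finset.univ.erase i, γ j :=
      Finset.sum_congr rfl fun j hj => hγ'j j (Finset.ne_of_mem_erase hj)
    rw [h2, h3, hγ'i]
    rw [h1, hb] at hγ
    omega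

/-- the Euler operator lowers the order of the pole -/
theorem euler_step [I.IsPrime] (hp : IsParam I h) (δ : Fin r → Derivation ℂ (K σ) (K σ))
    (hδ : ∀ i j, δ i (ι (h j)) = if i = j then 1 else 0)
    (hδR : ∀ i, ∀ f ∈ locRing I, δ i f ∈ locRing I)
    (hδN : ∀ i, ∀ f ∈ locN I h, δ i f ∈ locN I h) (k : ℕ) {y : K σ}
    (hy : y ∈ locTk I h (k + 1)) :
    (∑ i, δ i (ι (h i) * y)) + ((k : K σ) + 1) * y ∈ locTk I h k := by
  have hne := hp.ne_zero
  have hkR : ∀ k : ℕ, ((k : K σ) + 1) ∈ locRing I := fun k => by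
    have h1 := natCast_mem (locSub I) (k + 1)
    push_cast at h1
    exact h1
  induction hy using AddSubgroup.closure_induction with
  | mem x hx =>
    rcases hx with ⟨c, hc, γ, hγ, rfl⟩ | hx
    · set G : K σ := hpw h (fun i => -(γ i : ℤ) - 1) with hG
      have h1 : ∀ i, δ i (ι (h i) * (c * G)) =
          -(γ i : K σ) * (c * G) + δ i c * ι (h i) * G := by
        intro i
        have hi0 : (ι (h i) : K σ) ≠ 0 := ι_ne_zero (hne i)
        rw [Derivation.leibniz, Derivation.leibniz, hδ, if_pos rfl, hG, der_hpw hne δ hδ, ← hG]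
        simp only [smul_eq_mul]
        push_cast
        field_simp
        ring
      rw [Finset.sum_congr rfl fun i _ => h1 i, Finset.sum_add_distrib, ← Finset.sum_mul,
        Finset.sum_neg_distrib]
      have h2 : -(∑ i, (γ i : K σ)) * (c * G) + ∑ i, δ i c * ι (h i) * G +
          ((k : K σ) + 1) * (c * G) =
          ((k + 1 - ∑ i, γ i : ℕ) : K σ) * (c * G) + ∑ i, δ i c * ι (h i) * G := by
        rw [Nat.cast_sub hγ]
        push_cast
        ring
      rw [h2]
      refine AddSubgroup.add_mem _ ?_ (AddSubgroup.sum_mem _ fun i _ =>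
        h_mul_hpw_mem hne k (hδR i c hc) γ hγ i)
      rcases Nat.lt_or_ge (∑ i, γ i) (k + 1) with hlt | hge
      · exact locTk_mul k (natCast_mem (locSub I) _) (mem_locTk k hc γ (by omega))
      · have : k + 1 - ∑ i, γ i = 0 := by omega
        rw [this, Nat.cast_zero, zero_mul]
        exact AddSubgroup.zero_mem _
    · apply locN_le_locTk
      exact Submodule.add_mem _ (Submodule.sum_mem _ fun i _ =>
        hδN i _ (locN_mul (ι_mem_locRing _) hx)) (locN_mul (hkR k) hx)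
  | zero => simp
  | add x y _ _ hx hy =>
    have e : (∑ i, δ i (ι (h i) * (x + y))) + ((k : K σ) + 1) * (x + y) =
        ((∑ i, δ i (ι (h i) * x)) + ((k : K σ) + 1) * x) +
          ((∑ i, δ i (ι (h i) * y)) + ((k : K σ) + 1) * y) := by
      have : ∀ i, δ i (ι (h i) * (x + y)) = δ i (ι (h i) * x) + δ i (ι (h i) * y) := fun i => by
        rw [mul_add, map_add]
      rw [Finset.sum_congr rfl fun i _ => this i, Finset.sum_add_distrib]
      ring
    rw [e]
    exact AddSubgroup.add_mem _ hx hy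
  | neg x _ hx =>
    have e : (∑ i, δ i (ι (h i) * (-x))) + ((k : K σ) + 1) * (-x) =
        -((∑ i, δ i (ι (h i) * x)) + ((k : K σ) + 1) * x) := by
      have : ∀ i, δ i (ι (h i) * (-x)) = -δ i (ι (h i) * x) := fun i => by
        rw [mul_neg, map_neg]
      rw [Finset.sum_congr rfl fun i _ => this i, Finset.sum_neg_distrib]
      ring
    rw [e]
    exact AddSubgroup.neg_mem _ hx

theorem killed_mem_zero [I.IsPrime] (hp : IsParam I h) {y : K σ}
    (hy : ∀ i, ι (h i) * y ∈ locN I h) (k : ℕ) (hk : y ∈ locTk I h k) : y ∈ locTk I h 0 := by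
  obtain ⟨δ, hδ, hδR, hδN⟩ := exists_dual hp
  induction k with
  | zero => exact hk
  | succ k ih =>
    apply ih
    have h1 := euler_step hp δ hδ hδR hδN k hk
    have h2 : ∑ i, δ i (ι (h i) * y) ∈ locTk I h k :=
      AddSubgroup.sum_mem _ fun i _ => locN_le_locTk k (hδN i _ (hy i))
    have h3 : ((k : K σ) + 1) * y ∈ locTk I h k := by
      have h4 := AddSubgroup.sub_mem _ h1 h2
      rwa [add_sub_cancel_left] at h4
    have hk0 : ((k : K σ) + 1) ≠ 0 := by exact_mod_cast Nat.succ_ne_zero k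
    have hinv : ((k : K σ) + 1)⁻¹ ∈ locRing I := by
      have := natInv_mem_locRing (I := I) (k + 1)
      push_cast at this
      exact this
    have h5 := locTk_mul k hinv h3
    rwa [← mul_assoc, inv_mul_cancel₀ hk0, one_mul] at h5

theorem locTk_zero [I.IsPrime] {y : K σ} (hy : y ∈ locTk I h 0) :
    ∃ c ∈ locRing I, y - c * (ι (∏ j, h j))⁻¹ ∈ locN I h := by
  induction hy using AddSubgroup.closure_induction with
  | mem x hx =>
    rcases hx with ⟨c, hc, γ, hγ, rfl⟩ | hx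
    · refine ⟨c, hc, ?_⟩
      have hγ0 : ∀ i, γ i = 0 := fun i =>
        (Finset.sum_eq_zero_iff.1 (Nat.le_zero.1 hγ)) i (Finset.mem_univ i)
      have e : hpw h (fun i => -(γ i : ℤ) - 1) = (ι (∏ j, h j))⁻¹ := by
        have e1 : (fun i => -(γ i : ℤ) - 1) = fun _ : Fin r => (-1 : ℤ) := by
          funext i
          rw [hγ0 i]
          norm_num
        rw [e1, hpw_const, zpow_neg_one]
      rw [e, sub_self]
      exact Submodule.zero_mem _
    · exact ⟨0, (locSub I).zero_mem, by rw [zero_mul, sub_zero]; exact hx⟩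
  | zero => exact ⟨0, (locSub I).zero_mem, by rw [zero_mul, sub_zero]; exact Submodule.zero_mem _⟩
  | add x y _ _ hx hy =>
    obtain ⟨c, hc, hx⟩ := hx
    obtain ⟨d, hd, hy⟩ := hy
    refine ⟨c + d, locRing_add hc hd, ?_⟩
    have e : x + y - (c + d) * (ι (∏ j, h j))⁻¹ =
        (x - c * (ι (∏ j, h j))⁻¹) + (y - d * (ι (∏ j, h j))⁻¹) := by ring
    rw [e]
    exact Submodule.add_mem _ hx hy
  | neg x _ hx =>
    obtain ⟨c, hc, hx⟩ := hx
    refine ⟨-c, (locSub I).neg_mem hc, ?_⟩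
    have e : -x - -c * (ι (∏ j, h j))⁻¹ = -(x - c * (ι (∏ j, h j))⁻¹) := by ring
    rw [e]
    exact Submodule.neg_mem _ hx

theorem exists_mem_locTk [I.IsPrime] (hne : ∀ j, h j ≠ 0) {x : K σ} (hx : x ∈ locT I h) :
    ∃ k, x ∈ locTk I h k := by
  obtain ⟨n, hn⟩ := exists_pow_mul_mem hx
  have hH : (ι (∏ j, h j) : K σ) ≠ 0 := ι_ne_zero (Finset.prod_ne_zero_iff.2 fun j _ => hne j)
  refine ⟨∑ _i : Fin r, n, ?_⟩
  have e : x = (ι (∏ j, h j) ^ n * x * ι (∏ j, h j)) * hpw h (fun _ : Fin r => -(n : ℤ) - 1) := by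
    rw [hpw_const]
    have e2 : (ι (∏ j, h j) : K σ) ^ (-(n : ℤ) - 1) = (ι (∏ j, h j) ^ (n + 1))⁻¹ := by
      rw [← zpow_natCast, ← zpow_neg]
      congr 1
      push_cast
      ring
    rw [e2, pow_succ]
    field_simp
  rw [e]
  exact mem_locTk _ (locRing_mul hn (ι_mem_locRing _)) (fun _ => n) le_rfl

theorem socle [I.IsPrime] (hp : IsParam I h) {x : K σ} (hx : x ∈ locT I h)
    (hx' : x ∉ locN I h) :
    ∃ f a : O σ, a ∉ I ∧ ι f * x - ι a * (ι (∏ j, h j))⁻¹ ∈ locN I h := by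
  have hne := hp.ne_zero
  obtain ⟨f, hf, hkill⟩ := exists_killed hne hx hx' Finset.univ
  have hfT : ι f * x ∈ locT I h := locT_mul (ι_mem_locRing f) hx
  obtain ⟨k, hk⟩ := exists_mem_locTk hne hfT
  obtain ⟨c, ⟨s, hs, g, hg⟩, hc⟩ :=
    locTk_zero (killed_mem_zero hp (fun i => hkill i (Finset.mem_univ i)) k hk)
  refine ⟨s * f, g, ?_, ?_⟩
  · intro hgI
    apply hf
    have h1 : c * (ι (∏ j, h j))⁻¹ ∈ locN I h :=
      locMax_mul_gen hp ⟨s, hs, g, hgI, hg⟩
    have h2 := Submodule.add_mem _ hc h1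
    rwa [sub_add_cancel] at h2
  · have h1 := locN_mul (ι_mem_locRing s) hc
    have e : ι (s * f) * x - ι g * (ι (∏ j, h j))⁻¹ =
        ι s * (ι f * x - c * (ι (∏ j, h j))⁻¹) := by
      rw [map_mul, ← hg]
      ring
    rw [e]
    exact h1

end

end Adams
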