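import Pool.Agent.MP_fe6ac3_nt.Base

/-!
# Elementary facts on differential operators
-/

open MvPolynomial

namespace Adams

noncomputable section

/-! ## Operators -/

section Ops

variable {σ : Type}

theorem pdWord_mem {M : Submodule (O σ) (K σ)} (hM : DStable M) (w : List σ) {f : K σ}
    (hf : f ∈ M) : pdWord w f ∈ M := by
  induction w with
  | nil => exact hf
  | cons i w ih => exact hM i _ ih

theorem ι_mul_mem {M : Submodule (O σ) (K σ)} (p : O σ) {f : K σ} (hf : f ∈ M) :
    ι p * f ∈ M := by
  have := M.smul_mem p hf
  rwa [Algebra.smul_def] at this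

theorem act_mem {M : Submodule (O σ) (K σ)} (hM : DStable M) (P : Op σ) {f : K σ}
    (hf : f ∈ M) : P.act f ∈ M :=
  Submodule.sum_mem _ fun w _ => ι_mul_mem _ (pdWord_mem hM w hf)

theorem pdWord_add (w : List σ) (f g : K σ) : pdWord w (f + g) = pdWord w f + pdWord w g := by
  induction w with
  | nil => rfl
  | cons i w ih =>
    simp only [pdWord, List.foldr_cons] at ih ⊢
    rw [ih, pd_add]

theorem act_add (P : Op σ) (f g : K σ) : P.act (f + g) = P.act f + P.act g := by
  simp only [Op.act, pdWord_add, mul_add]
  exact Finsupp.sum_add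

end Ops

end

end Adams
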