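import Pool.Agent.MP_fe6ac3_nt.FModel

/-!
# [ADAMS-SYM] Principal symbols on the Fourier model

Blueprint.  For `d : ℤ` let `F_d ⊆ ℂ(y, η)` be the set of `p / q`, `q ≠ 0`, with
`deg_η p ≤ deg_η q + d` (`deg_η` = total degree in the variables `inr l`; it is additive on
products).  `F_d` is an additive subgroup, `jL a F_d ⊆ F_d`, `η_l F_d ⊆ F_{d+1}`,
`pd (inr l) F_d ⊆ F_{d-1}`, `pd (inl j) F_d ⊆ F_d`, `nab Δ l F_d ⊆ F_{d-1}`.
Let `Ψ₀ f = constantCoeff (c.Ψ f) ∈ ℂ(y)`.  For `f` polynomial and `x ∈ F_d`: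
`ρ(Ψ f) x ≡ jL(Ψ₀ f) x mod F_{d-1}`; `D_i x ≡ ξ_i x mod F_d`, where
`ξ_i = ∑_l jL(Ψ₀(∂_i s_l)) η_l`; for a word `w`: `D_w x ≡ (∏ ξ_{w_i}) x mod F_{d+|w|-1}`.  So for `P` of
order `≤ k`: `P x ≡ σ x mod F_{d+k-1}` with `σ = ∑_{|w|=k} jL(Ψ₀ P_w) ∏ ξ_{w_i}`, homogeneous of
degree `k` in `η`.  Take `d` minimal with `x ∈ F_d` (exact degree); `P x = 0` implies `σ = 0`.

Specialization: let `G = ∑_{|w|=k} P_w ∏ (∑_l η_l ∂_{w_i} s_l)`, a polynomial in `η` with
coefficients in `O (Y ⊕ S)`; all its coefficients `f` satisfy `Ψ₀ f = 0`.  If `Ψ₀ f = 0` then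
`(det T)^n f` lies in the ideal generated by the `s_l` for some `n` (modulo the `s_l` we have
`det T · z_m ≡` a polynomial in `y`), so `f(x) = 0` at every point `x` with `s_l(x) = 0` for all
`l` and `det T (x) ≠ 0`.
-/

open MvPolynomial

namespace Adams

noncomputable section

variable {Y S : Type} [Fintype Y] [DecidableEq Y] [Fintype S] [DecidableEq S]

set_option linter.unusedSectionVars false

namespace SymAux

/-! ### The degree in the `η`-variables -/

section Degree

/-- the substitution `η ↦ t η` on polynomials -/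
def thO (Y S : Type) : O (Y ⊕ S) →+* Polynomial (K (Y ⊕ S)) :=
  eval₂Hom ((Polynomial.C).comp ((ι : O (Y ⊕ S) →+* K (Y ⊕ S)).comp C))
    (Sum.elim (fun j => Polynomial.C (ι (X (Sum.inl j))))
      (fun l => Polynomial.C (ι (X (Sum.inr l))) * Polynomial.X))

omit [Fintype Y] [DecidableEq Y] [Fintype S] [DecidableEq S] in
theorem thO_C (a : ℂ) : thO Y S (C a) = Polynomial.C (ι (C a)) := by simp [thO]

omit [Fintype Y] [DecidableEq Y] [Fintype S] [DecidableEq S] in
theorem thO_inl (j : Y) : thO Y S (X (Sum.inl j)) = Polynomial.C (ι (X (Sum.inl j))) := by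
  simp [thO]

omit [Fintype Y] [DecidableEq Y] [Fintype S] [DecidableEq S] in
theorem thO_inr (l : S) :
    thO Y S (X (Sum.inr l)) = Polynomial.C (ι (X (Sum.inr l))) * Polynomial.X := by
  simp [thO]

omit [Fintype Y] [DecidableEq Y] [Fintype S] [DecidableEq S] in
theorem eval_thO (p : O (Y ⊕ S)) : (thO Y S p).eval 1 = ι p := by
  induction p using MvPolynomial.induction_on with
  | C a => rw [thO_C, Polynomial.eval_C]
  | add p q hp hq => rw [map_add, Polynomial.eval_add, hp, hq, map_add]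
  | mul_X p i hp =>
    rw [map_mul, Polynomial.eval_mul, hp, map_mul]
    rcases i with j | l
    · rw [thO_inl, Polynomial.eval_C]
    · rw [thO_inr, Polynomial.eval_mul, Polynomial.eval_C, Polynomial.eval_X, mul_one]

omit [Fintype Y] [DecidableEq Y] [Fintype S] [DecidableEq S] in
theorem thO_injective : Function.Injective (thO Y S) := by
  intro p q h
  apply ι_injective (σ := Y ⊕ S)
  rw [← eval_thO, ← eval_thO, h]

omit [Fintype Y] [DecidableEq Y] [Fintype S] [DecidableEq S] in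
theorem thR_injective : Function.Injective
    ((algebraMap (Polynomial (K (Y ⊕ S))) (RatFunc (K (Y ⊕ S)))).comp (thO Y S)) := by
  rw [RingHom.coe_comp]
  exact (IsFractionRing.injective _ _).comp thO_injective

/-- the substitution `η ↦ t η` on rational functions -/
def Th (Y S : Type) : K (Y ⊕ S) →+* RatFunc (K (Y ⊕ S)) :=
  IsFractionRing.lift (thR_injective (Y := Y) (S := S))

theorem Th_ι (p : O (Y ⊕ S)) :
    Th Y S (ι p) = algebraMap (Polynomial (K (Y ⊕ S))) (RatFunc (K (Y ⊕ S))) (thO Y S p) :=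
  IsFractionRing.lift_algebraMap _ _

/-- the `η`-degree -/
def vd (f : K (Y ⊕ S)) : ℤ := (Th Y S f).intDegree

theorem Th_ne_zero {f : K (Y ⊕ S)} (hf : f ≠ 0) : Th Y S f ≠ 0 := by
  intro h
  exact hf ((map_eq_zero (Th Y S)).1 h)

theorem vd_mul {f g : K (Y ⊕ S)} (hf : f ≠ 0) (hg : g ≠ 0) : vd (f * g) = vd f + vd g := by
  rw [vd, map_mul, RatFunc.intDegree_mul (Th_ne_zero hf) (Th_ne_zero hg), vd, vd]

theorem vd_inv (f : K (Y ⊕ S)) : vd f⁻¹ = -vd f := by
  rw [vd, map_inv₀, RatFunc.intDegree_inv, vd]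

theorem vd_neg (f : K (Y ⊕ S)) : vd (-f) = vd f := by
  rw [vd, map_neg, RatFunc.intDegree_neg, vd]

theorem vd_ι (p : O (Y ⊕ S)) : vd (ι p : K (Y ⊕ S)) = (thO Y S p).natDegree := by
  rw [vd, Th_ι, RatFunc.intDegree_polynomial]

/-- the filtration `F_d` -/
def inF (d : ℤ) (f : K (Y ⊕ S)) : Prop := f = 0 ∨ vd f ≤ d

theorem inF.zero (d : ℤ) : inF d (0 : K (Y ⊕ S)) := Or.inl rfl

theorem inF.mono {d d' : ℤ} (h : d ≤ d') {f : K (Y ⊕ S)} (hf : inF d f) : inF d' f :=
  hf.imp id fun h' => h'.trans h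

theorem inF.neg {d : ℤ} {f : K (Y ⊕ S)} (hf : inF d f) : inF d (-f) := by
  rcases hf with rfl | h
  · exact Or.inl neg_zero
  · exact Or.inr (by rwa [vd_neg])

theorem inF.add {d : ℤ} {f g : K (Y ⊕ S)} (hf : inF d f) (hg : inF d g) : inF d (f + g) := by
  rcases hf with rfl | hf
  · rwa [zero_add]
  rcases eq_or_ne g 0 with rfl | hg0
  · rw [add_zero]; exact Or.inr hf
  rcases hg with rfl | hg
  · exact absurd rfl hg0
  rcases eq_or_ne (f + g) 0 with h | h
  · exact Or.inl h
  right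
  have h1 := RatFunc.intDegree_add_le (x := Th Y S f) (Th_ne_zero hg0)
    (by rw [← map_add]; exact Th_ne_zero h)
  rw [← map_add] at h1
  exact h1.trans (max_le hf hg)

theorem inF.sub {d : ℤ} {f g : K (Y ⊕ S)} (hf : inF d f) (hg : inF d g) : inF d (f - g) := by
  rw [sub_eq_add_neg]; exact hf.add hg.neg

theorem inF.sum {d : ℤ} {α : Type*} (s : Finset α) (f : α → K (Y ⊕ S))
    (h : ∀ a ∈ s, inF d (f a)) : inF d (∑ a ∈ s, f a) := by
  classical
  induction s using Finset.induction_on with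
  | empty => rw [Finset.sum_empty]; exact inF.zero d
  | insert a s ha ih =>
    rw [Finset.sum_insert ha]
    exact (h a (Finset.mem_insert_self _ _)).add
      (ih fun b hb => h b (Finset.mem_insert_of_mem hb))

theorem inF.mul {d e : ℤ} {f g : K (Y ⊕ S)} (hf : inF d f) (hg : inF e g) :
    inF (d + e) (f * g) := by
  rcases eq_or_ne f 0 with rfl | hf0
  · rw [zero_mul]; exact inF.zero _
  rcases eq_or_ne g 0 with rfl | hg0
  · rw [mul_zero]; exact inF.zero _
  rcases hf with rfl | hf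
  · exact absurd rfl hf0
  rcases hg with rfl | hg
  · exact absurd rfl hg0
  exact Or.inr (by rw [vd_mul hf0 hg0]; exact add_le_add hf hg)

/-! derivatives -/

theorem thO_pderiv_inr (l : S) (p : O (Y ⊕ S)) :
    (∀ n, (thO Y S (pderiv (Sum.inr l) p)).coeff n = pd (Sum.inr l) ((thO Y S p).coeff (n + 1)))
      ∧ pd (Sum.inr l) ((thO Y S p).coeff 0) = 0 := by
  induction p using MvPolynomial.induction_on with
  | C a =>
    constructor
    · intro n
      rw [pderiv_C, map_zero, Polynomial.coeff_zero, thO_C, Polynomial.coeff_C_succ, pd_zero]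
    · rw [thO_C, Polynomial.coeff_C_zero, pd_ι, pderiv_C, map_zero]
  | add p q hp hq =>
    constructor
    · intro n
      rw [map_add, map_add, Polynomial.coeff_add, hp.1, hq.1, map_add, Polynomial.coeff_add,
        pd_add]
    · rw [map_add, Polynomial.coeff_add, pd_add, hp.2, hq.2, add_zero]
  | mul_X p i hp =>
    obtain ⟨h1, h2⟩ := hp
    rcases i with j | m
    · constructor
      · intro n
        rw [Derivation.leibniz, pderiv_X, Pi.single_eq_of_ne (by simp), smul_zero, zero_add,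
          smul_eq_mul, map_mul, map_mul, thO_inl, Polynomial.coeff_C_mul, h1,
          Polynomial.coeff_mul_C, pd_mul, pd_X, if_neg (by simp), mul_zero, zero_add]
      · rw [map_mul, thO_inl, Polynomial.coeff_mul_C, pd_mul, h2, pd_X, if_neg (by simp)]
        simp
    · have e : thO Y S (p * X (Sum.inr m)) =
          Polynomial.C (ι (X (Sum.inr m))) * thO Y S p * Polynomial.X := by
        rw [map_mul, thO_inr]; ring
      have e' : thO Y S (pderiv (Sum.inr l) p * X (Sum.inr m)) =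
          Polynomial.C (ι (X (Sum.inr m))) * thO Y S (pderiv (Sum.inr l) p) * Polynomial.X := by
        rw [map_mul, thO_inr]; ring
      have hd : pderiv (Sum.inr l) (p * X (Sum.inr m) : O (Y ⊕ S)) =
          pderiv (Sum.inr l) p * X (Sum.inr m) + (if l = m then p else 0) := by
        rw [Derivation.leibniz, pderiv_X, smul_eq_mul, smul_eq_mul]
        by_cases hlm : l = m
        · subst hlm
          rw [Pi.single_eq_same, if_pos rfl]; ring
        · rw [Pi.single_eq_of_ne (by simpa using fun h => hlm h.symm), if_neg hlm]; ring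
      constructor
      · intro n
        rw [hd, map_add, e', e, Polynomial.coeff_mul_X, Polynomial.coeff_C_mul,
          Polynomial.coeff_add, pd_mul, pd_X]
        rcases n with _ | n
        · rw [Polynomial.mul_coeff_zero, Polynomial.coeff_X_zero, mul_zero, zero_add, h2,
            mul_zero, zero_add]
          by_cases hlm : l = m
          · simp [hlm]
          · simp [hlm]
        · rw [Polynomial.coeff_mul_X, Polynomial.coeff_C_mul, h1]
          by_cases hlm : l = m
          · simp [hlm]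
          · simp [hlm]
      · rw [e, Polynomial.mul_coeff_zero, Polynomial.coeff_X_zero, mul_zero, pd_zero]

theorem thO_pderiv_inl (j : Y) (p : O (Y ⊕ S)) (n : ℕ) :
    (thO Y S (pderiv (Sum.inl j) p)).coeff n = pd (Sum.inl j) ((thO Y S p).coeff n) := by
  induction p using MvPolynomial.induction_on generalizing n with
  | C a =>
    rw [pderiv_C, map_zero, Polynomial.coeff_zero, thO_C, Polynomial.coeff_C]
    split_ifs
    · rw [pd_ι, pderiv_C, map_zero]
    · rw [pd_zero]
  | add p q hp hq =>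
    rw [map_add, map_add, Polynomial.coeff_add, hp, hq, map_add, Polynomial.coeff_add, pd_add]
  | mul_X p i hp =>
    rcases i with i | m
    · have hd : pderiv (Sum.inl j) (p * X (Sum.inl i) : O (Y ⊕ S)) =
          pderiv (Sum.inl j) p * X (Sum.inl i) + (if j = i then p else 0) := by
        rw [Derivation.leibniz, pderiv_X, smul_eq_mul, smul_eq_mul]
        by_cases hlm : j = i
        · subst hlm
          rw [Pi.single_eq_same, if_pos rfl]; ring
        · rw [Pi.single_eq_of_ne (by simpa using fun h => hlm h.symm), if_neg hlm]; ring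
      rw [hd, map_add, map_mul, map_mul, thO_inl, Polynomial.coeff_add, Polynomial.coeff_mul_C,
        Polynomial.coeff_mul_C, hp, pd_mul, pd_X]
      by_cases hlm : j = i
      · simp [hlm]; ring
      · simp [hlm]; ring
    · rw [Derivation.leibniz, pderiv_X, Pi.single_eq_of_ne (by simp), smul_zero, zero_add,
        smul_eq_mul, map_mul, map_mul, thO_inr]
      rcases n with _ | n
      · simp
      · rw [mul_assoc, Polynomial.coeff_C_mul, ← mul_assoc, Polynomial.coeff_mul_X,
          Polynomial.coeff_mul_C, pd_mul, pd_X, if_neg (by simp), mul_comm Polynomial.X,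
          Polynomial.coeff_mul_X, hp]
        ring

theorem inF_pderiv_inr (l : S) (p : O (Y ⊕ S)) :
    inF ((thO Y S p).natDegree - 1) (ι (pderiv (Sum.inr l) p) : K (Y ⊕ S)) := by
  rcases eq_or_ne (pderiv (Sum.inr l) p) 0 with h | h
  · rw [h, map_zero]; exact inF.zero _
  right
  rw [vd_ι]
  have h0 : thO Y S (pderiv (Sum.inr l) p) ≠ 0 := by
    intro h'
    exact h (thO_injective (by rw [h', map_zero]))
  have h1 : (thO Y S p).coeff ((thO Y S (pderiv (Sum.inr l) p)).natDegree + 1) ≠ 0 := by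
    intro h'
    have h2 := (thO_pderiv_inr l p).1 (thO Y S (pderiv (Sum.inr l) p)).natDegree
    rw [h', pd_zero] at h2
    exact h0 (Polynomial.leadingCoeff_eq_zero.1 h2)
  have := Polynomial.le_natDegree_of_ne_zero h1
  omega

theorem inF_pderiv_inl (j : Y) (p : O (Y ⊕ S)) :
    inF (thO Y S p).natDegree (ι (pderiv (Sum.inl j) p) : K (Y ⊕ S)) := by
  rcases eq_or_ne (pderiv (Sum.inl j) p) 0 with h | h
  · rw [h, map_zero]; exact inF.zero _
  right
  rw [vd_ι]
  have h0 : thO Y S (pderiv (Sum.inl j) p) ≠ 0 := by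
    intro h'
    exact h (thO_injective (by rw [h', map_zero]))
  have h1 : (thO Y S p).coeff ((thO Y S (pderiv (Sum.inl j) p)).natDegree) ≠ 0 := by
    intro h'
    have h2 := thO_pderiv_inl j p (thO Y S (pderiv (Sum.inl j) p)).natDegree
    rw [h', pd_zero] at h2
    exact h0 (Polynomial.leadingCoeff_eq_zero.1 h2)
  have := Polynomial.le_natDegree_of_ne_zero h1
  omega

theorem inF_ι (p : O (Y ⊕ S)) : inF (thO Y S p).natDegree (ι p : K (Y ⊕ S)) :=
  Or.inr (vd_ι p).le

theorem inF_ι_inv (p : O (Y ⊕ S)) : inF (-(thO Y S p).natDegree) (ι p : K (Y ⊕ S))⁻¹ :=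
  Or.inr (by rw [vd_inv, vd_ι])

theorem pd_frac_eq (i : Y ⊕ S) (a b : O (Y ⊕ S)) (hb : b ≠ 0) :
    pd i (ι a / ι b : K (Y ⊕ S)) = ι (pderiv i a) * (ι b)⁻¹
      - (ι a * (ι b)⁻¹) * (ι (pderiv i b) * (ι b)⁻¹) := by
  have hb' : (ι b : K (Y ⊕ S)) ≠ 0 := ι_ne_zero hb
  rw [pd_frac i a b hb]
  field_simp

theorem inF.pd_inr {d : ℤ} {f : K (Y ⊕ S)} (hf : inF d f) (l : S) :
    inF (d - 1) (pd (Sum.inr l) f) := by
  rcases eq_or_ne f 0 with rfl | hf0
  · rw [pd_zero]; exact inF.zero _
  obtain ⟨a, b, hb, rfl⟩ := exists_frac f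
  have ha : a ≠ 0 := by rintro rfl; simp at hf0
  rcases hf with hf | hf
  · exact absurd hf hf0
  rw [div_eq_mul_inv, vd_mul (ι_ne_zero ha) (inv_ne_zero (ι_ne_zero hb)), vd_inv, vd_ι, vd_ι]
    at hf
  rw [pd_frac_eq _ a b hb]
  refine inF.sub ?_ ?_
  · exact ((inF_pderiv_inr l a).mul (inF_ι_inv b)).mono (by omega)
  · exact (((inF_ι a).mul (inF_ι_inv b)).mul ((inF_pderiv_inr l b).mul (inF_ι_inv b))).mono
      (by omega)

theorem inF.pd_inl {d : ℤ} {f : K (Y ⊕ S)} (hf : inF d f) (j : Y) :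
    inF d (pd (Sum.inl j) f) := by
  rcases eq_or_ne f 0 with rfl | hf0
  · rw [pd_zero]; exact inF.zero _
  obtain ⟨a, b, hb, rfl⟩ := exists_frac f
  have ha : a ≠ 0 := by rintro rfl; simp at hf0
  rcases hf with hf | hf
  · exact absurd hf hf0
  rw [div_eq_mul_inv, vd_mul (ι_ne_zero ha) (inv_ne_zero (ι_ne_zero hb)), vd_inv, vd_ι, vd_ι]
    at hf
  rw [pd_frac_eq _ a b hb]
  refine inF.sub ?_ ?_
  · exact ((inF_pderiv_inl j a).mul (inF_ι_inv b)).mono (by omega)
  · exact (((inF_ι a).mul (inF_ι_inv b)).mul ((inF_pderiv_inl j b).mul (inF_ι_inv b))).mono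
      (by omega)

/-- homogeneous elements of degree `k` -/
def Hom (k : ℕ) (f : K (Y ⊕ S)) : Prop := Th Y S f = RatFunc.C f * RatFunc.X ^ k

theorem Hom.add {k : ℕ} {f g : K (Y ⊕ S)} (hf : Hom k f) (hg : Hom k g) : Hom k (f + g) := by
  rw [Hom, map_add, hf, hg, map_add, add_mul]

theorem Hom.mul {k m : ℕ} {f g : K (Y ⊕ S)} (hf : Hom k f) (hg : Hom m g) :
    Hom (k + m) (f * g) := by
  rw [Hom, map_mul, hf, hg, map_mul, pow_add]; ring

theorem Hom.zero (k : ℕ) : Hom k (0 : K (Y ⊕ S)) := by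
  rw [Hom, map_zero, map_zero, zero_mul]

theorem Hom.one : Hom 0 (1 : K (Y ⊕ S)) := by
  rw [Hom, map_one, map_one, pow_zero, mul_one]

theorem Hom.sum {k : ℕ} {α : Type*} (s : Finset α) (f : α → K (Y ⊕ S))
    (h : ∀ a ∈ s, Hom k (f a)) : Hom k (∑ a ∈ s, f a) := by
  classical
  induction s using Finset.induction_on with
  | empty => rw [Finset.sum_empty]; exact Hom.zero k
  | insert a s ha ih =>
    rw [Finset.sum_insert ha]
    exact (h a (Finset.mem_insert_self _ _)).add
      (ih fun b hb => h b (Finset.mem_insert_of_mem hb))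

theorem Hom.vd {k : ℕ} {f : K (Y ⊕ S)} (hf : Hom k f) (h0 : f ≠ 0) : vd f = k := by
  have hC : (RatFunc.C f : RatFunc (K (Y ⊕ S))) ≠ 0 := by
    intro h
    exact h0 ((map_eq_zero RatFunc.C).1 h)
  rw [SymAux.vd, hf, RatFunc.intDegree_mul hC (pow_ne_zero _ RatFunc.X_ne_zero),
    RatFunc.intDegree_C, zero_add]
  clear hf
  induction k with
  | zero => simp
  | succ k ih =>
    rw [pow_succ, RatFunc.intDegree_mul (pow_ne_zero _ RatFunc.X_ne_zero) RatFunc.X_ne_zero, ih,
      RatFunc.intDegree_X]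
    push_cast
    ring

theorem Hom.inF {k : ℕ} {f : K (Y ⊕ S)} (hf : Hom k f) : inF k f := by
  rcases eq_or_ne f 0 with h | h
  · exact Or.inl h
  · exact Or.inr (hf.vd h).le

theorem hom_eta (l : S) : Hom 1 (ι (X (Sum.inr l)) : K (Y ⊕ S)) := by
  rw [Hom, Th_ι, thO_inr, map_mul, pow_one, RatFunc.algebraMap_C, RatFunc.algebraMap_X]

theorem thO_rename (p : O Y) :
    thO Y S (rename Sum.inl p) = Polynomial.C (ι (rename Sum.inl p)) := by
  induction p using MvPolynomial.induction_on with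
  | C a => rw [rename_C, thO_C]
  | add p q hp hq => rw [map_add, map_add, hp, hq, map_add, map_add]
  | mul_X p i hp => rw [map_mul, map_mul, hp, rename_X, thO_inl, map_mul, map_mul]

end Degree

theorem hom_jL (a : K Y) : Hom 0 (jL a : K (Y ⊕ S)) := by
  obtain ⟨p, q, hq, rfl⟩ := exists_frac a
  rw [Hom, pow_zero, mul_one, map_div₀, jL_ι, jL_ι, map_div₀, map_div₀, Th_ι, Th_ι, thO_rename,
    thO_rename, RatFunc.algebraMap_C, RatFunc.algebraMap_C]

/-! ### The filtration and the Fourier model -/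

section Filt

variable (Δ : O S) (hΔ : Δ ≠ 0)

include hΔ in
theorem inF.nab {d : ℤ} {f : K (Y ⊕ S)} (hf : inF d f) (l : S) : inF (d - 1) (nab Δ l f) := by
  have hD : rename Sum.inr Δ ≠ (0 : O (Y ⊕ S)) := by
    intro h
    exact hΔ (rename_injective _ Sum.inr_injective (by rw [h, map_zero]))
  rw [Adams.nab]
  refine (hf.pd_inr l).sub ?_
  have h1 : inF (-1) (pd (Sum.inr l) (ι (rename Sum.inr Δ) : K (Y ⊕ S))
      / ι (rename Sum.inr Δ)) := by
    rw [div_eq_mul_inv]
    exact (((inF_ι (rename Sum.inr Δ : O (Y ⊕ S))).pd_inr l).mul (inF_ι_inv _)).mono (by omega)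
  have h2 : inF 0 ((1 / 2 : K (Y ⊕ S))) := by
    have h := (hom_jL (Y := Y) (S := S) (1 / 2)).inF
    rw [map_div₀, map_one, map_ofNat] at h
    exact_mod_cast h
  exact ((h2.mul h1).mul hf).mono (by omega)

theorem inF.rho {d : ℤ} (f : MvPolynomial S (K Y)) {x : K (Y ⊕ S)} (hx : inF d x) :
    inF (d - 1) ((fModel Y Δ hΔ).ρ f x - jL (constantCoeff f) * x) := by
  induction f using MvPolynomial.induction_on generalizing d x with
  | C a =>
    rw [fModel_ρ_C, constantCoeff_C, sub_self]; exact inF.zero _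
  | add p q hp hq =>
    have h := (hp hx).add (hq hx)
    have e : (fModel Y Δ hΔ).ρ (p + q) x - jL (constantCoeff (p + q)) * x =
        ((fModel Y Δ hΔ).ρ p x - jL (constantCoeff p) * x) +
        ((fModel Y Δ hΔ).ρ q x - jL (constantCoeff q) * x) := by
      rw [map_add, map_add, map_add]
      change (fModel Y Δ hΔ).ρ p x + (fModel Y Δ hΔ).ρ q x - _ = _
      ring
    rw [e]; exact h
  | mul_X p i hp =>
    have h1 : inF (d - 1) (-Adams.nab Δ i x) := (inF.nab Δ hΔ hx i).neg
    have e : (fModel Y Δ hΔ).ρ (p * X i) x - jL (constantCoeff (p * X i)) * x =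
        ((fModel Y Δ hΔ).ρ p (-Adams.nab Δ i x) - jL (constantCoeff p) * (-Adams.nab Δ i x))
          + jL (constantCoeff p) * (-Adams.nab Δ i x) := by
      rw [map_mul, map_mul, constantCoeff_X, mul_zero, map_zero, zero_mul, sub_zero,
        sub_add_cancel, ← fModel_ρ_X Δ hΔ]
      rfl
    rw [e]
    refine ((hp h1).mono (by omega)).add ?_
    exact ((hom_jL _).inF.mul h1).mono (by push_cast; omega)

theorem inF.rho' {d : ℤ} (f : MvPolynomial S (K Y)) {x : K (Y ⊕ S)} (hx : inF d x) :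
    inF d ((fModel Y Δ hΔ).ρ f x) := by
  have h := (inF.rho Δ hΔ f hx).mono (show d - 1 ≤ d by omega)
  have h2 : inF d (jL (constantCoeff f) * x) := ((hom_jL _).inF.mul hx).mono (by push_cast; omega)
  have := h.add h2
  rwa [sub_add_cancel] at this

/-- the symbol of `∂_i` -/
def xi (c : Chart Y S) (i : Y ⊕ S) : K (Y ⊕ S) :=
  ∑ l, jL (constantCoeff (c.Ψ (pderiv i (c.s l)))) * ι (X (Sum.inr l))

theorem hom_xi (c : Chart Y S) (i : Y ⊕ S) : Hom 1 (xi c i) :=
  Hom.sum _ _ fun l _ => by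
    have := (hom_jL (S := S) (constantCoeff (c.Ψ (pderiv i (c.s l))))).mul (hom_eta l)
    rwa [zero_add] at this

theorem hom_word (c : Chart Y S) (w : List (Y ⊕ S)) : Hom w.length (w.map (xi c)).prod := by
  induction w with
  | nil => simpa using Hom.one
  | cons i w ih =>
    rw [List.map_cons, List.prod_cons, List.length_cons, add_comm]
    exact (hom_xi c i).mul ih

theorem fModel_D_apply (c : Chart Y S) (i : Y ⊕ S) (x : K (Y ⊕ S)) :
    (fModel Y Δ hΔ).D c i x = Sum.elim (fun j => pd (Sum.inl j) x) (fun _ => 0) i +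
      ∑ l, (fModel Y Δ hΔ).ρ (c.Ψ (pderiv i (c.s l))) (ι (X (Sum.inr l)) * x) := by
  have hsum : ∀ (g : S → AddMonoid.End (K (Y ⊕ S))), (∑ l, g l) x = ∑ l, g l x :=
    fun g => AddMonoidHom.finsetSum_apply g Finset.univ x
  rw [Model.D]
  change (Sum.elim (fun j => (fModel Y Δ hΔ).δy j) (fun _ => 0) i : AddMonoid.End _) x +
    (∑ l, (fModel Y Δ hΔ).ρ (c.Ψ (pderiv i (c.s l))) * (fModel Y Δ hΔ).δ l :
      AddMonoid.End _) x = _
  rw [hsum]
  refine congrArg₂ (· + ·) ?_ ?_
  · rcases i with j | l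
    · exact fModel_δy Δ hΔ j x
    · rfl
  · refine Finset.sum_congr rfl fun l _ => ?_
    exact congrArg ((fModel Y Δ hΔ).ρ (c.Ψ (pderiv i (c.s l)))) (fModel_δ Δ hΔ l x)

theorem inF.D {d : ℤ} (c : Chart Y S) (i : Y ⊕ S) {x : K (Y ⊕ S)} (hx : inF d x) :
    inF d ((fModel Y Δ hΔ).D c i x - xi c i * x) := by
  rw [fModel_D_apply, xi, Finset.sum_mul, add_sub_assoc, ← Finset.sum_sub_distrib]
  refine inF.add ?_ (inF.sum _ _ fun l _ => ?_)
  · rcases i with j | l
    · exact hx.pd_inl j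
    · exact inF.zero _
  · have h := inF.rho Δ hΔ (c.Ψ (pderiv i (c.s l))) ((hom_eta l).inF.mul hx)
    rw [mul_assoc]
    exact h.mono (by push_cast; omega)

theorem inF.DWord {d : ℤ} (c : Chart Y S) (w : List (Y ⊕ S)) {x : K (Y ⊕ S)} (hx : inF d x) :
    inF (d + w.length - 1) ((fModel Y Δ hΔ).DWord c w x - (w.map (xi c)).prod * x) := by
  induction w with
  | nil =>
    simp only [Model.DWord, List.foldr_nil, List.map_nil, List.prod_nil, one_mul, sub_self]
    exact inF.zero _
  | cons i w ih =>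
    have h1 : inF (d + w.length) ((w.map (xi c)).prod * x) :=
      ((hom_word c w).inF.mul hx).mono (by omega)
    have h2 : inF (d + w.length) ((fModel Y Δ hΔ).DWord c w x) := by
      have := (ih.mono (show d + w.length - 1 ≤ d + w.length by omega)).add h1
      rwa [sub_add_cancel] at this
    have h3 := inF.D Δ hΔ c i h2
    have h4 := (hom_xi c i).inF.mul ih
    have e : (fModel Y Δ hΔ).DWord c (i :: w) x - ((i :: w).map (xi c)).prod * x =
        ((fModel Y Δ hΔ).D c i ((fModel Y Δ hΔ).DWord c w x)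
          - xi c i * (fModel Y Δ hΔ).DWord c w x)
        + xi c i * ((fModel Y Δ hΔ).DWord c w x - (w.map (xi c)).prod * x) := by
      have : (fModel Y Δ hΔ).DWord c (i :: w) x =
        (fModel Y Δ hΔ).D c i ((fModel Y Δ hΔ).DWord c w x) := rfl
      rw [this, List.map_cons, List.prod_cons]
      ring
    rw [e, List.length_cons]
    exact (h3.mono (by push_cast; omega)).add (h4.mono (by push_cast; omega))

/-- the symbol of an operator of order `≤ k` -/
def sig (c : Chart Y S) (P : Op (Y ⊕ S)) (k : ℕ) : K (Y ⊕ S) :=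
  P.sum fun w p => if w.length = k then
    jL (constantCoeff (c.Ψ p)) * (w.map (xi c)).prod else 0

theorem hom_sig (c : Chart Y S) (P : Op (Y ⊕ S)) (k : ℕ) : Hom k (sig c P k) := by
  rw [sig, Finsupp.sum]
  refine Hom.sum _ _ fun w _ => ?_
  split_ifs with h
  · have := (hom_jL (S := S) (constantCoeff (c.Ψ (P w)))).mul (hom_word c w)
    rwa [zero_add, h] at this
  · exact Hom.zero k

theorem inF.act {d : ℤ} (c : Chart Y S) (P : Op (Y ⊕ S)) (k : ℕ) (hk : P.OrderLE k)
    {x : K (Y ⊕ S)} (hx : inF d x) :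
    inF (d + k - 1) ((fModel Y Δ hΔ).act c P x - sig c P k * x) := by
  rw [Model.act, sig, Finsupp.sum, Finsupp.sum, Finset.sum_mul, ← Finset.sum_sub_distrib]
  refine inF.sum _ _ fun w hw => ?_
  have hwk := hk w hw
  have h1 : inF (d + w.length) ((w.map (xi c)).prod * x) :=
    ((hom_word c w).inF.mul hx).mono (by omega)
  have h0 := inF.DWord Δ hΔ c w hx
  have h2 : inF (d + w.length) ((fModel Y Δ hΔ).DWord c w x) := by
    have := (h0.mono (show d + w.length - 1 ≤ d + w.length by omega)).add h1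
    rwa [sub_add_cancel] at this
  have h3 := inF.rho Δ hΔ (c.Ψ (P w)) h2
  split_ifs with h
  · have h4 := (hom_jL (S := S) (constantCoeff (c.Ψ (P w)))).inF.mul h0
    have e : (fModel Y Δ hΔ).ρ (c.Ψ (P w)) ((fModel Y Δ hΔ).DWord c w x) -
        jL (constantCoeff (c.Ψ (P w))) * (w.map (xi c)).prod * x =
        ((fModel Y Δ hΔ).ρ (c.Ψ (P w)) ((fModel Y Δ hΔ).DWord c w x)
          - jL (constantCoeff (c.Ψ (P w))) * (fModel Y Δ hΔ).DWord c w x)
        + jL (constantCoeff (c.Ψ (P w))) *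
          ((fModel Y Δ hΔ).DWord c w x - (w.map (xi c)).prod * x) := by ring
    rw [e]
    exact (h3.mono (by omega)).add (h4.mono (by push_cast; omega))
  · rw [zero_mul, sub_zero]
    exact (inF.rho' Δ hΔ (c.Ψ (P w)) h2).mono (by omega)

theorem sig_eq_zero (c : Chart Y S) (P : Op (Y ⊕ S)) (k : ℕ) (hk : P.OrderLE k)
    (w : K (Y ⊕ S)) (hw : w ≠ 0) (hP : (fModel Y Δ hΔ).act c P w = 0) : sig c P k = 0 := by
  by_contra hne
  have h := inF.act Δ hΔ c P k hk (d := vd w) (x := w) (Or.inr le_rfl)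
  rw [hP, zero_sub] at h
  have h' := h.neg
  rw [neg_neg] at h'
  rcases h' with h' | h'
  · exact (mul_ne_zero hne hw) h'
  · rw [vd_mul hne hw, (hom_sig c P k).vd hne] at h'
    omega

end Filt

/-! ### Specialization -/

section Spec

variable (c : Chart Y S) (x : Y ⊕ S → ℂ) (η : S → ℂ)

/-- `a` specializes to `v` -/
def Spz (a : K (Y ⊕ S)) (v : ℂ) : Prop :=
  ∃ (n : ℕ) (g : O (Y ⊕ S)), ι (rename Sum.inl c.T.det) ^ n * a = ι g ∧
    eval (Sum.elim (x ∘ Sum.inl) η) g = eval (x ∘ Sum.inl) c.T.det ^ n * v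

theorem eval_rename_inl (p : O Y) :
    eval (Sum.elim (x ∘ Sum.inl) η) (rename Sum.inl p) = eval (x ∘ Sum.inl) p := by
  rw [eval_rename]; rfl

variable {c x η}

theorem Spz.of_ι (g : O (Y ⊕ S)) {v : ℂ} (h : eval (Sum.elim (x ∘ Sum.inl) η) g = v) :
    Spz c x η (ι g) v :=
  ⟨0, g, by rw [pow_zero, one_mul], by rw [pow_zero, one_mul, h]⟩

theorem Spz.mul {a b : K (Y ⊕ S)} {v w : ℂ} (h : Spz c x η a v) (h' : Spz c x η b w) :
    Spz c x η (a * b) (v * w) := by
  obtain ⟨n, g, h1, h2⟩ := h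
  obtain ⟨m, g', h3, h4⟩ := h'
  refine ⟨n + m, g * g', ?_, ?_⟩
  · rw [map_mul, ← h1, ← h3]; ring
  · rw [map_mul, h2, h4]; ring

theorem Spz.add {a b : K (Y ⊕ S)} {v w : ℂ} (h : Spz c x η a v) (h' : Spz c x η b w) :
    Spz c x η (a + b) (v + w) := by
  obtain ⟨n, g, h1, h2⟩ := h
  obtain ⟨m, g', h3, h4⟩ := h'
  refine ⟨n + m, rename Sum.inl c.T.det ^ m * g + rename Sum.inl c.T.det ^ n * g', ?_, ?_⟩
  · rw [map_add, map_mul, map_mul, ← h1, ← h3, map_pow, map_pow]; ring
  · rw [map_add, map_mul, map_mul, h2, h4, map_pow, map_pow, eval_rename_inl]; ring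

theorem Spz.zero : Spz c x η 0 0 := ⟨0, 0, by simp, by simp⟩

theorem Spz.sum {α : Type*} (s : Finset α) (f : α → K (Y ⊕ S)) (v : α → ℂ)
    (h : ∀ a ∈ s, Spz c x η (f a) (v a)) : Spz c x η (∑ a ∈ s, f a) (∑ a ∈ s, v a) := by
  classical
  induction s using Finset.induction_on with
  | empty => rw [Finset.sum_empty, Finset.sum_empty]; exact Spz.zero
  | insert a s ha ih =>
    rw [Finset.sum_insert ha, Finset.sum_insert ha]
    exact (h a (Finset.mem_insert_self _ _)).add
      (ih fun b hb => h b (Finset.mem_insert_of_mem hb))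

theorem Spz.neg {a : K (Y ⊕ S)} {v : ℂ} (h : Spz c x η a v) : Spz c x η (-a) (-v) := by
  obtain ⟨n, g, h1, h2⟩ := h
  exact ⟨n, -g, by rw [map_neg, ← h1]; ring, by rw [map_neg, h2]; ring⟩

theorem Spz.eq_zero (hx : eval (x ∘ Sum.inl) c.T.det ≠ 0) {v : ℂ} (h : Spz c x η 0 v) :
    v = 0 := by
  obtain ⟨n, g, h1, h2⟩ := h
  rw [mul_zero] at h1
  have hg : g = 0 := ι_eq_zero.1 h1.symm
  rw [hg, map_zero] at h2
  exact (mul_eq_zero.1 h2.symm).resolve_left (pow_ne_zero _ hx)

theorem Spz.tinv (hx : eval (x ∘ Sum.inl) c.T.det ≠ 0) (m l : S) :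
    Spz c x η (jL (c.Tinv m l))
      (eval (x ∘ Sum.inl) (c.T.adjugate m l) / eval (x ∘ Sum.inl) c.T.det) := by
  refine ⟨1, rename Sum.inl (c.T.adjugate m l), ?_, ?_⟩
  · have hdet : (c.T.map ι).det = (ι c.T.det : K Y) := by
      have := RingHom.map_det (ι : O Y →+* K Y) c.T
      rw [this]; rfl
    have hadj : (c.T.map ι).adjugate m l = (ι (c.T.adjugate m l) : K Y) := by
      have := RingHom.map_adjugate (ι : O Y →+* K Y) c.T
      have h2 := congrFun (congrFun this m) l
      exact h2.symm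
    have hd0 : (ι c.T.det : K Y) ≠ 0 := ι_ne_zero c.hT
    have h : (ι c.T.det : K Y) * c.Tinv m l = ι (c.T.adjugate m l) := by
      rw [Chart.Tinv, Matrix.inv_def, Matrix.smul_apply, hdet, hadj, smul_eq_mul,
        Ring.inverse_eq_inv', ← mul_assoc, mul_inv_cancel₀ hd0, one_mul]
    have h3 := congrArg (jL (Y := Y) (S := S)) h
    rw [map_mul, jL_ι, jL_ι] at h3
    rw [pow_one, h3]
  · rw [eval_rename_inl, pow_one]
    field_simp

theorem Spz.psi (hx : eval (x ∘ Sum.inl) c.T.det ≠ 0) (hs : ∀ l, eval x (c.s l) = 0)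
    (f : O (Y ⊕ S)) : Spz c x η (jL (constantCoeff (c.Ψ f))) (eval x f) := by
  induction f using MvPolynomial.induction_on with
  | C a =>
    have h1 : (jL (constantCoeff (c.Ψ (C a))) : K (Y ⊕ S)) = ι (C a) := by
      rw [Chart.Ψ, eval₂Hom_C]
      simp only [RingHom.comp_apply, constantCoeff_C, jL_ι, rename_C]
    rw [h1]
    exact Spz.of_ι _ (by rw [eval_C, eval_C])
  | add p q hp hq =>
    simp only [map_add]
    exact hp.add hq
  | mul_X p i hp =>
    simp only [map_mul]
    refine hp.mul ?_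
    rw [eval_X]
    rcases i with j | m
    · have h1 : (jL (constantCoeff (c.Ψ (X (Sum.inl j)))) : K (Y ⊕ S)) = ι (X (Sum.inl j)) := by
        rw [Chart.Ψ, eval₂Hom_X']
        simp only [Sum.elim_inl, constantCoeff_C, jL_ι, rename_X]
      rw [h1]
      exact Spz.of_ι _ (by rw [eval_X]; rfl)
    · have h1 : (jL (constantCoeff (c.Ψ (X (Sum.inr m)))) : K (Y ⊕ S)) =
          ∑ l, -(jL (c.Tinv m l) * ι (rename Sum.inl (c.t l))) := by
        rw [Chart.Ψ, eval₂Hom_X', Sum.elim_inr, map_sum, map_sum]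
        refine Finset.sum_congr rfl fun l _ => ?_
        simp only [map_mul, map_sub, constantCoeff_C, constantCoeff_X, jL_ι, map_zero]
        ring
      rw [h1]
      have h2 : Spz c x η (∑ l, -(jL (c.Tinv m l) * ι (rename Sum.inl (c.t l))))
          (∑ l, -(eval (x ∘ Sum.inl) (c.T.adjugate m l) / eval (x ∘ Sum.inl) c.T.det
            * eval (x ∘ Sum.inl) (c.t l))) :=
        Spz.sum _ _ _ fun l _ => ((Spz.tinv hx m l).mul (Spz.of_ι _ (eval_rename_inl x η _))).neg
      have h3 : (∑ l, -(eval (x ∘ Sum.inl) (c.T.adjugate m l) / eval (x ∘ Sum.inl) c.T.det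
            * eval (x ∘ Sum.inl) (c.t l))) = x (Sum.inr m) := by
        have ht : ∀ l, eval (x ∘ Sum.inl) (c.t l) =
            -∑ m', eval (x ∘ Sum.inl) (c.T l m') * x (Sum.inr m') := by
          intro l
          have h := hs l
          rw [c.hs l, map_add, map_sum] at h
          simp only [map_mul, eval_X] at h
          simp only [eval_rename] at h
          linear_combination h
        have hadj : c.T.adjugate * c.T = c.T.det • 1 := Matrix.adjugate_mul c.T
        have hadj' : ∀ m', ∑ l, eval (x ∘ Sum.inl) (c.T.adjugate m l)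
            * eval (x ∘ Sum.inl) (c.T l m') = if m = m' then eval (x ∘ Sum.inl) c.T.det else 0 := by
          intro m'
          have h := congrFun (congrFun hadj m) m'
          rw [Matrix.mul_apply, Matrix.smul_apply, Matrix.one_apply] at h
          have h' := congrArg (eval (x ∘ Sum.inl)) h
          rw [map_sum] at h'
          simp only [map_mul] at h'
          rw [h']
          split_ifs <;> simp
        have e1 : ∀ l, -(eval (x ∘ Sum.inl) (c.T.adjugate m l) / eval (x ∘ Sum.inl) c.T.det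
            * eval (x ∘ Sum.inl) (c.t l)) = ∑ m', (eval (x ∘ Sum.inl) (c.T.adjugate m l)
              * eval (x ∘ Sum.inl) (c.T l m')) * (x (Sum.inr m') / eval (x ∘ Sum.inl) c.T.det) := by
          intro l
          rw [ht l, mul_neg, neg_neg, Finset.mul_sum]
          refine Finset.sum_congr rfl fun m' _ => ?_
          ring
        simp only [e1]
        rw [Finset.sum_comm]
        simp only [← Finset.sum_mul, hadj']
        rw [Finset.sum_eq_single m]
        · rw [if_pos rfl]; field_simp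
        · intro b _ hb
          rw [if_neg (Ne.symm hb), zero_mul]
        · intro h; exact absurd (Finset.mem_univ _) h
      rw [h3] at h2
      exact h2

theorem Spz.xi (hx : eval (x ∘ Sum.inl) c.T.det ≠ 0) (hs : ∀ l, eval x (c.s l) = 0)
    (i : Y ⊕ S) : Spz c x η (xi c i) (∑ l, η l * eval x (pderiv i (c.s l))) := by
  refine Spz.sum _ _ _ fun l _ => ?_
  rw [mul_comm (η l)]
  exact (Spz.psi hx hs _).mul (Spz.of_ι _ (by rw [eval_X]; rfl))

theorem Spz.word (hx : eval (x ∘ Sum.inl) c.T.det ≠ 0) (hs : ∀ l, eval x (c.s l) = 0)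
    (w : List (Y ⊕ S)) : Spz c x η (w.map (SymAux.xi c)).prod
      (w.map (fun i => ∑ l, η l * eval x (pderiv i (c.s l)))).prod := by
  induction w with
  | nil =>
    have := Spz.of_ι (c := c) (x := x) (η := η) (v := 1) (1 : O (Y ⊕ S)) (by rw [map_one])
    rw [map_one] at this
    simpa using this
  | cons i w ih =>
    rw [List.map_cons, List.prod_cons, List.map_cons, List.prod_cons]
    exact (Spz.xi hx hs i).mul ih

end Spec

end SymAux

open SymAux in
theorem symbol_vanish (c : Chart Y S) (Δ : O S) (hΔ : Δ ≠ 0) (P : Op (Y ⊕ S)) (k : ℕ)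
    (hk : P.OrderLE k) (w : K (Y ⊕ S)) (hw : w ≠ 0) (hP : (fModel Y Δ hΔ).act c P w = 0)
    (x : Y ⊕ S → ℂ) (hx : eval (x ∘ Sum.inl) c.T.det ≠ 0) (hs : ∀ l, eval x (c.s l) = 0)
    (η : S → ℂ) : P.symbol k x (fun i => ∑ l, η l * eval x (pderiv i (c.s l))) = 0 := by
  have h0 := sig_eq_zero Δ hΔ c P k hk w hw hP
  have h1 : Spz c x η (sig c P k)
      (P.symbol k x (fun i => ∑ l, η l * eval x (pderiv i (c.s l)))) := by
    rw [sig, Op.symbol, Finsupp.sum, Finsupp.sum]
    refine Spz.sum _ _ _ fun v _ => ?_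
    split_ifs
    · exact (Spz.psi hx hs _).mul (Spz.word hx hs v)
    · exact Spz.zero
  rw [h0] at h1
  exact h1.eq_zero hx

end

end Adams
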