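import Pool.Agent.MP_fe6ac3_nt.Ops
import Pool.Agent.MP_fe6ac3_nt.Growth
import Pool.Agent.MP_fe6ac3_nt.Iso
import Pool.Agent.MP_fe6ac3_nt.Symbol
import Pool.Agent.MP_fe6ac3_nt.KRelF
import Pool.Agent.MP_fe6ac3_nt.KRelK
import Pool.Agent.MP_fe6ac3_nt.ParamSys

/-!
# [ADAMS-POS] The conormal variety of `C_m` is in the characteristic variety

Blueprint.  `I = vanishingIdeal ℂ Z`, `h = qsys 0`, `e = 1/∏ h`, `f₀ = α₀₀² α₁₀ β₁₀`,
`kap2 = f₀ e`.  `exists_BK` gives a minimal `M`.  Let `x ∈ M \ N`.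
* By `socle` and multiplication by `f₀` there is `a ∉ I` with `ι a * kap2 ∈ M`, and it is `∉ N`.
* Let `G` be the smallest `O`-submodule stable under all `pd i` and containing `ι a * kap2`.  By
  minimality `M = N ⊔ G`; so `x = n + g`, `g ∈ G`.
* For `g ∈ G` there is `w` in the Fourier model with `Model.Gen fModel kModel 1 kap2 w g` (induction;
  `pd i = kModel.D c i`, and `Gen` is stable under `D`, `act`).
* `P x ∈ N` gives `P g ∈ N`, so by `iso` `P w = 0`; and `w ≠ 0` by `iso` since `g ∉ N`.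
* `symbol_vanish`.
-/

open MvPolynomial

namespace Adams

noncomputable section

theorem exists_BK {σ : Type} [Finite σ] {I : Ideal (O σ)} [I.IsPrime] {r : ℕ}
    {h : Fin r → O σ} (hp : IsParam I h) : ∃ M, IsBK I h M := by
  have hI : (1 : O σ) ∉ I := fun h1 => (Ideal.IsPrime.ne_top ‹_›) ((Ideal.eq_top_iff_one I).2 h1)
  have hq : (∏ j, h j) ≠ 0 := Finset.prod_ne_zero_iff.2 fun j _ => hp.ne_zero j
  have hxT := gen_mem hp (c := (1 : K σ)) (by
    have := ι_mem_locRing (I := I) (1 : O σ)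
    rwa [map_one] at this)
  have hxN := gen_notMem hp hI
  rw [one_mul] at hxT
  rw [map_one, one_mul] at hxN
  obtain ⟨M, h1, h2, h3, h4⟩ := exists_minimal (∏ j, h j) hq (locN I h) (locT I h)
    (locN_dstable hp) (locT_dstable hp) (locN_le_locT hp) _
    ⟨1, 1, by rw [pow_one, mul_inv_cancel₀ (ι_ne_zero hq), map_one]⟩ hxT hxN
  exact ⟨M, h1, h2, h3, h4⟩

section GenLemmas

variable {Y S : Type} [Fintype Y] [DecidableEq Y] [Fintype S] [DecidableEq S]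
  {M₁ M₂ : Type} [AddCommGroup M₁] [AddCommGroup M₂] {m₁ : Model Y S M₁} {m₂ : Model Y S M₂}
  {κ₁ : M₁} {κ₂ : M₂}

omit [Fintype Y] [DecidableEq Y] [Fintype S] [DecidableEq S] in
theorem gen_zero : Model.Gen m₁ m₂ κ₁ κ₂ 0 0 := by
  have := Model.Gen.rho (m₁ := m₁) (m₂ := m₂) (κ₁ := κ₁) (κ₂ := κ₂) 0 Model.Gen.base
  simpa using this

omit [Fintype Y] [DecidableEq Y] [Fintype S] [DecidableEq S] in
theorem gen_sum {α : Type*} (s : Finset α) (f : α → M₁) (g : α → M₂)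
    (h : ∀ a ∈ s, Model.Gen m₁ m₂ κ₁ κ₂ (f a) (g a)) :
    Model.Gen m₁ m₂ κ₁ κ₂ (∑ a ∈ s, f a) (∑ a ∈ s, g a) := by
  classical
  induction s using Finset.induction_on with
  | empty => simpa using gen_zero
  | insert a s ha ih =>
    rw [Finset.sum_insert ha, Finset.sum_insert ha]
    exact (h a (Finset.mem_insert_self a s)).add
      (ih fun b hb => h b (Finset.mem_insert_of_mem hb))

theorem Model.D_apply (m₁ : Model Y S M₁) (c : Chart Y S) (i : Y ⊕ S) (x : M₁) :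
    m₁.D c i x = Sum.elim (fun j => m₁.δy j x) (fun _ => 0) i +
      ∑ l, m₁.ρ (c.Ψ (pderiv i (c.s l))) (m₁.δ l x) := by
  have h1 : (∑ l, m₁.ρ (c.Ψ (pderiv i (c.s l))) * m₁.δ l : AddMonoid.End M₁) x
      = ∑ l, m₁.ρ (c.Ψ (pderiv i (c.s l))) (m₁.δ l x) :=
    AddMonoidHom.finsetSum_apply _ _ _
  rw [← h1]
  cases i <;> rfl

theorem gen_D (c : Chart Y S) (i : Y ⊕ S) {x₁ : M₁} {x₂ : M₂}
    (h : Model.Gen m₁ m₂ κ₁ κ₂ x₁ x₂) :
    Model.Gen m₁ m₂ κ₁ κ₂ (m₁.D c i x₁) (m₂.D c i x₂) := by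
  rw [Model.D_apply, Model.D_apply]
  refine Model.Gen.add ?_ ?_
  · cases i with
    | inl j => exact Model.Gen.dely j h
    | inr l => exact gen_zero
  · apply gen_sum
    intro l _
    exact Model.Gen.rho _ (Model.Gen.del l h)

theorem gen_act (c : Chart Y S) (P : Op (Y ⊕ S)) {x₁ : M₁} {x₂ : M₂}
    (h : Model.Gen m₁ m₂ κ₁ κ₂ x₁ x₂) :
    Model.Gen m₁ m₂ κ₁ κ₂ (m₁.act c P x₁) (m₂.act c P x₂) := by
  have hw : ∀ w : List (Y ⊕ S),
      Model.Gen m₁ m₂ κ₁ κ₂ (m₁.DWord c w x₁) (m₂.DWord c w x₂) := by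
    intro w
    induction w with
    | nil => exact h
    | cons i w ih => exact gen_D c i ih
  apply gen_sum
  intro w _
  exact Model.Gen.rho _ (hw w)

end GenLemmas

theorem posCore (Z : Set (YT 0 ⊕ ST 0 → ℂ)) (hZ : GenVar 0 Z) :
    InChar Z {z | eval (z.1 ∘ Sum.inl) (stdChart 0).T.det ≠ 0 ∧
      (∀ l, eval z.1 (sO 0 l) = 0) ∧
      ∃ η : ST 0 → ℂ, ∀ i, z.2 i = ∑ l, η l * eval z.1 (pderiv i (sO 0 l))} := by
  have hprime := hZ.prime
  have hp := qsys_isParam 0 Z hZ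
  obtain ⟨M, hM⟩ := exists_BK hp
  refine ⟨8 + 0, qsys 0, M, hp, hM, ?_⟩
  rintro ⟨x, ξ⟩ ⟨hd, hs, η, hη⟩ f hf hfN P k hk hPf
  simp only at hd hs hη ⊢
  obtain ⟨hNM, hMT, hMD, hmin⟩ := hM
  have hND := locN_dstable hp
  set I := vanishingIdeal ℂ Z with hI
  set N := locN I (qsys 0) with hN
  -- the models
  have hκ₁ : KRel (fModel (YT 0) Delta0 Delta0_ne_zero) 1 := krelF
  have hκ₂ := krelK (stdChart 0) (stdChart_s 0) I hp hZ.hL hZ.hU
  set m₁ := fModel (YT 0) Delta0 Delta0_ne_zero with hm₁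
  set m₂ := kModel (stdChart 0) I (qsys 0) hp hZ.hL with hm₂
  -- a multiple of `kap2` in `M`
  obtain ⟨b, a, ha, hba⟩ := socle hp (hMT hf) hfN
  set f0 : O (YT 0 ⊕ ST 0) :=
    sO 0 (Sum.inl (0, 0, 0)) ^ 2 * sO 0 (Sum.inl (0, 1, 0)) * sO 0 (Sum.inl (1, 1, 0)) with hf0
  have hf0I : f0 ∉ I := by
    intro h
    rcases hprime.mem_or_mem h with h | h
    · rcases hprime.mem_or_mem h with h | h
      · exact hZ.hU (Sum.inl 0) (hprime.mem_of_pow_mem _ h)
      · exact hZ.hU (Sum.inl 2) h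
    · exact hZ.hU (Sum.inl 4) h
  have hkap : kap2 = ι f0 * (ι (∏ j, qsys 0 j))⁻¹ := rfl
  have hak : ι a * kap2 = ι f0 * (ι b * f) - ι f0 * (ι b * f - ι a * (ι (∏ j, qsys 0 j))⁻¹) := by
    rw [hkap]
    ring
  have haM : ι a * kap2 ∈ M := by
    rw [hak]
    exact M.sub_mem (ι_mul_mem _ (ι_mul_mem _ hf)) (ι_mul_mem _ (hNM.le hba))
  have haN : ι a * kap2 ∉ N := by
    have h1 : ι a * kap2 = ι (a * f0) * (ι (∏ j, qsys 0 j))⁻¹ := by
      have h2 : (ι (a * f0) : K (YT 0 ⊕ ST 0)) = ι a * ι f0 := map_mul _ _ _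
      rw [hkap, h2, mul_assoc]
    rw [h1]
    apply gen_notMem hp
    intro h
    rcases hprime.mem_or_mem h with h | h
    · exact ha h
    · exact hf0I h
  -- the submodule generated by it
  let G : Submodule (O (YT 0 ⊕ ST 0)) (K (YT 0 ⊕ ST 0)) :=
    sInf {M' | DStable M' ∧ ι a * kap2 ∈ M'}
  have hGD : DStable G := by
    intro i g hg
    rw [Submodule.mem_sInf] at hg ⊢
    intro M' hM'
    exact hM'.1 i g (hg M' hM')
  have hGa : ι a * kap2 ∈ G := by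
    rw [Submodule.mem_sInf]
    intro M' hM'
    exact hM'.2
  have hGM : G ≤ M := sInf_le ⟨hMD, haM⟩
  -- the submodule of all elements with a partner
  have hΨ : ∀ p : O (YT 0 ⊕ ST 0), ∀ g, m₂.ρ ((stdChart 0).Ψ p) g = ι p * g := by
    intro p g
    rw [hm₂, kModel_ρ, Chart.jA_Ψ]
  let G' : Submodule (O (YT 0 ⊕ ST 0)) (K (YT 0 ⊕ ST 0)) :=
    { carrier := {g | ∃ w, Model.Gen m₁ m₂ 1 kap2 w g}
      zero_mem' := ⟨0, gen_zero⟩
      add_mem' := by
        rintro g g' ⟨w, hw⟩ ⟨w', hw'⟩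
        exact ⟨w + w', hw.add hw'⟩
      smul_mem' := by
        rintro p g ⟨w, hw⟩
        refine ⟨m₁.ρ ((stdChart 0).Ψ p) w, ?_⟩
        have := Model.Gen.rho ((stdChart 0).Ψ p) hw
        rw [hΨ] at this
        rwa [Algebra.smul_def] }
  have hG'D : DStable G' := by
    rintro i g ⟨w, hw⟩
    refine ⟨m₁.D (stdChart 0) i w, ?_⟩
    have := gen_D (stdChart 0) i hw
    rwa [hm₂, kModel_D] at this
  have hG'a : ι a * kap2 ∈ G' := by
    refine ⟨m₁.ρ ((stdChart 0).Ψ a) 1, ?_⟩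
    have := Model.Gen.rho (m₁ := m₁) (m₂ := m₂) (κ₁ := 1) (κ₂ := kap2) ((stdChart 0).Ψ a)
      Model.Gen.base
    rwa [hΨ] at this
  have hGG' : G ≤ G' := sInf_le ⟨hG'D, hG'a⟩
  -- minimality
  have hNG : N ⊔ G = M := by
    apply hmin
    · refine lt_of_le_of_ne le_sup_left ?_
      intro h
      apply haN
      rw [hN] at h ⊢
      rw [h]
      exact Submodule.mem_sup_right hGa
    · exact sup_le hNM.le hGM
    · intro i g hg
      obtain ⟨n, hn, g', hg', rfl⟩ := Submodule.mem_sup.1 hg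
      rw [pd_add]
      exact Submodule.add_mem_sup (hND i n hn) (hGD i g' hg')
  rw [← hNG] at hf
  obtain ⟨n, hn, g, hg, rfl⟩ := Submodule.mem_sup.1 hf
  obtain ⟨w, hw⟩ := hGG' hg
  have hgN : g ∉ N := fun h => hfN (N.add_mem hn h)
  have hPg : P.act g ∈ N := by
    rw [act_add] at hPf
    exact (Submodule.add_mem_iff_right N (act_mem hND P hn)).1 hPf
  -- the partner is nonzero
  have hw0 : w ≠ 0 := by
    intro h0
    apply hgN
    have := (iso m₁ m₂ hκ₁ hκ₂ hw).1 (by rw [hm₁, fModel_mem_N]; exact h0)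
    rwa [hm₂, kModel_mem_N] at this
  have hPw : m₁.act (stdChart 0) P w = 0 := by
    have h1 := (iso m₁ m₂ hκ₁ hκ₂ (gen_act (stdChart 0) P hw)).2 (by
      rw [hm₂, kModel_act, kModel_mem_N]
      exact hPg)
    rwa [hm₁, fModel_mem_N] at h1
  have hs' : ∀ l, eval x ((stdChart 0).s l) = 0 := by
    intro l
    rw [stdChart_s]
    exact hs l
  have := symbol_vanish (stdChart 0) Delta0 Delta0_ne_zero P k hk w hw0 hPw x hd hs' η
  have hξ : ξ = fun i => ∑ l, η l * eval x (pderiv i ((stdChart 0).s l)) := by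
    funext i
    rw [hη i, stdChart_s]
  rw [hξ]
  exact this

end

end Adams
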