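import Pool.Agent.MP_fe6ac3_nt.Base

/-!
# [ADAMS-CHT] The standard chart

Blueprint.  `sF y z` is affine-linear in `z`.  `T l m` = `sLin (X) (Pi.single m 1) l`, where `sLin` is
the linear part of `sF` (drop in `P₁, P₂, Y₁, Y₂, γ` the terms without `z`), `t l = sF X 0 l`.
`det T ≠ 0`: at the base point `yBase` (`a₁ = p₁' = q₁' = r₂ = 1`, all other blocks `0`) the matrix `T`
is the identity.
-/

open MvPolynomial

namespace Adams

noncomputable section

/-- the base point: `a₁ = p₁' = q₁' = r₂ = 1`, the other blocks vanish -/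
def yBase {R : Type*} [CommRing R] (k : ℕ) : YT k → R :=
  Sum.elim (fun a => if (a.1 = 0 ∨ a.1 = 2 ∨ a.1 = 4 ∨ a.1 = 7) ∧ a.2.1 = a.2.2 then 1 else 0)
    (fun _ => 0)

section Nat

variable {R R' : Type*} [CommRing R] [CommRing R'] (φ : R →+* R') {k : ℕ}

theorem cht_yB_map (y : YT k → R) (b : Fin 8) : yB (φ ∘ y) b = (yB y b).map φ := rfl

theorem cht_yA3_map (y : YT k → R) : yA3 (φ ∘ y) = (yA3 y).map φ := rfl

theorem cht_yP3_map (y : YT k → R) : yP3 (φ ∘ y) = (yP3 y).map φ := rfl

theorem cht_zB_map (z : ST k → R) (b : Fin 4) : zB (φ ∘ z) b = (zB z b).map φ := rfl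

theorem cht_zP3_map (z : ST k → R) : zP3 (φ ∘ z) = (zP3 z).map φ := rfl

theorem cht_adj_map (A : Matrix (Fin 2) (Fin 2) R) : (A.map φ).adjugate = A.adjugate.map φ := by
  ext i j
  rw [Matrix.adjugate_fin_two, Matrix.adjugate_fin_two]
  fin_cases i <;> fin_cases j <;> simp

theorem cht_det_map (A : Matrix (Fin 2) (Fin 2) R) : (A.map φ).det = φ A.det := by
  rw [Matrix.det_fin_two, Matrix.det_fin_two]
  simp

theorem cht_smul_map {m n : Type*} (c : R) (A : Matrix m n R) :
    (c • A).map φ = φ c • A.map φ := by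
  ext i j; simp

theorem cht_add_map {m n : Type*} (A B : Matrix m n R) :
    (A + B).map φ = A.map φ + B.map φ := by
  ext i j; simp

theorem cht_sub_map {m n : Type*} (A B : Matrix m n R) :
    (A - B).map φ = A.map φ - B.map φ := by
  ext i j; simp

theorem cht_mul_map {m n p : Type*} [Fintype n] (A : Matrix m n R) (B : Matrix n p R) :
    (A * B).map φ = A.map φ * B.map φ := by
  ext i j; simp [Matrix.mul_apply]

theorem cht_P1_map (y : YT k → R) (z : ST k → R) :
    P1 (φ ∘ y) (φ ∘ z) = (P1 y z).map φ := by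
  simp only [P1, cht_yB_map, cht_yA3_map, cht_yP3_map, cht_zB_map, cht_add_map, cht_mul_map]

theorem cht_P2_map (y : YT k → R) (z : ST k → R) :
    P2 (φ ∘ y) (φ ∘ z) = (P2 y z).map φ := by
  simp only [P2, cht_yB_map, cht_yA3_map, cht_zP3_map, cht_zB_map, cht_add_map, cht_mul_map]

theorem cht_Y1_map (y : YT k → R) (z : ST k → R) :
    Y1 (φ ∘ y) (φ ∘ z) = (Y1 y z).map φ := by
  simp only [Y1, cht_yB_map, cht_zB_map, cht_add_map, cht_mul_map]

theorem cht_Y2_map (y : YT k → R) (z : ST k → R) :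
    Y2 (φ ∘ y) (φ ∘ z) = (Y2 y z).map φ := by
  simp only [Y2, cht_yB_map, cht_zB_map, cht_add_map, cht_mul_map]

theorem cht_rh_map (y : YT k → R) : rh (φ ∘ y) = (rh y).map φ := by
  simp only [rh, cht_yB_map, cht_add_map, cht_mul_map]

theorem cht_al_map (y : YT k → R) (z : ST k → R) :
    al (φ ∘ y) (φ ∘ z) = (al y z).map φ := by
  simp only [al, cht_yB_map, cht_P1_map, cht_P2_map, cht_add_map, cht_mul_map]

theorem cht_be_map (y : YT k → R) (z : ST k → R) :
    be (φ ∘ y) (φ ∘ z) = (be y z).map φ := by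
  simp only [be, cht_yB_map, cht_P2_map, cht_al_map, cht_rh_map, cht_sub_map, cht_mul_map,
    cht_det_map, cht_adj_map, cht_smul_map]

theorem cht_ep_map (y : YT k → R) (z : ST k → R) :
    ep (φ ∘ y) (φ ∘ z) = (ep y z).map φ := by
  simp only [ep, cht_yB_map, cht_Y1_map, cht_Y2_map, cht_rh_map, cht_add_map, cht_mul_map,
    cht_adj_map]

theorem cht_de_map (y : YT k → R) (z : ST k → R) :
    de (φ ∘ y) (φ ∘ z) = (de y z).map φ := by
  simp only [de, cht_yB_map, cht_Y1_map, cht_Y2_map, cht_sub_map, cht_mul_map,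
    cht_det_map, cht_adj_map, cht_smul_map]

theorem cht_ga_map (y : YT k → R) (z : ST k → R) :
    ga (φ ∘ y) (φ ∘ z) = (ga y z).map φ := by
  simp only [ga, cht_yB_map, cht_yP3_map, cht_zP3_map, cht_rh_map, cht_sub_map, cht_add_map,
    cht_mul_map, cht_det_map, cht_adj_map, cht_smul_map]

/-- naturality of the coordinate functions -/
theorem sF_map (y : YT k → R) (z : ST k → R) (l : ST k) :
    φ (sF y z l) = sF (φ ∘ y) (φ ∘ z) l := by
  rcases l with ⟨b, i, j⟩ | ⟨i, e⟩
  · simp only [sF, Sum.elim_inl, cht_al_map, cht_be_map, cht_ep_map, cht_de_map]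
    fin_cases b <;> simp
  · simp only [sF, Sum.elim_inr, cht_ga_map, Matrix.map_apply]

theorem quad_map (s : ST k → R) (j : Fin 8) : φ (quad s j) = quad (φ ∘ s) j := by
  fin_cases j <;> simp [quad, zB]

theorem quadE_map (s : ST k → R) (e : Fin k) : φ (quadE s e) = quadE (φ ∘ s) e := by
  simp [quadE]

theorem quadAll_map (s : ST k → R) (j : Fin (8 + k)) :
    φ (quadAll s j) = quadAll (φ ∘ s) j := by
  unfold quadAll
  refine Fin.addCases (fun i => ?_) (fun i => ?_) j
  · rw [Fin.addCases_left, Fin.addCases_left, quad_map]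
  · rw [Fin.addCases_right, Fin.addCases_right, quadE_map]

end Nat

section Aff

variable {R : Type*} [CommRing R] {k : ℕ}

theorem cht_zB_add (z z' : ST k → R) (c : R) (b : Fin 4) :
    zB (z + c • z') b = zB z b + c • zB z' b := by
  ext i j; simp [zB]

theorem cht_zP3_add (z z' : ST k → R) (c : R) :
    zP3 (z + c • z') = zP3 z + c • zP3 z' := by
  ext i j; simp [zP3]

theorem cht_zB_zero (b : Fin 4) : zB (0 : ST k → R) b = 0 := by
  ext i j; simp [zB]

theorem cht_zP3_zero : zP3 (0 : ST k → R) = 0 := by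
  ext i j; simp [zP3]

theorem cht_P1_aff (y : YT k → R) (z z' : ST k → R) (c : R) :
    P1 y (z + c • z') = P1 y z + c • (P1 y z' - P1 y 0) := by
  simp only [P1, cht_zB_add, cht_zB_zero, add_mul, Matrix.smul_mul, Matrix.zero_mul]
  module

theorem cht_P2_aff (y : YT k → R) (z z' : ST k → R) (c : R) :
    P2 y (z + c • z') = P2 y z + c • (P2 y z' - P2 y 0) := by
  simp only [P2, cht_zB_add, cht_zB_zero, cht_zP3_add, cht_zP3_zero, add_mul, Matrix.add_mul,
    Matrix.smul_mul, Matrix.zero_mul]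
  module

theorem cht_Y1_aff (y : YT k → R) (z z' : ST k → R) (c : R) :
    Y1 y (z + c • z') = Y1 y z + c • (Y1 y z' - Y1 y 0) := by
  simp only [Y1, cht_zB_add, cht_zB_zero, mul_add, Matrix.mul_smul, Matrix.mul_zero]
  module

theorem cht_Y2_aff (y : YT k → R) (z z' : ST k → R) (c : R) :
    Y2 y (z + c • z') = Y2 y z + c • (Y2 y z' - Y2 y 0) := by
  simp only [Y2, cht_zB_add, cht_zB_zero, mul_add, Matrix.mul_smul, Matrix.mul_zero]
  module

theorem cht_al_aff (y : YT k → R) (z z' : ST k → R) (c : R) :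
    al y (z + c • z') = al y z + c • (al y z' - al y 0) := by
  simp only [al, cht_P1_aff, cht_P2_aff, mul_add, mul_sub, Matrix.mul_smul]
  module

theorem cht_be_aff (y : YT k → R) (z z' : ST k → R) (c : R) :
    be y (z + c • z') = be y z + c • (be y z' - be y 0) := by
  simp only [be, cht_al_aff, cht_P2_aff, mul_add, mul_sub, Matrix.mul_smul]
  module

theorem cht_ep_aff (y : YT k → R) (z z' : ST k → R) (c : R) :
    ep y (z + c • z') = ep y z + c • (ep y z' - ep y 0) := by
  simp only [ep, cht_Y1_aff, cht_Y2_aff, add_mul, sub_mul, Matrix.smul_mul]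
  module

theorem cht_de_aff (y : YT k → R) (z z' : ST k → R) (c : R) :
    de y (z + c • z') = de y z + c • (de y z' - de y 0) := by
  simp only [de, cht_Y1_aff, cht_Y2_aff, add_mul, sub_mul, Matrix.smul_mul]
  module

theorem cht_ga_aff (y : YT k → R) (z z' : ST k → R) (c : R) :
    ga y (z + c • z') = ga y z + c • (ga y z' - ga y 0) := by
  simp only [ga, cht_zP3_add, cht_zP3_zero, Matrix.mul_add, Matrix.mul_smul, Matrix.mul_zero]
  module

/-- `sF` is affine-linear in `z` -/
theorem sF_aff (y : YT k → R) (z z' : ST k → R) (c : R) (l : ST k) :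
    sF y (z + c • z') l = sF y z l + c * (sF y z' l - sF y 0 l) := by
  rcases l with ⟨b, i, j⟩ | ⟨i, e⟩
  · simp only [sF, Sum.elim_inl, cht_al_aff, cht_be_aff, cht_ep_aff, cht_de_aff]
    fin_cases b <;> simp
  · simp only [sF, Sum.elim_inr, cht_ga_aff]
    simp

/-- the linear part of `sF` -/
def sLin (y : YT k → R) (l : ST k) : (ST k → R) →ₗ[R] R where
  toFun z := sF y z l - sF y 0 l
  map_add' z z' := by
    have h := sF_aff y z z' 1 l
    rw [one_smul, one_mul] at h
    rw [h]; ring
  map_smul' c z := by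
    have h := sF_aff y 0 z c l
    rw [zero_add] at h
    rw [h, RingHom.id_apply, smul_eq_mul]; ring

theorem sLin_apply (y : YT k → R) (l : ST k) (z : ST k → R) :
    sLin y l z = sF y z l - sF y 0 l := rfl

theorem sF_eq_sum (y : YT k → R) (z : ST k → R) (l : ST k) :
    sF y z l = ∑ m, (sF y (Pi.single m 1) l - sF y 0 l) * z m + sF y 0 l := by
  have h := LinearMap.pi_apply_eq_sum_univ (sLin y l) z
  rw [sLin_apply] at h
  have h2 : ∀ m, z m • (sLin y l fun j => if m = j then 1 else 0) =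
      (sF y (Pi.single m 1) l - sF y 0 l) * z m := by
    intro m
    have h3 : (fun j => if m = j then (1 : R) else 0) = Pi.single m 1 := by
      funext j
      rw [Pi.single_apply]
      by_cases hj : m = j
      · simp [hj]
      · simp [hj, Ne.symm hj]
    rw [h3, sLin_apply, smul_eq_mul, mul_comm]
  rw [Finset.sum_congr rfl fun m _ => h2 m] at h
  rw [← h]; ring

theorem cht_yB_base (b : Fin 8) : yB (yBase k : YT k → R) b =
    if b = 0 ∨ b = 2 ∨ b = 4 ∨ b = 7 then 1 else 0 := by
  ext i j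
  by_cases hb : b = 0 ∨ b = 2 ∨ b = 4 ∨ b = 7
  · rw [if_pos hb]
    simp only [yB, yBase, Matrix.of_apply, Sum.elim_inl, hb, true_and, Matrix.one_apply]
  · rw [if_neg hb]
    simp only [yB, yBase, Matrix.of_apply, Sum.elim_inl, hb, false_and, if_false,
      Matrix.zero_apply]

theorem sF_base (z : ST k → R) : sF (yBase k) z = z := by
  have hA : yA3 (yBase k : YT k → R) = 0 := by ext i j; simp [yA3, yBase]
  have hP : yP3 (yBase k : YT k → R) = 0 := by ext i j; simp [yP3, yBase]
  have h0 : yB (yBase k : YT k → R) 0 = 1 := by rw [cht_yB_base]; simp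
  have h1 : yB (yBase k : YT k → R) 1 = 0 := by rw [cht_yB_base]; simp
  have h2 : yB (yBase k : YT k → R) 2 = 1 := by rw [cht_yB_base]; simp
  have h3 : yB (yBase k : YT k → R) 3 = 0 := by rw [cht_yB_base]; simp
  have h4 : yB (yBase k : YT k → R) 4 = 1 := by rw [cht_yB_base]; simp
  have h5 : yB (yBase k : YT k → R) 5 = 0 := by rw [cht_yB_base]; simp
  have h6 : yB (yBase k : YT k → R) 6 = 0 := by rw [cht_yB_base]; simp
  have h7 : yB (yBase k : YT k → R) 7 = 1 := by rw [cht_yB_base]; simp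
  have hr : rh (yBase k : YT k → R) = 1 := by
    simp [rh, h2, h3, h4, h5]
  have e1 : P1 (yBase k) z = zB z 0 := by simp [P1, h0, h1, h2, hA, hP]
  have e2 : P2 (yBase k) z = zB z 1 := by simp [P2, h0, h1, h3, hA]
  have e3 : Y1 (yBase k) z = zB z 2 := by simp [Y1, h6, h7]
  have e4 : Y2 (yBase k) z = zB z 3 := by simp [Y2, h6, h7]
  have f1 : al (yBase k) z = zB z 0 := by simp [al, e1, h4, h5]
  have f2 : be (yBase k) z = zB z 1 := by simp [be, hr, e2, h3]
  have f3 : ep (yBase k) z = zB z 2 := by simp [ep, hr, e3, h2, h3]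
  have f4 : de (yBase k) z = zB z 3 := by simp [de, e4, h4, h5]
  have f5 : ga (yBase k) z = zP3 z := by simp [ga, hr, h3]
  funext l
  rcases l with ⟨b, i, j⟩ | ⟨i, e⟩
  · simp only [sF, Sum.elim_inl, f1, f2, f3, f4]
    fin_cases b <;> simp [zB]
  · simp only [sF, Sum.elim_inr, f5]
    simp [zP3]

end Aff

/-- the linear part of the standard chart -/
def stdT (k : ℕ) : Matrix (ST k) (ST k) (O (YT k)) :=
  Matrix.of fun l m => sF (fun i => X i) (Pi.single m 1) l - sF (fun i => X i) 0 l

/-- the constant term of the standard chart -/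
def stdt (k : ℕ) (l : ST k) : O (YT k) := sF (fun i => X i) 0 l

theorem stdT_det (k : ℕ) : eval (yBase k) (stdT k).det = 1 := by
  rw [RingHom.map_det]
  have h1 : (eval (yBase k)).mapMatrix (stdT k) = 1 := by
    ext l m
    rw [RingHom.mapMatrix_apply, Matrix.map_apply, stdT, Matrix.of_apply, map_sub, sF_map, sF_map]
    have e1 : (eval (yBase k : YT k → ℂ)) ∘ (fun i => X i : YT k → O (YT k)) = yBase k := by
      funext i; simp
    have e2 : (eval (yBase k : YT k → ℂ)) ∘ (Pi.single m 1 : ST k → O (YT k)) =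
        Pi.single m 1 := by
      funext i
      rw [Function.comp_apply, Pi.single_apply, Pi.single_apply]
      split_ifs <;> simp
    have e3 : (eval (yBase k : YT k → ℂ)) ∘ (0 : ST k → O (YT k)) = 0 := by
      funext i; simp
    rw [e1, e2, e3, sF_base, sF_base, Pi.single_apply, Matrix.one_apply]
    simp
  rw [h1, Matrix.det_one]

/-- the renaming homomorphism -/
def chtRen (k : ℕ) : O (YT k) →+* O (YT k ⊕ ST k) :=
  (rename (Sum.inl : YT k → YT k ⊕ ST k)).toRingHom

theorem chtRen_apply (k : ℕ) (f : O (YT k)) : chtRen k f = rename Sum.inl f := rfl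

/-- the `y`-variables -/
def chtY (k : ℕ) : YT k → O (YT k ⊕ ST k) := fun i => X (Sum.inl i)

theorem cht_ren (k : ℕ) (z : ST k → O (YT k)) (l : ST k) :
    chtRen k (sF (fun i => X i) z l) = sF (chtY k) (chtRen k ∘ z) l := by
  rw [sF_map]
  have e2 : (chtRen k ∘ (fun i => X i : YT k → O (YT k))) = chtY k := by
    funext i
    rw [Function.comp_apply, chtRen_apply, rename_X]
    rfl
  rw [e2]

theorem cht_ren_single (k : ℕ) (m : ST k) :
    chtRen k ∘ (Pi.single m 1 : ST k → O (YT k)) = Pi.single m 1 := by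
  funext i
  rw [Function.comp_apply, Pi.single_apply, Pi.single_apply]
  split_ifs
  · exact map_one _
  · exact map_zero _

theorem cht_ren_zero (k : ℕ) : chtRen k ∘ (0 : ST k → O (YT k)) = 0 := by
  funext i
  exact map_zero _

theorem cht_hs (k : ℕ) (l : ST k) :
    sO k l = ∑ m, chtRen k (stdT k l m) * X (Sum.inr m) + chtRen k (stdt k l) := by
  have h := sF_eq_sum (chtY k) (fun i => X (Sum.inr i)) l
  have h1 : ∀ m, chtRen k (stdT k l m) = sF (chtY k) (Pi.single m 1) l - sF (chtY k) 0 l := by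
    intro m
    rw [stdT, Matrix.of_apply, map_sub, cht_ren, cht_ren, cht_ren_single, cht_ren_zero]
  have h2 : chtRen k (stdt k l) = sF (chtY k) 0 l := by
    rw [stdt, cht_ren, cht_ren_zero]
  rw [h2, Finset.sum_congr rfl fun m _ => by rw [h1 m]]
  exact h

theorem exists_stdChart (k : ℕ) :
    ∃ c : Chart (YT k) (ST k), c.s = sO k ∧ eval (yBase k) c.T.det ≠ 0 := by
  refine ⟨{ s := sO k, T := stdT k, t := stdt k, hs := cht_hs k, hT := ?_ }, rfl, ?_⟩
  · intro h0
    have h := stdT_det k
    rw [h0, map_zero] at h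
    exact zero_ne_one h
  · rw [stdT_det k]
    exact one_ne_zero

/-- the standard chart -/
def stdChart (k : ℕ) : Chart (YT k) (ST k) := (exists_stdChart k).choose

theorem stdChart_s (k : ℕ) : (stdChart k).s = sO k := (exists_stdChart k).choose_spec.1

theorem stdChart_det (k : ℕ) : eval (yBase k) (stdChart k).T.det ≠ 0 :=
  (exists_stdChart k).choose_spec.2

/-- evaluation of the coordinate functions -/
theorem eval_sO (k : ℕ) (x : YT k ⊕ ST k → ℂ) (l : ST k) :
    eval x (sO k l) = sF (x ∘ Sum.inl) (x ∘ Sum.inr) l := by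
  unfold sO
  rw [sF_map]
  congr 1
  · funext i; simp
  · funext i; simp

theorem eval_qsys (k : ℕ) (x : YT k ⊕ ST k → ℂ) (j : Fin (8 + k)) :
    eval x (qsys k j) = quadAll (sF (x ∘ Sum.inl) (x ∘ Sum.inr)) j := by
  unfold qsys
  rw [quadAll_map]
  congr 1
  funext l
  exact eval_sO k x l

end

end Adams
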